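import Mathlib

set_option autoImplicit false

namespace Pool.Agent.V11112.TS

variable {d : ℕ} {α : Type}

/-- The hom Markov tree-shift of a relation `E`. -/
def TreeShift (d : ℕ) (E : α → α → Prop) : Set (List (Fin d) → α) :=
  {t | ∀ (g : List (Fin d)) (i : Fin d), E (t g) (t (g ++ [i]))}

/-- Restriction to the words of length at most `n`. -/
def restr (d : ℕ) (α : Type) (n : ℕ) (t : List (Fin d) → α) :
    {g : List (Fin d) // g.length ≤ n} → α := fun g => t g.1

/-- The number of patterns of height `n`. -/
noncomputable def patt (d : ℕ) (E : α → α → Prop) (n : ℕ) : ℕ :=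
  (restr d α n '' TreeShift d E).ncard

/-- Labelled trees of height `n`. -/
def Lab (d : ℕ) (α : Type) : ℕ → Type
  | 0 => α
  | n + 1 => α × (Fin d → Lab d α n)

instance instFiniteLab (d : ℕ) (α : Type) [Finite α] : ∀ n, Finite (Lab d α n)
  | 0 => inferInstanceAs (Finite α)
  | n + 1 => by
    haveI := instFiniteLab d α n
    exact inferInstanceAs (Finite (α × (Fin d → Lab d α n)))

/-- The labelled tree of height `n` of a labelling. -/
def tr (d : ℕ) (α : Type) : (n : ℕ) → (List (Fin d) → α) → Lab d α n
  | 0, t => t []
  | n + 1, t => (t [], fun i => tr d α n (fun g => t (i :: g)))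

theorem tr_eq_iff (n : ℕ) : ∀ t t' : List (Fin d) → α,
    tr d α n t = tr d α n t' ↔ ∀ g : List (Fin d), g.length ≤ n → t g = t' g := by
  induction n with
  | zero =>
    intro t t'
    constructor
    · intro h g hg
      have : g = [] := List.length_eq_zero_iff.1 (by omega)
      subst this
      exact h
    · intro h
      exact h [] (by simp)
  | succ n ih =>
    intro t t'
    constructor
    · intro h g hg
      have h1 : t [] = t' [] := congrArg Prod.fst h
      have h2 : (fun i => tr d α n (fun g => t (i :: g))) =
          fun i => tr d α n (fun g => t' (i :: g)) := congrArg Prod.snd h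
      cases g with
      | nil => exact h1
      | cons i g =>
        have h3 := congrFun h2 i
        rw [ih] at h3
        exact h3 g (by simpa using hg)
    · intro h
      refine Prod.ext (h [] (by simp)) ?_
      funext i
      show tr d α n (fun g => t (i :: g)) = tr d α n (fun g => t' (i :: g))
      rw [ih]
      intro g hg
      exact h (i :: g) (by simpa using hg)

theorem patt_eq (E : α → α → Prop) (n : ℕ) :
    patt d E n = (tr d α n '' TreeShift d E).ncard := by
  -- both images are in bijection
  let f : ({g : List (Fin d) // g.length ≤ n} → α) → Set (Lab d α n) := fun x =>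
    {y | ∃ t, restr d α n t = x ∧ tr d α n t = y}
  have hiff : ∀ t t' : List (Fin d) → α, restr d α n t = restr d α n t' ↔
      tr d α n t = tr d α n t' := by
    intro t t'
    rw [tr_eq_iff]
    constructor
    · intro h g hg
      exact congrFun h ⟨g, hg⟩
    · intro h
      funext g
      exact h g.1 g.2
  unfold patt
  apply Set.ncard_congr (f := fun x hx => tr d α n (Classical.choose hx))
  · intro x hx
    exact ⟨_, (Classical.choose_spec hx).1, rfl⟩
  · intro x y hx hy h
    have h1 := (Classical.choose_spec hx).2
    have h2 := (Classical.choose_spec hy).2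
    rw [← h1, ← h2, hiff]
    exact h
  · rintro y ⟨t, ht, rfl⟩
    refine ⟨restr d α n t, ⟨t, ht, rfl⟩, ?_⟩
    rw [← hiff]
    exact (Classical.choose_spec (⟨t, ht, rfl⟩ : restr d α n t ∈ restr d α n '' TreeShift d E)).2

/-- Gluing a root and subtrees. -/
def mk {n : ℕ} (a : α) (f : Fin d → Lab d α n) : Lab d α (n + 1) := (a, f)

theorem mk_injective {n : ℕ} (a : α) : Function.Injective (mk (d := d) (n := n) a) := by
  intro f f' h
  exact congrArg Prod.snd h

/-- Patterns of height `n` with a given root. -/
def PS (d : ℕ) (E : α → α → Prop) (n : ℕ) (a : α) : Set (Lab d α n) :=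
  {y | ∃ t ∈ TreeShift d E, t [] = a ∧ tr d α n t = y}

theorem tr_root (n : ℕ) (t : List (Fin d) → α) :
    (match n, tr d α n t with
      | 0, y => y
      | _ + 1, y => y.1) = t [] := by
  cases n <;> rfl

theorem root_eq {n : ℕ} {t t' : List (Fin d) → α} (h : tr d α n t = tr d α n t') :
    t [] = t' [] := (tr_eq_iff n t t').1 h [] (by simp)

theorem PS_disjoint {E : α → α → Prop} {n : ℕ} {a b : α} (h : a ≠ b) :
    Disjoint (PS d E n a) (PS d E n b) := by
  rw [Set.disjoint_left]
  rintro y ⟨t, -, ha, ht⟩ ⟨t', -, hb, ht'⟩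
  apply h
  rw [← ha, ← hb]
  exact root_eq (ht.trans ht'.symm)

/-- Number of patterns with a given root. -/
noncomputable def cc (d : ℕ) (E : α → α → Prop) (n : ℕ) (a : α) : ℕ := (PS d E n a).ncard

theorem patt_eq_sum [Fintype α] (E : α → α → Prop) (n : ℕ) :
    patt d E n = ∑ a, cc d E n a := by
  classical
  rw [patt_eq]
  have h1 : tr d α n '' TreeShift d E = ⋃ a, PS d E n a := by
    ext y
    simp only [Set.mem_image, Set.mem_iUnion]
    constructor
    · rintro ⟨t, ht, rfl⟩
      exact ⟨t [], t, ht, rfl, rfl⟩
    · rintro ⟨a, t, ht, -, rfl⟩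
      exact ⟨t, ht, rfl⟩
  rw [h1, Set.ncard_iUnion_of_finite (fun a => Set.toFinite _)
    (fun a b hab => PS_disjoint hab)]
  exact finsum_eq_sum_of_fintype _

theorem cc_succ [Fintype α] (E : α → α → Prop) [∀ a b, Decidable (E a b)] (n : ℕ) (a : α) :
    cc d E (n + 1) a = (∑ b, if E a b then cc d E n b else 0) ^ d := by
  classical
  -- the union of successors
  let U : Set (Lab d α n) := ⋃ b : {b // E a b}, PS d E n b.1
  have hU : U.ncard = ∑ b, if E a b then cc d E n b else 0 := by
    show (⋃ b : {b // E a b}, PS d E n b.1).ncard = _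
    rw [Set.ncard_iUnion_of_finite (fun a => Set.toFinite _)
      (fun b b' hbb => PS_disjoint (fun h => hbb (Subtype.ext h))), finsum_eq_sum_of_fintype,
      ← Finset.sum_filter]
    exact (Finset.sum_subtype (Finset.univ.filter (fun b => E a b)) (by simp)
      (fun b => cc d E n b)).symm
  rw [← hU]
  -- the bijection
  have hbij : PS d E (n + 1) a = mk a '' (Set.pi Set.univ fun _ => U) := by
    ext y
    constructor
    · rintro ⟨t, ht, hta, rfl⟩
      refine ⟨fun i => tr d α n (fun g => t (i :: g)), ?_, ?_⟩
      · intro i _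
        refine Set.mem_iUnion.2 ⟨⟨t [i], ?_⟩, fun g => t (i :: g), ?_, rfl, rfl⟩
        · have := ht [] i
          rw [hta] at this
          exact this
        · intro g j
          exact ht (i :: g) j
      · rw [← hta]
        rfl
    · rintro ⟨f, hf, rfl⟩
      have h1 : ∀ i, ∃ t ∈ TreeShift d E, E a (t []) ∧ tr d α n t = f i := by
        intro i
        obtain ⟨⟨b, hb⟩, t, ht, htb, htr⟩ := Set.mem_iUnion.1 (hf i (Set.mem_univ i))
        exact ⟨t, ht, by rw [htb]; exact hb, htr⟩
      choose s hs1 hs2 hs3 using h1
      let t : List (Fin d) → α := fun g => match g with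
        | [] => a
        | i :: g => s i g
      refine ⟨t, ?_, rfl, ?_⟩
      · intro g j
        cases g with
        | nil => exact hs2 j
        | cons i g => exact hs1 i g j
      · show mk a (fun i => tr d α n (fun g => t (i :: g))) = mk a f
        congr 1
        funext i
        exact hs3 i
  unfold cc
  rw [hbij, Set.ncard_image_of_injective _ (mk_injective a)]
  · have h2 : (Set.pi Set.univ fun _ : Fin d => U).ncard = Nat.card (Fin d → U) := by
      rw [← Nat.card_coe_set_eq]
      apply Nat.card_congr
      exact {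
        toFun := fun x i => ⟨x.1 i, x.2 i (Set.mem_univ i)⟩
        invFun := fun f => ⟨fun i => (f i).1, fun i _ => (f i).2⟩
        left_inv := fun x => rfl
        right_inv := fun f => rfl }
    rw [h2, Nat.card_fun, Nat.card_coe_set_eq, Nat.card_fin]

theorem cc_zero_or_one (E : α → α → Prop) (a : α) : cc d E 0 a = 0 ∨ cc d E 0 a = 1 := by
  by_cases h : ∃ t ∈ TreeShift d E, t [] = a
  · right
    have : PS d E 0 a = {a} := by
      ext y
      constructor
      · rintro ⟨t, -, hta, rfl⟩
        exact hta
      · rintro rfl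
        obtain ⟨t, ht, hta⟩ := h
        exact ⟨t, ht, hta, hta⟩
    unfold cc
    rw [this]
    exact Set.ncard_singleton a
  · left
    have : PS d E 0 a = ∅ := by
      rw [Set.eq_empty_iff_forall_notMem]
      rintro y ⟨t, ht, hta, -⟩
      exact h ⟨t, ht, hta⟩
    unfold cc
    rw [this]
    exact Set.ncard_empty _

theorem cc_pos_iff [Finite α] (E : α → α → Prop) (n : ℕ) (a : α) :
    0 < cc d E n a ↔ ∃ t ∈ TreeShift d E, t [] = a := by
  unfold cc
  rw [Set.ncard_pos (Set.toFinite _)]
  constructor
  · rintro ⟨y, t, ht, hta, -⟩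
    exact ⟨t, ht, hta⟩
  · rintro ⟨t, ht, hta⟩
    exact ⟨_, t, ht, hta, rfl⟩

end Pool.Agent.V11112.TS
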