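import Mathlib
import Pool.Agent.V11112.TS1

set_option autoImplicit false

open Filter Topology

namespace Pool.Agent.V11112.TS

/-- The golden mean recursion: number of patterns with root of out-degree two / one. -/
def xy (d : ℕ) : ℕ → ℕ × ℕ
  | 0 => (1, 1)
  | n + 1 => (((xy d n).1 + (xy d n).2) ^ d, (xy d n).1 ^ d)

theorem xy_succ_fst (d n : ℕ) : (xy d (n + 1)).1 = ((xy d n).1 + (xy d n).2) ^ d := rfl
theorem xy_succ_snd (d n : ℕ) : (xy d (n + 1)).2 = (xy d n).1 ^ d := rfl

theorem y_le_x (d n : ℕ) : (xy d n).2 ≤ (xy d n).1 := by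
  cases n with
  | zero => exact le_rfl
  | succ n =>
    rw [xy_succ_fst, xy_succ_snd]
    exact Nat.pow_le_pow_left (Nat.le_add_right _ _) d

theorem x_pos (d n : ℕ) : 1 ≤ (xy d n).1 := by
  induction n with
  | zero => exact le_rfl
  | succ n ih =>
    rw [xy_succ_fst]
    exact Nat.one_le_pow _ _ (by omega)

/-- Growth bound for the golden mean recursion. -/
theorem x_bound (d : ℕ) (hd : 2 ≤ d) (n0 : ℕ) (n : ℕ) :
    Real.log (xy d (n0 + n)).1 + d * Real.log 2 / (d - 1) ≤
      (d : ℝ) ^ n * (Real.log (xy d n0).1 + d * Real.log 2 / (d - 1)) := by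
  have hd1 : (0 : ℝ) < (d : ℝ) - 1 := by
    have : (2 : ℝ) ≤ d := by exact_mod_cast hd
    linarith
  induction n with
  | zero => simp
  | succ n ih =>
    have hx : (0 : ℝ) < (xy d (n0 + n)).1 := by
      have := x_pos d (n0 + n)
      exact_mod_cast this
    have h1 : ((xy d (n0 + (n + 1))).1 : ℝ) ≤ (2 * ((xy d (n0 + n)).1 : ℝ)) ^ d := by
      rw [← add_assoc, xy_succ_fst]
      push_cast
      apply pow_le_pow_left₀ (by positivity)
      have := y_le_x d (n0 + n)
      have : ((xy d (n0 + n)).2 : ℝ) ≤ (xy d (n0 + n)).1 := by exact_mod_cast this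
      linarith
    have hx' : (0 : ℝ) < (xy d (n0 + (n + 1))).1 := by
      have := x_pos d (n0 + (n + 1))
      exact_mod_cast this
    have h2 := Real.log_le_log hx' h1
    rw [Real.log_pow, Real.log_mul (by norm_num) hx.ne'] at h2
    have h3 : (d : ℝ) * Real.log 2 + d * Real.log 2 / (d - 1) =
        d * (d * Real.log 2 / (d - 1)) := by
      field_simp
      ring
    have h4 : (0 : ℝ) ≤ d := by positivity
    calc Real.log (xy d (n0 + (n + 1))).1 + d * Real.log 2 / (d - 1) ≤
          d * (Real.log 2 + Real.log (xy d (n0 + n)).1) + d * Real.log 2 / (d - 1) := by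
            linarith
      _ = d * (Real.log (xy d (n0 + n)).1 + d * Real.log 2 / (d - 1)) := by
            rw [mul_add, add_comm ((d : ℝ) * Real.log 2), add_assoc, h3]
            ring
      _ ≤ d * ((d : ℝ) ^ n * (Real.log (xy d n0).1 + d * Real.log 2 / (d - 1))) :=
            mul_le_mul_of_nonneg_left ih h4
      _ = _ := by ring

/-- The numerical gap. -/
theorem exists_ell (d : ℕ) (hd : 2 ≤ d) :
    ∃ (ell : ℝ) (n0 : ℕ), ell < (1 + 1 / (d : ℝ)) * Real.log 2 ∧
      ∀ n, n0 ≤ n → Real.log (xy d n).1 ≤ ell * (d : ℝ) ^ n := by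
  have key : ∀ n0 : ℕ, (Real.log (xy d n0).1 + d * Real.log 2 / (d - 1)) / (d : ℝ) ^ n0 <
      (1 + 1 / (d : ℝ)) * Real.log 2 →
      ∃ (ell : ℝ) (n0 : ℕ), ell < (1 + 1 / (d : ℝ)) * Real.log 2 ∧
      ∀ n, n0 ≤ n → Real.log (xy d n).1 ≤ ell * (d : ℝ) ^ n := by
    intro n0 h
    refine ⟨_, n0, h, fun n hn => ?_⟩
    obtain ⟨m, rfl⟩ := Nat.exists_eq_add_of_le hn
    have h1 := x_bound d hd n0 m
    have hd0 : (0 : ℝ) < d := by
      have : 0 < d := by omega
      exact_mod_cast this
    have hd1 : (0 : ℝ) < (d : ℝ) - 1 := by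
      have : (2 : ℝ) ≤ d := by exact_mod_cast hd
      linarith
    have h2 : 0 ≤ d * Real.log 2 / ((d : ℝ) - 1) := by
      have : 0 < Real.log 2 := Real.log_pos (by norm_num)
      positivity
    have h3 : (Real.log (xy d n0).1 + d * Real.log 2 / (d - 1)) / (d : ℝ) ^ n0 *
        (d : ℝ) ^ (n0 + m) =
        (d : ℝ) ^ m * (Real.log (xy d n0).1 + d * Real.log 2 / (d - 1)) := by
      rw [pow_add]
      field_simp
    rw [h3]
    linarith
  rcases Nat.eq_or_lt_of_le hd with h2 | h3
  · -- d = 2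
    subst h2
    apply key 5
    have hx5 : (xy 2 5).1 = 66314914699609 := by
      simp [xy]
    rw [hx5]
    push_cast
    have hlog2 : 0 < Real.log 2 := Real.log_pos (by norm_num)
    have h1 : Real.log (66314914699609 : ℝ) = 2 * Real.log 8143397 := by
      have : (66314914699609 : ℝ) = 8143397 ^ 2 := by norm_num
      rw [this, Real.log_pow]
      norm_num
    rw [h1]
    have h4 : Real.log 8143397 + Real.log 2 < 24 * Real.log 2 := by
      rw [← Real.log_mul (by norm_num) (by norm_num)]
      have : (24 : ℝ) * Real.log 2 = Real.log ((2 : ℝ) ^ 24) := by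
        rw [Real.log_pow]
        norm_num
      rw [this]
      apply Real.log_lt_log (by norm_num)
      norm_num
    rw [div_lt_iff₀ (by positivity)]
    norm_num
    linarith
  · -- d ≥ 3
    apply key 2
    have hd3 : (3 : ℝ) ≤ d := by exact_mod_cast h3
    have hx2 : (xy d 2).1 = (2 ^ d + 1) ^ d := by
      simp [xy]
    rw [hx2]
    push_cast
    rw [Real.log_pow]
    have hlog2 : 0 < Real.log 2 := Real.log_pos (by norm_num)
    have hd0 : (0 : ℝ) < d := by linarith
    have hd1 : (0 : ℝ) < (d : ℝ) - 1 := by linarith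
    -- log (2^d + 1) ≤ d log 2 + log (9/8)
    have h4 : Real.log ((2 : ℝ) ^ d + 1) ≤ d * Real.log 2 + Real.log (9 / 8) := by
      have h5 : (2 : ℝ) ^ d + 1 ≤ 2 ^ d * (9 / 8) := by
        have : (2 : ℝ) ^ 3 ≤ 2 ^ d := pow_le_pow_right₀ (by norm_num) h3
        linarith
      have h6 := Real.log_le_log (by positivity) h5
      rw [Real.log_mul (by positivity) (by norm_num), Real.log_pow] at h6
      exact h6
    have h7 : Real.log (9 / 8) + Real.log 2 / 2 < Real.log 2 := by
      have : Real.log (9 / 8) + Real.log (9 / 8) < Real.log 2 := by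
        rw [← Real.log_mul (by norm_num) (by norm_num)]
        apply Real.log_lt_log (by norm_num)
        norm_num
      linarith
    have h8 : Real.log 2 / ((d : ℝ) - 1) ≤ Real.log 2 / 2 := by
      apply div_le_div_of_nonneg_left hlog2.le (by norm_num)
      linarith
    rw [div_lt_iff₀ (by positivity)]
    have h9 : (1 + 1 / (d : ℝ)) * Real.log 2 * (d : ℝ) ^ 2 =
        d * (d * Real.log 2 + Real.log 2) := by
      field_simp
    have h10 : (d : ℝ) * Real.log 2 / (d - 1) = d * (Real.log 2 / (d - 1)) := by ring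
    rw [h9, h10, ← mul_add]
    apply mul_lt_mul_of_pos_left _ hd0
    linarith

section Count

variable {α : Type} [Fintype α] {d : ℕ} {E : α → α → Prop} [∀ a b, Decidable (E a b)]
  {c : ℕ → α → ℕ}

/-- The data of the recursion. -/
structure Rec (d : ℕ) (E : α → α → Prop) [∀ a b, Decidable (E a b)] (c : ℕ → α → ℕ) : Prop where
  hd : 2 ≤ d
  step : ∀ n a, c (n + 1) a = (∑ b, if E a b then c n b else 0) ^ d
  zero : ∀ a, c 0 a = 0 ∨ c 0 a = 1
  ess : ∀ n a, 0 < c n a ↔ 0 < c 0 a

/-- There is a path of length `j` ending at `a`. -/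
def chain (E : α → α → Prop) : ℕ → α → Prop
  | 0, _ => True
  | j + 1, a => ∃ b, E b a ∧ chain E j b

theorem chain_pred {a : α} : ∀ {j : ℕ}, chain E (j + 1) a → chain E j a := by
  intro j
  induction j generalizing a with
  | zero => intro _; trivial
  | succ j ih =>
    rintro ⟨b, hb, h⟩
    exact ⟨b, hb, ih h⟩

theorem chain_mono {a : α} {i j : ℕ} (hij : i ≤ j) (h : chain E j a) : chain E i a := by
  obtain ⟨k, rfl⟩ := Nat.exists_eq_add_of_le hij
  induction k with
  | zero => exact h
  | succ k ih => exact ih (by omega) (chain_pred h)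

theorem exists_stable (E : α → α → Prop) :
    ∃ J : ℕ, ∀ a, chain E J a → ∀ j, chain E j a := by
  classical
  have h : ∀ a, ∃ j, chain E j a → ∀ i, chain E i a := by
    intro a
    by_cases hall : ∀ i, chain E i a
    · exact ⟨0, fun _ => hall⟩
    · push Not at hall
      obtain ⟨j, hj⟩ := hall
      exact ⟨j, fun h => absurd h hj⟩
  choose f hf using h
  refine ⟨∑ a, f a, fun a ha => hf a (chain_mono ?_ ha)⟩
  exact Finset.single_le_sum (f := f) (fun i _ => Nat.zero_le _) (Finset.mem_univ a)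

theorem Rec.edge_le (R : Rec d E c) {a b : α} (h : E b a) (i : ℕ) :
    c i a ^ d ≤ c (i + 1) b := by
  rw [R.step]
  apply Nat.pow_le_pow_left
  have := Finset.single_le_sum (f := fun b' => if E b b' then c i b' else 0)
    (fun i _ => Nat.zero_le _) (Finset.mem_univ a)
  simp only [if_pos h] at this
  exact this

theorem Rec.lower (R : Rec d E c) : ∀ (m i : ℕ) (a : α), chain E m a →
    ∃ b, c i a ^ (d ^ m) ≤ c (i + m) b := by
  intro m
  induction m with
  | zero => intro i a _; exact ⟨a, by simp⟩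
  | succ m ih =>
    rintro i a ⟨b, hb, h⟩
    obtain ⟨b', hb'⟩ := ih (i + 1) b h
    refine ⟨b', ?_⟩
    calc c i a ^ d ^ (m + 1) = (c i a ^ d) ^ d ^ m := by
          rw [← pow_mul, pow_succ, mul_comm]
      _ ≤ (c (i + 1) b) ^ d ^ m := Nat.pow_le_pow_left (R.edge_le hb i) _
      _ ≤ c (i + 1 + m) b' := hb'
      _ = c (i + (m + 1)) b' := by
          congr 1
          ring

/-- Essential out-degree. -/
def deg (E : α → α → Prop) [∀ a b, Decidable (E a b)] (c : ℕ → α → ℕ) (a : α) : ℕ :=
  (Finset.univ.filter fun b => E a b ∧ 0 < c 0 b).card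

theorem Rec.sum_eq (R : Rec d E c) (n : ℕ) (a : α) :
    (∑ b, if E a b then c n b else 0) =
      ∑ b ∈ Finset.univ.filter (fun b => E a b ∧ 0 < c 0 b), c n b := by
  rw [Finset.sum_filter]
  apply Finset.sum_congr rfl
  intro b _
  by_cases h1 : E a b
  · by_cases h2 : 0 < c 0 b
    · rw [if_pos h1, if_pos ⟨h1, h2⟩]
    · rw [if_pos h1, if_neg (fun h => h2 h.2)]
      have := (R.ess n b).not.2 h2
      omega
  · rw [if_neg h1, if_neg (fun h => h1 h.1)]

theorem Rec.one_eq (R : Rec d E c) (a : α) : c 1 a = deg E c a ^ d := by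
  rw [R.step, R.sum_eq]
  congr 1
  unfold deg
  rw [Finset.card_eq_sum_ones]
  apply Finset.sum_congr rfl
  intro b hb
  have h := (Finset.mem_filter.1 hb).2.2
  rcases R.zero b with h0 | h0 <;> omega

/-- The upper bound in the sparse case. -/
theorem Rec.upper_deep (R : Rec d E c)
    (H1 : ∀ a, 0 < c 0 a → (∀ j, chain E j a) → deg E c a ≤ 2)
    (H2 : ∀ a, 0 < c 0 a → (∀ j, chain E j a) → ∀ b b', b ≠ b' → E a b → E a b' →
      0 < c 0 b → 0 < c 0 b' → deg E c b = 2 → deg E c b' = 2 → False) :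
    ∀ n a, 0 < c 0 a → (∀ j, chain E j a) →
      c n a ≤ (xy d n).1 ∧ (deg E c a ≤ 1 → c n a ≤ (xy d n).2) := by
  classical
  intro n
  induction n with
  | zero =>
    intro a h0 _
    rcases R.zero a with h | h
    · omega
    · rw [h]
      exact ⟨le_rfl, fun _ => le_rfl⟩
  | succ n ih =>
    intro a h0 hdeep
    have hsucc : ∀ b, E a b → ∀ j, chain E j b := by
      intro b hb j
      exact chain_mono (Nat.le_succ j) ⟨a, hb, hdeep j⟩
    have hle : ∀ b, E a b → 0 < c 0 b → c n b ≤ (xy d n).1 ∧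
        (deg E c b ≤ 1 → c n b ≤ (xy d n).2) := fun b hb hb0 => ih b hb0 (hsucc b hb)
    rw [R.step, R.sum_eq, xy_succ_fst, xy_succ_snd]
    have hcard := H1 a h0 hdeep
    set S := Finset.univ.filter (fun b => E a b ∧ 0 < c 0 b) with hS
    have hSdeg : deg E c a = S.card := rfl
    have hmem : ∀ b ∈ S, E a b ∧ 0 < c 0 b := fun b hb => (Finset.mem_filter.1 hb).2
    have hone : S.card ≤ 1 → ∑ b ∈ S, c n b ≤ (xy d n).1 := by
      intro h1
      rcases Nat.lt_or_ge 0 S.card with h2 | h2
      · obtain ⟨b, hb⟩ := Finset.card_eq_one.1 (by omega : S.card = 1)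
        rw [hb, Finset.sum_singleton]
        have hb' := hmem b (by rw [hb]; simp)
        exact (hle b hb'.1 hb'.2).1
      · have : S = ∅ := Finset.card_eq_zero.1 (by omega)
        rw [this]
        simp
    refine ⟨?_, fun h1 => Nat.pow_le_pow_left (hone (by omega)) d⟩
    apply Nat.pow_le_pow_left
    rcases Nat.lt_or_ge S.card 2 with h1 | h1
    · exact (hone (by omega)).trans (Nat.le_add_right _ _)
    · obtain ⟨b, b', hbb, hb⟩ := Finset.card_eq_two.1 (by omega : S.card = 2)
      have hb1 := hmem b (by rw [hb]; simp)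
      have hb2 := hmem b' (by rw [hb]; simp)
      rw [hb, Finset.sum_pair hbb]
      have hd1 := H1 b hb1.2 (hsucc b hb1.1)
      have hd2 := H1 b' hb2.2 (hsucc b' hb2.1)
      rcases Nat.lt_or_ge (deg E c b) 2 with h2 | h2
      · have e1 := (hle b hb1.1 hb1.2).2 (by omega)
        have e2 := (hle b' hb2.1 hb2.2).1
        omega
      · rcases Nat.lt_or_ge (deg E c b') 2 with h3 | h3
        · have e1 := (hle b hb1.1 hb1.2).1
          have e2 := (hle b' hb2.1 hb2.2).2 (by omega)
          omega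
        · exact absurd (H2 a h0 hdeep b b' hbb hb1.1 hb2.1 hb1.2 hb2.2 (by omega) (by omega))
            (by simp)

/-- Iterated bound for the top levels. -/
def BB (d K x : ℕ) : ℕ → ℕ
  | 0 => x
  | j + 1 => (K * BB d K x j) ^ d

theorem Rec.upper_all (R : Rec d E c) {J m x : ℕ}
    (hx : ∀ a, chain E J a → c m a ≤ x) :
    ∀ j, j ≤ J → ∀ a, chain E (J - j) a → c (m + j) a ≤ BB d (Fintype.card α) x j := by
  intro j
  induction j with
  | zero => intro _ a ha; exact hx a ha
  | succ j ih =>
    intro hj a ha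
    rw [← add_assoc, R.step]
    show _ ≤ (Fintype.card α * BB d (Fintype.card α) x j) ^ d
    apply Nat.pow_le_pow_left
    calc (∑ b, if E a b then c (m + j) b else 0) ≤
        ∑ _b : α, BB d (Fintype.card α) x j := by
          apply Finset.sum_le_sum
          intro b _
          split_ifs with h
          · apply ih (by omega) b
            have : J - j = (J - (j + 1)) + 1 := by omega
            rw [this]
            exact ⟨a, h, ha⟩
          · exact Nat.zero_le _
      _ = _ := by simp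

theorem log_BB (d K : ℕ) (hK : 0 < K) (j : ℕ) :
    ∃ C : ℝ, 0 ≤ C ∧ ∀ x : ℕ, 0 < x → 0 < BB d K x j ∧
      Real.log (BB d K x j) ≤ C + (d : ℝ) ^ j * Real.log x := by
  induction j with
  | zero => exact ⟨0, le_rfl, fun x hx => ⟨hx, by simp [BB]⟩⟩
  | succ j ih =>
    obtain ⟨C, hC0, hC⟩ := ih
    have hlogK : 0 ≤ Real.log K := Real.log_natCast_nonneg K
    refine ⟨d * (Real.log K + C), by positivity, fun x hx => ?_⟩
    obtain ⟨hpos, hle⟩ := hC x hx
    have h1 : 0 < BB d K x (j + 1) := Nat.pow_pos (Nat.mul_pos hK hpos)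
    refine ⟨h1, ?_⟩
    have h2 : ((BB d K x (j + 1) : ℕ) : ℝ) = ((K : ℝ) * (BB d K x j : ℕ)) ^ d := by
      show (((K * BB d K x j) ^ d : ℕ) : ℝ) = _
      push_cast
      rfl
    rw [h2, Real.log_pow, Real.log_mul (by positivity) (by positivity)]
    have hd0 : (0 : ℝ) ≤ d := by positivity
    calc (d : ℝ) * (Real.log K + Real.log (BB d K x j)) ≤
          d * (Real.log K + (C + (d : ℝ) ^ j * Real.log x)) := by
            apply mul_le_mul_of_nonneg_left _ hd0
            linarith
      _ = _ := by ring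

end Count

end Pool.Agent.V11112.TS
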