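import Mathlib
import Pool.Agent.V11112.TS2

set_option autoImplicit false

open Filter Topology

namespace Pool.Agent.V11112.TS

/-- The number of nodes of the tree of height `n`. -/
noncomputable def DD (d n : ℕ) : ℝ := ((d : ℝ) ^ (n + 1) - 1) / ((d : ℝ) - 1)

theorem DD_pos {d : ℕ} (hd : 2 ≤ d) (n : ℕ) : 0 < DD d n := by
  have hd2 : (2 : ℝ) ≤ d := by exact_mod_cast hd
  have h1 : (1 : ℝ) < (d : ℝ) ^ (n + 1) := one_lt_pow₀ (by linarith) (by omega)
  exact div_pos (by linarith) (by linarith)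

theorem DD_le {d : ℕ} (hd : 2 ≤ d) (n : ℕ) : DD d n ≤ (d : ℝ) ^ (n + 1) / ((d : ℝ) - 1) := by
  have hd2 : (2 : ℝ) ≤ d := by exact_mod_cast hd
  unfold DD
  apply div_le_div_of_nonneg_right _ (by linarith)
  linarith

theorem tendsto_DD {d : ℕ} (hd : 2 ≤ d) (C ell : ℝ) :
    Tendsto (fun n => (C + ell * (d : ℝ) ^ n) / DD d n) atTop
      (𝓝 (ell * ((d : ℝ) - 1) / d)) := by
  have hd2 : (2 : ℝ) ≤ d := by exact_mod_cast hd
  have hd0 : (0 : ℝ) < d := by linarith
  have hd1 : (0 : ℝ) < (d : ℝ) - 1 := by linarith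
  have hq : Tendsto (fun n : ℕ => ((d : ℝ)⁻¹) ^ n) atTop (𝓝 0) :=
    tendsto_pow_atTop_nhds_zero_of_lt_one (by positivity) (inv_lt_one_of_one_lt₀ (by linarith))
  have h1 : Tendsto (fun n : ℕ => ((C * ((d : ℝ)⁻¹) ^ n + ell) * ((d : ℝ) - 1)) /
      ((d : ℝ) - ((d : ℝ)⁻¹) ^ n)) atTop
      (𝓝 (((C * 0 + ell) * ((d : ℝ) - 1)) / ((d : ℝ) - 0))) := by
    apply Tendsto.div
    · exact ((hq.const_mul C).add_const ell).mul_const _
    · exact tendsto_const_nhds.sub hq
    · rw [sub_zero]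
      exact hd0.ne'
  rw [mul_zero, zero_add, sub_zero] at h1
  refine h1.congr fun n => ?_
  unfold DD
  have hdn : (0 : ℝ) < (d : ℝ) ^ n := by positivity
  have h2 : ((d : ℝ)⁻¹) ^ n = ((d : ℝ) ^ n)⁻¹ := inv_pow _ _
  have h3 : (1 : ℝ) < (d : ℝ) ^ (n + 1) := one_lt_pow₀ (by linarith) (by omega)
  have h4 : (d : ℝ) ^ (n + 1) - 1 ≠ 0 := by linarith
  have h5 : (d : ℝ) - ((d : ℝ) ^ n)⁻¹ = ((d : ℝ) ^ (n + 1) - 1) / (d : ℝ) ^ n := by
    rw [pow_succ]
    field_simp
  rw [h2, h5]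
  field_simp

variable {α : Type} [Fintype α] {d : ℕ} {E : α → α → Prop} [∀ a b, Decidable (E a b)]
  {c : ℕ → α → ℕ}

theorem Rec.limit_lower (R : Rec d E c) {h : ℝ}
    (hlim : Tendsto (fun n => Real.log ((∑ a, c n a : ℕ) : ℝ) / DD d n) atTop (𝓝 h))
    {a : α} (hdeep : ∀ j, chain E j a) {j X : ℕ} (hX : 1 ≤ X) (hXc : X ≤ c j a) :
    ((d : ℝ) - 1) * Real.log X / (d : ℝ) ^ (j + 1) ≤ h := by
  have hd2 : (2 : ℝ) ≤ d := by exact_mod_cast R.hd
  have hd0 : (0 : ℝ) < d := by linarith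
  have hd1 : (0 : ℝ) < (d : ℝ) - 1 := by linarith
  apply ge_of_tendsto hlim
  filter_upwards [eventually_ge_atTop j] with n hn
  obtain ⟨m, rfl⟩ := Nat.exists_eq_add_of_le hn
  obtain ⟨b, hb⟩ := R.lower m j a (hdeep m)
  have h1 : X ^ d ^ m ≤ ∑ a, c (j + m) a := by
    calc X ^ d ^ m ≤ c j a ^ d ^ m := Nat.pow_le_pow_left hXc _
      _ ≤ c (j + m) b := hb
      _ ≤ _ := Finset.single_le_sum (f := fun a => c (j + m) a) (fun i _ => Nat.zero_le _)
        (Finset.mem_univ b)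
  have hXpos : (0 : ℝ) < X := by exact_mod_cast hX
  have h2 : (d : ℝ) ^ m * Real.log X ≤ Real.log ((∑ a, c (j + m) a : ℕ) : ℝ) := by
    have h3 : ((X : ℝ)) ^ d ^ m ≤ ((∑ a, c (j + m) a : ℕ) : ℝ) := by exact_mod_cast h1
    have h4 := Real.log_le_log (by positivity) h3
    rw [Real.log_pow] at h4
    push_cast at h4 ⊢
    exact h4
  have hD := DD_pos R.hd (j + m)
  have hD2 := DD_le R.hd (j + m)
  have hlogX : 0 ≤ Real.log X := Real.log_nonneg (by exact_mod_cast hX)
  rw [le_div_iff₀ hD]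
  refine le_trans ?_ h2
  calc ((d : ℝ) - 1) * Real.log X / (d : ℝ) ^ (j + 1) * DD d (j + m) ≤
        ((d : ℝ) - 1) * Real.log X / (d : ℝ) ^ (j + 1) *
          ((d : ℝ) ^ (j + m + 1) / ((d : ℝ) - 1)) :=
        mul_le_mul_of_nonneg_left hD2 (by positivity)
    _ = (d : ℝ) ^ m * Real.log X := by
        have : (d : ℝ) ^ (j + m + 1) = (d : ℝ) ^ (j + 1) * (d : ℝ) ^ m := by
          rw [← pow_add]
          congr 1
          ring
        rw [this]
        field_simp

theorem Rec.dichotomy (R : Rec d E c) (hne : ∃ a, 0 < c 0 a) {ell : ℝ} {n0 : ℕ}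
    (hell : ∀ n, n0 ≤ n → Real.log (xy d n).1 ≤ ell * (d : ℝ) ^ n) {h : ℝ}
    (hlim : Tendsto (fun n => Real.log ((∑ a, c n a : ℕ) : ℝ) / DD d n) atTop (𝓝 h)) :
    h ≤ ell * ((d : ℝ) - 1) / d ∨ (1 - 1 / (d : ℝ) ^ 2) * Real.log 2 ≤ h := by
  classical
  have hd2 : (2 : ℝ) ≤ d := by exact_mod_cast R.hd
  have hd0 : (0 : ℝ) < d := by linarith
  have hd1 : (0 : ℝ) < (d : ℝ) - 1 := by linarith
  have hlog2 : 0 < Real.log 2 := Real.log_pos (by norm_num)
  by_cases H1 : ∀ a, 0 < c 0 a → (∀ j, chain E j a) → deg E c a ≤ 2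
  · by_cases H2 : ∀ a, 0 < c 0 a → (∀ j, chain E j a) → ∀ b b', b ≠ b' → E a b → E a b' →
      0 < c 0 b → 0 < c 0 b' → deg E c b = 2 → deg E c b' = 2 → False
    · left
      have hup := R.upper_deep H1 H2
      obtain ⟨J, hJ⟩ := exists_stable E
      obtain ⟨a0, ha0⟩ := hne
      have hK : 0 < Fintype.card α := Fintype.card_pos_iff.2 ⟨a0⟩
      obtain ⟨C, hC0, hC⟩ := log_BB d (Fintype.card α) hK J
      have hbound : ∀ n, n0 + J ≤ n → Real.log ((∑ a, c n a : ℕ) : ℝ) / DD d n ≤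
          (Real.log (Fintype.card α) + C + ell * (d : ℝ) ^ n) / DD d n := by
        intro n hn
        obtain ⟨m, rfl⟩ : ∃ m, n = m + J := ⟨n - J, by omega⟩
        have hm : n0 ≤ m := by omega
        apply div_le_div_of_nonneg_right _ (DD_pos R.hd _).le
        have hx : ∀ a, chain E J a → c m a ≤ (xy d m).1 := by
          intro a ha
          by_cases h0 : 0 < c 0 a
          · exact (hup m a h0 (hJ a ha)).1
          · have := (R.ess m a).not.2 h0
            omega
        have h1 := R.upper_all hx J le_rfl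
        have h2 : ∀ a, c (m + J) a ≤ BB d (Fintype.card α) (xy d m).1 J := by
          intro a
          apply h1 a
          rw [Nat.sub_self]
          trivial
        obtain ⟨hB0, hB⟩ := hC (xy d m).1 (x_pos d m)
        have h3 : ((∑ a, c (m + J) a : ℕ) : ℝ) ≤
            (Fintype.card α : ℝ) * (BB d (Fintype.card α) (xy d m).1 J : ℕ) := by
          have : (∑ a, c (m + J) a) ≤ Fintype.card α * BB d (Fintype.card α) (xy d m).1 J := by
            calc (∑ a, c (m + J) a) ≤ ∑ _a : α, BB d (Fintype.card α) (xy d m).1 J :=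
                  Finset.sum_le_sum fun a _ => h2 a
              _ = _ := by simp
          exact_mod_cast this
        have hpos : (0 : ℝ) < ((∑ a, c (m + J) a : ℕ) : ℝ) := by
          have h4 : 0 < c (m + J) a0 := (R.ess _ _).2 ha0
          have : 0 < ∑ a, c (m + J) a := lt_of_lt_of_le h4
            (Finset.single_le_sum (f := fun a => c (m + J) a) (fun i _ => Nat.zero_le _)
              (Finset.mem_univ a0))
          exact_mod_cast this
        have h5 := Real.log_le_log hpos h3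
        have hKr : (0 : ℝ) < Fintype.card α := by exact_mod_cast hK
        have hBr : (0 : ℝ) < (BB d (Fintype.card α) (xy d m).1 J : ℕ) := by exact_mod_cast hB0
        rw [Real.log_mul hKr.ne' hBr.ne'] at h5
        have h6 := hell m hm
        have h7 : (d : ℝ) ^ J * Real.log (xy d m).1 ≤ ell * (d : ℝ) ^ (m + J) := by
          calc (d : ℝ) ^ J * Real.log (xy d m).1 ≤ (d : ℝ) ^ J * (ell * (d : ℝ) ^ m) :=
                mul_le_mul_of_nonneg_left h6 (by positivity)
            _ = _ := by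
                rw [pow_add]
                ring
        linarith
      exact le_of_tendsto_of_tendsto hlim (tendsto_DD R.hd _ ell)
        (eventually_atTop.2 ⟨n0 + J, hbound⟩)
    · right
      push Not at H2
      obtain ⟨a, ha, hdeep, b, b', hbb, hab, hab', hb, hb', hdb, hdb', -⟩ := H2
      have h1 : (2 ^ d + 2 ^ d) ^ d ≤ c 2 a := by
        rw [R.step 1, R.sum_eq]
        apply Nat.pow_le_pow_left
        have hsub : ({b, b'} : Finset α) ⊆ Finset.univ.filter (fun b => E a b ∧ 0 < c 0 b) := by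
          intro x hx
          rw [Finset.mem_insert, Finset.mem_singleton] at hx
          rcases hx with rfl | rfl
          · simp [hab, hb]
          · simp [hab', hb']
        calc 2 ^ d + 2 ^ d = c 1 b + c 1 b' := by rw [R.one_eq, R.one_eq, hdb, hdb']
          _ = ∑ x ∈ ({b, b'} : Finset α), c 1 x := (Finset.sum_pair hbb).symm
          _ ≤ _ := Finset.sum_le_sum_of_subset hsub
      have h2 := R.limit_lower hlim hdeep (Nat.one_le_pow _ _ (by positivity)) h1
      refine le_trans (le_of_eq ?_) h2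
      push_cast
      have h3 : ((2 : ℝ) ^ d + 2 ^ d) = 2 ^ (d + 1) := by ring
      rw [h3, Real.log_pow, Real.log_pow]
      push_cast
      field_simp
      ring
  · right
    push Not at H1
    obtain ⟨a, ha, hdeep, hdeg⟩ := H1
    have h1 : 3 ^ d ≤ c 1 a := by
      rw [R.one_eq]
      exact Nat.pow_le_pow_left hdeg d
    have h2 := R.limit_lower hlim hdeep (Nat.one_le_pow _ _ (by norm_num)) h1
    refine le_trans ?_ h2
    push_cast
    rw [Real.log_pow]
    have h3 : 3 * Real.log 2 ≤ 2 * Real.log 3 := by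
      have e1 : 3 * Real.log 2 = Real.log ((2 : ℝ) ^ 3) := by
        rw [Real.log_pow]
        norm_num
      have e2 : 2 * Real.log 3 = Real.log ((3 : ℝ) ^ 2) := by
        rw [Real.log_pow]
        norm_num
      rw [e1, e2]
      apply Real.log_le_log (by norm_num)
      norm_num
    have h4 : ((d : ℝ) - 1) * (d * Real.log 3) / (d : ℝ) ^ (1 + 1) =
        ((d : ℝ) - 1) * (d * Real.log 3) / (d : ℝ) ^ 2 := by norm_num
    have h5 : (1 - 1 / (d : ℝ) ^ 2) * Real.log 2 =
        ((d : ℝ) - 1) * ((d + 1) * Real.log 2) / (d : ℝ) ^ 2 := by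
      field_simp
      ring
    rw [h4, h5]
    apply div_le_div_of_nonneg_right _ (by positivity)
    apply mul_le_mul_of_nonneg_left _ hd1.le
    nlinarith

theorem rec_cc {d : ℕ} (hd : 2 ≤ d) (E : α → α → Prop) [∀ a b, Decidable (E a b)] :
    Rec d E (cc d E) :=
  ⟨hd, fun n a => cc_succ E n a, fun a => cc_zero_or_one E a, fun n a => by
    rw [cc_pos_iff, cc_pos_iff]⟩

/-- The gap for a single hom Markov tree-shift. -/
theorem gap {d : ℕ} (hd : 2 ≤ d) : ∃ ell : ℝ, ell < (1 + 1 / (d : ℝ)) * Real.log 2 ∧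
    ∀ (α : Type) [Fintype α] (E : α → α → Prop), (TreeShift d E).Nonempty → ∀ h : ℝ,
      Tendsto (fun n => Real.log (patt d E n) / DD d n) atTop (𝓝 h) →
      h ≤ ell * ((d : ℝ) - 1) / d ∨ (1 - 1 / (d : ℝ) ^ 2) * Real.log 2 ≤ h := by
  classical
  obtain ⟨ell, n0, hlt, hell⟩ := exists_ell d hd
  refine ⟨ell, hlt, ?_⟩
  intro α _ E hne h hlim
  obtain ⟨t, ht⟩ := hne
  have hne' : ∃ a, 0 < cc d E 0 a := ⟨t [], (cc_pos_iff E 0 (t [])).2 ⟨t, ht, rfl⟩⟩
  apply (rec_cc hd E).dichotomy hne' hell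
  refine hlim.congr fun n => ?_
  rw [patt_eq_sum]

end Pool.Agent.V11112.TS
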