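import Mathlib

open MeasureTheory Set Filter Topology
open scoped ENNReal

namespace Pool.Agent.V11112.BM

variable {S : Type*} [Fintype S] [Nonempty S] [MeasurableSpace S] [DiscreteMeasurableSpace S]

/-- left shift -/
def shift (ω : ℕ → S) : ℕ → S := fun k => ω (k + 1)

/-- approximate cylinder -/
def cyl (κ : S → ℕ) (N L : ℕ) (ω : ℕ → S) : Set (ℕ → S) :=
  {ω' | (∀ t < N, ω' t = ω t) ∧ ∀ t < L, κ (ω' t) = κ (ω t)}

lemma measurable_shift : Measurable (shift : (ℕ → S) → (ℕ → S)) := by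
  unfold shift
  fun_prop

/-- the finite set of columns -/
noncomputable def cols (κ : S → ℕ) : Finset ℕ := Finset.univ.image κ

lemma exists_lift (κ : S → ℕ) (c : cols κ) : ∃ s : S, κ s = c := by
  have h : (c : ℕ) ∈ Finset.univ.image κ := c.2
  obtain ⟨s, -, hs⟩ := Finset.mem_image.1 h
  exact ⟨s, hs⟩

noncomputable def lift (κ : S → ℕ) (c : cols κ) : S := (exists_lift κ c).choose

lemma lift_spec (κ : S → ℕ) (c : cols κ) : κ (lift κ c) = c := (exists_lift κ c).choose_spec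

instance (κ : S → ℕ) : Nonempty (cols κ) := by
  obtain ⟨s⟩ := ‹Nonempty S›
  exact ⟨⟨κ s, by unfold cols; simp⟩⟩

/-- uniform measure on symbols -/
noncomputable def rhoU (S : Type*) [Fintype S] [Nonempty S] [MeasurableSpace S] : Measure S :=
  (PMF.uniformOfFintype S).toMeasure

/-- a measure whose column marginal is uniform -/
noncomputable def rhoV (κ : S → ℕ) : Measure S :=
  ((PMF.uniformOfFintype (cols κ)).map (lift κ)).toMeasure

instance : IsProbabilityMeasure (rhoU S) := by unfold rhoU; infer_instance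
instance (κ : S → ℕ) : IsProbabilityMeasure (rhoV κ) := by unfold rhoV; infer_instance

lemma rhoU_singleton (s : S) : rhoU S {s} = (Fintype.card S : ℝ≥0∞)⁻¹ := by
  unfold rhoU
  rw [PMF.toMeasure_apply_singleton _ _ (MeasurableSet.of_discrete)]
  simp

lemma rhoV_col (κ : S → ℕ) (s : S) : rhoV κ {s' | κ s' = κ s} = ((cols κ).card : ℝ≥0∞)⁻¹ := by
  unfold rhoV
  rw [PMF.toMeasure_map_apply _ _ _ (measurable_of_finite _) MeasurableSet.of_discrete]
  have hs : κ s ∈ cols κ := by unfold cols; simp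
  have : (lift κ) ⁻¹' {s' | κ s' = κ s} = {(⟨κ s, hs⟩ : cols κ)} := by
    ext c
    simp only [Set.mem_preimage, Set.mem_ofPred_eq, Set.mem_singleton_iff, lift_spec]
    constructor
    · intro h; exact Subtype.ext h
    · intro h; rw [h]
  rw [this, PMF.toMeasure_apply_singleton _ _ (MeasurableSet.of_discrete)]
  simp

/-- one-letter law at time `t` with phase `i` and block length `k` -/
noncomputable def law (κ : S → ℕ) (R k i t : ℕ) : Measure S :=
  if (t + i) % (R * k) < k then rhoU S else rhoV κ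

instance (κ : S → ℕ) (R k i t : ℕ) : IsProbabilityMeasure (law κ R k i t) := by
  unfold law; split_ifs <;> infer_instance

noncomputable def lam (κ : S → ℕ) (R k i : ℕ) : Measure (ℕ → S) :=
  Measure.infinitePi (fun t => law κ R k i t)

instance (κ : S → ℕ) (R k i : ℕ) : IsProbabilityMeasure (lam κ R k i) := by
  unfold lam; infer_instance

lemma lam_map_shift (κ : S → ℕ) (R k i : ℕ) :
    (lam κ R k i).map shift = lam κ R k (i + 1) := by
  unfold lam
  apply Measure.eq_infinitePi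
  intro s t ht
  rw [Measure.map_apply measurable_shift (MeasurableSet.pi s.countable_toSet (fun i _ => ht i))]
  have : shift ⁻¹' (Set.pi (s : Set ℕ) t) =
      Set.pi ((s.map ⟨Nat.succ, Nat.succ_injective⟩ : Finset ℕ) : Set ℕ) (fun j => t (j - 1)) := by
    ext ω
    simp [shift, Set.mem_pi]
  rw [this, Measure.infinitePi_pi _ (fun i _ => ht _), Finset.prod_map]
  apply Finset.prod_congr rfl
  intro j _
  simp only [Function.Embedding.coeFn_mk, Nat.succ_eq_add_one]
  unfold law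
  rw [show j + 1 + i = j + (i + 1) by ring, show j + 1 - 1 = j by omega]

lemma lam_period (κ : S → ℕ) (R k : ℕ) : lam κ R k (R * k) = lam κ R k 0 := by
  unfold lam law
  simp

/-- the averaged measure -/
noncomputable def nuk (κ : S → ℕ) (R k : ℕ) : Measure (ℕ → S) :=
  ((R * k : ℕ) : ℝ≥0∞)⁻¹ • ∑ i ∈ Finset.range (R * k), lam κ R k i

lemma nuk_shift (κ : S → ℕ) (R k : ℕ) {s : Set (ℕ → S)} (hs : MeasurableSet s) :
    nuk κ R k (shift ⁻¹' s) = nuk κ R k s := by
  unfold nuk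
  simp only [Measure.smul_apply, Measure.coe_finset_sum, Finset.sum_apply, smul_eq_mul]
  congr 1
  have h1 : ∀ i, lam κ R k i (shift ⁻¹' s) = lam κ R k (i + 1) s := by
    intro i
    rw [← lam_map_shift, Measure.map_apply measurable_shift hs]
  simp only [h1]
  have h2 := Finset.sum_range_succ (fun i => lam κ R k i s) (R * k)
  have h3 := Finset.sum_range_succ' (fun i => lam κ R k i s) (R * k)
  rw [h2] at h3
  rw [lam_period] at h3
  exact (ENNReal.add_left_inj (measure_ne_top _ _)).1 h3.symm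

lemma nuk_univ (κ : S → ℕ) (R k : ℕ) (h : 0 < R * k) : nuk κ R k univ = 1 := by
  unfold nuk
  simp only [Measure.smul_apply, Measure.coe_finset_sum, Finset.sum_apply, smul_eq_mul,
    measure_univ, Finset.sum_const, Finset.card_range, nsmul_eq_mul, mul_one]
  exact ENNReal.inv_mul_cancel (Nat.cast_ne_zero.2 h.ne') (ENNReal.natCast_ne_top _)

lemma cyl_eq_pi (κ : S → ℕ) {N L : ℕ} (h : N ≤ L) (ω : ℕ → S) :
    cyl κ N L ω = Set.pi ((Finset.range L : Finset ℕ) : Set ℕ)
      (fun t => if t < N then {ω t} else {s | κ s = κ (ω t)}) := by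
  ext ω'
  simp only [cyl, Set.mem_ofPred_eq, Set.mem_pi, Finset.coe_range, Set.mem_Iio]
  constructor
  · rintro ⟨h1, h2⟩ t ht
    split_ifs with h3
    · exact h1 t h3
    · exact h2 t ht
  · intro h1
    constructor
    · intro t ht
      have := h1 t (lt_of_lt_of_le ht h)
      rw [if_pos ht] at this
      exact this
    · intro t ht
      have := h1 t ht
      split_ifs at this with h3
      · rw [Set.mem_singleton_iff] at this; rw [this]
      · exact this

lemma measurableSet_cyl (κ : S → ℕ) {N L : ℕ} (h : N ≤ L) (ω : ℕ → S) :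
    MeasurableSet (cyl κ N L ω) := by
  rw [cyl_eq_pi κ h]
  exact MeasurableSet.pi (Finset.countable_toSet _) (fun i _ => MeasurableSet.of_discrete)

lemma lam_cyl (κ : S → ℕ) {R k N L : ℕ} (hNk : N ≤ k) (hNL : N ≤ L) (hL : L + (k - N) ≤ R * k)
    (ω : ℕ → S) :
    lam κ R k (k - N) (cyl κ N L ω) =
      (Fintype.card S : ℝ≥0∞)⁻¹ ^ N * ((cols κ).card : ℝ≥0∞)⁻¹ ^ (L - N) := by
  rw [cyl_eq_pi κ hNL]
  unfold lam
  rw [Measure.infinitePi_pi _ (fun i _ => MeasurableSet.of_discrete)]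
  have h1 : ∀ t ∈ Finset.range L, (law κ R k (k - N) t)
      (if t < N then {ω t} else {s | κ s = κ (ω t)}) =
      if t < N then (Fintype.card S : ℝ≥0∞)⁻¹ else ((cols κ).card : ℝ≥0∞)⁻¹ := by
    intro t ht
    rw [Finset.mem_range] at ht
    unfold law
    have hmod : (t + (k - N)) % (R * k) = t + (k - N) := Nat.mod_eq_of_lt (by omega)
    rw [hmod]
    by_cases h : t < N
    · rw [if_pos (by omega : t + (k - N) < k), if_pos h, if_pos h, rhoU_singleton]
    · rw [if_neg (by omega : ¬ t + (k - N) < k), if_neg h, if_neg h, rhoV_col]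
  rw [Finset.prod_congr rfl h1, Finset.prod_ite, Finset.prod_const, Finset.prod_const]
  congr 2
  · have : (Finset.range L).filter (fun t => t < N) = Finset.range N := by
      ext t; simp only [Finset.mem_filter, Finset.mem_range]; omega
    rw [this, Finset.card_range]
  · have : (Finset.range L).filter (fun t => ¬ t < N) = Finset.Ico N L := by
      ext t; simp only [Finset.mem_filter, Finset.mem_range, Finset.mem_Ico]; omega
    rw [this, Nat.card_Ico]

lemma nuk_cyl_ge (κ : S → ℕ) {R k N L : ℕ} (hN : 0 < N) (hNk : N ≤ k) (hNL : N ≤ L)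
    (hL : L + (k - N) ≤ R * k) (ω : ℕ → S) :
    ((R * k : ℕ) : ℝ≥0∞)⁻¹ * ((Fintype.card S : ℝ≥0∞)⁻¹ ^ N * ((cols κ).card : ℝ≥0∞)⁻¹ ^ (L - N)) ≤
    nuk κ R k (cyl κ N L ω) := by
  unfold nuk
  simp only [Measure.smul_apply, Measure.coe_finset_sum, Finset.sum_apply, smul_eq_mul]
  gcongr
  rw [← lam_cyl κ hNk hNL hL ω]
  exact Finset.single_le_sum (f := fun i => lam κ R k i (cyl κ N L ω)) (fun _ _ => zero_le)
    (Finset.mem_range.2 (by omega))

/-- the final invariant measure -/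
noncomputable def nu (κ : S → ℕ) (R : ℕ) : Measure (ℕ → S) :=
  Measure.sum (fun q : ℕ => (2 : ℝ≥0∞)⁻¹ ^ (q + 1) • nuk κ R (2 ^ q))

lemma nu_univ (κ : S → ℕ) (R : ℕ) (hR : 0 < R) : nu κ R univ = 1 := by
  unfold nu
  rw [Measure.sum_apply _ MeasurableSet.univ]
  have : ∀ q : ℕ, ((2 : ℝ≥0∞)⁻¹ ^ (q + 1) • nuk κ R (2 ^ q)) univ = (2 : ℝ≥0∞)⁻¹ ^ (q + 1) := by
    intro q
    rw [Measure.smul_apply, nuk_univ _ _ _ (by positivity), smul_eq_mul, mul_one]
  simp only [this]
  have h := ENNReal.tsum_geometric_add_one (2 : ℝ≥0∞)⁻¹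
  rw [h]
  rw [ENNReal.one_sub_inv_two, inv_inv]
  exact ENNReal.inv_mul_cancel (by simp) (by simp)

lemma nu_shift (κ : S → ℕ) (R : ℕ) : MeasurePreserving shift (nu κ R) (nu κ R) := by
  refine ⟨measurable_shift, ?_⟩
  ext s hs
  rw [Measure.map_apply measurable_shift hs]
  unfold nu
  rw [Measure.sum_apply _ hs, Measure.sum_apply _ (measurable_shift hs)]
  congr 1
  ext q
  rw [Measure.smul_apply, Measure.smul_apply, nuk_shift κ R _ hs]

lemma nu_cyl_ge (κ : S → ℕ) {R N L : ℕ} (hR : 0 < R) (hN : 0 < N) (hNL : N ≤ L) (hL : L ≤ R * N)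
    (ω : ℕ → S) :
    ((8 * R * N ^ 2 : ℕ) : ℝ≥0∞)⁻¹ *
      ((Fintype.card S : ℝ≥0∞)⁻¹ ^ N * ((cols κ).card : ℝ≥0∞)⁻¹ ^ (L - N)) ≤
    nu κ R (cyl κ N L ω) := by
  set q := Nat.clog 2 N with hq
  have h1 : N ≤ 2 ^ q := Nat.le_pow_clog (by norm_num) N
  have h2 : 2 ^ q ≤ 2 * N := by
    rcases Nat.eq_zero_or_pos q with h | h
    · rw [h]; simp; omega
    · have := Nat.pow_pred_clog_lt_self (b := 2) (by norm_num) (x := N) (by
        by_contra hh
        have : N = 1 := by omega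
        rw [this] at hq
        simp at hq
        omega)
      rw [← hq] at this
      obtain ⟨q', hq'⟩ : ∃ q', q = q' + 1 := ⟨q - 1, by omega⟩
      rw [hq'] at this ⊢
      simp at this
      rw [pow_succ]; omega
  have hL' : L + (2 ^ q - N) ≤ R * 2 ^ q := by
    obtain ⟨e, he⟩ : ∃ e, 2 ^ q = N + e := ⟨2 ^ q - N, by omega⟩
    rw [he]
    have : e ≤ R * e := Nat.le_mul_of_pos_left e hR
    have h3 : R * (N + e) = R * N + R * e := by ring
    omega
  unfold nu
  rw [Measure.sum_apply _ (measurableSet_cyl κ hNL ω)]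
  refine le_trans ?_ (ENNReal.le_tsum q)
  rw [Measure.smul_apply, smul_eq_mul]
  refine le_trans ?_ (mul_le_mul_right (nuk_cyl_ge κ hN h1 hNL hL' ω) _)
  have key : ((8 * R * N ^ 2 : ℕ) : ℝ≥0∞)⁻¹ ≤
      (2 : ℝ≥0∞)⁻¹ ^ (q + 1) * ((R * 2 ^ q : ℕ) : ℝ≥0∞)⁻¹ := by
    rw [← ENNReal.inv_pow, ← ENNReal.mul_inv (by simp) (by simp)]
    apply ENNReal.inv_le_inv.2
    have : 2 ^ (q + 1) * (R * 2 ^ q) ≤ 8 * R * N ^ 2 := by
      have h4 : 2 ^ (q + 1) * (R * 2 ^ q) = 2 * R * (2 ^ q * 2 ^ q) := by ring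
      have h5 : 2 ^ q * 2 ^ q ≤ (2 * N) * (2 * N) := Nat.mul_le_mul h2 h2
      rw [h4]
      calc 2 * R * (2 ^ q * 2 ^ q) ≤ 2 * R * ((2 * N) * (2 * N)) := Nat.mul_le_mul_left _ h5
        _ = 8 * R * N ^ 2 := by ring
    exact_mod_cast this
  rw [← mul_assoc ((2 : ℝ≥0∞)⁻¹ ^ (q + 1))]
  exact mul_le_mul' key le_rfl

end Pool.Agent.V11112.BM
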