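import Mathlib

open MeasureTheory Set Filter Topology
open scoped ENNReal

namespace Pool.Agent.V11112.BM

/-- value of a digit sequence in base `b` -/
noncomputable def val (b : ℕ) (a : ℕ → ℕ) : ℝ := ∑' t, (a t : ℝ) / (b : ℝ) ^ (t + 1)

/-- integer value of the first digits -/
def P (b : ℕ) (a : ℕ → ℕ) : ℕ → ℕ
  | 0 => 0
  | k + 1 => b * P b a k + a k

lemma term_le {b : ℕ} (hb : 2 ≤ b) {a : ℕ → ℕ} (ha : ∀ t, a t < b) (t : ℕ) :
    (a t : ℝ) / (b : ℝ) ^ (t + 1) ≤ ((b : ℝ) - 1) / (b : ℝ) * (1 / (b : ℝ)) ^ t := by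
  have hb0 : (0 : ℝ) < b := by positivity
  have h1 : (a t : ℝ) ≤ (b : ℝ) - 1 := by
    have := ha t
    have h2 : ((a t + 1 : ℕ) : ℝ) ≤ (b : ℝ) := by exact_mod_cast this
    push_cast at h2
    linarith
  have h3 : ((b : ℝ) - 1) / (b : ℝ) * (1 / (b : ℝ)) ^ t = ((b : ℝ) - 1) / (b : ℝ) ^ (t + 1) := by
    rw [one_div, inv_pow]; field_simp; ring
  rw [h3]
  gcongr

lemma hasSum_geo {b : ℕ} (hb : 2 ≤ b) :
    HasSum (fun t : ℕ => ((b : ℝ) - 1) / (b : ℝ) * (1 / (b : ℝ)) ^ t) 1 := by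
  have hb0 : (2 : ℝ) ≤ b := by exact_mod_cast hb
  have h := (hasSum_geometric_of_lt_one (r := 1 / (b : ℝ)) (by positivity)
    (by rw [div_lt_one (by linarith)]; linarith)).mul_left (((b : ℝ) - 1) / (b : ℝ))
  have e : ((b : ℝ) - 1) / (b : ℝ) * (1 - 1 / (b : ℝ))⁻¹ = 1 := by
    have : (b : ℝ) - 1 ≠ 0 := by linarith
    have h3 : (b : ℝ) ≠ 0 := by linarith
    have h4 : 1 - 1 / (b : ℝ) = ((b : ℝ) - 1) / b := by field_simp
    rw [h4]
    field_simp
  rw [e] at h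
  exact h

lemma summable_val {b : ℕ} (hb : 2 ≤ b) {a : ℕ → ℕ} (ha : ∀ t, a t < b) :
    Summable (fun t => (a t : ℝ) / (b : ℝ) ^ (t + 1)) :=
  Summable.of_nonneg_of_le (fun t => by positivity) (term_le hb ha) (hasSum_geo hb).summable

lemma val_nonneg (b : ℕ) (a : ℕ → ℕ) : 0 ≤ val b a := tsum_nonneg (fun t => by positivity)

lemma val_le_one {b : ℕ} (hb : 2 ≤ b) {a : ℕ → ℕ} (ha : ∀ t, a t < b) : val b a ≤ 1 := by
  rw [← (hasSum_geo hb).tsum_eq]
  exact (summable_val hb ha).tsum_le_tsum (term_le hb ha) (hasSum_geo hb).summable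

lemma sum_eq_P {b : ℕ} (hb : 2 ≤ b) (a : ℕ → ℕ) (k : ℕ) :
    ∑ t ∈ Finset.range k, (a t : ℝ) / (b : ℝ) ^ (t + 1) = (P b a k : ℝ) / (b : ℝ) ^ k := by
  have hb0 : (b : ℝ) ≠ 0 := by positivity
  induction k with
  | zero => simp [P]
  | succ k ih =>
    rw [Finset.sum_range_succ, ih, P]
    push_cast
    field_simp
    ring

lemma val_split {b : ℕ} (hb : 2 ≤ b) {a : ℕ → ℕ} (ha : ∀ t, a t < b) (k : ℕ) :
    val b a = (P b a k : ℝ) / (b : ℝ) ^ k + 1 / (b : ℝ) ^ k * val b (fun t => a (t + k)) := by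
  unfold val
  rw [← (summable_val hb ha).sum_add_tsum_nat_add k, sum_eq_P hb, ← tsum_mul_left]
  congr 1
  apply tsum_congr
  intro t
  have hb0 : (b : ℝ) ≠ 0 := by positivity
  rw [show t + k + 1 = k + (t + 1) by ring, pow_add]
  field_simp

lemma val_mem {b : ℕ} (hb : 2 ≤ b) {a : ℕ → ℕ} (ha : ∀ t, a t < b) (k : ℕ) :
    (P b a k : ℝ) / (b : ℝ) ^ k ≤ val b a ∧ val b a ≤ ((P b a k : ℝ) + 1) / (b : ℝ) ^ k := by
  have hb0 : (0 : ℝ) < b := by positivity
  have h1 := val_nonneg b (fun t => a (t + k))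
  have h2 := val_le_one hb (a := fun t => a (t + k)) (fun t => ha _)
  have h3 : (0 : ℝ) < 1 / (b : ℝ) ^ k := by positivity
  rw [val_split hb ha k]
  constructor
  · nlinarith
  · rw [add_div]
    nlinarith

lemma P_congr {b : ℕ} {a a' : ℕ → ℕ} {k : ℕ} (h : ∀ t < k, a t = a' t) : P b a k = P b a' k := by
  induction k with
  | zero => rfl
  | succ k ih =>
    simp only [P]
    rw [ih (fun t ht => h t (by omega)), h k (by omega)]

lemma P_inj {b : ℕ} {a a' : ℕ → ℕ} (ha : ∀ t, a t < b) (ha' : ∀ t, a' t < b) {k : ℕ}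
    (h : P b a k = P b a' k) : ∀ t < k, a t = a' t := by
  induction k with
  | zero => intro t ht; omega
  | succ k ih =>
    simp only [P] at h
    have hb : 0 < b := lt_of_le_of_lt (Nat.zero_le _) (ha 0)
    have h1 : P b a k = P b a' k := by
      have e1 : (b * P b a k + a k) / b = P b a k := by
        rw [Nat.mul_add_div hb, Nat.div_eq_of_lt (ha k), add_zero]
      have e2 : (b * P b a' k + a' k) / b = P b a' k := by
        rw [Nat.mul_add_div hb, Nat.div_eq_of_lt (ha' k), add_zero]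
      rw [← e1, ← e2, h]
    have h2 : a k = a' k := by rw [h1] at h; omega
    intro t ht
    rcases Nat.lt_succ_iff_lt_or_eq.1 ht with h3 | h3
    · exact ih h1 t h3
    · rw [h3]; exact h2

lemma abs_val_sub_le {b : ℕ} (hb : 2 ≤ b) {a a' : ℕ → ℕ} (ha : ∀ t, a t < b)
    (ha' : ∀ t, a' t < b) {k : ℕ} (h : ∀ t < k, a t = a' t) :
    |val b a - val b a'| ≤ 1 / (b : ℝ) ^ k := by
  have h1 := val_mem hb ha k
  have h2 := val_mem hb ha' k
  rw [P_congr h, add_div] at h1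
  rw [add_div] at h2
  rw [abs_le]
  constructor <;> linarith [h1.1, h1.2, h2.1, h2.2]

lemma tendsto_partial {b : ℕ} (hb : 2 ≤ b) {a : ℕ → ℕ} (ha : ∀ t, a t < b) :
    Tendsto (fun k => (P b a k : ℝ) / (b : ℝ) ^ k) atTop (𝓝 (val b a)) := by
  have := (summable_val hb ha).hasSum.tendsto_sum_nat
  simp only [sum_eq_P hb] at this
  exact this

abbrev Plane := EuclideanSpace ℝ (Fin 2)

/-- The affine contraction `f_{ij}(x,y) = ((x+i)/m, (y+j)/n)`, where `d = (i,j)`. -/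
noncomputable def contr (m n : ℕ) (d : ℕ × ℕ) (p : Plane) : Plane :=
  !₂[(p 0 + d.1) / m, (p 1 + d.2) / n]

/-- The composition `f_{ω 0} ∘ f_{ω 1} ∘ ⋯ ∘ f_{ω (k-1)}`. -/
noncomputable def compo (m n : ℕ) (ω : ℕ → ℕ × ℕ) : ℕ → Plane → Plane
  | 0, p => p
  | k + 1, p => compo m n ω k (contr m n (ω k) p)

/-- The coding map `π(ω) = lim f_{ω 0} ∘ ⋯ ∘ f_{ω (k-1)} (0)`. -/
noncomputable def code (m n : ℕ) (D : Finset (ℕ × ℕ)) (ω : ℕ → D) : Plane :=
  limUnder atTop (fun k => compo m n (fun t => (ω t : ℕ × ℕ)) k 0)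

lemma compo_eq {m n : ℕ} (hm : 2 ≤ m) (hn : 2 ≤ n) (ω : ℕ → ℕ × ℕ) (k : ℕ) (p : Plane) :
    compo m n ω k p = !₂[(p 0 + P m (fun t => (ω t).1) k) / (m : ℝ) ^ k,
      (p 1 + P n (fun t => (ω t).2) k) / (n : ℝ) ^ k] := by
  have hm0 : (m : ℝ) ≠ 0 := by positivity
  have hn0 : (n : ℝ) ≠ 0 := by positivity
  induction k generalizing p with
  | zero =>
    ext i
    fin_cases i <;> simp [compo, P]
  | succ k ih =>
    rw [compo, ih]
    ext i
    fin_cases i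
    · simp [contr, P]
      field_simp
      ring
    · simp [contr, P]
      field_simp
      ring

lemma tendsto_compo {m n : ℕ} (hm : 2 ≤ m) (hn : 2 ≤ n) {ω : ℕ → ℕ × ℕ}
    (h1 : ∀ t, (ω t).1 < m) (h2 : ∀ t, (ω t).2 < n) :
    Tendsto (fun k => compo m n ω k 0) atTop
      (𝓝 !₂[val m (fun t => (ω t).1), val n (fun t => (ω t).2)]) := by
  simp only [compo_eq hm hn]
  have := (PiLp.continuous_toLp 2 (fun _ : Fin 2 => ℝ)).tendsto
    ![val m (fun t => (ω t).1), val n (fun t => (ω t).2)]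
  refine this.comp ?_
  rw [tendsto_pi_nhds]
  intro i
  fin_cases i
  · simpa using tendsto_partial hm h1
  · simpa using tendsto_partial hn h2

lemma code_eq {m n : ℕ} (hm : 2 ≤ m) (hn : 2 ≤ n) {D : Finset (ℕ × ℕ)}
    (hD : ∀ d ∈ D, d.1 < m ∧ d.2 < n) (ω : ℕ → D) :
    code m n D ω = !₂[val m (fun t => (ω t).1.1), val n (fun t => (ω t).1.2)] :=
  (tendsto_compo hm hn (fun t => (hD _ (ω t).2).1) (fun t => (hD _ (ω t).2).2)).limUnder_eq

lemma dist_le_of {p q : Plane} {a : ℝ} (h0 : |p 0 - q 0| ≤ a) (h1 : |p 1 - q 1| ≤ a) :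
    dist p q ≤ 2 * a := by
  have ha : 0 ≤ a := le_trans (abs_nonneg _) h0
  rw [EuclideanSpace.dist_eq, Fin.sum_univ_two, Real.dist_eq, Real.dist_eq]
  apply Real.sqrt_le_iff.2
  constructor
  · linarith
  · have e0 : |p 0 - q 0| ^ 2 ≤ a ^ 2 := by gcongr
    have e1 : |p 1 - q 1| ^ 2 ≤ a ^ 2 := by gcongr
    nlinarith

lemma abs_sub_le_dist (p q : Plane) (i : Fin 2) : |p i - q i| ≤ dist p q := by
  rw [← Real.dist_eq]
  have := EuclideanSpace.dist_eq p q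
  rw [this]
  apply Real.le_sqrt_of_sq_le
  exact Finset.single_le_sum (f := fun i => dist (p i) (q i) ^ 2) (fun _ _ => by positivity)
    (Finset.mem_univ i)

end Pool.Agent.V11112.BM
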