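import Mathlib
import Pool.Agent.V11112.BM1
import Pool.Agent.V11112.BM2

open MeasureTheory Set Filter Topology
open scoped ENNReal

namespace Pool.Agent.V11112.BM

/-- `Λ` is the Bedford-McMullen carpet of the digit set `D`. -/
def IsCarpet (m n : ℕ) (D : Finset (ℕ × ℕ)) (Λ : Set Plane) : Prop :=
  Λ.Nonempty ∧ IsCompact Λ ∧ Λ = ⋃ d ∈ D, contr m n d '' Λ

/-- column of a digit -/
def colD (D : Finset (ℕ × ℕ)) (d : D) : ℕ := d.1.1

lemma carpet_subset {m n : ℕ} (hm : 2 ≤ m) (hn : 2 ≤ n) {D : Finset (ℕ × ℕ)}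
    (hD : ∀ d ∈ D, d.1 < m ∧ d.2 < n) {Λ : Set Plane} (h : IsCarpet m n D Λ) :
    Λ ⊆ range (code m n D) := by
  obtain ⟨-, hc, he⟩ := h
  intro x hx
  have hstep : ∀ y : Λ, ∃ d : D, ∃ z : Λ, contr m n d z.1 = y.1 := by
    rintro ⟨y, hy⟩
    rw [he] at hy
    simp only [mem_iUnion, mem_image] at hy
    obtain ⟨d, hd, z, hz, hzy⟩ := hy
    exact ⟨⟨d, hd⟩, ⟨z, hz⟩, hzy⟩
  choose dig nxt hs using hstep
  let X : ℕ → Λ := fun k => Nat.rec ⟨x, hx⟩ (fun _ y => nxt y) k
  have hX : ∀ k, X (k + 1) = nxt (X k) := fun k => rfl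
  let ω : ℕ → D := fun k => dig (X k)
  have hcomp : ∀ k, compo m n (fun t => (ω t : ℕ × ℕ)) k (X k).1 = x := by
    intro k
    induction k with
    | zero => rfl
    | succ k ih =>
      rw [compo]
      have : contr m n (ω k) (X (k + 1)).1 = (X k).1 := hs (X k)
      rw [this, ih]
  obtain ⟨B, hB⟩ := hc.isBounded.exists_norm_le
  refine ⟨ω, ?_⟩
  rw [code_eq hm hn hD]
  have key : ∀ (b : ℕ), 2 ≤ b → ∀ (a : ℕ → ℕ), (∀ t, a t < b) → ∀ (i : Fin 2),
      (∀ k, x i = ((X k).1 i + P b a k) / (b : ℝ) ^ k) → x i = val b a := by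
    intro b hb a ha i hk
    have h1 := tendsto_partial hb ha
    have hb1 : (1 : ℝ) < b := by exact_mod_cast (by omega : 1 < b)
    have h2 : Tendsto (fun k => ((X k).1 i) / (b : ℝ) ^ k) atTop (𝓝 0) := by
      have h3 : Tendsto (fun k : ℕ => B / (b : ℝ) ^ k) atTop (𝓝 0) :=
        tendsto_const_nhds.div_atTop (tendsto_pow_atTop_atTop_of_one_lt hb1)
      refine squeeze_zero_norm (fun k => ?_) h3
      rw [norm_div, norm_pow, Real.norm_eq_abs, Real.norm_eq_abs, abs_of_pos (by linarith : (0:ℝ) < b)]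
      gcongr
      have := hB (X k).1 (X k).2
      refine le_trans ?_ this
      have h5 := abs_sub_le_dist (X k).1 0 i
      simpa using h5
    have h4 := h2.add h1
    rw [zero_add] at h4
    refine tendsto_nhds_unique ?_ h4
    have : (fun k => ((X k).1 i) / (b : ℝ) ^ k + (P b a k : ℝ) / (b : ℝ) ^ k) = fun _ => x i := by
      funext k
      rw [hk k, add_div]
    rw [this]
    exact tendsto_const_nhds
  have hc0 : ∀ k, x 0 = ((X k).1 0 + P m (fun t => (ω t).1.1) k) / (m : ℝ) ^ k := by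
    intro k
    have := congrArg (fun p : Plane => p 0) (hcomp k)
    simp only [compo_eq hm hn] at this
    rw [← this]; simp
  have hc1 : ∀ k, x 1 = ((X k).1 1 + P n (fun t => (ω t).1.2) k) / (n : ℝ) ^ k := by
    intro k
    have := congrArg (fun p : Plane => p 1) (hcomp k)
    simp only [compo_eq hm hn] at this
    rw [← this]; simp
  have e0 := key m hm _ (fun t => (hD _ (ω t).2).1) 0 hc0
  have e1 := key n hn _ (fun t => (hD _ (ω t).2).2) 1 hc1
  ext i
  fin_cases i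
  · simpa using e0.symm
  · simpa using e1.symm

lemma range_subset_carpet {m n : ℕ} (hm : 2 ≤ m) (hn : 2 ≤ n) {D : Finset (ℕ × ℕ)}
    (hD : ∀ d ∈ D, d.1 < m ∧ d.2 < n) {Λ : Set Plane} (h : IsCarpet m n D Λ) :
    range (code m n D) ⊆ Λ := by
  obtain ⟨⟨x0, hx0⟩, hc, he⟩ := h
  rintro _ ⟨ω, rfl⟩
  have hcon : ∀ d ∈ D, ∀ p ∈ Λ, contr m n d p ∈ Λ := by
    intro d hd p hp
    rw [he]
    simp only [mem_iUnion, mem_image]
    exact ⟨d, hd, p, hp, rfl⟩
  have hmem : ∀ k, ∀ p ∈ Λ, compo m n (fun t => (ω t : ℕ × ℕ)) k p ∈ Λ := by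
    intro k
    induction k with
    | zero => intro p hp; exact hp
    | succ k ih => intro p hp; exact ih _ (hcon _ (ω k).2 p hp)
  have hlim : Tendsto (fun k => compo m n (fun t => (ω t : ℕ × ℕ)) k x0) atTop (𝓝 (code m n D ω)) := by
    rw [code_eq hm hn hD]
    simp only [compo_eq hm hn]
    have := (PiLp.continuous_toLp 2 (fun _ : Fin 2 => ℝ)).tendsto
      ![val m (fun t => (ω t).1.1), val n (fun t => (ω t).1.2)]
    refine this.comp ?_
    rw [tendsto_pi_nhds]
    have key : ∀ (b : ℕ), 2 ≤ b → ∀ (a : ℕ → ℕ), (∀ t, a t < b) → ∀ c : ℝ,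
      Tendsto (fun k => (c + P b a k) / (b : ℝ) ^ k) atTop (𝓝 (val b a)) := by
      intro b hb a ha c
      have hb1 : (1 : ℝ) < b := by exact_mod_cast (by omega : 1 < b)
      have h3 : Tendsto (fun k : ℕ => c / (b : ℝ) ^ k) atTop (𝓝 0) :=
        tendsto_const_nhds.div_atTop (tendsto_pow_atTop_atTop_of_one_lt hb1)
      have h4 := h3.add (tendsto_partial hb ha)
      rw [zero_add] at h4
      refine h4.congr (fun k => ?_)
      rw [add_div]
    intro i
    fin_cases i
    · simpa using key m hm _ (fun t => (hD _ (ω t).2).1) (x0 0)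
    · simpa using key n hn _ (fun t => (hD _ (ω t).2).2) (x0 1)
  exact hc.isClosed.mem_of_tendsto hlim (Eventually.of_forall (fun k => hmem k x0 hx0))

lemma carpet_eq {m n : ℕ} (hm : 2 ≤ m) (hn : 2 ≤ n) {D : Finset (ℕ × ℕ)}
    (hD : ∀ d ∈ D, d.1 < m ∧ d.2 < n) {Λ : Set Plane} (h : IsCarpet m n D Λ) :
    Λ = range (code m n D) :=
  Subset.antisymm (carpet_subset hm hn hD h) (range_subset_carpet hm hn hD h)

lemma dist_code_le {m n : ℕ} (hm : 2 ≤ m) (hn : 2 ≤ n) {D : Finset (ℕ × ℕ)}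
    (hD : ∀ d ∈ D, d.1 < m ∧ d.2 < n) {N L : ℕ} (hL : n ^ N ≤ m ^ L) {ω ω' : ℕ → D}
    (h : ω' ∈ cyl (colD D) N L ω) : dist (code m n D ω') (code m n D ω) ≤ 2 * (1 / (n : ℝ) ^ N) := by
  obtain ⟨h1, h2⟩ := h
  rw [code_eq hm hn hD, code_eq hm hn hD]
  have hn0 : (0 : ℝ) < n := by positivity
  apply dist_le_of
  · have := abs_val_sub_le hm (a := fun t => (ω' t).1.1) (a' := fun t => (ω t).1.1)
      (fun t => (hD _ (ω' t).2).1) (fun t => (hD _ (ω t).2).1) (k := L) h2
    refine le_trans (by simpa using this) ?_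
    rw [one_div]
    apply inv_anti₀ (by positivity)
    exact_mod_cast hL
  · have := abs_val_sub_le hn (a := fun t => (ω' t).1.2) (a' := fun t => (ω t).1.2)
      (fun t => (hD _ (ω' t).2).2) (fun t => (hD _ (ω t).2).2) (k := N)
      (fun t ht => by show ((ω' t : ℕ × ℕ)).2 = _; rw [h1 t ht])
    simpa using this

lemma measurable_P {D : Finset (ℕ × ℕ)} (b : ℕ) (g : D → ℕ) (k : ℕ) :
    Measurable (fun ω : ℕ → D => P b (fun t => g (ω t)) k) := by
  induction k with
  | zero => exact measurable_const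
  | succ k ih =>
    simp only [P]
    exact (measurable_const.mul ih).add ((measurable_of_finite g).comp (measurable_pi_apply k))

lemma measurable_code {m n : ℕ} (hm : 2 ≤ m) (hn : 2 ≤ n) {D : Finset (ℕ × ℕ)}
    (hD : ∀ d ∈ D, d.1 < m ∧ d.2 < n) : Measurable (code m n D) := by
  have hcode : code m n D = fun ω => !₂[val m (fun t => (ω t).1.1), val n (fun t => (ω t).1.2)] :=
    funext (code_eq hm hn hD)
  rw [hcode]
  refine (PiLp.continuous_toLp 2 (fun _ : Fin 2 => ℝ)).measurable.comp ?_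
  rw [measurable_pi_iff]
  have key : ∀ (b : ℕ), 2 ≤ b → ∀ (g : D → ℕ), (∀ d, g d < b) →
      Measurable (fun ω : ℕ → D => val b (fun t => g (ω t))) := by
    intro b hb g hg
    refine measurable_of_tendsto_metrizable
      (f := fun k (ω : ℕ → D) => (P b (fun t => g (ω t)) k : ℝ) / (b : ℝ) ^ k) (fun k => ?_) ?_
    · exact (measurable_from_nat.comp (measurable_P b g k)).div_const _
    · rw [tendsto_pi_nhds]
      intro ω
      exact tendsto_partial hb (fun t => hg _)
  intro i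
  fin_cases i
  · simpa using key m hm (fun d => d.1.1) (fun d => (hD _ d.2).1)
  · simpa using key n hn (fun d => d.1.2) (fun d => (hD _ d.2).2)

end Pool.Agent.V11112.BM
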