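import Mathlib
import Pool.Agent.V11112.BM3

open MeasureTheory Set Filter Topology
open scoped ENNReal

namespace Pool.Agent.V11112.BM

/-- number of symbols needed for the columns at level `N` -/
def Lc (m n N : ℕ) : ℕ := Nat.clog m (n ^ N)

lemma pow_le_Lc {m n : ℕ} (hm : 2 ≤ m) (N : ℕ) : n ^ N ≤ m ^ (Lc m n N) :=
  Nat.le_pow_clog (by omega) _

lemma le_Lc {m n : ℕ} (hm : 2 ≤ m) (hmn : m < n) (N : ℕ) : N ≤ Lc m n N := by
  have h1 : m ^ N ≤ m ^ (Lc m n N) :=
    le_trans (Nat.pow_le_pow_left hmn.le N) (pow_le_Lc hm N)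
  exact (Nat.pow_le_pow_iff_right (by omega)).1 h1

lemma Lc_le {m n : ℕ} (hm : 2 ≤ m) (N : ℕ) : Lc m n N ≤ Nat.clog m n * N := by
  unfold Lc
  apply Nat.clog_le_of_le_pow
  rw [pow_mul]
  exact Nat.pow_le_pow_left (Nat.le_pow_clog (by omega) _) N

lemma Lc_pow_le {m n : ℕ} (hm : 2 ≤ m) (hn : 2 ≤ n) (N : ℕ) : m ^ (Lc m n N) ≤ m * n ^ N := by
  rcases Nat.eq_zero_or_pos (Lc m n N) with h | h
  · rw [h, pow_zero]
    have : 0 < m * n ^ N := by positivity
    omega
  · have h1 : 1 < n ^ N := by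
      by_contra hh
      have : n ^ N = 1 := by
        have : 0 < n ^ N := by positivity
        omega
      unfold Lc at h
      rw [this] at h
      simp at h
    have h2 := Nat.pow_pred_clog_lt_self (b := m) (by omega) h1
    obtain ⟨l, hl⟩ : ∃ l, Lc m n N = l + 1 := ⟨Lc m n N - 1, by omega⟩
    have h3 : Nat.clog m (n ^ N) = l + 1 := hl
    rw [h3] at h2
    rw [hl, pow_succ, mul_comm]
    apply Nat.mul_le_mul_left
    simpa using h2.le

section words

variable {D : Finset (ℕ × ℕ)} (m n N : ℕ)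

/-- index set of approximate squares of level `N` -/
abbrev W (m n N : ℕ) (D : Finset (ℕ × ℕ)) : Type :=
  (Fin N → D) × (Fin (Lc m n N - N) → (Finset.univ.image (colD D)))

/-- number of nonempty columns -/
noncomputable def Mc (D : Finset (ℕ × ℕ)) : ℕ := (Finset.univ.image (colD D)).card

lemma card_W : Fintype.card (W m n N D) = D.card ^ N * Mc D ^ (Lc m n N - N) := by
  unfold W
  rw [Fintype.card_prod, Fintype.card_fun, Fintype.card_fun]
  simp [Mc]

variable [Nonempty D]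

lemma mem_cols_aux (c : (Finset.univ.image (colD D))) : ∃ d : D, colD D d = c := by
  obtain ⟨s, -, hs⟩ := Finset.mem_image.1 c.2
  exact ⟨s, hs⟩

/-- the symbolic representative -/
noncomputable def word {m n N : ℕ} (w : W m n N D) (t : ℕ) : D :=
  if h : t < N then w.1 ⟨t, h⟩
  else if h' : t < Lc m n N then (mem_cols_aux (w.2 ⟨t - N, by omega⟩)).choose
  else Classical.arbitrary D

lemma word_lt {m n N : ℕ} (w : W m n N D) {t : ℕ} (h : t < N) : word w t = w.1 ⟨t, h⟩ := by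
  unfold word; rw [dif_pos h]

lemma word_col {m n N : ℕ} (w : W m n N D) {t : ℕ} (h : ¬ t < N) (h' : t < Lc m n N) :
    colD D (word w t) = w.2 ⟨t - N, by omega⟩ := by
  unfold word; rw [dif_neg h, dif_pos h']
  exact (mem_cols_aux (w.2 ⟨t - N, by omega⟩)).choose_spec

/-- every sequence is in the cylinder of some word -/
lemma exists_word (m n N : ℕ) (ω : ℕ → D) :
    ∃ w : W m n N D, ω ∈ cyl (colD D) N (Lc m n N) (word w) := by
  refine ⟨(fun t => ω t, fun t => ⟨colD D (ω (t + N)), Finset.mem_image_of_mem _ (Finset.mem_univ _)⟩),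
    ?_, ?_⟩
  · intro t ht
    rw [word_lt _ ht]
  · intro t ht
    by_cases h : t < N
    · rw [word_lt _ h]
    · rw [word_col _ h ht]
      simp only
      rw [show t - N + N = t by omega]

end words

/-- the pair of integers locating a word in the grid -/
lemma word_inj {m n N : ℕ} (hm : 2 ≤ m) (hmn : m < n) {D : Finset (ℕ × ℕ)} [Nonempty D]
    (hD : ∀ d ∈ D, d.1 < m ∧ d.2 < n) {w w' : W m n N D}
    (h1 : P m (fun t => (word w t).1.1) (Lc m n N) = P m (fun t => (word w' t).1.1) (Lc m n N))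
    (h2 : P n (fun t => (word w t).1.2) N = P n (fun t => (word w' t).1.2) N) : w = w' := by
  have e1 := P_inj (fun t => (hD _ (word w t).2).1) (fun t => (hD _ (word w' t).2).1) h1
  have e2 := P_inj (fun t => (hD _ (word w t).2).2) (fun t => (hD _ (word w' t).2).2) h2
  have hNL := le_Lc hm hmn N
  refine Prod.ext ?_ ?_
  · funext t
    have a1 := e1 t (lt_of_lt_of_le t.2 hNL)
    have a2 := e2 t t.2
    have a3 : word w t = word w' t := Subtype.ext (Prod.ext a1 a2)
    rw [word_lt w t.2, word_lt w' t.2] at a3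
    exact a3
  · funext t
    have ht := t.2
    have a1 := e1 (t + N) (by omega)
    have b1 : colD D (word w (t + N)) = colD D (word w' (t + N)) := a1
    rw [word_col w (by omega) (by omega), word_col w' (by omega) (by omega)] at b1
    have : (⟨(t : ℕ) + N - N, by omega⟩ : Fin (Lc m n N - N)) = t := by
      apply Fin.ext; simp
    rw [this] at b1
    exact Subtype.ext b1

lemma floor_mem {b r z x p : ℝ} {c : ℕ} (h : |z - x| ≤ r) (hb : 0 ≤ b) (hbr : b * r ≤ c)
    (h1 : p ≤ b * z) (h2 : b * z ≤ p + 1) : -(c + 1 : ℝ) ≤ p - b * x ∧ p - b * x ≤ c := by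
  rw [abs_le] at h
  have h3 : b * (z - x) ≤ b * r := mul_le_mul_of_nonneg_left h.2 hb
  have h4 : b * (-r) ≤ b * (z - x) := mul_le_mul_of_nonneg_left h.1 hb
  constructor <;> nlinarith

lemma int_mem {y : ℝ} {p : ℕ} {c : ℕ} (h : -(c + 1 : ℝ) ≤ p - y ∧ p - y ≤ c) :
    (p : ℤ) - ⌊y⌋ ∈ Finset.Icc (-(c + 1 : ℤ)) (c + 1) := by
  rw [Finset.mem_Icc]
  have h1 := Int.floor_le y
  have h2 := Int.lt_floor_add_one y
  constructor
  · have : (-(c + 1 : ℝ)) ≤ (p : ℝ) - ⌊y⌋ := by linarith [h.1]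
    exact_mod_cast this
  · have : ((p : ℝ) - ⌊y⌋) < c + 2 := by linarith [h.2]
    have h3 : (p : ℤ) - ⌊y⌋ < c + 2 := by exact_mod_cast this
    omega

/-- the counting lemma -/
lemma count_le {m n N : ℕ} (hm : 2 ≤ m) (hmn : m < n) {D : Finset (ℕ × ℕ)} [Nonempty D]
    (hD : ∀ d ∈ D, d.1 < m ∧ d.2 < n) {r : ℝ} (hr : r ≤ 1 / (n : ℝ) ^ N) (x : Plane) :
    (Finset.univ.filter (fun w : W m n N D => dist (code m n D (word w)) x ≤ r)).card ≤
      (2 * m + 3) * 5 := by
  have hn : 2 ≤ n := by omega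
  let F : W m n N D → ℤ × ℤ := fun w =>
    ((P m (fun t => (word w t).1.1) (Lc m n N) : ℤ) - ⌊(m : ℝ) ^ (Lc m n N) * x 0⌋,
     (P n (fun t => (word w t).1.2) N : ℤ) - ⌊(n : ℝ) ^ N * x 1⌋)
  have hcard : ((Finset.Icc (-(m + 1 : ℤ)) (m + 1)) ×ˢ (Finset.Icc (-((1 : ℕ) + 1 : ℤ)) ((1 : ℕ) + 1))).card
      = (2 * m + 3) * 5 := by
    rw [Finset.card_product, Int.card_Icc, Int.card_Icc]
    congr 1
    omega
  rw [← hcard]
  apply Finset.card_le_card_of_injOn F
  · intro w hw
    simp only [Finset.coe_filter, Finset.mem_univ, true_and, Set.mem_ofPred_eq] at hw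
    have hmpos : (0 : ℝ) < (m : ℝ) ^ (Lc m n N) := by positivity
    have hnpos : (0 : ℝ) < (n : ℝ) ^ N := by positivity
    have v0 := val_mem hm (fun t => (hD _ (word w t).2).1) (Lc m n N)
    have v1 := val_mem hn (fun t => (hD _ (word w t).2).2) N
    have d0 := le_trans (abs_sub_le_dist _ _ 0) hw
    have d1 := le_trans (abs_sub_le_dist _ _ 1) hw
    rw [code_eq hm hn hD] at d0 d1
    have e0 : |val m (fun t => (word w t).1.1) - x 0| ≤ r := by simpa using d0
    have e1 : |val n (fun t => (word w t).1.2) - x 1| ≤ r := by simpa using d1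
    have q0 : (m : ℝ) ^ (Lc m n N) * r ≤ m := by
      have a1 : ((m : ℝ) ^ (Lc m n N)) ≤ m * (n : ℝ) ^ N := by exact_mod_cast Lc_pow_le hm hn N
      calc (m : ℝ) ^ (Lc m n N) * r ≤ (m : ℝ) ^ (Lc m n N) * (1 / (n : ℝ) ^ N) := by gcongr
        _ ≤ (m * (n : ℝ) ^ N) * (1 / (n : ℝ) ^ N) := by gcongr
        _ = m := by field_simp
    have q1 : (n : ℝ) ^ N * r ≤ (1 : ℕ) := by
      calc (n : ℝ) ^ N * r ≤ (n : ℝ) ^ N * (1 / (n : ℝ) ^ N) := by gcongr
        _ = (1 : ℕ) := by field_simp; simp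
    have v0a := v0.1
    have v0b := v0.2
    have v1a := v1.1
    have v1b := v1.2
    rw [div_le_iff₀ hmpos, mul_comm] at v0a
    rw [le_div_iff₀ hmpos, mul_comm] at v0b
    rw [div_le_iff₀ hnpos, mul_comm] at v1a
    rw [le_div_iff₀ hnpos, mul_comm] at v1b
    have r0 := floor_mem e0 hmpos.le q0 v0a v0b
    have r1 := floor_mem e1 hnpos.le q1 v1a v1b
    simp only [Finset.coe_product, Set.mem_prod]
    exact ⟨int_mem r0, int_mem r1⟩
  · intro w _ w' _ hww
    simp only [F, Prod.mk.injEq] at hww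
    apply word_inj hm hmn hD
    · have := hww.1; omega
    · have := hww.2; omega

end Pool.Agent.V11112.BM
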