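import Mathlib
import Pool.Agent.V11112.BM4

open MeasureTheory Set Filter Topology
open scoped ENNReal

namespace Pool.Agent.V11112.BM

/-- The Minkowski dimension of a measure on the plane. -/
noncomputable def minkDim (μ : Measure Plane) : ℝ :=
  sInf {s : ℝ | 0 ≤ s ∧ ∃ C : ℝ, 0 < C ∧ ∀ x ∈ μ.support, ∀ r : ℝ, 0 < r → r ≤ 1 →
    ENNReal.ofReal (C * r ^ s) ≤ μ (Metric.closedBall x r)}

/-- least number of closed balls of radius `r` covering `E` -/
noncomputable def coverNum (E : Set Plane) (r : ℝ) : ℕ :=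
  sInf {k | ∃ s : Finset Plane, s.card = k ∧ E ⊆ ⋃ x ∈ s, Metric.closedBall x r}

/-- `E` has box-counting (Minkowski) dimension `d` -/
def HasBoxDim (E : Set Plane) (d : ℝ) : Prop :=
  Tendsto (fun r : ℝ => Real.log (coverNum E r) / Real.log (1 / r)) (𝓝[>] 0) (𝓝 d)

section

variable {m n : ℕ} {D : Finset (ℕ × ℕ)}

noncomputable def sdim (m n : ℕ) (D : Finset (ℕ × ℕ)) : ℝ :=
  Real.logb m (Mc D) + Real.logb n ((D.card : ℝ) / Mc D)

lemma Mc_pos [Nonempty D] : 0 < Mc D := by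
  unfold Mc
  rw [Finset.card_pos]
  exact Finset.univ_nonempty.image _

lemma Mc_le : Mc D ≤ D.card := by
  unfold Mc
  refine le_trans Finset.card_image_le ?_
  simp

lemma sdim_nonneg [Nonempty D] (hm : 2 ≤ m) (hn : 2 ≤ n) : 0 ≤ sdim m n D := by
  have h1 : (1 : ℝ) ≤ Mc D := by exact_mod_cast (Mc_pos (D := D))
  have h2 : (1 : ℝ) ≤ (D.card : ℝ) / Mc D := by
    rw [le_div_iff₀ (by linarith), one_mul]
    exact_mod_cast Mc_le (D := D)
  have hm' : (1 : ℝ) < m := by exact_mod_cast (by omega : 1 < m)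
  have hn' : (1 : ℝ) < n := by exact_mod_cast (by omega : 1 < n)
  exact add_nonneg (Real.logb_nonneg hm' h1) (Real.logb_nonneg hn' h2)

lemma card_W_real [Nonempty D] (hm : 2 ≤ m) (hmn : m < n) (N : ℕ) :
    (Fintype.card (W m n N D) : ℝ) = ((D.card : ℝ) / Mc D) ^ N * (Mc D : ℝ) ^ (Lc m n N) := by
  rw [card_W]
  push_cast
  have h : (0 : ℝ) < Mc D := by exact_mod_cast (Mc_pos (D := D))
  have hL := le_Lc hm hmn N
  obtain ⟨e, he⟩ : ∃ e, Lc m n N = N + e := ⟨Lc m n N - N, by omega⟩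
  rw [he, Nat.add_sub_cancel_left, pow_add, div_pow]
  field_simp

lemma pow_N_eq [Nonempty D] (hn : 2 ≤ n) (N : ℕ) :
    ((n : ℝ) ^ N) ^ (Real.logb n ((D.card : ℝ) / Mc D)) = ((D.card : ℝ) / Mc D) ^ N := by
  have hn' : (1 : ℝ) < n := by exact_mod_cast (by omega : 1 < n)
  have h1 : (0 : ℝ) < Mc D := by exact_mod_cast (Mc_pos (D := D))
  have h3 : (0 : ℝ) < D.card := lt_of_lt_of_le h1 (by exact_mod_cast Mc_le (D := D))
  rw [← Real.rpow_natCast, ← Real.rpow_mul (by linarith), mul_comm, Real.rpow_mul (by linarith),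
    Real.rpow_logb (by linarith) (by linarith) (by positivity), Real.rpow_natCast]

lemma pow_L_eq [Nonempty D] (hm : 2 ≤ m) (L : ℕ) :
    ((m : ℝ) ^ L) ^ (Real.logb m (Mc D)) = (Mc D : ℝ) ^ L := by
  have hm' : (1 : ℝ) < m := by exact_mod_cast (by omega : 1 < m)
  have h1 : (0 : ℝ) < Mc D := by exact_mod_cast (Mc_pos (D := D))
  rw [← Real.rpow_natCast, ← Real.rpow_mul (by linarith), mul_comm, Real.rpow_mul (by linarith),
    Real.rpow_logb (by linarith) (by linarith) (by positivity), Real.rpow_natCast]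

lemma W_lower [Nonempty D] (hm : 2 ≤ m) (hmn : m < n) (N : ℕ) :
    ((n : ℝ) ^ N) ^ (sdim m n D) ≤ Fintype.card (W m n N D) := by
  have hn : 2 ≤ n := by omega
  have h1 : (1 : ℝ) ≤ Mc D := by exact_mod_cast (Mc_pos (D := D))
  have hm' : (1 : ℝ) < m := by exact_mod_cast (by omega : 1 < m)
  have hX : (0 : ℝ) < (n : ℝ) ^ N := by positivity
  rw [card_W_real hm hmn, sdim, Real.rpow_add hX, pow_N_eq hn, ← pow_L_eq hm, mul_comm]
  have : (n : ℝ) ^ N ≤ (m : ℝ) ^ (Lc m n N) := by exact_mod_cast pow_le_Lc hm N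
  have h2 := Real.rpow_le_rpow hX.le this (Real.logb_nonneg hm' h1)
  gcongr

lemma W_upper [Nonempty D] (hm : 2 ≤ m) (hmn : m < n) (N : ℕ) :
    (Fintype.card (W m n N D) : ℝ) ≤ Mc D * ((n : ℝ) ^ N) ^ (sdim m n D) := by
  have hn : 2 ≤ n := by omega
  have h1 : (1 : ℝ) ≤ Mc D := by exact_mod_cast (Mc_pos (D := D))
  have hm' : (1 : ℝ) < m := by exact_mod_cast (by omega : 1 < m)
  have hX : (0 : ℝ) < (n : ℝ) ^ N := by positivity
  rw [card_W_real hm hmn, sdim, Real.rpow_add hX, pow_N_eq hn, ← pow_L_eq hm]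
  have : (m : ℝ) ^ (Lc m n N) ≤ m * (n : ℝ) ^ N := by exact_mod_cast Lc_pow_le hm hn N
  have h2 := Real.rpow_le_rpow (by positivity) this (Real.logb_nonneg hm' h1)
  rw [Real.mul_rpow (by linarith) hX.le] at h2
  have h3 := pow_L_eq (D := D) hm 1
  rw [pow_one, pow_one] at h3
  rw [h3] at h2
  calc ((D.card : ℝ) / Mc D) ^ N * ((m : ℝ) ^ (Lc m n N)) ^ (Real.logb m (Mc D))
      ≤ ((D.card : ℝ) / Mc D) ^ N * ((Mc D : ℝ) * ((n : ℝ) ^ N) ^ (Real.logb m (Mc D))) := by
        gcongr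
    _ = _ := by ring

/-- the measure on the carpet -/
noncomputable def mu (m n : ℕ) (D : Finset (ℕ × ℕ)) [Nonempty D] : Measure Plane :=
  (nu (colD D) (Nat.clog m n)).map (code m n D)

lemma clog_pos (hm : 2 ≤ m) (hmn : m < n) : 0 < Nat.clog m n :=
  Nat.clog_pos (by omega) (by omega)

lemma mu_prob [Nonempty D] (hm : 2 ≤ m) (hmn : m < n) (hD : ∀ d ∈ D, d.1 < m ∧ d.2 < n) :
    IsProbabilityMeasure (mu m n D) := by
  constructor
  unfold mu
  rw [Measure.map_apply (measurable_code hm (by omega) hD) MeasurableSet.univ, preimage_univ]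
  exact nu_univ _ _ (clog_pos hm hmn)

lemma mu_ball_ge [Nonempty D] (hm : 2 ≤ m) (hmn : m < n) (hD : ∀ d ∈ D, d.1 < m ∧ d.2 < n)
    {N : ℕ} (hN : 0 < N) (ω : ℕ → D) {r : ℝ} (hr : 2 * (1 / (n : ℝ) ^ N) ≤ r) :
    ENNReal.ofReal (1 / (8 * (Nat.clog m n) * N ^ 2 * Fintype.card (W m n N D))) ≤
      mu m n D (Metric.closedBall (code m n D ω) r) := by
  have h1 := nu_cyl_ge (colD D) (clog_pos hm hmn) hN (le_Lc hm hmn N) (Lc_le hm N) ω
  unfold mu
  rw [Measure.map_apply (measurable_code hm (by omega) hD) Metric.isClosed_closedBall.measurableSet]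
  have hsub : cyl (colD D) N (Lc m n N) ω ⊆
      code m n D ⁻¹' (Metric.closedBall (code m n D ω) r) := by
    intro ω' hω'
    simp only [Set.mem_preimage, Metric.mem_closedBall]
    exact le_trans (dist_code_le hm (by omega) hD (pow_le_Lc hm N) hω') hr
  refine le_trans (le_trans (le_of_eq ?_) h1) (measure_mono hsub)
  have hW := card_W (D := D) m n N
  have hcard : 0 < Fintype.card (W m n N D) := by
    rw [hW]
    have := Mc_pos (D := D)
    have h2 : 0 < D.card := lt_of_lt_of_le this Mc_le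
    positivity
  have hR := clog_pos hm hmn
  have e1 : (1 / (8 * (Nat.clog m n : ℝ) * (N : ℝ) ^ 2 * (Fintype.card (W m n N D) : ℝ))) =
      ((8 * Nat.clog m n * N ^ 2 * Fintype.card (W m n N D) : ℕ) : ℝ)⁻¹ := by
    push_cast; rw [one_div]
  rw [e1, ENNReal.ofReal_inv_of_pos (by positivity), ENNReal.ofReal_natCast]
  rw [hW]
  have z1 : ((Fintype.card D : ℝ≥0∞)) ^ N ≠ 0 :=
    pow_ne_zero _ (Nat.cast_ne_zero.2 Fintype.card_ne_zero)
  have z2 : ((Fintype.card D : ℝ≥0∞)) ^ N ≠ ∞ := ENNReal.pow_ne_top (ENNReal.natCast_ne_top _)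
  have z3 : ((8 * Nat.clog m n * N ^ 2 : ℕ) : ℝ≥0∞) ≠ 0 := Nat.cast_ne_zero.2 (by positivity)
  have z4 : ((8 * Nat.clog m n * N ^ 2 : ℕ) : ℝ≥0∞) ≠ ∞ := ENNReal.natCast_ne_top _
  rw [← ENNReal.inv_pow, ← ENNReal.inv_pow, ← ENNReal.mul_inv (Or.inl z1) (Or.inl z2),
    ← ENNReal.mul_inv (Or.inl z3) (Or.inl z4)]
  congr 1
  push_cast
  simp only [Fintype.card_coe]
  rfl

open Classical in
/-- pointwise bounded overlap gives a bound on the total mass -/
lemma sum_measure_le {X ι : Type*} [Fintype ι] [MeasurableSpace X] (μ : Measure X)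
    [IsProbabilityMeasure μ] (B : ι → Set X) (hB : ∀ i, MeasurableSet (B i)) (K : ℕ)
    (hK : ∀ x, (Finset.univ.filter (fun i => x ∈ B i)).card ≤ K) :
    ∑ i, μ (B i) ≤ K := by
  calc ∑ i, μ (B i) = ∑ i, ∫⁻ x, (B i).indicator 1 x ∂μ := by
        apply Finset.sum_congr rfl
        intro i _
        rw [lintegral_indicator_one (hB i)]
    _ = ∫⁻ x, ∑ i, (B i).indicator 1 x ∂μ := by
        rw [lintegral_finset_sum]
        intro i _
        exact measurable_one.indicator (hB i)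
    _ ≤ ∫⁻ _, (K : ℝ≥0∞) ∂μ := by
        apply lintegral_mono
        intro x
        simp only [Set.indicator_apply, Pi.one_apply]
        rw [Finset.sum_ite, Finset.sum_const, Finset.sum_const_zero, add_zero, nsmul_eq_mul, mul_one]
        exact_mod_cast hK x
    _ = K := by simp

/-- level selection -/
lemma exists_level (hn : 2 ≤ n) {r : ℝ} (hr : 0 < r) (hr1 : r ≤ 1) :
    ∃ N : ℕ, 0 < N ∧ 2 * (1 / (n : ℝ) ^ N) ≤ r ∧ r / (2 * n) ≤ 1 / (n : ℝ) ^ N := by
  have hn' : (1 : ℝ) < n := by exact_mod_cast (by omega : 1 < n)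
  obtain ⟨k, hk1, hk2⟩ := exists_nat_pow_near (x := 2 / r) (y := (n : ℝ))
    (by rw [le_div_iff₀ hr]; linarith) hn'
  refine ⟨k + 1, by omega, ?_, ?_⟩
  · rw [div_lt_iff₀ hr] at hk2
    rw [mul_one_div, div_le_iff₀ (by positivity)]
    linarith
  · rw [div_le_div_iff₀ (by positivity) (by positivity), pow_succ]
    rw [le_div_iff₀ hr] at hk1
    nlinarith

lemma mu_pos [Nonempty D] (hm : 2 ≤ m) (hmn : m < n) (hD : ∀ d ∈ D, d.1 < m ∧ d.2 < n)
    (ω : ℕ → D) : code m n D ω ∈ (mu m n D).support := by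
  have hn : 2 ≤ n := by omega
  rw [Metric.nhds_basis_closedBall.mem_measureSupport]
  intro r hr
  obtain ⟨N, hN, h1, -⟩ := exists_level hn (r := min r 1) (lt_min hr one_pos) (min_le_right _ _)
  have h2 := mu_ball_ge hm hmn hD hN ω (le_trans h1 (min_le_left _ _))
  refine lt_of_lt_of_le ?_ h2
  rw [ENNReal.ofReal_pos]
  have hR := clog_pos hm hmn
  have hcard : 0 < Fintype.card (W m n N D) := by
    have := W_lower (D := D) hm hmn N
    have h3 : (0 : ℝ) < ((n : ℝ) ^ N) ^ (sdim m n D) := by positivity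
    exact_mod_cast lt_of_lt_of_le h3 this
  positivity

lemma mu_support [Nonempty D] (hm : 2 ≤ m) (hmn : m < n) (hD : ∀ d ∈ D, d.1 < m ∧ d.2 < n)
    (hcl : IsClosed (range (code m n D))) : (mu m n D).support ⊆ range (code m n D) := by
  apply Measure.support_subset_of_isClosed hcl
  rw [mem_ae_iff]
  unfold mu
  rw [Measure.map_apply (measurable_code hm (by omega) hD) hcl.isOpen_compl.measurableSet]
  have : code m n D ⁻¹' (range (code m n D))ᶜ = ∅ := by
    ext ω; simp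
  rw [this, measure_empty]

/-- lower bound for admissible exponents -/
lemma admissible_ge [Nonempty D] (hm : 2 ≤ m) (hmn : m < n) (hD : ∀ d ∈ D, d.1 < m ∧ d.2 < n)
    {s C : ℝ} (hC : 0 < C) (h : ∀ x ∈ (mu m n D).support, ∀ r : ℝ, 0 < r → r ≤ 1 →
      ENNReal.ofReal (C * r ^ s) ≤ mu m n D (Metric.closedBall x r)) : sdim m n D ≤ s := by
  by_contra hlt
  push Not at hlt
  have hn : 2 ≤ n := by omega
  have hn' : (1 : ℝ) < n := by exact_mod_cast (by omega : 1 < n)
  haveI := mu_prob hm hmn hD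
  set K : ℕ := (2 * m + 3) * 5 with hK
  have key : ∀ N : ℕ, ((n : ℝ) ^ (sdim m n D - s)) ^ N * C ≤ K := by
    intro N
    set X : ℝ := (n : ℝ) ^ N with hX
    have hXpos : 0 < X := by positivity
    have hX1 : 1 ≤ X := one_le_pow₀ hn'.le
    have h1 := sum_measure_le (mu m n D)
      (fun w : W m n N D => Metric.closedBall (code m n D (word w)) (1 / X))
      (fun w => Metric.isClosed_closedBall.measurableSet) K (fun x => by
        have := count_le (N := N) hm hmn hD (r := 1 / X) le_rfl x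
        refine le_trans (Finset.card_le_card ?_) this
        intro w hw
        simp only [Finset.mem_filter, Finset.mem_univ, true_and, Metric.mem_closedBall] at hw ⊢
        rw [dist_comm]
        exact hw)
    have h2 : ∑ w : W m n N D, ENNReal.ofReal (C * (1 / X) ^ s) ≤ K := by
      refine le_trans (Finset.sum_le_sum (fun w _ => ?_)) h1
      exact h _ (mu_pos hm hmn hD _) _ (by positivity) (by rw [div_le_one hXpos]; exact hX1)
    rw [Finset.sum_const, nsmul_eq_mul, Finset.card_univ] at h2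
    have h3 : (Fintype.card (W m n N D) : ℝ) * (C * (1 / X) ^ s) ≤ K := by
      rw [← ENNReal.ofReal_natCast, ← ENNReal.ofReal_mul (by positivity)] at h2
      rw [← ENNReal.ofReal_natCast K] at h2
      exact (ENNReal.ofReal_le_ofReal_iff (by positivity)).1 h2
    have h4 := W_lower (D := D) hm hmn N
    rw [← hX] at h4
    have h5 : X ^ (sdim m n D) * (C * (1 / X) ^ s) ≤ K :=
      le_trans (by gcongr) h3
    have h6 : X ^ (sdim m n D) * (C * (1 / X) ^ s) = ((n : ℝ) ^ (sdim m n D - s)) ^ N * C := by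
      rw [← Real.rpow_natCast ((n : ℝ) ^ (sdim m n D - s)), ← Real.rpow_mul (by linarith),
        mul_comm (sdim m n D - s), Real.rpow_mul (by linarith), Real.rpow_natCast, ← hX,
        Real.rpow_sub hXpos, one_div, Real.inv_rpow hXpos.le]
      field_simp
    rw [h6] at h5
    exact h5
  have h7 : (1 : ℝ) < (n : ℝ) ^ (sdim m n D - s) := Real.one_lt_rpow hn' (by linarith)
  obtain ⟨N, hN⟩ := pow_unbounded_of_one_lt ((K : ℝ) / C) h7
  have := key N
  rw [div_lt_iff₀ hC] at hN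
  linarith

/-- every exponent above `sdim` is admissible -/
lemma admissible_of_gt [Nonempty D] (hm : 2 ≤ m) (hmn : m < n)
    (hD : ∀ d ∈ D, d.1 < m ∧ d.2 < n) {s : ℝ} (hs : sdim m n D < s) :
    ∃ C : ℝ, 0 < C ∧ ∀ ω : ℕ → D, ∀ r : ℝ, 0 < r → r ≤ 1 →
      ENNReal.ofReal (C * r ^ s) ≤ mu m n D (Metric.closedBall (code m n D ω) r) := by
  have hn : 2 ≤ n := by omega
  have hn' : (1 : ℝ) < n := by exact_mod_cast (by omega : 1 < n)
  have hR : (0 : ℝ) < Nat.clog m n := by exact_mod_cast clog_pos hm hmn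
  have hM : (0 : ℝ) < Mc D := by exact_mod_cast (Mc_pos (D := D))
  have hs0 : 0 ≤ s := le_trans (sdim_nonneg (D := D) hm hn) hs.le
  set δ := s - sdim m n D with hδ
  have hδ0 : 0 < δ := by linarith
  have hlog : 0 < Real.log n := Real.log_pos hn'
  set C' : ℝ := (δ * Real.log n) ^ 2 / (16 * (Nat.clog m n) * Mc D) with hC'
  have hC'0 : 0 < C' := by positivity
  refine ⟨C' * ((2 * n : ℝ) ^ s)⁻¹, by positivity, ?_⟩
  intro ω r hr hr1
  obtain ⟨N, hN, h1, h2⟩ := exists_level hn hr hr1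
  refine le_trans ?_ (mu_ball_ge hm hmn hD hN ω h1)
  apply ENNReal.ofReal_le_ofReal
  set X : ℝ := (n : ℝ) ^ N with hX
  have hXpos : 0 < X := by positivity
  have hNpos : (0 : ℝ) < N := by exact_mod_cast hN
  have e1 : C' * ((2 * n : ℝ) ^ s)⁻¹ * r ^ s ≤ C' * (1 / X) ^ s := by
    have : ((2 * n : ℝ) ^ s)⁻¹ * r ^ s = (r / (2 * n)) ^ s := by
      rw [Real.div_rpow hr.le (by positivity), div_eq_mul_inv, mul_comm]
    rw [mul_assoc, this]
    gcongr
  refine le_trans e1 ?_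
  have hW := W_upper (D := D) hm hmn N
  have hWpos : (0 : ℝ) < Fintype.card (W m n N D) := by
    have := W_lower (D := D) hm hmn N
    have h3 : (0 : ℝ) < ((n : ℝ) ^ N) ^ (sdim m n D) := by positivity
    exact lt_of_lt_of_le h3 this
  rw [← hX] at hW
  rw [le_div_iff₀ (by positivity)]
  have e2 : X ^ δ = Real.exp (δ * Real.log n * N) := by
    rw [Real.rpow_def_of_pos hXpos, hX, Real.log_pow]
    congr 1; ring
  have e3 : (δ * Real.log n * N) ^ 2 / 2 ≤ X ^ δ := by
    rw [e2]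
    have := Real.quadratic_le_exp_of_nonneg (x := δ * Real.log n * N) (by positivity)
    have h5 : 0 ≤ δ * Real.log n * N := by positivity
    linarith
  have e4 : (1 / X) ^ s = (X ^ (sdim m n D))⁻¹ * (X ^ δ)⁻¹ := by
    rw [one_div, Real.inv_rpow hXpos.le, ← mul_inv, ← Real.rpow_add hXpos, hδ]
    congr 2; ring
  rw [e4]
  have hA : 0 < X ^ (sdim m n D) := by positivity
  have hB : 0 < X ^ δ := by positivity
  calc C' * ((X ^ (sdim m n D))⁻¹ * (X ^ δ)⁻¹) *
        (8 * (Nat.clog m n) * (N : ℝ) ^ 2 * Fintype.card (W m n N D))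
      ≤ C' * ((X ^ (sdim m n D))⁻¹ * (X ^ δ)⁻¹) *
        (8 * (Nat.clog m n) * (N : ℝ) ^ 2 * (Mc D * X ^ (sdim m n D))) := by gcongr
    _ = ((δ * Real.log n * N) ^ 2 / 2) * (X ^ δ)⁻¹ := by
        rw [hC']; field_simp; ring
    _ ≤ (X ^ δ) * (X ^ δ)⁻¹ := by gcongr
    _ = 1 := by field_simp

lemma minkDim_mu [Nonempty D] (hm : 2 ≤ m) (hmn : m < n) (hD : ∀ d ∈ D, d.1 < m ∧ d.2 < n)
    (hcl : IsClosed (range (code m n D))) : minkDim (mu m n D) = sdim m n D := by
  have hn : 2 ≤ n := by omega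
  unfold minkDim
  have hadm : ∀ s, sdim m n D < s → s ∈ {s : ℝ | 0 ≤ s ∧ ∃ C : ℝ, 0 < C ∧
      ∀ x ∈ (mu m n D).support, ∀ r : ℝ, 0 < r → r ≤ 1 →
      ENNReal.ofReal (C * r ^ s) ≤ (mu m n D) (Metric.closedBall x r)} := by
    intro s hs
    refine ⟨le_trans (sdim_nonneg (D := D) hm hn) hs.le, ?_⟩
    obtain ⟨C, hC, h⟩ := admissible_of_gt hm hmn hD hs
    refine ⟨C, hC, fun x hx r hr hr1 => ?_⟩
    obtain ⟨ω, rfl⟩ := mu_support hm hmn hD hcl hx
    exact h ω r hr hr1
  apply csInf_eq_of_forall_ge_of_forall_gt_exists_lt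
  · exact ⟨sdim m n D + 1, hadm _ (by linarith)⟩
  · rintro s ⟨-, C, hC, h⟩
    exact admissible_ge hm hmn hD hC h
  · intro w hw
    exact ⟨(sdim m n D + w) / 2, hadm _ (by linarith), by linarith⟩

/-- covering number bounds -/
lemma cover_le [Nonempty D] (hm : 2 ≤ m) (hmn : m < n) (hD : ∀ d ∈ D, d.1 < m ∧ d.2 < n)
    {N : ℕ} {r : ℝ} (hr : 2 * (1 / (n : ℝ) ^ N) ≤ r) :
    coverNum (range (code m n D)) r ≤ Fintype.card (W m n N D) := by
  classical
  unfold coverNum
  refine le_trans (Nat.sInf_le ⟨Finset.univ.image (fun w : W m n N D => code m n D (word w)), rfl, ?_⟩)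
    (le_trans Finset.card_image_le (by simp))
  rintro _ ⟨ω, rfl⟩
  obtain ⟨w, hw⟩ := exists_word m n N ω
  simp only [mem_iUnion]
  refine ⟨code m n D (word w), Finset.mem_image_of_mem _ (Finset.mem_univ _), ?_⟩
  rw [Metric.mem_closedBall]
  exact le_trans (dist_code_le hm (by omega) hD (pow_le_Lc hm N) hw) hr

lemma le_cover [Nonempty D] (hm : 2 ≤ m) (hmn : m < n) (hD : ∀ d ∈ D, d.1 < m ∧ d.2 < n)
    {N : ℕ} {r : ℝ} (hr0 : 0 < r) (hr : r ≤ 1 / (n : ℝ) ^ N) :
    Fintype.card (W m n N D) ≤ coverNum (range (code m n D)) r * ((2 * m + 3) * 5) := by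
  classical
  have hn : 2 ≤ n := by omega
  have hn1 : (1 : ℝ) ≤ (n : ℝ) ^ N := one_le_pow₀ (by exact_mod_cast (by omega : 1 ≤ n))
  obtain ⟨N', -, h1, -⟩ := exists_level hn (r := r) hr0 (le_trans hr (by
    rw [div_le_one (by positivity)]; exact hn1))
  have hne : {k | ∃ s : Finset Plane, s.card = k ∧
      range (code m n D) ⊆ ⋃ x ∈ s, Metric.closedBall x r}.Nonempty := by
    refine ⟨_, Finset.univ.image (fun w : W m n N' D => code m n D (word w)), rfl, ?_⟩
    rintro _ ⟨ω, rfl⟩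
    obtain ⟨w, hw⟩ := exists_word m n N' ω
    simp only [mem_iUnion]
    refine ⟨code m n D (word w), Finset.mem_image_of_mem _ (Finset.mem_univ _), ?_⟩
    rw [Metric.mem_closedBall]
    exact le_trans (dist_code_le hm (by omega) hD (pow_le_Lc hm N') hw) h1
  obtain ⟨s, hs, hcov⟩ := Nat.sInf_mem hne
  have hs' : s.card = coverNum (range (code m n D)) r := hs
  rw [← hs', ← Finset.card_univ]
  have : (Finset.univ : Finset (W m n N D)) ⊆
      s.biUnion (fun x => Finset.univ.filter (fun w => dist (code m n D (word w)) x ≤ r)) := by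
    intro w _
    have h2 := hcov (mem_range_self (word w))
    simp only [mem_iUnion, Metric.mem_closedBall] at h2
    obtain ⟨x, hx, hxr⟩ := h2
    simp only [Finset.mem_biUnion, Finset.mem_filter, Finset.mem_univ, true_and]
    exact ⟨x, hx, hxr⟩
  refine le_trans (Finset.card_le_card this) ?_
  exact Finset.card_biUnion_le_card_mul _ _ _ (fun x _ => count_le hm hmn hD hr x)

lemma hasBoxDim_range [Nonempty D] (hm : 2 ≤ m) (hmn : m < n)
    (hD : ∀ d ∈ D, d.1 < m ∧ d.2 < n) : HasBoxDim (range (code m n D)) (sdim m n D) := by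
  have hn : 2 ≤ n := by omega
  have hn' : (1 : ℝ) < n := by exact_mod_cast (by omega : 1 < n)
  have hM : (0 : ℝ) < Mc D := by exact_mod_cast (Mc_pos (D := D))
  have hsd := sdim_nonneg (D := D) hm hn
  set K : ℝ := (((2 * m + 3) * 5 : ℕ) : ℝ) with hK
  have hK0 : 0 < K := by rw [hK]; positivity
  set c1 : ℝ := ((n : ℝ) ^ (sdim m n D))⁻¹ / K with hc1
  set c2 : ℝ := Mc D * ((n : ℝ) ^ 2) ^ (sdim m n D) with hc2
  have hc10 : 0 < c1 := by positivity
  have hc20 : 0 < c2 := by positivity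
  have bounds : ∀ r : ℝ, 0 < r → r < 1 →
      c1 * (1 / r) ^ (sdim m n D) ≤ coverNum (range (code m n D)) r ∧
      (coverNum (range (code m n D)) r : ℝ) ≤ c2 * (1 / r) ^ (sdim m n D) := by
    intro r hr hr1
    have h1r : 1 ≤ 1 / r := by rw [le_div_iff₀ hr]; linarith
    obtain ⟨N, hN1, hN2⟩ := exists_nat_pow_near h1r hn'
    constructor
    · have hr2 : r ≤ 1 / (n : ℝ) ^ N := by
        rw [le_div_iff₀ (by positivity)]
        rw [le_div_iff₀ hr] at hN1
        linarith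
      have h1 := le_cover hm hmn hD hr hr2
      have h2 := W_lower (D := D) hm hmn N
      have h3 : (Fintype.card (W m n N D) : ℝ) ≤ coverNum (range (code m n D)) r * K := by
        rw [hK]; exact_mod_cast h1
      have h4 : 1 / r / n ≤ (n : ℝ) ^ N := by
        rw [div_le_iff₀ (by linarith), ← pow_succ]
        exact hN2.le
      have h5 : (1 / r / n) ^ (sdim m n D) ≤ ((n : ℝ) ^ N) ^ (sdim m n D) :=
        Real.rpow_le_rpow (by positivity) h4 hsd
      rw [Real.div_rpow (by positivity) (by linarith)] at h5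
      have h6 : c1 * (1 / r) ^ (sdim m n D) = (1 / r) ^ (sdim m n D) / (n : ℝ) ^ (sdim m n D) / K := by
        rw [hc1]; field_simp
      rw [h6, div_le_iff₀ hK0]
      linarith
    · have hr2 : 2 * (1 / (n : ℝ) ^ (N + 2)) ≤ r := by
        rw [mul_one_div, div_le_iff₀ (by positivity)]
        rw [div_lt_iff₀ hr] at hN2
        have : (2 : ℝ) ≤ n := by exact_mod_cast hn
        rw [show N + 2 = (N + 1) + 1 by ring, pow_succ]
        nlinarith
      have h1 : (coverNum (range (code m n D)) r : ℝ) ≤ Fintype.card (W m n (N + 2) D) := by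
        exact_mod_cast cover_le hm hmn hD hr2
      have h2 := W_upper (D := D) hm hmn (N + 2)
      refine le_trans h1 (le_trans h2 ?_)
      rw [hc2, mul_assoc, ← Real.mul_rpow (by positivity) (by positivity)]
      have h3 : (n : ℝ) ^ (N + 2) ≤ (n : ℝ) ^ 2 * (1 / r) := by
        rw [pow_add, mul_comm]
        gcongr
      gcongr
  unfold HasBoxDim
  have hlim : ∀ c : ℝ, Tendsto (fun r : ℝ => Real.log c / Real.log (1 / r) + sdim m n D) (𝓝[>] 0)
      (𝓝 (sdim m n D)) := by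
    intro c
    have h1 : Tendsto (fun r : ℝ => Real.log (1 / r)) (𝓝[>] 0) atTop := by
      simp only [one_div]
      exact Real.tendsto_log_atTop.comp tendsto_inv_nhdsGT_zero
    have h2 := (tendsto_const_nhds (x := Real.log c)).div_atTop h1
    have h3 := h2.add_const (sdim m n D)
    rw [zero_add] at h3
    exact h3
  have hev : ∀ᶠ r : ℝ in 𝓝[>] 0, 0 < r ∧ r < 1 := by
    have h1 : Ioo (0 : ℝ) 1 ∈ 𝓝[>] (0 : ℝ) := Ioo_mem_nhdsGT one_pos
    filter_upwards [h1] with r hr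
    exact ⟨hr.1, hr.2⟩
  have hlg : ∀ (c r : ℝ), 0 < c → 0 < r → r < 1 →
      Real.log (c * (1 / r) ^ (sdim m n D)) / Real.log (1 / r) =
        Real.log c / Real.log (1 / r) + sdim m n D := by
    intro c r hc hr hr1
    have h1 : 0 < Real.log (1 / r) := Real.log_pos (by rw [lt_div_iff₀ hr]; linarith)
    rw [Real.log_mul (by positivity) (by positivity), Real.log_rpow (by positivity)]
    field_simp
  refine tendsto_of_tendsto_of_tendsto_of_le_of_le' (hlim c1) (hlim c2) ?_ ?_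
  · filter_upwards [hev] with r hr
    obtain ⟨b1, b2⟩ := bounds r hr.1 hr.2
    have h1 : 0 < Real.log (1 / r) := Real.log_pos (by rw [lt_div_iff₀ hr.1]; linarith [hr.2])
    rw [← hlg c1 r hc10 hr.1 hr.2]
    have hr0 := hr.1
    gcongr
  · filter_upwards [hev] with r hr
    obtain ⟨b1, b2⟩ := bounds r hr.1 hr.2
    have h1 : 0 < Real.log (1 / r) := Real.log_pos (by rw [lt_div_iff₀ hr.1]; linarith [hr.2])
    have hr0 := hr.1
    rw [← hlg c2 r hc20 hr.1 hr.2]
    have hpos : (0 : ℝ) < coverNum (range (code m n D)) r :=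
      lt_of_lt_of_le (by positivity) b1
    gcongr

end

end Pool.Agent.V11112.BM
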