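import Mathlib

namespace Pool.Agent.V11112.L1

open scoped ENNReal
open TopologicalSpace

/-- ℓ¹(ι) over 𝕜 -/
abbrev Ell (𝕜 : Type*) [RCLike 𝕜] (ι : Type*) := lp (fun _ : ι => 𝕜) 1

variable {𝕜 : Type*} [RCLike 𝕜] {ι : Type*} [DecidableEq ι]

/-- unit vector -/
noncomputable def bas (𝕜 : Type*) [RCLike 𝕜] (i : ι) : Ell 𝕜 ι := lp.single 1 i (1 : 𝕜)

lemma norm_bas (i : ι) : ‖bas 𝕜 i‖ = 1 := by
  unfold bas
  rw [lp.norm_single (by norm_num)]
  simp

omit [DecidableEq ι] in
lemma summable_norm (f : Ell 𝕜 ι) : Summable fun i => ‖f i‖ := by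
  have := (lp.memℓp f).summable (by norm_num)
  simpa using this

omit [DecidableEq ι] in
lemma norm_eq (f : Ell 𝕜 ι) : ‖f‖ = ∑' i, ‖f i‖ := by
  rw [lp.norm_eq_tsum_rpow (by norm_num)]
  simp

lemma hasSum_bas (f : Ell 𝕜 ι) : HasSum (fun i => f i • bas 𝕜 i) f := by
  have h := lp.hasSum_single (p := 1) (by norm_num) f
  convert h using 2 with i
  unfold bas
  rw [← lp.single_smul]
  simp

lemma coe_bas (i j : ι) : (bas 𝕜 i : Ell 𝕜 ι) j = if j = i then 1 else 0 := by
  unfold bas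
  rw [lp.single_apply, Pi.single_apply]

variable {E : Type*} [NormedAddCommGroup E] [NormedSpace 𝕜 E] [CompleteSpace E]

omit [DecidableEq ι] in
lemma summable_smul (v : ι → E) (C : ℝ) (hv : ∀ i, ‖v i‖ ≤ C) (f : Ell 𝕜 ι) :
    Summable fun i => f i • v i := by
  refine Summable.of_norm_bounded (g := fun i => ‖f i‖ * C) ((summable_norm f).mul_right C) ?_
  intro i
  rw [norm_smul]
  exact mul_le_mul_of_nonneg_left (hv i) (norm_nonneg _)

/-- the bounded operator with prescribed bounded values on the unit vectors -/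
noncomputable def ofBasis (v : ι → E) (C : ℝ) (hv : ∀ i, ‖v i‖ ≤ C) : Ell 𝕜 ι →L[𝕜] E :=
  LinearMap.mkContinuous
    { toFun := fun f => ∑' i, f i • v i
      map_add' := by
        intro f g
        rw [← (summable_smul v C hv f).tsum_add (summable_smul v C hv g)]
        refine tsum_congr fun i => ?_
        rw [lp.coeFn_add, Pi.add_apply, add_smul]
      map_smul' := by
        intro c f
        rw [RingHom.id_apply, ← (summable_smul v C hv f).tsum_const_smul]
        refine tsum_congr fun i => ?_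
        rw [lp.coeFn_smul, Pi.smul_apply, smul_assoc] } C (by
      intro f
      simp only [LinearMap.coe_mk, AddHom.coe_mk]
      rw [norm_eq, mul_comm, ← tsum_mul_right]
      refine tsum_of_norm_bounded ((summable_norm f).mul_right C).hasSum ?_
      intro i
      rw [norm_smul]
      exact mul_le_mul_of_nonneg_left (hv i) (norm_nonneg _))

lemma ofBasis_bas (v : ι → E) (C : ℝ) (hv : ∀ i, ‖v i‖ ≤ C) (i : ι) :
    ofBasis (𝕜 := 𝕜) v C hv (bas 𝕜 i) = v i := by
  simp only [ofBasis, LinearMap.mkContinuous_apply, LinearMap.coe_mk, AddHom.coe_mk]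
  rw [tsum_eq_single i]
  · rw [coe_bas, if_pos rfl, one_smul]
  · intro j hj
    rw [coe_bas, if_neg hj, zero_smul]

omit [CompleteSpace E] in
lemma norm_le (ψ : Ell 𝕜 ι →L[𝕜] E) (C : ℝ) (h : ∀ i, ‖ψ (bas 𝕜 i)‖ ≤ C) (y : Ell 𝕜 ι) :
    ‖ψ y‖ ≤ C * ‖y‖ := by
  have h1 : HasSum (fun i => y i • ψ (bas 𝕜 i)) (ψ y) := by
    have := ψ.hasSum (hasSum_bas y)
    simpa using this
  rw [norm_eq, mul_comm, ← tsum_mul_right]
  refine h1.norm_le_of_bounded ((summable_norm y).mul_right C).hasSum ?_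
  intro i
  rw [norm_smul]
  exact mul_le_mul_of_nonneg_left (h i) (norm_nonneg _)

lemma mem_of_closed (p : Submodule 𝕜 (Ell 𝕜 ι)) (hc : IsClosed (p : Set (Ell 𝕜 ι)))
    (h : ∀ i, bas 𝕜 i ∈ p) (x : Ell 𝕜 ι) : x ∈ p := by
  have h1 := hasSum_bas x
  refine hc.mem_of_tendsto h1 (Filter.Eventually.of_forall fun s => ?_)
  exact p.sum_mem fun i _ => p.smul_mem _ (h i)

lemma dense_of_bas (p : Submodule 𝕜 (Ell 𝕜 ι))
    (h : ∀ i, bas 𝕜 i ∈ closure (p : Set (Ell 𝕜 ι))) : Dense (p : Set (Ell 𝕜 ι)) := by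
  intro x
  have := mem_of_closed p.topologicalClosure p.isClosed_topologicalClosure
    (fun i => by
      have := h i
      rwa [← Submodule.topologicalClosure_coe] at this) x
  rwa [← SetLike.mem_coe, Submodule.topologicalClosure_coe] at this

lemma separable [Countable ι] : SeparableSpace (Ell 𝕜 ι) := by
  rw [← isSeparable_univ_iff]
  have h1 : IsSeparable (Submodule.span 𝕜 (Set.range (bas 𝕜 : ι → Ell 𝕜 ι)) : Set (Ell 𝕜 ι)) :=
    (Set.countable_range _).isSeparable.span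
  have h2 : Dense (Submodule.span 𝕜 (Set.range (bas 𝕜 : ι → Ell 𝕜 ι)) : Set (Ell 𝕜 ι)) :=
    dense_of_bas _ (fun i => subset_closure (Submodule.subset_span ⟨i, rfl⟩))
  rw [← h2.closure_eq]
  exact h1.closure

end Pool.Agent.V11112.L1
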