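import Mathlib

namespace Pool.Agent.V11112.ShiftPoly

open Finset Polynomial fwdDiff

/-- the polynomial vanishing at 0..k-1 and n..n+k-1 -/
noncomputable def P (k n : ℕ) : ℝ[X] :=
  (∏ q ∈ range k, (X - C (q : ℝ))) * ∏ q ∈ range k, (C ((n : ℝ) + q) - X)

lemma eval_P (k n : ℕ) (x : ℝ) : (P k n).eval x
    = (∏ q ∈ range k, (x - q)) * ∏ q ∈ range k, ((n : ℝ) + q - x) := by
  simp [P, eval_mul, eval_prod]

lemma natDegree_P (k n : ℕ) : (P k n).natDegree ≤ 2 * k := by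
  unfold P
  refine natDegree_mul_le.trans ?_
  have h1 : (∏ q ∈ range k, (X - C (q : ℝ))).natDegree ≤ k := by
    refine (natDegree_prod_le _ _).trans ?_
    refine (sum_le_card_nsmul _ _ 1 ?_).trans (by simp)
    intro q _
    exact (natDegree_X_sub_C _).le
  have h2 : (∏ q ∈ range k, (C ((n : ℝ) + q) - X)).natDegree ≤ k := by
    refine (natDegree_prod_le _ _).trans ?_
    refine (sum_le_card_nsmul _ _ 1 ?_).trans (by simp)
    intro q _
    refine (natDegree_sub_le _ _).trans ?_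
    rw [natDegree_C, natDegree_X]
    simp
  omega

lemma abs_iter_le (f : ℝ → ℝ) (M : ℝ) (r : ℕ) : ∀ y : ℝ, (∀ j : ℕ, j ≤ r → |f (y + j)| ≤ M) →
    |((fwdDiff (1 : ℝ))^[r] f) y| ≤ 2 ^ r * M := by
  induction r with
  | zero =>
    intro y h
    simpa using h 0 le_rfl
  | succ r ih =>
    intro y h
    rw [Function.iterate_succ_apply']
    simp only [fwdDiff]
    have h1 := ih (y + 1) (fun j hj => by
      have := h (j + 1) (by omega)
      push_cast at this
      rwa [show y + 1 + (j : ℝ) = y + (j + 1) by ring])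
    have h2 := ih y (fun j hj => h j (by omega))
    calc _ ≤ |(fwdDiff (1 : ℝ))^[r] f (y + 1)| + |(fwdDiff (1 : ℝ))^[r] f y| := abs_sub _ _
      _ ≤ 2 ^ r * M + 2 ^ r * M := add_le_add h1 h2
      _ = _ := by ring

lemma prod_le_pow' (k : ℕ) (f : ℕ → ℝ) (c : ℝ) (hf : ∀ q ∈ range k, 0 ≤ f q)
    (h : ∀ q ∈ range k, f q ≤ c) : ∏ q ∈ range k, f q ≤ c ^ k := by
  calc ∏ q ∈ range k, f q ≤ ∏ q ∈ range k, c := prod_le_prod hf h
    _ = c ^ k := by rw [prod_const, card_range]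

lemma abs_P_le (k n : ℕ) (hn : 1 ≤ n) (i : ℕ) (hi : i ≤ n) :
    |(P k n).eval (i : ℝ)| ≤ (((k : ℝ) + 1) * n) ^ (2 * k) := by
  rw [eval_P, abs_mul, abs_prod, abs_prod, two_mul, pow_add]
  have hn' : (1 : ℝ) ≤ n := by exact_mod_cast hn
  have hi' : (i : ℝ) ≤ n := by exact_mod_cast hi
  have hi0 : (0 : ℝ) ≤ i := by positivity
  have hk0 : (0 : ℝ) ≤ k := by positivity
  have hkn : (k : ℝ) ≤ k * n := by nlinarith
  refine mul_le_mul ?_ ?_ (prod_nonneg fun _ _ => abs_nonneg _) (by positivity)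
  · refine prod_le_pow' k _ (((k : ℝ) + 1) * n) (fun _ _ => abs_nonneg _) ?_
    intro q hq
    have hq' : (q : ℝ) ≤ k := by exact_mod_cast (mem_range.1 hq).le
    have hq0 : (0 : ℝ) ≤ q := by positivity
    rw [abs_le]
    constructor <;> nlinarith
  · refine prod_le_pow' k _ (((k : ℝ) + 1) * n) (fun _ _ => abs_nonneg _) ?_
    intro q hq
    have hq' : (q : ℝ) ≤ k := by exact_mod_cast (mem_range.1 hq).le
    have hq0 : (0 : ℝ) ≤ q := by positivity
    rw [abs_le]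
    constructor <;> nlinarith

lemma abs_P_small (k n : ℕ) (hn : 1 ≤ n) (j : ℕ) (hj : j ≤ 3 * k) :
    |(P k n).eval (j : ℝ)| ≤ (3 * (k : ℝ) + 1) ^ (2 * k) * n ^ k := by
  rw [eval_P, abs_mul, abs_prod, abs_prod, two_mul, pow_add, mul_assoc, ← mul_pow]
  have hn' : (1 : ℝ) ≤ n := by exact_mod_cast hn
  have hj' : (j : ℝ) ≤ 3 * k := by exact_mod_cast hj
  have hj0 : (0 : ℝ) ≤ j := by positivity
  have hk0 : (0 : ℝ) ≤ k := by positivity
  have hkn : (k : ℝ) ≤ k * n := by nlinarith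
  refine mul_le_mul ?_ ?_ (prod_nonneg fun _ _ => abs_nonneg _) (by positivity)
  · refine prod_le_pow' k _ (3 * (k : ℝ) + 1) (fun _ _ => abs_nonneg _) ?_
    intro q hq
    have hq' : (q : ℝ) ≤ k := by exact_mod_cast (mem_range.1 hq).le
    have hq0 : (0 : ℝ) ≤ q := by positivity
    rw [abs_le]
    constructor <;> nlinarith
  · refine prod_le_pow' k _ ((3 * (k : ℝ) + 1) * n) (fun _ _ => abs_nonneg _) ?_
    intro q hq
    have hq' : (q : ℝ) ≤ k := by exact_mod_cast (mem_range.1 hq).le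
    have hq0 : (0 : ℝ) ≤ q := by positivity
    rw [abs_le]
    constructor <;> nlinarith

lemma abs_P_large (k n : ℕ) (hn : 1 ≤ n) (j : ℕ) (hj : j ≤ 3 * k) :
    |(P k n).eval ((n : ℝ) + (j : ℝ))| ≤ (3 * (k : ℝ) + 1) ^ (2 * k) * n ^ k := by
  rw [eval_P, abs_mul, abs_prod, abs_prod, two_mul, pow_add, mul_assoc, ← mul_pow, mul_comm]
  have hn' : (1 : ℝ) ≤ n := by exact_mod_cast hn
  have hj' : (j : ℝ) ≤ 3 * k := by exact_mod_cast hj
  have hj0 : (0 : ℝ) ≤ j := by positivity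
  have hk0 : (0 : ℝ) ≤ k := by positivity
  have hkn : (k : ℝ) ≤ k * n := by nlinarith
  refine mul_le_mul ?_ ?_ (prod_nonneg fun _ _ => abs_nonneg _) (by positivity)
  · refine prod_le_pow' k _ (3 * (k : ℝ) + 1) (fun _ _ => abs_nonneg _) ?_
    intro q hq
    have hq' : (q : ℝ) ≤ k := by exact_mod_cast (mem_range.1 hq).le
    have hq0 : (0 : ℝ) ≤ q := by positivity
    rw [abs_le]
    constructor <;> nlinarith
  · refine prod_le_pow' k _ ((3 * (k : ℝ) + 1) * n) (fun _ _ => abs_nonneg _) ?_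
    intro q hq
    have hq' : (q : ℝ) ≤ k := by exact_mod_cast (mem_range.1 hq).le
    have hq0 : (0 : ℝ) ≤ q := by positivity
    rw [abs_le]
    constructor <;> nlinarith

lemma P_nonneg (k n i : ℕ) (hi : i < n) : 0 ≤ (P k n).eval (i : ℝ) := by
  rw [eval_P]
  refine mul_nonneg ?_ ?_
  · by_cases hik : i < k
    · rw [prod_eq_zero (mem_range.2 hik) (by simp)]
    · refine prod_nonneg fun q hq => ?_
      have h1 : q < k := mem_range.1 hq
      have : (q : ℝ) ≤ i := by exact_mod_cast (by omega : q ≤ i)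
      linarith
  · refine prod_nonneg fun q hq => ?_
    have : (i : ℝ) ≤ n := by exact_mod_cast hi.le
    have : (0 : ℝ) ≤ q := by positivity
    linarith

lemma S_lower (k n : ℕ) (hn : 8 * k + 8 ≤ n) :
    ((n : ℝ) / 16) ^ (2 * k + 1) ≤ ∑ i ∈ range n, (P k n).eval (i : ℝ) := by
  set m := n / 4 with hm
  have hm1 : n ≤ 8 * m := by omega
  have hm2 : 2 * k ≤ m := by omega
  have hm3 : 4 * m ≤ n := by omega
  have hm1' : (n : ℝ) ≤ 8 * m := by exact_mod_cast hm1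
  have hm2' : 2 * (k : ℝ) ≤ m := by exact_mod_cast hm2
  have hm3' : 4 * (m : ℝ) ≤ n := by exact_mod_cast hm3
  have hm0 : (0 : ℝ) ≤ m := by positivity
  have hsub : Finset.Ico m (2 * m) ⊆ range n := by
    intro i hi
    rw [Finset.mem_Ico] at hi
    rw [mem_range]
    have : 0 < m := by omega
    omega
  have h1 : ∑ i ∈ Finset.Ico m (2 * m), ((m : ℝ) / 2) ^ (2 * k) ≤
      ∑ i ∈ Finset.Ico m (2 * m), (P k n).eval (i : ℝ) := by
    refine sum_le_sum fun i hi => ?_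
    rw [Finset.mem_Ico] at hi
    have hi1 : (m : ℝ) ≤ i := by exact_mod_cast hi.1
    have hi2 : (i : ℝ) ≤ 2 * m := by exact_mod_cast hi.2.le
    rw [eval_P, two_mul, pow_add]
    refine mul_le_mul ?_ ?_ (by positivity) ?_
    · calc ((m : ℝ) / 2) ^ k = ∏ q ∈ range k, ((m : ℝ) / 2) := by rw [prod_const, card_range]
        _ ≤ _ := by
          refine prod_le_prod (fun _ _ => by positivity) ?_
          intro q hq
          have hq' : (q : ℝ) ≤ k := by exact_mod_cast (mem_range.1 hq).le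
          linarith
    · calc ((m : ℝ) / 2) ^ k = ∏ q ∈ range k, ((m : ℝ) / 2) := by rw [prod_const, card_range]
        _ ≤ _ := by
          refine prod_le_prod (fun _ _ => by positivity) ?_
          intro q hq
          have hq0 : (0 : ℝ) ≤ q := by positivity
          linarith
    · refine prod_nonneg fun q hq => ?_
      have hq' : (q : ℝ) ≤ k := by exact_mod_cast (mem_range.1 hq).le
      linarith
  have h2 : ∑ i ∈ Finset.Ico m (2 * m), (P k n).eval (i : ℝ) ≤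
      ∑ i ∈ range n, (P k n).eval (i : ℝ) :=
    sum_le_sum_of_subset_of_nonneg hsub
      (fun i hi _ => P_nonneg k n i (mem_range.1 hi))
  refine le_trans ?_ (h1.trans h2)
  rw [sum_const, Nat.card_Ico, nsmul_eq_mul]
  have h3 : ((2 * m - m : ℕ) : ℝ) = m := by
    rw [show 2 * m - m = m by omega]
  rw [h3, pow_succ]
  have h4 : (n : ℝ) / 16 ≤ m / 2 := by linarith
  have h5 : ((n : ℝ) / 16) ^ (2 * k) ≤ ((m : ℝ) / 2) ^ (2 * k) :=
    pow_le_pow_left₀ (by positivity) h4 _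
  calc ((n : ℝ) / 16) ^ (2 * k) * (n / 16) ≤ ((m : ℝ) / 2) ^ (2 * k) * (m / 2) :=
        mul_le_mul h5 h4 (by positivity) (by positivity)
    _ ≤ m * ((m : ℝ) / 2) ^ (2 * k) := by
        have : 0 ≤ ((m : ℝ) / 2) ^ (2 * k) := by positivity
        nlinarith

/-- Lemma A. -/
theorem exists_profile (k : ℕ) (hk : 1 ≤ k) : ∃ K : ℕ, 1 ≤ K ∧ ∀ n : ℕ, K ≤ n →
    ∃ D : ℕ → ℕ → ℝ, (∀ r i, D r (i + 1) = D r i + D (r + 1) i) ∧
      (∀ r, 3 * k ≤ r → ∀ i, D r i = 0) ∧ (∑ i ∈ range n, D 0 i = 1) ∧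
      (∀ i ≤ n, |D 0 i| ≤ K / n) ∧ (∀ r, |D r 0| ≤ K / n ^ (k + 1)) ∧
      (∀ r, |D r n| ≤ K / n ^ (k + 1)) := by
  set K : ℕ := (k + 1) ^ (2 * k) * 16 ^ (2 * k + 1) +
    2 ^ (3 * k) * (3 * k + 1) ^ (2 * k) * 16 ^ (2 * k + 1) + (8 * k + 8) with hK
  refine ⟨K, by omega, ?_⟩
  intro n hn
  have hn8 : 8 * k + 8 ≤ n := le_trans (by omega) hn
  have hn1 : 1 ≤ n := by omega
  have hnpos : (0 : ℝ) < n := by exact_mod_cast hn1
  set S : ℝ := ∑ i ∈ range n, (P k n).eval (i : ℝ) with hS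
  have hSl : ((n : ℝ) / 16) ^ (2 * k + 1) ≤ S := S_lower k n hn8
  have hS0 : 0 < S := lt_of_lt_of_le (by positivity) hSl
  have hKr : (K : ℝ) = ((k : ℝ) + 1) ^ (2 * k) * 16 ^ (2 * k + 1) +
    2 ^ (3 * k) * (3 * (k : ℝ) + 1) ^ (2 * k) * 16 ^ (2 * k + 1) + (8 * k + 8) := by
    rw [hK]; push_cast; ring
  have hzero : ∀ r, 3 * k ≤ r → ∀ y : ℝ, ((fwdDiff (1 : ℝ))^[r] (P k n).eval) y = 0 := by
    intro r hr y
    have h1 : (P k n).natDegree < r := lt_of_le_of_lt (natDegree_P k n) (by omega)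
    rw [Polynomial.fwdDiff_iter_eq_zero_of_degree_lt h1]
    rfl
  have hbd : ∀ (M y : ℝ), 0 ≤ M → (∀ j : ℕ, j ≤ 3 * k → |(P k n).eval (y + j)| ≤ M) → ∀ r,
      |((fwdDiff (1 : ℝ))^[r] (P k n).eval) y| ≤ 2 ^ (3 * k) * M := by
    intro M y hM0 hM r
    by_cases hr : 3 * k ≤ r
    · rw [hzero r hr]; simp only [abs_zero]; positivity
    · push Not at hr
      refine (abs_iter_le _ M r y (fun j hj => hM j (by omega))).trans ?_
      refine mul_le_mul_of_nonneg_right ?_ hM0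
      exact pow_le_pow_right₀ (by norm_num) hr.le
  have hend : ∀ y : ℝ, (∀ j : ℕ, j ≤ 3 * k → |(P k n).eval (y + j)| ≤
      (3 * (k : ℝ) + 1) ^ (2 * k) * n ^ k) → ∀ r,
      |((fwdDiff (1 : ℝ))^[r] (P k n).eval) y / S| ≤ K / n ^ (k + 1) := by
    intro y hy r
    have h1 := hbd _ y (by positivity) hy r
    rw [abs_div, abs_of_pos hS0, div_le_div_iff₀ hS0 (by positivity)]
    have h2 : (K : ℝ) * S ≥ (2 ^ (3 * k) * (3 * (k : ℝ) + 1) ^ (2 * k) * 16 ^ (2 * k + 1)) *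
        ((n : ℝ) / 16) ^ (2 * k + 1) := by
      refine mul_le_mul ?_ hSl (by positivity) (by positivity)
      rw [hKr]
      have : 0 ≤ ((k : ℝ) + 1) ^ (2 * k) * 16 ^ (2 * k + 1) := by positivity
      have : (0 : ℝ) ≤ 8 * k + 8 := by positivity
      linarith
    have h3 : (2 ^ (3 * k) * (3 * (k : ℝ) + 1) ^ (2 * k) * 16 ^ (2 * k + 1)) *
        ((n : ℝ) / 16) ^ (2 * k + 1) = 2 ^ (3 * k) * ((3 * (k : ℝ) + 1) ^ (2 * k) * n ^ k) *
          n ^ (k + 1) := by
      rw [div_pow]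
      have : (16 : ℝ) ^ (2 * k + 1) ≠ 0 := by positivity
      field_simp
      ring
    calc _ ≤ (2 ^ (3 * k) * ((3 * (k : ℝ) + 1) ^ (2 * k) * n ^ k)) * n ^ (k + 1) :=
          mul_le_mul_of_nonneg_right h1 (by positivity)
      _ ≤ _ := by rw [← h3]; exact h2
  refine ⟨fun r i => ((fwdDiff (1 : ℝ))^[r] (P k n).eval) (i : ℝ) / S, ?_, ?_, ?_, ?_, ?_, ?_⟩
  · intro r i
    simp only
    rw [Function.iterate_succ_apply' _ r]
    simp only [fwdDiff]
    push_cast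
    rw [← add_div]
    congr 1
    ring
  · intro r hr i
    simp only
    rw [hzero r hr, zero_div]
  · simp only [Function.iterate_zero, id]
    rw [← sum_div]
    exact div_self hS0.ne'
  · intro i hi
    simp only [Function.iterate_zero, id]
    rw [abs_div, abs_of_pos hS0, div_le_div_iff₀ hS0 hnpos]
    have h1 := abs_P_le k n hn1 i hi
    have h2 : (K : ℝ) * S ≥ (((k : ℝ) + 1) ^ (2 * k) * 16 ^ (2 * k + 1)) *
        ((n : ℝ) / 16) ^ (2 * k + 1) := by
      refine mul_le_mul ?_ hSl (by positivity) (by positivity)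
      rw [hKr]
      have : 0 ≤ 2 ^ (3 * k) * (3 * (k : ℝ) + 1) ^ (2 * k) * 16 ^ (2 * k + 1) := by positivity
      have : (0 : ℝ) ≤ 8 * k + 8 := by positivity
      linarith
    have h3 : (((k : ℝ) + 1) ^ (2 * k) * 16 ^ (2 * k + 1)) *
        ((n : ℝ) / 16) ^ (2 * k + 1) = (((k : ℝ) + 1) * n) ^ (2 * k) * n := by
      rw [div_pow, mul_pow]
      have : (16 : ℝ) ^ (2 * k + 1) ≠ 0 := by positivity
      field_simp
      ring
    calc _ ≤ (((k : ℝ) + 1) * n) ^ (2 * k) * n :=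
          mul_le_mul_of_nonneg_right h1 (by positivity)
      _ ≤ _ := by rw [← h3]; exact h2
  · intro r
    have := hend 0 (fun j hj => by rw [zero_add]; exact abs_P_small k n hn1 j hj) r
    simpa using this
  · intro r
    exact hend n (fun j hj => abs_P_large k n hn1 j hj) r

end Pool.Agent.V11112.ShiftPoly
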