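import Mathlib
import Pool.Agent.V11112.ShiftPoly
import Pool.Agent.V11112.L1

namespace Pool.Agent.V11112.TreeOp

open Pool.Agent.V11112 L1 Finset

/-- the index set: chain `k` has the elements `(k,0), …, (k,3k)` -/
abbrev J := {p : ℕ × ℕ // p.2 ≤ 3 * p.1}

/-- the father of chain `k` -/
def tt (k : ℕ) : ℕ := (Nat.unpair k).1

lemma tt_lt {k : ℕ} (hk : 1 ≤ k) : tt k < k := Nat.unpair_lt hk

/-- the profile constants -/
noncomputable def KK (k : ℕ) : ℕ :=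
  if h : 1 ≤ k then (ShiftPoly.exists_profile k h).choose else 1

lemma one_le_KK (k : ℕ) : 1 ≤ KK k := by
  unfold KK
  split_ifs with h
  · exact (ShiftPoly.exists_profile k h).choose_spec.1
  · exact le_rfl

/-- threshold -/
noncomputable def NN (k : ℕ) : ℕ := (k + 1) * KK k

lemma KK_le_NN (k : ℕ) : KK k ≤ NN k := Nat.le_mul_of_pos_left _ (Nat.succ_pos k)

/-- the weights -/
noncomputable def bb (k : ℕ) : ℝ := 1 / (1 + KK k + (NN k : ℝ) ^ k)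

lemma bb_pos (k : ℕ) : 0 < bb k := by unfold bb; positivity

lemma bb_le_one (k : ℕ) : bb k ≤ 1 := by
  unfold bb
  rw [div_le_one (by positivity)]
  have : (0 : ℝ) ≤ KK k := by positivity
  have : (0 : ℝ) ≤ (NN k : ℝ) ^ k := by positivity
  linarith

lemma bb_mul_le (k : ℕ) : bb k * (1 + KK k) ≤ 1 := by
  unfold bb
  rw [div_mul_eq_mul_div, one_mul, div_le_one (by positivity)]
  have : (0 : ℝ) ≤ (NN k : ℝ) ^ k := by positivity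
  linarith

lemma bb_mul_pow_le (k : ℕ) : bb k * (NN k : ℝ) ^ k ≤ 1 := by
  unfold bb
  rw [div_mul_eq_mul_div, one_mul, div_le_one (by positivity)]
  have : (0 : ℝ) ≤ KK k := by positivity
  linarith

/-- the small parameters -/
noncomputable def dd (k : ℕ) : ℝ := 1 / ((k : ℝ) + 1)

lemma dd_pos (k : ℕ) : 0 < dd k := by unfold dd; positivity

lemma dd_le_one (k : ℕ) : dd k ≤ 1 := by
  unfold dd
  rw [div_le_one (by positivity)]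
  have : (0 : ℝ) ≤ k := by positivity
  linarith

variable (𝕜 : Type*) [RCLike 𝕜]

/-- the vector `(k,r)` (zero past the end of the chain) -/
noncomputable def ee (k r : ℕ) : Ell 𝕜 J := if h : r ≤ 3 * k then bas 𝕜 (⟨(k, r), h⟩ : J) else 0

lemma norm_ee_le (k r : ℕ) : ‖ee 𝕜 k r‖ ≤ 1 := by
  unfold ee
  split_ifs with h
  · rw [norm_bas]
  · simp

lemma ee_of_lt {k r : ℕ} (h : 3 * k < r) : ee 𝕜 k r = 0 := by
  unfold ee
  rw [dif_neg (by omega)]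

lemma ee_coe (i : J) : ee 𝕜 i.1.1 i.1.2 = bas 𝕜 i := by
  unfold ee
  rw [dif_pos i.2]

/-- images of the basis vectors -/
noncomputable def vv (i : J) : Ell 𝕜 J :=
  if i.1.2 = 0 then
    if i.1.1 = 0 then 0
    else (bb i.1.1 : 𝕜) • ee 𝕜 (tt i.1.1) 0 + ((bb i.1.1 * dd i.1.1 : ℝ) : 𝕜) • ee 𝕜 i.1.1 1
  else ee 𝕜 i.1.1 (i.1.2 + 1)

lemma norm_vv (i : J) : ‖vv 𝕜 i‖ ≤ 2 := by
  unfold vv
  split_ifs with h1 h2
  · simp
  · refine (norm_add_le _ _).trans ?_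
    rw [norm_smul, norm_smul, RCLike.norm_ofReal, RCLike.norm_ofReal, abs_of_pos (bb_pos _),
      abs_of_pos (mul_pos (bb_pos _) (dd_pos _))]
    have a1 := bb_le_one i.1.1
    have a2 := bb_pos i.1.1
    have a3 := dd_le_one i.1.1
    have a4 := dd_pos i.1.1
    have a5 := norm_ee_le 𝕜 (tt i.1.1) 0
    have a6 := norm_ee_le 𝕜 i.1.1 1
    have a7 := norm_nonneg (ee 𝕜 (tt i.1.1) 0)
    have a8 := norm_nonneg (ee 𝕜 i.1.1 1)
    have b1 : bb i.1.1 * ‖ee 𝕜 (tt i.1.1) 0‖ ≤ 1 := by nlinarith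
    have b3 : bb i.1.1 * dd i.1.1 ≤ 1 := by nlinarith
    have b2 : bb i.1.1 * dd i.1.1 * ‖ee 𝕜 i.1.1 1‖ ≤ 1 := by
      have : 0 < bb i.1.1 * dd i.1.1 := mul_pos a2 a4
      nlinarith
    linarith
  · exact (norm_ee_le 𝕜 _ _).trans (by norm_num)

/-- the operator -/
noncomputable def TT : Ell 𝕜 J →L[𝕜] Ell 𝕜 J := ofBasis (vv 𝕜) 2 (norm_vv 𝕜)

lemma TT_ee_zero : TT 𝕜 (ee 𝕜 0 0) = 0 := by
  have h : ee 𝕜 0 0 = bas 𝕜 (⟨(0, 0), le_rfl⟩ : J) := (ee_coe 𝕜 ⟨(0, 0), le_rfl⟩)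
  rw [h, TT, ofBasis_bas]
  simp [vv]

lemma TT_ee_top (k : ℕ) (hk : 1 ≤ k) : TT 𝕜 (ee 𝕜 k 0) =
    (bb k : 𝕜) • ee 𝕜 (tt k) 0 + ((bb k * dd k : ℝ) : 𝕜) • ee 𝕜 k 1 := by
  have h : ee 𝕜 k 0 = bas 𝕜 (⟨(k, 0), Nat.zero_le _⟩ : J) := (ee_coe 𝕜 ⟨(k, 0), Nat.zero_le _⟩)
  rw [h, TT, ofBasis_bas]
  simp only [vv]
  rw [if_pos trivial, if_neg (by omega)]

lemma TT_ee_succ (k r : ℕ) : TT 𝕜 (ee 𝕜 k (r + 1)) = ee 𝕜 k (r + 2) := by
  by_cases hr : r + 1 ≤ 3 * k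
  · have h : ee 𝕜 k (r + 1) = bas 𝕜 (⟨(k, r + 1), hr⟩ : J) := (ee_coe 𝕜 ⟨(k, r + 1), hr⟩)
    rw [h, TT, ofBasis_bas]
    simp only [vv]
    rw [if_neg (by omega)]
  · push Not at hr
    rw [ee_of_lt 𝕜 hr, map_zero, ee_of_lt 𝕜 (by omega)]

/-- generalized kernel -/
def genKer : Submodule 𝕜 (Ell 𝕜 J) where
  carrier := {x | ∃ n : ℕ, 1 ≤ n ∧ (TT 𝕜 ^ n) x = 0}
  add_mem' := by
    rintro x y ⟨n, hn, hx⟩ ⟨m, hm, hy⟩
    refine ⟨n + m, by omega, ?_⟩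
    rw [map_add]
    have h1 : (TT 𝕜 ^ (n + m)) x = 0 := by
      rw [add_comm, pow_add, ContinuousLinearMap.mul_apply, hx, map_zero]
    have h2 : (TT 𝕜 ^ (n + m)) y = 0 := by
      rw [pow_add, ContinuousLinearMap.mul_apply, hy, map_zero]
    rw [h1, h2, add_zero]
  zero_mem' := ⟨1, le_rfl, map_zero _⟩
  smul_mem' := by
    rintro c x ⟨n, hn, hx⟩
    refine ⟨n, hn, ?_⟩
    rw [map_smul, hx, smul_zero]

lemma mem_genKer_of {x : Ell 𝕜 J} (h : TT 𝕜 x ∈ genKer 𝕜) : x ∈ genKer 𝕜 := by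
  obtain ⟨n, hn, hx⟩ := h
  refine ⟨n + 1, by omega, ?_⟩
  rw [pow_succ, ContinuousLinearMap.mul_apply, hx]

lemma ee_succ_mem (k : ℕ) : ∀ m r : ℕ, 3 * k < r + 1 + m → ee 𝕜 k (r + 1) ∈ genKer 𝕜 := by
  intro m
  induction m with
  | zero =>
    intro r hr
    rw [ee_of_lt 𝕜 (by omega)]
    exact (genKer 𝕜).zero_mem
  | succ m ih =>
    intro r hr
    apply mem_genKer_of
    rw [TT_ee_succ]
    exact ih (r + 1) (by omega)

lemma ee_zero_mem (k : ℕ) : ee 𝕜 k 0 ∈ genKer 𝕜 := by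
  induction k using Nat.strong_induction_on with
  | _ k ih =>
    apply mem_genKer_of
    rcases Nat.eq_zero_or_pos k with rfl | hk
    · rw [TT_ee_zero]; exact (genKer 𝕜).zero_mem
    · rw [TT_ee_top 𝕜 k hk]
      refine (genKer 𝕜).add_mem ((genKer 𝕜).smul_mem _ (ih _ (tt_lt hk)))
        ((genKer 𝕜).smul_mem _ (ee_succ_mem 𝕜 k (3 * k) 0 (by omega)))

lemma dense_genKer : Dense {x : Ell 𝕜 J | ∃ n : ℕ, 1 ≤ n ∧ (TT 𝕜 ^ n) x = 0} := by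
  refine dense_of_bas (genKer 𝕜) ?_
  rintro ⟨⟨k, r⟩, h⟩
  refine subset_closure ?_
  rw [← ee_coe 𝕜 (⟨(k, r), h⟩ : J)]
  rcases r with _ | r
  · exact ee_zero_mem 𝕜 k
  · exact ee_succ_mem 𝕜 k (3 * k) r (by omega)

lemma top_mem_closure (j : ℕ) : ee 𝕜 j 0 ∈ closure (Set.range (TT 𝕜)) := by
  rw [Metric.mem_closure_iff]
  intro ε hε
  obtain ⟨q, hq⟩ := exists_nat_one_div_lt hε
  set k := Nat.pair j (q + 1) with hk
  have hkq : q + 1 ≤ k := Nat.right_le_pair _ _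
  have htk : tt k = j := by simp [tt, hk]
  refine ⟨_, ⟨((bb k : ℝ) : 𝕜)⁻¹ • ee 𝕜 k 0, rfl⟩, ?_⟩
  rw [map_smul, TT_ee_top 𝕜 k (by omega), htk, dist_eq_norm, smul_add, smul_smul, smul_smul]
  have hb : ((bb k : ℝ) : 𝕜) ≠ 0 := by
    rw [Ne, RCLike.ofReal_eq_zero]; exact (bb_pos k).ne'
  rw [inv_mul_cancel₀ hb, one_smul, sub_add_cancel_left, norm_neg, norm_smul]
  have : ((bb k : ℝ) : 𝕜)⁻¹ * ((bb k * dd k : ℝ) : 𝕜) = ((dd k : ℝ) : 𝕜) := by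
    rw [RCLike.ofReal_mul, ← mul_assoc, inv_mul_cancel₀ hb, one_mul]
  rw [this, RCLike.norm_ofReal, abs_of_pos (dd_pos k)]
  have h1 : dd k ≤ 1 / ((q : ℝ) + 1) := by
    unfold dd
    have : (q : ℝ) + 1 ≤ k := by exact_mod_cast hkq
    exact one_div_le_one_div_of_le (by positivity) (by linarith)
  have h2 := norm_ee_le 𝕜 k 1
  have h3 := dd_pos k
  have h4 : 0 ≤ ‖ee 𝕜 k 1‖ := norm_nonneg _
  calc dd k * ‖ee 𝕜 k 1‖ ≤ dd k * 1 := mul_le_mul_of_nonneg_left h2 h3.le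
    _ < ε := by rw [mul_one]; exact lt_of_le_of_lt h1 hq

lemma dense_range : Dense (Set.range (TT 𝕜)) := by
  have hcoe : ((LinearMap.range (TT 𝕜 : Ell 𝕜 J →ₗ[𝕜] Ell 𝕜 J) : Submodule 𝕜 (Ell 𝕜 J)) :
      Set (Ell 𝕜 J)) = Set.range (TT 𝕜) := by
    ext x; simp
  rw [← hcoe]
  refine dense_of_bas _ ?_
  rintro ⟨⟨k, r⟩, h⟩
  rw [← ee_coe 𝕜 (⟨(k, r), h⟩ : J)]
  rcases r with _ | _ | r
  · rw [hcoe]; exact top_mem_closure 𝕜 k
  · simp only at h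
    have hk : 1 ≤ k := by omega
    set p := LinearMap.range (TT 𝕜 : Ell 𝕜 J →ₗ[𝕜] Ell 𝕜 J)
    have h1 : ee 𝕜 (tt k) 0 ∈ p.topologicalClosure := by
      rw [← SetLike.mem_coe, Submodule.topologicalClosure_coe, hcoe]
      exact top_mem_closure 𝕜 _
    have h2 : TT 𝕜 (ee 𝕜 k 0) ∈ p.topologicalClosure :=
      p.le_topologicalClosure ⟨_, rfl⟩
    have hb : ((bb k * dd k : ℝ) : 𝕜) ≠ 0 := by
      rw [Ne, RCLike.ofReal_eq_zero]; exact (mul_pos (bb_pos k) (dd_pos k)).ne'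
    have h3 : ee 𝕜 k 1 = ((bb k * dd k : ℝ) : 𝕜)⁻¹ • (TT 𝕜 (ee 𝕜 k 0) -
        (bb k : 𝕜) • ee 𝕜 (tt k) 0) := by
      rw [TT_ee_top 𝕜 k hk, add_sub_cancel_left, smul_smul, inv_mul_cancel₀ hb, one_smul]
    show ee 𝕜 k 1 ∈ _
    rw [← Submodule.topologicalClosure_coe, SetLike.mem_coe, h3]
    exact p.topologicalClosure.smul_mem _ (p.topologicalClosure.sub_mem h2
      (p.topologicalClosure.smul_mem _ h1))
  · refine subset_closure ?_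
    rw [hcoe]
    exact ⟨ee 𝕜 k (r + 1), TT_ee_succ 𝕜 k r⟩

end Pool.Agent.V11112.TreeOp
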