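import Mathlib
import Pool.Agent.V11112.TreeOp

namespace Pool.Agent.V11112.TreeFun

open Pool.Agent.V11112 L1 TreeOp Finset

lemma profile (k : ℕ) (hk : 1 ≤ k) (n : ℕ) (hn : KK k ≤ n) :
    ∃ D : ℕ → ℕ → ℝ, (∀ r i, D r (i + 1) = D r i + D (r + 1) i) ∧
      (∀ r, 3 * k ≤ r → ∀ i, D r i = 0) ∧ (∑ i ∈ range n, D 0 i = 1) ∧
      (∀ i ≤ n, |D 0 i| ≤ KK k / n) ∧ (∀ r, |D r 0| ≤ KK k / n ^ (k + 1)) ∧
      (∀ r, |D r n| ≤ KK k / n ^ (k + 1)) := by
  unfold KK at *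
  rw [dif_pos hk] at *
  exact (ShiftPoly.exists_profile k hk).choose_spec.2 n hn

/-- the profile at time `n` -/
noncomputable def DD (n k : ℕ) : ℕ → ℕ → ℝ :=
  if h : 1 ≤ k ∧ KK k ≤ n then (profile k h.1 n h.2).choose else fun _ _ => 0

lemma DD_spec (n k : ℕ) (hk : 1 ≤ k) (hn : KK k ≤ n) :
    (∀ r i, DD n k r (i + 1) = DD n k r i + DD n k (r + 1) i) ∧
      (∀ r, 3 * k ≤ r → ∀ i, DD n k r i = 0) ∧ (∑ i ∈ range n, DD n k 0 i = 1) ∧
      (∀ i ≤ n, |DD n k 0 i| ≤ KK k / n) ∧ (∀ r, |DD n k r 0| ≤ KK k / n ^ (k + 1)) ∧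
      (∀ r, |DD n k r n| ≤ KK k / n ^ (k + 1)) := by
  unfold DD
  rw [dif_pos ⟨hk, hn⟩]
  exact (profile k hk n hn).choose_spec

lemma DD_rec (n k r i : ℕ) : DD n k r (i + 1) = DD n k r i + DD n k (r + 1) i := by
  by_cases h : 1 ≤ k ∧ KK k ≤ n
  · exact (DD_spec n k h.1 h.2).1 r i
  · unfold DD; rw [dif_neg h]; simp

lemma DD_zero (n k r i : ℕ) (hr : 3 * k ≤ r) : DD n k r i = 0 := by
  by_cases h : 1 ≤ k ∧ KK k ≤ n
  · exact (DD_spec n k h.1 h.2).2.1 r hr i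
  · unfold DD; rw [dif_neg h]

/-- values on the tops of the chains -/
noncomputable def FF (n : ℕ) (k : ℕ) : ℕ → ℝ :=
  if h : 1 ≤ k then
    fun i => bb k * ∑ j ∈ range i, (FF n (tt k) j + dd k *
      (if NN k ≤ n then -((∑ l ∈ range n, FF n (tt k) l) / dd k) * DD n k 0 j else 0))
  else fun _ => 1
termination_by k
decreasing_by all_goals exact tt_lt h

/-- total mass -/
noncomputable def RR (n k : ℕ) : ℝ := ∑ l ∈ range n, FF n (tt k) l

/-- values on the chains -/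
noncomputable def GG (n k r i : ℕ) : ℝ :=
  if NN k ≤ n then -(RR n k / dd k) * DD n k r i else 0

lemma FF_zero (n i : ℕ) : FF n 0 i = 1 := by
  rw [FF, dif_neg (by omega)]

lemma FF_eq (n k i : ℕ) (hk : 1 ≤ k) :
    FF n k i = bb k * ∑ j ∈ range i, (FF n (tt k) j + dd k * GG n k 0 j) := by
  rw [FF, dif_pos hk]
  rfl

lemma GG_rec (n k r i : ℕ) : GG n k r (i + 1) = GG n k r i + GG n k (r + 1) i := by
  unfold GG
  split_ifs with h
  · rw [DD_rec]; ring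
  · simp

lemma GG_zero (n k r i : ℕ) (hr : 3 * k ≤ r) : GG n k r i = 0 := by
  unfold GG
  rw [DD_zero n k r i hr]
  simp

lemma RR_bound (n k : ℕ) (hn : 1 ≤ n) (hk : 1 ≤ k)
    (h : ∀ i ≤ n, |FF n (tt k) i| ≤ (n : ℝ) ^ (tt k)) (m : ℕ) (hm : m ≤ n) :
    ∑ i ∈ range m, |FF n (tt k) i| ≤ (n : ℝ) ^ k := by
  have hn' : (1 : ℝ) ≤ n := by exact_mod_cast hn
  have hm' : (m : ℝ) ≤ n := by exact_mod_cast hm
  calc ∑ i ∈ range m, |FF n (tt k) i| ≤ ∑ i ∈ range m, (n : ℝ) ^ (tt k) :=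
        sum_le_sum fun i hi => h i ((mem_range.1 hi).le.trans hm)
    _ = m * (n : ℝ) ^ (tt k) := by rw [sum_const, card_range, nsmul_eq_mul]
    _ ≤ n * (n : ℝ) ^ (tt k) := mul_le_mul_of_nonneg_right hm' (by positivity)
    _ = (n : ℝ) ^ (tt k + 1) := by ring
    _ ≤ (n : ℝ) ^ k := pow_le_pow_right₀ hn' (tt_lt hk)

lemma FF_bound (n : ℕ) (hn : 1 ≤ n) (k : ℕ) : ∀ i ≤ n, |FF n k i| ≤ (n : ℝ) ^ k := by
  have hn' : (1 : ℝ) ≤ n := by exact_mod_cast hn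
  induction k using Nat.strong_induction_on with
  | _ k ih =>
    intro i hi
    rcases Nat.eq_zero_or_pos k with rfl | hk
    · rw [FF_zero]; simp
    · have hk' : 1 ≤ k := hk
      have ih' := ih (tt k) (tt_lt hk')
      have hR := RR_bound n k hn hk' ih'
      have hRR : |RR n k| ≤ (n : ℝ) ^ k := (abs_sum_le_sum_abs _ _).trans (hR n le_rfl)
      rw [FF_eq n k i hk', abs_mul, abs_of_pos (bb_pos k)]
      have hg : ∀ j ∈ range i, |dd k * GG n k 0 j| ≤ (n : ℝ) ^ k * (KK k / n) := by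
        intro j hj
        have hjn : j ≤ n := (mem_range.1 hj).le.trans hi
        unfold GG
        split_ifs with hN
        · have hKn : KK k ≤ n := (KK_le_NN k).trans hN
          have h1 := (DD_spec n k hk' hKn).2.2.2.1 j hjn
          have h2 : dd k * (-(RR n k / dd k) * DD n k 0 j) = -(RR n k * DD n k 0 j) := by
            have := (dd_pos k).ne'
            field_simp
          rw [h2, abs_neg, abs_mul]
          exact mul_le_mul hRR h1 (abs_nonneg _) (by positivity)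
        · simp only [mul_zero, abs_zero]; positivity
      have h3 : |∑ j ∈ range i, (FF n (tt k) j + dd k * GG n k 0 j)| ≤
          (1 + KK k) * (n : ℝ) ^ k := by
        calc _ ≤ ∑ j ∈ range i, |FF n (tt k) j + dd k * GG n k 0 j| := abs_sum_le_sum_abs _ _
          _ ≤ ∑ j ∈ range i, (|FF n (tt k) j| + |dd k * GG n k 0 j|) :=
              sum_le_sum fun j _ => abs_add_le _ _
          _ = ∑ j ∈ range i, |FF n (tt k) j| + ∑ j ∈ range i, |dd k * GG n k 0 j| :=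
              sum_add_distrib
          _ ≤ (n : ℝ) ^ k + ∑ j ∈ range i, (n : ℝ) ^ k * (KK k / n) :=
              add_le_add (hR i hi) (sum_le_sum hg)
          _ = (n : ℝ) ^ k + i * ((n : ℝ) ^ k * (KK k / n)) := by
              rw [sum_const, card_range, nsmul_eq_mul]
          _ ≤ (n : ℝ) ^ k + n * ((n : ℝ) ^ k * (KK k / n)) := by
              have : (i : ℝ) ≤ n := by exact_mod_cast hi
              have h5 : 0 ≤ (n : ℝ) ^ k * (KK k / n) := by positivity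
              nlinarith
          _ = (1 + KK k) * (n : ℝ) ^ k := by
              have : (n : ℝ) ≠ 0 := by positivity
              field_simp
      calc bb k * |∑ j ∈ range i, (FF n (tt k) j + dd k * GG n k 0 j)|
          ≤ bb k * ((1 + KK k) * (n : ℝ) ^ k) := mul_le_mul_of_nonneg_left h3 (bb_pos k).le
        _ = (bb k * (1 + KK k)) * (n : ℝ) ^ k := by ring
        _ ≤ 1 * (n : ℝ) ^ k := mul_le_mul_of_nonneg_right (bb_mul_le k) (by positivity)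
        _ = (n : ℝ) ^ k := one_mul _

lemma RR_le (n k : ℕ) (hn : 1 ≤ n) (hk : 1 ≤ k) : |RR n k| ≤ (n : ℝ) ^ k :=
  (abs_sum_le_sum_abs _ _).trans (RR_bound n k hn hk (FF_bound n hn (tt k)) n le_rfl)

lemma FF_end (n : ℕ) (hn : 1 ≤ n) (k : ℕ) : |FF n k n| ≤ 1 := by
  rcases Nat.eq_zero_or_pos k with rfl | hk
  · rw [FF_zero]; simp
  · have hk' : 1 ≤ k := hk
    rw [FF_eq n k n hk']
    by_cases hN : NN k ≤ n
    · have hKn : KK k ≤ n := (KK_le_NN k).trans hN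
      have h1 := (DD_spec n k hk' hKn).2.2.1
      have h2 : ∑ j ∈ range n, (FF n (tt k) j + dd k * GG n k 0 j) = 0 := by
        rw [sum_add_distrib]
        have : ∀ j ∈ range n, dd k * GG n k 0 j = -(RR n k * DD n k 0 j) := by
          intro j _
          unfold GG
          rw [if_pos hN]
          have := (dd_pos k).ne'
          field_simp
        rw [sum_congr rfl this, sum_neg_distrib, ← mul_sum, h1, mul_one]
        unfold RR
        ring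
      rw [h2]; simp
    · have h2 : ∑ j ∈ range n, (FF n (tt k) j + dd k * GG n k 0 j) = RR n k := by
        unfold RR
        refine sum_congr rfl fun j _ => ?_
        unfold GG
        rw [if_neg hN]; simp
      rw [h2, abs_mul, abs_of_pos (bb_pos k)]
      push Not at hN
      have hN' : (n : ℝ) ≤ NN k := by exact_mod_cast hN.le
      calc bb k * |RR n k| ≤ bb k * (n : ℝ) ^ k :=
            mul_le_mul_of_nonneg_left (RR_le n k hn hk') (bb_pos k).le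
        _ ≤ bb k * (NN k : ℝ) ^ k :=
            mul_le_mul_of_nonneg_left (pow_le_pow_left₀ (by positivity) hN' _) (bb_pos k).le
        _ ≤ 1 := bb_mul_pow_le k

lemma GG_bound_aux (n k : ℕ) (hn : 1 ≤ n) (x : ℝ)
    (hx : 1 ≤ k → KK k ≤ n → |x| ≤ KK k / n ^ (k + 1)) (hx0 : k = 0 → x = 0) (hN : NN k ≤ n) :
    |-(RR n k / dd k) * x| ≤ 1 := by
  rcases Nat.eq_zero_or_pos k with rfl | hk
  · rw [hx0 rfl]; simp
  · have hk' : 1 ≤ k := hk
    have hKn : KK k ≤ n := (KK_le_NN k).trans hN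
    have hnpos : (0 : ℝ) < n := by exact_mod_cast hn
    rw [abs_mul, abs_neg, abs_div, abs_of_pos (dd_pos k)]
    have h1 : |RR n k| / dd k ≤ (n : ℝ) ^ k * (k + 1) := by
      unfold dd
      rw [div_div_eq_mul_div, div_one]
      exact mul_le_mul_of_nonneg_right (RR_le n k hn hk') (by positivity)
    have hN' : ((k : ℝ) + 1) * KK k ≤ n := by
      have : (((k + 1) * KK k : ℕ) : ℝ) ≤ n := by exact_mod_cast hN
      push_cast at this
      exact this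
    calc |RR n k| / dd k * |x| ≤ ((n : ℝ) ^ k * (k + 1)) * (KK k / n ^ (k + 1)) :=
          mul_le_mul h1 (hx hk' hKn) (abs_nonneg _) (by positivity)
      _ = ((k : ℝ) + 1) * KK k / n := by
          field_simp
          ring
      _ ≤ 1 := by rw [div_le_one hnpos]; exact hN'

lemma GG_start (n k r : ℕ) (hn : 1 ≤ n) : |GG n k r 0| ≤ 1 := by
  unfold GG
  split_ifs with hN
  · refine GG_bound_aux n k hn _ (fun hk hK => (DD_spec n k hk hK).2.2.2.2.1 r) ?_ hN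
    rintro rfl
    exact DD_zero n 0 r 0 (by omega)
  · simp

lemma GG_end (n k r : ℕ) (hn : 1 ≤ n) : |GG n k r n| ≤ 1 := by
  unfold GG
  split_ifs with hN
  · refine GG_bound_aux n k hn _ (fun hk hK => (DD_spec n k hk hK).2.2.2.2.2 r) ?_ hN
    rintro rfl
    exact DD_zero n 0 r n (by omega)
  · simp

variable (𝕜 : Type*) [RCLike 𝕜]

/-- value of the functional on the vector `(k,r)` -/
noncomputable def ww (n k r : ℕ) : ℝ := if r = 0 then FF n k 0 else GG n k (r - 1) 0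

lemma FF_start (n k : ℕ) : |FF n k 0| ≤ 1 := by
  rcases Nat.eq_zero_or_pos k with rfl | hk
  · rw [FF_zero]; simp
  · rw [FF_eq n k 0 hk]; simp

lemma norm_ww (n : ℕ) (hn : 1 ≤ n) (i : J) : ‖((ww n i.1.1 i.1.2 : ℝ) : 𝕜)‖ ≤ 1 := by
  rw [RCLike.norm_ofReal]
  unfold ww
  split_ifs
  · exact FF_start n _
  · exact GG_start n _ _ hn

/-- the functional -/
noncomputable def phi (n : ℕ) (hn : 1 ≤ n) : Ell 𝕜 J →L[𝕜] 𝕜 :=
  ofBasis (fun i : J => ((ww n i.1.1 i.1.2 : ℝ) : 𝕜)) 1 (norm_ww 𝕜 n hn)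

lemma phi_top (n : ℕ) (hn : 1 ≤ n) (k : ℕ) : phi 𝕜 n hn (ee 𝕜 k 0) = ((FF n k 0 : ℝ) : 𝕜) := by
  have h : ee 𝕜 k 0 = bas 𝕜 (⟨(k, 0), Nat.zero_le _⟩ : J) := (ee_coe 𝕜 ⟨(k, 0), Nat.zero_le _⟩)
  rw [h, phi, ofBasis_bas]
  simp [ww]

lemma phi_succ (n : ℕ) (hn : 1 ≤ n) (k r : ℕ) :
    phi 𝕜 n hn (ee 𝕜 k (r + 1)) = ((GG n k r 0 : ℝ) : 𝕜) := by
  by_cases hr : r + 1 ≤ 3 * k
  · have h : ee 𝕜 k (r + 1) = bas 𝕜 (⟨(k, r + 1), hr⟩ : J) := (ee_coe 𝕜 ⟨(k, r + 1), hr⟩)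
    rw [h, phi, ofBasis_bas]
    simp [ww]
  · push Not at hr
    rw [ee_of_lt 𝕜 hr, map_zero, GG_zero n k r 0 (by omega)]
    simp

lemma pow_succ_one_add (i : ℕ) (x : Ell 𝕜 J) :
    ((1 + TT 𝕜) ^ (i + 1)) x = ((1 + TT 𝕜) ^ i) x + ((1 + TT 𝕜) ^ i) (TT 𝕜 x) := by
  rw [pow_succ, ContinuousLinearMap.mul_apply, ContinuousLinearMap.add_apply,
    ContinuousLinearMap.one_apply, map_add]

lemma phi_pow_succ (n : ℕ) (hn : 1 ≤ n) (k : ℕ) (i : ℕ) : ∀ r,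
    phi 𝕜 n hn (((1 + TT 𝕜) ^ i) (ee 𝕜 k (r + 1))) = ((GG n k r i : ℝ) : 𝕜) := by
  induction i with
  | zero =>
    intro r
    rw [pow_zero, ContinuousLinearMap.one_apply, phi_succ]
  | succ i ih =>
    intro r
    rw [pow_succ_one_add, TT_ee_succ, map_add, ih r, ih (r + 1), GG_rec]
    push_cast
    rfl

lemma phi_pow_top (n : ℕ) (hn : 1 ≤ n) (k : ℕ) : ∀ i,
    phi 𝕜 n hn (((1 + TT 𝕜) ^ i) (ee 𝕜 k 0)) = ((FF n k i : ℝ) : 𝕜) := by
  induction k using Nat.strong_induction_on with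
  | _ k ih =>
    intro i
    induction i with
    | zero => rw [pow_zero, ContinuousLinearMap.one_apply, phi_top]
    | succ i ihi =>
      rw [pow_succ_one_add, map_add, ihi]
      rcases Nat.eq_zero_or_pos k with rfl | hk
      · rw [TT_ee_zero, map_zero, map_zero, add_zero, FF_zero, FF_zero]
      · have hk' : 1 ≤ k := hk
        rw [TT_ee_top 𝕜 k hk', map_add, map_add, map_smul, map_smul, map_smul, map_smul,
          ih (tt k) (tt_lt hk') i, phi_pow_succ 𝕜 n hn k i 0, FF_eq n k i hk',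
          FF_eq n k (i + 1) hk', sum_range_succ, smul_eq_mul, smul_eq_mul]
        push_cast
        ring

lemma phi_le (n : ℕ) (hn : 1 ≤ n) (y : Ell 𝕜 J) : ‖phi 𝕜 n hn y‖ ≤ ‖y‖ := by
  rw [← one_mul ‖y‖]
  refine norm_le _ 1 ?_ y
  intro i
  rw [phi, ofBasis_bas]
  exact norm_ww 𝕜 n hn i

lemma phi_pow_le (n : ℕ) (hn : 1 ≤ n) (y : Ell 𝕜 J) :
    ‖phi 𝕜 n hn (((1 + TT 𝕜) ^ n) y)‖ ≤ ‖y‖ := by
  rw [← one_mul ‖y‖]
  have := norm_le (phi 𝕜 n hn ∘L ((1 + TT 𝕜) ^ n)) 1 ?_ y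
  · exact this
  · rintro ⟨⟨k, r⟩, h⟩
    rw [← ee_coe 𝕜 (⟨(k, r), h⟩ : J), ContinuousLinearMap.comp_apply]
    rcases r with _ | r
    · show ‖phi 𝕜 n hn (((1 + TT 𝕜) ^ n) (ee 𝕜 k 0))‖ ≤ 1
      rw [phi_pow_top, RCLike.norm_ofReal]
      exact FF_end n hn k
    · show ‖phi 𝕜 n hn (((1 + TT 𝕜) ^ n) (ee 𝕜 k (r + 1)))‖ ≤ 1
      rw [phi_pow_succ, RCLike.norm_ofReal]
      exact GG_end n k r hn

lemma norm_x0 : ‖ee 𝕜 0 0‖ = 1 := by
  have h : ee 𝕜 0 0 = bas 𝕜 (⟨(0, 0), le_rfl⟩ : J) := (ee_coe 𝕜 ⟨(0, 0), le_rfl⟩)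
  rw [h, norm_bas]

/-- the key estimate -/
theorem key (n : ℕ) (y : Ell 𝕜 J) (hy : ‖y‖ < 1 / 2) :
    1 / 2 ≤ ‖((1 + TT 𝕜) ^ n) y - ee 𝕜 0 0‖ := by
  rcases Nat.eq_zero_or_pos n with rfl | hn
  · rw [pow_zero, ContinuousLinearMap.one_apply]
    have h1 : ‖ee 𝕜 0 0‖ ≤ ‖y‖ + ‖y - ee 𝕜 0 0‖ := by
      have := norm_sub_le y (y - ee 𝕜 0 0)
      rwa [sub_sub_cancel] at this
    rw [norm_x0] at h1
    linarith
  · have hn' : 1 ≤ n := hn
    have h1 := phi_pow_le 𝕜 n hn' y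
    have h2 := phi_le 𝕜 n hn' (((1 + TT 𝕜) ^ n) y - ee 𝕜 0 0)
    have h3 : phi 𝕜 n hn' (ee 𝕜 0 0) = 1 := by rw [phi_top, FF_zero]; simp
    rw [map_sub, h3] at h2
    have h4 : ‖(1 : 𝕜)‖ ≤ ‖phi 𝕜 n hn' (((1 + TT 𝕜) ^ n) y)‖ +
        ‖phi 𝕜 n hn' (((1 + TT 𝕜) ^ n) y) - 1‖ := by
      have := norm_sub_le (phi 𝕜 n hn' (((1 + TT 𝕜) ^ n) y))
        (phi 𝕜 n hn' (((1 + TT 𝕜) ^ n) y) - 1)
      rwa [sub_sub_cancel] at this
    rw [norm_one] at h4
    linarith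

end Pool.Agent.V11112.TreeFun
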