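import Mathlib

/-!
# Closed semigroups of continuous maps of a compact space acting transitively

A closed semigroup of continuous maps of a compact Hausdorff space, all of whose members map a closed
set `Y` onto itself, acts on `Y` like a group. If the members do not increase a lower semicontinuous
pseudodistance for which closures of countable sets are separable, and the action on `Y` is
transitive, then `Y` is totally bounded.
-/

set_option autoImplicit false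

namespace Pool.Agent.V11112.Dyn

open Set Filter Topology

variable {X : Type*} [TopologicalSpace X]

/-- The closure of a semigroup of continuous maps is a semigroup if its members are continuous. -/
theorem comp_mem_closure {G : Set (X → X)} (hG : ∀ σ ∈ G, ∀ τ ∈ G, σ ∘ τ ∈ G)
    (hc : ∀ σ ∈ G, Continuous σ) : ∀ σ ∈ closure G, ∀ τ ∈ closure G, σ ∘ τ ∈ closure G := by
  have h1 : ∀ σ ∈ G, ∀ τ ∈ closure G, σ ∘ τ ∈ closure G := by
    intro σ hσ τ hτ
    have hcont : Continuous fun τ : X → X => σ ∘ τ :=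
      continuous_pi fun x => (hc σ hσ).comp (continuous_apply x)
    exact map_mem_closure hcont hτ fun τ' hτ' => hG σ hσ τ' hτ'
  intro σ hσ τ hτ
  have hcont : Continuous fun σ : X → X => σ ∘ τ :=
    continuous_pi fun x => continuous_apply (τ x)
  have := map_mem_closure (t := closure G) hcont hσ fun σ' hσ' => h1 σ' hσ' τ hτ
  rwa [closure_closure] at this

variable [CompactSpace X] [T2Space X]

/-- A closed semigroup of maps contains, above each of its members, an idempotent. -/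
theorem exists_idem {S : Set (X → X)} (hcl : IsClosed S) (hS : ∀ σ ∈ S, ∀ τ ∈ S, σ ∘ τ ∈ S)
    {τ : X → X} (hτ : τ ∈ S) : ∃ σ ∈ S, (σ ∘ τ) ∘ (σ ∘ τ) = σ ∘ τ := by
  letI : TopologicalSpace (Function.End X) := (inferInstance : TopologicalSpace (X → X))
  haveI : T2Space (Function.End X) := (inferInstance : T2Space (X → X))
  have hright : ∀ r : X → X, Continuous fun σ : X → X => σ ∘ r := fun r =>
    continuous_pi fun x => continuous_apply (r x)
  let s : Set (Function.End X) := (fun σ : X → X => σ ∘ τ) '' S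
  obtain ⟨m, ⟨σ, hσ, hm⟩, hmm⟩ := exists_idempotent_in_compact_subsemigroup
    (M := Function.End X) (fun r => hright r) s ⟨τ ∘ τ, τ, hτ, rfl⟩
    (hcl.isCompact.image (hright τ)) (by
      rintro _ ⟨σ, hσ, rfl⟩ _ ⟨σ', hσ', rfl⟩
      refine ⟨σ ∘ (τ ∘ σ'), hS _ hσ _ (hS _ hτ _ hσ'), ?_⟩
      rfl)
  refine ⟨σ, hσ, ?_⟩
  have : (σ ∘ τ : X → X) = m := hm
  rw [this]
  exact hmm

/-- Left inverses on a set that all members map onto itself. -/
theorem exists_inv {S : Set (X → X)} (hcl : IsClosed S) (hS : ∀ σ ∈ S, ∀ τ ∈ S, σ ∘ τ ∈ S)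
    {Y : Set X} (hY : ∀ τ ∈ S, τ '' Y = Y) {τ : X → X} (hτ : τ ∈ S) :
    ∃ σ ∈ S, ∀ y ∈ Y, σ (τ y) = y := by
  obtain ⟨σ, hσ, h⟩ := exists_idem hcl hS hτ
  refine ⟨σ, hσ, fun y hy => ?_⟩
  have h1 := hY _ (hS σ hσ τ hτ)
  rw [← h1] at hy
  obtain ⟨z, -, rfl⟩ := hy
  exact congrFun h z

/-- Total boundedness of a set on which a closed semigroup acts transitively. -/
theorem totallyBounded {S : Set (X → X)} (hcl : IsClosed S) (hS : ∀ σ ∈ S, ∀ τ ∈ S, σ ∘ τ ∈ S)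
    (hc : ∀ σ ∈ S, Continuous σ) {Y : Set X} (hY : ∀ τ ∈ S, τ '' Y = Y)
    (htrans : ∀ y ∈ Y, ∀ z ∈ Y, ∃ τ ∈ S, τ y = z)
    (d : X → X → ℝ) (hsymm : ∀ x y, d x y = d y x)
    (htri : ∀ x y z, d x z ≤ d x y + d y z) (hball : ∀ x r, IsClosed {y | d x y ≤ r})
    (hne : ∀ τ ∈ S, ∀ x y, d (τ x) (τ y) ≤ d x y)
    (hsep : ∀ D : Set X, D.Countable → ∀ ε : ℝ, 0 < ε → ∃ N : Set X, N.Countable ∧
      ∀ y ∈ closure D, ∃ z ∈ N, d z y < ε)
    {ε : ℝ} (hε : 0 < ε) (y : ℕ → X) (hy : ∀ n, y n ∈ Y) :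
    ∃ n m, n ≠ m ∧ d (y n) (y m) < ε := by
  choose σ hσ hσy using fun n => htrans (y 0) (hy 0) (y n) (hy n)
  -- the countable semigroup
  let W : List ℕ → ℕ → (X → X) := fun l n => l.foldr (fun m τ => σ m ∘ τ) (σ n)
  have hWS : ∀ l n, W l n ∈ S := by
    intro l n
    induction l with
    | nil => exact hσ n
    | cons m l ih => exact hS _ (hσ m) _ ih
  have hWW : ∀ l n l' n', W l n ∘ W l' n' = W (l ++ n :: l') n' := by
    intro l n l' n'
    induction l with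
    | nil => rfl
    | cons m l ih =>
      have e1 : W (m :: l) n = σ m ∘ W l n := rfl
      have e2 : W (m :: l ++ n :: l') n' = σ m ∘ W (l ++ n :: l') n' := rfl
      rw [e1, e2, ← ih]
      rfl
  let G : Set (X → X) := range fun q : List ℕ × ℕ => W q.1 q.2
  have hGc : G.Countable := countable_range _
  have hGS : G ⊆ S := by
    rintro _ ⟨q, rfl⟩
    exact hWS _ _
  have hGmul : ∀ σ ∈ G, ∀ τ ∈ G, σ ∘ τ ∈ G := by
    rintro _ ⟨q, rfl⟩ _ ⟨q', rfl⟩
    exact ⟨(q.1 ++ q.2 :: q'.1, q'.2), (hWW _ _ _ _).symm⟩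
  have hclG : closure G ⊆ S := closure_minimal hGS hcl
  have hSG : ∀ σ ∈ closure G, ∀ τ ∈ closure G, σ ∘ τ ∈ closure G :=
    comp_mem_closure hGmul fun σ hσ => hc σ (hGS hσ)
  have hev : Continuous fun τ : X → X => τ (y 0) := continuous_apply (y 0)
  let Z : Set X := (fun τ : X → X => τ (y 0)) '' closure G
  have hZc : IsCompact Z := (isClosed_closure.isCompact).image hev
  have hZY : Z ⊆ Y := by
    rintro _ ⟨τ, hτ, rfl⟩
    rw [← hY τ (hclG hτ)]
    exact ⟨_, hy 0, rfl⟩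
  have hyZ : ∀ n, y n ∈ Z := fun n => ⟨σ n, subset_closure ⟨([], n), rfl⟩, hσy n⟩
  have hZD : Z ⊆ closure ((fun τ : X → X => τ (y 0)) '' G) := image_closure_subset_closure_image hev
  obtain ⟨N, hNc, hN⟩ := hsep _ (hGc.image _) (ε / 4) (by positivity)
  -- Baire
  haveI : CompactSpace Z := isCompact_iff_compactSpace.1 hZc
  haveI : Nonempty Z := ⟨⟨y 0, hyZ 0⟩⟩
  haveI : Countable N := hNc.to_subtype
  obtain ⟨z₀, hz₀⟩ := nonempty_interior_of_iUnion_of_closed (X := Z)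
    (f := fun z : N => {x : Z | d z.1 x.1 ≤ ε / 4}) (fun z => (hball z.1 _).preimage continuous_subtype_val)
    (by
      rw [eq_univ_iff_forall]
      intro x
      obtain ⟨z, hz, hzx⟩ := hN x.1 (hZD x.2)
      exact mem_iUnion.2 ⟨⟨z, hz⟩, hzx.le⟩)
  obtain ⟨w, hw⟩ := hz₀
  rw [mem_interior] at hw
  obtain ⟨U, hUsub, hUo, hwU⟩ := hw
  -- every point of `Z` is moved into `U`
  have hZinv : ∀ τ ∈ closure G, ∀ x ∈ Z, τ x ∈ Z := by
    rintro τ hτ _ ⟨κ, hκ, rfl⟩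
    exact ⟨τ ∘ κ, hSG _ hτ _ hκ, rfl⟩
  have hmove : ∀ x : Z, ∃ τ : closure G, (⟨τ.1 x.1, hZinv _ τ.2 _ x.2⟩ : Z) ∈ U := by
    intro x
    obtain ⟨κ, hκ, hκx⟩ := x.2
    obtain ⟨κ', hκ', hinv⟩ := exists_inv isClosed_closure hSG (fun τ hτ => hY τ (hclG hτ)) hκ
    obtain ⟨ω, hω, hωw⟩ := w.2
    refine ⟨⟨ω ∘ κ', hSG _ hω _ hκ'⟩, ?_⟩
    have : (⟨(ω ∘ κ') x.1, hZinv _ (hSG _ hω _ hκ') _ x.2⟩ : Z) = w := by
      apply Subtype.ext
      have e1 : κ' x.1 = y 0 := by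
        rw [← hκx]
        exact hinv _ (hy 0)
      simp only [Function.comp_apply, e1]
      exact hωw
    rw [this]
    exact hwU
  have hcontτ : ∀ τ : closure G, Continuous fun x : Z => (⟨τ.1 x.1, hZinv _ τ.2 _ x.2⟩ : Z) :=
    fun τ => Continuous.subtype_mk ((hc _ (hclG τ.2)).comp continuous_subtype_val) _
  obtain ⟨F, hF⟩ := isCompact_univ.elim_finite_subcover
    (fun τ : closure G => (fun x : Z => (⟨τ.1 x.1, hZinv _ τ.2 _ x.2⟩ : Z)) ⁻¹' U)
    (fun τ => hUo.preimage (hcontτ τ)) (by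
      intro x _
      obtain ⟨τ, hτ⟩ := hmove x
      exact mem_iUnion.2 ⟨τ, hτ⟩)
  have hpick : ∀ n : ℕ, ∃ τ : F, (⟨τ.1.1 (y n), hZinv _ τ.1.2 _ (hyZ n)⟩ : Z) ∈ U := by
    intro n
    obtain ⟨τ, hτF, hτ⟩ := mem_iUnion₂.1 (hF (mem_univ (⟨y n, hyZ n⟩ : Z)))
    exact ⟨⟨τ, hτF⟩, hτ⟩
  choose κ hκ using hpick
  obtain ⟨n, m, hnm, hκnm⟩ := Finite.exists_ne_map_eq_of_infinite κ
  refine ⟨n, m, hnm, ?_⟩
  have h1 := hUsub (hκ n)
  have h2 := hUsub (hκ m)
  rw [← hκnm] at h2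
  have h1' : d z₀.1 ((κ n).1.1 (y n)) ≤ ε / 4 := h1
  have h2' : d z₀.1 ((κ n).1.1 (y m)) ≤ ε / 4 := h2
  obtain ⟨τ', hτ', hinv⟩ := exists_inv isClosed_closure hSG (fun τ hτ => hY τ (hclG hτ)) (κ n).1.2
  calc d (y n) (y m) = d (τ' ((κ n).1.1 (y n))) (τ' ((κ n).1.1 (y m))) := by
        rw [hinv _ (hy n), hinv _ (hy m)]
    _ ≤ d ((κ n).1.1 (y n)) ((κ n).1.1 (y m)) := hne _ (hclG hτ') _ _
    _ ≤ d ((κ n).1.1 (y n)) z₀.1 + d z₀.1 ((κ n).1.1 (y m)) := htri _ _ _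
    _ ≤ ε / 4 + ε / 4 := by rw [hsymm _ z₀.1]; exact add_le_add h1' h2'
    _ < ε := by linarith

/-- Finite nets with separated points. -/
theorem exists_net {Y : Set X} (d : X → X → ℝ) (hself : ∀ x, d x x = 0) (hsymm : ∀ x y, d x y = d y x)
    {ε : ℝ} (hε : 0 < ε)
    (htb : ∀ y : ℕ → X, (∀ n, y n ∈ Y) → ∃ n m, n ≠ m ∧ d (y n) (y m) < ε) :
    ∃ F : Finset X, ↑F ⊆ Y ∧ (∀ x ∈ F, ∀ y ∈ F, x ≠ y → ε ≤ d x y) ∧ ∀ y ∈ Y, ∃ x ∈ F, d x y < ε := by
  obtain ⟨F, hF⟩ := zorn_subset {F : Set X | F ⊆ Y ∧ ∀ x ∈ F, ∀ y ∈ F, x ≠ y → ε ≤ d x y} (by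
    intro c hc hchain
    refine ⟨⋃₀ c, ⟨sUnion_subset fun s hs => (hc hs).1, ?_⟩, fun s hs => subset_sUnion_of_mem hs⟩
    rintro x ⟨s, hs, hxs⟩ y ⟨t, ht, hyt⟩ hxy
    rcases hchain.total hs ht with h | h
    · exact (hc ht).2 x (h hxs) y hyt hxy
    · exact (hc hs).2 x hxs y (h hyt) hxy)
  have hfin : F.Finite := by
    by_contra hinf
    have hinf : F.Infinite := hinf
    let e := hinf.natEmbedding
    obtain ⟨n, m, hnm, hlt⟩ := htb (fun n => (e n).1) fun n => hF.prop.1 (e n).2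
    refine absurd (hF.prop.2 _ (e n).2 _ (e m).2 ?_) (not_le.2 hlt)
    intro h
    exact hnm (e.injective (Subtype.ext h))
  refine ⟨hfin.toFinset, by simpa using hF.prop.1, by simpa using hF.prop.2, ?_⟩
  intro y hy
  by_contra hcon
  push Not at hcon
  simp only [Finite.mem_toFinset] at hcon
  have hyF : y ∉ F := by
    intro h
    have := hcon y h
    rw [hself] at this
    linarith
  have hins : insert y F ∈ {F : Set X | F ⊆ Y ∧ ∀ x ∈ F, ∀ y ∈ F, x ≠ y → ε ≤ d x y} := by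
    refine ⟨insert_subset hy hF.prop.1, ?_⟩
    rintro a (rfl | ha) b (rfl | hb) hab
    · exact absurd rfl hab
    · rw [hsymm]; exact hcon b hb
    · exact hcon a ha
    · exact hF.prop.2 a ha b hb hab
  exact hyF (hF.le_of_ge hins (subset_insert _ _) (mem_insert _ _))

/-- Minimal nonempty closed sets with a property stable under intersections. -/
theorem exists_minimal (P : Set X → Prop) (hP : ∀ c : Set (Set X), (∀ s ∈ c, P s) → P (⋂₀ c))
    {A : Set X} (hA : A.Nonempty) (hAc : IsClosed A) (hAP : P A) :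
    ∃ K ⊆ A, K.Nonempty ∧ IsClosed K ∧ P K ∧
      ∀ L, L.Nonempty → IsClosed L → P L → L ⊆ K → L = K := by
  obtain ⟨K, hKA, hK⟩ := zorn_superset_nonempty {K : Set X | K.Nonempty ∧ IsClosed K ∧ P K} (by
    intro c hc hchain hne
    refine ⟨⋂₀ c, ⟨?_, ?_, ?_⟩, fun s hs => sInter_subset_of_mem hs⟩
    · haveI : Nonempty c := hne.to_subtype
      rw [sInter_eq_iInter]
      refine IsCompact.nonempty_iInter_of_directed_nonempty_isCompact_isClosed _ ?_ ?_ ?_ ?_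
      · rintro ⟨s, hs⟩ ⟨t, ht⟩
        rcases hchain.total hs ht with h | h
        · exact ⟨⟨s, hs⟩, subset_rfl, h⟩
        · exact ⟨⟨t, ht⟩, h, subset_rfl⟩
      · exact fun s => (hc s.2).1
      · exact fun s => (hc s.2).2.1.isCompact
      · exact fun s => (hc s.2).2.1
    · exact isClosed_sInter fun s hs => (hc hs).2.1
    · exact hP c fun s hs => (hc hs).2.2) A ⟨hA, hAc, hAP⟩
  refine ⟨K, hKA, hK.prop.1, hK.prop.2.1, hK.prop.2.2, fun L h1 h2 h3 h4 => ?_⟩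
  exact subset_antisymm h4 (hK.le_of_le ⟨h1, h2, h3⟩ h4)

end Pool.Agent.V11112.Dyn
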