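import Mathlib

/-!
# Separability and the normal structure argument

`W` is a real vector space with a topology in which the preimages under a linear map `v` of closed
convex sets of a topological vector space `E` are closed (for instance `E` with its weak topology),
`C` is a convex set in `W`, and `q` is a continuous seminorm on `E`.
-/

set_option autoImplicit false

namespace Pool.Agent.V11112.Fix

open Set Filter Topology

variable {W E : Type*} [AddCommGroup W] [Module ℝ W] [TopologicalSpace W]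
  [AddCommGroup E] [Module ℝ E] [TopologicalSpace E] [IsTopologicalAddGroup E]

/-- Closures of countable sets are separable for a continuous seminorm. -/
theorem sep (v : W →ₗ[ℝ] E) (hv : ∀ A : Set E, Convex ℝ A → IsClosed A → IsClosed (v ⁻¹' A))
    (q : Seminorm ℝ E) (hq : Continuous q) (C : Set W) (D : Set C) (hD : D.Countable) (ε : ℝ)
    (hε : 0 < ε) : ∃ N : Set C, N.Countable ∧ ∀ y ∈ closure D, ∃ z ∈ N, q (v z.1 - v y.1) < ε := by
  haveI : Countable D := hD.to_subtype
  -- rational combinations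
  let L : (D →₀ ℚ) → E := fun f => f.sum fun d r => (r : ℝ) • v d.1.1
  have hLadd : ∀ f g, L (f + g) = L f + L g := by
    intro f g
    refine Finsupp.sum_add_index' ?_ ?_
    · intro d; simp
    · intro d a b; rw [Rat.cast_add, add_smul]
  have hLsingle : ∀ (d : D) (r : ℚ), L (Finsupp.single d r) = (r : ℝ) • v d.1.1 := by
    intro d r
    exact Finsupp.sum_single_index (by simp)
  have hLsmul : ∀ (c : ℚ) f, L (c • f) = (c : ℝ) • L f := by
    intro c f
    simp only [L]
    rw [Finsupp.sum_smul_index' (by intro d; simp), Finsupp.smul_sum]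
    refine Finsupp.sum_congr fun d _ => ?_
    rw [smul_smul, smul_eq_mul, Rat.cast_mul]
  let P : Set E := {h | ∀ δ : ℝ, 0 < δ → ∃ f, q (h - L f) < δ}
  have hPadd : ∀ x ∈ P, ∀ y ∈ P, x + y ∈ P := by
    intro x hx y hy δ hδ
    obtain ⟨f, hf⟩ := hx (δ / 2) (by positivity)
    obtain ⟨g, hg⟩ := hy (δ / 2) (by positivity)
    refine ⟨f + g, ?_⟩
    have : x + y - L (f + g) = (x - L f) + (y - L g) := by rw [hLadd]; abel
    rw [this]
    exact (map_add_le_add q _ _).trans_lt (by linarith)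
  have hPsmul : ∀ (c : ℝ), ∀ x ∈ P, c • x ∈ P := by
    intro c x hx δ hδ
    obtain ⟨r, hr1, hr2⟩ := exists_rat_btwn (show c < c + δ / (2 * (q x + 1)) by
      have := apply_nonneg q x
      have : 0 < δ / (2 * (q x + 1)) := by positivity
      linarith)
    obtain ⟨f, hf⟩ := hx (δ / (2 * (|(r : ℝ)| + 1))) (by positivity)
    refine ⟨r • f, ?_⟩
    have e1 : c • x - L (r • f) = (c - r) • x + (r : ℝ) • (x - L f) := by
      rw [hLsmul, sub_smul, smul_sub]; abel
    rw [e1]
    refine (map_add_le_add q _ _).trans_lt ?_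
    rw [map_smul_eq_mul, map_smul_eq_mul, Real.norm_eq_abs, Real.norm_eq_abs]
    have hqx := apply_nonneg q x
    have h1 : |c - r| * q x < δ / 2 := by
      have h2 : |c - r| < δ / (2 * (q x + 1)) := by
        rw [abs_sub_comm, abs_of_pos (by linarith)]
        linarith
      calc |c - r| * q x ≤ |c - r| * (q x + 1) := by
            gcongr; linarith
        _ < δ / (2 * (q x + 1)) * (q x + 1) := by gcongr
        _ = δ / 2 := by field_simp
    have h2 : |(r : ℝ)| * q (x - L f) ≤ δ / 2 := by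
      calc |(r : ℝ)| * q (x - L f) ≤ (|(r : ℝ)| + 1) * (δ / (2 * (|(r : ℝ)| + 1))) := by
            gcongr
            linarith
        _ = δ / 2 := by field_simp
    linarith
  have hPD : ∀ d ∈ D, v d.1 ∈ P := by
    intro d hd δ hδ
    refine ⟨Finsupp.single ⟨d, hd⟩ 1, ?_⟩
    rw [hLsingle]
    simpa using hδ
  have hPconv : Convex ℝ P := by
    intro x hx y hy a b _ _ _
    exact hPadd _ (hPsmul a x hx) _ (hPsmul b y hy)
  have hPclosed : IsClosed P := by
    rw [← closure_subset_iff_isClosed]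
    intro x hx δ hδ
    have hopen : IsOpen {y : E | q (x - y) < δ / 2} := isOpen_lt
      (hq.comp (continuous_const.sub continuous_id)) continuous_const
    obtain ⟨y, hy1, hy2⟩ := mem_closure_iff.1 hx _ hopen (by
      rw [mem_ofPred_eq, sub_self, map_zero]; positivity)
    obtain ⟨f, hf⟩ := hy2 (δ / 2) (by positivity)
    refine ⟨f, ?_⟩
    have : x - L f = (x - y) + (y - L f) := by abel
    rw [this]
    have hy1' : q (x - y) < δ / 2 := hy1
    exact (map_add_le_add q _ _).trans_lt (by linarith)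
  have hch : ∀ f : D →₀ ℚ, ∃ z : Set C, z.Countable ∧
      ((∃ y : C, q (v y.1 - L f) < ε / 2) → ∃ y ∈ z, q (v y.1 - L f) < ε / 2) := by
    intro f
    by_cases h : ∃ y : C, q (v y.1 - L f) < ε / 2
    · obtain ⟨y, hy⟩ := h
      exact ⟨{y}, countable_singleton y, fun _ => ⟨y, rfl, hy⟩⟩
    · exact ⟨∅, countable_empty, fun h' => absurd h' h⟩
  choose z hz1 hz2 using hch
  refine ⟨⋃ f, z f, countable_iUnion hz1, fun y hy => ?_⟩
  have hyP : v y.1 ∈ P := by
    have hcl : IsClosed {y : C | v y.1 ∈ P} := (hv P hPconv hPclosed).preimage continuous_subtype_val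
    exact closure_minimal (fun d hd => hPD d hd) hcl hy
  obtain ⟨f, hf⟩ := hyP (ε / 2) (by positivity)
  obtain ⟨w, hw1, hw2⟩ := hz2 f ⟨y, hf⟩
  refine ⟨w, mem_iUnion.2 ⟨f, hw1⟩, ?_⟩
  have : v w.1 - v y.1 = (v w.1 - L f) - (v y.1 - L f) := by abel
  rw [this]
  exact (map_sub_le_add q _ _).trans_lt (by linarith)

/-- Balls of a continuous seminorm are closed. -/
theorem isClosed_ball (v : W →ₗ[ℝ] E) (hv : ∀ A : Set E, Convex ℝ A → IsClosed A → IsClosed (v ⁻¹' A))
    (q : Seminorm ℝ E) (hq : Continuous q) (C : Set W) (x : C) (r : ℝ) :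
    IsClosed {y : C | q (v x.1 - v y.1) ≤ r} := by
  have h1 : Convex ℝ {e : E | q (v x.1 - e) ≤ r} := by
    intro a ha b hb s t hs ht hst
    have ha' : q (v x.1 - a) ≤ r := ha
    have hb' : q (v x.1 - b) ≤ r := hb
    have e1 : v x.1 - (s • a + t • b) = s • (v x.1 - a) + t • (v x.1 - b) := by
      rw [smul_sub, smul_sub]
      have : v x.1 = s • v x.1 + t • v x.1 := by rw [← add_smul, hst, one_smul]
      nth_rewrite 1 [this]
      abel
    change q (v x.1 - (s • a + t • b)) ≤ r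
    rw [e1]
    calc q (s • (v x.1 - a) + t • (v x.1 - b)) ≤ q (s • (v x.1 - a)) + q (t • (v x.1 - b)) :=
          map_add_le_add q _ _
      _ = s * q (v x.1 - a) + t * q (v x.1 - b) := by
          rw [map_smul_eq_mul, map_smul_eq_mul, Real.norm_of_nonneg hs, Real.norm_of_nonneg ht]
      _ ≤ s * r + t * r := by gcongr
      _ = r := by rw [← add_mul, hst, one_mul]
  have h2 : IsClosed {e : E | q (v x.1 - e) ≤ r} :=
    isClosed_le (hq.comp (continuous_const.sub continuous_id)) continuous_const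
  exact (hv _ h1 h2).preimage continuous_subtype_val

/-- The set of pairs at distance at most `r` is closed. -/
theorem isClosed_pairs [ContinuousSub W] (v : W →ₗ[ℝ] E)
    (hv : ∀ A : Set E, Convex ℝ A → IsClosed A → IsClosed (v ⁻¹' A))
    (q : Seminorm ℝ E) (hq : Continuous q) (C : Set W) (r : ℝ) :
    IsClosed {y : C × C | q (v y.1.1 - v y.2.1) ≤ r} := by
  have h1 : Convex ℝ {e : E | q e ≤ r} := by
    intro a ha b hb s t hs ht hst
    have ha' : q a ≤ r := ha
    have hb' : q b ≤ r := hb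
    change q (s • a + t • b) ≤ r
    calc q (s • a + t • b) ≤ q (s • a) + q (t • b) := map_add_le_add q _ _
      _ = s * q a + t * q b := by
          rw [map_smul_eq_mul, map_smul_eq_mul, Real.norm_of_nonneg hs, Real.norm_of_nonneg ht]
      _ ≤ s * r + t * r := by gcongr
      _ = r := by rw [← add_mul, hst, one_mul]
  have h2 : IsClosed {e : E | q e ≤ r} := isClosed_le hq continuous_const
  have h3 := (hv _ h1 h2).preimage (f := fun y : C × C => y.1.1 - y.2.1) (by fun_prop)
  have : {y : C × C | q (v y.1.1 - v y.2.1) ≤ r} =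
      (fun y : C × C => y.1.1 - y.2.1) ⁻¹' (v ⁻¹' {e : E | q e ≤ r}) := by
    ext y
    simp [map_sub]
  rw [this]
  exact h3

/-- Normal structure of totally bounded sets, with the diameter attained at a limit point. -/
theorem normal_structure [T2Space W] (v : W →ₗ[ℝ] E)
    (hv : ∀ A : Set E, Convex ℝ A → IsClosed A → IsClosed (v ⁻¹' A))
    (q : Seminorm ℝ E) (hq : Continuous q) (C : Set W) [CompactSpace C] {K Y : Set C} (hYK : Y ⊆ K)
    (hK : Convex ℝ (Subtype.val '' K)) (hY : IsClosed Y)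
    (hnet : ∀ ε : ℝ, 0 < ε → ∃ F : Finset C, ↑F ⊆ Y ∧
      (∀ x ∈ F, ∀ y ∈ F, x ≠ y → ε ≤ q (v x.1 - v y.1)) ∧ ∀ y ∈ Y, ∃ x ∈ F, q (v x.1 - v y.1) < ε)
    (hpos : ∃ x ∈ Y, ∃ y ∈ Y, 0 < q (v x.1 - v y.1)) :
    ∃ r : ℝ, (∃ u ∈ K, ∀ y ∈ Y, q (v u.1 - v y.1) ≤ r) ∧
      ∃ x ∈ Y, ∃ y ∈ Y, r < q (v x.1 - v y.1) := by
  set d : C → C → ℝ := fun x y => q (v x.1 - v y.1) with hd
  have hdsymm : ∀ x y, d x y = d y x := fun x y => map_sub_rev q _ _
  have hdself : ∀ x, d x x = 0 := fun x => by simp [hd]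
  have hdtri : ∀ x y z, d x z ≤ d x y + d y z := by
    intro x y z
    have : v x.1 - v z.1 = (v x.1 - v y.1) + (v y.1 - v z.1) := by abel
    simp only [hd]
    rw [this]
    exact map_add_le_add q _ _
  have hdnn : ∀ x y, 0 ≤ d x y := fun x y => apply_nonneg q _
  -- boundedness
  obtain ⟨F₁, hF₁Y, -, hF₁net⟩ := hnet 1 one_pos
  have hbdd : ∀ x ∈ Y, ∀ y ∈ Y, d x y ≤ 2 + ∑ a ∈ F₁, ∑ b ∈ F₁, d a b := by
    intro x hx y hy
    obtain ⟨a, ha, hax⟩ := hF₁net x hx
    obtain ⟨b, hb, hby⟩ := hF₁net y hy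
    have h1 : d a b ≤ ∑ a ∈ F₁, ∑ b ∈ F₁, d a b := by
      refine le_trans ?_ (Finset.single_le_sum (f := fun a => ∑ b ∈ F₁, d a b)
        (fun a _ => Finset.sum_nonneg fun b _ => hdnn a b) ha)
      exact Finset.single_le_sum (f := fun b => d a b) (fun b _ => hdnn a b) hb
    have h2 := hdtri x a y
    have h3 := hdtri a b y
    have h4 := hdsymm x a
    have hax' : d a x < 1 := hax
    have hby' : d b y < 1 := hby
    linarith
  set A : Set ℝ := {r | ∃ x ∈ Y, ∃ y ∈ Y, d x y = r} with hA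
  have hAbdd : BddAbove A := ⟨2 + ∑ a ∈ F₁, ∑ b ∈ F₁, d a b, by
    rintro _ ⟨x, hx, y, hy, rfl⟩
    exact hbdd x hx y hy⟩
  set D : ℝ := sSup A with hD
  have hle : ∀ x ∈ Y, ∀ y ∈ Y, d x y ≤ D := fun x hx y hy => le_csSup hAbdd ⟨x, hx, y, hy, rfl⟩
  obtain ⟨x₀, hx₀, y₀, hy₀, hpos⟩ := hpos
  have hDpos : 0 < D := lt_of_lt_of_le hpos (hle x₀ hx₀ y₀ hy₀)
  have hAne : A.Nonempty := ⟨_, x₀, hx₀, y₀, hy₀, rfl⟩
  have hlt : ∀ r < D, ∃ x ∈ Y, ∃ y ∈ Y, r < d x y := by
    intro r hr
    obtain ⟨_, ⟨x, hx, y, hy, rfl⟩, h⟩ := exists_lt_of_lt_csSup hAne hr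
    exact ⟨x, hx, y, hy, h⟩
  -- the separated set
  obtain ⟨F, hFY, hFsep, hFnet⟩ := hnet D hDpos
  have hFne : F.Nonempty := by
    obtain ⟨x, hx, -⟩ := hFnet x₀ hx₀
    exact ⟨x, hx⟩
  have hn : 0 < (F.card : ℝ) := by exact_mod_cast hFne.card_pos
  have hu : (∑ x ∈ F, ((F.card : ℝ)⁻¹) • x.1) ∈ Subtype.val '' K := by
    refine hK.sum_mem (fun _ _ => by positivity) ?_ fun x hx => ⟨x, hYK (hFY hx), rfl⟩
    rw [Finset.sum_const, nsmul_eq_mul]
    field_simp
  obtain ⟨u, huK, hu⟩ := hu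
  set g : C → ℝ := fun y => ∑ x ∈ F, (F.card : ℝ)⁻¹ * d x y with hg
  have hug : ∀ y, q (v u.1 - v y.1) ≤ g y := by
    intro y
    have e1 : v u.1 - v y.1 = ∑ x ∈ F, ((F.card : ℝ)⁻¹) • (v x.1 - v y.1) := by
      rw [hu, map_sum]
      simp only [map_smul, smul_sub, Finset.sum_sub_distrib]
      congr 1
      rw [Finset.sum_const, ← Nat.cast_smul_eq_nsmul ℝ, smul_smul, mul_inv_cancel₀ hn.ne', one_smul]
    rw [e1, hg]
    refine (Finset.le_sum_of_subadditive q (map_zero q).le (map_add_le_add q) F _).trans ?_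
    refine Finset.sum_le_sum fun x _ => ?_
    rw [map_smul_eq_mul, Real.norm_of_nonneg (by positivity)]
  have hgtri : ∀ y z, g y ≤ g z + d y z := by
    intro y z
    have h1 : ∑ _x ∈ F, (F.card : ℝ)⁻¹ * d y z = d y z := by
      rw [Finset.sum_const, nsmul_eq_mul]
      field_simp
    rw [← h1]
    simp only [hg]
    rw [← Finset.sum_add_distrib]
    refine Finset.sum_le_sum fun x _ => ?_
    rw [← mul_add]
    have := hdtri x z y
    rw [hdsymm z y] at this
    gcongr
  have hr : ∃ r < D, ∀ y ∈ Y, g y ≤ r := by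
    by_contra hcon
    push Not at hcon
    -- a limit point
    have hclosed : ∀ x r, IsClosed {y : C | d x y ≤ r} := fun x r => isClosed_ball v hv q hq C x r
    obtain ⟨y', hy'⟩ : (⋂ k : ℕ, closure {y : C | y ∈ Y ∧ D - 1 / ((k : ℝ) + 1) < g y}).Nonempty := by
      refine IsCompact.nonempty_iInter_of_sequence_nonempty_isCompact_isClosed _ ?_ ?_ ?_ ?_
      · intro k
        refine closure_mono fun y hy => ⟨hy.1, lt_of_le_of_lt ?_ hy.2⟩
        have : 1 / (((k + 1 : ℕ) : ℝ) + 1) ≤ 1 / ((k : ℝ) + 1) :=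
          one_div_le_one_div_of_le (by positivity) (by push_cast; linarith)
        linarith
      · intro k
        obtain ⟨y, hy, hlt⟩ := hcon (D - 1 / ((k : ℝ) + 1)) (by
          have : 0 < 1 / ((k : ℝ) + 1) := by positivity
          linarith)
        exact ⟨y, subset_closure ⟨hy, hlt⟩⟩
      · exact isClosed_closure.isCompact
      · exact fun k => isClosed_closure
    rw [mem_iInter] at hy'
    have hy'Y : y' ∈ Y := by
      have : closure {y : C | y ∈ Y ∧ D - 1 / (((0 : ℕ) : ℝ) + 1) < g y} ⊆ Y :=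
        closure_minimal (fun y hy => hy.1) hY
      exact this (hy' 0)
    have hge : D ≤ g y' := by
      by_contra hlt
      push Not at hlt
      set η : ℝ := D - g y' with hη
      have hηpos : 0 < η := by linarith
      obtain ⟨F', -, -, hF'⟩ := hnet (η / 4) (by positivity)
      obtain ⟨k, hk⟩ := exists_nat_one_div_lt (show 0 < η / 4 by positivity)
      have hcov : {y : C | y ∈ Y ∧ D - 1 / ((k : ℝ) + 1) < g y} ⊆
          ⋃ x ∈ F', ({y : C | y ∈ Y ∧ D - 1 / ((k : ℝ) + 1) < g y} ∩ {y | d x y ≤ η / 4}) := by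
        intro y hy
        obtain ⟨x, hx, hxy⟩ := hF' y hy.1
        exact mem_iUnion₂.2 ⟨x, hx, hy, le_of_lt hxy⟩
      have h1 := closure_mono hcov (hy' k)
      rw [Finset.closure_biUnion] at h1
      obtain ⟨x, hx, hxy⟩ := mem_iUnion₂.1 h1
      have hb : d x y' ≤ η / 4 :=
        closure_minimal (fun y hy => hy.2) (hclosed x _) hxy
      obtain ⟨y, hy, hyx⟩ := (closure_nonempty_iff.1 ⟨y', hxy⟩)
      have hyx' : d x y ≤ η / 4 := hyx
      have h2 := hgtri y y'
      have h3 := hdtri y x y'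
      rw [hdsymm y x] at h3
      have h4 := hy.2
      linarith
    obtain ⟨x, hx, hxy⟩ := hFnet y' hy'Y
    have : g y' < D := by
      have h1 : ∑ _x ∈ F, (F.card : ℝ)⁻¹ * D = D := by
        rw [Finset.sum_const, nsmul_eq_mul]
        field_simp
      rw [← h1]
      refine Finset.sum_lt_sum (fun x hx => ?_) ⟨x, hx, ?_⟩
      · have := hle x (hFY hx) y' hy'Y
        gcongr
      · exact mul_lt_mul_of_pos_left hxy (by positivity)
    linarith
  obtain ⟨r, hrD, hr⟩ := hr
  exact ⟨r, ⟨u, huK, fun y hy => (hug y).trans (hr y hy)⟩, hlt r hrD⟩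

end Pool.Agent.V11112.Fix
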