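import Mathlib

/-!
# Pointwise compact families of continuous functions and linear functionals

A pointwise compact, uniformly bounded family of continuous functions on a compact space is mapped
continuously to the line by every bounded linear functional on the space of continuous functions.
-/

set_option autoImplicit false

namespace Pool.Agent.V11112.Groth

open Set Filter Topology MeasureTheory

section Seq

variable {K : Type*} [TopologicalSpace K] [CompactSpace K]

/-- Countable tightness of the pointwise topology on continuous functions on a compact space. -/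
theorem exists_countable {A : Set (K → ℝ)} (hA : ∀ g ∈ A, Continuous g) {h : K → ℝ}
    (hh : Continuous h) (hcl : h ∈ closure A) : ∃ A₀ ⊆ A, A₀.Countable ∧ h ∈ closure A₀ := by
  have key : ∀ n : ℕ, ∃ B : Set (K → ℝ), B.Finite ∧ B ⊆ A ∧
      ∀ x : Fin n → K, ∃ g ∈ B, ∀ i, |g (x i) - h (x i)| < 1 / ((n : ℝ) + 1) := by
    intro n
    have h1 : ∀ x : Fin n → K, ∃ g ∈ A, ∀ i, |g (x i) - h (x i)| < 1 / ((n : ℝ) + 1) := by
      intro x
      have hU : IsOpen {g : K → ℝ | ∀ i, |g (x i) - h (x i)| < 1 / ((n : ℝ) + 1)} := by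
        rw [show {g : K → ℝ | ∀ i, |g (x i) - h (x i)| < 1 / ((n : ℝ) + 1)} =
          ⋂ i, {g : K → ℝ | |g (x i) - h (x i)| < 1 / ((n : ℝ) + 1)} by ext; simp]
        refine isOpen_iInter_of_finite fun i => ?_
        exact isOpen_lt (by fun_prop) continuous_const
      obtain ⟨g, hg1, hg2⟩ := mem_closure_iff.1 hcl _ hU (by
        intro i
        rw [sub_self, abs_zero]
        positivity)
      exact ⟨g, hg2, hg1⟩
    choose G hG1 hG2 using h1
    have hopen : ∀ x : Fin n → K,
        IsOpen {y : Fin n → K | ∀ i, |G x (y i) - h (y i)| < 1 / ((n : ℝ) + 1)} := by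
      intro x
      rw [show {y : Fin n → K | ∀ i, |G x (y i) - h (y i)| < 1 / ((n : ℝ) + 1)} =
          ⋂ i, {y : Fin n → K | |G x (y i) - h (y i)| < 1 / ((n : ℝ) + 1)} by ext; simp]
      refine isOpen_iInter_of_finite fun i => ?_
      have := hA _ (hG1 x)
      exact isOpen_lt (by fun_prop) continuous_const
    obtain ⟨t, ht⟩ := isCompact_univ.elim_finite_subcover _ hopen (by
      intro x _
      exact mem_iUnion.2 ⟨x, hG2 x⟩)
    refine ⟨G '' t, t.finite_toSet.image _, ?_, ?_⟩
    · rintro _ ⟨x, -, rfl⟩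
      exact hG1 x
    · intro x
      obtain ⟨y, hy, hxy⟩ := mem_iUnion₂.1 (ht (mem_univ x))
      exact ⟨G y, ⟨y, hy, rfl⟩, hxy⟩
  choose B hB1 hB2 hB3 using key
  refine ⟨⋃ n, B n, iUnion_subset hB2, countable_iUnion fun n => (hB1 n).countable, ?_⟩
  rw [mem_closure_iff_nhds]
  intro U hU
  rw [nhds_pi, Filter.mem_pi] at hU
  obtain ⟨I, hI, t, ht, hsub⟩ := hU
  -- choose a common radius
  have h1 : ∀ i : K, ∃ ε : ℝ, 0 < ε ∧ Metric.ball (h i) ε ⊆ t i := by
    intro i
    exact Metric.mem_nhds_iff.1 (ht i)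
  choose ε hε1 hε2 using h1
  have hfin : ∃ δ : ℝ, 0 < δ ∧ ∀ i ∈ I, δ ≤ ε i := by
    obtain rfl | hne := I.eq_empty_or_nonempty
    · exact ⟨1, one_pos, by simp⟩
    · obtain ⟨i0, hi0, hmin⟩ := hI.exists_minimalFor ε I hne
      refine ⟨ε i0, hε1 i0, fun i hi => ?_⟩
      by_contra hcon
      push Not at hcon
      exact absurd (hmin hi hcon.le) (not_le.2 hcon)
  obtain ⟨δ, hδ, hδI⟩ := hfin
  obtain rfl | ⟨i0, hi0⟩ := I.eq_empty_or_nonempty
  · obtain ⟨g, hg, -⟩ := hB3 0 (fun i => Fin.elim0 i)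
    exact ⟨g, hsub (by simp), mem_iUnion.2 ⟨0, hg⟩⟩
  obtain ⟨m, hm⟩ := exists_nat_one_div_lt hδ
  haveI := hI.fintype
  obtain ⟨n, hn1, hn2⟩ : ∃ n : ℕ, m ≤ n ∧ Fintype.card I ≤ n := ⟨max m (Fintype.card I), le_max_left _ _,
    le_max_right _ _⟩
  -- enumerate `I` by `Fin n`
  obtain ⟨x, hx⟩ : ∃ x : Fin n → K, ∀ i ∈ I, ∃ j, x j = i := by
    let e := Fintype.equivFin I
    refine ⟨fun j => if hj : j.1 < Fintype.card I then (e.symm ⟨j.1, hj⟩ : I).1 else i0, fun i hi => ?_⟩
    refine ⟨⟨(e ⟨i, hi⟩).1, (e ⟨i, hi⟩).2.trans_le hn2⟩, ?_⟩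
    have hlt : (e ⟨i, hi⟩).1 < Fintype.card I := (e ⟨i, hi⟩).2
    simp only [dif_pos hlt, Fin.eta, Equiv.symm_apply_apply]
  obtain ⟨g, hg1, hg2⟩ := hB3 n x
  refine ⟨g, hsub ?_, mem_iUnion.2 ⟨n, hg1⟩⟩
  intro i hi
  obtain ⟨j, rfl⟩ := hx i hi
  refine hε2 _ ?_
  rw [Metric.mem_ball, Real.dist_eq]
  refine (hg2 j).trans_le (le_trans ?_ (hδI _ hi))
  refine le_trans ?_ hm.le
  exact one_div_le_one_div_of_le (by positivity) (by
    have : (m : ℝ) ≤ n := by exact_mod_cast hn1
    linarith)

/-- A pointwise compact family of continuous functions on a compact space: closures of subsets are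
obtained by sequences. -/
theorem exists_seq {H : Set (K → ℝ)} (hHc : IsCompact H) (hH : ∀ g ∈ H, Continuous g)
    {A : Set (K → ℝ)} (hAH : A ⊆ H) {h : K → ℝ} (hcl : h ∈ closure A) :
    ∃ u : ℕ → (K → ℝ), (∀ n, u n ∈ A) ∧ Tendsto u atTop (𝓝 h) := by
  have hhH : h ∈ H := (closure_minimal hAH hHc.isClosed) hcl
  obtain ⟨A₀, hA₀, hcount, hcl₀⟩ := exists_countable (fun g hg => hH g (hAH hg)) (hH h hhH) hcl
  have hBH : closure A₀ ⊆ H := closure_minimal (hA₀.trans hAH) hHc.isClosed
  have hBc : IsCompact (closure A₀) := hHc.of_isClosed_subset isClosed_closure hBH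
  haveI : Countable A₀ := hcount.to_subtype
  -- the map to the metrizable quotient
  let Φ : K → (A₀ → ℝ) := fun x g => g.1 x
  have hΦ : Continuous Φ := continuous_pi fun g => hH _ (hAH (hA₀ g.2))
  obtain ⟨D', hD'1, hD'2⟩ : ∃ D' : Set (range Φ), D'.Countable ∧ Dense D' :=
    TopologicalSpace.exists_countable_dense _
  have hsurj : ∀ d : range Φ, ∃ x : K, Φ x = d.1 := fun d => d.2
  choose s hs using hsurj
  let D : Set K := s '' D'
  have hD : D.Countable := hD'1.image _
  have hdet : ∀ f ∈ closure A₀, ∀ x y : K, Φ x = Φ y → f x = f y := by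
    intro f hf x y hxy
    have hcl : IsClosed {f : K → ℝ | f x = f y} := isClosed_eq (continuous_apply x) (continuous_apply y)
    have hsub : A₀ ⊆ {f : K → ℝ | f x = f y} := fun g hg => congrFun hxy ⟨g, hg⟩
    exact closure_minimal hsub hcl hf
  have hinj : ∀ f ∈ closure A₀, ∀ f' ∈ closure A₀, (∀ d ∈ D, f d = f' d) → f = f' := by
    intro f hf f' hf' hd
    have hZ : IsClosed {x : K | f x = f' x} := isClosed_eq (hH f (hBH hf)) (hH f' (hBH hf'))
    have hΦZ : IsClosed (Φ '' {x : K | f x = f' x}) := (hZ.isCompact.image hΦ).isClosed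
    have hall : ∀ d : range Φ, d.1 ∈ Φ '' {x : K | f x = f' x} := by
      have hc : IsClosed {d : range Φ | d.1 ∈ Φ '' {x : K | f x = f' x}} :=
        hΦZ.preimage continuous_subtype_val
      intro d
      have : d ∈ closure D' := hD'2 d
      refine closure_minimal (fun d' hd' => ?_) hc this
      exact ⟨s d', hd _ ⟨d', hd', rfl⟩, hs d'⟩
    funext x
    obtain ⟨z, hz, hzx⟩ := hall ⟨Φ x, x, rfl⟩
    rw [← hdet f hf z x hzx, ← hdet f' hf' z x hzx]
    exact hz
  haveI : Countable D := hD.to_subtype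
  haveI : CompactSpace (closure A₀) := isCompact_iff_compactSpace.1 hBc
  let R : closure A₀ → (D → ℝ) := fun f d => f.1 d.1
  have hR : Continuous R := continuous_pi fun d => (continuous_apply d.1).comp continuous_subtype_val
  have hRinj : Function.Injective R := by
    intro f f' hff
    exact Subtype.ext (hinj f.1 f.2 f'.1 f'.2 fun d hd => congrFun hff ⟨d, hd⟩)
  have hemb : IsClosedEmbedding R := hR.isClosedEmbedding hRinj
  haveI : FirstCountableTopology (closure A₀) := hemb.isInducing.firstCountableTopology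
  let hB : closure A₀ := ⟨h, hcl₀⟩
  have hmem : hB ∈ closure {f : closure A₀ | f.1 ∈ A₀} := by
    rw [closure_subtype]
    have : (Subtype.val '' {f : closure A₀ | f.1 ∈ A₀}) = A₀ := by
      ext g
      constructor
      · rintro ⟨f, hf, rfl⟩
        exact hf
      · intro hg
        exact ⟨⟨g, subset_closure hg⟩, hg, rfl⟩
    rw [this]
    exact hcl₀
  obtain ⟨u, hu1, hu2⟩ := mem_closure_iff_seq_limit.1 hmem
  exact ⟨fun n => (u n).1, fun n => hA₀ (hu1 n), (continuous_subtype_val.tendsto hB).comp hu2⟩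

end Seq

section Dom

variable {K : Type*} [TopologicalSpace K] [CompactSpace K] [T2Space K]

/-- Dominated convergence for a nonnegative functional. -/
theorem tendsto_of_pos (f : C(K, ℝ) →L[ℝ] ℝ) (hf : ∀ g : C(K, ℝ), (∀ x, 0 ≤ g x) → 0 ≤ f g)
    (w : ℕ → C(K, ℝ)) (M : ℝ) (hM : ∀ n x, |w n x| ≤ M)
    (hw : ∀ x, Tendsto (fun n => w n x) atTop (𝓝 0)) :
    Tendsto (fun n => f (w n)) atTop (𝓝 0) := by
  letI : MeasurableSpace K := borel K
  haveI : BorelSpace K := ⟨rfl⟩
  let Λ : CompactlySupportedContinuousMap K ℝ →ₚ[ℝ] ℝ :=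
    { toFun g := f g.toContinuousMap
      map_add' g g' := by
        rw [← map_add]; rfl
      map_smul' c g := by
        rw [RingHom.id_apply, ← map_smul]; rfl
      monotone' g g' hgg' := by
        have h := hf (g'.toContinuousMap - g.toContinuousMap) fun x => by
          have := hgg' x
          simpa using this
        rw [map_sub] at h
        linarith }
  have hrep : ∀ g : C(K, ℝ), f g = ∫ x, g x ∂(RealRMK.rieszMeasure Λ) := by
    intro g
    let g' : CompactlySupportedContinuousMap K ℝ :=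
      { toFun := g
        hasCompactSupport' := HasCompactSupport.of_compactSpace _ }
    exact (RealRMK.integral_rieszMeasure Λ g').symm
  simp only [hrep]
  have h0 : (0 : ℝ) = ∫ x, (0 : ℝ) ∂(RealRMK.rieszMeasure Λ) := by simp
  rw [h0]
  refine tendsto_integral_of_dominated_convergence (fun _ => M) ?_ ?_ ?_ ?_
  · intro n
    exact ((w n).continuous.stronglyMeasurable).aestronglyMeasurable
  · exact integrable_const _
  · intro n
    exact Eventually.of_forall fun x => by
      rw [Real.norm_eq_abs]; exact hM n x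
  · exact Eventually.of_forall hw

/-- Bounded pointwise convergence to `0` implies weak convergence. -/
theorem tendsto_zero (Λ : C(K, ℝ) →L[ℝ] ℝ) (v : ℕ → C(K, ℝ)) (M : ℝ) (hM : ∀ n x, |v n x| ≤ M)
    (hv : ∀ x, Tendsto (fun n => v n x) atTop (𝓝 0)) :
    Tendsto (fun n => Λ (v n)) atTop (𝓝 0) := by
  by_contra hcon
  rw [Metric.tendsto_atTop] at hcon
  push Not at hcon
  obtain ⟨ε, hε, hcon⟩ := hcon
  choose N hN1 hN2 using hcon
  -- the subsequence, with signs
  let s : ℕ → ℝ := fun n => if 0 ≤ Λ (v (N n)) then 1 else -1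
  have hs : ∀ n, |s n| = 1 := by
    intro n
    simp only [s]
    split_ifs <;> simp
  have hsΛ : ∀ n, ε ≤ Λ (s n • v (N n)) := by
    intro n
    have := hN2 n
    rw [Real.dist_eq, sub_zero] at this
    rw [map_smul, smul_eq_mul]
    simp only [s]
    split_ifs with h
    · rw [one_mul]; rwa [abs_of_nonneg h] at this
    · push Not at h
      rw [abs_of_neg h] at this
      linarith
  have hΛ : 0 < ‖Λ‖ := by
    rcases (norm_nonneg Λ).lt_or_eq with h | h
    · exact h
    · exfalso
      have h1 := Λ.le_opNorm (s 0 • v (N 0))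
      rw [← h, zero_mul] at h1
      have h2 := hsΛ 0
      have h3 := le_abs_self (Λ (s 0 • v (N 0)))
      rw [Real.norm_eq_abs] at h1
      linarith
  set δ : ℝ := ε / ‖Λ‖ with hδ
  have hδpos : 0 < δ := div_pos hε hΛ
  let w : ℕ → C(K, ℝ) := fun n => |v (N n)|
  have hwa : ∀ n x, w n x = |v (N n) x| := fun n x => rfl
  have hconv : ∀ b ∈ convexHull ℝ (range w), ∃ x, δ ≤ b x := by
    intro b hb
    rw [convexHull_range_eq_exists_affineCombination] at hb
    obtain ⟨t, c, hc0, hc1, rfl⟩ := hb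
    rw [Finset.affineCombination_eq_linear_combination _ _ _ hc1]
    set g : C(K, ℝ) := ∑ i ∈ t, c i • (s i • v (N i)) with hg
    have hΛg : ε ≤ Λ g := by
      rw [hg, map_sum]
      calc ε = ∑ i ∈ t, c i * ε := by rw [← Finset.sum_mul, hc1, one_mul]
        _ ≤ _ := Finset.sum_le_sum fun i hi => by
          rw [map_smul, smul_eq_mul]
          exact mul_le_mul_of_nonneg_left (hsΛ i) (hc0 i hi)
    have hnorm : δ ≤ ‖g‖ := by
      rw [hδ, div_le_iff₀ hΛ]
      calc ε ≤ Λ g := hΛg
        _ ≤ ‖Λ g‖ := le_abs_self _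
        _ ≤ ‖Λ‖ * ‖g‖ := Λ.le_opNorm g
        _ = ‖g‖ * ‖Λ‖ := mul_comm _ _
    by_contra hlt
    push Not at hlt
    have : ‖g‖ < δ := by
      rw [ContinuousMap.norm_lt_iff _ hδpos]
      intro x
      refine lt_of_le_of_lt ?_ (hlt x)
      have e1 : g x = ∑ i ∈ t, c i * (s i * v (N i) x) := by
        rw [hg]
        simp
      have e2 : (∑ i ∈ t, c i • w i) x = ∑ i ∈ t, c i * |v (N i) x| := by
        simp [hwa]
      rw [e1, e2, Real.norm_eq_abs]
      refine (Finset.abs_sum_le_sum_abs _ _).trans (Finset.sum_le_sum fun i hi => ?_)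
      rw [abs_mul, abs_mul, hs, one_mul, abs_of_nonneg (hc0 i hi)]
    linarith
  have hUopen : IsOpen {b : C(K, ℝ) | ∀ x, b x < δ} := by
    have : {b : C(K, ℝ) | ∀ x, b x < δ} = {b : C(K, ℝ) | MapsTo b univ (Iio δ)} := by
      ext b; simp [MapsTo]
    rw [this]
    exact ContinuousMap.isOpen_setOf_mapsTo isCompact_univ isOpen_Iio
  have hUconv : Convex ℝ {b : C(K, ℝ) | ∀ x, b x < δ} := by
    intro a ha b hb p q hp hq hpq x
    have h1 := ha x
    have h2 := hb x
    simp only [ContinuousMap.add_apply, ContinuousMap.smul_apply, smul_eq_mul]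
    rcases hp.lt_or_eq with hp' | hp'
    · calc p * a x + q * b x < p * δ + q * δ := by
            have := mul_lt_mul_of_pos_left h1 hp'
            have := mul_le_mul_of_nonneg_left h2.le hq
            linarith
        _ = δ := by rw [← add_mul, hpq, one_mul]
    · rw [← hp'] at hpq ⊢
      rw [zero_add] at hpq
      rw [hpq]; linarith
  obtain ⟨f, u, hfu, hfb⟩ := geometric_hahn_banach_open hUconv hUopen (convex_convexHull ℝ (range w)) (by
    rw [Set.disjoint_left]
    intro b hb1 hb2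
    obtain ⟨x, hx⟩ := hconv b hb2
    exact absurd (hb1 x) (not_lt.2 hx))
  have hu : 0 < u := by
    have := hfu 0 (fun x => by simpa using hδpos)
    simpa using this
  have hfpos : ∀ g : C(K, ℝ), (∀ x, 0 ≤ g x) → 0 ≤ f g := by
    intro g hg
    by_contra hneg
    push Not at hneg
    have := hfu ((u / f g) • g) (fun x => by
      simp only [ContinuousMap.smul_apply, smul_eq_mul]
      have h1 : u / f g ≤ 0 := (div_neg_of_pos_of_neg hu hneg).le
      have := mul_nonpos_of_nonpos_of_nonneg h1 (hg x)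
      linarith)
    rw [map_smul, smul_eq_mul, div_mul_cancel₀ _ hneg.ne] at this
    exact lt_irrefl _ this
  have hNt : Tendsto N atTop atTop := tendsto_atTop_mono hN1 tendsto_id
  have hlim := tendsto_of_pos f hfpos w M (fun n x => by rw [hwa, abs_abs]; exact hM _ x) (fun x => by
    have := ((hv x).comp hNt).abs
    rw [abs_zero] at this
    exact this)
  have h1 : ∀ n, u ≤ f (w n) := fun n => hfb _ (subset_convexHull ℝ _ ⟨n, rfl⟩)
  have := ge_of_tendsto' hlim h1
  linarith

/-- Bounded pointwise convergence implies weak convergence. -/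
theorem tendsto_apply (Λ : C(K, ℝ) →L[ℝ] ℝ) (v : ℕ → C(K, ℝ)) (h : C(K, ℝ)) (M : ℝ)
    (hM : ∀ n x, |v n x| ≤ M) (hv : ∀ x, Tendsto (fun n => v n x) atTop (𝓝 (h x))) :
    Tendsto (fun n => Λ (v n)) atTop (𝓝 (Λ h)) := by
  have h1 := tendsto_zero Λ (fun n => v n - h) (M + ‖h‖) (fun n x => by
    rw [ContinuousMap.sub_apply]
    exact (abs_sub _ _).trans (add_le_add (hM n x) (h.norm_coe_le_norm x))) (fun x => by
    have := (hv x).sub_const (h x)
    rw [sub_self] at this
    exact this)
  simp only [map_sub] at h1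
  have := h1.add_const (Λ h)
  simpa using this

/-- The theorem of Grothendieck, in the form used here. -/
theorem continuous_functional {S : Type*} [TopologicalSpace S] [CompactSpace S]
    (F : S → C(K, ℝ)) (hF : ∀ x, Continuous fun s => F s x) (M : ℝ) (hM : ∀ s x, |F s x| ≤ M)
    (Λ : C(K, ℝ) →L[ℝ] ℝ) : Continuous fun s => Λ (F s) := by
  have hFc : Continuous fun s => (F s : K → ℝ) := continuous_pi hF
  rw [continuous_iff_isClosed]
  intro C hC
  rw [← closure_subset_iff_isClosed]
  intro s₀ hs₀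
  set H : Set (K → ℝ) := range fun s => (F s : K → ℝ) with hHdef
  have hH : ∀ g ∈ H, Continuous g := by
    rintro _ ⟨s, rfl⟩
    exact (F s).continuous
  have hHc : IsCompact H := isCompact_range hFc
  have hAH : (fun s => (F s : K → ℝ)) '' ((fun s => Λ (F s)) ⁻¹' C) ⊆ H := by
    rintro _ ⟨s, -, rfl⟩
    exact ⟨s, rfl⟩
  have hcl : (F s₀ : K → ℝ) ∈ closure ((fun s => (F s : K → ℝ)) '' ((fun s => Λ (F s)) ⁻¹' C)) :=
    image_closure_subset_closure_image hFc ⟨s₀, hs₀, rfl⟩
  obtain ⟨u, hu1, hu2⟩ := exists_seq hHc hH hAH hcl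
  choose t ht1 ht2 using hu1
  have hlim : Tendsto (fun n => Λ (F (t n))) atTop (𝓝 (Λ (F s₀))) := by
    refine tendsto_apply Λ _ _ M (fun n x => hM _ x) fun x => ?_
    have := (tendsto_pi_nhds.1 hu2) x
    refine this.congr fun n => ?_
    rw [← ht2 n]
  exact hC.mem_of_tendsto hlim (Eventually.of_forall ht1)

end Dom

end Pool.Agent.V11112.Groth
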