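import Mathlib

set_option autoImplicit false

namespace Pool.Agent.V11112.HS

variable {X : Type*} [AddCommGroup X] [Module ℝ X]

/-- The segment between `x` and `y` meets `C`. -/
def Hid (C : Set X) (x y : X) : Prop := (segment ℝ x y ∩ C).Nonempty

/-- `Z` is covered by finitely many convex sets disjoint from `C`. -/
def Cov (C Z : Set X) : Prop :=
  ∃ F : Set (Set X), F.Finite ∧ (∀ K ∈ F, Convex ℝ K ∧ Disjoint K C) ∧ Z ⊆ ⋃₀ F

/-- `Z` is covered by `m + 1` convex sets disjoint from `C`. -/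
def CovN (C : Set X) (m : ℕ) (Z : Set X) : Prop :=
  ∃ K : Fin (m + 1) → Set X, (∀ i, Convex ℝ (K i) ∧ Disjoint (K i) C) ∧ Z ⊆ ⋃ i, K i

theorem Cov.union {C Z Z' : Set X} (h : Cov C Z) (h' : Cov C Z') : Cov C (Z ∪ Z') := by
  obtain ⟨F, hF, hF1, hF2⟩ := h
  obtain ⟨F', hF', hF1', hF2'⟩ := h'
  refine ⟨F ∪ F', hF.union hF', ?_, ?_⟩
  · rintro K (hK | hK)
    · exact hF1 K hK
    · exact hF1' K hK
  · rw [Set.sUnion_union]
    exact Set.union_subset_union hF2 hF2'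

theorem Cov.mono {C Z Z' : Set X} (h : Cov C Z) (hZ : Z' ⊆ Z) : Cov C Z' := by
  obtain ⟨F, hF, hF1, hF2⟩ := h
  exact ⟨F, hF, hF1, hZ.trans hF2⟩

theorem CovN.mono {C Z Z' : Set X} {m : ℕ} (h : CovN C m Z) (hZ : Z' ⊆ Z) : CovN C m Z' := by
  obtain ⟨K, hK1, hK2⟩ := h
  exact ⟨K, hK1, hZ.trans hK2⟩

theorem Cov.exists_covN {C Z : Set X} (h : Cov C Z) : ∃ m, CovN C m Z := by
  obtain ⟨F, hF, hF1, hF2⟩ := h
  obtain ⟨n, f, -, hf⟩ := hF.fin_param
  refine ⟨n, Fin.cons ∅ f, ?_, ?_⟩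
  · intro i
    refine Fin.cases ?_ (fun j => ?_) i
    · simp [convex_empty]
    · simp only [Fin.cons_succ]
      exact hF1 _ (hf ▸ Set.mem_range_self j)
  · intro z hz
    obtain ⟨K, hK, hzK⟩ := hF2 hz
    rw [← hf] at hK
    obtain ⟨j, rfl⟩ := hK
    exact Set.mem_iUnion.2 ⟨j.succ, by simpa using hzK⟩

theorem CovN.cov {C Z : Set X} {m : ℕ} (h : CovN C m Z) : Cov C Z := by
  obtain ⟨K, hK1, hK2⟩ := h
  refine ⟨Set.range K, Set.finite_range K, ?_, ?_⟩
  · rintro _ ⟨i, rfl⟩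
    exact hK1 i
  · rwa [Set.sUnion_range]

/-- Enlarging a cover by Stone's separation theorem. -/
theorem Cov.stone {C Z : Set X} (hC : Convex ℝ C) (h : Cov C Z) :
    ∃ F : Set (Set X), F.Finite ∧ (∀ K ∈ F, Convex ℝ K ∧ Convex ℝ Kᶜ ∧ C ⊆ Kᶜ) ∧ Z ⊆ ⋃₀ F := by
  obtain ⟨F, hF, hF1, hF2⟩ := h
  have H : ∀ K : Set X, ∃ V : Set X, K ∈ F → Convex ℝ V ∧ Convex ℝ Vᶜ ∧ K ⊆ V ∧ C ⊆ Vᶜ := by
    intro K
    by_cases hK : K ∈ F
    · obtain ⟨V, h1, h2, h3, h4⟩ :=
        exists_convex_convex_compl_subset (hF1 K hK).1 hC (hF1 K hK).2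
      exact ⟨V, fun _ => ⟨h1, h2, h3, h4⟩⟩
    · exact ⟨∅, fun h => absurd h hK⟩
  choose V hV using H
  refine ⟨V '' F, hF.image V, ?_, ?_⟩
  · rintro _ ⟨K, hK, rfl⟩
    exact ⟨(hV K hK).1, (hV K hK).2.1, (hV K hK).2.2.2⟩
  · intro z hz
    obtain ⟨K, hK, hzK⟩ := hF2 hz
    exact ⟨V K, ⟨K, hK, rfl⟩, (hV K hK).2.2.1 hzK⟩

/-- A finite cover of `D' \ C` yields the polyhedric representation. -/
theorem polyhedric_of_cov {C D' : Set X} (hC : Convex ℝ C) (hD : Convex ℝ D') (hCD : C ⊆ D')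
    (h : Cov C (D' \ C)) :
    ∃ n : ℕ, 1 ≤ n ∧ ∃ H : Fin n → Set X, (∀ i, H i ⊆ D') ∧ C = ⋂ i, H i ∧
      ∀ i, Convex ℝ (H i) ∧ Convex ℝ (D' \ H i) := by
  obtain ⟨F, hF, hF1, hF2⟩ := h.stone hC
  obtain ⟨n, f, -, hf⟩ := hF.fin_param
  have hfF : ∀ j, f j ∈ F := fun j => hf ▸ Set.mem_range_self j
  refine ⟨n + 1, by omega, fun i => D' ∩ (Fin.cons Set.univ (fun j => (f j)ᶜ) : Fin (n + 1) → Set X) i,
    fun i => Set.inter_subset_left, ?_, ?_⟩
  · apply Set.Subset.antisymm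
    · intro c hc
      refine Set.mem_iInter.2 fun i => ⟨hCD hc, ?_⟩
      refine Fin.cases ?_ (fun j => ?_) i
      · simp
      · simp only [Fin.cons_succ]
        exact (hF1 _ (hfF j)).2.2 hc
    · intro z hz
      rw [Set.mem_iInter] at hz
      have hzD : z ∈ D' := (hz 0).1
      by_contra hzC
      obtain ⟨K, hK, hzK⟩ := hF2 ⟨hzD, hzC⟩
      rw [← hf] at hK
      obtain ⟨j, rfl⟩ := hK
      have := (hz j.succ).2
      simp only [Fin.cons_succ] at this
      exact this hzK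
  · intro i
    refine Fin.cases ?_ (fun j => ?_) i
    · simp [hD, convex_empty]
    · simp only [Fin.cons_succ]
      refine ⟨hD.inter (hF1 _ (hfF j)).2.1, ?_⟩
      have : D' \ (D' ∩ (f j)ᶜ) = D' ∩ f j := by
        ext z
        simp only [Set.mem_diff, Set.mem_inter_iff, Set.mem_compl_iff]
        tauto
      rw [this]
      exact hD.inter (hF1 _ (hfF j)).1

/-- Interior point of a segment with both endpoints outside of a set containing the point. -/
theorem Hid.exists_mem_Ioo {C : Set X} {x y : X} (h : Hid C x y) (hx : x ∉ C) (hy : y ∉ C) :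
    ∃ s : ℝ, 0 < s ∧ s < 1 ∧ (1 - s) • x + s • y ∈ C := by
  obtain ⟨c, hc, hcC⟩ := h
  rw [segment_eq_image] at hc
  obtain ⟨s, ⟨hs0, hs1⟩, rfl⟩ := hc
  refine ⟨s, lt_of_le_of_ne hs0 ?_, lt_of_le_of_ne hs1 ?_, hcC⟩
  · rintro rfl
    apply hx
    simpa using hcC
  · rintro rfl
    apply hy
    simpa using hcC

theorem Hid.symm {C : Set X} {x y : X} (h : Hid C x y) : Hid C y x := by
  unfold Hid at *
  rwa [segment_symm]

theorem not_hid_self {C : Set X} {x : X} (hx : x ∉ C) : ¬ Hid C x x := by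
  rintro ⟨c, hc, hcC⟩
  rw [segment_same] at hc
  rw [Set.mem_singleton_iff.1 hc] at hcC
  exact hx hcC

/-- No three points outside of the affine span of `C` are pairwise hidden by `C`. -/
theorem no_three {C : Set X} {a b g : X} (ha : a ∉ affineSpan ℝ C) (hb : b ∉ affineSpan ℝ C)
    (hg : g ∉ affineSpan ℝ C) (hab : Hid C a b) (hbg : Hid C b g) (hga : Hid C g a) : False := by
  have hsub : C ⊆ affineSpan ℝ C := subset_affineSpan ℝ C
  obtain ⟨s, hs0, hs1, h1⟩ := hab.exists_mem_Ioo (fun h => ha (hsub h)) (fun h => hb (hsub h))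
  obtain ⟨t, ht0, ht1, h2⟩ := hbg.exists_mem_Ioo (fun h => hb (hsub h)) (fun h => hg (hsub h))
  obtain ⟨r, hr0, hr1, h3⟩ := hga.exists_mem_Ioo (fun h => hg (hsub h)) (fun h => ha (hsub h))
  set c1 := (1 - s) • a + s • b with hc1
  set c2 := (1 - t) • b + t • g with hc2
  set c3 := (1 - r) • g + r • a with hc3
  have hW2 : c2 - c1 ∈ (affineSpan ℝ C).direction :=
    AffineSubspace.vsub_mem_direction (hsub h2) (hsub h1)
  have hW3 : c3 - c1 ∈ (affineSpan ℝ C).direction :=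
    AffineSubspace.vsub_mem_direction (hsub h3) (hsub h1)
  -- coefficients
  have hpos : 0 < (1 - t) * (1 - r) * (1 - s) + t * s * r := by
    have : 0 < (1 - t) * (1 - r) * (1 - s) := by
      apply mul_pos (mul_pos _ _) <;> linarith
    have : 0 < t * s * r := by positivity
    linarith
  have key : ((1 - t) * (1 - r) * (1 - s) + t * s * r) • (a - c1) =
      (-(s * (1 - r))) • (c2 - c1) + (t * s) • (c3 - c1) := by
    rw [hc2, hc3, hc1]
    module
  have hmem : ((1 - t) * (1 - r) * (1 - s) + t * s * r) • (a - c1) ∈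
      (affineSpan ℝ C).direction := by
    rw [key]
    exact Submodule.add_mem _ (Submodule.smul_mem _ _ hW2) (Submodule.smul_mem _ _ hW3)
  have hmem2 : a - c1 ∈ (affineSpan ℝ C).direction := by
    have := Submodule.smul_mem _ ((1 - t) * (1 - r) * (1 - s) + t * s * r)⁻¹ hmem
    rwa [smul_smul, inv_mul_cancel₀ hpos.ne', one_smul] at this
  apply ha
  have := AffineSubspace.vadd_mem_of_mem_direction hmem2 (hsub h1)
  simpa using this

/-- Polyhedric implies that no infinite set is hidden. -/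
theorem no_infinite_of_polyhedric {C D : Set X} 
    (h : ∃ n : ℕ, 1 ≤ n ∧ ∃ H : Fin n → Set X,
      (∀ i, H i ⊆ D ∩ (affineSpan ℝ C : Set X)) ∧ C = ⋂ i, H i ∧
      ∀ i, Convex ℝ (H i) ∧ Convex ℝ ((D ∩ (affineSpan ℝ C : Set X)) \ H i))
    (A : Set X) (hA : A.Infinite) (hAD : A ⊆ D \ C)
    (hH : ∀ a ∈ A, ∀ b ∈ A, a ≠ b → Hid C a b) : False := by
  classical
  obtain ⟨n, -, H, -, hCH, hHc⟩ := h
  set L : Set X := (affineSpan ℝ C : Set X) with hL
  have hfin : (A \ L).Finite := by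
    by_contra hinf
    obtain ⟨t, htA, ht⟩ := Set.Infinite.exists_subset_card_eq hinf 3
    obtain ⟨a, b, g, hab, hag, hbg, rfl⟩ := Finset.card_eq_three.1 ht
    have ha := htA (show a ∈ (({a, b, g} : Finset X) : Set X) by simp)
    have hb := htA (show b ∈ (({a, b, g} : Finset X) : Set X) by simp)
    have hg := htA (show g ∈ (({a, b, g} : Finset X) : Set X) by simp)
    exact no_three ha.2 hb.2 hg.2 (hH a ha.1 b hb.1 hab) (hH b hb.1 g hg.1 hbg)
      (hH g hg.1 a ha.1 hag.symm)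
  have hinf : (A ∩ L).Infinite := by
    intro hf
    apply hA
    rw [← Set.inter_union_diff A L]
    exact hf.union hfin
  have hcov : A ∩ L ⊆ ⋃ i, (A ∩ L) ∩ ((D ∩ L) \ H i) := by
    intro z hz
    have hzC : z ∉ ⋂ i, H i := by
      rw [← hCH]
      exact (hAD hz.1).2
    rw [Set.mem_iInter] at hzC
    push Not at hzC
    obtain ⟨i, hi⟩ := hzC
    exact Set.mem_iUnion.2 ⟨i, hz, ⟨(hAD hz.1).1, hz.2⟩, hi⟩
  have hex : ∃ i, ((A ∩ L) ∩ ((D ∩ L) \ H i)).Infinite := by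
    by_contra hne
    push Not at hne
    apply hinf
    exact (Set.finite_iUnion hne).subset hcov
  obtain ⟨i, hi⟩ := hex
  obtain ⟨t, htA, ht⟩ := Set.Infinite.exists_subset_card_eq hi 2
  obtain ⟨a, b, hab, rfl⟩ := Finset.card_eq_two.1 ht
  have ha := htA (show a ∈ (({a, b} : Finset X) : Set X) by simp)
  have hb := htA (show b ∈ (({a, b} : Finset X) : Set X) by simp)
  obtain ⟨c, hc, hcC⟩ := hH a ha.1.1 b hb.1.1 hab
  have hcH : c ∈ (D ∩ L) \ H i := (hHc i).2.segment_subset ha.2 hb.2 hc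
  rw [hCH] at hcC
  exact hcH.2 (Set.mem_iInter.1 hcC i)

end Pool.Agent.V11112.HS
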