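import Mathlib
import Pool.Agent.V11112.HS1

set_option autoImplicit false

namespace Pool.Agent.V11112.HS

variable {X : Type*} [AddCommGroup X] [Module ℝ X]

/-- Compactness: if all finite subsets can be covered by `m + 1` convex sets disjoint from `C`,
then so can the whole set. -/
theorem covN_of_finite {C Z : Set X} {m : ℕ}
    (h : ∀ F : Finset X, (F : Set X) ⊆ Z → CovN C m (F : Set X)) : CovN C m Z := by
  classical
  have h' : ∀ F : Finset X, ∃ χ : X → Fin (m + 1), ∃ K : Fin (m + 1) → Set X,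
      (∀ i, Convex ℝ (K i) ∧ Disjoint (K i) C) ∧ ∀ z ∈ F, z ∈ Z → z ∈ K (χ z) := by
    intro F
    obtain ⟨K, hK1, hK2⟩ := h (F.filter (fun z => z ∈ Z)) (by
      intro z hz
      simpa using (Finset.mem_filter.1 (Finset.mem_coe.1 hz)).2)
    have : ∀ z : X, ∃ i : Fin (m + 1), z ∈ F → z ∈ Z → z ∈ K i := by
      intro z
      by_cases hz : z ∈ F ∧ z ∈ Z
      · have := hK2 (show z ∈ ((F.filter (fun z => z ∈ Z) : Finset X) : Set X) by
          simpa using hz)
        obtain ⟨i, hi⟩ := Set.mem_iUnion.1 this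
        exact ⟨i, fun _ _ => hi⟩
      · exact ⟨0, fun h1 h2 => absurd ⟨h1, h2⟩ hz⟩
    choose χ hχ using this
    exact ⟨χ, K, hK1, fun z hz1 hz2 => hχ z hz1 hz2⟩
  choose χ K hK hχ using h'
  let U : Ultrafilter (Finset X) := Ultrafilter.of Filter.atTop
  have hU : (U : Filter (Finset X)) ≤ Filter.atTop := Ultrafilter.of_le _
  have hlim : ∀ z : X, ∃ i : Fin (m + 1), ∀ᶠ F in (U : Filter (Finset X)), χ F z = i := by
    intro z
    obtain ⟨i, hi⟩ := (U.map (fun F => χ F z)).eq_pure_of_finite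
    refine ⟨i, ?_⟩
    have h1 : ({i} : Set (Fin (m + 1))) ∈ (U.map (fun F => χ F z)) := by
      rw [hi]
      simp
    exact h1
  choose ψ hψ using hlim
  refine ⟨fun i => convexHull ℝ {z ∈ Z | ψ z = i}, fun i => ⟨convex_convexHull ℝ _, ?_⟩, ?_⟩
  · rw [Set.disjoint_left]
    intro c hc hcC
    simp only at hc
    rw [convexHull_eq_union_convexHull_finite_subsets] at hc
    simp only [Set.mem_iUnion] at hc
    obtain ⟨T, hT, hcT⟩ := hc
    have h1 : ∀ᶠ F in (U : Filter (Finset X)), T ⊆ F :=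
      hU (Filter.mem_atTop T)
    have h2 : ∀ᶠ F in (U : Filter (Finset X)), ∀ z ∈ T, χ F z = ψ z := by
      rw [Filter.eventually_all_finset]
      intro z _
      exact hψ z
    obtain ⟨F, hF1, hF2⟩ := (h1.and h2).exists
    have hTK : (T : Set X) ⊆ K F i := by
      intro z hz
      have hz1 := hT hz
      have := hχ F z (hF1 (Finset.mem_coe.1 hz)) hz1.1
      rwa [hF2 z (Finset.mem_coe.1 hz), hz1.2] at this
    exact Set.disjoint_left.1 (hK F i).2 (convexHull_min hTK (hK F i).1 hcT) hcC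
  · intro z hz
    exact Set.mem_iUnion.2 ⟨ψ z, subset_convexHull ℝ _ ⟨hz, rfl⟩⟩

/-- A point in the affine span belongs to the affine span of a countable subset. -/
theorem exists_countable_affineSpan {C : Set X} {z : X} (hz : z ∈ affineSpan ℝ C) :
    ∃ T : Set X, T ⊆ C ∧ T.Countable ∧ z ∈ affineSpan ℝ T := by
  refine affineSpan_induction (p := fun z => ∃ T : Set X, T ⊆ C ∧ T.Countable ∧
    z ∈ affineSpan ℝ T) hz ?_ ?_
  · intro x hx
    exact ⟨{x}, by simpa using hx, Set.countable_singleton x, by simp⟩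
  · rintro c u v w ⟨T1, h1, h1', h1''⟩ ⟨T2, h2, h2', h2''⟩ ⟨T3, h3, h3', h3''⟩
    refine ⟨T1 ∪ T2 ∪ T3, Set.union_subset (Set.union_subset h1 h2) h3,
      (h1'.union h2').union h3', ?_⟩
    have e1 : u ∈ affineSpan ℝ (T1 ∪ T2 ∪ T3) := affineSpan_mono ℝ
      (fun x hx => Or.inl (Or.inl hx)) h1''
    have e2 : v ∈ affineSpan ℝ (T1 ∪ T2 ∪ T3) := affineSpan_mono ℝ
      (fun x hx => Or.inl (Or.inr hx)) h2''
    have e3 : w ∈ affineSpan ℝ (T1 ∪ T2 ∪ T3) := affineSpan_mono ℝ
      (fun x hx => Or.inr hx) h3''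
    exact AffineSubspace.smul_vsub_vadd_mem _ c e1 e2 e3

/-- If `E \ C` is not finitely coverable, the same is true for a subset lying in the affine span of
a sequence of points of `C`. -/
theorem exists_seq_not_cov {C Z : Set X} (hZ : Z ⊆ (affineSpan ℝ C : Set X)) (h : ¬ Cov C Z) :
    ∃ d : ℕ → X, (∀ i, d i ∈ C) ∧ ¬ Cov C {z ∈ Z | z ∈ affineSpan ℝ (Set.range d)} := by
  classical
  have h1 : ∀ m : ℕ, ∃ F : Finset X, (F : Set X) ⊆ Z ∧ ¬ CovN C m (F : Set X) := by
    intro m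
    by_contra hne
    push Not at hne
    exact h (covN_of_finite hne).cov
  choose F hFZ hF using h1
  have h2 : ∀ z : X, ∃ T : Set X, z ∈ affineSpan ℝ C → (T ⊆ C ∧ T.Countable ∧
      z ∈ affineSpan ℝ T) := by
    intro z
    by_cases hz : z ∈ affineSpan ℝ C
    · obtain ⟨T, hT⟩ := exists_countable_affineSpan hz
      exact ⟨T, fun _ => hT⟩
    · exact ⟨∅, fun h => absurd h hz⟩
  choose T hT using h2
  set Q : Set X := ⋃ m : ℕ, ⋃ z ∈ F m, T z with hQ
  have hQC : Q ⊆ C := by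
    intro q hq
    simp only [hQ, Set.mem_iUnion] at hq
    obtain ⟨m, z, hz, hq⟩ := hq
    exact (hT z (hZ (hFZ m hz))).1 hq
  have hQc : Q.Countable := by
    refine Set.countable_iUnion fun m => ?_
    refine (F m).countable_toSet.biUnion fun z hz => ?_
    exact (hT z (hZ (hFZ m hz))).2.1
  have hQz : ∀ m, ∀ z ∈ F m, z ∈ affineSpan ℝ Q := by
    intro m z hz
    have h3 := (hT z (hZ (hFZ m hz))).2.2
    refine affineSpan_mono ℝ ?_ h3
    intro q hq
    simp only [hQ, Set.mem_iUnion]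
    exact ⟨m, z, hz, hq⟩
  have hQne : Q.Nonempty := by
    by_contra hne
    rw [Set.not_nonempty_iff_eq_empty] at hne
    apply hF 0
    refine ⟨fun _ => ∅, fun _ => ⟨convex_empty, Set.empty_disjoint C⟩, ?_⟩
    intro z hz
    have := hQz 0 z hz
    rw [hne, AffineSubspace.span_empty] at this
    exact absurd this (AffineSubspace.notMem_bot ℝ X z)
  obtain ⟨d, hd⟩ := hQc.exists_eq_range hQne
  refine ⟨d, fun i => hQC (hd ▸ Set.mem_range_self i), ?_⟩
  rw [← hd]
  intro hcov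
  obtain ⟨m, hm⟩ := hcov.exists_covN
  exact hF m (hm.mono fun z hz => ⟨hFZ m hz, hQz m z hz⟩)

/-- The set of points hidden from `x` is convex. -/
theorem convex_hid {C : Set X} (hC : Convex ℝ C) {x : X} (hx : x ∉ C) :
    Convex ℝ {y | Hid C x y} := by
  intro y1 h1 y2 h2 a b ha hb hab
  simp only [Set.mem_setOf_eq] at *
  rcases eq_or_lt_of_le ha with rfl | ha
  · simp only [zero_add] at hab
    subst hab
    simpa using h2
  rcases eq_or_lt_of_le hb with rfl | hb
  · simp only [add_zero] at hab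
    subst hab
    simpa using h1
  obtain ⟨c1, hc1, hc1C⟩ := h1
  obtain ⟨c2, hc2, hc2C⟩ := h2
  rw [segment_eq_image] at hc1 hc2
  obtain ⟨t1, ⟨ht10, ht11⟩, rfl⟩ := hc1
  obtain ⟨t2, ⟨ht20, ht21⟩, rfl⟩ := hc2
  have ht1 : 0 < t1 := lt_of_le_of_ne ht10 (by
    rintro rfl
    apply hx
    simpa using hc1C)
  have ht2 : 0 < t2 := lt_of_le_of_ne ht20 (by
    rintro rfl
    apply hx
    simpa using hc2C)
  have hS : 1 ≤ a / t1 + b / t2 := by
    have e1 : a ≤ a / t1 := by
      rw [le_div_iff₀ ht1]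
      nlinarith
    have e2 : b ≤ b / t2 := by
      rw [le_div_iff₀ ht2]
      nlinarith
    linarith
  have hSpos : 0 < a / t1 + b / t2 := by linarith
  set S := a / t1 + b / t2 with hSdef
  have hl1 : 0 ≤ (a / t1) / S := by positivity
  have hl2 : 0 ≤ (b / t2) / S := by positivity
  have hl : (a / t1) / S + (b / t2) / S = 1 := by
    rw [← add_div, ← hSdef]
    exact div_self hSpos.ne'
  refine ⟨_, ?_, hC hc1C hc2C hl1 hl2 hl⟩
  rw [segment_eq_image]
  refine ⟨1 / S, ⟨by positivity, ?_⟩, ?_⟩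
  · rw [div_le_one hSpos]
    exact hS
  · have e1 : (a / t1) / S * t1 = 1 / S * a := by
      field_simp
    have e2 : (b / t2) / S * t2 = 1 / S * b := by
      field_simp
    have e3 : (a / t1) / S * (1 - t1) + (b / t2) / S * (1 - t2) = 1 - 1 / S := by
      have : (a / t1) / S * (1 - t1) + (b / t2) / S * (1 - t2) =
          ((a / t1) / S + (b / t2) / S) - ((a / t1) / S * t1 + (b / t2) / S * t2) := by ring
      rw [this, hl, e1, e2, ← mul_add, hab, mul_one]
    simp only [smul_add, smul_smul]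
    rw [e1, e2, ← e3]
    module

/-- The greedy argument: if no infinite set is hidden, there is a minimal bad convex set. -/
theorem exists_minimal_bad {C D' : Set X} (hC : Convex ℝ C) (hD : Convex ℝ D') (hCD : C ⊆ D')
    (hno : ∀ A : Set X, A.Infinite → A ⊆ D' \ C →
      (∀ a ∈ A, ∀ b ∈ A, a ≠ b → Hid C a b) → False)
    (hbad : ¬ Cov C (D' \ C)) :
    ∃ E : Set X, Convex ℝ E ∧ C ⊆ E ∧ E ⊆ D' ∧ ¬ Cov C (E \ C) ∧
      ∀ x ∈ E \ C, Cov C ((E ∩ {y | Hid C x y}) \ C) := by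
  classical
  by_contra hcon
  push Not at hcon
  let Bad : Set X → Prop := fun E => Convex ℝ E ∧ C ⊆ E ∧ E ⊆ D' ∧ ¬ Cov C (E \ C)
  have hstep : ∀ E : {E : Set X // Bad E}, ∃ x : X, x ∈ E.1 \ C ∧
      Bad (E.1 ∩ {y | Hid C x y}) := by
    rintro ⟨E, hE1, hE2, hE3, hE4⟩
    obtain ⟨x, hx, hx2⟩ := hcon E hE1 hE2 hE3 hE4
    refine ⟨x, hx, hE1.inter (convex_hid hC hx.2), ?_, Set.inter_subset_left.trans hE3, hx2⟩
    intro c hc
    exact ⟨hE2 hc, c, right_mem_segment ℝ x c, hc⟩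
  choose pt hpt1 hpt2 using hstep
  let E : ℕ → {E : Set X // Bad E} := fun n =>
    Nat.rec ⟨D', hD, hCD, subset_rfl, hbad⟩ (fun _ E => ⟨E.1 ∩ {y | Hid C (pt E) y}, hpt2 E⟩) n
  have hEsucc : ∀ n, (E (n + 1)).1 = (E n).1 ∩ {y | Hid C (pt (E n)) y} := fun n => rfl
  have hanti : ∀ n k, (E (n + k)).1 ⊆ (E n).1 := by
    intro n k
    induction k with
    | zero => exact subset_rfl
    | succ k ih =>
      rw [← add_assoc, hEsucc]
      exact Set.inter_subset_left.trans ih
  have hhid : ∀ n m, n < m → Hid C (pt (E n)) (pt (E m)) := by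
    intro n m hnm
    obtain ⟨k, rfl⟩ := Nat.exists_eq_add_of_lt hnm
    have h1 : pt (E (n + k + 1)) ∈ (E (n + k + 1)).1 := (hpt1 _).1
    have h2 : (E (n + 1 + k)).1 ⊆ (E (n + 1)).1 := hanti (n + 1) k
    rw [show n + 1 + k = n + k + 1 by ring] at h2
    have h3 := h2 h1
    rw [hEsucc] at h3
    exact h3.2
  have hinj : Function.Injective (fun n => pt (E n)) := by
    intro n m hnm
    simp only at hnm
    by_contra hne
    rcases lt_or_gt_of_ne hne with h | h
    · have := hhid n m h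
      rw [← hnm] at this
      exact not_hid_self (hpt1 (E n)).2 this
    · have := hhid m n h
      rw [hnm] at this
      exact not_hid_self (hpt1 (E m)).2 this
  refine hno (Set.range fun n => pt (E n)) (Set.infinite_range_of_injective hinj) ?_ ?_
  · rintro _ ⟨n, rfl⟩
    exact ⟨(E n).2.2.2.1 (hpt1 (E n)).1, (hpt1 (E n)).2⟩
  · rintro _ ⟨n, rfl⟩ _ ⟨m, rfl⟩ hne
    rcases lt_trichotomy n m with h | h | h
    · exact hhid n m h
    · exact absurd (by rw [h]) hne
    · exact (hhid m n h).symm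

end Pool.Agent.V11112.HS
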