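import Mathlib
import Pool.Agent.V11112.HS2

set_option autoImplicit false

namespace Pool.Agent.V11112.HS

section Alg

variable {X : Type*} [AddCommGroup X] [Module ℝ X]

/-- Directions in which `C` extends on both sides of `p`. -/
def Dir (C : Set X) (p v : X) : Prop := ∃ θ : ℝ, 0 < θ ∧ p + θ • v ∈ C ∧ p - θ • v ∈ C

/-- Shrinking: if `p ∈ C` and `p + θ v ∈ C` then `p + θ' v ∈ C` for `0 ≤ θ' ≤ θ`. -/
theorem shrink {C : Set X} (hC : Convex ℝ C) {p v : X} (hp : p ∈ C) {θ θ' : ℝ}
    (h0 : 0 ≤ θ') (h1 : θ' ≤ θ) (h : p + θ • v ∈ C) : p + θ' • v ∈ C := by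
  rcases eq_or_lt_of_le h0 with rfl | h0
  · simpa using hp
  have hθ : 0 < θ := h0.trans_le h1
  have := hC hp h (a := 1 - θ' / θ) (b := θ' / θ)
    (by rw [sub_nonneg, div_le_one hθ]; exact h1) (by positivity) (by ring)
  have e : (1 - θ' / θ) • p + (θ' / θ) • (p + θ • v) = p + θ' • v := by
    have e1 : (θ' / θ) * θ = θ' := by field_simp
    rw [smul_add, smul_smul, e1]
    module
  rwa [e] at this

theorem Dir.exists_le {C : Set X} (hC : Convex ℝ C) {p v : X} (hp : p ∈ C) (h : Dir C p v)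
    {M : ℝ} (hM : 0 < M) : ∃ θ : ℝ, 0 < θ ∧ θ ≤ M ∧ p + θ • v ∈ C ∧ p - θ • v ∈ C := by
  obtain ⟨θ, hθ, h1, h2⟩ := h
  refine ⟨min θ M, lt_min hθ hM, min_le_right _ _,
    shrink hC hp (lt_min hθ hM).le (min_le_left _ _) h1, ?_⟩
  have h3 : p + θ • (-v) ∈ C := by
    rw [smul_neg, ← sub_eq_add_neg]
    exact h2
  have := shrink hC hp (lt_min hθ hM).le (min_le_left _ _) h3
  rwa [smul_neg, ← sub_eq_add_neg] at this

theorem Dir.add {C : Set X} (hC : Convex ℝ C) {p v w : X} (hp : p ∈ C) (hv : Dir C p v)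
    (hw : Dir C p w) : Dir C p (v + w) := by
  obtain ⟨θ, hθ, h1, h2⟩ := hv
  obtain ⟨θ', hθ', hle, h1', h2'⟩ := hw.exists_le hC hp hθ
  have e1 := shrink hC hp hθ'.le hle h1
  have e2 : p - θ' • v ∈ C := by
    have h3 : p + θ • (-v) ∈ C := by
      rw [smul_neg, ← sub_eq_add_neg]
      exact h2
    have := shrink hC hp hθ'.le hle h3
    rwa [smul_neg, ← sub_eq_add_neg] at this
  refine ⟨θ' / 2, by positivity, ?_, ?_⟩
  · have := hC e1 h1' (a := 1 / 2) (b := 1 / 2) (by norm_num) (by norm_num) (by norm_num)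
    convert this using 1
    module
  · have := hC e2 h2' (a := 1 / 2) (b := 1 / 2) (by norm_num) (by norm_num) (by norm_num)
    convert this using 1
    module

theorem Dir.smul {C : Set X} {p v : X} (hp : p ∈ C) (hv : Dir C p v) (r : ℝ) :
    Dir C p (r • v) := by
  obtain ⟨θ, hθ, h1, h2⟩ := hv
  rcases lt_trichotomy r 0 with hr | rfl | hr
  · refine ⟨θ / (-r), div_pos hθ (by linarith), ?_, ?_⟩
    · have e : (θ / (-r)) • r • v = -(θ • v) := by
        rw [smul_smul, ← neg_smul]
        congr 1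
        have : r ≠ 0 := hr.ne
        field_simp
      rw [e, ← sub_eq_add_neg]
      exact h2
    · have e : (θ / (-r)) • r • v = -(θ • v) := by
        rw [smul_smul, ← neg_smul]
        congr 1
        have : r ≠ 0 := hr.ne
        field_simp
      rw [e, sub_neg_eq_add]
      exact h1
  · exact ⟨1, one_pos, by simpa using hp, by simpa using hp⟩
  · have e : (θ / r) • r • v = θ • v := by
      rw [smul_smul]
      congr 1
      field_simp
    refine ⟨θ / r, div_pos hθ hr, ?_, ?_⟩
    · rw [e]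
      exact h1
    · rw [e]
      exact h2

theorem Dir.sub {C : Set X} (hC : Convex ℝ C) {p v w : X} (hp : p ∈ C) (hv : Dir C p v)
    (hw : Dir C p w) : Dir C p (v - w) := by
  have := hv.add hC hp (hw.smul hp (-1))
  convert this using 1
  module

/-- Directions towards all points of the affine span. -/
theorem Dir.of_affineSpan {C : Set X} (hC : Convex ℝ C) {p : X} (hp : p ∈ C) {T : Set X}
    (hT : ∀ d ∈ T, Dir C p (d - p)) {z : X} (hz : z ∈ affineSpan ℝ T) : Dir C p (z - p) := by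
  refine affineSpan_induction (p := fun z => Dir C p (z - p)) hz hT ?_
  intro c u v w hu hv hw
  have h1 : Dir C p ((c • ((u - p) - (v - p))) + (w - p)) :=
    ((hu.sub hC hp hv).smul hp c).add hC hp hw
  convert h1 using 1
  simp only [vsub_eq_sub, vadd_eq_add]
  module

/-- From `c* = ω d + (1 - ω) e` one gets the two-sided direction `d - c*`. -/
theorem Dir.of_comb {C : Set X} (hC : Convex ℝ C) {p d e : X} {ω : ℝ} (h0 : 0 < ω) (h1 : ω < 1)
    (hd : d ∈ C) (he : e ∈ C) (hp : p = ω • d + (1 - ω) • e) : Dir C p (d - p) := by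
  have hpC : p ∈ C := by
    rw [hp]
    exact hC hd he h0.le (by linarith) (by ring)
  refine ⟨ω, h0, ?_, ?_⟩
  · have := hC hpC hd (a := 1 - ω) (b := ω) (by linarith) h0.le (by ring)
    convert this using 1
    module
  · have := hC hpC he (a := ω) (b := 1 - ω) h0.le (by linarith) (by ring)
    convert this using 1
    have : p - ω • (d - p) = ω • p + (1 - ω) • e := by
      have h3 : p - ω • (d - p) - (ω • p + (1 - ω) • e) = p - (ω • d + (1 - ω) • e) := by
        module
      rw [← hp, sub_self] at h3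
      exact sub_eq_zero.1 h3
    exact this

/-- Lemma II: a point having a positive `c*`-component can be moved towards `u` inside `C`. -/
theorem move {C : Set X} (hC : Convex ℝ C) {p u c'' q : X} {σ : ℝ} (hp : p ∈ C) (hc : c'' ∈ C)
    (h0 : 0 < σ) (h1 : σ ≤ 1) (hq : q = σ • p + (1 - σ) • c'') (hu : Dir C p (u - p)) :
    ∃ η : ℝ, 0 < η ∧ η < 1 ∧ (1 - η) • q + η • u ∈ C := by
  obtain ⟨θ, hθ, hθ1, h2, -⟩ := hu.exists_le hC hp one_pos
  have hqC : q ∈ C := by
    rw [hq]
    exact hC hp hc h0.le (by linarith) (by ring)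
  have hρ : 0 < σ * θ := by positivity
  have hρ1 : σ * θ ≤ 1 := by nlinarith
  -- the point q + ρ (u - p)
  have e1 : q + (σ * θ) • (u - p) ∈ C := by
    have := hC h2 hc h0.le (by linarith : 0 ≤ 1 - σ) (by ring)
    convert this using 1
    rw [hq]
    module
  have e2 : (1 - σ * θ) • q + (σ * θ) • p ∈ C :=
    hC hqC hp (by linarith) hρ.le (by ring)
  refine ⟨σ * θ / 2, by positivity, by linarith, ?_⟩
  have := hC e1 e2 (a := 1 / 2) (b := 1 / 2) (by norm_num) (by norm_num) (by norm_num)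
  convert this using 1
  module

/-- The planar argument. -/
theorem planar {C : Set X} {c c' y u : X} {α τ : ℝ} (hα0 : 0 < α) (hα1 : α < 1)
    (hc' : c' = (1 - α) • c + α • y) (hτ0 : 0 < τ) (hτ1 : τ < 1)
    (hmax : ∀ t, τ < t → t ≤ 1 → (1 - t) • c + t • u ∉ C)
    (hq : (1 - τ) • c' + τ • u ∈ C) :
    ∃ t : ℝ, 0 < t ∧ t < 1 ∧ (1 - t) • c + t • u ∉ C ∧ Hid C y ((1 - t) • c + t • u) := by
  set l := 1 - α * (1 - τ) with hl
  have hpr : 0 < α * (1 - τ) := mul_pos hα0 (by linarith)
  have hpr2 : 0 < (1 - α) * (1 - τ) := mul_pos (by linarith) (by linarith)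
  have hlτ : τ < l := by
    rw [hl]
    nlinarith
  have hl1 : l < 1 := by rw [hl]; linarith
  have hl0 : 0 < l := hτ0.trans hlτ
  have ht1 : τ / l < 1 := by
    rw [div_lt_one hl0]
    exact hlτ
  have ht0 : 0 < τ / l := by positivity
  have htτ : τ < τ / l := by
    rw [lt_div_iff₀ hl0]
    nlinarith
  refine ⟨τ / l, ht0, ht1, hmax _ htτ ht1.le, (1 - τ) • c' + τ • u, ?_, hq⟩
  rw [segment_symm, segment_eq_image]
  refine ⟨1 - l, ⟨by linarith, by linarith⟩, ?_⟩
  simp only [sub_sub_cancel, smul_add, smul_smul]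
  have e1 : l * (τ / l) = τ := by field_simp
  have e2 : l * (1 - τ / l) = (1 - τ) * (1 - α) := by
    rw [mul_sub, e1, hl]
    ring
  rw [e1, e2, hc', hl]
  module

end Alg

section Top

variable {X : Type*} [AddCommGroup X] [Module ℝ X] [TopologicalSpace X]
  [IsTopologicalAddGroup X] [ContinuousSMul ℝ X]

/-- The algebraic step for the sequence of convex combinations. -/
theorem comb_step {C : Set X} (hC : Convex ℝ C) {c d d' e : X} {a w b : ℝ} 
    (ha1 : a < 1) (hw0 : 0 < w) (hw1 : w < 1) (hd : d ∈ C) (hd' : d' ∈ C)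
    (he : e ∈ C) (hc : c = a • d + (1 - a) • e) (hb : b ≤ (1 - w) * a) :
    ∃ e' ∈ C, (1 - w) • c + w • d' = b • d + (1 - b) • e' := by
  have hb1 : 0 < 1 - b := by nlinarith
  -- e' = ( ((1-w) a - b) d + (1-w)(1-a) e + w d' ) / (1 - b)
  have hne : (1 - b) ≠ 0 := hb1.ne'
  have hx : ∃ x ∈ C, ((1 - w) * (1 - a) + w) • x = ((1 - w) * (1 - a)) • e + w • d' := by
    have hpos : 0 < (1 - w) * (1 - a) + w := by
      have : 0 < (1 - w) * (1 - a) := mul_pos (by linarith) (by linarith)
      linarith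
    have hp1 : 0 ≤ (1 - w) * (1 - a) := (mul_pos (by linarith) (by linarith)).le
    refine ⟨((1 - w) * (1 - a) / ((1 - w) * (1 - a) + w)) • e +
      (w / ((1 - w) * (1 - a) + w)) • d', hC he hd' (by positivity) (by positivity) ?_, ?_⟩
    · rw [← add_div]
      exact div_self hpos.ne'
    · rw [smul_add, smul_smul, smul_smul, mul_div_cancel₀ _ hpos.ne', mul_div_cancel₀ _ hpos.ne']
  obtain ⟨x, hxC, hx⟩ := hx
  refine ⟨(((1 - w) * a - b) / (1 - b)) • d + (((1 - w) * (1 - a) + w) / (1 - b)) • x,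
    hC hd hxC ?_ ?_ ?_, ?_⟩
  · apply div_nonneg (by linarith) hb1.le
  · apply div_nonneg _ hb1.le
    have : 0 < (1 - w) * (1 - a) := mul_pos (by linarith) (by linarith)
    linarith
  · rw [← add_div]
    rw [div_eq_one_iff_eq hne]
    ring
  · rw [smul_add, smul_smul, smul_smul, mul_div_cancel₀ _ hne, mul_div_cancel₀ _ hne, hx, hc]
    module

variable [TopologicalSpace.IsCompletelyMetrizableSpace X]

/-- Existence of the quasi-interior type point `c*` with respect to a sequence in `C`. -/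
theorem exists_star {C : Set X} (hC : Convex ℝ C) (hCc : IsClosed C) (d : ℕ → X)
    (hd : ∀ i, d i ∈ C) :
    ∃ p ∈ C, ∀ i, Dir C p (d i - p) := by
  letI := TopologicalSpace.upgradeIsCompletelyMetrizable X
  have hw : ∀ (n : ℕ) (c : X), ∃ w : ℝ, 0 < w ∧ w ≤ (1 / 2) ^ (n + 2) ∧
      dist c ((1 - w) • c + w • d (n + 1)) ≤ 1 * (1 / 2) ^ n := by
    intro n c
    have hcont : Continuous fun w : ℝ => dist c ((1 - w) • c + w • d (n + 1)) := by
      fun_prop
    have h0 : dist c ((1 - (0 : ℝ)) • c + (0 : ℝ) • d (n + 1)) = 0 := by simp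
    have hev : ∀ᶠ w in nhds (0 : ℝ), dist c ((1 - w) • c + w • d (n + 1)) < (1 / 2) ^ n := by
      apply hcont.continuousAt.eventually_lt continuousAt_const
      rw [h0]
      positivity
    rw [Metric.eventually_nhds_iff] at hev
    obtain ⟨ε, hε, hev⟩ := hev
    refine ⟨min (ε / 2) ((1 / 2) ^ (n + 2)), lt_min (by positivity) (by positivity),
      min_le_right _ _, ?_⟩
    rw [one_mul]
    apply (hev _).le
    have hpos : 0 < min (ε / 2) ((1 / 2 : ℝ) ^ (n + 2)) := lt_min (by positivity) (by positivity)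
    rw [Real.dist_eq, sub_zero, abs_of_pos hpos]
    exact (min_le_left _ _).trans_lt (by linarith)
  choose w hw0 hw1 hw2 using hw
  let c : ℕ → X := fun n => Nat.rec (d 0) (fun n c => (1 - w n c) • c + w n c • d (n + 1)) n
  have hcs : ∀ n, c (n + 1) = (1 - w n (c n)) • c n + w n (c n) • d (n + 1) := fun n => rfl
  have hc0 : c 0 = d 0 := rfl
  have hpow : ∀ n : ℕ, ((1 : ℝ) / 2) ^ (n + 2) ≤ 1 / 4 := by
    intro n
    rw [pow_add]
    have : ((1 : ℝ) / 2) ^ n ≤ 1 := pow_le_one₀ (by norm_num) (by norm_num)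
    nlinarith
  have hwlt : ∀ n, w n (c n) ≤ 1 / 4 := fun n => (hw1 n (c n)).trans (hpow n)
  have hcC : ∀ n, c n ∈ C := by
    intro n
    induction n with
    | zero => rw [hc0]; exact hd 0
    | succ n ih =>
      rw [hcs]
      exact hC ih (hd _) (by linarith [hwlt n]) (hw0 n (c n)).le (by ring)
  have hcauchy : CauchySeq c := by
    apply cauchySeq_of_le_geometric (1 / 2) 1 (by norm_num)
    intro n
    rw [hcs]
    exact hw2 n (c n)
  obtain ⟨p, hp⟩ := cauchySeq_tendsto_of_complete hcauchy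
  have hpC : p ∈ C := hCc.mem_of_tendsto hp (Filter.Eventually.of_forall hcC)
  refine ⟨p, hpC, fun i => ?_⟩
  -- start of the induction
  have hstart : ∃ A : ℝ, 0 < A ∧ A < 1 ∧ ∃ e ∈ C, c i = A • d i + (1 - A) • e := by
    cases i with
    | zero =>
      refine ⟨1 / 2, by norm_num, by norm_num, d 0, hd 0, ?_⟩
      rw [hc0]
      module
    | succ i =>
      refine ⟨w i (c i), hw0 i (c i), by linarith [hwlt i], c i, hcC i, ?_⟩
      rw [hcs]
      module
  obtain ⟨A, hA0, hA1, e0, he0, hce0⟩ := hstart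
  have hind : ∀ k, ∃ e ∈ C, c (i + k) = (A * (1 / 2 + (1 / 2) ^ (i + k + 1))) • d i +
      (1 - A * (1 / 2 + (1 / 2) ^ (i + k + 1))) • e := by
    intro k
    induction k with
    | zero =>
      have hb : A * (1 / 2 + (1 / 2) ^ (i + 0 + 1)) ≤ A := by
        have h1 : ((1 : ℝ) / 2) ^ (i + 0 + 1) ≤ 1 / 2 := by
          rw [pow_succ]
          have h3 : ((1 : ℝ) / 2) ^ (i + 0) ≤ 1 := pow_le_one₀ (by norm_num) (by norm_num)
          generalize ((1 : ℝ) / 2) ^ (i + 0) = q at h3 ⊢
          linarith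
        nlinarith
      set b := A * (1 / 2 + (1 / 2) ^ (i + 0 + 1)) with hbdef
      have hne : (1 - b) ≠ 0 := by
        have : b < 1 := hb.trans_lt hA1
        linarith
      have hb1 : 0 < 1 - b := by linarith
      refine ⟨((A - b) / (1 - b)) • d i + ((1 - A) / (1 - b)) • e0,
        hC (hd i) he0 (div_nonneg (by linarith) hb1.le) (div_nonneg (by linarith) hb1.le) ?_, ?_⟩
      · rw [← add_div, div_eq_one_iff_eq hne]
        ring
      · rw [smul_add, smul_smul, smul_smul, mul_div_cancel₀ _ hne, mul_div_cancel₀ _ hne,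
          add_zero, hce0]
        module
    | succ k ih =>
      obtain ⟨e, he, hce⟩ := ih
      rw [← add_assoc, hcs]
      have hp1 : (0 : ℝ) < (1 / 2) ^ (i + k + 1) := by positivity
      have hp2 : ((1 : ℝ) / 2) ^ (i + k + 1) ≤ 1 / 2 := by
        rw [pow_succ]
        have : ((1 : ℝ) / 2) ^ (i + k) ≤ 1 := pow_le_one₀ (by norm_num) (by norm_num)
        nlinarith
      have hp3 : ((1 : ℝ) / 2) ^ (i + k + 1 + 1) = (1 / 2) ^ (i + k + 1) / 2 := by
        rw [pow_succ]
        ring
      have hw1' := hw1 (i + k) (c (i + k))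
      have hp4 : ((1 : ℝ) / 2) ^ (i + k + 2) = (1 / 2) ^ (i + k + 1) / 2 := by
        rw [show i + k + 2 = i + k + 1 + 1 by ring, pow_succ]
        ring
      rw [hp4] at hw1'
      refine comb_step hC (a := A * (1 / 2 + (1 / 2) ^ (i + k + 1))) ?_ (hw0 _ _)
        (by linarith [hwlt (i + k)]) (hd i) (hd _) he hce ?_
      · nlinarith
      · rw [hp3]
        have hw0' := hw0 (i + k) (c (i + k))
        set W := w (i + k) (c (i + k))
        set P := ((1 : ℝ) / 2) ^ (i + k + 1)
        have : W * (1 / 2 + P) ≤ P / 2 := by nlinarith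
        have h2 : A * (1 / 2 + P / 2) ≤ A * ((1 - W) * (1 / 2 + P)) := by
          apply mul_le_mul_of_nonneg_left _ hA0.le
          linarith
        linarith
  -- lower to A / 2
  have hhalf : ∀ k, (1 - A / 2)⁻¹ • (c (i + k) - (A / 2) • d i) ∈ C := by
    intro k
    obtain ⟨e, he, hce⟩ := hind k
    set b := A * (1 / 2 + (1 / 2) ^ (i + k + 1)) with hb
    have hbA : A / 2 ≤ b := by
      rw [hb]
      have hp1 : (0 : ℝ) < (1 / 2) ^ (i + k + 1) := by positivity
      nlinarith
    have hb1 : b ≤ 1 := by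
      rw [hb]
      have hp2 : ((1 : ℝ) / 2) ^ (i + k + 1) ≤ 1 / 2 := by
        rw [pow_succ]
        have : ((1 : ℝ) / 2) ^ (i + k) ≤ 1 := pow_le_one₀ (by norm_num) (by norm_num)
        nlinarith
      nlinarith
    have hpos : 0 < 1 - A / 2 := by linarith
    have hmem := hC (hd i) he (a := (b - A / 2) / (1 - A / 2)) (b := (1 - b) / (1 - A / 2))
      (div_nonneg (by linarith) hpos.le) (div_nonneg (by linarith) hpos.le)
      (by rw [← add_div, div_eq_one_iff_eq hpos.ne']; ring)
    convert hmem using 1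
    rw [hce, div_eq_inv_mul, div_eq_inv_mul]
    module
  have hlim : Filter.Tendsto (fun k => (1 - A / 2)⁻¹ • (c (i + k) - (A / 2) • d i))
      Filter.atTop (nhds ((1 - A / 2)⁻¹ • (p - (A / 2) • d i))) := by
    have h1 : Filter.Tendsto (fun k => c (i + k)) Filter.atTop (nhds p) := by
      have := (Filter.tendsto_add_atTop_iff_nat i).2 hp
      simpa [add_comm] using this
    exact (h1.sub_const _).const_smul _
  have hmem : (1 - A / 2)⁻¹ • (p - (A / 2) • d i) ∈ C :=
    hCc.mem_of_tendsto hlim (Filter.Eventually.of_forall hhalf)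
  refine Dir.of_comb hC (ω := A / 2) (by linarith) (by linarith) (hd i) hmem ?_
  rw [smul_smul, mul_inv_cancel₀ (by linarith : (1 : ℝ) - A / 2 ≠ 0)]
  module

end Top

end Pool.Agent.V11112.HS
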