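import Mathlib
import Pool.Agent.V11112.HS3

set_option autoImplicit false

namespace Pool.Agent.V11112.HS

variable {X : Type*} [AddCommGroup X] [Module ℝ X] [TopologicalSpace X]
  [IsTopologicalAddGroup X] [ContinuousSMul ℝ X]

/-- The last parameter at which the segment from `c ∈ C` to `u ∉ C` is inside the closed convex
set `C`. -/
theorem exists_tau {C : Set X} (hC : Convex ℝ C) (hCc : IsClosed C) {c u : X} (hc : c ∈ C)
    (hu : u ∉ C) {η : ℝ} (h0 : 0 < η) (h1 : η < 1) (hη : (1 - η) • c + η • u ∈ C) :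
    ∃ τ : ℝ, 0 < τ ∧ τ < 1 ∧ (∀ t, 0 ≤ t → t ≤ τ → (1 - t) • c + t • u ∈ C) ∧
      ∀ t, τ < t → t ≤ 1 → (1 - t) • c + t • u ∉ C := by
  have hcont : Continuous fun t : ℝ => (1 - t) • c + t • u := by fun_prop
  have hcomp : IsCompact (Set.Icc (0 : ℝ) 1 ∩ (fun t : ℝ => (1 - t) • c + t • u) ⁻¹' C) :=
    isCompact_Icc.inter_right (hCc.preimage hcont)
  obtain ⟨τ, hτ, hmax⟩ := hcomp.exists_isGreatest ⟨η, ⟨h0.le, h1.le⟩, hη⟩
  have hητ : η ≤ τ := hmax ⟨⟨h0.le, h1.le⟩, hη⟩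
  refine ⟨τ, h0.trans_le hητ, lt_of_le_of_ne hτ.1.2 ?_, ?_, ?_⟩
  · rintro rfl
    apply hu
    have := hτ.2
    simpa using this
  · intro t ht0 htτ
    have h2 : c + τ • (u - c) ∈ C := by
      have h3 : (1 - τ) • c + τ • u ∈ C := hτ.2
      convert h3 using 1
      module
    have := shrink hC hc ht0 htτ h2
    convert this using 1
    module
  · intro t htτ ht1 hmem
    have hτ0 : 0 < τ := h0.trans_le hητ
    have := hmax ⟨⟨(hτ0.trans htτ).le, ht1⟩, hmem⟩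
    linarith

/-- Pushing a point outside of the closed set `C` slightly towards `p`. -/
theorem exists_push {C : Set X} (hCc : IsClosed C) {x y : X} (p : X) (hx : x ∉ C) (hy : y ∉ C) :
    ∃ δ : ℝ, 0 < δ ∧ δ < 1 ∧ (1 - δ) • x + δ • p ∉ C ∧ (1 - δ) • y + δ • p ∉ C := by
  have h1 : ∀ x : X, x ∉ C → ∀ᶠ δ in nhds (0 : ℝ), (1 - δ) • x + δ • p ∉ C := by
    intro x hx
    have hcont : Continuous fun t : ℝ => (1 - t) • x + t • p := by fun_prop
    have : (fun t : ℝ => (1 - t) • x + t • p) ⁻¹' Cᶜ ∈ nhds (0 : ℝ) := by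
      apply hcont.continuousAt.preimage_mem_nhds
      apply hCc.isOpen_compl.mem_nhds
      simpa using hx
    exact this
  have h2 := (h1 x hx).and (h1 y hy)
  rw [Metric.eventually_nhds_iff] at h2
  obtain ⟨ε, hε, h2⟩ := h2
  have hpos : 0 < min (ε / 2) (1 / 2) := lt_min (by positivity) (by norm_num)
  refine ⟨min (ε / 2) (1 / 2), hpos, (min_le_right _ _).trans_lt (by norm_num), h2 ?_⟩
  rw [Real.dist_eq, sub_zero, abs_of_pos hpos]
  exact (min_le_left _ _).trans_lt (by linarith)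

omit [TopologicalSpace X] [IsTopologicalAddGroup X] [ContinuousSMul ℝ X] in
theorem comb_right (x1 y1 : X) {r1 r2 α : ℝ} (h : (1 - α) * (1 - r1) = 1 - r2) :
    (1 - r2) • x1 + r2 • y1 = (1 - α) • ((1 - r1) • x1 + r1 • y1) + α • y1 := by
  have : r2 = 1 - (1 - α) * (1 - r1) := by linarith
  subst this
  module

omit [TopologicalSpace X] [IsTopologicalAddGroup X] [ContinuousSMul ℝ X] in
theorem comb_left (x1 y1 : X) {r1 r2 α : ℝ} (h : (1 - α) * r2 = r1) :
    (1 - r1) • x1 + r1 • y1 = (1 - α) • ((1 - r2) • x1 + r2 • y1) + α • x1 := by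
  subst h
  module

/-- The contradiction from a point `u` avoiding all enlarged covering sets. -/
theorem final_aux {C E : Set X} (hE : Convex ℝ E) (hCE : C ⊆ E) {F : Set (Set X)}
    (hF : ∀ K ∈ F, Convex ℝ K ∧ Convex ℝ Kᶜ ∧ C ⊆ Kᶜ) {y : X}
    (hcov : (E ∩ {z | Hid C y z}) \ C ⊆ ⋃₀ F) {c c' u : X} (hc : c ∈ C)
    (hu : u ∈ E) (huF : u ∉ ⋃₀ F) {α τ : ℝ} (hα0 : 0 < α) (hα1 : α < 1)
    (hc' : c' = (1 - α) • c + α • y) (hτ0 : 0 < τ) (hτ1 : τ < 1)
    (hmax : ∀ t, τ < t → t ≤ 1 → (1 - t) • c + t • u ∉ C)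
    (hq : (1 - τ) • c' + τ • u ∈ C) : False := by
  obtain ⟨t, ht0, ht1, hnot, hhid⟩ := planar hα0 hα1 hc' hτ0 hτ1 hmax hq
  have hE' : (1 - t) • c + t • u ∈ E := hE (hCE hc) hu (by linarith) ht0.le (by ring)
  obtain ⟨K, hK, hmem⟩ := hcov ⟨⟨hE', hhid⟩, hnot⟩
  have huK : u ∈ Kᶜ := fun h => huF ⟨K, hK, h⟩
  have hcK : c ∈ Kᶜ := (hF K hK).2.2 hc
  exact (hF K hK).2.1 hcK huK (by linarith : (0 : ℝ) ≤ 1 - t) ht0.le (by ring) hmem

variable [TopologicalSpace.IsCompletelyMetrizableSpace X]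

theorem main {C D' : Set X} (hC : Convex ℝ C) (hCc : IsClosed C) (hD : Convex ℝ D')
    (hCD : C ⊆ D') (hDL : D' ⊆ (affineSpan ℝ C : Set X))
    (hno : ∀ A : Set X, A.Infinite → A ⊆ D' \ C →
      (∀ a ∈ A, ∀ b ∈ A, a ≠ b → Hid C a b) → False) : Cov C (D' \ C) := by
  by_contra hbad
  obtain ⟨E, hE, hCE, hED, hEbad, hmin⟩ := exists_minimal_bad hC hD hCD hno hbad
  obtain ⟨d, hdC, hdbad⟩ := exists_seq_not_cov (C := C) (Z := E \ C)
    (fun z hz => hDL (hED hz.1)) hEbad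
  obtain ⟨p, hpC, hpd⟩ := exists_star hC hCc d hdC
  set A : Set X := {z ∈ E \ C | z ∈ affineSpan ℝ (Set.range d)} with hA
  have hdir : ∀ z ∈ A, Dir C p (z - p) := by
    intro z hz
    refine Dir.of_affineSpan hC hpC ?_ hz.2
    rintro _ ⟨i, rfl⟩
    exact hpd i
  -- a hidden pair
  have hpair : ∃ x ∈ A, ∃ y ∈ A, Hid C x y := by
    by_contra hne
    push Not at hne
    apply hdbad
    refine ⟨{A}, Set.finite_singleton A, ?_, by simp⟩
    intro K hK
    rw [Set.mem_singleton_iff] at hK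
    subst hK
    refine ⟨?_, ?_⟩
    · rw [convex_iff_segment_subset]
      intro x hx y hy z hz
      refine ⟨⟨hE.segment_subset hx.1.1 hy.1.1 hz, ?_⟩, ?_⟩
      · intro hzC
        exact hne x hx y hy ⟨z, hz, hzC⟩
      · exact (AffineSubspace.convex _).segment_subset hx.2 hy.2 hz
    · rw [Set.disjoint_left]
      intro z hz
      exact hz.1.2
  obtain ⟨x, hx, y, hy, hxy⟩ := hpair
  obtain ⟨s, hs0, hs1, hsC⟩ := hxy.exists_mem_Ioo hx.1.2 hy.1.2
  obtain ⟨δ, hδ0, hδ1, hx1, hy1⟩ := exists_push hCc p hx.1.2 hy.1.2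
  set x1 := (1 - δ) • x + δ • p with hx1d
  set y1 := (1 - δ) • y + δ • p with hy1d
  have hpE : p ∈ E := hCE hpC
  have hx1E : x1 ∈ E := hE hx.1.1 hpE (by linarith) hδ0.le (by ring)
  have hy1E : y1 ∈ E := hE hy.1.1 hpE (by linarith) hδ0.le (by ring)
  -- the direction y - x
  have hyx : Dir C p (y - x) := by
    have := (hdir y hy).sub hC hpC (hdir x hx)
    convert this using 1
    module
  obtain ⟨θ, hθ0, hθle, hθ1, hθ2⟩ := hyx.exists_le hC hpC (lt_min hs0 (sub_pos.2 hs1))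
  have hθs : θ ≤ s := hθle.trans (min_le_left _ _)
  have hθs1 : θ ≤ 1 - s := hθle.trans (min_le_right _ _)
  set ε := θ * δ / 2 with hε
  have hε0 : 0 < ε := by positivity
  have hεθ : ε < θ := by
    rw [hε]
    nlinarith
  -- shrunk points
  have hplus : p + ((1 - δ) * θ) • (y - x) ∈ C :=
    shrink hC hpC (mul_nonneg (by linarith) hθ0.le) (by nlinarith) hθ1
  have hminus : p - ((1 - δ) * θ) • (y - x) ∈ C := by
    have h3 : p + θ • (-(y - x)) ∈ C := by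
      rw [smul_neg, ← sub_eq_add_neg]
      exact hθ2
    have := shrink hC hpC (mul_nonneg (by linarith) hθ0.le : 0 ≤ (1 - δ) * θ) (by nlinarith) h3
    rwa [smul_neg, ← sub_eq_add_neg] at this
  have hform : ∀ (g : X) (r : ℝ), g ∈ C → g = p + (2 * (1 - δ) * (r - s) / δ) • (y - x) →
      ∃ c'' ∈ C, (1 - r) • x1 + r • y1 = (δ / 2) • p + (1 - δ / 2) • c'' := by
    intro g r hg hgr
    have hpos : 0 < 1 - δ / 2 := by linarith
    refine ⟨((1 - δ) / (1 - δ / 2)) • ((1 - s) • x + s • y) + (δ / 2 / (1 - δ / 2)) • g,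
      hC hsC hg (div_nonneg (by linarith) hpos.le) (div_nonneg (by linarith) hpos.le) ?_, ?_⟩
    · rw [← add_div, div_eq_one_iff_eq hpos.ne']
      ring
    · rw [smul_add (1 - δ / 2), smul_smul (1 - δ / 2), smul_smul (1 - δ / 2),
        mul_div_cancel₀ _ hpos.ne', mul_div_cancel₀ _ hpos.ne', hgr, hx1d, hy1d]
      have e1 : (δ / 2) • (p + (2 * (1 - δ) * (r - s) / δ) • (y - x)) =
          (δ / 2) • p + ((1 - δ) * (r - s)) • (y - x) := by
        rw [smul_add, smul_smul]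
        congr 2
        field_simp
      rw [e1]
      module
  set c1 := (1 - (s - ε)) • x1 + (s - ε) • y1 with hc1
  set c2 := (1 - (s + ε)) • x1 + (s + ε) • y1 with hc2
  obtain ⟨g1, hg1C, hg1⟩ := hform _ (s - ε) hminus (by
    rw [sub_eq_add_neg, ← neg_smul]
    congr 2
    rw [hε]
    field_simp
    ring)
  obtain ⟨g2, hg2C, hg2⟩ := hform _ (s + ε) hplus (by
    congr 2
    rw [hε]
    field_simp
    ring)
  have hc1C : c1 ∈ C := by
    rw [hc1, hg1]
    exact hC hpC hg1C (by positivity) (by linarith) (by ring)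
  have hc2C : c2 ∈ C := by
    rw [hc2, hg2]
    exact hC hpC hg2C (by positivity) (by linarith) (by ring)
  -- the point u
  obtain ⟨Fx, hFx, hFx1, hFx2⟩ := (hmin x1 ⟨hx1E, hx1⟩).stone hC
  obtain ⟨Fy, hFy, hFy1, hFy2⟩ := (hmin y1 ⟨hy1E, hy1⟩).stone hC
  have hu : ∃ u ∈ A, u ∉ ⋃₀ Fx ∧ u ∉ ⋃₀ Fy := by
    by_contra hne
    push Not at hne
    apply hdbad
    refine ⟨Fx ∪ Fy, hFx.union hFy, ?_, ?_⟩
    · rintro K (hK | hK)
      · exact ⟨(hFx1 K hK).1, (Set.subset_compl_iff_disjoint_left.1 (hFx1 K hK).2.2)⟩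
      · exact ⟨(hFy1 K hK).1, (Set.subset_compl_iff_disjoint_left.1 (hFy1 K hK).2.2)⟩
    · intro z hz
      rw [Set.sUnion_union]
      by_cases h : z ∈ ⋃₀ Fx
      · exact Or.inl h
      · exact Or.inr (hne z hz h)
  obtain ⟨u, huA, hux, huy⟩ := hu
  have huC : u ∉ C := huA.1.2
  obtain ⟨η1, hη10, hη11, hη1⟩ := move hC hpC hg1C (by positivity : 0 < δ / 2) (by linarith)
    (hc1.trans hg1) (hdir u huA)
  obtain ⟨η2, hη20, hη21, hη2⟩ := move hC hpC hg2C (by positivity : 0 < δ / 2) (by linarith)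
    (hc2.trans hg2) (hdir u huA)
  obtain ⟨τ1, hτ10, hτ11, hτ1a, hτ1b⟩ := exists_tau hC hCc hc1C huC hη10 hη11 hη1
  obtain ⟨τ2, hτ20, hτ21, hτ2a, hτ2b⟩ := exists_tau hC hCc hc2C huC hη20 hη21 hη2
  have hr1 : 0 < s - ε := by linarith
  have hr2 : s + ε < 1 := by linarith
  rcases le_total τ1 τ2 with h | h
  · -- c2 = (1 - α) c1 + α y1
    have hpos : 0 < 1 - (s - ε) := by linarith
    refine final_aux hE hCE hFy1 hFy2 (c := c1) (c' := c2) (u := u) hc1C huA.1.1 huy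
      (α := 2 * ε / (1 - (s - ε))) (τ := τ1) (by positivity) ?_ ?_ hτ10 hτ11 hτ1b
      (hτ2a τ1 hτ10.le h)
    · rw [div_lt_one hpos]
      linarith
    · rw [hc1, hc2]
      have e1 : (1 - 2 * ε / (1 - (s - ε))) * (1 - (s - ε)) = 1 - (s + ε) := by
        field_simp
        ring
      exact comb_right x1 y1 e1
  · -- c1 = (1 - β) c2 + β x1
    have hpos : 0 < s + ε := by linarith
    refine final_aux hE hCE hFx1 hFx2 (c := c2) (c' := c1) (u := u) hc2C huA.1.1 hux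
      (α := 2 * ε / (s + ε)) (τ := τ2) (by positivity) ?_ ?_ hτ20 hτ21 hτ2b
      (hτ1a τ2 hτ20.le h)
    · rw [div_lt_one hpos]
      linarith
    · rw [hc1, hc2]
      have e1 : (1 - 2 * ε / (s + ε)) * (s + ε) = s - ε := by
        field_simp
        ring
      exact comb_left x1 y1 e1

end Pool.Agent.V11112.HS
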