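import Mathlib

set_option autoImplicit false

namespace Pool.Agent.V11112.FS

open scoped Classical in
/-- Choose a bin whose residual is at least `x`, if there is one. -/
noncomputable def pick {B : ℕ} (r : Fin B → ℝ) (x : ℝ) : Option (Fin B) :=
  if h : ∃ i, x ≤ r i then some h.choose else none

theorem pick_some {B : ℕ} {r : Fin B → ℝ} {x : ℝ} {i : Fin B} (h : pick r x = some i) :
    x ≤ r i := by
  unfold pick at h
  split_ifs at h with h1
  rw [← Option.some_injective _ h]
  exact h1.choose_spec

theorem pick_none {B : ℕ} {r : Fin B → ℝ} {x : ℝ} (h : pick r x = none) (i : Fin B) :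
    r i < x := by
  unfold pick at h
  split_ifs at h with h1
  push Not at h1
  exact h1 i

/-- Residuals of the bins in the greedy procedure. -/
noncomputable def res {B : ℕ} (ε : ℝ) (a : ℕ → ℝ) : ℕ → Fin B → ℝ
  | 0 => fun _ => ε
  | n + 1 => fun i => if pick (res ε a n) (a n) = some i then res ε a n i - a n
      else res ε a n i

/-- The bin receiving item `n`. -/
noncomputable def bin (B : ℕ) (ε : ℝ) (a : ℕ → ℝ) (n : ℕ) : Option (Fin B) :=
  pick (res ε a n) (a n)

theorem res_succ {B : ℕ} (ε : ℝ) (a : ℕ → ℝ) (n : ℕ) (i : Fin B) :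
    res ε a (n + 1) i = res ε a n i - if bin B ε a n = some i then a n else 0 := by
  show (if pick (res ε a n) (a n) = some i then res ε a n i - a n else res ε a n i) = _
  unfold bin
  split_ifs <;> simp

theorem res_nonneg {B : ℕ} {ε : ℝ} (hε : 0 < ε) {a : ℕ → ℝ} (n : ℕ) (i : Fin B) :
    0 ≤ res ε a n i := by
  induction n with
  | zero => exact hε.le
  | succ n ih =>
    rw [res_succ]
    split_ifs with h
    · have := pick_some h
      linarith
    · simpa using ih

theorem res_eq {B : ℕ} (ε : ℝ) (a : ℕ → ℝ) (n : ℕ) (i : Fin B) :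
    res ε a n i = ε - ∑ j ∈ Finset.range n, if bin B ε a j = some i then a j else 0 := by
  induction n with
  | zero => simp [res]
  | succ n ih =>
    rw [res_succ, ih, Finset.sum_range_succ]
    ring

theorem total_succ {B : ℕ} (ε : ℝ) (a : ℕ → ℝ) (n : ℕ) :
    ∑ i : Fin B, res ε a (n + 1) i =
      ∑ i : Fin B, res ε a n i - if bin B ε a n = none then 0 else a n := by
  simp only [res_succ, Finset.sum_sub_distrib]
  congr 1
  rcases h : bin B ε a n with _ | k
  · simp
  · simp

/-- The greedy covering lemma. -/
theorem pack_lemma {B : ℕ} {ε : ℝ} (hε : 0 < ε) (a : ℕ → ℝ) (ha0 : ∀ j, 0 < a j)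
    (haε : ∀ j, a j ≤ ε) (hsum : Summable a) (hB : B * ε ≤ ∑' j, a j)
    (hc : ∀ j, B ≤ j → B * a j ≤ ∑' i, a (i + (j + 1))) :
    ∃ γ : Fin B → Set ℕ, (∀ i i', i ≠ i' → Disjoint (γ i) (γ i')) ∧
      ∀ i, ε ≤ ∑' j, (γ i).indicator a j := by
  classical
  refine ⟨fun i => {j | bin B ε a j = some i}, ?_, ?_⟩
  · intro i i' hne
    rw [Set.disjoint_left]
    intro j hj hj'
    apply hne
    have h1 : bin B ε a j = some i := hj
    have h2 : bin B ε a j = some i' := hj'
    rw [h1] at h2
    exact Option.some_injective _ h2
  intro i0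
  by_contra hcon
  push Not at hcon
  set f : ℕ → ℝ := ({j | bin B ε a j = some i0} : Set ℕ).indicator a with hf
  have hfs : Summable f := hsum.indicator _
  have hf0 : ∀ j, 0 ≤ f j := fun j => Set.indicator_nonneg (fun j _ => (ha0 j).le) j
  set r : ℝ := ε - ∑' j, f j with hr
  have hrpos : 0 < r := by
    rw [hr]
    linarith
  have hres : ∀ n, r ≤ res ε a n i0 := by
    intro n
    rw [res_eq, hr]
    have : ∑ j ∈ Finset.range n, (if bin B ε a j = some i0 then a j else 0) =
        ∑ j ∈ Finset.range n, f j := by
      apply Finset.sum_congr rfl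
      intro j _
      simp [hf, Set.indicator_apply]
    rw [this]
    have := hfs.sum_le_tsum (Finset.range n) (fun j _ => hf0 j)
    linarith
  have htotal : ∀ n, r ≤ ∑ i : Fin B, res ε a n i := by
    intro n
    calc r ≤ res ε a n i0 := hres n
      _ ≤ ∑ i : Fin B, res ε a n i :=
        Finset.single_le_sum (f := fun i => res ε a n i) (fun i _ => res_nonneg hε n i)
          (Finset.mem_univ i0)
  have ha_tend := hsum.tendsto_atTop_zero
  have hex : ∃ n2, ∀ n, n2 ≤ n → bin B ε a n ≠ none := by
    have := (ha_tend.eventually (gt_mem_nhds hrpos))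
    obtain ⟨n2, hn2⟩ := Filter.eventually_atTop.1 this
    refine ⟨n2, fun n hn hnone => ?_⟩
    have h1 := pick_none hnone i0
    have h2 := hn2 n hn
    have h3 := hres n
    linarith
  -- bound of tails
  have htail : ∀ n2, (∀ n, n2 ≤ n → bin B ε a n ≠ none) →
      ∑' j, a (j + n2) ≤ ∑ i : Fin B, res ε a n2 i - r := by
    intro n2 hn2
    have hpart : ∀ m, ∑ i : Fin B, res ε a (n2 + m) i =
        ∑ i : Fin B, res ε a n2 i - ∑ j ∈ Finset.range m, a (j + n2) := by
      intro m
      induction m with
      | zero => simp
      | succ m ih =>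
        rw [← add_assoc, total_succ, if_neg (hn2 _ (by omega)), ih, Finset.sum_range_succ,
          add_comm m n2]
        ring
    have hs : Summable fun j => a (j + n2) := (summable_nat_add_iff n2).2 hsum
    apply hs.tsum_le_of_sum_range_le
    intro m
    have h1 := hpart m
    have h2 := htotal (n2 + m)
    linarith
  -- least n2
  have hspec := Nat.find_spec hex
  have hmin := fun m => Nat.find_min (m := m) hex
  set n2 := Nat.find hex with hn2
  have htl := htail n2 hspec
  rcases Nat.eq_zero_or_pos n2 with h0 | hpos
  · rw [h0] at htl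
    simp only [add_zero] at htl
    have : ∑ i : Fin B, res ε a 0 i = B * ε := by
      simp [res]
    rw [this] at htl
    linarith
  · obtain ⟨n1, hn1⟩ : ∃ n1, n2 = n1 + 1 := ⟨n2 - 1, by omega⟩
    have hnone : bin B ε a n1 = none := by
      by_contra hne
      apply hmin n1 (by omega)
      intro n hn
      rcases eq_or_lt_of_le hn with rfl | hlt
      · exact hne
      · exact hspec n (by omega)
    have hlt : ∀ i, res ε a n1 i < a n1 := fun i => pick_none hnone i
    have hBpos : 0 < B := Fin.pos i0
    haveI : Nonempty (Fin B) := ⟨i0⟩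
    have hsumlt : ∑ i : Fin B, res ε a n1 i < B * a n1 := by
      calc ∑ i : Fin B, res ε a n1 i < ∑ i : Fin B, a n1 :=
            Finset.sum_lt_sum_of_nonempty Finset.univ_nonempty (fun i _ => hlt i)
        _ = B * a n1 := by simp
    rw [hn1, total_succ, if_pos hnone] at htl
    rcases Nat.lt_or_ge n1 B with hlt1 | hge
    · -- every bin has received an item
      have hitem : ∀ i : Fin B, ∃ j : Fin n1, bin B ε a j = some i := by
        intro i
        by_contra hne
        push Not at hne
        have h1 := res_eq ε a n1 i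
        rw [Finset.sum_eq_zero] at h1
        · have h2 := hlt i
          have h3 := haε n1
          linarith
        · intro j hj
          rw [if_neg]
          exact hne ⟨j, Finset.mem_range.1 hj⟩
      choose φ hφ using hitem
      have hinj : Function.Injective φ := by
        intro i i' h
        have h1 := hφ i
        have h2 := hφ i'
        rw [h] at h1
        rw [h1] at h2
        exact Option.some_injective _ h2
      have := Fintype.card_le_of_injective φ hinj
      simp at this
      omega
    · have := hc n1 hge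
      linarith

end Pool.Agent.V11112.FS
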