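import Mathlib
import Pool.Agent.V11112.FS1

set_option autoImplicit false

namespace Pool.Agent.V11112.FS

/-- `ℕ` can be split into `N` disjoint sets each having `l`-sum at least `ε`. -/
def Splits (l : ℕ → ℝ) (ε : ℝ) (N : ℕ) : Prop :=
  ∃ γ : Fin N → Set ℕ, (∀ i i', i ≠ i' → Disjoint (γ i) (γ i')) ∧ (⋃ i, γ i) = Set.univ ∧
    ∀ i, ε ≤ ∑' j, (γ i).indicator l j

/-- The mass distribution function. -/
noncomputable def massN (l : ℕ → ℝ) (ε : ℝ) : ℕ := sSup {N | Splits l ε N}

/-- A family of disjoint sets with `l`-sums at least `ε`, not necessarily covering. -/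
def Packs (l : ℕ → ℝ) (ε : ℝ) (ι : Type) : Prop :=
  ∃ γ : ι → Set ℕ, (∀ i i', i ≠ i' → Disjoint (γ i) (γ i')) ∧
    ∀ i, ε ≤ ∑' j, (γ i).indicator l j

/-- The number of terms that are at least `ε` (for antitone sequences tending to zero). -/
noncomputable def cnt (l : ℕ → ℝ) (ε : ℝ) : ℕ := sInf {k | l k < ε}

/-- The tube volume. -/
noncomputable def V (l : ℕ → ℝ) (ε : ℝ) : ℝ := ∑' j, min (l j) ε

variable {l : ℕ → ℝ}

theorem cnt_spec (hsum : Summable l) {ε : ℝ} (hε : 0 < ε) : l (cnt l ε) < ε := by
  have : {k | l k < ε}.Nonempty := by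
    obtain ⟨n, hn⟩ := (hsum.tendsto_atTop_zero.eventually (gt_mem_nhds hε)).exists
    exact ⟨n, hn⟩
  exact Nat.sInf_mem this

theorem le_of_lt_cnt {ε : ℝ} {j : ℕ} (h : j < cnt l ε) : ε ≤ l j := by
  have := Nat.notMem_of_lt_sInf h
  simpa using this

theorem lt_of_cnt_le (hanti : Antitone l) (hsum : Summable l) {ε : ℝ} (hε : 0 < ε) {j : ℕ}
    (h : cnt l ε ≤ j) : l j < ε :=
  (hanti h).trans_lt (cnt_spec hsum hε)

theorem lt_cnt_of_le (hanti : Antitone l) (hsum : Summable l) {ε : ℝ} (hε : 0 < ε) {j : ℕ}
    (h : ε ≤ l j) : j < cnt l ε := by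
  by_contra hcon
  push Not at hcon
  have := lt_of_cnt_le hanti hsum hε hcon
  linarith

theorem cnt_le_of_lt {ε : ℝ} {j : ℕ} (h : l j < ε) : cnt l ε ≤ j := Nat.sInf_le h

theorem summable_min (hpos : ∀ j, 0 < l j) (hsum : Summable l) {ε : ℝ} (hε : 0 ≤ ε) :
    Summable fun j => min (l j) ε :=
  Summable.of_nonneg_of_le (fun j => le_min (hpos j).le hε) (fun j => min_le_left _ _) hsum

theorem V_eq (hpos : ∀ j, 0 < l j) (hanti : Antitone l) (hsum : Summable l) {ε : ℝ}
    (hε : 0 < ε) : V l ε = cnt l ε * ε + ∑' j, l (j + cnt l ε) := by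
  unfold V
  rw [← (summable_min hpos hsum hε.le).sum_add_tsum_nat_add (cnt l ε)]
  congr 1
  · rw [Finset.sum_congr rfl (g := fun _ => ε)]
    · simp
    · intro j hj
      exact min_eq_right (le_of_lt_cnt (Finset.mem_range.1 hj))
  · apply tsum_congr
    intro j
    exact min_eq_left (lt_of_cnt_le hanti hsum hε (by omega)).le

theorem V_sub_ge (hpos : ∀ j, 0 < l j) (hsum : Summable l)
    {ε ε' : ℝ} (hε' : 0 < ε') (h : ε' ≤ ε) : (ε - ε') * cnt l ε ≤ V l ε - V l ε' := by
  unfold V
  have hε : 0 < ε := hε'.trans_le h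
  rw [← (summable_min hpos hsum hε.le).tsum_sub (summable_min hpos hsum hε'.le)]
  have hs := (summable_min hpos hsum hε.le).sub (summable_min hpos hsum hε'.le)
  have h1 := hs.sum_le_tsum (Finset.range (cnt l ε)) (fun j _ => by
    have := min_le_min_left (l j) h
    linarith)
  refine le_trans (le_of_eq ?_) h1
  rw [Finset.sum_congr rfl (g := fun _ => ε - ε')]
  · rw [Finset.sum_const, Finset.card_range, nsmul_eq_mul, mul_comm]
  · intro j hj
    have h2 := le_of_lt_cnt (l := l) (Finset.mem_range.1 hj)
    rw [min_eq_right h2, min_eq_right (h.trans h2)]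

theorem V_sub_le (hpos : ∀ j, 0 < l j) (hanti : Antitone l) (hsum : Summable l)
    {ε ε' : ℝ} (hε' : 0 < ε') (h : ε' ≤ ε) : V l ε - V l ε' ≤ (ε - ε') * cnt l ε' := by
  unfold V
  have hε : 0 < ε := hε'.trans_le h
  rw [← (summable_min hpos hsum hε.le).tsum_sub (summable_min hpos hsum hε'.le)]
  rw [tsum_eq_sum (s := Finset.range (cnt l ε'))]
  · calc ∑ j ∈ Finset.range (cnt l ε'), (min (l j) ε - min (l j) ε')
        ≤ ∑ j ∈ Finset.range (cnt l ε'), (ε - ε') := by
          apply Finset.sum_le_sum
          intro j hj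
          have h2 := le_of_lt_cnt (l := l) (Finset.mem_range.1 hj)
          rw [min_eq_right h2]
          have := min_le_right (l j) ε
          linarith
      _ = (ε - ε') * cnt l ε' := by
          rw [Finset.sum_const, Finset.card_range, nsmul_eq_mul, mul_comm]
  · intro j hj
    have hj' : cnt l ε' ≤ j := by simpa using hj
    have h2 := lt_of_cnt_le hanti hsum hε' hj'
    rw [min_eq_left h2.le, min_eq_left (h2.le.trans h)]
    simp

theorem V_mul_ge (hpos : ∀ j, 0 < l j) (hsum : Summable l) {ε lam : ℝ} (hε : 0 < ε)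
    (h0 : 0 < lam) (h1 : lam ≤ 1) : lam * V l ε ≤ V l (lam * ε) := by
  unfold V
  rw [← tsum_mul_left]
  apply Summable.tsum_le_tsum _ ((summable_min hpos hsum hε.le).mul_left _)
    (summable_min hpos hsum (mul_pos h0 hε).le)
  intro j
  apply le_min
  · have h2 := min_le_left (l j) ε
    have h3 : 0 ≤ min (l j) ε := le_min (hpos j).le hε.le
    nlinarith
  · exact mul_le_mul_of_nonneg_left (min_le_right _ _) h0.le

theorem Packs.card_le (hpos : ∀ j, 0 < l j) (hsum : Summable l) {ε : ℝ} (hε : 0 < ε)
    {ι : Type} [Fintype ι] (h : Packs l ε ι) : Fintype.card ι * ε ≤ V l ε := by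
  classical
  obtain ⟨γ, hγ, hs⟩ := h
  have hmin := summable_min hpos hsum hε.le
  have hmin0 : ∀ j, 0 ≤ min (l j) ε := fun j => le_min (hpos j).le hε.le
  have h1 : ∀ i, ε ≤ ∑' j, (γ i).indicator (fun j => min (l j) ε) j := by
    intro i
    by_cases hex : ∃ j ∈ γ i, ε ≤ l j
    · obtain ⟨j, hj, hle⟩ := hex
      have h2 := (hmin.indicator (γ i)).sum_le_tsum {j}
        (fun j _ => Set.indicator_nonneg (fun j _ => hmin0 j) j)
      rw [Finset.sum_singleton, Set.indicator_of_mem hj, min_eq_right hle] at h2
      exact h2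
    · push Not at hex
      refine (hs i).trans (le_of_eq ?_)
      apply tsum_congr
      intro j
      by_cases hj : j ∈ γ i
      · rw [Set.indicator_of_mem hj, Set.indicator_of_mem hj, min_eq_left (hex j hj).le]
      · rw [Set.indicator_of_notMem hj, Set.indicator_of_notMem hj]
  calc (Fintype.card ι : ℝ) * ε = ∑ _i : ι, ε := by simp
    _ ≤ ∑ i : ι, ∑' j, (γ i).indicator (fun j => min (l j) ε) j :=
        Finset.sum_le_sum fun i _ => h1 i
    _ = ∑' j, ∑ i : ι, (γ i).indicator (fun j => min (l j) ε) j :=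
        (Summable.tsum_finsetSum fun i _ => hmin.indicator (γ i)).symm
    _ ≤ ∑' j, min (l j) ε := by
        apply Summable.tsum_le_tsum _ (summable_sum fun i _ => hmin.indicator (γ i)) hmin
        intro j
        by_cases hex : ∃ i, j ∈ γ i
        · obtain ⟨i, hi⟩ := hex
          rw [Finset.sum_eq_single i, Set.indicator_of_mem hi]
          · intro i' _ hne
            apply Set.indicator_of_notMem
            exact fun hi' => Set.disjoint_left.1 (hγ i' i hne) hi' hi
          · intro h
            exact absurd (Finset.mem_univ i) h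
        · push Not at hex
          rw [Finset.sum_eq_zero]
          · exact hmin0 j
          · intro i _
            exact Set.indicator_of_notMem (hex i) _

theorem Splits.packs {ε : ℝ} {N : ℕ} (h : Splits l ε N) : Packs l ε (Fin N) := by
  obtain ⟨γ, h1, -, h3⟩ := h
  exact ⟨γ, h1, h3⟩

theorem Packs.splits (hpos : ∀ j, 0 < l j) (hsum : Summable l) {ε : ℝ} {ι : Type} [Fintype ι]
    (h : Packs l ε ι) (hne : 0 < Fintype.card ι) : Splits l ε (Fintype.card ι) := by
  classical
  obtain ⟨γ, hγ, hs⟩ := h
  let e := Fintype.equivFin ι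
  let i0 : Fin (Fintype.card ι) := ⟨0, hne⟩
  let R : Set ℕ := (⋃ i, γ i)ᶜ
  refine ⟨fun i => γ (e.symm i) ∪ (if i = i0 then R else ∅), ?_, ?_, ?_⟩
  · intro i i' hii
    have h1 : Disjoint (γ (e.symm i)) (γ (e.symm i')) :=
      hγ _ _ (fun h => hii (e.symm.injective h))
    have h2 : ∀ i, Disjoint (γ i) R := by
      intro i
      rw [Set.disjoint_left]
      intro j hj hjR
      exact hjR (Set.mem_iUnion.2 ⟨i, hj⟩)
    rw [Set.disjoint_left]
    rintro j (hj | hj) (hj' | hj')
    · exact Set.disjoint_left.1 h1 hj hj'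
    · split_ifs at hj' with h3
      · exact Set.disjoint_left.1 (h2 _) hj hj'
      · exact hj'
    · split_ifs at hj with h3
      · exact Set.disjoint_left.1 (h2 _) hj' hj
      · exact hj
    · split_ifs at hj with h3
      · split_ifs at hj' with h4
        · exact hii (h3.trans h4.symm)
        · exact hj'
      · exact hj
  · rw [Set.eq_univ_iff_forall]
    intro j
    by_cases hj : j ∈ ⋃ i, γ i
    · obtain ⟨i, hi⟩ := Set.mem_iUnion.1 hj
      refine Set.mem_iUnion.2 ⟨e i, Or.inl ?_⟩
      simpa using hi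
    · refine Set.mem_iUnion.2 ⟨i0, Or.inr ?_⟩
      rw [if_pos rfl]
      exact hj
  · intro i
    refine (hs (e.symm i)).trans ?_
    apply Summable.tsum_le_tsum _ (hsum.indicator _) (hsum.indicator _)
    intro j
    exact Set.indicator_le_indicator_of_subset Set.subset_union_left
      (fun j => (hpos j).le) j

theorem bddAbove_splits (hpos : ∀ j, 0 < l j) (hsum : Summable l) {ε : ℝ} (hε : 0 < ε) :
    BddAbove {N | Splits l ε N} := by
  refine ⟨⌊V l ε / ε⌋₊, ?_⟩
  intro N hN
  apply Nat.le_floor
  rw [le_div_iff₀ hε]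
  have := hN.packs.card_le hpos hsum hε
  simpa using this

theorem Packs.card_le_massN (hpos : ∀ j, 0 < l j) (hsum : Summable l) {ε : ℝ} (hε : 0 < ε)
    {ι : Type} [Fintype ι] (h : Packs l ε ι) : Fintype.card ι ≤ massN l ε := by
  rcases Nat.eq_zero_or_pos (Fintype.card ι) with h0 | h0
  · omega
  · exact le_csSup (bddAbove_splits hpos hsum hε) (h.splits hpos hsum h0)

theorem massN_packs (hpos : ∀ j, 0 < l j) (hsum : Summable l) {ε : ℝ} (hε : 0 < ε) :
    Packs l ε (Fin (massN l ε)) := by
  by_cases hne : {N | Splits l ε N}.Nonempty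
  · exact (Nat.sSup_mem hne (bddAbove_splits hpos hsum hε)).packs
  · rw [Set.not_nonempty_iff_eq_empty] at hne
    have : massN l ε = 0 := by
      unfold massN
      rw [hne]
      simp
    rw [this]
    exact ⟨fun i => i.elim0, fun i => i.elim0, fun i => i.elim0⟩

theorem massN_le (hpos : ∀ j, 0 < l j) (hsum : Summable l) {ε : ℝ} (hε : 0 < ε) :
    massN l ε * ε ≤ V l ε := by
  have := (massN_packs hpos hsum hε).card_le hpos hsum hε
  simpa using this

/-- Pairing of groups at scale `ε / 2`. -/
theorem halving (hpos : ∀ j, 0 < l j) (hsum : Summable l) {ε : ℝ} (hε : 0 < ε) :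
    cnt l ε + massN l (ε / 2) ≤ 2 * massN l ε + 1 := by
  classical
  have hp := massN_packs hpos hsum (half_pos hε)
  generalize massN l (ε / 2) = N' at hp ⊢
  obtain ⟨γ, hγ, hs⟩ := hp
  set k := cnt l ε with hk
  -- free groups
  let F := {i : Fin N' // ∀ j < k, j ∉ γ i}
  let NF := {i : Fin N' // ¬ ∀ j < k, j ∉ γ i}
  have hNF : Fintype.card NF ≤ k := by
    have hch : ∀ i : NF, ∃ j : Fin k, (j : ℕ) ∈ γ i.1 := by
      intro i
      have := i.2
      push Not at this
      obtain ⟨j, hj, hji⟩ := this
      exact ⟨⟨j, hj⟩, hji⟩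
    choose φ hφ using hch
    have hinj : Function.Injective φ := by
      intro i i' h
      by_contra hne
      have hne' : i.1 ≠ i'.1 := fun h => hne (Subtype.ext h)
      have h1 := hφ i
      rw [h] at h1
      exact Set.disjoint_left.1 (hγ i.1 i'.1 hne') h1 (hφ i')
    simpa using Fintype.card_le_of_injective φ hinj
  have hF : N' ≤ Fintype.card F + k := by
    have h1 : Fintype.card F + Fintype.card NF = N' := by
      have := Fintype.card_subtype_compl (fun i : Fin N' => ∀ j < k, j ∉ γ i)
      have h2 := Fintype.card_subtype_le (fun i : Fin N' => ∀ j < k, j ∉ γ i)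
      simp only [Fintype.card_fin] at this h2
      show Fintype.card F + Fintype.card NF = N'
      have h3 : Fintype.card NF = N' - Fintype.card F := this
      have h4 : Fintype.card F ≤ N' := h2
      omega
    omega
  set q := (N' - k) / 2 with hq
  have hemb : Nonempty ((Fin q × Bool) ↪ F) := by
    apply Function.Embedding.nonempty_of_card_le
    simp only [Fintype.card_prod, Fintype.card_fin, Fintype.card_bool]
    omega
  obtain ⟨e⟩ := hemb
  have hpack : Packs l ε (Fin k ⊕ Fin q) := by
    refine ⟨Sum.elim (fun j => {(j : ℕ)}) (fun i => γ (e (i, false)).1 ∪ γ (e (i, true)).1),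
      ?_, ?_⟩
    · have hdis : ∀ p p' : Fin q × Bool, p ≠ p' → Disjoint (γ (e p).1) (γ (e p').1) := by
        intro p p' hne
        apply hγ
        intro h
        exact hne (e.injective (Subtype.ext h))
      rintro (j | i) (j' | i') hne
      · simp only [Sum.elim_inl, Set.disjoint_singleton]
        intro h
        exact hne (by rw [Fin.ext h])
      · simp only [Sum.elim_inl, Sum.elim_inr, Set.disjoint_singleton_left]
        rintro (h | h)
        · exact (e (i', false)).2 j j.2 h
        · exact (e (i', true)).2 j j.2 h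
      · simp only [Sum.elim_inl, Sum.elim_inr, Set.disjoint_singleton_right]
        rintro (h | h)
        · exact (e (i, false)).2 j' j'.2 h
        · exact (e (i, true)).2 j' j'.2 h
      · simp only [Sum.elim_inr]
        have hii : i ≠ i' := fun h => hne (by rw [h])
        rw [Set.disjoint_union_left, Set.disjoint_union_right, Set.disjoint_union_right]
        refine ⟨⟨hdis _ _ ?_, hdis _ _ ?_⟩, hdis _ _ ?_, hdis _ _ ?_⟩ <;>
        · intro h
          exact hii (Prod.ext_iff.1 h).1
    · rintro (j | i)
      · simp only [Sum.elim_inl]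
        have h2 := (hsum.indicator {(j : ℕ)}).sum_le_tsum {(j : ℕ)}
          (fun j _ => Set.indicator_nonneg (fun j _ => (hpos j).le) j)
        rw [Finset.sum_singleton, Set.indicator_of_mem (Set.mem_singleton _)] at h2
        exact (le_of_lt_cnt j.2).trans h2
      · simp only [Sum.elim_inr]
        have hdis : Disjoint (γ (e (i, false)).1) (γ (e (i, true)).1) := by
          apply hγ
          intro h
          have := (Prod.ext_iff.1 (e.injective (Subtype.ext h))).2
          simp at this
        rw [Set.indicator_union_of_disjoint hdis]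
        rw [Summable.tsum_add (hsum.indicator _) (hsum.indicator _)]
        have h1 := hs (e (i, false)).1
        have h2 := hs (e (i, true)).1
        linarith
  have := hpack.card_le_massN hpos hsum hε
  simp only [Fintype.card_sum, Fintype.card_fin] at this
  omega

/-- Perfect packing at scale `ε`. -/
theorem perfect (hpos : ∀ j, 0 < l j) (hanti : Antitone l) (hsum : Summable l) {ε : ℝ}
    (hε : 0 < ε) {B : ℕ} (hB : B * ε ≤ ∑' j, l (j + cnt l ε))
    (hc : ∀ J, cnt l ε + B ≤ J → B * l J ≤ ∑' i, l (i + (J + 1))) :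
    cnt l ε + B ≤ massN l ε := by
  classical
  set k := cnt l ε with hk
  obtain ⟨γ, hγ, hs⟩ := pack_lemma (B := B) hε (fun j => l (j + k)) (fun j => hpos _)
    (fun j => (lt_of_cnt_le hanti hsum hε (by omega)).le) ((summable_nat_add_iff k).2 hsum) hB
    (by
      intro j hj
      have := hc (j + k) (by omega)
      refine this.trans (le_of_eq ?_)
      apply tsum_congr
      intro i
      congr 1
      omega)
  have hpack : Packs l ε (Fin k ⊕ Fin B) := by
    refine ⟨Sum.elim (fun j => {(j : ℕ)}) (fun i => {m | k ≤ m ∧ m - k ∈ γ i}), ?_, ?_⟩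
    · rintro (j | i) (j' | i') hne
      · simp only [Sum.elim_inl, Set.disjoint_singleton]
        intro h
        exact hne (by rw [Fin.ext h])
      · simp only [Sum.elim_inl, Sum.elim_inr, Set.disjoint_singleton_left]
        rintro ⟨h, -⟩
        have := j.2
        omega
      · simp only [Sum.elim_inl, Sum.elim_inr, Set.disjoint_singleton_right]
        rintro ⟨h, -⟩
        have := j'.2
        omega
      · simp only [Sum.elim_inr]
        have hii : i ≠ i' := fun h => hne (by rw [h])
        rw [Set.disjoint_left]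
        rintro m ⟨-, hm⟩ ⟨-, hm'⟩
        exact Set.disjoint_left.1 (hγ i i' hii) hm hm'
    · rintro (j | i)
      · simp only [Sum.elim_inl]
        have h2 := (hsum.indicator {(j : ℕ)}).sum_le_tsum {(j : ℕ)}
          (fun j _ => Set.indicator_nonneg (fun j _ => (hpos j).le) j)
        rw [Finset.sum_singleton, Set.indicator_of_mem (Set.mem_singleton _)] at h2
        exact (le_of_lt_cnt j.2).trans h2
      · simp only [Sum.elim_inr]
        rw [← (hsum.indicator {m | k ≤ m ∧ m - k ∈ γ i}).sum_add_tsum_nat_add k]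
        have h1 : 0 ≤ ∑ j ∈ Finset.range k, ({m | k ≤ m ∧ m - k ∈ γ i} : Set ℕ).indicator l j :=
          Finset.sum_nonneg fun j _ => Set.indicator_nonneg (fun j _ => (hpos j).le) j
        have h2 : ∑' j, ({m | k ≤ m ∧ m - k ∈ γ i} : Set ℕ).indicator l (j + k) =
            ∑' j, (γ i).indicator (fun j => l (j + k)) j := by
          apply tsum_congr
          intro j
          by_cases hj : j ∈ γ i
          · rw [Set.indicator_of_mem hj, Set.indicator_of_mem]
            exact ⟨by omega, by simpa using hj⟩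
          · rw [Set.indicator_of_notMem hj, Set.indicator_of_notMem]
            rintro ⟨-, h⟩
            apply hj
            simpa using h
        rw [h2]
        have h3 := hs i
        linarith
  have := hpack.card_le_massN hpos hsum hε
  simpa only [Fintype.card_sum, Fintype.card_fin] using this

end Pool.Agent.V11112.FS
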