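import Mathlib

set_option autoImplicit false

open Filter Topology

namespace Pool.Agent.V11112.FS

theorem exists_limsup {u : ℝ → ℝ} {C c0 : ℝ} (hC : ∀ᶠ ε in 𝓝[>] (0 : ℝ), u ε ≤ C)
    (h0 : ∀ᶠ ε in 𝓝[>] (0 : ℝ), c0 ≤ u ε) :
    ∃ κ : ℝ, (∀ η > 0, ∀ᶠ ε in 𝓝[>] (0 : ℝ), u ε < κ + η) ∧
      (∀ η > 0, ∃ᶠ ε in 𝓝[>] (0 : ℝ), κ - η < u ε) := by
  have hb : (𝓝[>] (0 : ℝ)).IsBoundedUnder (· ≤ ·) u := ⟨C, by simpa using hC⟩
  have hb' : (𝓝[>] (0 : ℝ)).IsBoundedUnder (· ≥ ·) u := ⟨c0, by simpa using h0⟩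
  have hcb : (𝓝[>] (0 : ℝ)).IsCoboundedUnder (· ≤ ·) u := hb'.isCoboundedUnder_le
  refine ⟨limsup u (𝓝[>] (0 : ℝ)), fun η hη => ?_, fun η hη => ?_⟩
  · exact eventually_lt_of_limsup_lt (by linarith) hb
  · exact frequently_lt_of_lt_limsup hcb (by linarith)

theorem exists_liminf {u : ℝ → ℝ} {C c0 : ℝ} (hC : ∀ᶠ ε in 𝓝[>] (0 : ℝ), u ε ≤ C)
    (h0 : ∀ᶠ ε in 𝓝[>] (0 : ℝ), c0 ≤ u ε) :
    ∃ κ : ℝ, (∀ η > 0, ∀ᶠ ε in 𝓝[>] (0 : ℝ), κ - η < u ε) ∧
      (∀ η > 0, ∃ᶠ ε in 𝓝[>] (0 : ℝ), u ε < κ + η) := by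
  obtain ⟨κ, h1, h2⟩ := exists_limsup (u := fun ε => - u ε) (C := -c0) (c0 := -C)
    (h0.mono fun ε h => by linarith) (hC.mono fun ε h => by linarith)
  refine ⟨-κ, fun η hη => ?_, fun η hη => ?_⟩
  · exact (h1 η hη).mono fun ε h => by linarith
  · exact (h2 η hη).mono fun ε h => by linarith

theorem tendsto_scale {lam : ℝ} (h : 0 < lam) :
    Tendsto (fun ε : ℝ => lam * ε) (𝓝[>] 0) (𝓝[>] 0) := by
  apply tendsto_nhdsWithin_of_tendsto_nhds_of_eventually_within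
  · have : Tendsto (fun ε : ℝ => lam * ε) (𝓝 0) (𝓝 (lam * 0)) :=
      (continuous_const.mul continuous_id).tendsto 0
    rw [mul_zero] at this
    exact this.mono_left nhdsWithin_le_nhds
  · filter_upwards [self_mem_nhdsWithin] with ε hε
    exact mul_pos h hε

/-- The difference quotient `(1 - λ^(1-d)) / (1 - λ)`. -/
noncomputable def qq (d lam : ℝ) : ℝ := (1 - lam ^ (1 - d)) / (1 - lam)

theorem tendsto_qq (d : ℝ) : Tendsto (qq d) (𝓝[<] 1) (𝓝 (1 - d)) := by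
  have h1 : HasDerivAt (fun x : ℝ => x ^ (1 - d)) ((1 - d) * (1 : ℝ) ^ (1 - d - 1)) 1 :=
    Real.hasDerivAt_rpow_const (Or.inl one_ne_zero)
  rw [Real.one_rpow, mul_one] at h1
  have h2 := hasDerivAt_iff_tendsto_slope.1 h1
  have h3 : Tendsto (slope (fun x : ℝ => x ^ (1 - d)) 1) (𝓝[<] 1) (𝓝 (1 - d)) :=
    h2.mono_left (nhdsWithin_mono _ fun x hx => ne_of_lt hx)
  refine h3.congr' ?_
  filter_upwards [self_mem_nhdsWithin] with x hx
  have hx1 : x < 1 := hx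
  rw [slope_def_field, qq, Real.one_rpow, ← neg_sub (1 : ℝ) (x ^ (1 - d)), ← neg_sub (1 : ℝ) x,
    neg_div_neg_eq]

/-- The abstract properties of the normalized counting functions. -/
structure Sys (d : ℝ) (n g v : ℝ → ℝ) : Prop where
  hd0 : 0 < d
  hd1 : d < 1
  g_nonneg : ∀ ε > 0, 0 ≤ g ε
  v_nonneg : ∀ ε > 0, 0 ≤ v ε
  g_le : ∀ ε > 0, g ε ≤ v ε
  v_bdd : ∃ C : ℝ, ∀ᶠ ε in 𝓝[>] (0 : ℝ), v ε ≤ C
  lower : ∀ ε > 0, ∀ lam : ℝ, 0 < lam → lam < 1 →
    (1 - lam) * g ε ≤ v ε - lam ^ (1 - d) * v (lam * ε)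
  upper : ∀ ε > 0, ∀ lam : ℝ, 0 < lam → lam < 1 →
    lam ^ d * (v ε - lam ^ (1 - d) * v (lam * ε)) ≤ (1 - lam) * g (lam * ε)
  conc : ∀ ε > 0, ∀ lam : ℝ, 0 < lam → lam < 1 → lam ^ d * v ε ≤ v (lam * ε)
  n_le : ∀ ε > 0, n ε ≤ v ε
  half : ∀ ε > 0, g ε ≤ 2 * n ε - 2 ^ d * n (2⁻¹ * ε) + ε ^ d
  perf : ∀ ρ : ℝ, 0 < ρ → (∀ᶠ s in 𝓝[>] (0 : ℝ), ρ ≤ v s - g s) →
    ∀ᶠ ε in 𝓝[>] (0 : ℝ), (v ε - g ε) ≤ 2 ^ d * ρ → 2 ^ d * g (2⁻¹ * ε) ≤ v ε - ε ^ d →
      v ε ≤ n ε + ε ^ d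
  mu_pos : ∃ ρ : ℝ, 0 < ρ ∧ ∀ᶠ s in 𝓝[>] (0 : ℝ), ρ ≤ v s - g s

section

variable {d : ℝ} {n g v : ℝ → ℝ}

theorem two_rpow_facts {d : ℝ} (hd0 : 0 < d) (hd1 : d < 1) :
    1 < (2 : ℝ) ^ d ∧ (2 : ℝ) ^ d < 2 ∧ 2 - (2 : ℝ) ^ d < (1 - d) * 2 ^ d ∧
      (1 - d) * (2 : ℝ) ^ d < 1 := by
  have h1 : 1 < (2 : ℝ) ^ d := Real.one_lt_rpow (by norm_num) hd0
  have h2 : (2 : ℝ) ^ d < 1 + d := by
    have := rpow_one_add_lt_one_add_mul_self (s := 1) (by norm_num) (by norm_num) hd0 hd1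
    norm_num at this
    exact this
  have h3 : (2 : ℝ) ^ (1 - d) < 2 - d := by
    have := rpow_one_add_lt_one_add_mul_self (s := 1) (by norm_num) (by norm_num)
      (p := 1 - d) (by linarith) (by linarith)
    norm_num at this
    linarith
  have h4 : (2 : ℝ) ^ (1 - d) * 2 ^ d = 2 := by
    rw [← Real.rpow_add (by norm_num)]
    norm_num
  have h5 : 1 - d < (2 : ℝ) ^ (-d) := by
    have e1 : (2 : ℝ) ^ (-d) = Real.exp (-(d * Real.log 2)) := by
      rw [Real.rpow_def_of_pos (by norm_num)]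
      congr 1
      ring
    have hlog : 0 < Real.log 2 := Real.log_pos (by norm_num)
    have hlog2 : Real.log 2 < 1 := by
      have := Real.log_two_lt_d9
      linarith
    have e2 := Real.add_one_lt_exp (x := -(d * Real.log 2)) (by
      have : 0 < d * Real.log 2 := by positivity
      linarith)
    rw [e1]
    nlinarith
  have h6 : (2 : ℝ) ^ (-d) * 2 ^ d = 1 := by
    rw [← Real.rpow_add (by norm_num)]
    norm_num
  have hp : 0 < (2 : ℝ) ^ d := by positivity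
  refine ⟨h1, by linarith, ?_, ?_⟩
  · nlinarith
  · nlinarith

theorem tendsto_pow0 {d : ℝ} (hd0 : 0 < d) :
    Tendsto (fun ε : ℝ => ε ^ d) (𝓝[>] 0) (𝓝 0) := by
  have h := (Real.continuousAt_rpow_const 0 d (Or.inr hd0.le)).tendsto
  rw [Real.zero_rpow hd0.ne'] at h
  exact h.mono_left nhdsWithin_le_nhds

/-- If `v → c` then `g → (1 - d) c`. -/
theorem Sys.tendsto_g (S : Sys d n g v) {c : ℝ} (hv : Tendsto v (𝓝[>] 0) (𝓝 c)) :
    Tendsto g (𝓝[>] 0) (𝓝 ((1 - d) * c)) := by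
  rw [tendsto_order]
  constructor
  · intro b hb
    -- choose lam with lam^d * c * qq > b
    have h1 : Tendsto (fun lam : ℝ => lam ^ d * (c * qq d lam)) (𝓝[<] 1)
        (𝓝 ((1 : ℝ) ^ d * (c * (1 - d)))) := by
      apply Tendsto.mul _ ((tendsto_qq d).const_mul c)
      exact ((Real.continuousAt_rpow_const 1 d (Or.inl one_ne_zero)).tendsto).mono_left
        nhdsWithin_le_nhds
    rw [Real.one_rpow, one_mul, mul_comm c] at h1
    have h2 : ∀ᶠ lam : ℝ in 𝓝[<] 1, 0 < lam :=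
      (lt_mem_nhds (zero_lt_one : (0 : ℝ) < 1)).filter_mono nhdsWithin_le_nhds
    obtain ⟨lam, ⟨hlam, hlam0⟩, hlam1⟩ := ((h1.eventually (lt_mem_nhds hb)).and h2).and
      self_mem_nhdsWithin |>.exists
    have hlam1 : lam < 1 := hlam1
    have h3 : Tendsto (fun ε => lam ^ d * (v ε - lam ^ (1 - d) * v (lam * ε)) / (1 - lam))
        (𝓝[>] 0) (𝓝 (lam ^ d * (c - lam ^ (1 - d) * c) / (1 - lam))) :=
      ((hv.sub ((hv.comp (tendsto_scale hlam0)).const_mul _)).const_mul _).div_const _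
    have h4 : lam ^ d * (c - lam ^ (1 - d) * c) / (1 - lam) = lam ^ d * (c * qq d lam) := by
      unfold qq
      ring
    rw [h4] at h3
    have h5 := h3.eventually (lt_mem_nhds hlam)
    -- transport
    have h6 : ∀ᶠ ε in 𝓝[>] (0 : ℝ), b < g (lam * ε) := by
      filter_upwards [h5, self_mem_nhdsWithin] with ε hε hε0
      have := S.upper ε hε0 lam hlam0 hlam1
      have hpos : 0 < 1 - lam := by linarith
      have h7 : lam ^ d * (v ε - lam ^ (1 - d) * v (lam * ε)) / (1 - lam) ≤ g (lam * ε) := by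
        rw [div_le_iff₀ hpos]
        linarith
      linarith
    have h8 := (tendsto_scale (inv_pos.2 hlam0)).eventually h6
    filter_upwards [h8] with ε hε
    rwa [← mul_assoc, mul_inv_cancel₀ hlam0.ne', one_mul] at hε
  · intro b hb
    have h1 : Tendsto (fun lam : ℝ => c * qq d lam) (𝓝[<] 1) (𝓝 (c * (1 - d))) :=
      (tendsto_qq d).const_mul c
    rw [mul_comm c] at h1
    have h2 : ∀ᶠ lam : ℝ in 𝓝[<] 1, 0 < lam :=
      (lt_mem_nhds (zero_lt_one : (0 : ℝ) < 1)).filter_mono nhdsWithin_le_nhds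
    obtain ⟨lam, ⟨hlam, hlam0⟩, hlam1⟩ := ((h1.eventually (gt_mem_nhds hb)).and h2).and
      self_mem_nhdsWithin |>.exists
    have hlam1 : lam < 1 := hlam1
    have h3 : Tendsto (fun ε => (v ε - lam ^ (1 - d) * v (lam * ε)) / (1 - lam))
        (𝓝[>] 0) (𝓝 ((c - lam ^ (1 - d) * c) / (1 - lam))) :=
      (hv.sub ((hv.comp (tendsto_scale hlam0)).const_mul _)).div_const _
    have h4 : (c - lam ^ (1 - d) * c) / (1 - lam) = c * qq d lam := by
      unfold qq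
      ring
    rw [h4] at h3
    filter_upwards [h3.eventually (gt_mem_nhds hlam), self_mem_nhdsWithin] with ε hε hε0
    have := S.lower ε hε0 lam hlam0 hlam1
    have hpos : 0 < 1 - lam := by linarith
    have h7 : g ε ≤ (v ε - lam ^ (1 - d) * v (lam * ε)) / (1 - lam) := by
      rw [le_div_iff₀ hpos]
      linarith
    linarith

/-- Abelian step: an eventual upper bound of `g` gives an upper bound for the upper limit of
`v`. -/
theorem Sys.limsup_bound (S : Sys d n g v) {A κ : ℝ}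
    (hA : ∀ η > 0, ∀ᶠ ε in 𝓝[>] (0 : ℝ), g ε < A + η)
    (h1 : ∀ η > 0, ∀ᶠ ε in 𝓝[>] (0 : ℝ), v ε < κ + η)
    (h2 : ∀ η > 0, ∃ᶠ ε in 𝓝[>] (0 : ℝ), κ - η < v ε) : κ * (1 - d) ≤ A := by
  have hkey : ∀ lam : ℝ, 0 < lam → lam < 1 → lam ^ d * (κ * qq d lam) ≤ A := by
    intro lam hlam0 hlam1
    have hpos : 0 < 1 - lam := by linarith
    have hd := S.hd0
    have hd1 := S.hd1
    have hp1 : lam ^ d ≤ 1 := Real.rpow_le_one hlam0.le hlam1.le hd.le
    have hp2 : lam ^ (1 - d) ≤ 1 := Real.rpow_le_one hlam0.le hlam1.le (by linarith)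
    have hp1' : 0 < lam ^ d := by positivity
    have hp2' : 0 < lam ^ (1 - d) := by positivity
    have hη : ∀ η > 0, lam ^ d * (κ * (1 - lam ^ (1 - d))) ≤ (1 - lam) * A + 3 * η := by
      intro η hη
      obtain ⟨ε, hε, ⟨hv1, hg1⟩, hε0⟩ := ((h2 η hη).and_eventually
        ((((tendsto_scale hlam0).eventually (h1 η hη)).and
          ((tendsto_scale hlam0).eventually (hA η hη))).and self_mem_nhdsWithin)).exists
      have h3 := S.upper ε hε0 lam hlam0 hlam1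
      have h4 : lam ^ d * ((κ - η) - lam ^ (1 - d) * (κ + η)) ≤ (1 - lam) * (A + η) := by
        have e1 : (1 - lam) * g (lam * ε) ≤ (1 - lam) * (A + η) :=
          mul_le_mul_of_nonneg_left hg1.le hpos.le
        have e2 : lam ^ (1 - d) * v (lam * ε) ≤ lam ^ (1 - d) * (κ + η) :=
          mul_le_mul_of_nonneg_left hv1.le hp2'.le
        have e3 : lam ^ d * ((κ - η) - lam ^ (1 - d) * (κ + η)) ≤
            lam ^ d * (v ε - lam ^ (1 - d) * v (lam * ε)) :=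
          mul_le_mul_of_nonneg_left (by linarith) hp1'.le
        linarith
      have e4 : lam ^ d * (η + lam ^ (1 - d) * η) ≤ 2 * η := by
        have : lam ^ (1 - d) * η ≤ 1 * η := mul_le_mul_of_nonneg_right hp2 hη.le
        have e5 : lam ^ d * (η + lam ^ (1 - d) * η) ≤ 1 * (η + lam ^ (1 - d) * η) :=
          mul_le_mul_of_nonneg_right hp1 (by positivity)
        linarith
      nlinarith
    have hle : lam ^ d * (κ * (1 - lam ^ (1 - d))) ≤ (1 - lam) * A := by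
      apply le_of_forall_pos_le_add
      intro η hη'
      have := hη (η / 3) (by positivity)
      linarith
    unfold qq
    have : lam ^ d * (κ * ((1 - lam ^ (1 - d)) / (1 - lam))) =
        lam ^ d * (κ * (1 - lam ^ (1 - d))) / (1 - lam) := by ring
    rw [this, div_le_iff₀ hpos]
    linarith
  have ht : Tendsto (fun lam : ℝ => lam ^ d * (κ * qq d lam)) (𝓝[<] 1)
      (𝓝 ((1 : ℝ) ^ d * (κ * (1 - d)))) := by
    apply Tendsto.mul _ ((tendsto_qq d).const_mul κ)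
    exact ((Real.continuousAt_rpow_const 1 d (Or.inl one_ne_zero)).tendsto).mono_left
      nhdsWithin_le_nhds
  rw [Real.one_rpow, one_mul] at ht
  have hev : ∀ᶠ lam : ℝ in 𝓝[<] 1, lam ^ d * (κ * qq d lam) ≤ A := by
    have h3 : ∀ᶠ lam : ℝ in 𝓝[<] 1, 0 < lam :=
      (lt_mem_nhds (zero_lt_one : (0 : ℝ) < 1)).filter_mono nhdsWithin_le_nhds
    filter_upwards [h3, self_mem_nhdsWithin] with lam h4 h5
    exact hkey lam h4 h5
  exact le_of_tendsto ht hev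

/-- Abelian step for the lower limit. -/
theorem Sys.liminf_bound (S : Sys d n g v) {A κ : ℝ}
    (hA : ∀ η > 0, ∀ᶠ ε in 𝓝[>] (0 : ℝ), A - η < g ε)
    (h1 : ∀ η > 0, ∀ᶠ ε in 𝓝[>] (0 : ℝ), κ - η < v ε)
    (h2 : ∀ η > 0, ∃ᶠ ε in 𝓝[>] (0 : ℝ), v ε < κ + η) : A ≤ κ * (1 - d) := by
  have hkey : ∀ lam : ℝ, 0 < lam → lam < 1 → A ≤ κ * qq d lam := by
    intro lam hlam0 hlam1
    have hpos : 0 < 1 - lam := by linarith
    have hd := S.hd0
    have hd1 := S.hd1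
    have hp2 : lam ^ (1 - d) ≤ 1 := Real.rpow_le_one hlam0.le hlam1.le (by linarith)
    have hp2' : 0 < lam ^ (1 - d) := by positivity
    have hη : ∀ η > 0, (1 - lam) * A ≤ κ * (1 - lam ^ (1 - d)) + 3 * η := by
      intro η hη
      obtain ⟨ε, hε, ⟨hv1, hg1⟩, hε0⟩ := ((h2 η hη).and_eventually
        ((((tendsto_scale hlam0).eventually (h1 η hη)).and (hA η hη)).and
          self_mem_nhdsWithin)).exists
      have h3 := S.lower ε hε0 lam hlam0 hlam1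
      have e1 : (1 - lam) * (A - η) ≤ (1 - lam) * g ε :=
        mul_le_mul_of_nonneg_left hg1.le hpos.le
      have e2 : lam ^ (1 - d) * (κ - η) ≤ lam ^ (1 - d) * v (lam * ε) :=
        mul_le_mul_of_nonneg_left hv1.le hp2'.le
      have e3 : lam ^ (1 - d) * η ≤ 1 * η := mul_le_mul_of_nonneg_right hp2 hη.le
      have e4 : (1 - lam) * η ≤ 1 * η := mul_le_mul_of_nonneg_right (by linarith) hη.le
      linarith
    have hle : (1 - lam) * A ≤ κ * (1 - lam ^ (1 - d)) := by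
      apply le_of_forall_pos_le_add
      intro η hη'
      have := hη (η / 3) (by positivity)
      linarith
    unfold qq
    have : κ * ((1 - lam ^ (1 - d)) / (1 - lam)) =
        κ * (1 - lam ^ (1 - d)) / (1 - lam) := by ring
    rw [this, le_div_iff₀ hpos]
    linarith
  have ht : Tendsto (fun lam : ℝ => κ * qq d lam) (𝓝[<] 1) (𝓝 (κ * (1 - d))) :=
    (tendsto_qq d).const_mul κ
  have hev : ∀ᶠ lam : ℝ in 𝓝[<] 1, A ≤ κ * qq d lam := by
    have h3 : ∀ᶠ lam : ℝ in 𝓝[<] 1, 0 < lam :=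
      (lt_mem_nhds (zero_lt_one : (0 : ℝ) < 1)).filter_mono nhdsWithin_le_nhds
    filter_upwards [h3, self_mem_nhdsWithin] with lam h4 h5
    exact hkey lam h4 h5
  exact ge_of_tendsto ht hev

end

end Pool.Agent.V11112.FS
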