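import Mathlib
import Pool.Agent.V11112.FS3

set_option autoImplicit false

open Filter Topology

namespace Pool.Agent.V11112.FS

variable {d : ℝ} {n g v : ℝ → ℝ}

theorem lt_one_eventually_pos : ∀ᶠ lam : ℝ in 𝓝[<] 1, 0 < lam :=
  (lt_mem_nhds (zero_lt_one : (0 : ℝ) < 1)).filter_mono nhdsWithin_le_nhds

theorem tendsto_rpow_one {d : ℝ} : Tendsto (fun lam : ℝ => lam ^ d) (𝓝[<] 1) (𝓝 1) := by
  have := ((Real.continuousAt_rpow_const 1 d (Or.inl one_ne_zero)).tendsto).mono_left
      (nhdsWithin_le_nhds (s := Set.Iio (1 : ℝ)))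
  rwa [Real.one_rpow] at this

/-- Forward direction: if `g → a > 0` then `v → a / (1 - d)` and `n → a / (1 - d)`. -/
theorem Sys.forward (S : Sys d n g v) {a : ℝ} (ha : 0 < a) (hg : Tendsto g (𝓝[>] 0) (𝓝 a)) :
    Tendsto n (𝓝[>] 0) (𝓝 (a / (1 - d))) := by
  have hd0 := S.hd0
  have hd1 := S.hd1
  have h1d : 0 < 1 - d := by linarith
  obtain ⟨C, hC⟩ := S.v_bdd
  have hv0 : ∀ᶠ ε in 𝓝[>] (0 : ℝ), 0 ≤ v ε := by
    filter_upwards [self_mem_nhdsWithin] with ε hε
    exact S.v_nonneg ε hε
  have hv : Tendsto v (𝓝[>] 0) (𝓝 (a / (1 - d))) := by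
    obtain ⟨κ, hκ1, hκ2⟩ := exists_limsup hC hv0
    obtain ⟨τ, hτ1, hτ2⟩ := exists_liminf hC hv0
    have e1 := S.limsup_bound (A := a) (fun η hη => hg.eventually (gt_mem_nhds (by linarith)))
      hκ1 hκ2
    have e2 := S.liminf_bound (A := a) (fun η hη => hg.eventually (lt_mem_nhds (by linarith)))
      hτ1 hτ2
    have e3 : κ ≤ a / (1 - d) := by rwa [le_div_iff₀ h1d]
    have e4 : a / (1 - d) ≤ τ := by rwa [div_le_iff₀ h1d]
    rw [tendsto_order]
    constructor
    · intro b hb
      filter_upwards [hτ1 (a / (1 - d) - b) (by linarith)] with ε hε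
      linarith
    · intro b hb
      filter_upwards [hκ1 (b - a / (1 - d)) (by linarith)] with ε hε
      linarith
  set c := a / (1 - d) with hc
  have hac : a = (1 - d) * c := by
    rw [hc]
    field_simp
  have hc0 : 0 < c := by positivity
  obtain ⟨ht1, ht2, ht3, ht4⟩ := two_rpow_facts hd0 hd1
  set t := (2 : ℝ) ^ d with ht
  have hμ : Tendsto (fun ε => v ε - g ε) (𝓝[>] 0) (𝓝 (d * c)) := by
    have := hv.sub hg
    rw [hac] at this
    convert this using 2
    ring
  have hdc : 0 < d * c := by positivity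
  -- ρ between dc / t and dc
  set ρ := (d * c / t + d * c) / 2 with hρ
  have ht0 : 0 < t := by linarith
  have hlt : d * c / t < d * c := by
    rw [div_lt_iff₀ ht0]
    nlinarith
  have hρ1 : ρ < d * c := by rw [hρ]; linarith
  have hρ2 : d * c < t * ρ := by
    have e : d * c / t < ρ := by rw [hρ]; linarith
    rw [div_lt_iff₀ ht0] at e
    linarith
  have hρ0 : 0 < ρ := by
    have : 0 < d * c / t := by positivity
    rw [hρ]
    linarith
  have hperf := S.perf ρ hρ0 ((hμ.eventually (lt_mem_nhds hρ1)).mono fun ε h => h.le)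
  have hcond : ∀ᶠ ε in 𝓝[>] (0 : ℝ), t * g (2⁻¹ * ε) < v ε - ε ^ d := by
    have e1 : Tendsto (fun ε => t * g (2⁻¹ * ε)) (𝓝[>] 0) (𝓝 (t * a)) :=
      (hg.comp (tendsto_scale (by norm_num : (0 : ℝ) < 2⁻¹))).const_mul t
    have e2 : Tendsto (fun ε => v ε - ε ^ d) (𝓝[>] 0) (𝓝 (c - 0)) := hv.sub (tendsto_pow0 hd0)
    apply e1.eventually_lt e2
    rw [sub_zero, hac]
    nlinarith
  have hfin : ∀ᶠ ε in 𝓝[>] (0 : ℝ), v ε - ε ^ d ≤ n ε := by
    filter_upwards [hperf, hcond, hμ.eventually (gt_mem_nhds hρ2)] with ε h1 h2 h3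
    have := h1 h3.le h2.le
    linarith
  have hle : ∀ᶠ ε in 𝓝[>] (0 : ℝ), n ε ≤ v ε := by
    filter_upwards [self_mem_nhdsWithin] with ε hε
    exact S.n_le ε hε
  have hlow : Tendsto (fun ε => v ε - ε ^ d) (𝓝[>] 0) (𝓝 c) := by
    have := hv.sub (tendsto_pow0 hd0)
    rwa [sub_zero] at this
  exact tendsto_of_tendsto_of_tendsto_of_le_of_le' hlow hv hfin hle

/-- Backward direction: if `n → c > 0` then `v → c`. -/
theorem Sys.backward (S : Sys d n g v) {c : ℝ} (hc : 0 < c) (hn : Tendsto n (𝓝[>] 0) (𝓝 c)) :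
    Tendsto v (𝓝[>] 0) (𝓝 c) := by
  have hd0 := S.hd0
  have hd1 := S.hd1
  have h1d : 0 < 1 - d := by linarith
  obtain ⟨C, hC⟩ := S.v_bdd
  obtain ⟨ht1, ht2, ht3, ht4⟩ := two_rpow_facts hd0 hd1
  set t := (2 : ℝ) ^ d with ht
  have ht0 : 0 < t := by linarith
  have hv0 : ∀ᶠ ε in 𝓝[>] (0 : ℝ), 0 ≤ v ε := by
    filter_upwards [self_mem_nhdsWithin] with ε hε
    exact S.v_nonneg ε hε
  -- upper bound of g
  have hg : ∀ η > 0, ∀ᶠ ε in 𝓝[>] (0 : ℝ), g ε < (2 - t) * c + η := by
    intro η hη
    have e1 : Tendsto (fun ε => 2 * n ε - t * n (2⁻¹ * ε) + ε ^ d) (𝓝[>] 0)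
        (𝓝 (2 * c - t * c + 0)) :=
      ((hn.const_mul 2).sub ((hn.comp (tendsto_scale (by norm_num : (0 : ℝ) < 2⁻¹))).const_mul
        t)).add (tendsto_pow0 hd0)
    have e2 := e1.eventually (gt_mem_nhds (show 2 * c - t * c + 0 < (2 - t) * c + η by linarith))
    filter_upwards [e2, self_mem_nhdsWithin] with ε h1 h2
    exact (S.half ε h2).trans_lt h1
  -- lower bound of v
  have hvlow : ∀ η > 0, ∀ᶠ ε in 𝓝[>] (0 : ℝ), c - η < v ε := by
    intro η hη
    filter_upwards [hn.eventually (lt_mem_nhds (show c - η < c by linarith)),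
      self_mem_nhdsWithin] with ε h1 h2
    exact h1.trans_le (S.n_le ε h2)
  have hnup : ∀ η > 0, ∀ᶠ ε in 𝓝[>] (0 : ℝ), n ε + ε ^ d < c + η := by
    intro η hη
    have e1 : Tendsto (fun ε => n ε + ε ^ d) (𝓝[>] 0) (𝓝 (c + 0)) := hn.add (tendsto_pow0 hd0)
    exact e1.eventually (gt_mem_nhds (by linarith))
  -- the side condition holds eventually
  have hcond : ∀ᶠ ε in 𝓝[>] (0 : ℝ), t * g (2⁻¹ * ε) ≤ v ε - ε ^ d := by
    set η := (c - t * ((2 - t) * c)) / 4 with hη
    have hmargin : 0 < c - t * ((2 - t) * c) := by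
      have : c - t * ((2 - t) * c) = (t - 1) ^ 2 * c := by ring
      rw [this]
      have : 0 < t - 1 := by linarith
      positivity
    have hη0 : 0 < η := by rw [hη]; linarith
    have e1 := (tendsto_scale (by norm_num : (0 : ℝ) < 2⁻¹)).eventually (hg (η / t) (by positivity))
    have e2 := (tendsto_pow0 hd0).eventually (gt_mem_nhds hη0)
    filter_upwards [e1, hvlow η hη0, e2] with ε h1 h2 h3
    have h4 : t * g (2⁻¹ * ε) ≤ t * ((2 - t) * c + η / t) :=
      mul_le_mul_of_nonneg_left h1.le ht0.le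
    have h5 : t * ((2 - t) * c + η / t) = t * ((2 - t) * c) + η := by
      field_simp
    rw [h5] at h4
    linarith
  -- the upper limit of v
  obtain ⟨κ, hκ1, hκ2⟩ := exists_limsup hC hv0
  have hκc : c ≤ κ := by
    apply le_of_forall_pos_le_add
    intro η hη
    obtain ⟨ε, h1, h2⟩ := ((hvlow (η / 2) (by positivity)).and (hκ1 (η / 2) (by positivity))).exists
    linarith
  have hκup : κ * (1 - d) ≤ (2 - t) * c := S.limsup_bound hg hκ1 hκ2
  have hκt : κ < t * c := by
    have e1 : κ * (1 - d) < (t * c) * (1 - d) := by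
      calc κ * (1 - d) ≤ (2 - t) * c := hκup
        _ < ((1 - d) * t) * c := mul_lt_mul_of_pos_right ht3 hc
        _ = (t * c) * (1 - d) := by ring
    exact lt_of_mul_lt_mul_right e1 h1d.le
  -- the lower limit of μ
  have hμ0 : ∀ᶠ ε in 𝓝[>] (0 : ℝ), 0 ≤ v ε - g ε := by
    filter_upwards [self_mem_nhdsWithin] with ε hε
    have := S.g_le ε hε
    linarith
  have hμC : ∀ᶠ ε in 𝓝[>] (0 : ℝ), v ε - g ε ≤ C := by
    filter_upwards [hC, self_mem_nhdsWithin] with ε h1 h2
    have := S.g_nonneg ε h2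
    linarith
  obtain ⟨ρ, hρ1, hρ2⟩ := exists_liminf hμC hμ0
  have hρpos : 0 < ρ := by
    obtain ⟨ρ0, hρ0, hev⟩ := S.mu_pos
    obtain ⟨ε, h1, h2⟩ := ((hρ2 (ρ0 / 2) (by positivity)).and_eventually hev).exists
    linarith
  have hρlam : ∀ lam : ℝ, 0 < lam → lam < 1 → c - c * qq d lam ≤ ρ := by
    intro lam hlam0 hlam1
    have hpos : 0 < 1 - lam := by linarith
    have hp2 : lam ^ (1 - d) ≤ 1 := Real.rpow_le_one hlam0.le hlam1.le (by linarith)
    have hp2' : 0 < lam ^ (1 - d) := by positivity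
    -- small η
    have hη0 : 0 < ρ * (t - 1) / (t + 1) := by
      have : 0 < t - 1 := by linarith
      positivity
    have hmain : ∀ η, 0 < η → η ≤ ρ * (t - 1) / (t + 1) → η ≤ ρ / 2 →
        c - c * qq d lam ≤ ρ + (2 + 2 / (1 - lam)) * η := by
      intro η hη hη1 hη2
      have hle : ρ + η ≤ t * (ρ - η) := by
        rw [le_div_iff₀ (by linarith)] at hη1
        nlinarith
      have hperf := S.perf (ρ - η) (by linarith) ((hρ1 η hη).mono fun ε h => h.le)
      obtain ⟨ε, hε1, ⟨⟨⟨⟨h1, h2⟩, h3⟩, h4⟩, h5⟩, h6⟩ := ((hρ2 η hη).and_eventually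
        (((((hperf.and hcond).and (hnup η hη)).and (hvlow η hη)).and
          ((tendsto_scale hlam0).eventually (hvlow η hη))).and self_mem_nhdsWithin)).exists
      have h7 : v ε ≤ n ε + ε ^ d := h1 (by linarith) h2
      have h8 := S.lower ε h6 lam hlam0 hlam1
      have h9 : lam ^ (1 - d) * (c - η) ≤ lam ^ (1 - d) * v (lam * ε) :=
        mul_le_mul_of_nonneg_left h5.le hp2'.le
      have h10 : g ε ≤ (c + η - lam ^ (1 - d) * (c - η)) / (1 - lam) := by
        rw [le_div_iff₀ hpos]
        linarith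
      have h11 : (c + η - lam ^ (1 - d) * (c - η)) / (1 - lam) =
          c * qq d lam + (1 + lam ^ (1 - d)) * η / (1 - lam) := by
        unfold qq
        ring
      have h12 : (1 + lam ^ (1 - d)) * η / (1 - lam) ≤ 2 / (1 - lam) * η := by
        rw [div_mul_eq_mul_div]
        apply div_le_div_of_nonneg_right _ hpos.le
        nlinarith
      linarith
    apply le_of_forall_pos_le_add
    intro θ hθ
    have hK : 0 < 2 + 2 / (1 - lam) := by positivity
    set η := min (min (ρ * (t - 1) / (t + 1)) (ρ / 2)) (θ / (2 + 2 / (1 - lam))) with hη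
    have hηpos : 0 < η := lt_min (lt_min hη0 (by positivity)) (by positivity)
    have h1 := hmain η hηpos ((min_le_left _ _).trans (min_le_left _ _))
      ((min_le_left _ _).trans (min_le_right _ _))
    have h2 : (2 + 2 / (1 - lam)) * η ≤ θ := by
      have : η ≤ θ / (2 + 2 / (1 - lam)) := min_le_right _ _
      rw [le_div_iff₀ hK] at this
      linarith
    linarith
  have hρcd : c * d ≤ ρ := by
    have h1 : Tendsto (fun lam : ℝ => c - c * qq d lam) (𝓝[<] 1) (𝓝 (c - c * (1 - d))) :=
      tendsto_const_nhds.sub ((tendsto_qq d).const_mul c)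
    have h2 : c - c * (1 - d) ≤ ρ := by
      apply le_of_tendsto h1
      filter_upwards [lt_one_eventually_pos, self_mem_nhdsWithin] with lam h3 h4
      exact hρlam lam h3 h4
    linarith
  -- the key estimate: κ ≤ c
  have hκle : κ ≤ c := by
    -- for lam close to one
    have h1 : Tendsto (fun lam : ℝ => κ - lam ^ d * (κ * qq d lam)) (𝓝[<] 1)
        (𝓝 (κ - 1 * (κ * (1 - d)))) :=
      tendsto_const_nhds.sub (tendsto_rpow_one.mul ((tendsto_qq d).const_mul κ))
    have hlim : κ - 1 * (κ * (1 - d)) < t * (c * d) := by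
      have : κ - 1 * (κ * (1 - d)) = κ * d := by ring
      rw [this]
      nlinarith
    have h2 := h1.eventually (gt_mem_nhds hlim)
    have hclaim : ∀ᶠ lam : ℝ in 𝓝[<] 1, lam ^ d * κ ≤ c := by
      filter_upwards [h2, lt_one_eventually_pos, self_mem_nhdsWithin] with lam h3 hlam0 hlam1
      have hlam1 : lam < 1 := hlam1
      have hpos : 0 < 1 - lam := by linarith
      have hp1 : lam ^ d ≤ 1 := Real.rpow_le_one hlam0.le hlam1.le hd0.le
      have hp2 : lam ^ (1 - d) ≤ 1 := Real.rpow_le_one hlam0.le hlam1.le (by linarith)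
      have hp1' : 0 < lam ^ d := by positivity
      have hp2' : 0 < lam ^ (1 - d) := by positivity
      -- margin
      set m := t * (c * d) - (κ - lam ^ d * (κ * qq d lam)) with hm
      have hm0 : 0 < m := by rw [hm]; linarith
      set K := 1 + 2 / (1 - lam) + t with hK
      have hK0 : 0 < K := by rw [hK]; positivity
      have hmain : ∀ η, 0 < η → K * η ≤ m → η ≤ c * d / 2 → lam ^ d * κ ≤ c + 2 * η := by
        intro η hη hη1 hη2
        have hcd : 0 < c * d := by positivity
        have hperf := S.perf (c * d - η) (by linarith) ((hρ1 η hη).mono fun ε h => by linarith)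
        obtain ⟨ε, hε1, ⟨⟨⟨h4, h5⟩, h6⟩, h7⟩, h8⟩ := ((hκ2 η hη).and_eventually
          (((((tendsto_scale hlam0).eventually hperf).and
            ((tendsto_scale hlam0).eventually hcond)).and
            ((tendsto_scale hlam0).eventually (hnup η hη))).and
            ((tendsto_scale hlam0).eventually (hκ1 η hη)) |>.and self_mem_nhdsWithin)).exists
        have h9 := S.upper ε h8 lam hlam0 hlam1
        have h10 := S.conc ε h8 lam hlam0 hlam1
        have h11 : lam ^ d * ((κ - η) - lam ^ (1 - d) * (κ + η)) ≤ (1 - lam) * g (lam * ε) := by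
          have e2 : lam ^ (1 - d) * v (lam * ε) ≤ lam ^ (1 - d) * (κ + η) :=
            mul_le_mul_of_nonneg_left h7.le hp2'.le
          have e3 : lam ^ d * ((κ - η) - lam ^ (1 - d) * (κ + η)) ≤
              lam ^ d * (v ε - lam ^ (1 - d) * v (lam * ε)) :=
            mul_le_mul_of_nonneg_left (by linarith) hp1'.le
          linarith
        have h12 : lam ^ d * (κ * qq d lam) - 2 / (1 - lam) * η ≤ g (lam * ε) := by
          have e4 : lam ^ d * ((κ - η) - lam ^ (1 - d) * (κ + η)) / (1 - lam) ≤ g (lam * ε) := by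
            rw [div_le_iff₀ hpos]
            linarith
          have e5 : lam ^ d * ((κ - η) - lam ^ (1 - d) * (κ + η)) / (1 - lam) =
              lam ^ d * (κ * qq d lam) - lam ^ d * (1 + lam ^ (1 - d)) / (1 - lam) * η := by
            unfold qq
            ring
          have e6 : lam ^ d * (1 + lam ^ (1 - d)) / (1 - lam) * η ≤ 2 / (1 - lam) * η := by
            apply mul_le_mul_of_nonneg_right _ hη.le
            apply div_le_div_of_nonneg_right _ hpos.le
            nlinarith
          linarith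
        have h13 : v (lam * ε) - g (lam * ε) ≤ t * (c * d - η) := by
          have e7 : K * η = η + 2 / (1 - lam) * η + t * η := by
            rw [hK]
            ring
          rw [e7] at hη1
          linarith
        have h14 := h4 h13 h5
        have h15 : lam ^ d * (κ - η) ≤ lam ^ d * v ε :=
          mul_le_mul_of_nonneg_left hε1.le hp1'.le
        nlinarith
      apply le_of_forall_pos_le_add
      intro θ hθ
      have hcd : 0 < c * d := by positivity
      set η := min (min (m / K) (c * d / 2)) (θ / 2) with hη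
      have hηpos : 0 < η := lt_min (lt_min (by positivity) (by positivity)) (by positivity)
      have e1 : K * η ≤ m := by
        have : η ≤ m / K := (min_le_left _ _).trans (min_le_left _ _)
        rw [le_div_iff₀ hK0] at this
        linarith
      have e2 := hmain η hηpos e1 ((min_le_left _ _).trans (min_le_right _ _))
      have e3 : η ≤ θ / 2 := min_le_right _ _
      linarith
    have h3 : Tendsto (fun lam : ℝ => lam ^ d * κ) (𝓝[<] 1) (𝓝 (1 * κ)) :=
      tendsto_rpow_one.mul_const κ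
    rw [one_mul] at h3
    exact le_of_tendsto h3 hclaim
  rw [tendsto_order]
  constructor
  · intro b hb
    filter_upwards [hvlow (c - b) (by linarith)] with ε hε
    linarith
  · intro b hb
    filter_upwards [hκ1 (b - κ) (by linarith)] with ε hε
    linarith

end Pool.Agent.V11112.FS
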