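import Mathlib
import Pool.Agent.V11112.FS2
import Pool.Agent.V11112.FS4

set_option autoImplicit false

open Filter Topology

namespace Pool.Agent.V11112.FS

variable {l : ℕ → ℝ} {d : ℝ}

noncomputable def nf (l : ℕ → ℝ) (d ε : ℝ) : ℝ := massN l ε * ε ^ d
noncomputable def gf (l : ℕ → ℝ) (d ε : ℝ) : ℝ := cnt l ε * ε ^ d
noncomputable def vf (l : ℕ → ℝ) (d ε : ℝ) : ℝ := V l ε * ε ^ (d - 1)

theorem pow_split {d ε : ℝ} (hε : 0 < ε) : ε ^ d = ε * ε ^ (d - 1) := by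
  rw [Real.rpow_sub_one hε.ne']
  field_simp

theorem V_nonneg (hpos : ∀ j, 0 < l j) {ε : ℝ} (hε : 0 < ε) : 0 ≤ V l ε :=
  tsum_nonneg fun j => le_min (hpos j).le hε.le

theorem tendsto_V (hpos : ∀ j, 0 < l j) (hsum : Summable l) :
    Tendsto (V l) (𝓝[>] 0) (𝓝 0) := by
  have h : Tendsto (fun ε => ∑' j, min (l j) ε) (𝓝[>] (0 : ℝ)) (𝓝 (∑' _j : ℕ, (0 : ℝ))) := by
    apply tendsto_tsum_of_dominated_convergence hsum
    · intro j
      have h1 : Tendsto (fun ε : ℝ => min (l j) ε) (𝓝 0) (𝓝 (min (l j) 0)) :=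
        (continuous_const.min continuous_id).tendsto 0
      rw [min_eq_right (hpos j).le] at h1
      exact h1.mono_left nhdsWithin_le_nhds
    · filter_upwards [self_mem_nhdsWithin] with ε hε j
      rw [Real.norm_eq_abs, abs_of_nonneg (le_min (hpos j).le (le_of_lt hε))]
      exact min_le_left _ _
  rw [tsum_zero] at h
  exact h

/-- The sequence has Minkowski dimension `d` (global bounds). -/
structure Bnd (l : ℕ → ℝ) (d a b : ℝ) (J0 : ℕ) : Prop where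
  hd0 : 0 < d
  hd1 : d < 1
  hpos : ∀ j, 0 < l j
  hanti : Antitone l
  ha : 0 < a
  hb : 0 < b
  low : ∀ j, J0 ≤ j → a ≤ l j * ((j : ℝ) + 1) ^ (1 / d)
  up : ∀ j, l j * ((j : ℝ) + 1) ^ (1 / d) ≤ b

theorem Bnd.summable {a b : ℝ} {J0 : ℕ} (h : Bnd l d a b J0) : Summable l := by
  have h1 : Summable fun j : ℕ => b * (1 / ((j : ℝ) + 1) ^ (1 / d)) := by
    apply Summable.mul_left
    have h2 : 1 < 1 / d := by
      rw [lt_div_iff₀ h.hd0]
      linarith [h.hd1]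
    have h3 := Real.summable_one_div_nat_rpow.2 h2
    have h4 := (summable_nat_add_iff 1).2 h3
    refine h4.congr fun j => ?_
    push_cast
    rfl
  refine Summable.of_nonneg_of_le (fun j => (h.hpos j).le) (fun j => ?_) h1
  have h5 : 0 < ((j : ℝ) + 1) ^ (1 / d) := by positivity
  rw [mul_one_div, le_div_iff₀ h5]
  exact h.up j

theorem Bnd.cnt_le {a b : ℝ} {J0 : ℕ} (h : Bnd l d a b J0) {ε : ℝ} (hε : 0 < ε) :
    gf l d ε ≤ b ^ d := by
  unfold gf
  rcases Nat.eq_zero_or_pos (cnt l ε) with h0 | h0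
  · rw [h0]
    have : 0 < b ^ d := Real.rpow_pos_of_pos h.hb d
    simpa using this.le
  · obtain ⟨k, hk⟩ : ∃ k, cnt l ε = k + 1 := ⟨cnt l ε - 1, by omega⟩
    have h1 : ε ≤ l k := le_of_lt_cnt (by omega)
    have h2 := h.up k
    have h3 : ε * ((k : ℝ) + 1) ^ (1 / d) ≤ b :=
      (mul_le_mul_of_nonneg_right h1 (by positivity)).trans h2
    have h4 := Real.rpow_le_rpow (by positivity) h3 h.hd0.le
    rw [Real.mul_rpow hε.le (by positivity), ← Real.rpow_mul (by positivity),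
      one_div_mul_cancel h.hd0.ne', Real.rpow_one] at h4
    rw [hk]
    push_cast
    linarith

theorem gf_nonneg {ε : ℝ} (hε : 0 < ε) : 0 ≤ gf l d ε := by
  unfold gf
  positivity

theorem gf_le_vf (hpos : ∀ j, 0 < l j) (hanti : Antitone l) (hsum : Summable l) {ε : ℝ}
    (hε : 0 < ε) : gf l d ε ≤ vf l d ε := by
  unfold gf vf
  rw [pow_split (d := d) hε, ← mul_assoc]
  apply mul_le_mul_of_nonneg_right _ (by positivity)
  rw [V_eq hpos hanti hsum hε]
  have : 0 ≤ ∑' j, l (j + cnt l ε) := tsum_nonneg fun j => (hpos _).le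
  linarith

theorem lower_aux (hpos : ∀ j, 0 < l j) (hsum : Summable l) {ε lam : ℝ}
    (hε : 0 < ε) (h0 : 0 < lam) (h1 : lam < 1) :
    (1 - lam) * gf l d ε ≤ vf l d ε - lam ^ (1 - d) * vf l d (lam * ε) := by
  unfold gf vf
  have e1 : lam ^ (1 - d) * (V l (lam * ε) * (lam * ε) ^ (d - 1)) =
      V l (lam * ε) * ε ^ (d - 1) := by
    rw [Real.mul_rpow h0.le hε.le]
    have : lam ^ (1 - d) * lam ^ (d - 1) = 1 := by
      rw [← Real.rpow_add h0]
      norm_num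
    calc lam ^ (1 - d) * (V l (lam * ε) * (lam ^ (d - 1) * ε ^ (d - 1))) =
        (lam ^ (1 - d) * lam ^ (d - 1)) * (V l (lam * ε) * ε ^ (d - 1)) := by ring
      _ = _ := by rw [this, one_mul]
  rw [e1, pow_split (d := d) hε, ← sub_mul]
  have h2 := V_sub_ge hpos hsum (mul_pos h0 hε) (by nlinarith : lam * ε ≤ ε)
  have h3 : 0 ≤ ε ^ (d - 1) := by positivity
  have h4 := mul_le_mul_of_nonneg_right h2 h3
  calc (1 - lam) * (cnt l ε * (ε * ε ^ (d - 1))) = (ε - lam * ε) * cnt l ε * ε ^ (d - 1) := by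
        ring
    _ ≤ _ := h4

theorem upper_aux (hpos : ∀ j, 0 < l j) (hanti : Antitone l) (hsum : Summable l) {ε lam : ℝ}
    (hε : 0 < ε) (h0 : 0 < lam) (h1 : lam < 1) :
    lam ^ d * (vf l d ε - lam ^ (1 - d) * vf l d (lam * ε)) ≤ (1 - lam) * gf l d (lam * ε) := by
  unfold gf vf
  have e1 : lam ^ (1 - d) * (V l (lam * ε) * (lam * ε) ^ (d - 1)) =
      V l (lam * ε) * ε ^ (d - 1) := by
    rw [Real.mul_rpow h0.le hε.le]
    have : lam ^ (1 - d) * lam ^ (d - 1) = 1 := by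
      rw [← Real.rpow_add h0]
      norm_num
    calc lam ^ (1 - d) * (V l (lam * ε) * (lam ^ (d - 1) * ε ^ (d - 1))) =
        (lam ^ (1 - d) * lam ^ (d - 1)) * (V l (lam * ε) * ε ^ (d - 1)) := by ring
      _ = _ := by rw [this, one_mul]
  rw [e1, Real.mul_rpow h0.le hε.le, pow_split (d := d) hε, ← sub_mul]
  have h2 := V_sub_le hpos hanti hsum (mul_pos h0 hε) (by nlinarith : lam * ε ≤ ε)
  have h3 : 0 ≤ lam ^ d * ε ^ (d - 1) := by positivity
  have h4 := mul_le_mul_of_nonneg_right h2 h3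
  calc lam ^ d * ((V l ε - V l (lam * ε)) * ε ^ (d - 1)) =
        (V l ε - V l (lam * ε)) * (lam ^ d * ε ^ (d - 1)) := by ring
    _ ≤ (ε - lam * ε) * cnt l (lam * ε) * (lam ^ d * ε ^ (d - 1)) := h4
    _ = _ := by ring

theorem conc_aux (hpos : ∀ j, 0 < l j) (hsum : Summable l) {ε lam : ℝ}
    (hε : 0 < ε) (h0 : 0 < lam) (h1 : lam < 1) :
    lam ^ d * vf l d ε ≤ vf l d (lam * ε) := by
  unfold vf
  rw [Real.mul_rpow h0.le hε.le, pow_split (d := d) h0]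
  have h2 := V_mul_ge hpos hsum hε h0 h1.le
  have h3 : 0 ≤ lam ^ (d - 1) * ε ^ (d - 1) := by positivity
  have h4 := mul_le_mul_of_nonneg_right h2 h3
  calc lam * lam ^ (d - 1) * (V l ε * ε ^ (d - 1)) =
        lam * V l ε * (lam ^ (d - 1) * ε ^ (d - 1)) := by ring
    _ ≤ _ := h4

theorem nf_le_vf (hpos : ∀ j, 0 < l j) (hsum : Summable l) {ε : ℝ}
    (hε : 0 < ε) : nf l d ε ≤ vf l d ε := by
  unfold nf vf
  rw [pow_split (d := d) hε, ← mul_assoc]
  exact mul_le_mul_of_nonneg_right (massN_le hpos hsum hε) (by positivity)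

theorem half_aux (hpos : ∀ j, 0 < l j) (hsum : Summable l) {ε : ℝ}
    (hε : 0 < ε) : gf l d ε ≤ 2 * nf l d ε - 2 ^ d * nf l d (2⁻¹ * ε) + ε ^ d := by
  unfold gf nf
  have h1 := halving hpos hsum hε
  have h2 : (cnt l ε : ℝ) + massN l (ε / 2) ≤ 2 * massN l ε + 1 := by exact_mod_cast h1
  have h3 : (2 : ℝ)⁻¹ * ε = ε / 2 := by ring
  rw [h3]
  have h4 : (2 : ℝ) ^ d * (massN l (ε / 2) * (ε / 2) ^ d) = massN l (ε / 2) * ε ^ d := by
    rw [Real.div_rpow hε.le (by norm_num)]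
    field_simp
  rw [h4]
  have h5 : 0 ≤ ε ^ d := by positivity
  have h6 := mul_le_mul_of_nonneg_right h2 h5
  linarith

theorem vf_bdd {a b : ℝ} {J0 : ℕ} (h : Bnd l d a b J0) :
    ∃ C : ℝ, ∀ ε > 0, vf l d ε ≤ C := by
  have hd1 := h.hd1
  set r : ℝ := (2 : ℝ)⁻¹ ^ (1 - d) with hr
  have hr0 : 0 < r := by positivity
  have hr1 : r < 1 := Real.rpow_lt_one (by norm_num) (by norm_num) (by linarith)
  have hb : 0 < b ^ d := Real.rpow_pos_of_pos h.hb d
  set K : ℝ := r * b ^ d / (1 - r) with hK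
  have hsum := h.summable
  have hstep : ∀ ε > 0, V l ε - K * ε ^ (1 - d) ≤ V l (2⁻¹ * ε) - K * (2⁻¹ * ε) ^ (1 - d) := by
    intro ε hε
    have h2 := V_sub_le h.hpos h.hanti hsum (ε := ε) (ε' := 2⁻¹ * ε) (by positivity)
      (by linarith)
    have h3 := h.cnt_le (ε := 2⁻¹ * ε) (by positivity)
    unfold gf at h3
    have h4 : (2⁻¹ * ε) = (2⁻¹ * ε) ^ d * (2⁻¹ * ε) ^ (1 - d) := by
      rw [← Real.rpow_add (by positivity)]
      norm_num
    have h5 : (ε - 2⁻¹ * ε) * cnt l (2⁻¹ * ε) ≤ b ^ d * (2⁻¹ * ε) ^ (1 - d) := by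
      generalize (cnt l (2⁻¹ * ε) : ℝ) = k at h3 ⊢
      calc (ε - 2⁻¹ * ε) * k = k * (2⁻¹ * ε) := by ring
        _ = (k * (2⁻¹ * ε) ^ d) * (2⁻¹ * ε) ^ (1 - d) := by
            rw [mul_assoc, ← h4]
        _ ≤ b ^ d * (2⁻¹ * ε) ^ (1 - d) := mul_le_mul_of_nonneg_right h3 (by positivity)
    have h6 : (2⁻¹ * ε) ^ (1 - d) = r * ε ^ (1 - d) := Real.mul_rpow (by norm_num) hε.le
    rw [h6] at h5 ⊢
    have h7 : K * ε ^ (1 - d) - K * (r * ε ^ (1 - d)) = b ^ d * (r * ε ^ (1 - d)) := by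
      have : K * (1 - r) = r * b ^ d := by
        rw [hK]
        have : (1 - r) ≠ 0 := by linarith
        field_simp
      calc K * ε ^ (1 - d) - K * (r * ε ^ (1 - d)) = K * (1 - r) * ε ^ (1 - d) := by ring
        _ = _ := by rw [this]; ring
    linarith
  have hiter : ∀ ε > 0, ∀ M : ℕ, V l ε - K * ε ^ (1 - d) ≤ V l (2⁻¹ ^ M * ε) := by
    intro ε hε M
    have h1 : V l ε - K * ε ^ (1 - d) ≤
        V l (2⁻¹ ^ M * ε) - K * (2⁻¹ ^ M * ε) ^ (1 - d) := by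
      induction M with
      | zero => simp
      | succ M ih =>
        have := hstep (2⁻¹ ^ M * ε) (by positivity)
        have e : 2⁻¹ * (2⁻¹ ^ M * ε) = (2 : ℝ)⁻¹ ^ (M + 1) * ε := by ring
        rw [e] at this
        linarith
    have h2 : 0 ≤ K * (2⁻¹ ^ M * ε) ^ (1 - d) := by
      have : 0 < K := by
        rw [hK]
        have : 0 < 1 - r := by linarith
        positivity
      positivity
    linarith
  refine ⟨K, fun ε hε => ?_⟩
  have hlim : Tendsto (fun M : ℕ => V l (2⁻¹ ^ M * ε)) atTop (𝓝 0) := by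
    apply (tendsto_V h.hpos hsum).comp
    apply tendsto_nhdsWithin_of_tendsto_nhds_of_eventually_within
    · have := (tendsto_pow_atTop_nhds_zero_of_lt_one (r := (2 : ℝ)⁻¹) (by norm_num)
        (by norm_num)).mul_const ε
      rwa [zero_mul] at this
    · exact Eventually.of_forall fun M => Set.mem_Ioi.2 (by positivity)
  have h1 : V l ε - K * ε ^ (1 - d) ≤ 0 :=
    ge_of_tendsto hlim (Eventually.of_forall (hiter ε hε))
  unfold vf
  have h2 : K = K * ε ^ (1 - d) * ε ^ (d - 1) := by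
    rw [mul_assoc, ← Real.rpow_add hε]
    norm_num
  rw [h2]
  exact mul_le_mul_of_nonneg_right (by linarith) (by positivity)

theorem tail_eq (hpos : ∀ j, 0 < l j) (hanti : Antitone l) (hsum : Summable l) {ε : ℝ}
    (hε : 0 < ε) : ∑' j, l (j + cnt l ε) = (vf l d ε - gf l d ε) * ε ^ (1 - d) := by
  unfold vf gf
  have h1 : ε ^ (d - 1) * ε ^ (1 - d) = 1 := by
    rw [← Real.rpow_add hε]
    norm_num
  have h2 : ε ^ d * ε ^ (1 - d) = ε := by
    rw [← Real.rpow_add hε]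
    norm_num
  have h3 : (V l ε * ε ^ (d - 1) - cnt l ε * ε ^ d) * ε ^ (1 - d) =
      V l ε * (ε ^ (d - 1) * ε ^ (1 - d)) - cnt l ε * (ε ^ d * ε ^ (1 - d)) := by ring
  rw [h3, h1, h2, V_eq hpos hanti hsum hε]
  ring

theorem tail_anti (hpos : ∀ j, 0 < l j) (hsum : Summable l) {k m : ℕ} (h : k ≤ m) :
    ∑' j, l (j + m) ≤ ∑' j, l (j + k) := by
  obtain ⟨q, rfl⟩ := Nat.exists_eq_add_of_le h
  have hs : Summable fun j => l (j + k) := (summable_nat_add_iff k).2 hsum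
  rw [← hs.sum_add_tsum_nat_add q]
  have h1 : 0 ≤ ∑ j ∈ Finset.range q, l (j + k) := Finset.sum_nonneg fun j _ => (hpos _).le
  have h2 : ∑' j, l (j + q + k) = ∑' j, l (j + (k + q)) := by
    apply tsum_congr
    intro j
    congr 1
    ring
  rw [h2]
  linarith

theorem perf_aux {a b : ℝ} {J0 : ℕ} (h : Bnd l d a b J0) {ρ : ℝ} (hρ : 0 < ρ)
    (hev : ∀ᶠ s in 𝓝[>] (0 : ℝ), ρ ≤ vf l d s - gf l d s) :
    ∀ᶠ ε in 𝓝[>] (0 : ℝ), (vf l d ε - gf l d ε) ≤ 2 ^ d * ρ →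
      2 ^ d * gf l d (2⁻¹ * ε) ≤ vf l d ε - ε ^ d → vf l d ε ≤ nf l d ε + ε ^ d := by
  have hsum := h.summable
  have hd0 := h.hd0
  rw [eventually_nhdsWithin_iff, Metric.eventually_nhds_iff] at hev
  obtain ⟨s0, hs0, hev⟩ := hev
  have hev' : ∀ s : ℝ, 0 < s → s < s0 → ρ ≤ vf l d s - gf l d s := by
    intro s h1 h2
    apply hev _ h1
    rw [Real.dist_eq, sub_zero, abs_of_pos h1]
    exact h2
  have hsm : ∀ᶠ ε in 𝓝[>] (0 : ℝ), ε < s0 :=
    (gt_mem_nhds hs0).filter_mono nhdsWithin_le_nhds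
  filter_upwards [hsm, self_mem_nhdsWithin] with ε hεs hε h1 h2
  have hε : 0 < ε := hε
  set M := ∑' j, l (j + cnt l ε) with hM
  have hMn : 0 ≤ M := tsum_nonneg fun j => (h.hpos _).le
  set B := ⌊M / ε⌋₊ with hB
  have hB1 : (B : ℝ) ≤ M / ε := Nat.floor_le (by positivity)
  have hB2 : M / ε < B + 1 := Nat.lt_floor_add_one _
  have hBM : (B : ℝ) * ε ≤ M := by rwa [le_div_iff₀ hε] at hB1
  have hVeq := V_eq h.hpos h.hanti hsum hε
  have hpos1 : 0 < ε ^ (d - 1) := by positivity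
  have hVB : V l ε < (cnt l ε + B + 1) * ε := by
    rw [div_lt_iff₀ hε] at hB2
    rw [hVeq]
    linarith
  -- cnt (ε/2) ≤ cnt ε + B
  have hcnt : cnt l (2⁻¹ * ε) ≤ cnt l ε + B := by
    have e1 : (2 : ℝ) ^ d * gf l d (2⁻¹ * ε) = cnt l (2⁻¹ * ε) * ε * ε ^ (d - 1) := by
      unfold gf
      rw [Real.mul_rpow (by norm_num) hε.le, pow_split (d := d) hε]
      have : (2 : ℝ) ^ d * (2 : ℝ)⁻¹ ^ d = 1 := by
        rw [← Real.mul_rpow (by norm_num) (by norm_num)]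
        norm_num
      calc (2 : ℝ) ^ d * (cnt l (2⁻¹ * ε) * (2⁻¹ ^ d * (ε * ε ^ (d - 1)))) =
          ((2 : ℝ) ^ d * (2 : ℝ)⁻¹ ^ d) * (cnt l (2⁻¹ * ε) * ε * ε ^ (d - 1)) := by ring
        _ = _ := by rw [this, one_mul]
    have e2 : vf l d ε - ε ^ d = (V l ε - ε) * ε ^ (d - 1) := by
      unfold vf
      rw [pow_split (d := d) hε]
      ring
    rw [e1, e2] at h2
    have h3 : (cnt l (2⁻¹ * ε) : ℝ) * ε ≤ V l ε - ε := le_of_mul_le_mul_right h2 hpos1
    have h4 : (cnt l (2⁻¹ * ε) : ℝ) * ε < (cnt l ε + B) * ε := by linarith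
    have h5 : (cnt l (2⁻¹ * ε) : ℝ) < cnt l ε + B := lt_of_mul_lt_mul_right h4 hε.le
    have h6 : (cnt l (2⁻¹ * ε) : ℝ) < ((cnt l ε + B : ℕ) : ℝ) := by
      push_cast
      exact h5
    exact (Nat.cast_lt.1 h6).le
  have hN : cnt l ε + B ≤ massN l ε := by
    apply perfect h.hpos h.hanti hsum hε hBM
    intro J hJ
    have hlJ : l J < 2⁻¹ * ε :=
      lt_of_cnt_le h.hanti hsum (by positivity) (hcnt.trans hJ)
    have hs := h.hpos J
    have h3 := hev' (l J) hs (by linarith)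
    have h4 := tail_eq (d := d) h.hpos h.hanti hsum hs
    have h5 : J + 1 ≤ cnt l (l J) := lt_cnt_of_le h.hanti hsum hs le_rfl
    have h6 := tail_anti h.hpos hsum h5
    have h7 : ρ * l J ^ (1 - d) ≤ ∑' j, l (j + cnt l (l J)) := by
      rw [h4]
      exact mul_le_mul_of_nonneg_right h3 (by positivity)
    refine le_trans ?_ (h7.trans h6)
    -- B * l J ≤ ρ * (l J)^(1-d)
    have h8 : M ≤ 2 ^ d * ρ * ε ^ (1 - d) := by
      rw [hM, tail_eq (d := d) h.hpos h.hanti hsum hε]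
      exact mul_le_mul_of_nonneg_right h1 (by positivity)
    have h9 : (B : ℝ) * l J ≤ M / ε * l J := mul_le_mul_of_nonneg_right hB1 hs.le
    refine h9.trans ?_
    have e1 : ε ^ (1 - d) = ε * (ε ^ d)⁻¹ := by
      rw [Real.rpow_sub hε, Real.rpow_one]
      rfl
    have h10 : M / ε * l J ≤ 2 ^ d * ρ * (ε ^ d)⁻¹ * l J := by
      apply mul_le_mul_of_nonneg_right _ hs.le
      rw [div_le_iff₀ hε]
      rw [e1] at h8
      linarith
    refine h10.trans ?_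
    have e2 : l J = l J ^ d * l J ^ (1 - d) := by
      rw [← Real.rpow_add hs]
      norm_num
    have h11 : 2 ^ d * (ε ^ d)⁻¹ * l J ^ d ≤ 1 := by
      have h12 : (2 * l J) ^ d ≤ ε ^ d :=
        Real.rpow_le_rpow (by positivity) (by linarith) hd0.le
      rw [Real.mul_rpow (by norm_num) hs.le] at h12
      have h13 : 0 < ε ^ d := by positivity
      calc (2 : ℝ) ^ d * (ε ^ d)⁻¹ * l J ^ d = (2 ^ d * l J ^ d) * (ε ^ d)⁻¹ := by ring
        _ ≤ ε ^ d * (ε ^ d)⁻¹ := mul_le_mul_of_nonneg_right h12 (by positivity)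
        _ = 1 := mul_inv_cancel₀ h13.ne'
    calc 2 ^ d * ρ * (ε ^ d)⁻¹ * l J = (2 ^ d * (ε ^ d)⁻¹ * l J ^ d) * (ρ * l J ^ (1 - d)) := by
          conv_lhs => rw [e2]
          ring
      _ ≤ 1 * (ρ * l J ^ (1 - d)) := mul_le_mul_of_nonneg_right h11 (by positivity)
      _ = _ := one_mul _
  have hN' : (cnt l ε : ℝ) + B ≤ massN l ε := by exact_mod_cast hN
  unfold vf nf
  rw [pow_split (d := d) hε]
  have h3 : V l ε ≤ (massN l ε + 1) * ε := by
    have : (cnt l ε + B + 1) * ε ≤ (massN l ε + 1) * ε :=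
      mul_le_mul_of_nonneg_right (by linarith) hε.le
    linarith
  have h4 := mul_le_mul_of_nonneg_right h3 hpos1.le
  linarith

end Pool.Agent.V11112.FS
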