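import Mathlib
import Pool.Agent.V11112.FS5

set_option autoImplicit false

open Filter Topology

namespace Pool.Agent.V11112.FS

variable {l : ℕ → ℝ} {d : ℝ}

theorem mu_pos_aux {a b : ℝ} {J0 : ℕ} (h : Bnd l d a b J0) :
    ∃ ρ : ℝ, 0 < ρ ∧ ∀ᶠ s in 𝓝[>] (0 : ℝ), ρ ≤ vf l d s - gf l d s := by
  have hd0 := h.hd0
  have hd1 := h.hd1
  have hsum := h.summable
  have hb : 0 < b ^ d := Real.rpow_pos_of_pos h.hb d
  set p : ℝ := 1 / d with hp
  have hp1 : 1 < p := by
    rw [hp, lt_div_iff₀ hd0]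
    linarith
  have hdp : d * p = 1 := by
    rw [hp]
    field_simp
  set C2 : ℝ := b ^ d + J0 + 2 with hC2
  have hC2pos : 0 < C2 := by positivity
  refine ⟨a / 3 * (3 * C2) ^ (1 - p), by have := h.ha; positivity, ?_⟩
  have hsm : ∀ᶠ s in 𝓝[>] (0 : ℝ), s < 1 :=
    (gt_mem_nhds one_pos).filter_mono nhdsWithin_le_nhds
  filter_upwards [hsm, self_mem_nhdsWithin] with s hs1 hs
  have hs : 0 < s := hs
  set x : ℝ := (s ^ d)⁻¹ with hx
  have hsd : 0 < s ^ d := by positivity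
  have hx0 : 0 < x := by positivity
  have hx1 : 1 ≤ x := by
    rw [hx]
    exact (one_le_inv₀ hsd).2 (Real.rpow_le_one hs.le hs1.le hd0.le)
  have hcnt : (cnt l s : ℝ) ≤ b ^ d * x := by
    have := h.cnt_le hs
    unfold gf at this
    rw [hx, ← div_eq_mul_inv, le_div_iff₀ hsd]
    exact this
  set K : ℕ := ⌈b ^ d * x⌉₊ + J0 + 1 with hK
  have hKcnt : cnt l s ≤ K := by
    have h1 : cnt l s ≤ ⌈b ^ d * x⌉₊ := by
      rw [← Nat.cast_le (α := ℝ)]
      exact hcnt.trans (Nat.le_ceil _)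
    omega
  have hKup : (K : ℝ) ≤ C2 * x := by
    have h1 : ((⌈b ^ d * x⌉₊ : ℕ) : ℝ) < b ^ d * x + 1 := Nat.ceil_lt_add_one (by positivity)
    rw [hK, hC2]
    push_cast
    have h2 : (J0 : ℝ) ≤ J0 * x := by
      have : (0 : ℝ) ≤ J0 := by positivity
      nlinarith
    nlinarith
  have hK1 : (1 : ℝ) ≤ K := by
    have : 1 ≤ K := by omega
    exact_mod_cast this
  have hl2K : a / (3 * (K : ℝ)) ^ p ≤ l (2 * K) := by
    have h1 := h.low (2 * K) (by omega)
    have h2 : ((2 * K : ℕ) : ℝ) + 1 ≤ 3 * K := by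
      push_cast
      linarith
    rw [div_le_iff₀ (by positivity)]
    refine h1.trans ?_
    apply mul_le_mul_of_nonneg_left _ (h.hpos _).le
    exact Real.rpow_le_rpow (by positivity) h2 (by positivity)
  have htail : (K : ℝ) * l (2 * K) ≤ ∑' j, l (j + cnt l s) := by
    refine le_trans ?_ (tail_anti h.hpos hsum hKcnt)
    have hs' : Summable fun j => l (j + K) := (summable_nat_add_iff K).2 hsum
    refine le_trans ?_ (hs'.sum_le_tsum (Finset.range K) (fun j _ => (h.hpos _).le))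
    calc (K : ℝ) * l (2 * K) = ∑ _j ∈ Finset.range K, l (2 * K) := by simp
      _ ≤ _ := Finset.sum_le_sum fun j hj => h.hanti (by
        have := Finset.mem_range.1 hj
        omega)
  rw [tail_eq (d := d) h.hpos h.hanti hsum hs] at htail
  have h3K : (1 : ℝ) / 3 * (3 * (K : ℝ)) ^ (1 - p) = K / (3 * (K : ℝ)) ^ p := by
    rw [Real.rpow_sub (by positivity), Real.rpow_one]
    ring
  have h4 : (3 * C2) ^ (1 - p) * s ^ (1 - d) ≤ (3 * (K : ℝ)) ^ (1 - p) := by
    have h5 : (3 * C2 * x) ^ (1 - p) ≤ (3 * (K : ℝ)) ^ (1 - p) :=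
      Real.rpow_le_rpow_of_nonpos (by positivity) (by linarith) (by linarith)
    rw [Real.mul_rpow (by positivity) hx0.le] at h5
    have h6 : x ^ (1 - p) = s ^ (1 - d) := by
      rw [hx, ← Real.rpow_neg hs.le, ← Real.rpow_mul hs.le]
      congr 1
      linarith
    rwa [h6] at h5
  have h7 : a / 3 * (3 * C2) ^ (1 - p) * s ^ (1 - d) ≤
      (vf l d s - gf l d s) * s ^ (1 - d) := by
    refine le_trans ?_ htail
    calc a / 3 * (3 * C2) ^ (1 - p) * s ^ (1 - d) =
          a * (1 / 3 * ((3 * C2) ^ (1 - p) * s ^ (1 - d))) := by ring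
      _ ≤ a * (1 / 3 * (3 * (K : ℝ)) ^ (1 - p)) := by
          apply mul_le_mul_of_nonneg_left _ h.ha.le
          linarith
      _ = (K : ℝ) * (a / (3 * (K : ℝ)) ^ p) := by
          rw [h3K]
          ring
      _ ≤ (K : ℝ) * l (2 * K) := mul_le_mul_of_nonneg_left hl2K (by positivity)
  exact le_of_mul_le_mul_right h7 (by positivity)

theorem Bnd.sys {a b : ℝ} {J0 : ℕ} (h : Bnd l d a b J0) :
    Sys d (nf l d) (gf l d) (vf l d) := by
  have hsum := h.summable
  refine ⟨h.hd0, h.hd1, fun ε hε => gf_nonneg hε, fun ε hε => ?_, fun ε hε =>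
    gf_le_vf h.hpos h.hanti hsum hε, ?_, fun ε hε lam h0 h1 => lower_aux h.hpos hsum hε h0 h1,
    fun ε hε lam h0 h1 => upper_aux h.hpos h.hanti hsum hε h0 h1,
    fun ε hε lam h0 h1 => conc_aux h.hpos hsum hε h0 h1, fun ε hε => nf_le_vf h.hpos hsum hε,
    fun ε hε => half_aux h.hpos hsum hε, fun ρ hρ hev => perf_aux h hρ hev, mu_pos_aux h⟩
  · unfold vf
    exact mul_nonneg (V_nonneg h.hpos hε) (Real.rpow_nonneg (le_of_lt hε) _)
  · obtain ⟨C, hC⟩ := vf_bdd h
    refine ⟨C, ?_⟩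
    filter_upwards [self_mem_nhdsWithin] with ε hε
    exact hC ε hε

theorem U_eq (hpos : ∀ j, 0 < l j) (hd0 : 0 < d) (j : ℕ) :
    (l j * ((j : ℝ) + 1) ^ (1 / d)) ^ d = ((j : ℝ) + 1) * l j ^ d := by
  rw [Real.mul_rpow (hpos j).le (by positivity), ← Real.rpow_mul (by positivity),
    one_div_mul_cancel hd0.ne', Real.rpow_one, mul_comm]

theorem tendsto_cnt (hpos : ∀ j, 0 < l j) (hanti : Antitone l) (hsum : Summable l) :
    Tendsto (cnt l) (𝓝[>] 0) atTop := by
  rw [tendsto_atTop]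
  intro K
  have : ∀ᶠ ε in 𝓝[>] (0 : ℝ), ε < l K :=
    (gt_mem_nhds (hpos K)).filter_mono nhdsWithin_le_nhds
  filter_upwards [this, self_mem_nhdsWithin] with ε h1 h2
  exact (lt_cnt_of_le hanti hsum h2 h1.le).le

/-- Measurability gives convergence of the normalized counting function. -/
theorem transfer1 (hd0 : 0 < d) (hpos : ∀ j, 0 < l j) (hanti : Antitone l) (hsum : Summable l)
    {Λ : ℝ} (hΛ : 0 < Λ)
    (h : Tendsto (fun j : ℕ => l j * ((j : ℝ) + 1) ^ (1 / d)) atTop (𝓝 Λ)) :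
    Tendsto (gf l d) (𝓝[>] 0) (𝓝 (Λ ^ d)) := by
  have hU : Tendsto (fun j : ℕ => ((j : ℝ) + 1) * l j ^ d) atTop (𝓝 (Λ ^ d)) := by
    have := h.rpow_const (p := d) (Or.inl hΛ.ne')
    exact this.congr fun j => U_eq hpos hd0 j
  have hc := tendsto_cnt hpos hanti hsum
  have hup : Tendsto (fun ε => (((cnt l ε - 1 : ℕ) : ℝ) + 1) * l (cnt l ε - 1) ^ d) (𝓝[>] 0)
      (𝓝 (Λ ^ d)) := (hU.comp (tendsto_sub_atTop_nat 1)).comp hc
  have hlow : Tendsto (fun ε => ((cnt l ε : ℝ) / ((cnt l ε : ℝ) + 1)) *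
      (((cnt l ε : ℝ) + 1) * l (cnt l ε) ^ d)) (𝓝[>] 0) (𝓝 (Λ ^ d)) := by
    have h1 := (tendsto_natCast_div_add_atTop (1 : ℝ)).mul hU
    rw [one_mul] at h1
    exact h1.comp hc
  apply tendsto_of_tendsto_of_tendsto_of_le_of_le' hlow hup
  · filter_upwards [self_mem_nhdsWithin] with ε hε
    have hε : 0 < ε := hε
    unfold gf
    have h1 : ((cnt l ε : ℝ) / ((cnt l ε : ℝ) + 1)) * (((cnt l ε : ℝ) + 1) * l (cnt l ε) ^ d) =
        cnt l ε * l (cnt l ε) ^ d := by
      field_simp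
    rw [h1]
    apply mul_le_mul_of_nonneg_left _ (by positivity)
    exact Real.rpow_le_rpow (hpos _).le (cnt_spec hsum hε).le hd0.le
  · filter_upwards [hc.eventually (eventually_ge_atTop 1), self_mem_nhdsWithin] with ε h1 hε
    have hε : 0 < ε := hε
    unfold gf
    have h2 : (((cnt l ε - 1 : ℕ) : ℝ) + 1) = cnt l ε := by
      rw [← Nat.cast_succ]
      congr 1
      omega
    rw [h2]
    apply mul_le_mul_of_nonneg_left _ (by positivity)
    exact Real.rpow_le_rpow hε.le (le_of_lt_cnt (by omega)) hd0.le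

/-- Convergence of the normalized counting function gives measurability. -/
theorem transfer2 (hd0 : 0 < d) (hpos : ∀ j, 0 < l j) (hanti : Antitone l) (hsum : Summable l)
    {a : ℝ} (ha : 0 < a) (h : Tendsto (gf l d) (𝓝[>] 0) (𝓝 a)) :
    Tendsto (fun j : ℕ => l j * ((j : ℝ) + 1) ^ (1 / d)) atTop (𝓝 (a ^ (1 / d))) := by
  have hl0 : Tendsto l atTop (𝓝[>] 0) :=
    tendsto_nhdsWithin_of_tendsto_nhds_of_eventually_within _ hsum.tendsto_atTop_zero
      (Eventually.of_forall fun j => hpos j)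
  have hU : Tendsto (fun j : ℕ => ((j : ℝ) + 1) * l j ^ d) atTop (𝓝 a) := by
    rw [tendsto_order]
    constructor
    · intro b hb
      have h1 : Tendsto (fun θ : ℝ => b * θ ^ d) (𝓝 1) (𝓝 (b * 1 ^ d)) :=
        ((Real.continuousAt_rpow_const 1 d (Or.inl one_ne_zero)).tendsto).const_mul b
      rw [Real.one_rpow, mul_one] at h1
      obtain ⟨θ, hθ, hθ1⟩ := (((h1.eventually (gt_mem_nhds hb)).filter_mono
        (nhdsWithin_le_nhds (s := Set.Ioi (1 : ℝ)))).and self_mem_nhdsWithin).exists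
      have hθ1 : 1 < θ := hθ1
      have hθ0 : 0 < θ := by linarith
      have h2 := ((tendsto_scale hθ0).comp hl0).eventually (h.eventually (lt_mem_nhds hθ))
      filter_upwards [h2] with j hj
      have h3 : cnt l (θ * l j) ≤ j := cnt_le_of_lt (by nlinarith [hpos j])
      have hj' : b * θ ^ d < gf l d (θ * l j) := hj
      unfold gf at hj'
      rw [Real.mul_rpow hθ0.le (hpos j).le] at hj'
      have h4 : (cnt l (θ * l j) : ℝ) ≤ (j : ℝ) + 1 := by
        have : (cnt l (θ * l j) : ℝ) ≤ j := by exact_mod_cast h3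
        linarith
      have hθd : 0 < θ ^ d := by positivity
      have hljd : 0 < l j ^ d := Real.rpow_pos_of_pos (hpos j) d
      have h5 : (cnt l (θ * l j) : ℝ) * (θ ^ d * l j ^ d) ≤ ((j : ℝ) + 1) * (θ ^ d * l j ^ d) :=
        mul_le_mul_of_nonneg_right h4 (by positivity)
      have h6 : b * θ ^ d < ((j : ℝ) + 1) * l j ^ d * θ ^ d := by linarith
      exact lt_of_mul_lt_mul_right h6 hθd.le
    · intro b hb
      have h2 := hl0.eventually (h.eventually (gt_mem_nhds hb))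
      filter_upwards [h2] with j hj
      have h3 : j < cnt l (l j) := lt_cnt_of_le hanti hsum (hpos j) le_rfl
      have h4 : (j : ℝ) + 1 ≤ cnt l (l j) := by exact_mod_cast h3
      refine lt_of_le_of_lt ?_ hj
      unfold gf
      exact mul_le_mul_of_nonneg_right h4 (Real.rpow_nonneg (hpos j).le d)
  have h3 := hU.rpow_const (p := 1 / d) (Or.inl ha.ne')
  refine h3.congr fun j => ?_
  rw [← U_eq hpos hd0 j, ← Real.rpow_mul, mul_one_div_cancel hd0.ne', Real.rpow_one]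
  have := hpos j
  positivity

/-- The main equivalence, in terms of global bounds. -/
theorem main {a b : ℝ} {J0 : ℕ} (h : Bnd l d a b J0) :
    (∃ Λ : ℝ, 0 < Λ ∧ Tendsto (fun j : ℕ => l j * ((j : ℝ) + 1) ^ (1 / d)) atTop (𝓝 Λ)) ↔
      ∃ c : ℝ, 0 < c ∧ Tendsto (fun ε => (massN l ε : ℝ) * ε ^ d) (𝓝[>] 0) (𝓝 c) := by
  have hsum := h.summable
  have S := h.sys
  have hd0 := h.hd0
  have h1d : 0 < 1 - d := by linarith [h.hd1]
  constructor
  · rintro ⟨Λ, hΛ, ht⟩
    have hg := transfer1 hd0 h.hpos h.hanti hsum hΛ ht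
    exact ⟨Λ ^ d / (1 - d), by positivity, S.forward (by positivity) hg⟩
  · rintro ⟨c, hc, ht⟩
    have hv := S.backward hc ht
    have hg := S.tendsto_g hv
    exact ⟨((1 - d) * c) ^ (1 / d), by positivity,
      transfer2 hd0 h.hpos h.hanti hsum (by positivity) hg⟩

theorem main_value {a b : ℝ} {J0 : ℕ} (h : Bnd l d a b J0) {Λ : ℝ} (hΛ : 0 < Λ)
    (ht : Tendsto (fun j : ℕ => l j * ((j : ℝ) + 1) ^ (1 / d)) atTop (𝓝 Λ)) :
    Tendsto (fun ε => (massN l ε : ℝ) * ε ^ d) (𝓝[>] 0) (𝓝 (Λ ^ d / (1 - d))) := by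
  have hsum := h.summable
  exact h.sys.forward (by positivity) (transfer1 h.hd0 h.hpos h.hanti hsum hΛ ht)

/-- From eventual bounds to the structure `Bnd`. -/
theorem exists_bnd (hd0 : 0 < d) (hd1 : d < 1) (hpos : ∀ j, 0 < l j) (hanti : Antitone l)
    {a b : ℝ} (ha : 0 < a) (h : ∀ᶠ j : ℕ in atTop, a ≤ l j * ((j : ℝ) + 1) ^ (1 / d) ∧
      l j * ((j : ℝ) + 1) ^ (1 / d) ≤ b) : ∃ (b' : ℝ) (J0 : ℕ), Bnd l d a b' J0 := by
  obtain ⟨J0, hJ0⟩ := eventually_atTop.1 h
  set u : ℕ → ℝ := fun j => l j * ((j : ℝ) + 1) ^ (1 / d) with hu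
  have hu0 : ∀ j, 0 < u j := fun j => by
    have := hpos j
    simp only [hu]
    positivity
  refine ⟨max b (∑ j ∈ Finset.range J0, u j) + 1, J0, hd0, hd1, hpos, hanti, ha, ?_,
    fun j hj => (hJ0 j hj).1, fun j => ?_⟩
  · have h1 : 0 ≤ ∑ j ∈ Finset.range J0, u j := Finset.sum_nonneg fun j _ => (hu0 j).le
    have h2 := le_max_right b (∑ j ∈ Finset.range J0, u j)
    linarith
  · rcases lt_or_ge j J0 with h1 | h1
    · have h2 : u j ≤ ∑ j ∈ Finset.range J0, u j :=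
        Finset.single_le_sum (f := u) (fun i _ => (hu0 i).le) (Finset.mem_range.2 h1)
      have h3 := le_max_right b (∑ j ∈ Finset.range J0, u j)
      show u j ≤ _
      linarith
    · have h2 := (hJ0 j h1).2
      have h3 := le_max_left b (∑ j ∈ Finset.range J0, u j)
      linarith

end Pool.Agent.V11112.FS
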