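import Mathlib

/-!
Difference automaton for a quartic base.
-/

namespace Pool.Agent.V11112.BG

/-- integer vectors standing for `a₀ + a₁ β + a₂ β² + a₃ β³` -/
abbrev V := ℤ × ℤ × ℤ × ℤ

/-- multiply by `β` and add `δ`, where `β⁴ = β³ + 2β² - 1` -/
def stepv (a : V) (δ : ℤ) : V :=
  (-a.2.2.2 + δ, a.1, a.2.1 + 2 * a.2.2.2, a.2.2.1 + a.2.2.2)

/-- value of an integer vector -/
noncomputable def ev (β : ℝ) (a : V) : ℝ :=
  a.1 + a.2.1 * β + a.2.2.1 * β ^ 2 + a.2.2.2 * β ^ 3

/-- digit as an integer -/
def bi (b : Bool) : ℤ := if b then 1 else 0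

theorem ev_step {β : ℝ} (hβ : β ^ 4 = β ^ 3 + 2 * β ^ 2 - 1) (a : V) (δ : ℤ) :
    ev β (stepv a δ) = β * ev β a + δ := by
  simp only [ev, stepv]
  push_cast
  linear_combination (-(a.2.2.2 : ℝ)) * hβ

/-- lower end of `c * I` for an interval `I = [l, u]` -/
def lo (c l u : ℤ) : ℤ := if 0 ≤ c then c * l else c * u

/-- certificate that the value of `a` is larger than `1.105` -/
def bigp (a : V) : Bool :=
  decide (110500 < a.1 * 100000 + lo a.2.1 190516 190517 + lo a.2.2.1 362963 362968
    + lo a.2.2.2 691503 691515)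

/-- certificate that the absolute value of the value of `a` is larger than `1.105` -/
def big (a : V) : Bool := bigp a || bigp (-a.1, -a.2.1, -a.2.2.1, -a.2.2.2)

theorem lo_le {c l u : ℤ} {x : ℝ} (h1 : (l : ℝ) ≤ x) (h2 : x ≤ (u : ℝ)) :
    (lo c l u : ℝ) ≤ c * x := by
  unfold lo
  split_ifs with h
  · push_cast
    have : (0 : ℝ) ≤ (c : ℝ) := by exact_mod_cast h
    nlinarith
  · push_cast
    have : (c : ℝ) ≤ 0 := by exact_mod_cast (not_le.1 h).le
    nlinarith

theorem bigp_sound {β : ℝ} (h1 : 1.90516 ≤ β) (h2 : β ≤ 1.90517) {a : V} (h : bigp a = true) :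
    1.105 < ev β a := by
  have hh := of_decide_eq_true h
  have hh' : ((110500 : ℤ) : ℝ) < ((a.1 * 100000 + lo a.2.1 190516 190517
    + lo a.2.2.1 362963 362968 + lo a.2.2.2 691503 691515 : ℤ) : ℝ) := by exact_mod_cast hh
  push_cast at hh'
  have b2l : 3.62963 ≤ β ^ 2 := by nlinarith
  have b2u : β ^ 2 ≤ 3.62968 := by nlinarith
  have b3l : 6.91503 ≤ β ^ 3 := by
    have : β ^ 3 = β ^ 2 * β := by ring
    rw [this]; nlinarith
  have b3u : β ^ 3 ≤ 6.91515 := by
    have : β ^ 3 = β ^ 2 * β := by ring
    rw [this]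
    have : β ^ 2 ≤ 3.629673 := by nlinarith
    nlinarith
  have e1 := lo_le (c := a.2.1) (l := 190516) (u := 190517) (x := 100000 * β)
    (by push_cast; linarith) (by push_cast; linarith)
  have e2 := lo_le (c := a.2.2.1) (l := 362963) (u := 362968) (x := 100000 * β ^ 2)
    (by push_cast; linarith) (by push_cast; linarith)
  have e3 := lo_le (c := a.2.2.2) (l := 691503) (u := 691515) (x := 100000 * β ^ 3)
    (by push_cast; linarith) (by push_cast; linarith)
  unfold ev
  linarith

theorem big_sound {β : ℝ} (h1 : 1.90516 ≤ β) (h2 : β ≤ 1.90517) {a : V} (h : big a = true) :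
    1.105 < |ev β a| := by
  unfold big at h
  rw [Bool.or_eq_true] at h
  rcases h with h | h
  · exact lt_of_lt_of_le (bigp_sound h1 h2 h) (le_abs_self _)
  · have := bigp_sound h1 h2 h
    have e : ev β (-a.1, -a.2.1, -a.2.2.1, -a.2.2.2) = - ev β a := by
      simp only [ev]; push_cast; ring
    rw [e] at this
    exact lt_of_lt_of_le this (neg_le_abs _)

/-- run through two words -/
def runl : V → List Bool → List Bool → V
  | a, e :: es, l :: ls => runl (stepv a (bi e - bi l)) es ls
  | a, _, _ => a

/-- no state after reading letters is certified big -/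
def okl : V → List Bool → List Bool → Prop
  | a, e :: es, l :: ls => big (stepv a (bi e - bi l)) = false ∧ okl (stepv a (bi e - bi l)) es ls
  | _, [], [] => True
  | _, _, _ => False

/-- list of possible continuations along a word -/
def surv : List Bool → V → List (V × List Bool)
  | [], a => [(a, [])]
  | e :: es, a =>
      (if big (stepv a (bi e - bi false)) then []
        else (surv es (stepv a (bi e - bi false))).map (fun q => (q.1, false :: q.2)))
      ++ (if big (stepv a (bi e - bi true)) then []
        else (surv es (stepv a (bi e - bi true))).map (fun q => (q.1, true :: q.2)))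

theorem surv_sound : ∀ (es ls : List Bool) (a : V), okl a es ls →
    (runl a es ls, ls) ∈ surv es a := by
  intro es
  induction es with
  | nil =>
    intro ls a h
    cases ls with
    | nil => simp [surv, runl]
    | cons l ls => simp [okl] at h
  | cons e es ih =>
    intro ls a h
    cases ls with
    | nil => simp [okl] at h
    | cons l ls =>
      simp only [okl] at h
      obtain ⟨h1, h2⟩ := h
      have h3 := ih ls _ h2
      cases l
      · simp only [surv, runl, h1, List.mem_append]
        left
        simp only [Bool.false_eq_true, if_false, List.mem_map]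
        exact ⟨_, h3, rfl⟩
      · simp only [surv, runl, h1, List.mem_append]
        right
        simp only [Bool.false_eq_true, if_false, List.mem_map]
        exact ⟨_, h3, rfl⟩

/-- the block words -/
def wd : Bool → List Bool
  | false => [false, false, false, true, false, false, true]
  | true => [false, false, false, false, false, false, false]

/-- relevant states -/
inductive St
  | z | a | b | f8 | f25 | f37
  deriving DecidableEq, Fintype

/-- vectors of the states -/
def vec : St → V
  | .z => (0, 0, 0, 0)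
  | .a => (1, 0, 0, 0)
  | .b => (1, -2, -1, 1)
  | .f8 => (-1, -1, -1, 1)
  | .f25 => (1, 0, -2, 1)
  | .f37 => (1, -2, -3, 2)

theorem vec_inj : Function.Injective vec := by
  intro s t h
  revert s t
  decide

/-- digits from numbers, for short words -/
def wo (l : List ℕ) : List Bool := l.map (fun n => decide (n = 1))

/-- allowed transitions -/
def allowed : St → Bool → List (St × List Bool)
  | .z, false => [(.a, wo [0,0,0,1,0,0,0]), (.z, wo [0,0,0,1,0,0,1])]
  | .z, true => [(.z, wo [0,0,0,0,0,0,0])]
  | .a, false => [(.b, wo [1,1,1,1,1,1,0])]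
  | .a, true => [(.f8, wo [1,1,1,0,1,0,1])]
  | .b, false => [(.b, wo [0,1,1,1,1,1,0]), (.b, wo [1,0,0,0,0,1,1])]
  | .b, true => [(.f8, wo [0,1,1,0,1,0,1])]
  | .f37, false => [(.f37, wo [0,0,1,0,1,1,1])]
  | .f37, true => [(.f8, wo [0,0,0,1,1,0,1])]
  | .f25, false => [(.f37, wo [1,0,1,0,1,1,1])]
  | .f25, true => [(.f8, wo [1,0,0,1,1,0,1])]
  | .f8, false => [(.f25, wo [0,1,1,0,1,0,0])]
  | .f8, true => []

theorem run_allowed : ∀ (s : St) (iv : Bool), ∀ q ∈ allowed s iv,
    runl (vec s) (wd iv) q.2 = vec q.1 := by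
  decide

theorem surv_allowed : ∀ (s : St) (iv iv' : Bool), (s = .f8 → iv = false) →
    (iv = true → iv' = false) → ∀ q ∈ surv (wd iv) (vec s), surv (wd iv') q.1 ≠ [] →
      q ∈ (allowed s iv).map (fun r => (vec r.1, r.2)) := by
  decide +kernel

theorem allowed_f8 : ∀ (s : St) (iv : Bool), ∀ q ∈ allowed s iv, q.1 = .f8 → iv = true := by
  decide

end Pool.Agent.V11112.BG
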