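import Pool.Agent.V11112.BG1

/-!
Difference process of two digit sequences.
-/

open Filter Topology Finset

namespace Pool.Agent.V11112.BG

/-- the digit as a real number -/
def dg (b : Bool) : ℝ := if b then 1 else 0

theorem dg_abs_sub (b c : Bool) : |dg b - dg c| ≤ 1 := by
  cases b <;> cases c <;> simp [dg]

theorem dg_eq (b : Bool) : dg b = (bi b : ℝ) := by cases b <;> simp [dg, bi]

/-- the value of a digit sequence in base `β` -/
noncomputable def val (β : ℝ) (y : ℕ → Bool) : ℝ := ∑' n : ℕ, dg (y n) / β ^ (n + 1)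

theorem hasSum_geo {β : ℝ} (hβ : 1 < β) (k : ℕ) :
    HasSum (fun n : ℕ => 1 / β ^ (n + k + 1)) (1 / β ^ k * (1 / (β - 1))) := by
  have h0 : (0 : ℝ) < β := by linarith
  have h1 : (1 / β) < 1 := by rw [div_lt_one h0]; exact hβ
  have h2 := (hasSum_geometric_of_lt_one (by positivity) h1).mul_left (1 / β ^ (k + 1))
  have e : (1 / β ^ (k + 1)) * (1 - 1 / β)⁻¹ = 1 / β ^ k * (1 / (β - 1)) := by
    have h3 : β - 1 ≠ 0 := by linarith
    have h4 : (1 - 1 / β) = (β - 1) / β := by field_simp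
    rw [h4]
    field_simp
    ring
  rw [e] at h2
  have e2 : (fun n : ℕ => 1 / β ^ (n + k + 1)) = fun n : ℕ => 1 / β ^ (k + 1) * (1 / β) ^ n := by
    funext n
    rw [one_div_pow, show n + k + 1 = (k + 1) + n by ring, pow_add β (k + 1) n]
    field_simp
  rw [e2]
  exact h2

theorem summable_dg {β : ℝ} (hβ : 1 < β) (y : ℕ → Bool) :
    Summable (fun n : ℕ => dg (y n) / β ^ (n + 1)) := by
  have h0 : (0 : ℝ) < β := by linarith
  refine Summable.of_nonneg_of_le (fun n => ?_) (fun n => ?_) (hasSum_geo hβ 0).summable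
  · have : 0 ≤ dg (y n) := by unfold dg; split_ifs <;> norm_num
    positivity
  · have : dg (y n) ≤ 1 := by unfold dg; split_ifs <;> norm_num
    simp only [add_zero]
    gcongr

theorem val_nonneg {β : ℝ} (hβ : 1 < β) (y : ℕ → Bool) : 0 ≤ val β y := by
  have h0 : (0 : ℝ) < β := by linarith
  refine tsum_nonneg (fun n => ?_)
  have : 0 ≤ dg (y n) := by unfold dg; split_ifs <;> norm_num
  positivity

theorem val_le {β : ℝ} (hβ : 1 < β) (y : ℕ → Bool) : val β y ≤ 1 / (β - 1) := by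
  have h0 : (0 : ℝ) < β := by linarith
  have h := hasSum_geo hβ 0
  have h1 : 1 / β ^ 0 * (1 / (β - 1)) = 1 / (β - 1) := by simp
  rw [h1] at h
  rw [← h.tsum_eq]
  refine Summable.tsum_le_tsum (fun n => ?_) (summable_dg hβ y) h.summable
  have : dg (y n) ≤ 1 := by unfold dg; split_ifs <;> norm_num
  simp only [add_zero]
  gcongr

/-- the difference process -/
def sv (e y : ℕ → Bool) : ℕ → V
  | 0 => (0, 0, 0, 0)
  | k + 1 => stepv (sv e y k) (bi (e k) - bi (y k))

theorem ev_sv {β : ℝ} (hβ : β ^ 4 = β ^ 3 + 2 * β ^ 2 - 1) (h1 : 1 < β) (e y : ℕ → Bool) (k : ℕ) :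
    ev β (sv e y k) = β ^ k * ∑ n ∈ range k, (dg (e n) - dg (y n)) / β ^ (n + 1) := by
  have h0 : β ≠ 0 := by linarith
  induction k with
  | zero => simp [sv, ev]
  | succ k ih =>
    rw [sv, ev_step hβ, ih, Finset.sum_range_succ, dg_eq, dg_eq]
    push_cast
    field_simp
    ring

theorem tsum_diff {β : ℝ} (h1 : 1 < β) (e y : ℕ → Bool) :
    ∑' n : ℕ, (dg (e n) - dg (y n)) / β ^ (n + 1) = val β e - val β y := by
  unfold val
  rw [← Summable.tsum_sub (summable_dg h1 e) (summable_dg h1 y)]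
  congr 1
  ext n
  ring

theorem summable_diff {β : ℝ} (h1 : 1 < β) (e y : ℕ → Bool) :
    Summable (fun n : ℕ => (dg (e n) - dg (y n)) / β ^ (n + 1)) := by
  have := (summable_dg h1 e).sub (summable_dg h1 y)
  refine this.congr (fun n => ?_)
  ring

theorem bounded_of_eq {β : ℝ} (hβ : β ^ 4 = β ^ 3 + 2 * β ^ 2 - 1) (h1 : 1 < β)
    {e y : ℕ → Bool} (h : val β y = val β e) (k : ℕ) : |ev β (sv e y k)| ≤ 1 / (β - 1) := by
  have h0 : (0 : ℝ) < β := by linarith
  have hs := (summable_diff h1 e y).sum_add_tsum_nat_add k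
  rw [tsum_diff h1, h, sub_self] at hs
  have hb : ‖∑' n : ℕ, (dg (e (n + k)) - dg (y (n + k))) / β ^ (n + k + 1)‖
      ≤ 1 / β ^ k * (1 / (β - 1)) := by
    refine tsum_of_norm_bounded (hasSum_geo h1 k) (fun n => ?_)
    rw [Real.norm_eq_abs, abs_div, abs_of_pos (by positivity : 0 < β ^ (n + k + 1))]
    gcongr
    exact dg_abs_sub _ _
  rw [Real.norm_eq_abs] at hb
  have hs' : ∑ n ∈ range k, (dg (e n) - dg (y n)) / β ^ (n + 1) =
      - ∑' n : ℕ, (dg (e (n + k)) - dg (y (n + k))) / β ^ (n + k + 1) := by linarith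
  rw [ev_sv hβ h1, hs', abs_mul, abs_neg, abs_of_pos (by positivity : 0 < β ^ k)]
  calc β ^ k * |∑' n : ℕ, (dg (e (n + k)) - dg (y (n + k))) / β ^ (n + k + 1)|
      ≤ β ^ k * (1 / β ^ k * (1 / (β - 1))) := by gcongr
    _ = 1 / (β - 1) := by field_simp

theorem eq_of_bounded {β : ℝ} (hβ : β ^ 4 = β ^ 3 + 2 * β ^ 2 - 1) (h1 : 1 < β)
    {e y : ℕ → Bool} {M : ℝ} (h : ∀ t, |ev β (sv e y (7 * t))| ≤ M) : val β y = val β e := by
  have h0 : (0 : ℝ) < β := by linarith
  have hs := (summable_diff h1 e y).hasSum.tendsto_sum_nat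
  rw [tsum_diff h1] at hs
  have h7 : Tendsto (fun t : ℕ => 7 * t) atTop atTop :=
    tendsto_id.const_mul_atTop' (by norm_num)
  have hs7 := hs.comp h7
  have hz : Tendsto (fun t : ℕ => ∑ n ∈ range (7 * t), (dg (e n) - dg (y n)) / β ^ (n + 1))
      atTop (𝓝 0) := by
    have hpow : Tendsto (fun t : ℕ => M * (1 / β) ^ (7 * t)) atTop (𝓝 (M * 0)) := by
      refine Tendsto.const_mul _ ?_
      have := tendsto_pow_atTop_nhds_zero_of_lt_one (r := 1 / β) (by positivity)
        (by rw [div_lt_one h0]; exact h1)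
      exact this.comp h7
    rw [mul_zero] at hpow
    refine squeeze_zero_norm (fun t => ?_) hpow
    have e1 := ev_sv hβ h1 e y (7 * t)
    have e2 : ∑ n ∈ range (7 * t), (dg (e n) - dg (y n)) / β ^ (n + 1)
        = ev β (sv e y (7 * t)) * (1 / β) ^ (7 * t) := by
      rw [e1, one_div_pow]
      field_simp
    rw [e2, norm_mul, Real.norm_eq_abs, Real.norm_eq_abs, abs_of_pos (by positivity : 0 < (1 / β) ^ (7 * t))]
    gcongr
    exact h t
  have := tendsto_nhds_unique hs7 hz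
  linarith

/-- the block of length seven with index `t` -/
def blk (y : ℕ → Bool) (t : ℕ) : List Bool :=
  [y (7 * t), y (7 * t + 1), y (7 * t + 2), y (7 * t + 3), y (7 * t + 4), y (7 * t + 5),
    y (7 * t + 6)]

theorem sv_blk (e y : ℕ → Bool) (t : ℕ) :
    sv e y (7 * (t + 1)) = runl (sv e y (7 * t)) (blk e t) (blk y t) := rfl

theorem okl_blk {e y : ℕ → Bool} (h : ∀ k, big (sv e y k) = false) (t : ℕ) :
    okl (sv e y (7 * t)) (blk e t) (blk y t) :=
  ⟨h (7 * t + 1), h (7 * t + 2), h (7 * t + 3), h (7 * t + 4), h (7 * t + 5), h (7 * t + 6),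
    h (7 * t + 7), trivial⟩

/-- periodic sequence of words given by blocks -/
def ofBlocks (L : ℕ → List Bool) (n : ℕ) : Bool := (L (n / 7)).getD (n % 7) false

theorem blk_ofBlocks (L : ℕ → List Bool) (t : ℕ)
    (h : [(L t).getD 0 false, (L t).getD 1 false, (L t).getD 2 false, (L t).getD 3 false,
      (L t).getD 4 false, (L t).getD 5 false, (L t).getD 6 false] = L t) :
    blk (ofBlocks L) t = L t := by
  have e : ∀ i, i < 7 → ofBlocks L (7 * t + i) = (L t).getD i false := by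
    intro i hi
    unfold ofBlocks
    have h1 : (7 * t + i) / 7 = t := by omega
    have h2 : (7 * t + i) % 7 = i := by omega
    rw [h1, h2]
  have e0 := e 0 (by norm_num)
  rw [add_zero] at e0
  rw [← h]
  unfold blk
  rw [e0, e 1 (by norm_num), e 2 (by norm_num), e 3 (by norm_num), e 4 (by norm_num),
    e 5 (by norm_num), e 6 (by norm_num)]

/-- marked blocks: the block index `t` with `t + 1` a power of two, at least `8` -/
def isV (t : ℕ) : Bool := decide (8 ≤ t + 1 ∧ 2 ^ Nat.log 2 (t + 1) = t + 1)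

theorem isV_succ (t : ℕ) (h : isV t = true) : isV (t + 1) = false := by
  by_contra hc
  rw [Bool.not_eq_false] at hc
  obtain ⟨h1, h2⟩ := of_decide_eq_true h
  obtain ⟨h3, h4⟩ := of_decide_eq_true hc
  have l1 : 1 ≤ Nat.log 2 (t + 1) := by
    rcases Nat.eq_zero_or_pos (Nat.log 2 (t + 1)) with hz | hz
    · rw [hz] at h2; simp at h2; omega
    · exact hz
  have l2 : 1 ≤ Nat.log 2 (t + 1 + 1) := by
    rcases Nat.eq_zero_or_pos (Nat.log 2 (t + 1 + 1)) with hz | hz
    · rw [hz] at h4; simp at h4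
    · exact hz
  obtain ⟨a, ha⟩ := Nat.exists_eq_add_of_le l1
  obtain ⟨b, hb⟩ := Nat.exists_eq_add_of_le l2
  rw [ha, pow_add] at h2
  rw [hb, pow_add] at h4
  omega

theorem isV_pow (j : ℕ) (hj : 3 ≤ j) : isV (2 ^ j - 1) = true := by
  have h1 : 2 ^ 3 ≤ 2 ^ j := Nat.pow_le_pow_right (by norm_num) hj
  have h2 : 2 ^ j - 1 + 1 = 2 ^ j := by omega
  unfold isV
  rw [h2, Nat.log_pow (by norm_num)]
  simp
  omega

theorem isV_false_of {j t : ℕ} (h1 : 2 ^ j ≤ t) (h2 : t + 1 < 2 ^ (j + 1)) : isV t = false := by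
  have h3 : Nat.log 2 (t + 1) = j := by
    rw [Nat.log_eq_iff (Or.inr ⟨by norm_num, by omega⟩)]
    exact ⟨by omega, h2⟩
  unfold isV
  rw [h3]
  apply decide_eq_false
  rintro ⟨_, h4⟩
  omega

/-- the main expansion -/
def spine : ℕ → Bool := ofBlocks (fun t => wd (isV t))

theorem blk_spine (t : ℕ) : blk spine t = wd (isV t) := by
  unfold spine
  rw [blk_ofBlocks]
  cases isV t <;> decide

end Pool.Agent.V11112.BG
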