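import Pool.Agent.V11112.BG2

/-!
The set of expansions of the value of `spine` is countable.
-/

open Filter Topology Finset

namespace Pool.Agent.V11112.BG

theorem not_big {β : ℝ} (hβ : β ^ 4 = β ^ 3 + 2 * β ^ 2 - 1) (h1 : 1.90516 ≤ β)
    (h2 : β ≤ 1.90517) {e y : ℕ → Bool} (h : val β y = val β e) (k : ℕ) :
    big (sv e y k) = false := by
  by_contra hc
  rw [Bool.not_eq_false] at hc
  have a1 := big_sound h1 h2 hc
  have a2 := bounded_of_eq hβ (by linarith) h k
  have a3 : 1 / (β - 1) ≤ 1.105 := by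
    rw [div_le_iff₀ (by linarith)]; linarith
  linarith

theorem mem_surv {y : ℕ → Bool} (h : ∀ k, big (sv spine y k) = false) (t : ℕ) :
    (sv spine y (7 * (t + 1)), blk y t) ∈ surv (wd (isV t)) (sv spine y (7 * t)) := by
  have := surv_sound _ _ _ (okl_blk h t)
  rw [← sv_blk, blk_spine] at this
  exact this

theorem next_state {y : ℕ → Bool} (h : ∀ k, big (sv spine y k) = false) {s : St} {t : ℕ}
    (hs : sv spine y (7 * t) = vec s) (h8 : s = .f8 → isV t = false) :
    ∃ q ∈ allowed s (isV t), sv spine y (7 * (t + 1)) = vec q.1 ∧ blk y t = q.2 ∧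
      (q.1 = .f8 → isV (t + 1) = false) := by
  have m := mem_surv h t
  rw [hs] at m
  have m' := mem_surv h (t + 1)
  have := surv_allowed s (isV t) (isV (t + 1)) h8 (isV_succ t) _ m
    (fun hnil => by simp only at hnil; rw [hnil] at m'; simp at m')
  rw [List.mem_map] at this
  obtain ⟨r, hr, he⟩ := this
  rw [Prod.mk.injEq] at he
  exact ⟨r, hr, he.1.symm, he.2.symm, fun h8' => isV_succ t (allowed_f8 s _ r hr h8')⟩

theorem exists_state {y : ℕ → Bool} (h : ∀ k, big (sv spine y k) = false) (t : ℕ) :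
    ∃ s : St, sv spine y (7 * t) = vec s ∧ (s = .f8 → isV t = false) := by
  induction t with
  | zero => exact ⟨.z, rfl, fun h => by simp at h⟩
  | succ t ih =>
    obtain ⟨s, hs, h8⟩ := ih
    obtain ⟨q, _, h1, _, h3⟩ := next_state h hs h8
    exact ⟨q.1, h1, h3⟩

/-- frozen states -/
def frz : St → Bool
  | .f8 => true
  | .f25 => true
  | .f37 => true
  | _ => false

theorem frz_det : ∀ (s : St) (iv : Bool), frz s = true → ∀ q ∈ allowed s iv,
    ∀ q' ∈ allowed s iv, q = q' ∧ frz q.1 = true := by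
  decide

theorem bush_step : ∀ (s : St) (iv : Bool), (s = .a ∨ s = .b) → ∀ q ∈ allowed s iv,
    (q.1 = .a ∨ q.1 = .b ∨ frz q.1 = true) ∧ (iv = true → frz q.1 = true) := by
  decide

theorem z_step : ∀ (iv : Bool), ∀ q ∈ allowed .z iv, q.1 = .z → q.2 = wd iv := by
  decide

theorem state_cases : ∀ s : St, s = .z ∨ s = .a ∨ s = .b ∨ frz s = true := by
  decide

theorem agree {y z : ℕ → Bool} (hy : ∀ k, big (sv spine y k) = false)
    (hz : ∀ k, big (sv spine z k) = false) {T : ℕ} {s : St} (hf : frz s = true)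
    (h8 : s = .f8 → isV T = false) (sy : sv spine y (7 * T) = vec s)
    (sz : sv spine z (7 * T) = vec s) (m : ℕ) :
    ∃ s', frz s' = true ∧ (s' = .f8 → isV (T + m) = false) ∧
      sv spine y (7 * (T + m)) = vec s' ∧ sv spine z (7 * (T + m)) = vec s' := by
  induction m with
  | zero => exact ⟨s, hf, h8, sy, sz⟩
  | succ m ih =>
    obtain ⟨s', f', g8, gy, gz⟩ := ih
    obtain ⟨q, hq, q1, _, q3⟩ := next_state hy gy g8
    obtain ⟨r, hr, r1, _, _⟩ := next_state hz gz g8
    obtain ⟨e1, e2⟩ := frz_det s' _ f' q hq r hr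
    refine ⟨q.1, e2, q3, q1, ?_⟩
    rw [e1]
    exact r1

theorem agree_blk {y z : ℕ → Bool} (hy : ∀ k, big (sv spine y k) = false)
    (hz : ∀ k, big (sv spine z k) = false) {T : ℕ} {s : St} (hf : frz s = true)
    (h8 : s = .f8 → isV T = false) (sy : sv spine y (7 * T) = vec s)
    (sz : sv spine z (7 * T) = vec s) (m : ℕ) : blk y (T + m) = blk z (T + m) := by
  obtain ⟨s', f', g8, gy, gz⟩ := agree hy hz hf h8 sy sz m
  obtain ⟨q, hq, _, q2, _⟩ := next_state hy gy g8
  obtain ⟨r, hr, _, r2, _⟩ := next_state hz gz g8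
  obtain ⟨e1, _⟩ := frz_det s' _ f' q hq r hr
  rw [q2, r2, e1]

theorem eq_of_blk {y z : ℕ → Bool} {T : ℕ} (h : ∀ m, blk y (T + m) = blk z (T + m)) (n : ℕ)
    (hn : 7 * T ≤ n) : y n = z n := by
  have h1 := h (n / 7 - T)
  have h2 : T + (n / 7 - T) = n / 7 := by omega
  rw [h2] at h1
  unfold blk at h1
  simp only [List.cons.injEq, and_true] at h1
  obtain ⟨e0, e1, e2, e3, e4, e5, e6⟩ := h1
  have h3 : n = 7 * (n / 7) + n % 7 := (Nat.div_add_mod n 7).symm
  have h4 : n % 7 < 7 := Nat.mod_lt _ (by norm_num)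
  rw [h3]
  generalize n % 7 = i at *
  interval_cases i <;> assumption

theorem sv_congr {e y z : ℕ → Bool} : ∀ k : ℕ, (∀ n, n < k → y n = z n) →
    sv e y k = sv e z k := by
  intro k
  induction k with
  | zero => intro _; rfl
  | succ k ih =>
    intro h
    simp only [sv]
    rw [ih (fun n hn => h n (by omega)), h k (by omega)]

theorem reach {y : ℕ → Bool} (h : ∀ k, big (sv spine y k) = false) :
    y = spine ∨ ∃ T, ∃ s : St, frz s = true ∧ sv spine y (7 * T) = vec s := by
  by_cases hne : ∃ T, ∃ s : St, frz s = true ∧ sv spine y (7 * T) = vec s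
  · exact Or.inr hne
  left
  by_cases hz : ∀ t, sv spine y (7 * t) = vec .z
  · have hb : ∀ m, blk y (0 + m) = blk spine (0 + m) := by
      intro m
      rw [zero_add, blk_spine]
      obtain ⟨q, hq, q1, q2, _⟩ := next_state h (hz m) (by simp)
      rw [hz (m + 1)] at q1
      have : q.1 = .z := (vec_inj q1).symm
      rw [q2]
      exact z_step _ q hq this
    funext n
    exact eq_of_blk hb n (by omega)
  · exfalso
    push Not at hz
    obtain ⟨t, ht⟩ := hz
    have key : ∀ m, ∃ s : St, (s = .a ∨ s = .b) ∧ sv spine y (7 * (t + m)) = vec s := by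
      intro m
      induction m with
      | zero =>
        obtain ⟨s, hs, _⟩ := exists_state h t
        rcases state_cases s with h0 | h0 | h0 | h0
        · exact absurd (h0 ▸ hs) ht
        · exact ⟨s, Or.inl h0, hs⟩
        · exact ⟨s, Or.inr h0, hs⟩
        · exact absurd ⟨t, s, h0, hs⟩ hne
      | succ m ih =>
        obtain ⟨s, hs, hv⟩ := ih
        have h8 : s = .f8 → isV (t + m) = false := by
          intro h8; rcases hs with hs | hs <;> rw [hs] at h8 <;> simp at h8
        obtain ⟨q, hq, q1, _, _⟩ := next_state h hv h8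
        obtain ⟨hb, _⟩ := bush_step s _ hs q hq
        rcases hb with hb | hb | hb
        · exact ⟨q.1, Or.inl hb, q1⟩
        · exact ⟨q.1, Or.inr hb, q1⟩
        · exact absurd ⟨t + m + 1, q.1, hb, q1⟩ hne
    have hlt : t + 3 < 2 ^ (t + 3) := Nat.lt_two_pow_self
    obtain ⟨s, hs, hv⟩ := key (2 ^ (t + 3) - 1 - t)
    have e1 : t + (2 ^ (t + 3) - 1 - t) = 2 ^ (t + 3) - 1 := by omega
    rw [e1] at hv
    have hV := isV_pow (t + 3) (by omega)
    have h8 : s = .f8 → isV (2 ^ (t + 3) - 1) = false := by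
      intro h8; rcases hs with hs | hs <;> rw [hs] at h8 <;> simp at h8
    obtain ⟨q, hq, q1, _, _⟩ := next_state h hv h8
    obtain ⟨_, hb⟩ := bush_step s _ hs q hq
    exact hne ⟨_, q.1, hb hV, q1⟩

theorem countable_expansions {β : ℝ} (hβ : β ^ 4 = β ^ 3 + 2 * β ^ 2 - 1) (h1 : 1.90516 ≤ β)
    (h2 : β ≤ 1.90517) : {y : ℕ → Bool | val β y = val β spine}.Countable := by
  have hsub : {y : ℕ → Bool | val β y = val β spine} ⊆
      {spine} ∪ ⋃ T : ℕ, {y : ℕ → Bool | val β y = val β spine ∧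
        ∃ s : St, frz s = true ∧ sv spine y (7 * T) = vec s} := by
    intro y hy
    have hy' : val β y = val β spine := hy
    rcases reach (not_big hβ h1 h2 hy') with h | ⟨T, s, hs⟩
    · exact Or.inl h
    · exact Or.inr (Set.mem_iUnion.2 ⟨T, hy', s, hs⟩)
  refine Set.Countable.mono hsub ?_
  refine (Set.countable_singleton _).union (Set.countable_iUnion (fun T => ?_))
  refine Set.countable_of_injective_of_countable_image
    (f := fun (y : ℕ → Bool) (i : Fin (7 * T)) => y i) ?_ (Set.to_countable _)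
  rintro y ⟨hy, s, hs, sy⟩ z ⟨hz, s', hs', sz⟩ hyz
  have hyz' : ∀ n, n < 7 * T → y n = z n := fun n hn => congrFun hyz ⟨n, hn⟩
  have e1 := sv_congr (e := spine) (7 * T) hyz'
  have e2 : sv spine z (7 * T) = vec s := by rw [← e1]; exact sy
  have by' := not_big hβ h1 h2 hy
  have bz' := not_big hβ h1 h2 hz
  have h8 : s = .f8 → isV T = false := by
    obtain ⟨r, hr, hr8⟩ := exists_state by' T
    have : r = s := vec_inj (by rw [← hr, sy])
    rw [← this]
    exact hr8
  have hb := agree_blk by' bz' hs h8 sy e2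
  funext n
  by_cases hn : n < 7 * T
  · exact hyz' n hn
  · exact eq_of_blk hb n (by omega)

end Pool.Agent.V11112.BG
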