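import Pool.Agent.V11112.BG3

/-!
Many expansions of the value of `spine`.
-/

open Filter Topology Finset

namespace Pool.Agent.V11112.BG

/-- next state and label, depending on: marked block, leaving the spine, free choice -/
def nxt : St → Bool → Bool → Bool → St × List Bool
  | .z, true, _, _ => (.z, wo [0,0,0,0,0,0,0])
  | .z, false, true, _ => (.a, wo [0,0,0,1,0,0,0])
  | .z, false, false, _ => (.z, wo [0,0,0,1,0,0,1])
  | .a, false, _, _ => (.b, wo [1,1,1,1,1,1,0])
  | .a, true, _, _ => (.f8, wo [1,1,1,0,1,0,1])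
  | .b, false, _, true => (.b, wo [0,1,1,1,1,1,0])
  | .b, false, _, false => (.b, wo [1,0,0,0,0,1,1])
  | .b, true, _, _ => (.f8, wo [0,1,1,0,1,0,1])
  | .f37, false, _, _ => (.f37, wo [0,0,1,0,1,1,1])
  | .f37, true, _, _ => (.f8, wo [0,0,0,1,1,0,1])
  | .f25, false, _, _ => (.f37, wo [1,0,1,0,1,1,1])
  | .f25, true, _, _ => (.f8, wo [1,0,0,1,1,0,1])
  | .f8, false, _, _ => (.f25, wo [0,1,1,0,1,0,0])
  | .f8, true, _, _ => (.z, wo [0,0,0,0,0,0,0])

theorem nxt_allowed : ∀ (s : St) (iv lv c : Bool), (s = .f8 → iv = false) →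
    nxt s iv lv c ∈ allowed s iv := by
  decide

theorem nxt_len : ∀ (s : St) (iv lv c : Bool),
    [(nxt s iv lv c).2.getD 0 false, (nxt s iv lv c).2.getD 1 false,
      (nxt s iv lv c).2.getD 2 false, (nxt s iv lv c).2.getD 3 false,
      (nxt s iv lv c).2.getD 4 false, (nxt s iv lv c).2.getD 5 false,
      (nxt s iv lv c).2.getD 6 false] = (nxt s iv lv c).2 := by
  decide

variable (T0 : ℕ) (c : ℕ → Bool)

/-- the states along the path which leaves the spine at block `T0` -/
def path : ℕ → St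
  | 0 => .z
  | t + 1 => (nxt (path t) (isV t) (decide (t = T0)) (c t)).1

/-- the label of block `t` -/
def word (t : ℕ) : List Bool := (nxt (path T0 c t) (isV t) (decide (t = T0)) (c t)).2

/-- the expansion -/
def yseq : ℕ → Bool := ofBlocks (word T0 c)

theorem blk_yseq (t : ℕ) : blk (yseq T0 c) t = word T0 c t := by
  unfold yseq
  rw [blk_ofBlocks]
  exact nxt_len _ _ _ _

theorem path_f8 (t : ℕ) : path T0 c t = .f8 → isV t = false := by
  induction t with
  | zero => intro h; simp [path] at h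
  | succ t ih =>
    intro h
    exact isV_succ t (allowed_f8 _ _ _ (nxt_allowed (path T0 c t) (isV t) (decide (t = T0)) (c t) ih) h)

theorem sv_yseq (t : ℕ) : sv spine (yseq T0 c) (7 * t) = vec (path T0 c t) := by
  induction t with
  | zero => rfl
  | succ t ih =>
    rw [sv_blk, blk_spine, blk_yseq, ih]
    exact run_allowed _ _ _ (nxt_allowed (path T0 c t) (isV t) (decide (t = T0)) (c t)
      (path_f8 T0 c t))

theorem yseq_mem {β : ℝ} (hβ : β ^ 4 = β ^ 3 + 2 * β ^ 2 - 1) (h1 : 1 < β) :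
    val β (yseq T0 c) = val β spine := by
  refine eq_of_bounded hβ h1 (M := ∑ s : St, |ev β (vec s)|) (fun t => ?_)
  rw [sv_yseq]
  exact Finset.single_le_sum (f := fun s : St => |ev β (vec s)|) (fun s _ => abs_nonneg _)
    (Finset.mem_univ _)

theorem path_before (t : ℕ) (h : t ≤ T0) : path T0 c t = .z := by
  induction t with
  | zero => rfl
  | succ t ih =>
    have h2 : decide (t = T0) = false := decide_eq_false (by omega)
    show (nxt (path T0 c t) (isV t) (decide (t = T0)) (c t)).1 = .z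
    rw [ih (by omega), h2]
    cases isV t <;> rfl

theorem path_bush {T1 : ℕ} (hV : ∀ t, T0 ≤ t → t < T1 → isV t = false) (i : ℕ)
    (hi : T0 + 2 + i ≤ T1) : path T0 c (T0 + 2 + i) = .b := by
  induction i with
  | zero =>
    have e0 := path_before T0 c T0 le_rfl
    have e1 : path T0 c (T0 + 1) = .a := by
      show (nxt (path T0 c T0) (isV T0) (decide (T0 = T0)) (c T0)).1 = .a
      rw [e0, hV T0 le_rfl (by omega)]
      simp [nxt]
    show (nxt (path T0 c (T0 + 1)) (isV (T0 + 1)) (decide (T0 + 1 = T0)) (c (T0 + 1))).1 = .b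
    rw [e1, hV (T0 + 1) (by omega) (by omega)]
    rfl
  | succ i ih =>
    have := ih (by omega)
    show (nxt (path T0 c (T0 + 2 + i)) (isV (T0 + 2 + i)) (decide (T0 + 2 + i = T0))
      (c (T0 + 2 + i))).1 = .b
    rw [this, hV (T0 + 2 + i) (by omega) (by omega)]
    cases c (T0 + 2 + i) <;> rfl

theorem yseq_letter {T1 : ℕ} (hV : ∀ t, T0 ≤ t → t < T1 → isV t = false) (i : ℕ)
    (hi : T0 + 2 + i < T1) : yseq T0 c (7 * (T0 + 2 + i)) = !c (T0 + 2 + i) := by
  have h1 := path_bush T0 c hV i hi.le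
  unfold yseq ofBlocks
  have e1 : 7 * (T0 + 2 + i) / 7 = T0 + 2 + i := by omega
  have e2 : 7 * (T0 + 2 + i) % 7 = 0 := by omega
  rw [e1, e2]
  unfold word
  rw [h1, hV (T0 + 2 + i) (by omega) hi]
  cases c (T0 + 2 + i) <;> rfl

/-- the number of prefixes of length `k` of the expansions of `x` -/
noncomputable def numPrefix (β x : ℝ) (k : ℕ) : ℕ :=
  Set.ncard ((fun (y : ℕ → Bool) (i : Fin k) => y i) '' {y : ℕ → Bool | val β y = x})

theorem numPrefix_ge {β : ℝ} (hβ : β ^ 4 = β ^ 3 + 2 * β ^ 2 - 1) (h1 : 1 < β) {T0 T1 m k : ℕ}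
    (hV : ∀ t, T0 ≤ t → t < T1 → isV t = false) (hm : T0 + 2 + m ≤ T1) (hk : 7 * T1 ≤ k) :
    2 ^ m ≤ numPrefix β (val β spine) k := by
  classical
  let cof : (Fin m → Bool) → ℕ → Bool := fun p t =>
    if h : t - (T0 + 2) < m then p ⟨t - (T0 + 2), h⟩ else false
  let g : (Fin m → Bool) → (Fin k → Bool) := fun p i => yseq T0 (cof p) i
  have hg : Function.Injective g := by
    intro p p' hpp
    funext i
    have hi := i.2
    have hlt : 7 * (T0 + 2 + (i : ℕ)) < k := by omega
    have e := congrFun hpp ⟨7 * (T0 + 2 + (i : ℕ)), hlt⟩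
    have e1 := yseq_letter T0 (cof p) hV i (by omega)
    have e2 := yseq_letter T0 (cof p') hV i (by omega)
    have e3 : yseq T0 (cof p) (7 * (T0 + 2 + (i : ℕ))) = yseq T0 (cof p') (7 * (T0 + 2 + (i : ℕ))) := e
    rw [e1, e2] at e3
    have e4 : cof p (T0 + 2 + i) = cof p' (T0 + 2 + i) := by
      cases h5 : cof p (T0 + 2 + i) <;> cases h6 : cof p' (T0 + 2 + i) <;> simp_all
    have e5 : ∀ q : Fin m → Bool, cof q (T0 + 2 + i) = q i := by
      intro q
      have h7 : T0 + 2 + (i : ℕ) - (T0 + 2) = i := by omega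
      have h8 : T0 + 2 + (i : ℕ) - (T0 + 2) < m := by omega
      simp only [cof]
      rw [dif_pos h8]
      congr 1
      exact Fin.ext h7
    rw [e5, e5] at e4
    exact e4
  have hsub : Set.range g ⊆ (fun (y : ℕ → Bool) (i : Fin k) => y i) ''
      {y : ℕ → Bool | val β y = val β spine} := by
    rintro _ ⟨p, rfl⟩
    exact ⟨yseq T0 (cof p), yseq_mem T0 (cof p) hβ h1, rfl⟩
  have hc : (Set.range g).ncard = 2 ^ m := by
    rw [← Set.image_univ, Set.ncard_image_of_injective _ hg, Set.ncard_univ]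
    simp
  unfold numPrefix
  rw [← hc]
  exact Set.ncard_le_ncard hsub (Set.toFinite _)

theorem numPrefix_pos {β : ℝ} (k : ℕ) : 1 ≤ numPrefix β (val β spine) k := by
  unfold numPrefix
  have hne : ((fun (y : ℕ → Bool) (i : Fin k) => y i) ''
      {y : ℕ → Bool | val β y = val β spine}).Nonempty := ⟨_, spine, rfl, rfl⟩
  exact (Set.ncard_pos (Set.toFinite _)).2 hne

theorem numPrefix_le {β x : ℝ} (k : ℕ) : numPrefix β x k ≤ 2 ^ k := by
  unfold numPrefix
  have := Set.ncard_le_ncard (Set.subset_univ ((fun (y : ℕ → Bool) (i : Fin k) => y i) ''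
    {y : ℕ → Bool | val β y = x})) (Set.toFinite _)
  rw [Set.ncard_univ] at this
  simpa using this

theorem numPrefix_growth {β : ℝ} (hβ : β ^ 4 = β ^ 3 + 2 * β ^ 2 - 1) (h1 : 1 < β) (k : ℕ) :
    ∃ m : ℕ, (k : ℝ) / 28 - 4 ≤ m ∧ 2 ^ m ≤ numPrefix β (val β spine) k := by
  by_cases hk : k / 7 < 8
  · refine ⟨0, ?_, ?_⟩
    · have : k ≤ 55 := by omega
      have : (k : ℝ) ≤ 55 := by exact_mod_cast this
      push_cast
      linarith
    · simpa using numPrefix_pos k
  · push Not at hk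
    set t := k / 7 with ht
    set j := Nat.log 2 t with hj
    have hj1 : 2 ^ j ≤ t := Nat.pow_log_le_self 2 (by omega)
    have hj2 : t < 2 ^ (j + 1) := Nat.lt_pow_succ_log_self (by norm_num) t
    have hj3 : 3 ≤ j := by
      by_contra hc
      push Not at hc
      have : 2 ^ (j + 1) ≤ 2 ^ 3 := Nat.pow_le_pow_right (by norm_num) (by omega)
      omega
    obtain ⟨i, hi⟩ := Nat.exists_eq_add_of_le hj3
    have e1 : 2 ^ j = 2 * 2 ^ (j - 1) := by
      rw [hi, show 3 + i - 1 = 2 + i by omega, show 3 + i = (2 + i) + 1 by omega, pow_succ]; ring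
    have e2 : 2 ^ (j + 1) = 4 * 2 ^ (j - 1) := by rw [pow_succ, e1]; ring
    have e3 : 4 ≤ 2 ^ (j - 1) := by
      have : 2 ^ 2 ≤ 2 ^ (j - 1) := Nat.pow_le_pow_right (by norm_num) (by omega)
      omega
    refine ⟨2 ^ (j - 1) - 3, ?_, ?_⟩
    · have h4 : k < 28 * 2 ^ (j - 1) := by omega
      have h5 : (k : ℝ) < 28 * ((2 ^ (j - 1) : ℕ) : ℝ) := by exact_mod_cast h4
      rw [Nat.cast_sub (by omega)]
      push_cast at h5 ⊢
      linarith
    · refine numPrefix_ge hβ h1 (T0 := 2 ^ (j - 1)) (T1 := 2 ^ j - 1) ?_ (by omega) (by omega)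
      intro s hs1 hs2
      have e4 : j - 1 + 1 = j := by omega
      refine isV_false_of hs1 ?_
      rw [e4]
      omega

end Pool.Agent.V11112.BG
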