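import Pool.Agent.V11112.GB6

open Filter Topology

namespace Pool.Agent.V11112.EX

open Pool.Agent.V11112.GB

/-- two points `0 < a < b ≤ 1` -/
structure Par where
  a : ℝ
  b : ℝ
  ha : 0 < a
  hab : a < b
  hb : b ≤ 1

namespace Par
variable (Q : Par)

lemma hb0 : 0 < Q.b := lt_trans Q.ha Q.hab

/-- ratio -/
noncomputable def c : ℝ := Q.a / Q.b

/-- minus the logarithm of the ratio -/
noncomputable def lam : ℝ := Real.log Q.b - Real.log Q.a

lemma lam_pos : 0 < Q.lam := sub_pos.2 (Real.log_lt_log Q.ha Q.hab)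

lemma c_pos : 0 < Q.c := div_pos Q.ha Q.hb0
lemma c_lt : Q.c < 1 := (div_lt_one Q.hb0).2 Q.hab

/-- logarithmic size of the level `i` -/
noncomputable def v (i : ℕ) : ℝ := (Real.log (i.factorial : ℝ) - i * Real.log Q.b) / Q.lam

/-- exponential -/
noncomputable def E (y : ℝ) : ℝ := Real.exp (-(Q.lam * y))

/-- the terms -/
noncomputable def tm (i j : ℕ) : ℝ := Q.a ^ j * Q.b ^ (i - j) / (i.factorial : ℝ)

lemma E_pos (y : ℝ) : 0 < Q.E y := Real.exp_pos _

lemma E_add (x y : ℝ) : Q.E (x + y) = Q.E x * Q.E y := by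
  unfold E
  rw [← Real.exp_add]
  congr 1
  ring

lemma E_anti {x y : ℝ} (h : x ≤ y) : Q.E y ≤ Q.E x := by
  unfold E
  apply Real.exp_le_exp.2
  have := Q.lam_pos
  nlinarith

lemma E_one : Q.E 1 = Q.c := by
  unfold E lam c
  rw [mul_one, neg_sub, Real.exp_sub, Real.exp_log Q.ha, Real.exp_log Q.hb0]

lemma E_nat (n : ℕ) : Q.E n = Q.c ^ n := by
  rw [← E_one]
  unfold E
  rw [← Real.exp_nat_mul]
  congr 1
  ring

lemma E_zero : Q.E 0 = 1 := by simp [E]

lemma tm_pos (i j : ℕ) : 0 < Q.tm i j := by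
  have h1 := Q.ha
  have h2 := Q.hb0
  unfold tm
  positivity

lemma tm_eq {i j : ℕ} (h : j ≤ i) : Q.tm i j = Q.E (Q.v i + j) := by
  have h1 := Q.ha
  have h2 := Q.hb0
  have h3 := Q.lam_pos.ne'
  have h4 : (0 : ℝ) < (i.factorial : ℝ) := by exact_mod_cast i.factorial_pos
  rw [← Real.exp_log (Q.tm_pos i j)]
  unfold E tm v
  congr 1
  rw [Real.log_div (by positivity) h4.ne', Real.log_mul (by positivity) (by positivity),
    Real.log_pow, Real.log_pow, Nat.cast_sub h, mul_add, mul_div_cancel₀ _ h3]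
  unfold lam
  ring

lemma tm_le (i j : ℕ) : Q.tm i j ≤ 1 / (i.factorial : ℝ) := by
  unfold tm
  have h1 := Q.ha
  have h2 := Q.hb0
  have h3 : Q.a ^ j ≤ 1 := pow_le_one₀ h1.le (by linarith [Q.hab, Q.hb])
  have h4 : Q.b ^ (i - j) ≤ 1 := pow_le_one₀ h2.le Q.hb
  have h5 : Q.a ^ j * Q.b ^ (i - j) ≤ 1 := by
    have : 0 ≤ Q.b ^ (i - j) := by positivity
    nlinarith
  gcongr

lemma v_nonneg (i : ℕ) : 0 ≤ Q.v i := by
  unfold v
  apply div_nonneg _ Q.lam_pos.le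
  have h1 : 0 ≤ Real.log (i.factorial : ℝ) := Real.log_nonneg (by
    exact_mod_cast i.factorial_pos)
  have h2 : Real.log Q.b ≤ 0 := Real.log_nonpos Q.hb0.le Q.hb
  have h3 : (0 : ℝ) ≤ i := by positivity
  nlinarith

/-- integer part -/
noncomputable def fl (i : ℕ) : ℕ := ⌊Q.v i⌋₊
/-- fractional part -/
noncomputable def f (i : ℕ) : ℝ := Q.v i - Q.fl i

lemma f_nonneg (i : ℕ) : 0 ≤ Q.f i := sub_nonneg.2 (Nat.floor_le (Q.v_nonneg i))
lemma f_lt (i : ℕ) : Q.f i < 1 := by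
  have := Nat.lt_floor_add_one (Q.v i)
  unfold f fl
  linarith

/-- term of level `i` at the integer scale `m` -/
lemma tm_scale {i m : ℕ} (h1 : Q.fl i ≤ m) (h2 : m ≤ Q.fl i + i) :
    Q.tm i (m - Q.fl i) = Q.E (m + Q.f i) := by
  rw [Q.tm_eq (by omega), Nat.cast_sub h1]
  unfold f
  congr 1
  ring

lemma E_sub {m x y : ℝ} (hx : x ≤ 1) (hy : y ≤ 1) :
    Q.E m * (Q.c * Q.lam * |x - y|) ≤ |Q.E (m + x) - Q.E (m + y)| := by
  have gen : ∀ x y : ℝ, x ≤ y → y ≤ 1 →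
      Q.E m * (Q.c * Q.lam * |x - y|) ≤ |Q.E (m + x) - Q.E (m + y)| := by
    intro x y hxy hy
    rw [abs_sub_comm x y, abs_of_nonneg (by linarith : 0 ≤ y - x)]
    have h1 : Q.E (m + x) - Q.E (m + y) = Q.E (m + y) * (Real.exp (Q.lam * (y - x)) - 1) := by
      rw [mul_sub, mul_one]
      congr 1
      unfold E
      rw [← Real.exp_add]
      congr 1
      ring
    have h2 : Q.lam * (y - x) ≤ Real.exp (Q.lam * (y - x)) - 1 := by
      have := Real.add_one_le_exp (Q.lam * (y - x))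
      linarith
    have h3 : Q.E m * Q.c ≤ Q.E (m + y) := by
      rw [← E_one, ← E_add]
      exact Q.E_anti (by linarith)
    have h4 : 0 ≤ Q.lam * (y - x) := mul_nonneg Q.lam_pos.le (by linarith)
    rw [h1, abs_of_nonneg (mul_nonneg (Q.E_pos _).le (by linarith))]
    calc Q.E m * (Q.c * Q.lam * (y - x)) = (Q.E m * Q.c) * (Q.lam * (y - x)) := by ring
      _ ≤ Q.E (m + y) * (Real.exp (Q.lam * (y - x)) - 1) :=
        mul_le_mul h3 h2 h4 (Q.E_pos _).le
  rcases le_total x y with h | h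
  · exact gen x y h hy
  · rw [abs_sub_comm x y, abs_sub_comm (Q.E (m + x))]
    exact gen y x h hx

end Par

/-- stage data -/
structure Sys (Q : Par) where
  L : ℕ → ℕ
  P : ℕ → Finset ℕ
  V : ℕ → ℕ
  G : ℕ → ℕ
  del : ℕ → ℝ
  hG : ∀ n, 1 ≤ G n
  disj : ∀ n n' i, i ∈ P n → i ∈ P n' → n = n'
  card : ∀ n, 2 * L n ≤ (P n).card
  low : ∀ n, ∀ i ∈ P n, Q.fl i ≤ V n
  high : ∀ n, ∀ i ∈ P n, V n + G n * (L n + 1) ≤ Q.fl i + i
  sep : ∀ n, ∀ i ∈ P n, ∀ i' ∈ P n, i ≠ i' → del n ≤ |Q.f i - Q.f i'|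
  gap : ∀ n, Q.E (G n) * (4 / (1 - Q.c)) ≤ Q.c * Q.lam * del n
  step : ∀ n, V n + G n * (L n + 1) ≤ V (n + 1)

namespace Sys
variable {Q : Par} (S : Sys Q)

/-- index type of the choices -/
abbrev Ix : Type := Σ n : ℕ, Fin (S.L n)

/-- scale of a choice -/
def sc (p : S.Ix) : ℕ := S.V p.1 + S.G p.1 * ((p.2 : ℕ) + 1)

/-- all choices -/
abbrev Wd : Type := ∀ n : ℕ, Fin (S.L n) ↪ {i : ℕ // i ∈ S.P n}

/-- the chosen level -/
def lv (w : S.Wd) (p : S.Ix) : ℕ := (w p.1 p.2 : ℕ)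

lemma lv_mem (w : S.Wd) (p : S.Ix) : S.lv w p ∈ S.P p.1 := (w p.1 p.2).2

lemma lv_inj (w : S.Wd) : Function.Injective (S.lv w) := by
  rintro ⟨n, k⟩ ⟨n', k'⟩ h
  have h1 := S.lv_mem w ⟨n, k⟩
  have h2 := S.lv_mem w ⟨n', k'⟩
  rw [h] at h1
  have h3 := S.disj _ _ _ h1 h2
  simp only at h3
  subst h3
  unfold lv at h
  simp only at h
  have h4 := (w n).injective (Subtype.ext h)
  rw [h4]

lemma V_mono : Monotone S.V := monotone_nat_of_le_succ (fun n => by
  have := S.step n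
  omega)

/-- later choices -/
def Later (p q : S.Ix) : Prop := p.1 < q.1 ∨ (p.1 = q.1 ∧ (p.2 : ℕ) < (q.2 : ℕ))

lemma sc_later {p q : S.Ix} (h : S.Later p q) : S.sc p + S.G p.1 ≤ S.sc q := by
  unfold sc
  obtain ⟨n, k⟩ := p
  obtain ⟨n', k'⟩ := q
  rcases h with h | ⟨h1, h2⟩
  · simp only at h ⊢
    have h3 := S.step n
    have h4 := S.V_mono (show n + 1 ≤ n' from h)
    have h5 : S.G n * ((k : ℕ) + 1) + S.G n ≤ S.G n * (S.L n + 1) := by
      have := k.2
      calc S.G n * ((k : ℕ) + 1) + S.G n = S.G n * ((k : ℕ) + 1 + 1) := by ring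
        _ ≤ S.G n * (S.L n + 1) := Nat.mul_le_mul_left _ (by omega)
    omega
  · simp only at h1 h2 ⊢
    subst h1
    have h5 : S.G n * ((k : ℕ) + 1) + S.G n ≤ S.G n * ((k' : ℕ) + 1) := by
      calc S.G n * ((k : ℕ) + 1) + S.G n = S.G n * ((k : ℕ) + 1 + 1) := by ring
        _ ≤ S.G n * ((k' : ℕ) + 1) := Nat.mul_le_mul_left _ (by omega)
    omega

lemma trich (p q : S.Ix) : S.Later p q ∨ p = q ∨ S.Later q p := by
  obtain ⟨n, k⟩ := p
  obtain ⟨n', k'⟩ := q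
  unfold Later
  simp only
  rcases lt_trichotomy n n' with h | h | h
  · exact Or.inl (Or.inl h)
  · subst h
    rcases lt_trichotomy (k : ℕ) (k' : ℕ) with h | h | h
    · exact Or.inl (Or.inr ⟨rfl, h⟩)
    · right; left
      rw [Fin.ext h]
    · exact Or.inr (Or.inr (Or.inr ⟨rfl, h⟩))
  · exact Or.inr (Or.inr (Or.inl h))

lemma sc_inj : Function.Injective S.sc := by
  intro p q h
  rcases S.trich p q with h1 | h1 | h1
  · have h2 := S.sc_later h1
    have h3 := S.hG p.1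
    omega
  · exact h1
  · have h2 := S.sc_later h1
    have h3 := S.hG q.1
    omega

lemma sc_le (p : S.Ix) : S.sc p + S.G p.1 ≤ S.V p.1 + S.G p.1 * (S.L p.1 + 1) := by
  unfold sc
  have := p.2.2
  have h5 : S.G p.1 * ((p.2 : ℕ) + 1) + S.G p.1 ≤ S.G p.1 * (S.L p.1 + 1) := by
    calc S.G p.1 * ((p.2 : ℕ) + 1) + S.G p.1 = S.G p.1 * ((p.2 : ℕ) + 1 + 1) := by ring
      _ ≤ S.G p.1 * (S.L p.1 + 1) := Nat.mul_le_mul_left _ (by omega)
  omega

open Classical in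
/-- selection of exponents -/
noncomputable def sel (w : S.Wd) (i : ℕ) : ℕ :=
  if h : ∃ p : S.Ix, S.lv w p = i then S.sc h.choose - Q.fl i else i

lemma sel_lv (w : S.Wd) (p : S.Ix) : S.sel w (S.lv w p) = S.sc p - Q.fl (S.lv w p) := by
  classical
  have h : ∃ q : S.Ix, S.lv w q = S.lv w p := ⟨p, rfl⟩
  unfold sel
  rw [dif_pos h]
  congr 2
  exact S.lv_inj w h.choose_spec

lemma sel_not (w : S.Wd) {i : ℕ} (h : ¬ ∃ p : S.Ix, S.lv w p = i) : S.sel w i = i := by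
  unfold sel
  rw [dif_neg h]

lemma sc_bounds (w : S.Wd) (p : S.Ix) :
    Q.fl (S.lv w p) ≤ S.sc p ∧ S.sc p ≤ Q.fl (S.lv w p) + S.lv w p := by
  have h1 := S.low _ _ (S.lv_mem w p)
  have h2 := S.high _ _ (S.lv_mem w p)
  have h3 := S.sc_le p
  constructor
  · refine h1.trans ?_
    unfold sc
    omega
  · omega

lemma sel_le (w : S.Wd) (i : ℕ) : S.sel w i ≤ i := by
  by_cases h : ∃ p : S.Ix, S.lv w p = i
  · obtain ⟨p, rfl⟩ := h
    rw [sel_lv]
    have := (S.sc_bounds w p).2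
    omega
  · rw [S.sel_not w h]

/-- the point attached to a word -/
noncomputable def pt (w : S.Wd) : ℝ := ∑' i, Q.tm i (S.sel w i)

lemma summable_inv_fact : Summable (fun i : ℕ => 1 / (i.factorial : ℝ)) := by
  have := Real.summable_pow_div_factorial 1
  simpa using this

lemma summable_tm (Q : Par) (j : ℕ → ℕ) : Summable (fun i => Q.tm i (j i)) :=
  Summable.of_nonneg_of_le (fun i => (Q.tm_pos i _).le) (fun i => Q.tm_le i _) summable_inv_fact

/-- contribution of a choice -/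
noncomputable def ct (w : S.Wd) (p : S.Ix) : ℝ :=
  Q.E ((S.sc p : ℝ) + Q.f (S.lv w p)) - Q.tm (S.lv w p) (S.lv w p)

lemma pt_eq (w : S.Wd) : Summable (S.ct w) ∧ S.pt w = ∑' i, Q.tm i i + ∑' p, S.ct w p := by
  have s1 := summable_tm Q (S.sel w)
  have s2 := summable_tm Q (fun i => i)
  have s3 := s1.sub s2
  have hct : ∀ p, S.ct w p = Q.tm (S.lv w p) (S.sel w (S.lv w p)) -
      Q.tm (S.lv w p) (S.lv w p) := by
    intro p
    unfold ct
    rw [sel_lv]
    obtain ⟨h1, h2⟩ := S.sc_bounds w p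
    rw [Q.tm_scale h1 h2]
  have hsum : Summable (S.ct w) := by
    have := s3.comp_injective (S.lv_inj w)
    refine this.congr (fun p => ?_)
    rw [hct]
    rfl
  refine ⟨hsum, ?_⟩
  have h1 : ∑' p, S.ct w p = ∑' i, (Q.tm i (S.sel w i) - Q.tm i i) := by
    rw [← (S.lv_inj w).tsum_eq (f := fun i => Q.tm i (S.sel w i) - Q.tm i i)]
    · exact tsum_congr hct
    · intro i hi
      rw [Function.mem_support] at hi
      by_contra hc
      apply hi
      rw [S.sel_not w (fun ⟨p, hp⟩ => hc ⟨p, hp⟩), sub_self]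
  rw [h1, s1.tsum_sub s2]
  unfold pt
  ring

lemma tm_small {n i : ℕ} (hi : i ∈ S.P n) :
    Q.tm i i ≤ Q.E ((S.V n + S.G n * (S.L n + 1) : ℕ) : ℝ) := by
  rw [Q.tm_eq le_rfl]
  apply Q.E_anti
  have h1 := S.high n i hi
  have h2 : ((S.V n + S.G n * (S.L n + 1) : ℕ) : ℝ) ≤ ((Q.fl i + i : ℕ) : ℝ) := by
    exact_mod_cast h1
  have h3 := Q.f_nonneg i
  unfold Par.f at h3
  push_cast at h2 ⊢
  linarith

lemma ct_mem (w : S.Wd) (p : S.Ix) : 0 ≤ S.ct w p ∧ S.ct w p ≤ Q.c ^ (S.sc p) := by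
  have h0 := Q.f_nonneg (S.lv w p)
  have h1 := Q.f_lt (S.lv w p)
  have h2 := S.tm_small (S.lv_mem w p)
  have h3 := S.sc_le p
  have h4 := S.hG p.1
  unfold ct
  constructor
  · have h5 : Q.E ((S.V p.1 + S.G p.1 * (S.L p.1 + 1) : ℕ) : ℝ) ≤
        Q.E ((S.sc p : ℝ) + Q.f (S.lv w p)) := by
      apply Q.E_anti
      have : ((S.sc p + S.G p.1 : ℕ) : ℝ) ≤ ((S.V p.1 + S.G p.1 * (S.L p.1 + 1) : ℕ) : ℝ) := by
        exact_mod_cast h3
      have h6 : (1 : ℝ) ≤ S.G p.1 := by exact_mod_cast h4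
      push_cast at this ⊢
      linarith
    linarith
  · have h5 : Q.E ((S.sc p : ℝ) + Q.f (S.lv w p)) ≤ Q.c ^ (S.sc p) := by
      rw [← Q.E_nat]
      apply Q.E_anti
      linarith
    have h6 := Q.tm_pos (S.lv w p) (S.lv w p)
    linarith

lemma tail_geom (Q : Par) (N : ℕ) :
    Summable (fun j : ℕ => if N ≤ j then Q.c ^ j else 0) ∧
    ∑' j : ℕ, (if N ≤ j then Q.c ^ j else 0) = Q.c ^ N / (1 - Q.c) := by
  have hinj : Function.Injective (fun k : ℕ => k + N) := fun a b h => by simpa using h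
  have hsupp : Function.support (fun j => if N ≤ j then Q.c ^ j else 0) ⊆
      Set.range (fun k : ℕ => k + N) := by
    intro j hj
    rw [Function.mem_support] at hj
    have : N ≤ j := by
      by_contra hc
      exact hj (if_neg hc)
    exact ⟨j - N, by simp only; omega⟩
  have hs : Summable (fun j : ℕ => if N ≤ j then Q.c ^ j else 0) := by
    refine Summable.of_nonneg_of_le (fun j => ?_) (fun j => ?_)
      (summable_geometric_of_lt_one Q.c_pos.le Q.c_lt)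
    · split_ifs
      · exact (pow_pos Q.c_pos _).le
      · exact le_rfl
    · split_ifs
      · exact le_rfl
      · exact (pow_pos Q.c_pos _).le
  refine ⟨hs, ?_⟩
  have h2 := hinj.tsum_eq (f := fun j => if N ≤ j then Q.c ^ j else 0) hsupp
  rw [← h2]
  simp only [Nat.le_add_left, if_true]
  simp_rw [pow_add]
  rw [tsum_mul_right, tsum_geometric_of_lt_one Q.c_pos.le Q.c_lt]
  field_simp

/-- separation of the points attached to two words -/
theorem pt_dist (w w' : S.Wd) (n : ℕ) (hn : ∀ n' < n, w n' = w' n') (hne : w n ≠ w' n) :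
    Q.E ((S.V n + S.G n * (S.L n + 1) : ℕ) : ℝ) ≤ |S.pt w - S.pt w'| := by
  classical
  have hex : ∃ k : ℕ, ∃ h : k < S.L n, w n ⟨k, h⟩ ≠ w' n ⟨k, h⟩ := by
    by_contra hc
    push Not at hc
    apply hne
    ext k
    rw [hc k.1 k.2]
  obtain ⟨k, hk⟩ : ∃ k, k = Nat.find hex := ⟨_, rfl⟩
  obtain ⟨hkL, hk1⟩ := Nat.find_spec hex
  have hk2 : ∀ k' < k, ∀ h : k' < S.L n, w n ⟨k', h⟩ = w' n ⟨k', h⟩ := by
    intro k' hk' h
    rw [hk] at hk'
    have := Nat.find_min hex hk'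
    push Not at this
    exact this h
  have hkL' : k < S.L n := by rw [hk]; exact hkL
  have hk1' : w n ⟨k, hkL'⟩ ≠ w' n ⟨k, hkL'⟩ := by
    subst hk
    exact hk1
  obtain ⟨p0, hp0⟩ : ∃ p0 : S.Ix, p0 = ⟨n, ⟨k, hkL'⟩⟩ := ⟨_, rfl⟩
  have hp01 : p0.1 = n := by rw [hp0]
  obtain ⟨s1, e1⟩ := S.pt_eq w
  obtain ⟨s2, e2⟩ := S.pt_eq w'
  have hdiff : S.pt w - S.pt w' = ∑' p, (S.ct w p - S.ct w' p) := by
    rw [e1, e2, s1.tsum_sub s2]
    ring
  have hs := s1.sub s2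
  have hearly : ∀ p, S.Later p p0 → S.ct w p - S.ct w' p = 0 := by
    rintro ⟨n', k'⟩ hp
    have h1 : w n' k' = w' n' k' := by
      rw [hp0] at hp
      unfold Later at hp
      simp only at hp
      rcases hp with h | ⟨h1, h2⟩
      · rw [hn n' h]
      · subst h1
        exact hk2 k' h2 k'.2
    have h2 : S.lv w ⟨n', k'⟩ = S.lv w' ⟨n', k'⟩ := by
      unfold lv
      rw [h1]
    unfold ct
    rw [h2, sub_self]
  obtain ⟨N, hN⟩ : ∃ N, N = S.sc p0 + S.G n := ⟨_, rfl⟩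
  obtain ⟨g1, g2⟩ := tail_geom Q N
  have hrest : |∑' p, (if p = p0 then 0 else (S.ct w p - S.ct w' p))| ≤
      Q.c ^ N / (1 - Q.c) := by
    rw [← g2]
    have hb : ∀ p, |(if p = p0 then 0 else (S.ct w p - S.ct w' p))| ≤
        (fun j : ℕ => if N ≤ j then Q.c ^ j else 0) (S.sc p) := by
      intro p
      simp only
      have hnn : 0 ≤ (if N ≤ S.sc p then Q.c ^ (S.sc p) else 0) := by
        split_ifs
        · exact (pow_pos Q.c_pos _).le
        · exact le_rfl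
      by_cases hp : p = p0
      · rw [if_pos hp, abs_zero]
        exact hnn
      · rw [if_neg hp]
        rcases S.trich p p0 with h | h | h
        · rw [hearly p h, abs_zero]
          exact hnn
        · exact absurd h hp
        · have h1 := S.sc_later h
          rw [hp01] at h1
          rw [if_pos (by omega)]
          obtain ⟨a1, a2⟩ := S.ct_mem w p
          obtain ⟨a3, a4⟩ := S.ct_mem w' p
          rw [abs_le]
          constructor <;> linarith
    have hsc : Summable (fun p => (fun j : ℕ => if N ≤ j then Q.c ^ j else 0) (S.sc p)) :=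
      g1.comp_injective S.sc_inj
    have hsa : Summable (fun p => |(if p = p0 then 0 else (S.ct w p - S.ct w' p))|) :=
      Summable.of_nonneg_of_le (fun p => abs_nonneg _) hb hsc
    calc |∑' p, (if p = p0 then 0 else (S.ct w p - S.ct w' p))|
        ≤ ∑' p, |(if p = p0 then 0 else (S.ct w p - S.ct w' p))| := by
          have := norm_tsum_le_tsum_norm (f := fun p =>
            (if p = p0 then 0 else (S.ct w p - S.ct w' p))) (by simpa [Real.norm_eq_abs] using hsa)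
          simpa [Real.norm_eq_abs] using this
      _ ≤ ∑' p, (fun j : ℕ => if N ≤ j then Q.c ^ j else 0) (S.sc p) :=
          hsa.tsum_le_tsum hb hsc
      _ ≤ ∑' j : ℕ, (if N ≤ j then Q.c ^ j else 0) :=
          tsum_comp_le_tsum_of_inj g1 (fun j => by
            split_ifs
            · exact (pow_pos Q.c_pos _).le
            · exact le_rfl) S.sc_inj
  have hsplit := hs.tsum_eq_add_tsum_ite p0
  rw [hdiff, hsplit]
  -- main term
  obtain ⟨i, hi⟩ : ∃ i, i = S.lv w p0 := ⟨_, rfl⟩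
  obtain ⟨i', hi'⟩ : ∃ i', i' = S.lv w' p0 := ⟨_, rfl⟩
  have hiP : i ∈ S.P n := by rw [hi, ← hp01]; exact S.lv_mem w p0
  have hiP' : i' ∈ S.P n := by rw [hi', ← hp01]; exact S.lv_mem w' p0
  have hii : i ≠ i' := by
    intro h
    apply hk1'
    apply Subtype.ext
    rw [hi, hi', hp0] at h
    exact h
  have hmain : Q.E (S.sc p0) * (Q.E (S.G n) * (4 / (1 - Q.c))) ≤
      |Q.E ((S.sc p0 : ℝ) + Q.f i) - Q.E ((S.sc p0 : ℝ) + Q.f i')| := by
    refine le_trans ?_ (Q.E_sub (m := S.sc p0) (Q.f_lt i).le (Q.f_lt i').le)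
    apply mul_le_mul_of_nonneg_left _ (Q.E_pos _).le
    refine (S.gap n).trans ?_
    apply mul_le_mul_of_nonneg_left (S.sep n i hiP i' hiP' hii)
    exact (mul_pos Q.c_pos Q.lam_pos).le
  have hEN : Q.E (S.sc p0) * Q.E (S.G n) = Q.c ^ N := by
    rw [← Q.E_add, ← Q.E_nat, hN]
    push_cast
    rfl
  have hfin : Q.E ((S.V n + S.G n * (S.L n + 1) : ℕ) : ℝ) ≤ Q.c ^ N := by
    rw [Q.E_nat]
    apply pow_le_pow_of_le_one Q.c_pos.le Q.c_lt.le
    have := S.sc_le p0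
    rw [hp01] at this
    omega
  have t1 := S.tm_small hiP
  have t2 := S.tm_small hiP'
  have t3 := Q.tm_pos i i
  have t4 := Q.tm_pos i' i'
  have hc0 := Q.c_pos
  have hc1 := Q.c_lt
  have h1c : 0 < 1 - Q.c := by linarith
  have hone : 1 ≤ 1 / (1 - Q.c) := by
    rw [le_div_iff₀ h1c]
    linarith
  have hcN : 0 < Q.c ^ N := pow_pos hc0 _
  have hmain2 : 4 * (Q.c ^ N * (1 / (1 - Q.c))) ≤
      |Q.E ((S.sc p0 : ℝ) + Q.f i) - Q.E ((S.sc p0 : ℝ) + Q.f i')| := by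
    refine le_trans (le_of_eq ?_) hmain
    rw [← hEN]
    ring
  have hrest2 : |∑' p, (if p = p0 then 0 else (S.ct w p - S.ct w' p))| ≤
      Q.c ^ N * (1 / (1 - Q.c)) := by
    refine hrest.trans (le_of_eq ?_)
    ring
  have hct0 : S.ct w p0 - S.ct w' p0 = (Q.E ((S.sc p0 : ℝ) + Q.f i) -
      Q.E ((S.sc p0 : ℝ) + Q.f i')) - (Q.tm i i - Q.tm i' i') := by
    unfold ct
    rw [← hi, ← hi']
    ring
  have htm : |Q.tm i i - Q.tm i' i'| ≤ Q.c ^ N := by
    rw [abs_le]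
    constructor <;> linarith
  have hcN1 : Q.c ^ N ≤ Q.c ^ N * (1 / (1 - Q.c)) := by nlinarith
  rw [hct0]
  generalize (∑' p, (if p = p0 then 0 else (S.ct w p - S.ct w' p))) = R at *
  generalize (Q.E ((S.sc p0 : ℝ) + Q.f i) - Q.E ((S.sc p0 : ℝ) + Q.f i')) = X at *
  generalize (Q.tm i i - Q.tm i' i') = Y at *
  have h5 : |X| ≤ |X - Y + R| + |Y| + |R| := by
    have : X = (X - Y + R) + Y - R := by ring
    calc |X| = |(X - Y + R) + Y - R| := by rw [← this]
      _ ≤ |(X - Y + R) + Y| + |R| := abs_sub _ _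
      _ ≤ |X - Y + R| + |Y| + |R| := by linarith [abs_add_le (X - Y + R) Y]
  linarith

end Sys

end Pool.Agent.V11112.EX
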