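import Pool.Agent.V11112.EX1

open Filter Topology
open scoped ENNReal NNReal

namespace Pool.Agent.V11112.EX

open Pool.Agent.V11112.GB

/-- the exponential series evaluated at two points, as selections -/
def expab (Q : Par) : Set ℝ := {y | ∃ j : ℕ → ℕ, (∀ i, j i ≤ i) ∧ y = ∑' i, Q.tm i (j i)}

lemma exists_enc {L : ℕ} {P : Finset ℕ} (h : 2 * L ≤ P.card) (hL : 1 ≤ L) :
    Nonempty (Fin (2 ^ (L * Nat.log 2 L)) ↪ (Fin L ↪ {i : ℕ // i ∈ P})) := by
  apply Function.Embedding.nonempty_of_card_le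
  rw [Fintype.card_embedding_eq, Fintype.card_fin, Fintype.card_fin, Fintype.card_coe]
  refine le_trans ?_ (Nat.pow_sub_le_descFactorial _ _)
  have h1 : 2 ^ (Nat.log 2 L) ≤ L := Nat.pow_log_le_self 2 (by omega)
  calc 2 ^ (L * Nat.log 2 L) = (2 ^ (Nat.log 2 L)) ^ L := by rw [← pow_mul, mul_comm]
    _ ≤ L ^ L := Nat.pow_le_pow_left h1 L
    _ ≤ (P.card + 1 - L) ^ L := Nat.pow_le_pow_left (by omega) L

theorem Sys.dim_lower {Q : Par} (S : Sys Q) (hL : ∀ n, 2 ≤ S.L n) {s B : ℝ} (hs : 0 < s)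
    (hB : ∀ n, s * ((S.V n + S.G n * (S.L n + 1) : ℕ) : ℝ) ≤
      (CS (fun n => S.L n * Nat.log 2 (S.L n)) n : ℝ) + B) :
    0 < dimH (expab Q) := by
  obtain ⟨e, he⟩ : ∃ e : ℕ → ℕ, ∀ n, e n = S.L n * Nat.log 2 (S.L n) := ⟨_, fun _ => rfl⟩
  have he' : (fun n => S.L n * Nat.log 2 (S.L n)) = e := by funext n; rw [he]
  rw [he'] at hB
  have he1 : ∀ n, 1 ≤ e n := by
    intro n
    rw [he]
    have h1 := hL n
    have h2 : 1 ≤ Nat.log 2 (S.L n) := Nat.log_pos (by norm_num) h1
    nlinarith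
  have hcod := CS_cod he1
  have hcs : ∀ k, CS e (k + 1) - CS e k = e k := by
    intro k
    rw [CS]; omega
  have henc : ∀ n, Nonempty (Fin (2 ^ (e n)) ↪ (Fin (S.L n) ↪ {i : ℕ // i ∈ S.P n})) := by
    intro n
    rw [he]
    exact exists_enc (S.card n) (by have := hL n; omega)
  obtain ⟨enc⟩ : Nonempty (∀ n, Fin (2 ^ (e n)) ↪ (Fin (S.L n) ↪ {i : ℕ // i ∈ S.P n})) :=
    ⟨fun n => Classical.choice (henc n)⟩
  have hpos : ∀ n, 0 < 2 ^ (e n) := fun n => by positivity
  obtain ⟨w, hw⟩ : ∃ w : ℝ → S.Wd, ∀ r n, w r n =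
      if h : oc (CS e) r n < 2 ^ (e n) then enc n ⟨oc (CS e) r n, h⟩ else enc n ⟨0, hpos n⟩ :=
    ⟨fun r n => if h : oc (CS e) r n < 2 ^ (e n) then enc n ⟨oc (CS e) r n, h⟩
      else enc n ⟨0, hpos n⟩, fun _ _ => rfl⟩
  have hoc : ∀ r, 0 ≤ r → ∀ k, oc (CS e) r k < 2 ^ (e k) := by
    intro r hr k
    have := oc_lt hcod.mono hr k
    rwa [hcs] at this
  have hlam := Q.lam_pos
  have hlog2 : 0 < Real.log 2 := Real.log_pos (by norm_num)
  obtain ⟨t, ht⟩ : ∃ t : ℝ, t = s * Real.log 2 / Q.lam := ⟨_, rfl⟩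
  have ht0 : 0 < t := by rw [ht]; positivity
  have hmain : ENNReal.ofReal t ≤ dimH ((fun r => S.pt (w r)) '' (Set.Ico (0 : ℝ) 1)) := by
    apply dim_of_holder (C := 2 ^ B) ht0 (by positivity)
    intro r r' hr hlt hr'
    have hr0' : 0 ≤ r' := by linarith
    obtain ⟨k, g1, g2, g3⟩ := first_diff hcod hr hlt hr'
    have e1 := oc_add hcod.mono hr k
    have e2 := oc_add hcod.mono hr0' k
    rw [g1] at e1
    have hne : oc (CS e) r k ≠ oc (CS e) r' k := by
      intro h
      rw [h] at e1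
      omega
    have hdist := S.pt_dist (w r) (w r') k
      (fun i hi => by
        rw [hw, hw, dif_pos (hoc r hr i), dif_pos (hoc r' hr0' i)]
        congr 1
        exact Fin.ext (g3 i hi))
      (by
        intro h
        rw [hw, hw, dif_pos (hoc r hr k), dif_pos (hoc r' hr0' k)] at h
        have := (enc k).injective h
        exact hne (congrArg Fin.val this))
    have hup : r' - r ≤ 2 ^ (-(CS e k : ℝ)) := by
      have a1 : ((⌊r * 2 ^ (CS e k)⌋₊ : ℕ) : ℝ) ≤ r * 2 ^ (CS e k) := Nat.floor_le (by positivity)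
      have a2 : r' * 2 ^ (CS e k) < (⌊r' * 2 ^ (CS e k)⌋₊ : ℝ) + 1 := Nat.lt_floor_add_one _
      rw [← g1] at a2
      rw [Real.rpow_neg (by norm_num), Real.rpow_natCast, ← one_div, le_div_iff₀ (by positivity)]
      linarith
    obtain ⟨X, hX⟩ : ∃ X : ℝ, X = ((S.V k + S.G k * (S.L k + 1) : ℕ) : ℝ) := ⟨_, rfl⟩
    have hBk := hB k
    rw [← hX] at hdist hBk
    have h7 : (Q.E X) ^ t = 2 ^ (-(s * X)) := by
      unfold Par.E
      rw [← Real.exp_mul, Real.rpow_def_of_pos (by norm_num : (0 : ℝ) < 2), ht]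
      congr 1
      field_simp
    calc r' - r ≤ 2 ^ (-(CS e k : ℝ)) := hup
      _ ≤ 2 ^ (B + -(s * X)) := by
        apply Real.rpow_le_rpow_of_exponent_le (by norm_num)
        linarith
      _ = 2 ^ B * (Q.E X) ^ t := by
        rw [h7, Real.rpow_add (by norm_num)]
      _ ≤ 2 ^ B * |S.pt (w r) - S.pt (w r')| ^ t := by
        have := Q.E_pos X
        gcongr
  have hsub : (fun r => S.pt (w r)) '' (Set.Ico (0 : ℝ) 1) ⊆ expab Q := by
    rintro _ ⟨r, _, rfl⟩
    exact ⟨S.sel (w r), S.sel_le (w r), rfl⟩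
  refine lt_of_lt_of_le ?_ (hmain.trans (dimH_mono hsub))
  exact ENNReal.ofReal_pos.2 ht0

/-! ### independent sets -/

lemma exists_indep (V : Finset ℕ) (bad : ℕ → ℕ → Prop) [DecidableRel bad]
    (hsymm : ∀ u v, bad u v → bad v u)
    (hdeg : ∑ v ∈ V, (V.filter (fun u => bad v u)).card ≤ 2 * V.card) :
    ∃ I ⊆ V, (∀ u ∈ I, ∀ v ∈ I, u ≠ v → ¬ bad u v) ∧ V.card ≤ 8 * I.card := by
  classical
  obtain ⟨V', hV'⟩ : ∃ V', V' = V.filter (fun v => (V.filter (fun u => bad v u)).card ≤ 3) :=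
    ⟨_, rfl⟩
  have hV'sub : V' ⊆ V := by rw [hV']; exact Finset.filter_subset _ _
  have hhalf : V.card ≤ 2 * V'.card := by
    have h1 : ∑ v ∈ V.filter (fun v => ¬ (V.filter (fun u => bad v u)).card ≤ 3), 4 ≤
        ∑ v ∈ V, (V.filter (fun u => bad v u)).card := by
      calc ∑ v ∈ V.filter (fun v => ¬ (V.filter (fun u => bad v u)).card ≤ 3), 4
          ≤ ∑ v ∈ V.filter (fun v => ¬ (V.filter (fun u => bad v u)).card ≤ 3),
              (V.filter (fun u => bad v u)).card := by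
            apply Finset.sum_le_sum
            intro v hv
            have := (Finset.mem_filter.1 hv).2
            omega
        _ ≤ _ := Finset.sum_le_sum_of_subset (Finset.filter_subset _ _)
    rw [Finset.sum_const, smul_eq_mul] at h1
    have h2 := Finset.card_filter_add_card_filter_not (s := V)
      (fun v => (V.filter (fun u => bad v u)).card ≤ 3)
    rw [← hV'] at h2
    omega
  obtain ⟨Ind, hInd⟩ : ∃ Ind : Finset ℕ → Prop, ∀ I, Ind I ↔
      ∀ u ∈ I, ∀ v ∈ I, u ≠ v → ¬ bad u v := ⟨_, fun _ => Iff.rfl⟩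
  obtain ⟨F, hF⟩ : ∃ F : Finset (Finset ℕ), F = V'.powerset.filter Ind := ⟨_, rfl⟩
  have hFne : F.Nonempty := by
    refine ⟨∅, ?_⟩
    rw [hF, Finset.mem_filter, hInd]
    simp
  obtain ⟨I, hIF, hmax⟩ := Finset.exists_max_image F Finset.card hFne
  rw [hF, Finset.mem_filter, Finset.mem_powerset, hInd] at hIF
  obtain ⟨hIV, hI⟩ := hIF
  refine ⟨I, hIV.trans hV'sub, hI, ?_⟩
  have hcover : V' ⊆ I.biUnion (fun v => insert v (V.filter (fun u => bad v u))) := by
    intro x hx
    rw [Finset.mem_biUnion]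
    by_cases hxI : x ∈ I
    · exact ⟨x, hxI, Finset.mem_insert_self _ _⟩
    · by_contra hc
      push Not at hc
      have hnb : ∀ v ∈ I, ¬ bad v x := by
        intro v hv hb
        apply hc v hv
        rw [Finset.mem_insert, Finset.mem_filter]
        exact Or.inr ⟨hV'sub hx, hb⟩
      have hmem : insert x I ∈ F := by
        rw [hF, Finset.mem_filter, Finset.mem_powerset, hInd]
        refine ⟨Finset.insert_subset hx hIV, ?_⟩
        intro u hu v hv huv
        rw [Finset.mem_insert] at hu hv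
        rcases hu with rfl | hu
        · rcases hv with rfl | hv
          · exact absurd rfl huv
          · intro hb
            exact hnb v hv (hsymm _ _ hb)
        · rcases hv with rfl | hv
          · exact hnb u hu
          · exact hI u hu v hv huv
      have := hmax _ hmem
      rw [Finset.card_insert_of_notMem hxI] at this
      omega
  have h3 : V'.card ≤ ∑ v ∈ I, 4 := by
    calc V'.card ≤ (I.biUnion (fun v => insert v (V.filter (fun u => bad v u)))).card :=
          Finset.card_le_card hcover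
      _ ≤ ∑ v ∈ I, (insert v (V.filter (fun u => bad v u))).card := Finset.card_biUnion_le
      _ ≤ ∑ v ∈ I, 4 := by
        apply Finset.sum_le_sum
        intro v hv
        have h4 := hIV hv
        rw [hV', Finset.mem_filter] at h4
        have := Finset.card_insert_le v (V.filter (fun u => bad v u))
        omega
  rw [Finset.sum_const, smul_eq_mul] at h3
  omega

end Pool.Agent.V11112.EX
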