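import Pool.Agent.V11112.EX2

open Filter Topology
open scoped ENNReal NNReal

namespace Pool.Agent.V11112.EX

open Pool.Agent.V11112.GB

namespace Par
variable (Q : Par)

lemma v_succ (i : ℕ) : Q.v (i + 1) - Q.v i = (Real.log ((i : ℝ) + 1) - Real.log Q.b) / Q.lam := by
  unfold v
  rw [← sub_div]
  congr 1
  have h4 : (0 : ℝ) < (i.factorial : ℝ) := by exact_mod_cast i.factorial_pos
  rw [Nat.factorial_succ]
  push_cast
  rw [Real.log_mul (by positivity) h4.ne']
  ring

lemma v_diff (u h : ℕ) : Q.v (u + h) - Q.v u =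
    ∑ g ∈ Finset.range h, (Real.log ((u : ℝ) + g + 1) - Real.log Q.b) / Q.lam := by
  induction h with
  | zero => simp
  | succ h ih =>
    rw [Finset.sum_range_succ, ← ih]
    have := Q.v_succ (u + h)
    push_cast at this
    rw [← this, ← add_assoc]
    ring

lemma v_mono : Monotone Q.v := by
  apply monotone_nat_of_le_succ
  intro i
  have h1 := Q.v_succ i
  have h2 : 0 ≤ (Real.log ((i : ℝ) + 1) - Real.log Q.b) / Q.lam := by
    apply div_nonneg _ Q.lam_pos.le
    have h3 : 0 ≤ Real.log ((i : ℝ) + 1) := Real.log_nonneg (by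
      have : (0 : ℝ) ≤ i := by positivity
      linarith)
    have h4 : Real.log Q.b ≤ 0 := Real.log_nonpos Q.hb0.le Q.hb
    linarith
  linarith

/-- two pairs of levels with the same difference cannot both be resonant -/
lemma key {M K : ℕ} (hM : 1 ≤ M) (hKM : K ≤ M) (hK : (K : ℝ) ^ 2 ≤ M * Q.lam / 2)
    (hMl : 1 ≤ M * Q.lam) {x x' h : ℕ} (hx : M < x) (hxx : x < x') (hh : 1 ≤ h)
    (hx' : x' + h ≤ M + K) (h1 : |Q.f (x + h) - Q.f x| < 1 / (4 * M * Q.lam))
    (h2 : |Q.f (x' + h) - Q.f x'| < 1 / (4 * M * Q.lam)) : False := by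
  have hlam := Q.lam_pos
  have hM0 : (0 : ℝ) < M := by exact_mod_cast hM
  have hMR : (M : ℝ) < x := by exact_mod_cast hx
  have hxR : (x : ℝ) + 1 ≤ x' := by exact_mod_cast hxx
  have hhR : (1 : ℝ) ≤ h := by exact_mod_cast hh
  have hx'R : (x' : ℝ) + h ≤ M + K := by exact_mod_cast hx'
  have hKR : (K : ℝ) ≤ M := by exact_mod_cast hKM
  obtain ⟨Δ, hΔ⟩ : ∃ Δ : ℝ, Δ = (Q.v (x' + h) - Q.v x') - (Q.v (x + h) - Q.v x) := ⟨_, rfl⟩
  have hsum : Δ = ∑ g ∈ Finset.range h,
      (Real.log ((x' : ℝ) + g + 1) - Real.log ((x : ℝ) + g + 1)) / Q.lam := by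
    rw [hΔ, Q.v_diff, Q.v_diff, ← Finset.sum_sub_distrib]
    apply Finset.sum_congr rfl
    intro g _
    rw [← sub_div]
    congr 1
    ring
  have hterm : ∀ g : ℕ, 0 ≤ (Real.log ((x' : ℝ) + g + 1) - Real.log ((x : ℝ) + g + 1)) / Q.lam := by
    intro g
    apply div_nonneg _ hlam.le
    have : (0 : ℝ) ≤ g := by positivity
    have := Real.log_le_log (by linarith : (0 : ℝ) < (x : ℝ) + g + 1)
      (by linarith : (x : ℝ) + g + 1 ≤ (x' : ℝ) + g + 1)
    linarith
  have hlow : 1 / (2 * M * Q.lam) ≤ Δ := by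
    rw [hsum]
    refine le_trans ?_ (Finset.single_le_sum (fun g _ => hterm g) (Finset.mem_range.2 hh))
    have e1 : Real.log ((x' : ℝ) + (0 : ℕ) + 1) - Real.log ((x : ℝ) + (0 : ℕ) + 1) =
        Real.log (((x' : ℝ) + 1) / ((x : ℝ) + 1)) := by
      rw [Real.log_div (by linarith) (by linarith)]
      simp
    have h3 : 0 < ((x' : ℝ) + 1) / ((x : ℝ) + 1) := div_pos (by linarith) (by linarith)
    have h4 := Real.one_sub_inv_le_log_of_pos h3
    have h5 : 1 / (2 * (M : ℝ)) ≤ 1 - (((x' : ℝ) + 1) / ((x : ℝ) + 1))⁻¹ := by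
      rw [inv_div, one_sub_div (by linarith), div_le_div_iff₀ (by linarith) (by linarith)]
      nlinarith
    rw [e1]
    have e2 : 1 / (2 * (M : ℝ) * Q.lam) = (1 / (2 * (M : ℝ))) / Q.lam := by
      rw [div_div]
    rw [e2]
    exact div_le_div_of_nonneg_right (h5.trans h4) hlam.le
  have hup : Δ ≤ 1 / 2 := by
    rw [hsum]
    calc ∑ g ∈ Finset.range h,
        (Real.log ((x' : ℝ) + g + 1) - Real.log ((x : ℝ) + g + 1)) / Q.lam
        ≤ ∑ g ∈ Finset.range h, ((K : ℝ) / M) / Q.lam := by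
          apply Finset.sum_le_sum
          intro g _
          apply div_le_div_of_nonneg_right _ hlam.le
          have hg : (0 : ℝ) ≤ g := by positivity
          have h3 : 0 < ((x' : ℝ) + g + 1) / ((x : ℝ) + g + 1) :=
            div_pos (by linarith) (by linarith)
          rw [← Real.log_div (by linarith) (by linarith)]
          refine (Real.log_le_sub_one_of_pos h3).trans ?_
          rw [div_sub_one (by linarith), div_le_div_iff₀ (by linarith) hM0]
          have h6 : (x' : ℝ) + g + 1 - (x + g + 1) ≤ K := by linarith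
          have h7 : (0 : ℝ) ≤ K := by positivity
          nlinarith
      _ = (h : ℝ) * (((K : ℝ) / M) / Q.lam) := by rw [Finset.sum_const, Finset.card_range,
            nsmul_eq_mul]
      _ ≤ (K : ℝ) * (((K : ℝ) / M) / Q.lam) := by
        apply mul_le_mul_of_nonneg_right (by linarith)
        positivity
      _ = (K : ℝ) ^ 2 / (M * Q.lam) := by field_simp
      _ ≤ 1 / 2 := by
        rw [div_le_iff₀ (by positivity)]
        linarith
  -- integer parts
  obtain ⟨z, hz⟩ : ∃ z : ℤ, z = ((Q.fl (x' + h) : ℤ) - Q.fl x') - ((Q.fl (x + h) : ℤ) - Q.fl x) :=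
    ⟨_, rfl⟩
  have hzR : (z : ℝ) = Δ - ((Q.f (x' + h) - Q.f x') - (Q.f (x + h) - Q.f x)) := by
    rw [hz, hΔ]
    unfold f
    push_cast
    ring
  rw [abs_lt] at h1 h2
  have e3 : 1 / (4 * (M : ℝ) * Q.lam) = (1 / (2 * M * Q.lam)) / 2 := by
    field_simp
    norm_num
  have e4 : 1 / (4 * (M : ℝ) * Q.lam) ≤ 1 / 4 := by
    apply one_div_le_one_div_of_le (by norm_num)
    nlinarith
  have hz1 : (z : ℝ) < 1 := by
    rw [hzR]
    linarith [h1.1, h1.2, h2.1, h2.2]
  have hz2 : (0 : ℝ) < z := by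
    rw [hzR]
    linarith [h1.1, h1.2, h2.1, h2.2]
  have hz3 : z < 1 := by exact_mod_cast hz1
  have hz4 : 0 < z := by exact_mod_cast hz2
  omega

theorem pool {M K : ℕ} (hM : 1 ≤ M) (hK1 : 1 ≤ K) (hKM : K ≤ M)
    (hK : (K : ℝ) ^ 2 ≤ M * Q.lam / 2) (hMl : 1 ≤ M * Q.lam) :
    ∃ P ⊆ Finset.Ioc M (M + K), K ≤ 8 * P.card ∧
      ∀ i ∈ P, ∀ i' ∈ P, i ≠ i' → 1 / (4 * M * Q.lam) ≤ |Q.f i - Q.f i'| := by
  classical
  obtain ⟨V, hV⟩ : ∃ V, V = Finset.Ioc M (M + K) := ⟨_, rfl⟩
  have hVc : V.card = K := by rw [hV]; simp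
  obtain ⟨bad, hbad⟩ : ∃ bad : ℕ → ℕ → Prop, ∀ u v, bad u v ↔
      (u ≠ v ∧ |Q.f u - Q.f v| < 1 / (4 * M * Q.lam)) := ⟨_, fun _ _ => Iff.rfl⟩
  have hsymm : ∀ u v, bad u v → bad v u := by
    intro u v h
    rw [hbad] at h ⊢
    refine ⟨h.1.symm, ?_⟩
    rw [abs_sub_comm]
    exact h.2
  have hdeg : ∑ v ∈ V, (V.filter (fun u => bad v u)).card ≤ 2 * V.card := by
    rw [← Finset.card_sigma]
    have hle : (V.sigma (fun v => V.filter (fun u => bad v u))).card ≤
        (Finset.Ioo (-(K : ℤ)) K).card := by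
      apply Finset.card_le_card_of_injOn (fun p => (p.2 : ℤ) - p.1)
      · rintro ⟨v, u⟩ hp
        simp only [Finset.coe_sigma, Set.mem_sigma_iff, Finset.mem_coe, Finset.mem_filter] at hp
        rw [hV] at hp
        simp only [Finset.mem_Ioc] at hp
        simp only [Finset.coe_Ioo, Set.mem_Ioo]
        omega
      · -- injectivity
        have core : ∀ v u v' u' : ℕ, v ∈ V → u ∈ V → v' ∈ V → u' ∈ V → bad v u → bad v' u' →
            (u : ℤ) - v = (u' : ℤ) - v' → ¬ v < v' := by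
          intro v u v' u' hv hu hv' hu' hb hb' he hlt
          rw [hbad] at hb hb'
          rw [hV, Finset.mem_Ioc] at hv hu hv' hu'
          rcases Nat.lt_or_gt_of_ne hb.1 with h | h
          · -- v < u
            obtain ⟨d, hd⟩ := Nat.exists_eq_add_of_lt h
            have hu1 : u = v + (d + 1) := by omega
            have hu2 : u' = v' + (d + 1) := by omega
            rw [hu1] at hb
            rw [hu2] at hb' hu'
            refine Q.key hM hKM hK hMl (x := v) (x' := v') (h := d + 1) hv.1 hlt (by omega)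
              hu'.2 ?_ ?_
            · rw [abs_sub_comm]; exact hb.2
            · rw [abs_sub_comm]; exact hb'.2
          · obtain ⟨d, hd⟩ := Nat.exists_eq_add_of_lt h
            have hu1 : v = u + (d + 1) := by omega
            have hu2 : v' = u' + (d + 1) := by omega
            have huu : u < u' := by omega
            rw [hu1] at hb
            rw [hu2] at hb' hv'
            exact Q.key hM hKM hK hMl (x := u) (x' := u') (h := d + 1) hu.1 huu (by omega)
              hv'.2 hb.2 hb'.2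
        rintro ⟨v, u⟩ hp ⟨v', u'⟩ hp' he
        simp only [Finset.coe_sigma, Set.mem_sigma_iff, Finset.mem_coe, Finset.mem_filter] at hp hp'
        simp only at he
        have n1 := core v u v' u' hp.1 hp.2.1 hp'.1 hp'.2.1 hp.2.2 hp'.2.2 he
        have n2 := core v' u' v u hp'.1 hp'.2.1 hp.1 hp.2.1 hp'.2.2 hp.2.2 he.symm
        have e1 : v = v' := by omega
        subst e1
        have e2 : u = u' := by omega
        subst e2
        rfl
    refine hle.trans ?_
    rw [Int.card_Ioo, hVc]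
    omega
  obtain ⟨I, hIV, hI, hIc⟩ := exists_indep V bad hsymm hdeg
  refine ⟨I, by rw [← hV]; exact hIV, by rw [← hVc]; exact hIc, ?_⟩
  intro i hi i' hi' hne
  have := hI i hi i' hi' hne
  rw [hbad] at this
  by_contra hc
  push Not at hc
  exact this ⟨hne, hc⟩

end Par

end Pool.Agent.V11112.EX
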