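import Pool.Agent.V11112.EX3

open Filter Topology
open scoped ENNReal NNReal

namespace Pool.Agent.V11112.EX

open Pool.Agent.V11112.GB

namespace Par
variable (Q : Par)

lemma v_diff_le (u h : ℕ) : Q.v (u + h) - Q.v u ≤
    h * ((Real.log ((u : ℝ) + h) - Real.log Q.b) / Q.lam) := by
  rw [Q.v_diff]
  calc ∑ g ∈ Finset.range h, (Real.log ((u : ℝ) + g + 1) - Real.log Q.b) / Q.lam
      ≤ ∑ g ∈ Finset.range h, (Real.log ((u : ℝ) + h) - Real.log Q.b) / Q.lam := by
        apply Finset.sum_le_sum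
        intro g hg
        have h1 : g + 1 ≤ h := Finset.mem_range.1 hg
        have h2 : (g : ℝ) + 1 ≤ h := by exact_mod_cast h1
        have h3 : (0 : ℝ) ≤ u := by positivity
        have h4 : (0 : ℝ) ≤ g := by positivity
        apply div_le_div_of_nonneg_right _ Q.lam_pos.le
        have := Real.log_le_log (by linarith : (0 : ℝ) < (u : ℝ) + g + 1)
          (by linarith : (u : ℝ) + g + 1 ≤ (u : ℝ) + h)
        linarith
    _ = _ := by rw [Finset.sum_const, Finset.card_range, nsmul_eq_mul]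

lemma v_diff_ge {u : ℕ} (hu : 1 ≤ u) (h : ℕ) :
    h * (Real.log (u : ℝ) / Q.lam) ≤ Q.v (u + h) - Q.v u := by
  rw [Q.v_diff]
  calc (h : ℝ) * (Real.log (u : ℝ) / Q.lam) = ∑ g ∈ Finset.range h, Real.log (u : ℝ) / Q.lam := by
        rw [Finset.sum_const, Finset.card_range, nsmul_eq_mul]
    _ ≤ _ := by
        apply Finset.sum_le_sum
        intro g _
        have h3 : (1 : ℝ) ≤ u := by exact_mod_cast hu
        have h4 : (0 : ℝ) ≤ g := by positivity
        apply div_le_div_of_nonneg_right _ Q.lam_pos.le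
        have h5 := Real.log_le_log (by linarith : (0 : ℝ) < (u : ℝ))
          (by linarith : (u : ℝ) ≤ (u : ℝ) + g + 1)
        have h6 : Real.log Q.b ≤ 0 := Real.log_nonpos Q.hb0.le Q.hb
        linarith

end Par

lemma log_small (D1 D2 : ℝ) {A : ℝ} (hA : 0 < A) :
    ∀ᶠ ν : ℕ in atTop, D1 + D2 * Real.log ν ≤ A * ν := by
  have h1 : Tendsto (fun ν : ℕ => (D1 + D2 * Real.log ν) / ν) atTop (𝓝 0) := by
    have h2 : Tendsto (fun x : ℝ => Real.log x / x) atTop (𝓝 0) :=
      Real.isLittleO_log_id_atTop.tendsto_div_nhds_zero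
    have h3 := h2.comp (tendsto_natCast_atTop_atTop (R := ℝ))
    have h4 : Tendsto (fun ν : ℕ => D1 / (ν : ℝ)) atTop (𝓝 0) :=
      tendsto_const_div_atTop_nhds_zero_nat D1
    have h5 := h4.add (h3.const_mul D2)
    rw [mul_zero, add_zero] at h5
    refine h5.congr (fun ν => ?_)
    simp only [Function.comp]
    ring
  filter_upwards [h1.eventually_lt_const hA, eventually_ge_atTop 1] with ν h2 h3
  have h4 : (0 : ℝ) < ν := by
    have : (1 : ℝ) ≤ ν := by exact_mod_cast h3
    linarith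
  rw [div_lt_iff₀ h4] at h2
  exact h2.le

lemma log_nat_le {ν : ℕ} (h : 2 ≤ ν) : Real.log ((ν : ℝ) + 1) ≤ 2 * (Nat.log 2 ν : ℝ) := by
  have h1 : ν < 2 ^ (Nat.log 2 ν + 1) := Nat.lt_pow_succ_log_self (by norm_num) ν
  have h2 : 1 ≤ Nat.log 2 ν := Nat.log_pos (by norm_num) h
  have h3 : (ν : ℝ) + 1 ≤ 2 ^ (Nat.log 2 ν + 1) := by exact_mod_cast h1
  have h4 := Real.log_le_log (by positivity : (0 : ℝ) < (ν : ℝ) + 1) h3
  rw [Real.log_pow] at h4
  have h5 : Real.log 2 ≤ 1 := by
    have := Real.log_two_lt_d9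
    linarith
  have h6 : (1 : ℝ) ≤ Nat.log 2 ν := by exact_mod_cast h2
  have h7 : 0 ≤ Real.log 2 := Real.log_nonneg (by norm_num)
  push_cast at h4
  nlinarith

theorem exists_sys (Q : Par) : ∃ S : Sys Q, (∀ n, 2 ≤ S.L n) ∧ ∃ s B : ℝ, 0 < s ∧
    ∀ n, s * ((S.V n + S.G n * (S.L n + 1) : ℕ) : ℝ) ≤
      (CS (fun n => S.L n * Nat.log 2 (S.L n)) n : ℝ) + B := by
  have hlam := Q.lam_pos
  have hc0 := Q.c_pos
  have hc1 := Q.c_lt
  have h1c : 0 < 1 - Q.c := by linarith
  obtain ⟨lam, hl⟩ : ∃ lam, lam = Q.lam := ⟨_, rfl⟩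
  obtain ⟨β, hβ⟩ : ∃ β, β = -Real.log Q.b := ⟨_, rfl⟩
  have hβ0 : 0 ≤ β := by
    have : Real.log Q.b ≤ 0 := Real.log_nonpos Q.hb0.le Q.hb
    linarith
  obtain ⟨A, hA⟩ : ∃ A : ℕ, A = ⌈512 / lam⌉₊ + 16 := ⟨_, rfl⟩
  have hA16 : 16 ≤ A := by omega
  have hA16R : (16 : ℝ) ≤ A := by exact_mod_cast hA16
  rw [← hl] at hlam
  have hAl : 512 ≤ (A : ℝ) * lam := by
    have h1 : 512 / lam ≤ (⌈512 / lam⌉₊ : ℝ) := Nat.le_ceil _
    have h2 : (A : ℝ) = (⌈512 / lam⌉₊ : ℝ) + 16 := by rw [hA]; push_cast; ring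
    rw [div_le_iff₀ hlam] at h1
    rw [h2]
    nlinarith
  obtain ⟨C0, hC0⟩ : ∃ C0 : ℝ, C0 = 16 / (Q.c * (1 - Q.c)) := ⟨_, rfl⟩
  have hC01 : 1 ≤ C0 := by
    rw [hC0, le_div_iff₀ (by positivity)]
    nlinarith
  have hlC0 : 0 ≤ Real.log C0 := Real.log_nonneg hC01
  obtain ⟨M, hM⟩ : ∃ M : ℕ → ℕ, ∀ ν, M ν = A * ν ^ 2 := ⟨_, fun _ => rfl⟩
  obtain ⟨G, hG⟩ : ∃ G : ℕ → ℕ, ∀ ν, G ν = ⌈Real.log (C0 * M ν) / lam⌉₊ := ⟨_, fun _ => rfl⟩
  obtain ⟨V, hV⟩ : ∃ V : ℕ → ℕ, ∀ ν, V ν = Q.fl (M ν + 16 * ν) + 1 := ⟨_, fun _ => rfl⟩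
  have hMR : ∀ ν : ℕ, (M ν : ℝ) = A * (ν : ℝ) ^ 2 := fun ν => by rw [hM]; push_cast; ring
  have hMν : ∀ ν : ℕ, 1 ≤ ν → ν ≤ M ν := by
    intro ν h
    rw [hM]
    nlinarith [Nat.mul_le_mul hA16 (Nat.le_refl (ν ^ 2))]
  have hM16 : ∀ ν : ℕ, 1 ≤ ν → 16 * ν ≤ M ν := by
    intro ν h
    rw [hM]
    calc 16 * ν ≤ A * ν := Nat.mul_le_mul_right _ hA16
      _ ≤ A * ν ^ 2 := Nat.mul_le_mul_left _ (by nlinarith)
  have hpool : ∀ ν : ℕ, ∃ P : Finset ℕ, 1 ≤ ν → (P ⊆ Finset.Ioc (M ν) (M ν + 16 * ν) ∧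
      2 * ν ≤ P.card ∧
      ∀ i ∈ P, ∀ i' ∈ P, i ≠ i' → 1 / (4 * M ν * Q.lam) ≤ |Q.f i - Q.f i'|) := by
    intro ν
    by_cases hν : 1 ≤ ν
    · have hνR : (1 : ℝ) ≤ ν := by exact_mod_cast hν
      obtain ⟨P, h1, h2, h3⟩ := Q.pool (M := M ν) (K := 16 * ν) (by have := hMν ν hν; omega)
        (by omega) (hM16 ν hν) (by
          rw [hMR, ← hl]
          push_cast
          nlinarith) (by
          rw [hMR, ← hl]
          nlinarith)
      exact ⟨P, fun _ => ⟨h1, by omega, h3⟩⟩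
    · exact ⟨∅, fun h => absurd h hν⟩
  choose P hP using hpool
  have hlog : ∀ ν : ℕ, 1 ≤ ν → Real.log (M ν) = Real.log A + 2 * Real.log ν := by
    intro ν h
    have h1 : (1 : ℝ) ≤ ν := by exact_mod_cast h
    rw [hMR, Real.log_mul (by positivity) (by positivity), Real.log_pow]
    push_cast
    ring
  have hlogA : 0 ≤ Real.log A := Real.log_nonneg (by linarith)
  -- upper bound for G
  have hGle : ∀ ν : ℕ, 1 ≤ ν →
      (G ν : ℝ) ≤ (Real.log C0 + Real.log A + 2 * Real.log ν) / lam + 1 := by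
    intro ν h
    have h1 : (1 : ℝ) ≤ ν := by exact_mod_cast h
    have hM0 : (0 : ℝ) < M ν := by rw [hMR]; positivity
    have h2 : Real.log (C0 * M ν) = Real.log C0 + Real.log A + 2 * Real.log ν := by
      rw [Real.log_mul (by linarith) hM0.ne', hlog ν h]
      ring
    rw [hG, h2]
    have h3 : 0 ≤ Real.log (ν : ℝ) := Real.log_nonneg h1
    exact (Nat.ceil_lt_add_one (by positivity)).le
  -- large indices
  obtain ⟨D1, hD1⟩ : ∃ D1 : ℝ, D1 = (16 * (Real.log 2 + Real.log A + β) +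
    2 * (Real.log C0 + Real.log A + lam)) / lam + 2 := ⟨_, rfl⟩
  obtain ⟨D2, hD2⟩ : ∃ D2 : ℝ, D2 = 36 / lam := ⟨_, rfl⟩
  have hev1 := log_small D1 D2 (A := (A : ℝ)) (by linarith)
  have hev2 : ∀ᶠ ν : ℕ in atTop, (3 * lam + 2 * Real.log C0) / 30 ≤ Real.log (ν : ℝ) :=
    (Real.tendsto_log_atTop.comp (tendsto_natCast_atTop_atTop (R := ℝ))).eventually_ge_atTop _
  obtain ⟨n0, hn0⟩ := eventually_atTop.1 ((hev1.and hev2).and (eventually_ge_atTop 3))
  have hhigh : ∀ ν, n0 ≤ ν → ∀ i ∈ P ν, V ν + G ν * (ν + 1) ≤ Q.fl i + i := by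
    intro ν hν i hi
    obtain ⟨⟨g1, g2⟩, g3⟩ := hn0 ν hν
    have hν1 : 1 ≤ ν := by omega
    have hνR : (1 : ℝ) ≤ ν := by exact_mod_cast hν1
    have h1 := (hP ν hν1).1 hi
    rw [Finset.mem_Ioc] at h1
    have h2 : Q.fl (M ν) ≤ Q.fl i := Nat.floor_mono (Q.v_mono h1.1.le)
    have hMpos : (0 : ℝ) < M ν := by rw [hMR]; positivity
    have h3 : V ν + G ν * (ν + 1) ≤ Q.fl (M ν) + M ν := by
      have a1 := Q.v_diff_le (M ν) (16 * ν)
      have a2 : (Q.fl (M ν + 16 * ν) : ℝ) ≤ Q.v (M ν + 16 * ν) := Nat.floor_le (Q.v_nonneg _)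
      have a3 : Q.v (M ν) < (Q.fl (M ν) : ℝ) + 1 := Nat.lt_floor_add_one _
      have a4 := hGle ν hν1
      have a5 : Real.log ((M ν : ℝ) + ((16 * ν : ℕ) : ℝ)) ≤
          Real.log 2 + Real.log A + 2 * Real.log ν := by
        have : (M ν : ℝ) + ((16 * ν : ℕ) : ℝ) ≤ 2 * M ν := by
          have := hM16 ν hν1
          have h5 : ((16 * ν : ℕ) : ℝ) ≤ M ν := by exact_mod_cast this
          linarith
        refine (Real.log_le_log (by positivity) this).trans (le_of_eq ?_)
        rw [Real.log_mul (by norm_num) hMpos.ne', hlog ν hν1]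
        ring
      have h3 : 0 ≤ Real.log (ν : ℝ) := Real.log_nonneg hνR
      obtain ⟨lg, hlg⟩ : ∃ lg : ℝ, lg = Real.log ν := ⟨_, rfl⟩
      rw [← hlg] at a4 a5 h3 g1
      have a6 : Q.v (M ν + 16 * ν) - Q.v (M ν) ≤
          16 * ν * ((Real.log 2 + Real.log A + 2 * lg + β) / lam) := by
        refine a1.trans ?_
        push_cast
        apply mul_le_mul_of_nonneg_left _ (by positivity)
        rw [← hl]
        apply div_le_div_of_nonneg_right _ hlam.le
        push_cast at a5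
        linarith
      have a7 : (G ν : ℝ) * (ν + 1) ≤
          2 * ν * ((Real.log C0 + Real.log A + 2 * lg) / lam + 1) := by
        have : (0 : ℝ) ≤ (Real.log C0 + Real.log A + 2 * lg) / lam + 1 := by positivity
        calc (G ν : ℝ) * (ν + 1) ≤ ((Real.log C0 + Real.log A + 2 * lg) / lam + 1) * (ν + 1) := by
              gcongr
          _ ≤ ((Real.log C0 + Real.log A + 2 * lg) / lam + 1) * (2 * ν) := by
              gcongr
              linarith
          _ = _ := by ring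
      have a8 : 16 * ν * ((Real.log 2 + Real.log A + 2 * lg + β) / lam) +
          2 * ν * ((Real.log C0 + Real.log A + 2 * lg) / lam + 1) + 2 * ν =
          ν * (D1 + D2 * lg) := by
        rw [hD1, hD2]
        field_simp
        ring
      have a9 : ν * (D1 + D2 * lg) ≤ M ν := by
        rw [hMR]
        calc (ν : ℝ) * (D1 + D2 * lg) ≤ ν * (A * ν) := by gcongr
          _ = _ := by ring
      have a10 : ((V ν + G ν * (ν + 1) : ℕ) : ℝ) ≤ ((Q.fl (M ν) + M ν : ℕ) : ℝ) := by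
        rw [hV]
        push_cast
        nlinarith
      exact_mod_cast a10
    omega
  have hstep : ∀ ν, n0 ≤ ν → V ν + G ν * (ν + 1) ≤ V (ν + 1) := by
    intro ν hν
    obtain ⟨⟨g1, g2⟩, g3⟩ := hn0 ν hν
    have hν1 : 1 ≤ ν := by omega
    have hνR : (1 : ℝ) ≤ ν := by exact_mod_cast hν1
    obtain ⟨d, hd⟩ : ∃ d, d = A * (2 * ν + 1) + 16 := ⟨_, rfl⟩
    have e1 : M (ν + 1) + 16 * (ν + 1) = (M ν + 16 * ν) + d := by
      rw [hM, hM, hd]; ring
    have a1 := Q.v_diff_ge (u := M ν + 16 * ν) (by have := hMν ν hν1; omega) d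
    rw [← e1] at a1
    have a2 : (Q.fl (M ν + 16 * ν) : ℝ) ≤ Q.v (M ν + 16 * ν) := Nat.floor_le (Q.v_nonneg _)
    have a3 : Q.v (M (ν + 1) + 16 * (ν + 1)) <
      (Q.fl (M (ν + 1) + 16 * (ν + 1)) : ℝ) + 1 := Nat.lt_floor_add_one _
    have a4 := hGle ν hν1
    have hMpos : (0 : ℝ) < M ν := by rw [hMR]; positivity
    have a5 : Real.log A + 2 * Real.log ν ≤ Real.log ((M ν + 16 * ν : ℕ) : ℝ) := by
      rw [← hlog ν hν1]
      apply Real.log_le_log hMpos
      push_cast
      have : (0 : ℝ) ≤ 16 * ν := by positivity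
      linarith
    have h3 : 0 ≤ Real.log (ν : ℝ) := Real.log_nonneg hνR
    obtain ⟨lg, hlg⟩ : ∃ lg : ℝ, lg = Real.log ν := ⟨_, rfl⟩
    rw [← hlg] at a4 a5 h3 g2
    have a6 : (d : ℝ) * ((Real.log A + 2 * lg) / lam) ≤
        Q.v (M (ν + 1) + 16 * (ν + 1)) - Q.v (M ν + 16 * ν) := by
      refine le_trans ?_ a1
      rw [← hl]
      gcongr
    have a7 : (G ν : ℝ) * (ν + 1) ≤
        2 * ν * ((Real.log C0 + Real.log A + 2 * lg) / lam + 1) := by
      have : (0 : ℝ) ≤ (Real.log C0 + Real.log A + 2 * lg) / lam + 1 := by positivity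
      calc (G ν : ℝ) * (ν + 1) ≤ ((Real.log C0 + Real.log A + 2 * lg) / lam + 1) * (ν + 1) := by
            gcongr
        _ ≤ ((Real.log C0 + Real.log A + 2 * lg) / lam + 1) * (2 * ν) := by
            gcongr
            linarith
        _ = _ := by ring
    have a8 : (32 * (ν : ℝ)) * ((Real.log A + 2 * lg) / lam) ≤
        (d : ℝ) * ((Real.log A + 2 * lg) / lam) := by
      apply mul_le_mul_of_nonneg_right _ (by positivity)
      rw [hd]
      push_cast
      nlinarith
    have a9 : 1 + 2 * ν * ((Real.log C0 + Real.log A + 2 * lg) / lam + 1) ≤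
        (32 * (ν : ℝ)) * ((Real.log A + 2 * lg) / lam) := by
      have b1 : (2 * Real.log C0 + 3 * lam) / lam ≤ 30 * ((Real.log A + 2 * lg) / lam) := by
        rw [← mul_div_assoc]
        apply div_le_div_of_nonneg_right _ hlam.le
        rw [div_le_iff₀ (by norm_num)] at g2
        linarith
      have b2 : (2 * Real.log C0 + 3 * lam) / lam = 2 * (Real.log C0 / lam) + 3 := by
        field_simp
      have b3 : (Real.log C0 + Real.log A + 2 * lg) / lam =
          Real.log C0 / lam + (Real.log A + 2 * lg) / lam := by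
        rw [← add_div]
        congr 1
        ring
      rw [b2] at b1
      rw [b3]
      nlinarith
    have a10 : ((V ν + G ν * (ν + 1) : ℕ) : ℝ) ≤ ((V (ν + 1) : ℕ) : ℝ) := by
      rw [hV, hV]
      push_cast
      linarith
    exact_mod_cast a10
  -- growth
  obtain ⟨D3, hD3⟩ : ∃ D3 : ℝ, D3 = (3 * A + 16) * (Real.log (A + 16) + 4 + β) / lam + 1 :=
    ⟨_, rfl⟩
  have hlA : 0 ≤ Real.log ((A : ℝ) + 16) := Real.log_nonneg (by linarith)
  have hD30 : 0 < D3 := by rw [hD3]; positivity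
  have hgrow : ∀ ν, n0 ≤ ν → (V (ν + 1) : ℝ) - V ν ≤ D3 * ((ν * Nat.log 2 ν : ℕ) : ℝ) := by
    intro ν hν
    obtain ⟨_, g3⟩ := hn0 ν hν
    have hν1 : 1 ≤ ν := by omega
    have hνR : (1 : ℝ) ≤ ν := by exact_mod_cast hν1
    obtain ⟨d, hd⟩ : ∃ d, d = A * (2 * ν + 1) + 16 := ⟨_, rfl⟩
    have e1 : M (ν + 1) + 16 * (ν + 1) = (M ν + 16 * ν) + d := by
      rw [hM, hM, hd]; ring
    have a1 := Q.v_diff_le (M ν + 16 * ν) d
    rw [← e1] at a1
    have a2 : Q.v (M ν + 16 * ν) < (Q.fl (M ν + 16 * ν) : ℝ) + 1 := Nat.lt_floor_add_one _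
    have a3 : (Q.fl (M (ν + 1) + 16 * (ν + 1)) : ℝ) ≤ Q.v (M (ν + 1) + 16 * (ν + 1)) :=
      Nat.floor_le (Q.v_nonneg _)
    have hlg1 : 1 ≤ Nat.log 2 ν := Nat.log_pos (by norm_num) (by omega)
    have a4 := log_nat_le (ν := ν) (by omega)
    obtain ⟨lg, hlg⟩ : ∃ lg : ℝ, lg = (Nat.log 2 ν : ℝ) := ⟨_, rfl⟩
    have hlgR : 1 ≤ lg := by rw [hlg]; exact_mod_cast hlg1
    rw [← hlg] at a4
    have a5 : Real.log (((M ν + 16 * ν : ℕ) : ℝ) + d) ≤ Real.log (A + 16) + 4 * lg := by
      have b1 : ((M ν + 16 * ν : ℕ) : ℝ) + d ≤ (A + 16) * ((ν : ℝ) + 1) ^ 2 := by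
        have : ((M ν + 16 * ν : ℕ) : ℝ) + d = ((M (ν + 1) + 16 * (ν + 1) : ℕ) : ℝ) := by
          rw [e1]; push_cast; ring
        rw [this]
        push_cast
        rw [hMR]
        push_cast
        nlinarith
      have b2 : 0 < ((M ν + 16 * ν : ℕ) : ℝ) + d := by
        have : (0 : ℝ) < d := by rw [hd]; positivity
        positivity
      refine (Real.log_le_log b2 b1).trans ?_
      rw [Real.log_mul (by positivity) (by positivity), Real.log_pow]
      push_cast
      linarith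
    have a6 : (d : ℝ) ≤ (3 * A + 16) * ν := by
      rw [hd]
      push_cast
      nlinarith
    have a7 : Q.v (M (ν + 1) + 16 * (ν + 1)) - Q.v (M ν + 16 * ν) ≤
        ((3 * A + 16) * ν) * ((Real.log (A + 16) + 4 * lg + β) / lam) := by
      refine a1.trans ?_
      rw [← hl]
      have b1 : (Real.log (((M ν + 16 * ν : ℕ) : ℝ) + d) - Real.log Q.b) / lam ≤
          (Real.log (A + 16) + 4 * lg + β) / lam := by
        apply div_le_div_of_nonneg_right _ hlam.le
        linarith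
      have b2 : 0 ≤ (Real.log (A + 16) + 4 * lg + β) / lam := by positivity
      calc (d : ℝ) * ((Real.log (((M ν + 16 * ν : ℕ) : ℝ) + d) - Real.log Q.b) / lam)
          ≤ (d : ℝ) * ((Real.log (A + 16) + 4 * lg + β) / lam) := by gcongr
        _ ≤ _ := by gcongr
    have a8 : (Real.log (A + 16) + 4 * lg + β) / lam ≤
        lg * ((Real.log (A + 16) + 4 + β) / lam) := by
      rw [← mul_div_assoc]
      apply div_le_div_of_nonneg_right _ hlam.le
      nlinarith
    have a9 : ((3 * A + 16) * ν) * ((Real.log (A + 16) + 4 * lg + β) / lam) ≤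
        ((3 * A + 16) * ν) * (lg * ((Real.log (A + 16) + 4 + β) / lam)) := by gcongr
    have a10 : D3 * ((ν * Nat.log 2 ν : ℕ) : ℝ) =
        ((3 * A + 16) * ν) * (lg * ((Real.log (A + 16) + 4 + β) / lam)) + ν * lg := by
      rw [hD3]
      push_cast
      rw [← hlg]
      field_simp
    rw [a10, hV, hV]
    push_cast
    nlinarith
  -- the system
  let S : Sys Q :=
    { L := fun n => n + n0
      P := fun n => P (n + n0)
      V := fun n => V (n + n0)
      G := fun n => G (n + n0)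
      del := fun n => 1 / (4 * M (n + n0) * Q.lam)
      hG := by
        intro n
        obtain ⟨_, g3⟩ := hn0 (n + n0) (by omega)
        have hν1 : 1 ≤ n + n0 := by omega
        rw [hG, Nat.one_le_ceil_iff]
        apply div_pos _ hlam
        apply Real.log_pos
        have h1 : (3 : ℝ) ≤ M (n + n0) := by
          have := hMν (n + n0) hν1
          have h2 : 3 ≤ M (n + n0) := by omega
          exact_mod_cast h2
        nlinarith
      disj := by
        intro n n' i h1 h2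
        obtain ⟨_, g3⟩ := hn0 (n + n0) (by omega)
        obtain ⟨_, g3'⟩ := hn0 (n' + n0) (by omega)
        have k1 := (hP (n + n0) (by omega)).1 h1
        have k2 := (hP (n' + n0) (by omega)).1 h2
        rw [Finset.mem_Ioc] at k1 k2
        have gen : ∀ x y : ℕ, x < y → M x + 16 * x ≤ M y := by
          intro x y hxy
          rw [hM, hM]
          have h3 : x + 1 ≤ y := hxy
          have h4 : (x + 1) ^ 2 ≤ y ^ 2 := Nat.pow_le_pow_left h3 2
          calc A * x ^ 2 + 16 * x ≤ A * x ^ 2 + A * x := by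
                have := Nat.mul_le_mul_right x hA16
                omega
            _ ≤ A * (x + 1) ^ 2 := by nlinarith [Nat.zero_le (A * x), Nat.zero_le A]
            _ ≤ A * y ^ 2 := Nat.mul_le_mul_left _ h4
        rcases lt_trichotomy n n' with h | h | h
        · have := gen (n + n0) (n' + n0) (by omega)
          omega
        · exact h
        · have := gen (n' + n0) (n + n0) (by omega)
          omega
      card := by
        intro n
        obtain ⟨_, g3⟩ := hn0 (n + n0) (by omega)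
        exact (hP (n + n0) (by omega)).2.1
      low := by
        intro n i hi
        obtain ⟨_, g3⟩ := hn0 (n + n0) (by omega)
        have k1 := (hP (n + n0) (by omega)).1 hi
        rw [Finset.mem_Ioc] at k1
        rw [hV]
        have : Q.fl i ≤ Q.fl (M (n + n0) + 16 * (n + n0)) := Nat.floor_mono (Q.v_mono k1.2)
        omega
      high := fun n i hi => hhigh (n + n0) (by omega) i hi
      sep := by
        intro n i hi i' hi' hne
        obtain ⟨_, g3⟩ := hn0 (n + n0) (by omega)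
        exact (hP (n + n0) (by omega)).2.2 i hi i' hi' hne
      gap := by
        intro n
        obtain ⟨_, g3⟩ := hn0 (n + n0) (by omega)
        have hν1 : 1 ≤ n + n0 := by omega
        have hνR : (1 : ℝ) ≤ ((n + n0 : ℕ) : ℝ) := by exact_mod_cast hν1
        have hMpos : (0 : ℝ) < M (n + n0) := by rw [hMR]; positivity
        have h1 : Q.E (G (n + n0)) ≤ 1 / (C0 * M (n + n0)) := by
          unfold Par.E
          rw [← hl]
          have h2 : Real.log (C0 * M (n + n0)) ≤ lam * (G (n + n0) : ℝ) := by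
            rw [hG]
            have := Nat.le_ceil (Real.log (C0 * M (n + n0)) / lam)
            rw [div_le_iff₀ hlam] at this
            linarith
          have h3 : 0 < C0 * M (n + n0) := mul_pos (by linarith) hMpos
          calc Real.exp (-(lam * (G (n + n0) : ℝ))) ≤ Real.exp (-Real.log (C0 * M (n + n0))) := by
                apply Real.exp_le_exp.2
                linarith
            _ = 1 / (C0 * M (n + n0)) := by
                rw [Real.exp_neg, Real.exp_log h3, one_div]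
        have h4 : 0 < 4 / (1 - Q.c) := by positivity
        calc Q.E (G (n + n0)) * (4 / (1 - Q.c)) ≤ 1 / (C0 * M (n + n0)) * (4 / (1 - Q.c)) := by
              gcongr
          _ = Q.c * Q.lam * (1 / (4 * M (n + n0) * Q.lam)) := by
              rw [hC0, ← hl]
              field_simp
              ring
      step := by
        intro n
        have := hstep (n + n0) (by omega)
        rw [show n + 1 + n0 = n + n0 + 1 by ring]
        exact this }
  obtain ⟨e, he⟩ : ∃ e : ℕ → ℕ, ∀ n, e n = (n + n0) * Nat.log 2 (n + n0) := ⟨_, fun _ => rfl⟩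
  refine ⟨S, ?_, 1 / (5 * D3), ((V n0 : ℝ) + D3 * e 0) / (5 * D3), by positivity, ?_⟩
  · intro n
    obtain ⟨_, g3⟩ := hn0 (n + n0) (by omega)
    change 2 ≤ n + n0
    omega
  · intro n
    change 1 / (5 * D3) * ((V (n + n0) + G (n + n0) * (n + n0 + 1) : ℕ) : ℝ) ≤
      (CS (fun n => (n + n0) * Nat.log 2 (n + n0)) n : ℝ) + _
    have he' : (fun n => (n + n0) * Nat.log 2 (n + n0)) = e := by funext n; rw [he]
    rw [he']
    have hVn : ∀ n, (V (n + n0) : ℝ) ≤ V n0 + D3 * (CS e n : ℝ) := by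
      intro n
      induction n with
      | zero => simp [CS]
      | succ n ih =>
        have h1 := hgrow (n + n0) (by omega)
        rw [CS, he]
        rw [show n + 1 + n0 = n + n0 + 1 by ring]
        push_cast at h1 ⊢
        linarith
    have hen : ∀ n, e n ≤ 4 * CS e n + e 0 := by
      intro n
      cases n with
      | zero => omega
      | succ n =>
        rw [CS]
        obtain ⟨_, g3⟩ := hn0 (n + n0) (by omega)
        have h1 : e (n + 1) ≤ 4 * e n := by
          rw [he, he]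
          have h2 : Nat.log 2 (n + 1 + n0) ≤ Nat.log 2 (n + n0) + 1 := by
            rw [← Nat.log_mul_base (by norm_num) (by omega)]
            apply Nat.log_mono_right
            omega
          have h3 : 1 ≤ Nat.log 2 (n + n0) := Nat.log_pos (by norm_num) (by omega)
          calc (n + 1 + n0) * Nat.log 2 (n + 1 + n0)
              ≤ (2 * (n + n0)) * (2 * Nat.log 2 (n + n0)) := by
                apply Nat.mul_le_mul <;> omega
            _ = 4 * ((n + n0) * Nat.log 2 (n + n0)) := by ring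
        omega
    have h1 := hstep (n + n0) (by omega)
    have h2 := hVn (n + 1)
    rw [CS] at h2
    rw [show n + 1 + n0 = n + n0 + 1 by ring] at h2
    have h3 : ((V (n + n0) + G (n + n0) * (n + n0 + 1) : ℕ) : ℝ) ≤ V (n + n0 + 1) := by
      exact_mod_cast h1
    have h4 : (e n : ℝ) ≤ 4 * (CS e n : ℝ) + e 0 := by exact_mod_cast hen n
    push_cast at h2
    rw [one_div_mul_eq_div, div_le_iff₀ (by positivity), add_mul, div_mul_cancel₀ _ (by positivity)]
    nlinarith

end Pool.Agent.V11112.EX
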