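import Mathlib

open Filter Topology
open scoped ENNReal NNReal

namespace Pool.Agent.V11112.GA

/-- the Gauss map -/
noncomputable def gs (x : ℝ) : ℝ := Int.fract (1 / x)

/-- first partial quotient -/
noncomputable def dg (x : ℝ) : ℕ := ⌊1 / x⌋₊

lemma gs_zero : gs 0 = 0 := by simp [gs]

lemma gs_nonneg (x : ℝ) : 0 ≤ gs x := Int.fract_nonneg _
lemma gs_lt_one (x : ℝ) : gs x < 1 := Int.fract_lt_one _

lemma iter_gs_zero (n : ℕ) : gs^[n] 0 = 0 := by
  induction n with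
  | zero => rfl
  | succ n ih => rw [Function.iterate_succ_apply', ih, gs_zero]

lemma dg_add {x : ℝ} (h0 : 0 < x) : 1 / x = dg x + gs x := by
  unfold dg gs
  have h1 : (0 : ℝ) ≤ 1 / x := by positivity
  have h2 : ((⌊1 / x⌋₊ : ℕ) : ℝ) = ((⌊1 / x⌋ : ℤ) : ℝ) := by
    rw [natCast_floor_eq_intCast_floor h1]
  rw [h2]
  exact (Int.floor_add_fract _).symm

lemma eq_inv {x : ℝ} (h0 : 0 < x) : x = 1 / ((dg x : ℝ) + gs x) := by
  rw [← dg_add h0]
  simp

lemma dg_pos {x : ℝ} (h0 : 0 < x) (h1 : x < 1) : 1 ≤ dg x := by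
  unfold dg
  rw [Nat.one_le_floor_iff, le_div_iff₀ h0]
  linarith

lemma le_inv_dg {x : ℝ} (h0 : 0 < x) (h1 : x < 1) : x ≤ 1 / (dg x : ℝ) := by
  have hb : (1 : ℝ) ≤ dg x := by exact_mod_cast dg_pos h0 h1
  have h2 := gs_nonneg x
  conv_lhs => rw [eq_inv h0]
  apply one_div_le_one_div_of_le <;> linarith

lemma inv_dg_lt {x : ℝ} (h0 : 0 < x) (h1 : x < 1) : 1 / ((dg x : ℝ) + 1) < x := by
  have hb : (1 : ℝ) ≤ dg x := by exact_mod_cast dg_pos h0 h1
  have h2 := gs_lt_one x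
  have h3 := gs_nonneg x
  conv_rhs => rw [eq_inv h0]
  apply one_div_lt_one_div_of_lt <;> linarith

lemma mul_gs_le {x : ℝ} (h0 : 0 < x) (h1 : x < 1) : x * gs x ≤ 1 / 2 := by
  have hb : (1 : ℝ) ≤ dg x := by exact_mod_cast dg_pos h0 h1
  have h2 := dg_add h0
  have h3 : x * gs x = 1 - x * dg x := by
    have : gs x = 1 / x - dg x := by linarith
    rw [this]
    field_simp
  have h4 := inv_dg_lt h0 h1
  rw [div_lt_iff₀ (by linarith)] at h4
  rw [h3]
  nlinarith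

lemma sub_eq {x y : ℝ} (hx : 0 < x) (hy : 0 < y) (h : dg x = dg y) :
    |x - y| = x * y * |gs x - gs y| := by
  have h1 := dg_add hx
  have h2 := dg_add hy
  have h3 : gs x - gs y = (y - x) / (x * y) := by
    have : gs x - gs y = 1 / x - 1 / y := by
      rw [h1, h2, h]; ring
    rw [this]
    field_simp
  rw [h3, abs_div, abs_of_pos (mul_pos hx hy), abs_sub_comm]
  field_simp

/-- points all of whose iterates are positive -/
def Good (x : ℝ) : Prop := 0 < x ∧ x < 1 ∧ ∀ n, 0 < gs^[n] x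

lemma good_iter {x : ℝ} (h : Good x) (n : ℕ) : Good (gs^[n] x) := by
  refine ⟨h.2.2 n, ?_, fun m => ?_⟩
  · cases n with
    | zero => exact h.2.1
    | succ n => rw [Function.iterate_succ_apply']; exact gs_lt_one _
  · rw [← Function.iterate_add_apply]; exact h.2.2 _

lemma good_gs {x : ℝ} (h : Good x) : Good (gs x) := good_iter h 1

/-- product of the iterates -/
noncomputable def PP (x : ℝ) (n : ℕ) : ℝ := ∏ i ∈ Finset.range n, gs^[i] x

lemma PP_succ (x : ℝ) (n : ℕ) : PP x (n + 1) = PP x n * gs^[n] x := Finset.prod_range_succ _ _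

lemma PP_succ' (x : ℝ) (n : ℕ) : PP x (n + 1) = x * PP (gs x) n := by
  unfold PP
  rw [Finset.prod_range_succ']
  simp only [Function.iterate_succ_apply, Function.iterate_zero, id]
  ring

lemma PP_add (x : ℝ) (m n : ℕ) : PP x (m + n) = PP x m * PP (gs^[m] x) n := by
  unfold PP
  rw [Finset.prod_range_add]
  congr 1
  apply Finset.prod_congr rfl
  intro i _
  rw [← Function.iterate_add_apply, add_comm]

lemma PP_pos {x : ℝ} (h : Good x) (n : ℕ) : 0 < PP x n := Finset.prod_pos (fun i _ => h.2.2 i)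

lemma PP_le_half {x : ℝ} (h : Good x) (n : ℕ) : PP x n ≤ (1 / 2) ^ (n / 2) := by
  induction n using Nat.strong_induction_on generalizing x with
  | _ n ih =>
    match n with
    | 0 => simp [PP]
    | 1 =>
      simp only [PP, Finset.prod_range_one, Function.iterate_zero, id]
      have := h.2.1
      norm_num
      exact this.le
    | n + 2 =>
      rw [show n + 2 = (n + 1) + 1 by ring, PP_succ', PP_succ']
      have h1 := ih n (by omega) (good_gs (good_gs h))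
      have h2 := mul_gs_le h.1 h.2.1
      have h3 := PP_pos (good_gs (good_gs h)) n
      have h4 : (n + 1 + 1) / 2 = n / 2 + 1 := by omega
      rw [h4, pow_succ]
      have h5 := (good_gs h).1
      calc x * (gs x * PP (gs (gs x)) n) = (x * gs x) * PP (gs (gs x)) n := by ring
        _ ≤ (1 / 2) * (1 / 2) ^ (n / 2) := by
          apply mul_le_mul h2 h1 h3.le (by norm_num)
        _ = _ := by ring

lemma PP_mul_le {x y : ℝ} (hx : Good x) (hy : Good y) (n : ℕ) :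
    PP x n * PP y n ≤ 2 * (1 / 2) ^ n := by
  have h1 := PP_le_half hx n
  have h2 := PP_le_half hy n
  have h3 := PP_pos hx n
  have h4 := PP_pos hy n
  calc PP x n * PP y n ≤ (1 / 2) ^ (n / 2) * (1 / 2) ^ (n / 2) :=
        mul_le_mul h1 h2 h4.le (by positivity)
    _ = (1 / 2) ^ (n / 2 + n / 2) := by rw [pow_add]
    _ = 2 * (1 / 2) ^ (n / 2 + n / 2 + 1) := by rw [pow_succ]; ring
    _ ≤ 2 * (1 / 2) ^ n := by
      gcongr 2 * ?_
      apply pow_le_pow_of_le_one (by norm_num) (by norm_num)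
      omega

lemma iter_sub {x y : ℝ} (hx : Good x) (hy : Good y) (n : ℕ)
    (h : ∀ i < n, dg (gs^[i] x) = dg (gs^[i] y)) :
    |x - y| = PP x n * PP y n * |gs^[n] x - gs^[n] y| := by
  induction n with
  | zero => simp [PP]
  | succ n ih =>
    have h1 := ih (fun i hi => h i (by omega))
    have h2 := sub_eq (hx.2.2 n) (hy.2.2 n) (h n (by omega))
    rw [h1, h2, PP_succ, PP_succ, Function.iterate_succ_apply', Function.iterate_succ_apply']
    ring

/-! ### points with given digits -/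

/-- tail of a digit sequence -/
def sh (b : ℕ → ℕ) : ℕ → ℕ := fun n => b (n + 1)

/-- finite continued fractions -/
noncomputable def cv : ℕ → (ℕ → ℕ) → ℝ
  | 0, _ => 1
  | n + 1, b => 1 / ((b 0 : ℝ) + cv n (sh b))

lemma cv_mem {b : ℕ → ℕ} (hb : ∀ n, 1 ≤ b n) (n : ℕ) : 0 < cv n b ∧ cv n b ≤ 1 := by
  induction n generalizing b with
  | zero => simp [cv]
  | succ n ih =>
    have h1 := ih (b := sh b) (fun n => hb (n + 1))
    have h0 : (1 : ℝ) ≤ b 0 := by exact_mod_cast hb 0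
    simp only [cv]
    constructor
    · have := h1.1
      positivity
    · rw [div_le_one (by linarith [h1.1])]
      linarith [h1.1]

lemma cv_dist {b : ℕ → ℕ} (hb : ∀ n, 1 ≤ b n) (n m : ℕ) :
    |cv n b - cv (n + m) b| ≤ 2 * (1 / 2) ^ n := by
  induction n using Nat.strong_induction_on generalizing b with
  | _ n ih =>
    match n with
    | 0 =>
      obtain ⟨h1, h2⟩ := cv_mem hb 0
      obtain ⟨h3, h4⟩ := cv_mem hb (0 + m)
      rw [abs_le, pow_zero, mul_one]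
      constructor <;> linarith
    | 1 =>
      obtain ⟨h1, h2⟩ := cv_mem hb 1
      obtain ⟨h3, h4⟩ := cv_mem hb (1 + m)
      rw [abs_le, pow_one]
      constructor <;> linarith
    | n + 2 =>
      have hs : ∀ n, 1 ≤ sh b n := fun n => hb (n + 1)
      have hss : ∀ n, 1 ≤ sh (sh b) n := fun n => hs (n + 1)
      have h1 := ih n (by omega) hss
      have e1 : n + 2 + m = (n + m) + 1 + 1 := by ring
      have e2 : n + 2 = n + 1 + 1 := by ring
      rw [e1, e2]
      obtain ⟨p, hp⟩ : ∃ p, p = cv n (sh (sh b)) := ⟨_, rfl⟩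
      obtain ⟨q, hq⟩ : ∃ q, q = cv (n + m) (sh (sh b)) := ⟨_, rfl⟩
      rw [← hp, ← hq] at h1
      have c1 : cv (n + 1 + 1) b = 1 / ((b 0 : ℝ) + 1 / ((sh b 0 : ℝ) + p)) := by
        rw [hp]; rfl
      have c2 : cv (n + m + 1 + 1) b = 1 / ((b 0 : ℝ) + 1 / ((sh b 0 : ℝ) + q)) := by
        rw [hq]; rfl
      rw [c1, c2]
      have hp0 := cv_mem hss n
      have hq0 := cv_mem hss (n + m)
      rw [← hp] at hp0
      rw [← hq] at hq0
      have a0 : (1 : ℝ) ≤ b 0 := by exact_mod_cast hb 0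
      have a1 : (1 : ℝ) ≤ sh b 0 := by exact_mod_cast hs 0
      obtain ⟨a, ha⟩ : ∃ a : ℝ, a = b 0 := ⟨_, rfl⟩
      obtain ⟨c, hc⟩ : ∃ c : ℝ, c = sh b 0 := ⟨_, rfl⟩
      rw [← ha] at a0 ⊢
      rw [← hc] at a1 ⊢
      have hcp : 0 < c + p := by linarith [hp0.1]
      have hcq : 0 < c + q := by linarith [hq0.1]
      have e3 : 1 / (a + 1 / (c + p)) - 1 / (a + 1 / (c + q)) =
          (p - q) / ((a * (c + p) + 1) * (a * (c + q) + 1)) := by
        have : 0 < a * (c + p) + 1 := by positivity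
        have : 0 < a * (c + q) + 1 := by positivity
        field_simp
        ring
      rw [e3, abs_div, abs_of_pos (by positivity : 0 < (a * (c + p) + 1) * (a * (c + q) + 1)),
        div_le_iff₀ (by positivity)]
      have h4 : 4 ≤ (a * (c + p) + 1) * (a * (c + q) + 1) := by
        have f1 : 2 ≤ a * (c + p) + 1 := by nlinarith [hp0.1]
        have f2 : 2 ≤ a * (c + q) + 1 := by nlinarith [hq0.1]
        nlinarith
      calc |p - q| ≤ 2 * (1 / 2) ^ n := h1
        _ = 2 * (1 / 2) ^ (n + 1 + 1) * 4 := by rw [pow_succ, pow_succ]; ring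
        _ ≤ _ := by gcongr

lemma cv_cauchy {b : ℕ → ℕ} (hb : ∀ n, 1 ≤ b n) : CauchySeq (fun n => cv n b) := by
  apply cauchySeq_of_le_geometric (1 / 2) 2 (by norm_num)
  intro n
  rw [Real.dist_eq]
  exact cv_dist hb n 1

/-- the number with given partial quotients -/
noncomputable def Y (b : ℕ → ℕ) : ℝ := limUnder atTop (fun n => cv n b)

lemma Y_tendsto {b : ℕ → ℕ} (hb : ∀ n, 1 ≤ b n) : Tendsto (fun n => cv n b) atTop (𝓝 (Y b)) :=
  (cv_cauchy hb).tendsto_limUnder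

lemma Y_mem0 {b : ℕ → ℕ} (hb : ∀ n, 1 ≤ b n) : 0 ≤ Y b ∧ Y b ≤ 1 :=
  ⟨ge_of_tendsto' (Y_tendsto hb) (fun n => (cv_mem hb n).1.le),
    le_of_tendsto' (Y_tendsto hb) (fun n => (cv_mem hb n).2)⟩

lemma Y_eq {b : ℕ → ℕ} (hb : ∀ n, 1 ≤ b n) : Y b = 1 / ((b 0 : ℝ) + Y (sh b)) := by
  have hs : ∀ n, 1 ≤ sh b n := fun n => hb (n + 1)
  have h0 : (1 : ℝ) ≤ b 0 := by exact_mod_cast hb 0
  have h1 := (Y_tendsto hb).comp (tendsto_add_atTop_nat 1)
  have h2 : Tendsto (fun n => 1 / ((b 0 : ℝ) + cv n (sh b))) atTop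
      (𝓝 (1 / ((b 0 : ℝ) + Y (sh b)))) := by
    apply Tendsto.div tendsto_const_nhds ((Y_tendsto hs).const_add _)
    have := (Y_mem0 hs).1
    linarith
  exact tendsto_nhds_unique h1 h2

lemma Y_pos {b : ℕ → ℕ} (hb : ∀ n, 1 ≤ b n) : 0 < Y b := by
  have hs : ∀ n, 1 ≤ sh b n := fun n => hb (n + 1)
  have h0 : (1 : ℝ) ≤ b 0 := by exact_mod_cast hb 0
  have h1 := (Y_mem0 hs).1
  rw [Y_eq hb]
  positivity

lemma Y_lt {b : ℕ → ℕ} (hb : ∀ n, 1 ≤ b n) : Y b < 1 := by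
  have hs : ∀ n, 1 ≤ sh b n := fun n => hb (n + 1)
  have h0 : (1 : ℝ) ≤ b 0 := by exact_mod_cast hb 0
  have h1 := Y_pos hs
  rw [Y_eq hb, div_lt_one (by linarith)]
  linarith

lemma inv_Y {b : ℕ → ℕ} (hb : ∀ n, 1 ≤ b n) : 1 / Y b = (b 0 : ℝ) + Y (sh b) := by
  rw [Y_eq hb]
  simp

lemma dg_Y {b : ℕ → ℕ} (hb : ∀ n, 1 ≤ b n) : dg (Y b) = b 0 := by
  have hs : ∀ n, 1 ≤ sh b n := fun n => hb (n + 1)
  unfold dg
  rw [inv_Y hb, Nat.floor_eq_iff (by have := Y_pos hs; positivity)]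
  have h1 := Y_pos hs
  have h2 := Y_lt hs
  constructor <;> linarith

lemma gs_Y {b : ℕ → ℕ} (hb : ∀ n, 1 ≤ b n) : gs (Y b) = Y (sh b) := by
  have h1 := dg_add (Y_pos hb)
  rw [inv_Y hb, dg_Y hb] at h1
  linarith

lemma iter_Y {b : ℕ → ℕ} (hb : ∀ n, 1 ≤ b n) (n : ℕ) : gs^[n] (Y b) = Y (fun i => b (i + n)) := by
  induction n with
  | zero => rfl
  | succ n ih =>
    rw [Function.iterate_succ_apply', ih, gs_Y (fun i => hb (i + n))]
    congr 1
    funext i
    unfold sh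
    congr 1
    ring

lemma dg_iter_Y {b : ℕ → ℕ} (hb : ∀ n, 1 ≤ b n) (n : ℕ) : dg (gs^[n] (Y b)) = b n := by
  rw [iter_Y hb, dg_Y (fun i => hb (i + n))]
  simp

lemma good_Y {b : ℕ → ℕ} (hb : ∀ n, 1 ≤ b n) : Good (Y b) :=
  ⟨Y_pos hb, Y_lt hb, fun n => by rw [iter_Y hb]; exact Y_pos (fun i => hb (i + n))⟩

end Pool.Agent.V11112.GA
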