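import Pool.Agent.V11112.GA1

open Filter Topology
open scoped ENNReal NNReal

namespace Pool.Agent.V11112.GA

/-- asymptotic set -/
def AS (x : ℝ) : Set ℝ :=
  {y | 0 ≤ y ∧ y < 1 ∧ Tendsto (fun n => |gs^[n] x - gs^[n] y|) atTop (𝓝 0)}

lemma dg_of_gt {x : ℝ} (h : 1 / 2 < x) (h1 : x < 1) : dg x = 1 := by
  unfold dg
  rw [Nat.floor_eq_iff (by positivity)]
  constructor
  · push_cast
    rw [le_div_iff₀ (by linarith)]
    linarith
  · push_cast
    rw [div_lt_iff₀ (by linarith)]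
    linarith

lemma dg_gt_iff {x : ℝ} (hx : Good x) : dg x = 1 ↔ 1 / 2 < x := by
  constructor
  · intro h
    have := inv_dg_lt hx.1 hx.2.1
    rw [h] at this
    norm_num at this
    linarith
  · intro h
    exact dg_of_gt h hx.2.1

lemma gs_of_gt {x : ℝ} (h : 1 / 2 < x) (h1 : x < 1) : gs x = 1 / x - 1 := by
  have := dg_add (by linarith : 0 < x)
  rw [dg_of_gt h h1] at this
  push_cast at this
  linarith

lemma as_digits {x y : ℝ} (hy : y ∈ AS x) :
    ∃ n0, ∀ n, n0 ≤ n → (1 / 2 < gs^[n] x ∧ gs^[n] x < 1) → 1 / 2 < gs^[n] y := by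
  obtain ⟨hy0, hy1, ht⟩ := hy
  obtain ⟨n0, hn0⟩ := Metric.tendsto_atTop.1 ht (1 / 64) (by norm_num)
  refine ⟨n0, fun n hn hxn => ?_⟩
  obtain ⟨hxn, hxn1⟩ := hxn
  have h1 := hn0 n hn
  have h2 := hn0 (n + 1) (by omega)
  rw [Real.dist_eq, sub_zero, abs_abs] at h1 h2
  by_contra hc
  push Not at hc
  rw [abs_lt] at h1
  have hyn : 31 / 64 < gs^[n] y := by linarith [h1.1, h1.2]
  have hxn2 : gs^[n] x < 33 / 64 := by linarith [h1.1, h1.2]
  have hd : dg (gs^[n] y) = 2 := by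
    unfold dg
    rw [Nat.floor_eq_iff (by positivity)]
    constructor
    · push_cast
      rw [le_div_iff₀ (by linarith)]
      linarith
    · push_cast
      rw [div_lt_iff₀ (by linarith)]
      linarith
  have h3 := dg_add (by linarith : 0 < gs^[n] y)
  rw [hd] at h3
  push_cast at h3
  have h4 : 1 / gs^[n] y < 64 / 31 := by
    rw [div_lt_div_iff₀ (by linarith) (by norm_num)]
    linarith
  have h5 : 64 / 33 < 1 / gs^[n] x := by
    rw [div_lt_div_iff₀ (by norm_num) (by linarith)]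
    linarith
  rw [Function.iterate_succ_apply', Function.iterate_succ_apply', gs_of_gt hxn hxn1, abs_lt] at h2
  linarith [h2.1, h2.2]

/-- inverse branch -/
noncomputable def ph (N : ℕ) (z : ℝ) : ℝ := 1 / ((N : ℝ) + 1 + z)

lemma ph_lip (N : ℕ) (S : Set ℝ) (hS : S ⊆ Set.Ico 0 1) : LipschitzOnWith 1 (ph N) S := by
  apply LipschitzOnWith.of_dist_le_mul
  intro z hz w hw
  have hz0 := (hS hz).1
  have hw0 := (hS hw).1
  rw [Real.dist_eq, Real.dist_eq]
  unfold ph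
  have hN : (0 : ℝ) ≤ N := by positivity
  have e : 1 / ((N : ℝ) + 1 + z) - 1 / ((N : ℝ) + 1 + w) =
      (w - z) / (((N : ℝ) + 1 + z) * ((N : ℝ) + 1 + w)) := by
    field_simp
    ring
  rw [e, abs_div, abs_of_pos (by positivity : 0 < ((N : ℝ) + 1 + z) * ((N : ℝ) + 1 + w)),
    div_le_iff₀ (by positivity), abs_sub_comm]
  have h1 : 1 ≤ ((N : ℝ) + 1 + z) * ((N : ℝ) + 1 + w) := by nlinarith
  have h2 := abs_nonneg (z - w)
  simp only [NNReal.coe_one, one_mul]
  nlinarith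

lemma dim_pre (S : Set ℝ) : dimH {y : ℝ | (0 < y ∧ y < 1) ∧ gs y ∈ S} ≤ dimH S := by
  have h1 : {y : ℝ | (0 < y ∧ y < 1) ∧ gs y ∈ S} ⊆
      ⋃ N : ℕ, ph N '' (S ∩ Set.Ico 0 1) := by
    rintro y ⟨⟨h0, h1⟩, hS⟩
    have h2 := dg_pos h0 h1
    refine Set.mem_iUnion.2 ⟨dg y - 1, gs y, ⟨hS, gs_nonneg _, gs_lt_one _⟩, ?_⟩
    unfold ph
    have h3 : ((dg y - 1 : ℕ) : ℝ) + 1 = dg y := by
      rw [Nat.cast_sub h2]
      push_cast
      ring
    rw [h3]
    exact (eq_inv h0).symm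
  refine (dimH_mono h1).trans ?_
  rw [dimH_iUnion]
  exact iSup_le fun N => ((ph_lip N _ Set.inter_subset_right).dimH_image_le).trans
    (dimH_mono Set.inter_subset_left)

lemma dim_pre_iter (S : Set ℝ) (n : ℕ) :
    dimH {y : ℝ | (∀ i, 0 < gs^[i] y) ∧ y < 1 ∧ gs^[n] y ∈ S} ≤ dimH S := by
  induction n with
  | zero => exact dimH_mono (fun y hy => hy.2.2)
  | succ n ih =>
    refine le_trans ?_ ih
    refine le_trans (dimH_mono ?_)
      (dim_pre {y : ℝ | (∀ i, 0 < gs^[i] y) ∧ y < 1 ∧ gs^[n] y ∈ S})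
    rintro y ⟨h0, h1, hS⟩
    exact ⟨⟨h0 0, h1⟩, fun i => h0 (i + 1), gs_lt_one _, hS⟩

/-- points whose digits are trivial outside the special positions `u k + k` -/
def GG (u : ℕ → ℕ) : Set ℝ :=
  {z | Good z ∧ ∀ n, (∀ k, n ≠ u k + k) → 1 / 2 < gs^[n] z}

/-- special digits -/
noncomputable def MM (u : ℕ → ℕ) (y : ℝ) (k : ℕ) : ℕ := dg (gs^[u k + k] y)

lemma MM_pos {u : ℕ → ℕ} {y : ℝ} (hy : y ∈ GG u) (k : ℕ) : 1 ≤ MM u y k := by
  have := good_iter hy.1 (u k + k)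
  exact dg_pos this.1 this.2.1

lemma dg_nonspecial {u : ℕ → ℕ} {y : ℝ} (hy : y ∈ GG u) {n : ℕ} (hn : ∀ k, n ≠ u k + k) :
    dg (gs^[n] y) = 1 :=
  dg_of_gt (hy.2 n hn) (good_iter hy.1 n).2.1

lemma nonspecial_gap {u : ℕ → ℕ} (hu : StrictMono u) (k : ℕ) :
    ∀ n, u k + k + 1 ≤ n → n < u k + k + 1 + (u (k + 1) - u k) → ∀ l, n ≠ u l + l := by
  have h0 : u k < u (k + 1) := hu (Nat.lt_succ_self k)
  intro n h2 h3 l h4
  rcases le_or_gt l k with h5 | h5
  · have : u l ≤ u k := hu.monotone h5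
    omega
  · have : u (k + 1) ≤ u l := hu.monotone h5
    omega

lemma nonspecial_start {u : ℕ → ℕ} (hu : StrictMono u) : ∀ n, n < u 0 → ∀ l, n ≠ u l + l := by
  intro n h2 k h3
  have : u 0 ≤ u k := hu.monotone (Nat.zero_le k)
  omega

lemma prod_upper {u : ℕ → ℕ} (hu : StrictMono u) {x y : ℝ} (hx : x ∈ GG u) (hy : y ∈ GG u)
    (k : ℕ) (h : ∀ i < k, MM u x i = MM u y i) :
    PP x (u k + k) * PP y (u k + k) ≤
      2 ^ (k + 1) * (1 / 2) ^ (u k) * ∏ i ∈ Finset.range k, ((MM u y i : ℝ) ^ 2)⁻¹ := by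
  induction k with
  | zero =>
    simp only [add_zero, zero_add, pow_one, Finset.range_zero, Finset.prod_empty, mul_one]
    exact PP_mul_le hx.1 hy.1 _
  | succ k ih =>
    have ih' := ih (fun i hi => h i (by omega))
    have h0 : u k < u (k + 1) := hu (Nat.lt_succ_self k)
    have h2 : u (k + 1) + (k + 1) = (u k + k) + 1 + (u (k + 1) - u k) := by omega
    have h3 : u (k + 1) = u k + (u (k + 1) - u k) := by omega
    obtain ⟨l, hl⟩ : ∃ l, l = u (k + 1) - u k := ⟨_, rfl⟩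
    rw [h2]
    conv_rhs => rw [h3]
    rw [← hl, PP_add, PP_add y, PP_succ, PP_succ, Finset.prod_range_succ, pow_add (1 / 2 : ℝ)]
    have gx := good_iter hx.1 (u k + k)
    have gy := good_iter hy.1 (u k + k)
    have a1 := PP_mul_le (good_iter hx.1 (u k + k + 1)) (good_iter hy.1 (u k + k + 1)) l
    have a2 : gs^[u k + k] x ≤ 1 / (MM u y k : ℝ) := by
      rw [← h k (by omega)]
      exact le_inv_dg gx.1 gx.2.1
    have a3 : gs^[u k + k] y ≤ 1 / (MM u y k : ℝ) := le_inv_dg gy.1 gy.2.1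
    have a4 : gs^[u k + k] x * gs^[u k + k] y ≤ ((MM u y k : ℝ) ^ 2)⁻¹ := by
      calc gs^[u k + k] x * gs^[u k + k] y ≤ 1 / (MM u y k : ℝ) * (1 / (MM u y k : ℝ)) :=
            mul_le_mul a2 a3 gy.1.le (by positivity)
        _ = _ := by rw [pow_two, mul_inv, one_div]
    have p1 := PP_pos (good_iter hx.1 (u k + k + 1)) l
    have p2 := PP_pos (good_iter hy.1 (u k + k + 1)) l
    have p5 := mul_pos gx.1 gy.1
    have q1 : 0 ≤ ∏ i ∈ Finset.range k, ((MM u y i : ℝ) ^ 2)⁻¹ :=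
      Finset.prod_nonneg (fun i _ => by positivity)
    have q2 : 0 ≤ ((MM u y k : ℝ) ^ 2)⁻¹ := by positivity
    generalize PP x (u k + k) = A at *
    generalize PP y (u k + k) = B at *
    generalize PP (gs^[u k + k + 1] x) l = C at *
    generalize PP (gs^[u k + k + 1] y) l = D at *
    generalize gs^[u k + k] x = z at *
    generalize gs^[u k + k] y = w at *
    generalize ∏ i ∈ Finset.range k, ((MM u y i : ℝ) ^ 2)⁻¹ = Q at *
    generalize ((MM u y k : ℝ) ^ 2)⁻¹ = R at *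
    have hR : 0 ≤ 2 ^ (k + 1) * (1 / 2) ^ (u k) * Q * R :=
      mul_nonneg (mul_nonneg (by positivity) q1) q2
    calc A * z * C * (B * w * D)
        = (A * B) * (z * w) * (C * D) := by ring
      _ ≤ (2 ^ (k + 1) * (1 / 2) ^ (u k) * Q) * R * (2 * (1 / 2) ^ l) := by
          apply mul_le_mul _ a1 (mul_pos p1 p2).le hR
          exact mul_le_mul ih' a4 p5.le (mul_nonneg (by positivity) q1)
      _ = _ := by ring

lemma prod_lower {u : ℕ → ℕ} (hu : StrictMono u) {x : ℝ} (hx : x ∈ GG u) (k : ℕ) :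
    (1 / 2) ^ (u k) * ∏ i ∈ Finset.range k, ((MM u x i : ℝ) + 1)⁻¹ ≤ PP x (u k + k) := by
  have run : ∀ a l : ℕ, (∀ n, a ≤ n → n < a + l → ∀ k, n ≠ u k + k) →
      (1 / 2 : ℝ) ^ l ≤ PP (gs^[a] x) l := by
    intro a l
    induction l with
    | zero => intro _; simp [PP]
    | succ l ih =>
      intro h
      have h1 := ih (fun n h1 h2 => h n h1 (by omega))
      have h2 := hx.2 (a + l) (h (a + l) (by omega) (by omega))
      rw [PP_succ, pow_succ, ← Function.iterate_add_apply, add_comm l a]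
      exact mul_le_mul h1 h2.le (by norm_num) (PP_pos (good_iter hx.1 a) l).le
  induction k with
  | zero =>
    have := run 0 (u 0) (fun n _ h2 => nonspecial_start hu n (by omega))
    simpa using this
  | succ k ih =>
    have h0 : u k < u (k + 1) := hu (Nat.lt_succ_self k)
    have h2 : u (k + 1) + (k + 1) = (u k + k) + 1 + (u (k + 1) - u k) := by omega
    have h3 : u (k + 1) = u k + (u (k + 1) - u k) := by omega
    have h4 := run (u k + k + 1) (u (k + 1) - u k) (nonspecial_gap hu k)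
    obtain ⟨l, hl⟩ : ∃ l, l = u (k + 1) - u k := ⟨_, rfl⟩
    rw [← hl] at h4 h2
    rw [h2]
    conv_lhs => rw [h3]
    rw [← hl, PP_add, PP_succ, Finset.prod_range_succ, pow_add]
    have gx := good_iter hx.1 (u k + k)
    have a1 : ((MM u x k : ℝ) + 1)⁻¹ ≤ gs^[u k + k] x := by
      rw [← one_div]
      exact (inv_dg_lt gx.1 gx.2.1).le
    calc (1 / 2) ^ (u k) * (1 / 2) ^ l * ((∏ i ∈ Finset.range k, ((MM u x i : ℝ) + 1)⁻¹) *
          ((MM u x k : ℝ) + 1)⁻¹)
        = ((1 / 2) ^ (u k) * ∏ i ∈ Finset.range k, ((MM u x i : ℝ) + 1)⁻¹) *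
          ((MM u x k : ℝ) + 1)⁻¹ * (1 / 2) ^ l := by ring
      _ ≤ PP x (u k + k) * gs^[u k + k] x * PP (gs^[u k + k + 1] x) l := by
          apply mul_le_mul _ h4 (by positivity)
          · exact mul_nonneg (PP_pos hx.1 _).le gx.1.le
          · exact mul_le_mul ih a1 (by positivity) (PP_pos hx.1 _).le

lemma digits_agree {u : ℕ → ℕ} (hu : StrictMono u) {x y : ℝ} (hx : x ∈ GG u) (hy : y ∈ GG u)
    {k : ℕ} (h : ∀ i < k, MM u x i = MM u y i) (n : ℕ) (hn : n < u k + k) :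
    dg (gs^[n] x) = dg (gs^[n] y) := by
  by_cases hs : ∃ i, n = u i + i
  · obtain ⟨i, rfl⟩ := hs
    have hik : i < k := by
      by_contra hc
      push Not at hc
      have : u k ≤ u i := hu.monotone hc
      omega
    exact h i hik
  · push Not at hs
    rw [dg_nonspecial hx hs, dg_nonspecial hy hs]

lemma dist_digits {u : ℕ → ℕ} (hu : StrictMono u) {x y : ℝ} (hx : x ∈ GG u) (hy : y ∈ GG u)
    {k : ℕ} (h : ∀ i < k, MM u x i = MM u y i) :
    |x - y| = PP x (u k + k) * PP y (u k + k) * |gs^[u k + k] x - gs^[u k + k] y| :=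
  iter_sub hx.1 hy.1 (u k + k) (fun i hi => digits_agree hu hx hy h i hi)

end Pool.Agent.V11112.GA
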