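import Pool.Agent.V11112.GA7

open Filter Topology
open scoped ENNReal NNReal

namespace Pool.Agent.V11112.GA

lemma tsum_pi (k : ℕ) (a : ℕ → ℕ → ℝ≥0∞) :
    ∑' m : Fin k → ℕ, ∏ i : Fin k, a i (m i) = ∏ i : Fin k, ∑' n, a i n := by
  induction k generalizing a with
  | zero => simp
  | succ k ih =>
    rw [← (Fin.consEquiv (fun _ : Fin (k + 1) => ℕ)).tsum_eq]
    have h1 : ∀ c : ℕ × (Fin k → ℕ),
        ∏ i : Fin (k + 1), a i ((Fin.consEquiv (fun _ : Fin (k + 1) => ℕ)) c i) =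
          a 0 c.1 * ∏ i : Fin k, a (i + 1) (c.2 i) := by
      intro c
      rw [Fin.prod_univ_succ]
      simp [Fin.consEquiv]
    rw [tsum_congr h1,
      ENNReal.tsum_prod (f := fun n (m : Fin k → ℕ) => a 0 n * ∏ i : Fin k, a (i + 1) (m i))]
    simp_rw [ENNReal.tsum_mul_left, ih (fun i => a (i + 1)), ENNReal.tsum_mul_right]
    rw [Fin.prod_univ_succ]
    simp

lemma PP_le_dg {z : ℝ} (h : Good z) (n : ℕ) :
    PP z n ≤ ∏ i : Fin n, ((dg (gs^[i] z) : ℝ))⁻¹ := by
  unfold PP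
  rw [Finset.prod_range]
  apply Finset.prod_le_prod
  · intro i _; exact (h.2.2 i).le
  · intro i _
    have := good_iter h i
    rw [← one_div]
    exact le_inv_dg this.1 this.2.1

theorem dimH_of_digits {s : ℝ≥0} (hs : 0 < s) (a : ℕ → ℕ → ℝ≥0∞) (E : Set ℝ)
    (hE : ∀ z ∈ E, Good z)
    (ha : ∀ z ∈ E, ∀ i, (ENNReal.ofReal (((dg (gs^[i] z) : ℝ) ^ 2)⁻¹)) ^ (s : ℝ) ≤
      a i (dg (gs^[i] z)))
    (hsum : ∀ i, ∑' n, a i n ≤ 1) : dimH E ≤ s := by
  have hs0 : (0 : ℝ) < s := hs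
  apply dimH_le_of_hausdorffMeasure_ne_top
  have hr : Tendsto (fun K : ℕ => ENNReal.ofReal (2 * (1 / 2 : ℝ) ^ K)) atTop (𝓝 0) := by
    rw [← ENNReal.ofReal_zero]
    apply (ENNReal.continuous_ofReal.tendsto 0).comp
    have := (tendsto_pow_atTop_nhds_zero_of_lt_one (by norm_num : (0 : ℝ) ≤ 1 / 2)
      (by norm_num)).const_mul 2
    simpa using this
  have hdist : ∀ (n : ℕ) (m : Fin n → ℕ) (z w : ℝ), (z ∈ E ∧ ∀ i : Fin n, dg (gs^[i] z) = m i) →
      (w ∈ E ∧ ∀ i : Fin n, dg (gs^[i] w) = m i) → |z - w| ≤ PP z n * PP w n := by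
    intro n m z w hz hw
    have h1 := iter_sub (hE z hz.1) (hE w hw.1) n (fun i hi => by
      rw [hz.2 ⟨i, hi⟩, hw.2 ⟨i, hi⟩])
    have g1 := good_iter (hE z hz.1) n
    have g2 := good_iter (hE w hw.1) n
    have h2 : |gs^[n] z - gs^[n] w| ≤ 1 := by
      rw [abs_le]
      constructor
      · linarith [g1.1, g2.2.1]
      · linarith [g1.2.1, g2.1]
    have h3 := mul_pos (PP_pos (hE z hz.1) n) (PP_pos (hE w hw.1) n)
    rw [h1]
    nlinarith
  have hmain := MeasureTheory.Measure.hausdorffMeasure_le_liminf_tsum (s : ℝ) E (l := atTop)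
    (ι := fun K : ℕ => (Fin K → ℕ))
    (fun K => ENNReal.ofReal (2 * (1 / 2 : ℝ) ^ K)) hr
    (fun K m => {z | z ∈ E ∧ ∀ i : Fin K, dg (gs^[i] z) = m i})
    (Eventually.of_forall fun K m => by
      apply Metric.ediam_le
      intro z hz w hw
      rw [edist_dist, Real.dist_eq]
      apply ENNReal.ofReal_le_ofReal
      exact (hdist K m z w hz hw).trans (PP_mul_le (hE z hz.1) (hE w hw.1) K))
    (Eventually.of_forall fun K z hz => Set.mem_iUnion.2
      ⟨fun i => dg (gs^[i] z), hz, fun _ => rfl⟩)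
  have hlim : liminf (fun K => ∑' m : (Fin K → ℕ),
      Metric.ediam {z | z ∈ E ∧ ∀ i : Fin K, dg (gs^[i] z) = m i} ^ (s : ℝ)) atTop ≤ 1 := by
    refine le_trans (liminf_le_liminf (v := fun _ => (1 : ℝ≥0∞))
      (Eventually.of_forall fun K => ?_)) (by simp)
    calc ∑' m : (Fin K → ℕ), Metric.ediam {z | z ∈ E ∧ ∀ i : Fin K, dg (gs^[i] z) = m i} ^ (s : ℝ)
        ≤ ∑' m : (Fin K → ℕ), ∏ i : Fin K, a i (m i) := by
          apply ENNReal.tsum_le_tsum
          intro m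
          rcases Set.eq_empty_or_nonempty {z | z ∈ E ∧ ∀ i : Fin K, dg (gs^[i] z) = m i} with h | h
          · rw [h, Metric.ediam_empty, ENNReal.zero_rpow_of_pos hs0]
            exact bot_le
          · obtain ⟨z0, hz0⟩ := h
            have h1 : Metric.ediam {z | z ∈ E ∧ ∀ i : Fin K, dg (gs^[i] z) = m i} ≤
                ENNReal.ofReal (∏ i : Fin K, ((m i : ℝ) ^ 2)⁻¹) := by
              apply Metric.ediam_le
              intro z hz w hw
              rw [edist_dist, Real.dist_eq]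
              apply ENNReal.ofReal_le_ofReal
              refine (hdist K m z w hz hw).trans ?_
              have e1 := PP_le_dg (hE z hz.1) K
              have e2 := PP_le_dg (hE w hw.1) K
              simp_rw [hz.2] at e1
              simp_rw [hw.2] at e2
              have e3 := (PP_pos (hE w hw.1) K).le
              have e4 := (PP_pos (hE z hz.1) K).le
              calc PP z K * PP w K ≤ (∏ i : Fin K, ((m i : ℝ))⁻¹) * ∏ i : Fin K, ((m i : ℝ))⁻¹ :=
                    mul_le_mul e1 e2 e3 (e4.trans e1)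
                _ = _ := by
                  rw [← Finset.prod_mul_distrib]
                  apply Finset.prod_congr rfl
                  intro i _
                  rw [pow_two, mul_inv]
            refine (ENNReal.rpow_le_rpow h1 hs0.le).trans ?_
            rw [ENNReal.ofReal_prod_of_nonneg (fun i _ => by positivity),
              ← ENNReal.prod_rpow_of_nonneg hs0.le]
            apply Finset.prod_le_prod'
            intro i _
            have := ha z0 hz0.1 i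
            rw [hz0.2 i] at this
            exact this
      _ = ∏ i : Fin K, ∑' n, a i n := tsum_pi K a
      _ ≤ 1 := Finset.prod_le_one' (fun i _ => hsum i)
  exact ne_of_lt (lt_of_le_of_lt (hmain.trans hlim) ENNReal.one_lt_top)

/-- two close points on different sides of `1/m` have far images -/
lemma cross_aux {m : ℕ} (hm : 2 ≤ m) {p q : ℝ} (hp : 1 / (m : ℝ) < p) (hq : q ≤ 1 / (m : ℝ))
    (hpq : p - q < 1 / (8 * (m : ℝ) ^ 2)) : 1 / 2 ≤ gs p - gs q := by
  have hm2 : (2 : ℝ) ≤ m := by exact_mod_cast hm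
  have hm0 : (0 : ℝ) < m := by linarith
  have e1 : 1 / (8 * (m : ℝ) ^ 2) = (1 / m) * (1 / (8 * m)) := by field_simp
  have e2 : 1 / (8 * (m : ℝ)) ≤ 1 / 16 := by
    apply one_div_le_one_div_of_le <;> linarith
  obtain ⟨t, ht⟩ : ∃ t : ℝ, t = 1 / (m : ℝ) := ⟨_, rfl⟩
  have ht0 : 0 < t := by rw [ht]; positivity
  have hmt : (m : ℝ) * t = 1 := by rw [ht]; field_simp
  have e3 : 1 / (8 * (m : ℝ)) = t / 8 := by rw [ht]; field_simp
  rw [e1, e3, ← ht] at hpq
  rw [← ht] at hp hq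
  have htle : t ≤ 1 / 2 := by nlinarith
  have hq1 : t - t * (t / 8) < q := by linarith
  have hp1 : p < t + t * (t / 8) := by linarith
  have hq0 : 0 < q := by nlinarith
  have hp0 : 0 < p := by linarith
  -- bounds for inverses
  have a1 : (m : ℝ) - 1 / 8 < 1 / p := by
    rw [lt_div_iff₀ hp0]
    have : ((m : ℝ) - 1 / 8) * p < ((m : ℝ) - 1 / 8) * (t + t * (t / 8)) := by
      apply mul_lt_mul_of_pos_left hp1
      linarith
    have h2 : ((m : ℝ) - 1 / 8) * (t + t * (t / 8)) = (m * t) * (1 + t / 8) - t / 8 - t ^ 2 / 64 := by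
      ring
    rw [h2, hmt] at this
    nlinarith
  have a2 : 1 / p < m := by
    rw [div_lt_iff₀ hp0]
    nlinarith
  have a3 : (m : ℝ) ≤ 1 / q := by
    rw [le_div_iff₀ hq0]
    nlinarith
  have a4 : 1 / q < m + 1 / 4 := by
    rw [div_lt_iff₀ hq0]
    have : ((m : ℝ) + 1 / 4) * (t - t * (t / 8)) < ((m : ℝ) + 1 / 4) * q := by
      apply mul_lt_mul_of_pos_left hq1
      linarith
    have h2 : ((m : ℝ) + 1 / 4) * (t - t * (t / 8)) = (m * t) * (1 - t / 8) + t / 4 - t ^ 2 / 32 := by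
      ring
    rw [h2, hmt] at this
    nlinarith
  have f1 : ⌊1 / p⌋ = (m : ℤ) - 1 := by
    rw [Int.floor_eq_iff]
    push_cast
    constructor <;> linarith
  have f2 : ⌊1 / q⌋ = (m : ℤ) := by
    rw [Int.floor_eq_iff]
    push_cast
    constructor <;> linarith
  have g1 : gs p = 1 / p - (m - 1) := by
    unfold gs
    rw [← Int.self_sub_floor, f1]
    push_cast
    ring
  have g2 : gs q = 1 / q - m := by
    unfold gs
    rw [← Int.self_sub_floor, f2]
    push_cast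
    ring
  rw [g1, g2]
  linarith

lemma no_cross {x y : ℝ} (hy : y ∈ AS x) {m : ℕ} (hm : 2 ≤ m) :
    ∀ᶠ n in atTop, (1 / (m : ℝ) < gs^[n] x ↔ 1 / (m : ℝ) < gs^[n] y) := by
  have hm2 : (2 : ℝ) ≤ m := by exact_mod_cast hm
  have ht := hy.2.2
  have h1 : ∀ᶠ n in atTop, |gs^[n] x - gs^[n] y| < 1 / (8 * (m : ℝ) ^ 2) :=
    ht.eventually_lt_const (by positivity)
  have h2 : ∀ᶠ n in atTop, |gs^[n + 1] x - gs^[n + 1] y| < 1 / 2 :=
    (ht.comp (tendsto_add_atTop_nat 1)).eventually_lt_const (by norm_num)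
  filter_upwards [h1, h2] with n h1 h2
  rw [Function.iterate_succ_apply', Function.iterate_succ_apply', abs_lt] at h2
  rw [abs_lt] at h1
  by_cases hx : 1 / (m : ℝ) < gs^[n] x
  · refine ⟨fun _ => ?_, fun _ => hx⟩
    by_contra hc
    push Not at hc
    have := cross_aux hm hx hc (by linarith [h1.2])
    linarith [h2.2]
  · refine ⟨fun h => absurd h hx, fun h => ?_⟩
    push Not at hx
    have := cross_aux hm h hx (by linarith [h1.1])
    linarith [h2.1]

lemma no_cross_all {x y : ℝ} (hy : y ∈ AS x) (N : ℕ) :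
    ∃ n0, ∀ n, n0 ≤ n → ∀ m : ℕ, 2 ≤ m → m ≤ N + 1 →
      (1 / (m : ℝ) < gs^[n] x ↔ 1 / (m : ℝ) < gs^[n] y) := by
  have h1 : ∀ᶠ n in atTop, ∀ m ∈ Finset.Icc 2 (N + 1),
      (1 / (m : ℝ) < gs^[n] x ↔ 1 / (m : ℝ) < gs^[n] y) := by
    rw [Filter.eventually_all_finset]
    intro m hm
    exact no_cross hy (Finset.mem_Icc.1 hm).1
  obtain ⟨n0, hn0⟩ := eventually_atTop.1 h1
  exact ⟨n0, fun n hn m h2 h3 => hn0 n hn m (Finset.mem_Icc.2 ⟨h2, h3⟩)⟩

lemma iter_lt_one {x : ℝ} (h1 : x < 1) (n : ℕ) : gs^[n] x < 1 := by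
  cases n with
  | zero => exact h1
  | succ n => rw [Function.iterate_succ_apply']; exact gs_lt_one _

lemma digit_small {N : ℕ} {p q : ℝ} (hp1 : p < 1) (hq0 : 0 < q) (hq1 : q < 1)
    (h : ∀ m : ℕ, 2 ≤ m → m ≤ N + 1 → (1 / (m : ℝ) < p ↔ 1 / (m : ℝ) < q))
    (hp : 1 / ((N : ℝ) + 1) < p) : dg q = dg p := by
  have hp0 : 0 < p := lt_trans (by positivity) hp
  have dp := dg_pos hp0 hp1
  have dq := dg_pos hq0 hq1
  have b1 := le_inv_dg hp0 hp1
  have b2 := inv_dg_lt hp0 hp1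
  have c1 := le_inv_dg hq0 hq1
  have c2 := inv_dg_lt hq0 hq1
  have dpR : (1 : ℝ) ≤ dg p := by exact_mod_cast dp
  have dqR : (1 : ℝ) ≤ dg q := by exact_mod_cast dq
  have hdN : dg p ≤ N := by
    have h1 := lt_of_lt_of_le hp b1
    rw [one_div_lt_one_div (by positivity) (by linarith)] at h1
    have : dg p < N + 1 := by exact_mod_cast h1
    omega
  have hle : dg q ≤ dg p := by
    have h1 := (h (dg p + 1) (by omega) (by omega)).1 (by push_cast; exact b2)
    push_cast at h1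
    have h2 := lt_of_lt_of_le h1 c1
    rw [one_div_lt_one_div (by linarith) (by linarith)] at h2
    have : dg q < dg p + 1 := by exact_mod_cast h2
    omega
  rcases Nat.lt_or_ge (dg p) 2 with h2 | h2
  · omega
  · have h3 : ¬ (1 / (dg p : ℝ) < q) := by
      intro h4
      have := (h (dg p) h2 (by omega)).2 h4
      linarith
    push Not at h3
    have h4 := lt_of_lt_of_le c2 h3
    rw [one_div_lt_one_div (by linarith) (by linarith)] at h4
    have : dg p < dg q + 1 := by exact_mod_cast h4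
    omega

lemma digit_big {N : ℕ} (hN : 1 ≤ N) {p q : ℝ} (hq0 : 0 < q) (hq1 : q < 1)
    (h : ∀ m : ℕ, 2 ≤ m → m ≤ N + 1 → (1 / (m : ℝ) < p ↔ 1 / (m : ℝ) < q))
    (hp : ¬ 1 / ((N : ℝ) + 1) < p) : N + 1 ≤ dg q := by
  have dq := dg_pos hq0 hq1
  have c2 := inv_dg_lt hq0 hq1
  have dqR : (1 : ℝ) ≤ dg q := by exact_mod_cast dq
  have h1 : ¬ (1 / ((N : ℝ) + 1) < q) := by
    intro h2
    apply hp
    have := (h (N + 1) (by omega) le_rfl).2 (by push_cast; exact h2)
    push_cast at this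
    exact this
  push Not at h1
  have h4 := lt_of_lt_of_le c2 h1
  rw [one_div_lt_one_div (by positivity) (by linarith)] at h4
  have : N + 1 < dg q + 1 := by exact_mod_cast h4
  omega

lemma exists_tail {s : ℝ≥0} (hs : (1 / 2 : ℝ) < s) : ∃ N : ℕ, 1 ≤ N ∧
    ∑' j : ℕ, (if N + 1 ≤ j then (ENNReal.ofReal (((j : ℝ) ^ 2)⁻¹)) ^ (s : ℝ) else 0) ≤ 1 := by
  have hs0 : (0 : ℝ) < s := by linarith
  obtain ⟨f, hf⟩ : ∃ f : ℕ → ℝ≥0∞, ∀ j, f j = (ENNReal.ofReal (((j : ℝ) ^ 2)⁻¹)) ^ (s : ℝ) :=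
    ⟨_, fun _ => rfl⟩
  have hf2 : ∀ j, f j = ENNReal.ofReal (1 / (j : ℝ) ^ (2 * (s : ℝ))) := by
    intro j
    rw [hf, ENNReal.ofReal_rpow_of_nonneg (by positivity) hs0.le]
    congr 1
    rw [Real.inv_rpow (by positivity), one_div, Real.rpow_mul (by positivity), Real.rpow_two]
  have hsumm : Summable (fun j : ℕ => 1 / (j : ℝ) ^ (2 * (s : ℝ))) :=
    Real.summable_one_div_nat_rpow.2 (by linarith)
  have hne : ∑' j, f j ≠ ∞ := by
    rw [tsum_congr hf2, ← ENNReal.ofReal_tsum_of_nonneg (fun j => by positivity) hsumm]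
    exact ENNReal.ofReal_ne_top
  have ht := ENNReal.tendsto_sum_nat_add f hne
  obtain ⟨N, hN1, hN2⟩ := ((ht.eventually_lt_const (by norm_num : (0 : ℝ≥0∞) < 1)).and
    (eventually_ge_atTop 2)).exists
  refine ⟨N - 1, by omega, ?_⟩
  have e1 : N - 1 + 1 = N := by omega
  rw [e1]
  simp_rw [← hf]
  have hinj : Function.Injective (fun k : ℕ => k + N) := fun a b h => by simpa using h
  have hsupp : Function.support (fun j => if N ≤ j then f j else 0) ⊆
      Set.range (fun k : ℕ => k + N) := by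
    intro j hj
    rw [Function.mem_support] at hj
    have : N ≤ j := by
      by_contra hc
      exact hj (if_neg hc)
    exact ⟨j - N, by simp only; omega⟩
  have h2 := hinj.tsum_eq (f := fun j => if N ≤ j then f j else 0) hsupp
  rw [← h2]
  simp only [Nat.le_add_left, if_true]
  exact hN1.le

theorem dim_AS_le {x : ℝ} (hx1 : x < 1) : dimH (AS x) ≤ ENNReal.ofReal (1 / 2) := by
  apply le_of_forall_gt
  intro c hc
  obtain ⟨s, hs1, hs2⟩ := ENNReal.lt_iff_exists_nnreal_btwn.1 hc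
  have hs3 : (1 / 2 : ℝ) < (s : ℝ) := by
    rw [ENNReal.ofReal_lt_iff_lt_toReal (by norm_num) ENNReal.coe_ne_top] at hs1
    simpa using hs1
  refine lt_of_le_of_lt ?_ hs2
  have hs0 : 0 < s := by
    have : (0 : ℝ) < s := by linarith
    exact this
  obtain ⟨N, hN1, hN⟩ := exists_tail hs3
  obtain ⟨a, ha⟩ : ∃ a : ℕ → ℕ → ℝ≥0∞, ∀ n j, a n j =
      if 1 / ((N : ℝ) + 1) < gs^[n] x then (if j = dg (gs^[n] x) then 1 else 0) else
        (if N + 1 ≤ j then (ENNReal.ofReal (((j : ℝ) ^ 2)⁻¹)) ^ (s : ℝ) else 0) :=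
    ⟨_, fun _ _ => rfl⟩
  obtain ⟨E, hE⟩ : ∃ E : ℕ → Set ℝ, ∀ n0, E n0 = {z | Good z ∧ ∀ i,
      (1 / ((N : ℝ) + 1) < gs^[n0 + i] x → dg (gs^[i] z) = dg (gs^[n0 + i] x)) ∧
      (¬ 1 / ((N : ℝ) + 1) < gs^[n0 + i] x → N + 1 ≤ dg (gs^[i] z))} := ⟨_, fun _ => rfl⟩
  obtain ⟨R, hR⟩ : ∃ R : Set ℝ, R = Set.range ((↑) : ℚ → ℝ) := ⟨_, rfl⟩
  have hR0 : dimH R = 0 := by rw [hR]; exact (Set.countable_range _).dimH_zero
  have hsub : AS x ⊆ R ∪ ⋃ n0 : ℕ,
      {y : ℝ | (∀ i, 0 < gs^[i] y) ∧ y < 1 ∧ gs^[n0] y ∈ E n0} := by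
    intro y hy
    by_cases hyR : y ∈ R
    · exact Or.inl hyR
    right
    have hgood : Good y := by
      apply good_of_irrational _ hy.1 hy.2.1
      rw [hR] at hyR
      exact hyR
    obtain ⟨n0, hn0⟩ := no_cross_all hy N
    refine Set.mem_iUnion.2 ⟨n0, hgood.2.2, hgood.2.1, ?_⟩
    rw [hE]
    refine ⟨good_iter hgood _, fun i => ?_⟩
    have h1 := hn0 (n0 + i) (by omega)
    rw [← Function.iterate_add_apply, add_comm i n0]
    have g1 := good_iter hgood (n0 + i)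
    constructor
    · intro h2
      exact digit_small (iter_lt_one hx1 _) g1.1 g1.2.1 h1 h2
    · intro h2
      exact digit_big hN1 g1.1 g1.2.1 h1 h2
  refine (dimH_mono hsub).trans ?_
  rw [dimH_union, hR0, dimH_iUnion]
  apply max_le (by positivity)
  apply iSup_le
  intro n0
  refine (dim_pre_iter _ _).trans ?_
  apply dimH_of_digits hs0 (fun i j => a (n0 + i) j)
  · intro z hz
    rw [hE] at hz
    exact hz.1
  · intro z hz i
    rw [hE] at hz
    obtain ⟨hg, hd⟩ := hz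
    obtain ⟨h1, h2⟩ := hd i
    have g1 := good_iter hg i
    simp only [ha]
    by_cases hb : 1 / ((N : ℝ) + 1) < gs^[n0 + i] x
    · rw [if_pos hb, if_pos (h1 hb)]
      apply ENNReal.rpow_le_one _ (by positivity)
      rw [← ENNReal.ofReal_one]
      apply ENNReal.ofReal_le_ofReal
      apply inv_le_one_of_one_le₀
      have : (1 : ℝ) ≤ dg (gs^[i] z) := by exact_mod_cast dg_pos g1.1 g1.2.1
      nlinarith
    · rw [if_neg hb, if_pos (h2 hb)]
  · intro i
    simp only [ha]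
    by_cases hb : 1 / ((N : ℝ) + 1) < gs^[n0 + i] x
    · simp only [if_pos hb]
      rw [tsum_ite_eq]
    · simp only [if_neg hb]
      exact hN

end Pool.Agent.V11112.GA
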