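import Pool.Agent.V11112.GB1

open Filter Topology
open scoped ENNReal NNReal

namespace Pool.Agent.V11112.GB

open Pool.Agent.V11112.GA

/-- admissible dyadic scales -/
structure Cod (C : ℕ → ℕ) : Prop where
  mono : Monotone C
  zero : C 0 = 0
  ge : ∀ n, n ≤ C (n + 1)

/-- offset digits of a real number -/
noncomputable def oc (C : ℕ → ℕ) (r : ℝ) (k : ℕ) : ℕ :=
  ⌊r * 2 ^ (C (k + 1))⌋₊ - 2 ^ (C (k + 1) - C k) * ⌊r * 2 ^ (C k)⌋₊

lemma oc_add {C : ℕ → ℕ} (hC : Monotone C) {r : ℝ} (hr : 0 ≤ r) (k : ℕ) :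
    ⌊r * 2 ^ (C (k + 1))⌋₊ = oc C r k + 2 ^ (C (k + 1) - C k) * ⌊r * 2 ^ (C k)⌋₊ := by
  have hmono := hC (Nat.le_succ k)
  obtain ⟨c, hc⟩ := Nat.exists_eq_add_of_le hmono
  have hc' : C (k + 1) = C k + c := hc
  unfold oc
  rw [hc', Nat.add_sub_cancel_left]
  have h1 : 2 ^ c * ⌊r * 2 ^ (C k)⌋₊ ≤ ⌊r * 2 ^ (C k + c)⌋₊ := by
    apply Nat.le_floor
    push_cast
    have h2 : (⌊r * 2 ^ (C k)⌋₊ : ℝ) ≤ r * 2 ^ (C k) := Nat.floor_le (by positivity)
    rw [pow_add]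
    have h3 : (0 : ℝ) < 2 ^ c := by positivity
    nlinarith
  omega

lemma oc_lt {C : ℕ → ℕ} (hC : Monotone C) {r : ℝ} (hr : 0 ≤ r) (k : ℕ) :
    oc C r k < 2 ^ (C (k + 1) - C k) := by
  have hmono := hC (Nat.le_succ k)
  obtain ⟨c, hc⟩ := Nat.exists_eq_add_of_le hmono
  have hc' : C (k + 1) = C k + c := hc
  have h0 := oc_add hC hr k
  rw [hc', Nat.add_sub_cancel_left] at h0 ⊢
  have h1 : ⌊r * 2 ^ (C k + c)⌋₊ < 2 ^ c * (⌊r * 2 ^ (C k)⌋₊ + 1) := by
    rw [Nat.floor_lt (by positivity)]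
    push_cast
    have h2 : r * 2 ^ (C k) < (⌊r * 2 ^ (C k)⌋₊ : ℝ) + 1 := Nat.lt_floor_add_one _
    rw [pow_add]
    have h3 : (0 : ℝ) < 2 ^ c := by positivity
    nlinarith
  rw [mul_add, mul_one] at h1
  omega

lemma first_diff {C : ℕ → ℕ} (hC : Cod C) {r r' : ℝ} (hr : 0 ≤ r) (hlt : r < r') (hr' : r' < 1) :
    ∃ k, ⌊r * 2 ^ (C k)⌋₊ = ⌊r' * 2 ^ (C k)⌋₊ ∧
      ⌊r * 2 ^ (C (k + 1))⌋₊ < ⌊r' * 2 ^ (C (k + 1))⌋₊ ∧
      ∀ i < k, oc C r i = oc C r' i := by
  have hr0' : 0 ≤ r' := by linarith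
  have hmono : ∀ K, ⌊r * 2 ^ (C K)⌋₊ ≤ ⌊r' * 2 ^ (C K)⌋₊ := by
    intro K
    apply Nat.floor_mono
    gcongr
  have hex : ∃ K, ⌊r * 2 ^ (C K)⌋₊ ≠ ⌊r' * 2 ^ (C K)⌋₊ := by
    obtain ⟨K, hK⟩ := exists_nat_gt (1 / (r' - r))
    have hd : 0 < r' - r := by linarith
    refine ⟨K + 1, fun h => ?_⟩
    have h1 : K ≤ C (K + 1) := hC.ge K
    have h2 : (K : ℝ) < 2 ^ (C (K + 1)) := by
      have : K < 2 ^ (C (K + 1)) := lt_of_le_of_lt h1 Nat.lt_two_pow_self
      exact_mod_cast this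
    have h3 : 1 < (r' - r) * 2 ^ (C (K + 1)) := by
      rw [div_lt_iff₀ hd] at hK
      nlinarith
    have h4 : ((⌊r * 2 ^ (C (K + 1))⌋₊ : ℕ) : ℝ) ≤ r * 2 ^ (C (K + 1)) :=
      Nat.floor_le (by positivity)
    have h5 : r' * 2 ^ (C (K + 1)) < (⌊r' * 2 ^ (C (K + 1))⌋₊ : ℝ) + 1 :=
      Nat.lt_floor_add_one _
    rw [← h] at h5
    linarith
  obtain ⟨K, hK⟩ : ∃ K, K = Nat.find hex := ⟨_, rfl⟩
  have h1 := Nat.find_spec hex
  rw [← hK] at h1
  have h2 : ∀ i < K, ⌊r * 2 ^ (C i)⌋₊ = ⌊r' * 2 ^ (C i)⌋₊ := by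
    intro i hi
    by_contra hc
    rw [hK] at hi
    exact Nat.find_min hex hi hc
  cases K with
  | zero =>
    exfalso
    apply h1
    rw [hC.zero, pow_zero, mul_one, mul_one, Nat.floor_eq_zero.2 (by linarith),
      Nat.floor_eq_zero.2 hr']
  | succ k =>
    refine ⟨k, h2 k (by omega), lt_of_le_of_ne (hmono _) h1, ?_⟩
    intro i hi
    unfold oc
    rw [h2 i (by omega), h2 (i + 1) (by omega)]

lemma dim_of_holder {f : ℝ → ℝ} {β C : ℝ} (hβ0 : 0 < β) (hC0 : 0 < C)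
    (hC : ∀ r r', 0 ≤ r → r < r' → r' < 1 → r' - r ≤ C * |f r - f r'| ^ β) :
    ENNReal.ofReal β ≤ dimH (f '' (Set.Ico (0 : ℝ) 1)) := by
  have hC' : ∀ r r', r ∈ Set.Ico (0 : ℝ) 1 → r' ∈ Set.Ico (0 : ℝ) 1 →
      |r - r'| ≤ C * |f r - f r'| ^ β := by
    intro r r' hr hr'
    rcases lt_trichotomy r r' with h | h | h
    · rw [abs_sub_comm, abs_of_pos (by linarith)]
      exact hC r r' hr.1 h hr'.2
    · subst h
      simp only [sub_self, abs_zero]
      positivity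
    · rw [abs_of_pos (by linarith), abs_sub_comm (f r)]
      exact hC r' r hr'.1 h hr.2
  have hinj : Set.InjOn f (Set.Ico (0 : ℝ) 1) := by
    intro r hr r' hr' h
    have h1 := hC' r r' hr hr'
    rw [h, sub_self, abs_zero, Real.zero_rpow hβ0.ne', mul_zero] at h1
    have := abs_nonneg (r - r')
    have h2 : |r - r'| = 0 := le_antisymm h1 this
    rw [abs_eq_zero] at h2
    linarith
  have hf : ∀ r ∈ Set.Ico (0 : ℝ) 1, Function.invFunOn f (Set.Ico (0 : ℝ) 1) (f r) = r :=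
    fun r hr => hinj.leftInvOn_invFunOn hr
  have hhol : HolderOnWith C.toNNReal β.toNNReal
      (Function.invFunOn f (Set.Ico (0 : ℝ) 1)) (f '' (Set.Ico (0 : ℝ) 1)) := by
    rintro _ ⟨r, hr, rfl⟩ _ ⟨r', hr', rfl⟩
    rw [hf r hr, hf r' hr', edist_dist, edist_dist, Real.dist_eq, Real.dist_eq,
      Real.coe_toNNReal β hβ0.le, ENNReal.ofReal_rpow_of_nonneg (abs_nonneg _) hβ0.le]
    change _ ≤ ENNReal.ofReal C * _
    rw [← ENNReal.ofReal_mul hC0.le]
    exact ENNReal.ofReal_le_ofReal (hC' r r' hr hr')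
  have hβn : 0 < β.toNNReal := Real.toNNReal_pos.2 hβ0
  have h1 := hhol.dimH_image_le hβn
  have h2 : Function.invFunOn f (Set.Ico (0 : ℝ) 1) '' (f '' (Set.Ico (0 : ℝ) 1)) =
      Set.Ico (0 : ℝ) 1 := by
    rw [Set.image_image]
    ext r
    constructor
    · rintro ⟨r', hr', rfl⟩
      change Function.invFunOn f (Set.Ico (0 : ℝ) 1) (f r') ∈ _
      rw [hf r' hr']
      exact hr'
    · intro hr
      exact ⟨r, hr, hf r hr⟩
  have h3 : dimH (Set.Ico (0 : ℝ) 1) = 1 := by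
    rw [Real.dimH_of_nonempty_interior]
    · simp
    · rw [interior_Ico]
      exact ⟨1 / 2, by norm_num, by norm_num⟩
  rw [h2, h3] at h1
  have h5 : ((β.toNNReal : ℝ≥0∞)) ≠ 0 := by
    rw [ENNReal.coe_ne_zero]
    exact hβn.ne'
  rw [ENNReal.le_div_iff_mul_le (Or.inl h5) (Or.inl ENNReal.coe_ne_top), one_mul] at h1
  exact h1

/-! ### asymptotic sets of points with sparse large digits -/

/-- special digits -/
noncomputable def Mc (C : ℕ → ℕ) (r : ℝ) (k : ℕ) : ℕ := 2 ^ (C (k + 1) - C k) + oc C r k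

/-- all digits -/
noncomputable def bc (u C a : ℕ → ℕ) (r : ℝ) : ℕ → ℕ :=
  Function.extend (fun k => u k + k) (Mc C r) a

lemma bc_special {u : ℕ → ℕ} (hu : StrictMono u) (C a : ℕ → ℕ) (r : ℝ) (k : ℕ) :
    bc u C a r (u k + k) = Mc C r k :=
  (sp_mono hu).injective.extend_apply _ _ k

lemma bc_nonspecial (u C a : ℕ → ℕ) (r : ℝ) {n : ℕ} (h : ∀ k, n ≠ u k + k) :
    bc u C a r n = a n := by
  unfold bc
  apply Function.extend_apply'
  rintro ⟨k, hk⟩
  exact h k hk.symm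

lemma Mc_pos (C : ℕ → ℕ) (r : ℝ) (k : ℕ) : 1 ≤ Mc C r k := by
  unfold Mc
  have : 1 ≤ 2 ^ (C (k + 1) - C k) := Nat.one_le_two_pow
  omega

lemma bc_pos {u : ℕ → ℕ} (hu : StrictMono u) (C : ℕ → ℕ) {a : ℕ → ℕ} (ha : ∀ n, 1 ≤ a n) (r : ℝ)
    (n : ℕ) : 1 ≤ bc u C a r n := by
  by_cases h : ∃ k, n = u k + k
  · obtain ⟨k, rfl⟩ := h
    rw [bc_special hu]
    exact Mc_pos C r k
  · push Not at h
    rw [bc_nonspecial u C a r h]
    exact ha n

lemma Mc_lt {C : ℕ → ℕ} (hC : Monotone C) {r : ℝ} (hr : 0 ≤ r) (k : ℕ) :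
    Mc C r k + 1 ≤ 2 * 2 ^ (C (k + 1) - C k) := by
  have := oc_lt hC hr k
  unfold Mc
  omega

/-- asymptotic points -/
lemma as_of_digits {u : ℕ → ℕ} (hu : StrictMono u) {x y : ℝ} (hx : Good x) (hy : Good y)
    (hxy : ∀ n, (∀ k, n ≠ u k + k) → dg (gs^[n] x) = dg (gs^[n] y))
    (hMx : Tendsto (fun k => (dg (gs^[u k + k] x) : ℝ)) atTop atTop)
    (hMy : Tendsto (fun k => (dg (gs^[u k + k] y) : ℝ)) atTop atTop) : y ∈ AS x := by
  refine ⟨hy.1.le, hy.2.1, ?_⟩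
  rw [Metric.tendsto_atTop]
  intro ε hε
  obtain ⟨K, hK⟩ := ((hMx.eventually_gt_atTop (1 / ε)).and
    (hMy.eventually_gt_atTop (1 / ε))).exists_forall_of_atTop
  refine ⟨u K + K, fun n hn => ?_⟩
  rw [Real.dist_eq, sub_zero, abs_abs]
  have hex : ∃ k, n ≤ u k + k := ⟨n, by omega⟩
  obtain ⟨k, hk⟩ : ∃ k, k = Nat.find hex := ⟨_, rfl⟩
  have hk1 : n ≤ u k + k := by rw [hk]; exact Nat.find_spec hex
  have hk2 : ∀ j < k, ¬ n ≤ u j + j := by
    intro j hj
    rw [hk] at hj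
    exact Nat.find_min hex hj
  have hKk : K ≤ k := by
    by_contra hc
    push Not at hc
    have : u k + k < u K + K := sp_mono hu hc
    omega
  have hns : ∀ i, i < u k + k - n → ∀ l, n + i ≠ u l + l := by
    intro i hi l hl
    rcases lt_or_ge l k with h | h
    · exact hk2 l h (by omega)
    · have : u k + k ≤ u l + l := (sp_mono hu).monotone h
      omega
  have gx := good_iter hx n
  have gy := good_iter hy n
  have h1 := iter_sub gx gy (u k + k - n) (fun i hi => by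
    rw [← Function.iterate_add_apply, ← Function.iterate_add_apply, add_comm i n]
    exact hxy _ (hns i hi))
  rw [← Function.iterate_add_apply, ← Function.iterate_add_apply, Nat.sub_add_cancel hk1] at h1
  rw [h1]
  have hPx := PP_pos gx (u k + k - n)
  have hPy := PP_pos gy (u k + k - n)
  have hPx1 : PP (gs^[n] x) (u k + k - n) ≤ 1 :=
    (PP_le_half gx _).trans (pow_le_one₀ (by norm_num) (by norm_num))
  have hPy1 : PP (gs^[n] y) (u k + k - n) ≤ 1 :=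
    (PP_le_half gy _).trans (pow_le_one₀ (by norm_num) (by norm_num))
  have hq : PP (gs^[n] x) (u k + k - n) * PP (gs^[n] y) (u k + k - n) ≤ 1 := by nlinarith
  have hq0 := (mul_pos hPx hPy).le
  have hz : ∀ w, Good w → 1 / ε < (dg (gs^[u k + k] w) : ℝ) → gs^[u k + k] w < ε := by
    intro w hw hM
    have gw := good_iter hw (u k + k)
    have h3 := le_inv_dg gw.1 gw.2.1
    refine lt_of_le_of_lt h3 ?_
    have h4 : (0 : ℝ) < dg (gs^[u k + k] w) := lt_trans (by positivity) hM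
    rw [div_lt_iff₀ hε] at hM
    rw [div_lt_iff₀ h4]
    linarith
  have hzx := hz x hx (hK k hKk).1
  have hzy := hz y hy (hK k hKk).2
  have c1 := (good_iter hx (u k + k)).1
  have c3 := (good_iter hy (u k + k)).1
  have hd : |gs^[u k + k] x - gs^[u k + k] y| < ε := by
    rw [abs_lt]
    constructor <;> linarith
  have hd0 := abs_nonneg (gs^[u k + k] x - gs^[u k + k] y)
  nlinarith

lemma Mc_tendsto {C : ℕ → ℕ} (hCT : Tendsto (fun k => ((C (k + 1) - C k : ℕ) : ℝ)) atTop atTop)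
    (r : ℝ) : Tendsto (fun k => (Mc C r k : ℝ)) atTop atTop := by
  refine tendsto_atTop_mono (fun k => ?_) hCT
  have h7 : C (k + 1) - C k ≤ Mc C r k := by
    unfold Mc
    have : C (k + 1) - C k < 2 ^ (C (k + 1) - C k) := Nat.lt_two_pow_self
    omega
  exact_mod_cast h7

lemma run_lower {u : ℕ → ℕ} (hu : StrictMono u) {x c : ℝ} (hx : Good x) (hc : 0 < c)
    (hxc : ∀ n, (∀ k, n ≠ u k + k) → c ≤ gs^[n] x) (k : ℕ) :
    c ^ (u k) * ∏ i ∈ Finset.range k, ((dg (gs^[u i + i] x) : ℝ) + 1)⁻¹ ≤ PP x (u k + k) := by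
  have run : ∀ a l : ℕ, (∀ n, a ≤ n → n < a + l → ∀ k, n ≠ u k + k) →
      c ^ l ≤ PP (gs^[a] x) l := by
    intro a l
    induction l with
    | zero => intro _; simp [PP]
    | succ l ih =>
      intro h
      have h1 := ih (fun n h1 h2 => h n h1 (by omega))
      have h2 := hxc (a + l) (h (a + l) (by omega) (by omega))
      rw [PP_succ, pow_succ, ← Function.iterate_add_apply, add_comm l a]
      exact mul_le_mul h1 h2 hc.le (PP_pos (good_iter hx a) l).le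
  induction k with
  | zero =>
    have := run 0 (u 0) (fun n _ h2 => nonspecial_start hu n (by omega))
    simpa using this
  | succ k ih =>
    have h0 : u k < u (k + 1) := hu (Nat.lt_succ_self k)
    have h2 : u (k + 1) + (k + 1) = (u k + k) + 1 + (u (k + 1) - u k) := by omega
    have h3 : u (k + 1) = u k + (u (k + 1) - u k) := by omega
    have h4 := run (u k + k + 1) (u (k + 1) - u k) (nonspecial_gap hu k)
    obtain ⟨l, hl⟩ : ∃ l, l = u (k + 1) - u k := ⟨_, rfl⟩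
    rw [← hl] at h4 h2
    rw [h2]
    conv_lhs => rw [h3]
    rw [← hl, PP_add, PP_succ, Finset.prod_range_succ, pow_add]
    have gx := good_iter hx (u k + k)
    have a1 : ((dg (gs^[u k + k] x) : ℝ) + 1)⁻¹ ≤ gs^[u k + k] x := by
      rw [← one_div]
      exact (inv_dg_lt gx.1 gx.2.1).le
    calc c ^ (u k) * c ^ l * ((∏ i ∈ Finset.range k, ((dg (gs^[u i + i] x) : ℝ) + 1)⁻¹) *
          ((dg (gs^[u k + k] x) : ℝ) + 1)⁻¹)
        = (c ^ (u k) * ∏ i ∈ Finset.range k, ((dg (gs^[u i + i] x) : ℝ) + 1)⁻¹) *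
          ((dg (gs^[u k + k] x) : ℝ) + 1)⁻¹ * c ^ l := by ring
      _ ≤ PP x (u k + k) * gs^[u k + k] x * PP (gs^[u k + k + 1] x) l := by
          apply mul_le_mul _ h4 (by positivity)
          · exact mul_nonneg (PP_pos hx _).le gx.1.le
          · exact mul_le_mul ih a1 (by positivity) (PP_pos hx _).le

lemma digits_agree {u : ℕ → ℕ} (hu : StrictMono u) {x y : ℝ}
    (hxy : ∀ n, (∀ k, n ≠ u k + k) → dg (gs^[n] x) = dg (gs^[n] y))
    {k : ℕ} (h : ∀ i < k, dg (gs^[u i + i] x) = dg (gs^[u i + i] y)) (n : ℕ) (hn : n < u k + k) :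
    dg (gs^[n] x) = dg (gs^[n] y) := by
  by_cases hs : ∃ i, n = u i + i
  · obtain ⟨i, rfl⟩ := hs
    have hik : i < k := by
      by_contra hc
      push Not at hc
      have : u k ≤ u i := hu.monotone hc
      omega
    exact h i hik
  · push Not at hs
    exact hxy n hs

/-- separation of two points with different first digits and the same second digit -/
lemma sep2 {z z' : ℝ} (hz : Good z) (hz' : Good z')
    (hw : dg (gs z) = dg (gs z')) {D A : ℝ} (hD : 1 ≤ D)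
    (hM' : (dg z' : ℝ) = dg z + D)
    (hA1 : (dg z : ℝ) + 1 ≤ 2 * A) (hA2 : (dg z' : ℝ) + 1 ≤ 2 * A) :
    D / (8 * A ^ 2) ≤ z - z' := by
  have hM : (1 : ℝ) ≤ dg z := by exact_mod_cast dg_pos hz.1 hz.2.1
  have h1 := eq_inv hz.1
  have h2 := eq_inv hz'.1
  have gz := good_gs hz
  have gz' := good_gs hz'
  have k1 := le_inv_dg gz.1 gz.2.1
  have k2 := inv_dg_lt gz.1 gz.2.1
  have k3 := le_inv_dg gz'.1 gz'.2.1
  have k4 := inv_dg_lt gz'.1 gz'.2.1
  rw [← hw] at k3 k4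
  rw [hM'] at h2 hA2
  have hd1 : (1 : ℝ) ≤ dg (gs z) := by exact_mod_cast dg_pos gz.1 gz.2.1
  obtain ⟨b, hb⟩ : ∃ b : ℝ, b = dg (gs z) := ⟨_, rfl⟩
  rw [← hb] at k1 k2 k3 k4 hd1
  obtain ⟨M, hMd⟩ : ∃ M : ℝ, M = dg z := ⟨_, rfl⟩
  rw [← hMd] at h1 h2 hA1 hA2 hM
  have g1 := gs_lt_one z
  have g2 := gs_lt_one z'
  have g0 := gz.1
  have g0' := gz'.1
  obtain ⟨w, hw1⟩ : ∃ w, w = gs z := ⟨_, rfl⟩
  obtain ⟨w', hw1'⟩ : ∃ w', w' = gs z' := ⟨_, rfl⟩
  rw [← hw1] at h1 k1 k2 g1 g0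
  rw [← hw1'] at h2 k3 k4 g2 g0'
  have hA0 : 0 < A := by linarith
  have hbb : 1 / b - 1 / (b + 1) ≤ 1 / 2 := by
    have e : 1 / b - 1 / (b + 1) = 1 / (b * (b + 1)) := by field_simp; ring
    rw [e]
    apply one_div_le_one_div_of_le (by norm_num)
    nlinarith
  have e : z - z' = (D + w' - w) / ((M + w) * (M + D + w')) := by
    rw [h1, h2]
    have : 0 < M + w := by linarith
    have : 0 < M + D + w' := by linarith
    field_simp
    ring
  rw [e, div_le_div_iff₀ (by positivity)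
    (mul_pos (by linarith) (by linarith))]
  have h3 : D / 2 ≤ D + w' - w := by linarith
  have h4 : (M + w) * (M + D + w') ≤ (2 * A) * (2 * A) := by
    apply mul_le_mul <;> linarith
  have h5 : 0 ≤ (M + w) * (M + D + w') := (mul_pos (by linarith) (by linarith)).le
  calc D * ((M + w) * (M + D + w')) ≤ D * ((2 * A) * (2 * A)) := by gcongr
    _ = (D / 2) * (8 * A ^ 2) := by ring
    _ ≤ _ := by gcongr

theorem AS_lower {u C : ℕ → ℕ} (hu : StrictMono u) (hC : Cod C)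
    (hCT : Tendsto (fun k => ((C (k + 1) - C k : ℕ) : ℝ)) atTop atTop)
    {x : ℝ} (hx : Good x) {L : ℕ}
    (hL : ∀ n, (∀ k, n ≠ u k + k) → dg (gs^[n] x) + 1 ≤ 2 ^ L)
    (hxM : Tendsto (fun k => (dg (gs^[u k + k] x) : ℝ)) atTop atTop)
    {β B : ℝ} (hβ0 : 0 < β) (hβ1 : β < 1)
    (hB : ∀ k, 1 - (C k : ℝ) + β * ((C k : ℝ) + (C (k + 1) : ℝ) +
      (2 * (L * u k : ℝ) + 2 * k + 3)) ≤ B) :
    ENNReal.ofReal β ≤ dimH (AS x) := by
  obtain ⟨a, ha⟩ : ∃ a : ℕ → ℕ, ∀ n, a n = dg (gs^[n] x) := ⟨_, fun _ => rfl⟩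
  have ha1 : ∀ n, 1 ≤ a n := by
    intro n
    have := good_iter hx n
    rw [ha]
    exact dg_pos this.1 this.2.1
  obtain ⟨f, hf⟩ : ∃ f : ℝ → ℝ, ∀ r, f r = Y (bc u C a r) := ⟨_, fun _ => rfl⟩
  have hfg : ∀ r, Good (f r) := fun r => by rw [hf]; exact good_Y (bc_pos hu C ha1 r)
  have hfs : ∀ r k, dg (gs^[u k + k] (f r)) = Mc C r k := by
    intro r k
    rw [hf, dg_iter_Y (bc_pos hu C ha1 r), bc_special hu]
  have hfn : ∀ r n, (∀ k, n ≠ u k + k) → dg (gs^[n] (f r)) = a n := by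
    intro r n hn
    rw [hf, dg_iter_Y (bc_pos hu C ha1 r), bc_nonspecial u C a r hn]
  have hsub : f '' (Set.Ico (0 : ℝ) 1) ⊆ AS x := by
    rintro _ ⟨r, _, rfl⟩
    apply as_of_digits hu hx (hfg r) (fun n hn => by rw [hfn r n hn, ha]) hxM
    simp_rw [hfs]
    exact Mc_tendsto hCT r
  refine le_trans ?_ (dimH_mono hsub)
  apply dim_of_holder (C := 2 ^ B) hβ0 (by positivity)
  intro r r' hr hlt hr'
  have hr0' : 0 ≤ r' := by linarith
  obtain ⟨k, h1, h2, h3⟩ := first_diff hC hr hlt hr'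
  have e1 := oc_add hC.mono hr k
  have e2 := oc_add hC.mono hr0' k
  rw [h1] at e1
  obtain ⟨c, hc⟩ := Nat.exists_eq_add_of_le (hC.mono (Nat.le_succ k))
  have hc' : C (k + 1) = C k + c := hc
  obtain ⟨D, hD⟩ : ∃ D, oc C r' k = oc C r k + D := Nat.exists_eq_add_of_le (by omega)
  have hD1 : 1 ≤ D := by omega
  have hDc : D ≤ 2 ^ c := by
    have := oc_lt hC.mono hr0' k
    rw [hc', Nat.add_sub_cancel_left] at this
    omega
  have hfl : ⌊r' * 2 ^ (C (k + 1))⌋₊ = ⌊r * 2 ^ (C (k + 1))⌋₊ + D := by omega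
  have hDR : (1 : ℝ) ≤ D := by exact_mod_cast hD1
  have hDR0 : (0 : ℝ) < D := by linarith
  -- upper bound for r' - r
  have hup : r' - r ≤ 2 * D * 2 ^ (-(C (k + 1) : ℝ)) := by
    have a1 : ((⌊r * 2 ^ (C (k + 1))⌋₊ : ℕ) : ℝ) ≤ r * 2 ^ (C (k + 1)) :=
      Nat.floor_le (by positivity)
    have a2 : r' * 2 ^ (C (k + 1)) < (⌊r' * 2 ^ (C (k + 1))⌋₊ : ℝ) + 1 :=
      Nat.lt_floor_add_one _
    rw [hfl] at a2
    push_cast at a2
    have a3 : (r' - r) * 2 ^ (C (k + 1)) ≤ 2 * D := by nlinarith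
    rw [Real.rpow_neg (by norm_num), Real.rpow_natCast, ← div_eq_mul_inv,
      le_div_iff₀ (by positivity)]
    exact a3
  -- lower bound for the distance
  have hxg := hfg r
  have hyg := hfg r'
  have hdist := iter_sub hxg hyg (u k + k) (fun n hn =>
    digits_agree hu (x := f r) (y := f r') (k := k)
      (fun n hn => by rw [hfn r n hn, hfn r' n hn])
      (fun i hi => by
        rw [hfs, hfs]
        unfold Mc
        rw [h3 i hi]) n hn)
  have gz := good_iter hxg (u k + k)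
  have gz' := good_iter hyg (u k + k)
  have hbz : dg (gs^[u k + k] (f r)) = Mc C r k := hfs r k
  have hbz' : dg (gs^[u k + k] (f r')) = Mc C r' k := hfs r' k
  have hnext : ∀ l, u k + k + 1 ≠ u l + l := by
    intro l hl
    rcases le_or_gt l k with h | h
    · have : u l + l ≤ u k + k := (sp_mono hu).monotone h
      omega
    · have : u (k + 1) ≤ u l := hu.monotone h
      have h5 : u k < u (k + 1) := hu (Nat.lt_succ_self k)
      omega
  have hw : dg (gs (gs^[u k + k] (f r))) = dg (gs (gs^[u k + k] (f r'))) := by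
    rw [← Function.iterate_succ_apply' gs, ← Function.iterate_succ_apply' gs]
    exact (hfn r _ hnext).trans (hfn r' _ hnext).symm
  have m1 := Mc_lt hC.mono hr k
  have m2 := Mc_lt hC.mono hr0' k
  rw [hc', Nat.add_sub_cancel_left] at m1 m2
  have m1' : (Mc C r k : ℝ) + 1 ≤ 2 * 2 ^ c := by exact_mod_cast m1
  have m2' : (Mc C r' k : ℝ) + 1 ≤ 2 * 2 ^ c := by exact_mod_cast m2
  have m3 : (Mc C r' k : ℝ) = Mc C r k + D := by
    unfold Mc
    rw [hD]
    push_cast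
    ring
  have hsep := sep2 gz gz' hw (D := D) (A := 2 ^ c) hDR (by rw [hbz, hbz', m3])
    (by rw [hbz]; linarith) (by rw [hbz']; linarith)
  -- products of iterates
  have hprod2 : ∀ r, 0 ≤ r → ∀ k, (1 / 2 : ℝ) ^ (k + C k) ≤
      ∏ i ∈ Finset.range k, ((dg (gs^[u i + i] (f r)) : ℝ) + 1)⁻¹ := by
    intro r hr k
    induction k with
    | zero => simp [hC.zero]
    | succ k ih =>
      obtain ⟨c, hc⟩ := Nat.exists_eq_add_of_le (hC.mono (Nat.le_succ k))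
      have hc' : C (k + 1) = C k + c := hc
      rw [Finset.prod_range_succ, hc']
      have h1 := Mc_lt hC.mono hr k
      rw [hc', Nat.add_sub_cancel_left] at h1
      have h2 : (1 / 2 : ℝ) ^ (1 + c) ≤ ((dg (gs^[u k + k] (f r)) : ℝ) + 1)⁻¹ := by
        rw [hfs]
        have h4 : (Mc C r k : ℝ) + 1 ≤ 2 * 2 ^ c := by exact_mod_cast h1
        rw [one_div_pow, ← one_div]
        apply one_div_le_one_div_of_le (by positivity)
        rw [pow_add, pow_one]
        exact h4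
      calc (1 / 2 : ℝ) ^ (k + 1 + (C k + c)) = (1 / 2) ^ (k + C k) * (1 / 2) ^ (1 + c) := by
            rw [← pow_add]; congr 1; ring
        _ ≤ _ := by
          apply mul_le_mul ih h2 (by positivity)
          exact Finset.prod_nonneg (fun i _ => by positivity)
  have hPPl : ∀ r, 0 ≤ r → (1 / 2 : ℝ) ^ (L * u k) * (1 / 2) ^ (k + C k) ≤
      PP (f r) (u k + k) := by
    intro r hr
    have h5 := run_lower hu (c := (1 / 2) ^ L) (hfg r) (by positivity) (fun n hn => by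
      have g := good_iter (hfg r) n
      have h6 := inv_dg_lt g.1 g.2.1
      rw [hfn r n hn] at h6
      have h7 := hL n hn
      rw [← ha] at h7
      have h8 : (a n : ℝ) + 1 ≤ 2 ^ L := by exact_mod_cast h7
      refine le_trans ?_ h6.le
      rw [one_div_pow]
      exact one_div_le_one_div_of_le (by positivity) h8) k
    rw [← pow_mul] at h5
    refine le_trans ?_ h5
    exact mul_le_mul_of_nonneg_left (hprod2 r hr k) (by positivity)
  have hprod1 := hPPl r hr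
  have hprod2 := hPPl r' hr0'
  have hpx := PP_pos hxg (u k + k)
  have hlow : D * 2 ^ (-(2 * (L * u k : ℝ) + 2 * k + 2 * C (k + 1) + 3)) ≤
      |f r - f r'| := by
    rw [hdist]
    have a1 : (D : ℝ) / (8 * (2 ^ c) ^ 2) ≤
        |gs^[u k + k] (f r) - gs^[u k + k] (f r')| :=
      hsep.trans (le_abs_self _)
    have a2 : (D : ℝ) * 2 ^ (-(2 * (L * u k : ℝ) + 2 * k + 2 * C (k + 1) + 3)) =
        ((1 / 2) ^ (L * u k) * (1 / 2) ^ (k + C k)) *
          ((1 / 2) ^ (L * u k) * (1 / 2) ^ (k + C k)) * (D / (8 * (2 ^ c) ^ 2)) := by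
      rw [hc']
      push_cast
      have b1 : (2 : ℝ) ^ (-(2 * (L * u k : ℝ) + 2 * k + 2 * ((C k : ℝ) + c) + 3)) =
          ((2 : ℝ) ^ (2 * (L * u k) + 2 * k + 2 * (C k + c) + 3))⁻¹ := by
        rw [Real.rpow_neg (by norm_num), ← Real.rpow_natCast]
        push_cast
        rfl
      rw [b1, one_div_pow, one_div_pow, ← pow_mul]
      have b2 : (2 : ℝ) ^ (2 * (L * u k) + 2 * k + 2 * (C k + c) + 3) =
          (2 ^ (L * u k) * 2 ^ (k + C k)) * (2 ^ (L * u k) * 2 ^ (k + C k)) *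
            (8 * 2 ^ (c * 2)) := by
        rw [show (8 : ℝ) = 2 ^ 3 by norm_num, ← pow_add, ← pow_add, ← pow_add, ← pow_add]
        congr 1
        ring
      rw [b2]
      field_simp
    rw [a2]
    apply mul_le_mul _ a1 (by positivity) (mul_pos hpx (PP_pos hyg _)).le
    exact mul_le_mul hprod1 hprod2 (by positivity) hpx.le
  have hlow0 : 0 < D * (2 : ℝ) ^ (-(2 * (L * u k : ℝ) + 2 * k + 2 * C (k + 1) + 3)) := by
    positivity
  have hpow := Real.rpow_le_rpow hlow0.le hlow hβ0.le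
  have hexp := hB k
  -- assemble
  have hD2 : (D : ℝ) ^ (1 - β) ≤ 2 ^ ((c : ℝ) * (1 - β)) := by
    calc (D : ℝ) ^ (1 - β) ≤ ((2 : ℝ) ^ c) ^ (1 - β) := by
          apply Real.rpow_le_rpow hDR0.le _ (by linarith)
          exact_mod_cast hDc
      _ = 2 ^ ((c : ℝ) * (1 - β)) := by
        rw [← Real.rpow_natCast, ← Real.rpow_mul (by norm_num)]
  have hcR : (C (k + 1) : ℝ) = C k + c := by rw [hc']; push_cast; ring
  calc r' - r ≤ 2 * D * 2 ^ (-(C (k + 1) : ℝ)) := hup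
    _ = (D : ℝ) ^ β * (D : ℝ) ^ (1 - β) * (2 ^ (1 : ℝ) * 2 ^ (-(C (k + 1) : ℝ))) := by
        rw [← Real.rpow_add hDR0]
        simp
        ring
    _ ≤ (D : ℝ) ^ β * 2 ^ ((c : ℝ) * (1 - β)) * (2 ^ (1 : ℝ) * 2 ^ (-(C (k + 1) : ℝ))) := by
        gcongr
    _ = (D : ℝ) ^ β * 2 ^ ((c : ℝ) * (1 - β) + (1 + -(C (k + 1) : ℝ))) := by
        rw [Real.rpow_add (by norm_num), Real.rpow_add (by norm_num)]
        ring
    _ ≤ (D : ℝ) ^ β * 2 ^ (B + -(2 * (L * u k : ℝ) + 2 * k + 2 * C (k + 1) + 3) * β) := by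
        apply mul_le_mul_of_nonneg_left _ (by positivity)
        apply Real.rpow_le_rpow_of_exponent_le (by norm_num)
        rw [hcR] at hexp ⊢
        linarith
    _ = 2 ^ B * ((D : ℝ) * 2 ^ (-(2 * (L * u k : ℝ) + 2 * k + 2 * C (k + 1) + 3))) ^ β := by
        rw [Real.mul_rpow hDR0.le (by positivity), Real.rpow_add (by norm_num),
          ← Real.rpow_mul (by norm_num)]
        ring
    _ ≤ 2 ^ B * |f r - f r'| ^ β := by gcongr

end Pool.Agent.V11112.GB
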