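import Pool.Agent.V11112.GB2

open Filter Topology
open scoped ENNReal NNReal

namespace Pool.Agent.V11112.GB

open Pool.Agent.V11112.GA

lemma poly_bdd (d : ℕ) {δ A : ℝ} (hδ : 0 < δ) (hA : 0 ≤ A) :
    ∃ B : ℝ, ∀ k : ℕ, -(δ * (k : ℝ) ^ (d + 1)) + A * ((k : ℝ) + 1) ^ d ≤ B := by
  obtain ⟨A2, hA2⟩ : ∃ A2 : ℝ, A2 = A * 2 ^ d := ⟨_, rfl⟩
  have hA20 : 0 ≤ A2 := by rw [hA2]; positivity
  refine ⟨A + (A2 / δ) ^ d * A2, fun k => ?_⟩
  have hB0 : 0 ≤ (A2 / δ) ^ d * A2 := by positivity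
  rcases Nat.eq_zero_or_pos k with rfl | hk
  · simp
    linarith
  · have hk1 : (1 : ℝ) ≤ k := by exact_mod_cast hk
    have h1 : A * ((k : ℝ) + 1) ^ d ≤ A2 * (k : ℝ) ^ d := by
      rw [hA2, mul_assoc, ← mul_pow]
      gcongr
      linarith
    have h2 : -(δ * (k : ℝ) ^ (d + 1)) + A2 * (k : ℝ) ^ d = (k : ℝ) ^ d * (A2 - δ * k) := by
      rw [pow_succ]; ring
    have hkd : (0 : ℝ) ≤ (k : ℝ) ^ d := by positivity
    rcases le_or_gt A2 (δ * k) with h | h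
    · have : (k : ℝ) ^ d * (A2 - δ * k) ≤ 0 :=
        mul_nonpos_of_nonneg_of_nonpos hkd (by linarith)
      linarith
    · have h3 : (k : ℝ) ≤ A2 / δ := by
        rw [le_div_iff₀ hδ]
        linarith
      have h4 : (k : ℝ) ^ d * (A2 - δ * k) ≤ (A2 / δ) ^ d * A2 := by
        have h5 : (k : ℝ) ^ d ≤ (A2 / δ) ^ d := by gcongr
        have h6 : A2 - δ * k ≤ A2 := by
          have : 0 ≤ δ * k := by positivity
          linarith
        exact mul_le_mul h5 h6 (by linarith) (by positivity)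
      linarith

lemma cod5 : Cod (fun k => k ^ 5) := by
  refine ⟨fun a b h => Nat.pow_le_pow_left h 5, by simp, fun n => ?_⟩
  calc n ≤ n + 1 := Nat.le_succ n
    _ = (n + 1) ^ 1 := (pow_one _).symm
    _ ≤ (n + 1) ^ 5 := Nat.pow_le_pow_right (by omega) (by norm_num)

theorem AS_half {u : ℕ → ℕ} (hu : StrictMono u) {A : ℝ} (hA : 0 ≤ A)
    (huA : ∀ k : ℕ, (u k : ℝ) ≤ A * ((k : ℝ) + 1) ^ 3)
    {x : ℝ} (hx : Good x) {L : ℕ}
    (hL : ∀ n, (∀ k, n ≠ u k + k) → dg (gs^[n] x) + 1 ≤ 2 ^ L)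
    (hxM : Tendsto (fun k => (dg (gs^[u k + k] x) : ℝ)) atTop atTop) :
    dimH (AS x) = ENNReal.ofReal (1 / 2) := by
  apply le_antisymm (dim_AS_le hx.2.1)
  have hCT : Tendsto (fun k : ℕ => (((k + 1) ^ 5 - k ^ 5 : ℕ) : ℝ)) atTop atTop := by
    refine tendsto_atTop_mono (fun k => ?_) tendsto_natCast_atTop_atTop
    have : k ≤ (k + 1) ^ 5 - k ^ 5 := by
      apply Nat.le_sub_of_add_le
      nlinarith [pow_pos (Nat.succ_pos k) 5, Nat.zero_le k, Nat.zero_le (k ^ 2),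
        Nat.zero_le (k ^ 3), Nat.zero_le (k ^ 4)]
    exact_mod_cast this
  apply le_of_forall_lt
  intro c hc
  obtain ⟨b, hb1, hb2⟩ := ENNReal.lt_iff_exists_nnreal_btwn.1 hc
  have hb3 : (b : ℝ) < 1 / 2 := by
    rw [← ENNReal.ofReal_coe_nnreal, ENNReal.ofReal_lt_ofReal_iff (by norm_num)] at hb2
    exact hb2
  obtain ⟨β, hβ1, hβ2⟩ := exists_between hb3
  have hβ0 : 0 < β := lt_of_le_of_lt b.2 hβ1
  obtain ⟨B, hB⟩ := poly_bdd 4 (δ := 1 - 2 * β) (A := 9 + 2 * L * A) (by linarith)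
    (by positivity)
  have h2 := AS_lower (C := fun k => k ^ 5) hu cod5 hCT hx hL hxM hβ0 (by linarith) (B := B) (by
    intro k
    refine le_trans ?_ (hB k)
    have h3 := huA k
    have hk : (0 : ℝ) ≤ k := by positivity
    obtain ⟨t, ht⟩ : ∃ t : ℝ, t = k := ⟨_, rfl⟩
    push_cast
    rw [← ht] at h3 hk ⊢
    have p3 : (t + 1) ^ 3 ≤ (t + 1) ^ 4 := pow_le_pow_right₀ (by linarith) (by norm_num)
    have p1 : (t + 1) ≤ (t + 1) ^ 4 := by
      calc (t + 1) = (t + 1) ^ 1 := (pow_one _).symm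
        _ ≤ _ := pow_le_pow_right₀ (by linarith) (by norm_num)
    have p0 : 1 ≤ (t + 1) ^ 4 := one_le_pow₀ (by linarith)
    have h4 : (t + 1) ^ 5 ≤ t ^ 5 + 5 * (t + 1) ^ 4 := by
      have q2 : 0 ≤ t ^ 2 := by positivity
      have q3 : 0 ≤ t ^ 3 := by positivity
      nlinarith
    have h5 : 2 * ((L : ℝ) * (u k : ℝ)) ≤ 2 * L * A * (t + 1) ^ 4 := by
      have h6 : (u k : ℝ) ≤ A * (t + 1) ^ 4 := h3.trans (by gcongr)
      have h7 : (L : ℝ) * (u k : ℝ) ≤ L * (A * (t + 1) ^ 4) := by gcongr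
      linarith
    have h8 : 2 * ((L : ℝ) * (u k : ℝ)) + 2 * t + 3 ≤ (2 * L * A + 3) * (t + 1) ^ 4 := by
      nlinarith
    have h9 : β * (t ^ 5 + (t + 1) ^ 5 + (2 * ((L : ℝ) * (u k : ℝ)) + 2 * t + 3)) ≤
        β * (2 * t ^ 5 + (8 + 2 * L * A) * (t + 1) ^ 4) := by
      apply mul_le_mul_of_nonneg_left _ hβ0.le
      nlinarith
    have h10 : β * ((8 + 2 * L * A) * (t + 1) ^ 4) ≤ 1 * ((8 + 2 * L * A) * (t + 1) ^ 4) := by
      apply mul_le_mul_of_nonneg_right (by linarith)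
      positivity
    nlinarith)
  refine lt_of_lt_of_le (lt_trans hb1 ?_) h2
  rw [← ENNReal.ofReal_coe_nnreal, ENNReal.ofReal_lt_ofReal_iff hβ0]
  exact hβ1

/-- the value `1/2` -/
theorem half_attained : ∃ x : ℝ, 0 ≤ x ∧ x < 1 ∧ dimH (AS x) = ENNReal.ofReal (1 / 2) := by
  obtain ⟨b, hb⟩ : ∃ b : ℕ → ℕ, b = Function.extend (fun k : ℕ => k + k) (fun k => k + 1)
    (fun _ => 1) := ⟨_, rfl⟩
  have hu : StrictMono (fun k : ℕ => k) := strictMono_id
  have hbs : ∀ k, b (k + k) = k + 1 := by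
    intro k
    rw [hb]
    exact (sp_mono hu).injective.extend_apply _ _ k
  have hbn : ∀ n, (∀ k, n ≠ k + k) → b n = 1 := by
    intro n h
    rw [hb]
    apply Function.extend_apply'
    rintro ⟨k, hk⟩
    exact h k hk.symm
  have hb1 : ∀ n, 1 ≤ b n := by
    intro n
    by_cases h : ∃ k, n = k + k
    · obtain ⟨k, rfl⟩ := h
      rw [hbs]; omega
    · push Not at h
      rw [hbn n h]
  have hg := good_Y hb1
  refine ⟨Y b, hg.1.le, hg.2.1, ?_⟩
  apply AS_half (u := fun k => k) hu (A := 1) (by norm_num) _ hg (L := 1)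
  · intro n hn
    rw [dg_iter_Y hb1, hbn n hn]
    norm_num
  · simp_rw [dg_iter_Y hb1, hbs]
    push_cast
    exact tendsto_atTop_add_const_right _ _ tendsto_natCast_atTop_atTop
  · intro k
    have : (0 : ℝ) ≤ k := by positivity
    have h1 : ((k : ℝ) + 1) ^ 1 ≤ ((k : ℝ) + 1) ^ 3 :=
      pow_le_pow_right₀ (by linarith) (by norm_num)
    rw [pow_one] at h1
    linarith

/-- the value `0` -/
theorem zero_attained : ∃ x : ℝ, 0 ≤ x ∧ x < 1 ∧ dimH (AS x) = 0 := by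
  have hb1 : ∀ n : ℕ, 1 ≤ (fun _ : ℕ => 1) n := fun _ => le_rfl
  have hg := good_Y hb1
  obtain ⟨x, hx⟩ : ∃ x, x = Y (fun _ : ℕ => 1) := ⟨_, rfl⟩
  rw [← hx] at hg
  have hxd : ∀ n, dg (gs^[n] x) = 1 := by
    intro n
    rw [hx, dg_iter_Y hb1]
  refine ⟨x, hg.1.le, hg.2.1, ?_⟩
  obtain ⟨R, hR⟩ : ∃ R : Set ℝ, R = Set.range ((↑) : ℚ → ℝ) := ⟨_, rfl⟩
  have hR0 : dimH R = 0 := by rw [hR]; exact (Set.countable_range _).dimH_zero
  have hsub : AS x ⊆ R ∪ ⋃ n0 : ℕ,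
      {y : ℝ | (∀ i, 0 < gs^[i] y) ∧ y < 1 ∧ gs^[n0] y ∈ ({x} : Set ℝ)} := by
    intro y hy
    by_cases hyR : y ∈ R
    · exact Or.inl hyR
    right
    have hgood : Good y := by
      apply good_of_irrational _ hy.1 hy.2.1
      rw [hR] at hyR
      exact hyR
    obtain ⟨n0, hn0⟩ := as_digits hy
    refine Set.mem_iUnion.2 ⟨n0, hgood.2.2, hgood.2.1, ?_⟩
    have gy := good_iter hgood n0
    have hyd : ∀ i, dg (gs^[i] (gs^[n0] y)) = 1 := by
      intro i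
      rw [← Function.iterate_add_apply, dg_gt_iff (good_iter hgood _)]
      apply hn0 _ (by omega)
      exact ⟨(dg_gt_iff (good_iter hg _)).1 (hxd _), (good_iter hg _).2.1⟩
    have hle : ∀ n : ℕ, |gs^[n0] y - x| ≤ 2 * (1 / 2) ^ n := by
      intro n
      have h1 := iter_sub gy hg n (fun i _ => by rw [hyd, hxd])
      have g1 := good_iter gy n
      have g2 := good_iter hg n
      have h2 : |gs^[n] (gs^[n0] y) - gs^[n] x| ≤ 1 := by
        rw [abs_le]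
        constructor
        · linarith [g1.1, g2.2.1]
        · linarith [g1.2.1, g2.1]
      have h3 := mul_pos (PP_pos gy n) (PP_pos hg n)
      have h4 := PP_mul_le gy hg n
      rw [h1]
      nlinarith
    have hlim : Tendsto (fun n : ℕ => 2 * (1 / 2 : ℝ) ^ n) atTop (𝓝 0) := by
      have := (tendsto_pow_atTop_nhds_zero_of_lt_one (by norm_num : (0 : ℝ) ≤ 1 / 2)
        (by norm_num)).const_mul 2
      simpa using this
    have h5 := ge_of_tendsto' hlim hle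
    have h6 : |gs^[n0] y - x| = 0 := le_antisymm h5 (abs_nonneg _)
    rw [abs_eq_zero] at h6
    rw [Set.mem_singleton_iff]
    linarith
  apply le_antisymm _ bot_le
  refine (dimH_mono hsub).trans ?_
  rw [dimH_union, hR0, dimH_iUnion]
  apply max_le le_rfl
  apply iSup_le
  intro n0
  refine (dim_pre_iter _ _).trans ?_
  rw [dimH_singleton]

theorem image_eq : {d : ℝ≥0∞ | ∃ x : ℝ, (0 ≤ x ∧ x < 1) ∧ dimH (AS x) = d} =
    Set.Icc 0 (1 / 2) := by
  have hhalf : ENNReal.ofReal (1 / 2) = 1 / 2 := by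
    rw [ENNReal.ofReal_div_of_pos (by norm_num)]
    simp
  ext d
  constructor
  · rintro ⟨x, ⟨_, h1⟩, rfl⟩
    refine ⟨bot_le, ?_⟩
    rw [← hhalf]
    exact dim_AS_le h1
  · rintro ⟨_, hd⟩
    rcases eq_or_ne d 0 with rfl | h0
    · obtain ⟨x, h1, h2, h3⟩ := zero_attained
      exact ⟨x, ⟨h1, h2⟩, h3⟩
    rcases eq_or_lt_of_le hd with rfl | hlt
    · obtain ⟨x, h1, h2, h3⟩ := half_attained
      exact ⟨x, ⟨h1, h2⟩, h3.trans hhalf⟩
    · have hdt : d ≠ ∞ := ne_top_of_lt hlt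
      have hv0 : 0 < d.toReal := ENNReal.toReal_pos h0 hdt
      have hv1 : d.toReal < 1 / 2 := by
        have h1 := (ENNReal.toReal_lt_toReal hdt (by simp)).2 hlt
        simpa using h1
      obtain ⟨x, h1, h2, h3⟩ := main hv0 hv1
      refine ⟨x, ⟨h1, h2⟩, ?_⟩
      rw [h3, ENNReal.ofReal_toReal hdt]

end Pool.Agent.V11112.GB
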