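import Pool.Agent.V11112.GB3

open Filter Topology
open scoped ENNReal NNReal

namespace Pool.Agent.V11112.GB

open Pool.Agent.V11112.GA

/-- continuants -/
def kq : ℕ → (ℕ → ℕ) → ℕ × ℕ
  | 0, _ => (1, 0)
  | n + 1, d => (d n * (kq n d).1 + (kq n d).2, (kq n d).1)

lemma kq_succ (n : ℕ) (d : ℕ → ℕ) :
    kq (n + 1) d = (d n * (kq n d).1 + (kq n d).2, (kq n d).1) := rfl

lemma kq_congr (n : ℕ) {d d' : ℕ → ℕ} (h : ∀ i < n, d i = d' i) : kq n d = kq n d' := by
  induction n with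
  | zero => rfl
  | succ n ih =>
    rw [kq_succ, kq_succ, ih (fun i hi => h i (by omega)), h n (by omega)]

lemma kq_pos {d : ℕ → ℕ} (hd : ∀ i, 1 ≤ d i) (n : ℕ) :
    1 ≤ (kq n d).1 ∧ (kq n d).2 ≤ (kq n d).1 := by
  induction n with
  | zero => simp [kq]
  | succ n ih =>
    rw [kq_succ]
    have := hd n
    constructor
    · simp only
      nlinarith [ih.1]
    · simp only
      nlinarith [ih.1]

lemma kq_le {d : ℕ → ℕ} (hd : ∀ i, 1 ≤ d i) {M : ℕ} (hM : ∀ i, d i + 1 ≤ M) (n : ℕ) :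
    (kq n d).1 ≤ M ^ n := by
  induction n with
  | zero => simp [kq]
  | succ n ih =>
    rw [kq_succ]
    simp only
    have h1 := (kq_pos hd n).2
    calc d n * (kq n d).1 + (kq n d).2 ≤ (d n + 1) * (kq n d).1 := by nlinarith
      _ ≤ M * M ^ n := Nat.mul_le_mul (hM n) ih
      _ = M ^ (n + 1) := by rw [pow_succ]; ring

lemma kq_ge {d : ℕ → ℕ} (hd : ∀ i, 1 ≤ d i) (n : ℕ) : 2 ^ n ≤ 2 * (kq n d).1 ^ 2 := by
  induction n using Nat.strong_induction_on with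
  | _ n ih =>
    match n with
    | 0 => simp [kq]
    | 1 =>
      have := (kq_pos hd 1).1
      nlinarith
    | n + 2 =>
      have h1 := ih n (by omega)
      have h2 : 2 * (kq n d).1 ≤ (kq (n + 2) d).1 := by
        rw [kq_succ, kq_succ]
        simp only
        have a1 := hd n
        have a2 := hd (n + 1)
        have a3 := (kq_pos hd n).1
        have a4 : (kq n d).1 ≤ d n * (kq n d).1 := Nat.le_mul_of_pos_left _ a1
        have a5 : d n * (kq n d).1 + (kq n d).2 ≤ d (n + 1) * (d n * (kq n d).1 + (kq n d).2) :=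
          Nat.le_mul_of_pos_left _ a2
        omega
      calc 2 ^ (n + 2) = 4 * 2 ^ n := by ring
        _ ≤ 4 * (2 * (kq n d).1 ^ 2) := by omega
        _ = 2 * (2 * (kq n d).1) ^ 2 := by ring
        _ ≤ 2 * (kq (n + 2) d).1 ^ 2 := by
          apply Nat.mul_le_mul_left
          exact Nat.pow_le_pow_left h2 2

lemma PP_kq {x : ℝ} (hx : Good x) (n : ℕ) :
    PP x n * (((kq n (fun i => dg (gs^[i] x))).1 : ℝ) +
      ((kq n (fun i => dg (gs^[i] x))).2 : ℝ) * gs^[n] x) = 1 := by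
  induction n with
  | zero => simp [kq, PP]
  | succ n ih =>
    rw [PP_succ, kq_succ]
    simp only
    have h1 := dg_add (hx.2.2 n)
    have h2 : gs^[n] x * ((dg (gs^[n] x) : ℝ) + gs^[n + 1] x) = 1 := by
      rw [Function.iterate_succ_apply', ← h1]
      have := (hx.2.2 n).ne'
      field_simp
    push_cast
    obtain ⟨q, hq⟩ : ∃ q : ℝ, q = (kq n (fun i => dg (gs^[i] x))).1 := ⟨_, rfl⟩
    obtain ⟨q', hq'⟩ : ∃ q' : ℝ, q' = (kq n (fun i => dg (gs^[i] x))).2 := ⟨_, rfl⟩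
    rw [← hq, ← hq'] at ih ⊢
    calc PP x n * gs^[n] x * ((dg (gs^[n] x) : ℝ) * q + q' + q * gs^[n + 1] x)
        = PP x n * (q * (gs^[n] x * ((dg (gs^[n] x) : ℝ) + gs^[n + 1] x)) + q' * gs^[n] x) := by
          ring
      _ = PP x n * (q + q' * gs^[n] x) := by rw [h2, mul_one]
      _ = 1 := ih

/-- squared lower bound for the product of the iterates along a word -/
lemma PP_sq_ge {x : ℝ} (hx : Good x) (n : ℕ) {w : ℕ → ℕ}
    (hw : ∀ i < n, dg (gs^[i] x) = w i) {j : ℕ} (hj : (kq n w).1 ^ 2 ≤ 2 ^ (j + 1)) :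
    1 ≤ (PP x n) ^ 2 * 2 ^ (j + 3) := by
  have h1 := PP_kq hx n
  have hd : ∀ i, 1 ≤ (fun i => dg (gs^[i] x)) i := fun i => by
    have := good_iter hx i
    exact dg_pos this.1 this.2.1
  have h2 := kq_pos hd n
  have h3 : kq n (fun i => dg (gs^[i] x)) = kq n w := kq_congr n hw
  rw [h3] at h1 h2
  obtain ⟨q, hq⟩ : ∃ q : ℝ, q = (kq n w).1 := ⟨_, rfl⟩
  obtain ⟨q', hq'⟩ : ∃ q' : ℝ, q' = (kq n w).2 := ⟨_, rfl⟩
  have h4 : q' ≤ q := by rw [hq, hq']; exact_mod_cast h2.2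
  have h5 : 0 ≤ q' := by rw [hq']; positivity
  have h6 : 1 ≤ q := by rw [hq]; exact_mod_cast h2.1
  have h7 : q ^ 2 ≤ 2 ^ (j + 1) := by rw [hq]; exact_mod_cast hj
  rw [← hq, ← hq'] at h1
  have g := good_iter hx n
  have h8 : 1 ≤ PP x n * (2 * q) := by
    have hP := PP_pos hx n
    calc (1 : ℝ) = PP x n * (q + q' * gs^[n] x) := h1.symm
      _ ≤ PP x n * (2 * q) := by
        apply mul_le_mul_of_nonneg_left _ hP.le
        nlinarith [g.1, g.2.1]
  have hP := PP_pos hx n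
  calc (1 : ℝ) ≤ (PP x n * (2 * q)) ^ 2 := one_le_pow₀ h8
    _ = PP x n ^ 2 * (4 * q ^ 2) := by ring
    _ ≤ PP x n ^ 2 * (4 * 2 ^ (j + 1)) := by gcongr
    _ = _ := by rw [pow_add, pow_add]; ring

/-! ### counting words -/

open Classical in
/-- words of length `n` with letters in `{1, …, N}` -/
noncomputable def W (N : ℕ) : ℕ → Finset (ℕ → ℕ)
  | 0 => {fun _ => 1}
  | n + 1 => (W N n ×ˢ Finset.range N).image (fun p => Function.update p.1 n (p.2 + 1))

lemma W_mem {N : ℕ} (hN : 1 ≤ N) {n : ℕ} {w : ℕ → ℕ} (hw : w ∈ W N n) :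
    (∀ i, 1 ≤ w i ∧ w i ≤ N) ∧ ∀ i, n ≤ i → w i = 1 := by
  classical
  induction n generalizing w with
  | zero =>
    simp only [W, Finset.mem_singleton] at hw
    subst hw
    exact ⟨fun i => ⟨le_rfl, hN⟩, fun i _ => rfl⟩
  | succ n ih =>
    simp only [W, Finset.mem_image, Finset.mem_product, Finset.mem_range] at hw
    obtain ⟨⟨v, a⟩, ⟨hv, ha⟩, rfl⟩ := hw
    simp only at hv ha
    obtain ⟨h1, h2⟩ := ih hv
    constructor
    · intro i
      by_cases hi : i = n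
      · subst hi
        simp only [Function.update_self]
        omega
      · rw [Function.update_of_ne hi]
        exact h1 i
    · intro i hi
      rw [Function.update_of_ne (by omega)]
      exact h2 i (by omega)

/-- size of the cylinder of a word -/
noncomputable def QQ (n : ℕ) (w : ℕ → ℕ) : ℕ := (kq n w).1 * ((kq n w).1 + (kq n w).2)

lemma sum_step {N : ℕ} {q q' : ℝ} (hq : 1 ≤ q) (hq'0 : 0 ≤ q') (hq' : q' ≤ q) :
    (1 - 2 / ((N : ℝ) + 1)) * (1 / (q * (q + q'))) ≤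
      ∑ a ∈ Finset.range N, 1 / ((((a + 1 : ℕ) : ℝ) * q + q') *
        ((((a + 1 : ℕ) : ℝ) * q + q') + q)) := by
  have h1 : ∀ a : ℕ, 1 / ((((a + 1 : ℕ) : ℝ) * q + q') * ((((a + 1 : ℕ) : ℝ) * q + q') + q)) =
      (1 / q) * ((fun a : ℕ => 1 / (((a + 1 : ℕ) : ℝ) * q + q')) a -
        (fun a : ℕ => 1 / (((a + 1 : ℕ) : ℝ) * q + q')) (a + 1)) := by
    intro a
    push_cast
    have : (0 : ℝ) ≤ a := by positivity
    have h2 : 0 < ((a : ℝ) + 1) * q + q' := by positivity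
    have h3 : 0 < ((a : ℝ) + 1 + 1) * q + q' := by positivity
    have h4 : ((a : ℝ) + 1) * q + q' + q = ((a : ℝ) + 1 + 1) * q + q' := by ring
    rw [h4]
    field_simp
    ring
  rw [Finset.sum_congr rfl (fun a _ => h1 a), ← Finset.mul_sum, Finset.sum_range_sub']
  push_cast
  have hN : (0 : ℝ) ≤ N := by positivity
  have h2 : 0 < q + q' := by linarith
  have h3 : 0 < ((N : ℝ) + 1) * q + q' := by positivity
  have h5 : 1 / (((N : ℝ) + 1) * q + q') ≤ (2 / ((N : ℝ) + 1)) * (1 / (q + q')) := by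
    rw [div_mul_div_comm, div_le_div_iff₀ h3 (by positivity)]
    nlinarith
  rw [one_mul]
  calc (1 - 2 / ((N : ℝ) + 1)) * (1 / (q * (q + q')))
      = (1 / q) * (1 / (q + q') - (2 / ((N : ℝ) + 1)) * (1 / (q + q'))) := by
        field_simp
    _ ≤ (1 / q) * (1 / (q + q') - 1 / (((N : ℝ) + 1) * q + q')) := by
        gcongr

lemma sum_W {N : ℕ} (hN : 1 ≤ N) (n : ℕ) :
    (1 - 2 / ((N : ℝ) + 1)) ^ n ≤ ∑ w ∈ W N n, 1 / (QQ n w : ℝ) := by
  classical
  have hN1 : (1 : ℝ) ≤ N := by exact_mod_cast hN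
  have h0 : 0 ≤ 1 - 2 / ((N : ℝ) + 1) := by
    rw [sub_nonneg, div_le_one (by linarith)]
    linarith
  induction n with
  | zero => simp [W, QQ, kq]
  | succ n ih =>
    simp only [W]
    rw [Finset.sum_image]
    · rw [Finset.sum_product]
      calc (1 - 2 / ((N : ℝ) + 1)) ^ (n + 1)
          = (1 - 2 / ((N : ℝ) + 1)) * (1 - 2 / ((N : ℝ) + 1)) ^ n := by rw [pow_succ]; ring
        _ ≤ (1 - 2 / ((N : ℝ) + 1)) * ∑ w ∈ W N n, 1 / (QQ n w : ℝ) := by gcongr
        _ = ∑ w ∈ W N n, (1 - 2 / ((N : ℝ) + 1)) * (1 / (QQ n w : ℝ)) := Finset.mul_sum _ _ _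
        _ ≤ _ := by
          apply Finset.sum_le_sum
          intro w hw
          obtain ⟨h1, h2⟩ := W_mem hN hw
          have h3 := kq_pos (fun i => (h1 i).1) n
          have h4 := sum_step (N := N) (q := ((kq n w).1 : ℝ)) (q' := ((kq n w).2 : ℝ))
            (by exact_mod_cast h3.1) (by positivity) (by exact_mod_cast h3.2)
          have h5 : (QQ n w : ℝ) = ((kq n w).1 : ℝ) * (((kq n w).1 : ℝ) + ((kq n w).2 : ℝ)) := by
            unfold QQ; push_cast; ring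
          rw [h5]
          refine h4.trans (le_of_eq ?_)
          apply Finset.sum_congr rfl
          intro a _
          have h6 : kq n (Function.update w n (a + 1)) = kq n w := by
            apply kq_congr
            intro i hi
            rw [Function.update_of_ne (by omega)]
          unfold QQ
          rw [kq_succ, h6, Function.update_self]
          push_cast
          rfl
    · rintro ⟨w, a⟩ hwa ⟨w', a'⟩ hwa' h
      simp only [Finset.coe_product, Set.mem_prod, Finset.mem_coe] at hwa hwa'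
      simp only at h
      have h1 := (W_mem hN hwa.1).2 n le_rfl
      have h2 := (W_mem hN hwa'.1).2 n le_rfl
      have h3 : a = a' := by
        have := congrFun h n
        simp only [Function.update_self] at this
        omega
      have h4 : w = w' := by
        funext i
        by_cases hi : i = n
        · rw [hi, h1, h2]
        · have := congrFun h i
          rwa [Function.update_of_ne hi, Function.update_of_ne hi] at this
      rw [h3, h4]

/-- many words of comparable size -/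
theorem words {η : ℝ} (hη : 0 < η) : ∃ L n0 : ℕ, ∀ n, n0 ≤ n →
    ∃ (j c : ℕ) (e : ℕ → ℕ → ℕ), n ≤ j + 1 ∧ j ≤ 2 * L * n + 1 ∧ (1 - η) * (j : ℝ) ≤ c ∧
      (∀ i t, 1 ≤ e i t ∧ e i t + 1 ≤ 2 ^ L) ∧
      (∀ i < 2 ^ c, (kq n (e i)).1 ^ 2 ≤ 2 ^ (j + 1)) ∧
      (∀ i < 2 ^ c, ∀ i' < 2 ^ c, i ≠ i' → ∃ t < n, e i t ≠ e i' t) := by
  classical
  have hlt : (2 : ℝ) ^ (-η) < 1 := Real.rpow_lt_one_of_one_lt_of_neg (by norm_num) (by linarith)
  obtain ⟨L, hL⟩ : ∃ L : ℕ, 2 * (1 / 2 : ℝ) ^ L < 1 - 2 ^ (-η) := by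
    have h1 : Tendsto (fun L : ℕ => 2 * (1 / 2 : ℝ) ^ L) atTop (𝓝 (2 * 0)) :=
      (tendsto_pow_atTop_nhds_zero_of_lt_one (by norm_num) (by norm_num)).const_mul 2
    rw [mul_zero] at h1
    exact (h1.eventually_lt_const (by linarith)).exists
  have h20 : (0 : ℝ) < 2 ^ (-η) := by positivity
  have hL2 : 2 ≤ L := by
    by_contra hc
    have : L = 0 ∨ L = 1 := by omega
    rcases this with rfl | rfl
    · norm_num at hL
      linarith
    · norm_num at hL
      linarith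
  obtain ⟨ε, hε⟩ : ∃ ε : ℝ, ε = 2 * (1 / 2 : ℝ) ^ L := ⟨_, rfl⟩
  rw [← hε] at hL
  obtain ⟨N, hN⟩ : ∃ N : ℕ, N + 1 = 2 ^ L := ⟨2 ^ L - 1, by
    have : 1 ≤ 2 ^ L := Nat.one_le_two_pow
    omega⟩
  have hN1 : 1 ≤ N := by
    have : 2 ^ 2 ≤ 2 ^ L := Nat.pow_le_pow_right (by norm_num) hL2
    omega
  have hNε : 2 / ((N : ℝ) + 1) = ε := by
    have h1 : ((N : ℝ) + 1) = 2 ^ L := by exact_mod_cast hN
    rw [h1, hε, one_div_pow]
    ring
  obtain ⟨ρ, hρ⟩ : ∃ ρ : ℝ, ρ = 2 ^ η * (1 - ε) := ⟨_, rfl⟩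
  have hρ1 : 1 < ρ := by
    have h1 : (2 : ℝ) ^ (-η) < 1 - ε := by linarith
    have h2 : (2 : ℝ) ^ η * 2 ^ (-η) = 1 := by
      rw [← Real.rpow_add (by norm_num)]; simp
    rw [hρ]
    calc (1 : ℝ) = 2 ^ η * 2 ^ (-η) := h2.symm
      _ < 2 ^ η * (1 - ε) := mul_lt_mul_of_pos_left h1 (by positivity)
  obtain ⟨n0, hn0⟩ : ∃ n0 : ℕ, ∀ n, n0 ≤ n → (4 * L * n + 4 : ℝ) ≤ 2 ^ (-η) * ρ ^ n := by
    have h1 : Tendsto (fun n : ℕ => (n : ℝ) ^ 1 / ρ ^ n) atTop (𝓝 0) :=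
      tendsto_pow_const_div_const_pow_of_one_lt 1 hρ1
    have h2 := h1.eventually_lt_const (u := (2 : ℝ) ^ (-η) / (4 * L + 4)) (by positivity)
    obtain ⟨n0, hn0⟩ := eventually_atTop.1 (h2.and (eventually_ge_atTop 1))
    refine ⟨n0, fun n hn => ?_⟩
    obtain ⟨h3, h4⟩ := hn0 n hn
    have hn1 : (1 : ℝ) ≤ n := by exact_mod_cast h4
    rw [pow_one, div_lt_div_iff₀ (by positivity) (by positivity)] at h3
    have hL0 : (0 : ℝ) ≤ L := by positivity
    nlinarith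
  refine ⟨L, n0, fun n hn => ?_⟩
  have hQ : ∀ w ∈ W N n, 1 ≤ QQ n w ∧ (kq n w).1 ^ 2 ≤ QQ n w ∧ QQ n w ≤ 2 ^ (2 * L * n + 1) := by
    intro w hw
    obtain ⟨h1, h2⟩ := W_mem hN1 hw
    have h3 := kq_pos (fun i => (h1 i).1) n
    have h4 := kq_le (fun i => (h1 i).1) (M := 2 ^ L) (fun i => by have := (h1 i).2; omega) n
    unfold QQ
    refine ⟨?_, ?_, ?_⟩
    · nlinarith [h3.1]
    · nlinarith
    · calc (kq n w).1 * ((kq n w).1 + (kq n w).2) ≤ (kq n w).1 * (2 * (kq n w).1) := by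
            apply Nat.mul_le_mul_left
            omega
        _ ≤ (2 ^ L) ^ n * (2 * (2 ^ L) ^ n) := by
            apply Nat.mul_le_mul h4
            omega
        _ = _ := by
          rw [← pow_mul, pow_succ, show 2 * L * n = L * n + L * n by ring, pow_add]
          ring
  obtain ⟨J, hJ⟩ : ∃ J : (ℕ → ℕ) → ℕ, ∀ w, J w = Nat.log 2 (QQ n w) := ⟨_, fun _ => rfl⟩
  have hJ1 : ∀ w ∈ W N n, 2 ^ (J w) ≤ QQ n w ∧ QQ n w < 2 ^ (J w + 1) := by
    intro w hw
    rw [hJ]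
    have := (hQ w hw).1
    exact ⟨Nat.pow_log_le_self 2 (by omega), Nat.lt_pow_succ_log_self (by norm_num) _⟩
  have hJ2 : ∀ w ∈ W N n, J w ∈ Finset.range (2 * L * n + 2) := by
    intro w hw
    rw [Finset.mem_range]
    have h1 := (hJ1 w hw).1.trans (hQ w hw).2.2
    have := (Nat.pow_le_pow_iff_right (by norm_num : 1 < 2)).1 h1
    omega
  have hsum := sum_W hN1 n
  rw [hNε] at hsum
  rw [← Finset.sum_fiberwise_of_maps_to hJ2] at hsum
  obtain ⟨T, hT⟩ : ∃ T : ℝ, T = (1 - ε) ^ n := ⟨_, rfl⟩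
  have hM0 : (0 : ℝ) < ((2 * L * n + 2 : ℕ) : ℝ) := by positivity
  have hsum2 : ∑ j ∈ Finset.range (2 * L * n + 2), (T / ((2 * L * n + 2 : ℕ) : ℝ)) ≤
      ∑ j ∈ Finset.range (2 * L * n + 2), ∑ w ∈ W N n with J w = j, 1 / (QQ n w : ℝ) := by
    rw [Finset.sum_const, Finset.card_range, nsmul_eq_mul, mul_div_cancel₀ _ hM0.ne', hT]
    exact hsum
  obtain ⟨j, hj1, hj2⟩ := Finset.exists_le_of_sum_le ⟨0, by simp⟩ hsum2
  obtain ⟨F, hF⟩ : ∃ F : Finset (ℕ → ℕ), F = (W N n).filter (fun w => J w = j) := ⟨_, rfl⟩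
  rw [← hF] at hj2
  have hFw : ∀ w ∈ F, w ∈ W N n ∧ J w = j := by
    intro w hw
    rw [hF, Finset.mem_filter] at hw
    exact hw
  have hε1 : 0 < 1 - ε := by linarith
  have hT0 : 0 < T := by rw [hT]; positivity
  have hcard : T / ((2 * L * n + 2 : ℕ) : ℝ) ≤ (F.card : ℝ) * (1 / 2 ^ j) := by
    refine hj2.trans ?_
    rw [← nsmul_eq_mul]
    apply Finset.sum_le_card_nsmul
    intro w hw
    obtain ⟨h1, h2⟩ := hFw w hw
    have h3 := (hJ1 w h1).1
    rw [h2] at h3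
    apply one_div_le_one_div_of_le (by positivity)
    exact_mod_cast h3
  have hFpos : 0 < F.card := by
    rw [Nat.pos_iff_ne_zero]
    intro h
    rw [h] at hcard
    simp only [Nat.cast_zero, zero_mul] at hcard
    have : 0 < T / ((2 * L * n + 2 : ℕ) : ℝ) := by positivity
    linarith
  have hjn : n ≤ j + 1 := by
    obtain ⟨w, hw⟩ := Finset.card_pos.1 hFpos
    obtain ⟨h1, h2⟩ := hFw w hw
    have h3 := (hJ1 w h1).2
    rw [h2] at h3
    have h4 := kq_ge (fun i => ((W_mem hN1 h1).1 i).1) n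
    have h5 := (hQ w h1).2.1
    have h6 : 2 ^ n < 2 ^ (j + 2) := by
      calc 2 ^ n ≤ 2 * (kq n w).1 ^ 2 := h4
        _ ≤ 2 * QQ n w := by omega
        _ < 2 * 2 ^ (j + 1) := by omega
        _ = 2 ^ (j + 2) := by ring
    have := (Nat.pow_lt_pow_iff_right (by norm_num : 1 < 2)).1 h6
    omega
  obtain ⟨c, hc⟩ : ∃ c, c = Nat.log 2 F.card := ⟨_, rfl⟩
  have hc1 : 2 ^ c ≤ F.card := by rw [hc]; exact Nat.pow_log_le_self 2 (by omega)
  have hc2 : F.card < 2 ^ (c + 1) := by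
    rw [hc]; exact Nat.lt_pow_succ_log_self (by norm_num) _
  obtain ⟨emb⟩ : Nonempty (Fin (2 ^ c) ↪ F) := by
    apply Function.Embedding.nonempty_of_card_le
    simpa using hc1
  obtain ⟨e, he⟩ : ∃ e : ℕ → ℕ → ℕ, ∀ i, e i = if h : i < 2 ^ c then (emb ⟨i, h⟩ : ℕ → ℕ)
      else (fun _ => 1) := ⟨_, fun _ => rfl⟩
  have heF : ∀ i (h : i < 2 ^ c), e i = (emb ⟨i, h⟩ : ℕ → ℕ) := fun i h => by
    rw [he, dif_pos h]
  have heW : ∀ i, i < 2 ^ c → e i ∈ F := fun i h => by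
    rw [heF i h]; exact (emb ⟨i, h⟩).2
  refine ⟨j, c, e, hjn, ?_, ?_, ?_, ?_, ?_⟩
  · rw [Finset.mem_range] at hj1
    omega
  · -- the exponent estimate
    by_contra hcon
    push Not at hcon
    have h1 : T / ((2 * L * n + 2 : ℕ) : ℝ) * 2 ^ j < 2 ^ (c + 1) := by
      have h2 : (F.card : ℝ) < 2 ^ (c + 1) := by exact_mod_cast hc2
      have h3 : T / ((2 * L * n + 2 : ℕ) : ℝ) * 2 ^ j ≤ F.card := by
        calc T / ((2 * L * n + 2 : ℕ) : ℝ) * 2 ^ j ≤ (F.card : ℝ) * (1 / 2 ^ j) * 2 ^ j := by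
              gcongr
          _ = F.card := by field_simp
      linarith
    have h4 : (2 : ℝ) ^ (c + 1) ≤ 2 * 2 ^ ((1 - η) * (j : ℝ)) := by
      rw [pow_succ, mul_comm, ← Real.rpow_natCast]
      gcongr
      norm_num
    have h5 : (2 : ℝ) ^ j = 2 ^ ((1 - η) * (j : ℝ)) * 2 ^ (η * (j : ℝ)) := by
      rw [← Real.rpow_add (by norm_num), ← Real.rpow_natCast]
      congr 1
      ring
    have h6 : T * 2 ^ (η * (j : ℝ)) < 2 * ((2 * L * n + 2 : ℕ) : ℝ) := by
      have h7 : T / ((2 * L * n + 2 : ℕ) : ℝ) * (2 ^ ((1 - η) * (j : ℝ)) * 2 ^ (η * (j : ℝ))) <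
          2 * 2 ^ ((1 - η) * (j : ℝ)) := by
        rw [← h5]; linarith
      have hP : (0 : ℝ) < 2 ^ ((1 - η) * (j : ℝ)) := by positivity
      rw [div_mul_eq_mul_div, div_lt_iff₀ hM0] at h7
      have h8 : (2 : ℝ) ^ ((1 - η) * (j : ℝ)) * (T * 2 ^ (η * (j : ℝ))) <
          2 ^ ((1 - η) * (j : ℝ)) * (2 * ((2 * L * n + 2 : ℕ) : ℝ)) := by
        linarith
      exact lt_of_mul_lt_mul_left h8 hP.le
    have h9 : (2 : ℝ) ^ (-η) * ρ ^ n ≤ T * 2 ^ (η * (j : ℝ)) := by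
      rw [hρ, mul_pow, ← Real.rpow_natCast (2 ^ η) n, ← Real.rpow_mul (by norm_num), ← mul_assoc,
        ← Real.rpow_add (by norm_num), hT, mul_comm]
      gcongr
      · norm_num
      · have : (n : ℝ) ≤ j + 1 := by exact_mod_cast hjn
        nlinarith
    have h10 := hn0 n hn
    push_cast at h6
    linarith
  · intro i t
    by_cases h : i < 2 ^ c
    · have h1 := (W_mem hN1 (hFw _ (heW i h)).1).1 t
      omega
    · rw [he, dif_neg h]
      have : 2 ^ 1 ≤ 2 ^ L := Nat.pow_le_pow_right (by norm_num) (by omega)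
      omega
  · intro i hi
    obtain ⟨h1, h2⟩ := hFw _ (heW i hi)
    have h3 := (hJ1 _ h1).2
    rw [h2] at h3
    exact (hQ _ h1).2.1.trans h3.le
  · intro i hi i' hi' hne
    by_contra hcon
    push Not at hcon
    apply hne
    have h1 : e i = e i' := by
      funext t
      rcases Nat.lt_or_ge t n with h | h
      · exact hcon t h
      · rw [(W_mem hN1 (hFw _ (heW i hi)).1).2 t h, (W_mem hN1 (hFw _ (heW i' hi')).1).2 t h]
    rw [heF i hi, heF i' hi'] at h1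
    have h2 := emb.injective (Subtype.ext h1)
    exact congrArg Fin.val h2

end Pool.Agent.V11112.GB
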