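import Pool.Agent.V11112.GB4

open Filter Topology
open scoped ENNReal NNReal

namespace Pool.Agent.V11112.GB

open Pool.Agent.V11112.GA

/-- length of the word in stage `k` -/
def ln (n0 k : ℕ) : ℕ := k ^ 2 + n0 + 1

/-- total length of the words of the stages before `k` -/
def US (n0 : ℕ) : ℕ → ℕ
  | 0 => 0
  | k + 1 => US n0 k + ln n0 k

/-- start of stage `k` -/
def ts (n0 k : ℕ) : ℕ := US n0 k + k

/-- the shift so that the `k`-th special position is `us k + k` -/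
def us (n0 k : ℕ) : ℕ := US n0 (k + 1)

lemma ts_succ (n0 k : ℕ) : ts n0 (k + 1) = ts n0 k + ln n0 k + 1 := by
  unfold ts
  rw [US]
  omega

lemma us_add (n0 k : ℕ) : us n0 k + k = ts n0 k + ln n0 k := by
  unfold us ts
  rw [US]
  omega

lemma ts_zero (n0 : ℕ) : ts n0 0 = 0 := rfl

lemma ts_mono (n0 : ℕ) : StrictMono (ts n0) := by
  apply strictMono_nat_of_lt_succ
  intro k
  rw [ts_succ]
  omega

lemma us_mono (n0 : ℕ) : StrictMono (us n0) := by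
  apply strictMono_nat_of_lt_succ
  intro k
  have h : US n0 (k + 1 + 1) = US n0 (k + 1) + ln n0 (k + 1) := rfl
  unfold us
  rw [h]
  unfold ln
  omega

lemma us_le (n0 k : ℕ) : (us n0 k : ℝ) ≤ ((n0 : ℝ) + 1) * ((k : ℝ) + 1) ^ 3 := by
  have h : ∀ k, US n0 k ≤ (n0 + 1) * k ^ 3 := by
    intro k
    induction k with
    | zero => simp [US]
    | succ k ih =>
      rw [US]
      unfold ln
      nlinarith [Nat.zero_le (k ^ 2 * n0), Nat.zero_le (k * n0), Nat.zero_le k]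
  have := h (k + 1)
  unfold us
  exact_mod_cast this

lemma stage_ex (n0 n : ℕ) : ∃ k, n < ts n0 (k + 1) := by
  refine ⟨n, ?_⟩
  have h1 := (ts_mono n0).id_le (n + 1)
  simp only [id] at h1
  omega

/-- stage of a position -/
noncomputable def stg (n0 n : ℕ) : ℕ := Nat.find (stage_ex n0 n)

lemma stg_eq {n0 k i : ℕ} (hi : i ≤ ln n0 k) : stg n0 (ts n0 k + i) = k := by
  unfold stg
  rw [Nat.find_eq_iff]
  constructor
  · rw [ts_succ]; omega
  · intro m hm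
    have : ts n0 (m + 1) ≤ ts n0 k := (ts_mono n0).monotone hm
    omega

lemma stg_spec (n0 n : ℕ) : ts n0 (stg n0 n) ≤ n ∧ n < ts n0 (stg n0 n + 1) := by
  refine ⟨?_, Nat.find_spec (stage_ex n0 n)⟩
  rcases Nat.eq_zero_or_pos (stg n0 n) with h | h
  · rw [h, ts_zero]; omega
  · have h1 : ¬ n < ts n0 ((stg n0 n - 1) + 1) :=
      Nat.find_min (stage_ex n0 n) (m := stg n0 n - 1) (by
        change stg n0 n - 1 < stg n0 n
        omega)
    rw [Nat.sub_add_cancel h] at h1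
    omega

/-- digits built from stage words -/
noncomputable def bd (n0 : ℕ) (w : ℕ → ℕ → ℕ) (n : ℕ) : ℕ :=
  if n - ts n0 (stg n0 n) < ln n0 (stg n0 n) then w (stg n0 n) (n - ts n0 (stg n0 n))
  else stg n0 n + 1

lemma bd_word {n0 : ℕ} (w : ℕ → ℕ → ℕ) {k i : ℕ} (hi : i < ln n0 k) :
    bd n0 w (ts n0 k + i) = w k i := by
  unfold bd
  rw [stg_eq hi.le, Nat.add_sub_cancel_left, if_pos hi]

lemma bd_special {n0 : ℕ} (w : ℕ → ℕ → ℕ) (k : ℕ) :
    bd n0 w (ts n0 k + ln n0 k) = k + 1 := by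
  unfold bd
  rw [stg_eq le_rfl, Nat.add_sub_cancel_left, if_neg (lt_irrefl _)]

lemma bd_pos {n0 : ℕ} {w : ℕ → ℕ → ℕ} (hw : ∀ k i, 1 ≤ w k i) (n : ℕ) : 1 ≤ bd n0 w n := by
  unfold bd
  split_ifs
  · exact hw _ _
  · omega

lemma bd_le {n0 : ℕ} {w : ℕ → ℕ → ℕ} {L : ℕ} (hw : ∀ k i, w k i + 1 ≤ 2 ^ L) {n k : ℕ}
    (hn : n < ts n0 (k + 1)) : bd n0 w n + 1 ≤ 2 ^ (L + k + 1) := by
  have h1 : 2 ^ L ≤ 2 ^ (L + k + 1) := Nat.pow_le_pow_right (by norm_num) (by omega)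
  unfold bd
  split_ifs
  · exact (hw _ _).trans h1
  · have h2 : stg n0 n ≤ k := Nat.find_min' (stage_ex n0 n) hn
    have h3 : k + 1 < 2 ^ (k + 1) := Nat.lt_two_pow_self
    have h4 : 2 ^ (k + 1) ≤ 2 ^ (L + k + 1) := Nat.pow_le_pow_right (by norm_num) (by omega)
    omega

lemma bd_nonspecial {n0 : ℕ} {w : ℕ → ℕ → ℕ} {L : ℕ} (hw : ∀ k i, w k i + 1 ≤ 2 ^ L) {n : ℕ}
    (hn : ∀ k, n ≠ us n0 k + k) : bd n0 w n + 1 ≤ 2 ^ L := by
  unfold bd
  have h1 := stg_spec n0 n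
  have h2 := hn (stg n0 n)
  rw [us_add] at h2
  rw [ts_succ] at h1
  rw [if_pos (by omega)]
  exact hw _ _

/-- the point with given stage words -/
noncomputable def xw (n0 : ℕ) (w : ℕ → ℕ → ℕ) : ℝ := Y (bd n0 w)

section
variable {n0 L : ℕ} {w : ℕ → ℕ → ℕ}

lemma xw_good (hw : ∀ k i, 1 ≤ w k i) : Good (xw n0 w) := good_Y (bd_pos hw)

lemma xw_dg (hw : ∀ k i, 1 ≤ w k i) (n : ℕ) : dg (gs^[n] (xw n0 w)) = bd n0 w n :=
  dg_iter_Y (bd_pos hw) n

theorem xw_half (hw : ∀ k i, 1 ≤ w k i) (hwL : ∀ k i, w k i + 1 ≤ 2 ^ L) :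
    dimH (AS (xw n0 w)) = ENNReal.ofReal (1 / 2) := by
  apply AS_half (us_mono n0) (A := (n0 : ℝ) + 1) (by positivity) (us_le n0) (xw_good hw) (L := L)
  · intro n hn
    rw [xw_dg hw]
    exact bd_nonspecial hwL hn
  · simp_rw [us_add, xw_dg hw, bd_special]
    push_cast
    exact tendsto_atTop_add_const_right _ _ tendsto_natCast_atTop_atTop

/-- exponent of the size of the cylinder of the stages before `k` -/
def EE (j : ℕ → ℕ) : ℕ → ℕ
  | 0 => 0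
  | k + 1 => EE j k + (j k + 3) + 2 * (k + 1)

lemma PP_ts {j : ℕ → ℕ} (hw : ∀ k i, 1 ≤ w k i)
    (hj : ∀ k, (kq (ln n0 k) (w k)).1 ^ 2 ≤ 2 ^ (j k + 1)) (k : ℕ) :
    1 ≤ (PP (xw n0 w) (ts n0 k)) ^ 2 * 2 ^ (EE j k) ∧
    1 ≤ (PP (xw n0 w) (ts n0 k + ln n0 k)) ^ 2 * 2 ^ (EE j k + (j k + 3)) := by
  have hg := xw_good (n0 := n0) hw
  have hstep : ∀ k, 1 ≤ (PP (xw n0 w) (ts n0 k)) ^ 2 * 2 ^ (EE j k) →
      1 ≤ (PP (xw n0 w) (ts n0 k + ln n0 k)) ^ 2 * 2 ^ (EE j k + (j k + 3)) := by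
    intro k ih
    rw [PP_add, pow_add]
    have h1 := PP_sq_ge (good_iter hg (ts n0 k)) (ln n0 k) (w := w k) (fun i hi => by
      rw [← Function.iterate_add_apply, xw_dg hw, add_comm i, bd_word w hi]) (hj k)
    calc (1 : ℝ) = 1 * 1 := by norm_num
      _ ≤ ((PP (xw n0 w) (ts n0 k)) ^ 2 * 2 ^ (EE j k)) *
          ((PP (gs^[ts n0 k] (xw n0 w)) (ln n0 k)) ^ 2 * 2 ^ (j k + 3)) :=
        mul_le_mul ih h1 (by norm_num) (by positivity)
      _ = _ := by ring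
  have hmain : ∀ k, 1 ≤ (PP (xw n0 w) (ts n0 k)) ^ 2 * 2 ^ (EE j k) := by
    intro k
    induction k with
    | zero => simp [ts_zero, PP, EE]
    | succ k ih =>
      have h2 := hstep k ih
      have g := good_iter hg (ts n0 k + ln n0 k)
      have h3 := inv_dg_lt g.1 g.2.1
      rw [xw_dg hw, bd_special] at h3
      have h4 : 1 ≤ (gs^[ts n0 k + ln n0 k] (xw n0 w)) ^ 2 * 2 ^ (2 * (k + 1)) := by
        have h5 : ((k + 1 : ℕ) : ℝ) + 1 ≤ 2 ^ (k + 1) := by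
          have : k + 1 < 2 ^ (k + 1) := Nat.lt_two_pow_self
          exact_mod_cast this
        have h6 : 1 ≤ gs^[ts n0 k + ln n0 k] (xw n0 w) * 2 ^ (k + 1) := by
          have h7 : (0 : ℝ) < ((k + 1 : ℕ) : ℝ) + 1 := by positivity
          rw [div_lt_iff₀ h7] at h3
          refine h3.le.trans ?_
          exact mul_le_mul_of_nonneg_left h5 g.1.le
        calc (1 : ℝ) ≤ (gs^[ts n0 k + ln n0 k] (xw n0 w) * 2 ^ (k + 1)) ^ 2 := one_le_pow₀ h6
          _ = _ := by rw [mul_pow, ← pow_mul, mul_comm (k + 1) 2]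
      rw [ts_succ, PP_succ, EE, pow_add]
      calc (1 : ℝ) = 1 * 1 := by norm_num
        _ ≤ ((PP (xw n0 w) (ts n0 k + ln n0 k)) ^ 2 * 2 ^ (EE j k + (j k + 3))) *
            ((gs^[ts n0 k + ln n0 k] (xw n0 w)) ^ 2 * 2 ^ (2 * (k + 1))) :=
          mul_le_mul h2 h4 (by norm_num) (by positivity)
        _ = _ := by ring
  exact ⟨hmain k, hstep k (hmain k)⟩

end

lemma PP_anti {x : ℝ} (hx : Good x) {m n : ℕ} (h : m ≤ n) : PP x n ≤ PP x m := by
  obtain ⟨l, rfl⟩ := Nat.exists_eq_add_of_le h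
  rw [PP_add]
  have h1 := PP_pos hx m
  have h2 : PP (gs^[m] x) l ≤ 1 :=
    (PP_le_half (good_iter hx m) _).trans (pow_le_one₀ (by norm_num) (by norm_num))
  nlinarith

/-- gap between two points with different first digits -/
lemma gap {z z' : ℝ} (hz : Good z) (hz' : Good z') (h : dg z < dg z') {A B : ℝ}
    (hA : (dg z : ℝ) + 1 ≤ A) (hB : (dg (gs^[2] z) : ℝ) + 1 ≤ B) :
    1 / (2 * B * A ^ 2) ≤ z - z' := by
  have gz := good_gs hz
  have g2 : Good (gs^[2] z) := good_iter hz 2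
  have e2 : gs^[2] z = gs (gs z) := rfl
  have h1 := eq_inv hz.1
  have h2 := le_inv_dg hz'.1 hz'.2.1
  have h3 := eq_inv gz.1
  have h4 := inv_dg_lt g2.1 g2.2.1
  rw [← e2] at h3
  have hM : (1 : ℝ) ≤ dg z := by exact_mod_cast dg_pos hz.1 hz.2.1
  have hb : (1 : ℝ) ≤ dg (gs z) := by exact_mod_cast dg_pos gz.1 gz.2.1
  have hM' : (dg z : ℝ) + 1 ≤ dg z' := by exact_mod_cast h
  obtain ⟨v, hv⟩ : ∃ v, v = gs^[2] z := ⟨_, rfl⟩
  obtain ⟨y, hy⟩ : ∃ y, y = gs z := ⟨_, rfl⟩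
  rw [← hv] at h3 h4 hB g2
  rw [← hy] at h1 h3 hb gz
  have hB1 : 1 ≤ B := by
    have : (0 : ℝ) ≤ dg v := by positivity
    linarith
  have hA1 : 1 ≤ A := by linarith
  have hvB : 1 / B ≤ v := by
    refine le_trans ?_ h4.le
    exact one_div_le_one_div_of_le (by positivity) hB
  have hy1 : 1 / (2 * B) ≤ 1 - y := by
    have hv0 := g2.1
    have hv1 := g2.2.1
    have h5 : y ≤ 1 / (1 + v) := by
      rw [h3]
      exact one_div_le_one_div_of_le (by linarith) (by linarith)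
    have h6 : v / 2 ≤ 1 - 1 / (1 + v) := by
      have : 1 - 1 / (1 + v) = v / (1 + v) := by field_simp; ring
      rw [this]
      exact div_le_div_of_nonneg_left hv0.le (by linarith) (by linarith)
    have h7 : 1 / (2 * B) = (1 / B) / 2 := by field_simp
    rw [h7]
    linarith
  have hz2 : z' ≤ 1 / ((dg z : ℝ) + 1) :=
    h2.trans (one_div_le_one_div_of_le (by linarith) hM')
  have hy0 := gz.1
  have hy2 := gz.2.1
  have h8 : 1 / (2 * B * A ^ 2) ≤ 1 / ((dg z : ℝ) + y) - 1 / ((dg z : ℝ) + 1) := by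
    obtain ⟨M, hMd⟩ : ∃ M : ℝ, M = dg z := ⟨_, rfl⟩
    rw [← hMd] at hM hA ⊢
    have e : 1 / (M + y) - 1 / (M + 1) = (1 - y) / ((M + y) * (M + 1)) := by
      have : 0 < M + y := by linarith
      have : 0 < M + 1 := by linarith
      field_simp
      ring
    rw [e]
    have h9 : 1 / (2 * B * A ^ 2) = (1 / (2 * B)) / (A ^ 2) := by field_simp
    rw [h9]
    have h10 : (M + y) * (M + 1) ≤ A ^ 2 := by nlinarith
    have h11 : 0 < (M + y) * (M + 1) := mul_pos (by linarith) (by linarith)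
    exact div_le_div₀ (by linarith) hy1 h11 h10
  rw [h1]
  linarith

/-- distance between points whose words first differ at stage `k` -/
theorem xw_dist {n0 L : ℕ} {w w' : ℕ → ℕ → ℕ} {j : ℕ → ℕ}
    (hw : ∀ k i, 1 ≤ w k i) (hwL : ∀ k i, w k i + 1 ≤ 2 ^ L)
    (hj : ∀ k, (kq (ln n0 k) (w k)).1 ^ 2 ≤ 2 ^ (j k + 1))
    (hw' : ∀ k i, 1 ≤ w' k i) (hwL' : ∀ k i, w' k i + 1 ≤ 2 ^ L)
    (hj' : ∀ k, (kq (ln n0 k) (w' k)).1 ^ 2 ≤ 2 ^ (j k + 1))
    {k : ℕ} (hk : ∀ i < k, w i = w' i) (hd : ∃ t < ln n0 k, w k t ≠ w' k t) :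
    1 / 2 ^ (EE j k + (j k + 3) + (3 * L + k + 3)) ≤ |xw n0 w - xw n0 w'| := by
  have hg := xw_good (n0 := n0) hw
  have hg' := xw_good (n0 := n0) hw'
  obtain ⟨i0, hi0⟩ : ∃ i0, i0 = Nat.find hd := ⟨_, rfl⟩
  have hi1 : i0 < ln n0 k ∧ w k i0 ≠ w' k i0 := by rw [hi0]; exact Nat.find_spec hd
  have hi2 : ∀ i < i0, w k i = w' k i := by
    intro i hi
    rw [hi0] at hi
    have := Nat.find_min hd hi
    by_contra hc
    exact this ⟨by omega, hc⟩
  obtain ⟨p, hp⟩ : ∃ p, p = ts n0 k + i0 := ⟨_, rfl⟩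
  have hagree : ∀ i < p, dg (gs^[i] (xw n0 w)) = dg (gs^[i] (xw n0 w')) := by
    intro i hi
    rw [xw_dg hw, xw_dg hw']
    rcases Nat.lt_or_ge i (ts n0 k) with h | h
    · have h1 := stg_spec n0 i
      have h2 : stg n0 i < k := by
        by_contra hc
        push Not at hc
        have : ts n0 k ≤ ts n0 (stg n0 i) := (ts_mono n0).monotone hc
        omega
      unfold bd
      rw [hk _ h2]
    · obtain ⟨i', rfl⟩ := Nat.exists_eq_add_of_le h
      rw [bd_word w (by omega), bd_word w' (by omega)]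
      exact hi2 i' (by omega)
  have hdist := iter_sub hg hg' p hagree
  have hP1 := (PP_ts (n0 := n0) hw hj k).2
  have hP2 := (PP_ts (n0 := n0) hw' hj' k).2
  obtain ⟨P1, hP1d⟩ : ∃ P1, P1 = PP (xw n0 w) (ts n0 k + ln n0 k) := ⟨_, rfl⟩
  obtain ⟨P2, hP2d⟩ : ∃ P2, P2 = PP (xw n0 w') (ts n0 k + ln n0 k) := ⟨_, rfl⟩
  rw [← hP1d] at hP1
  rw [← hP2d] at hP2
  have hP10 : 0 < P1 := by rw [hP1d]; exact PP_pos hg _
  have hP20 : 0 < P2 := by rw [hP2d]; exact PP_pos hg' _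
  obtain ⟨E, hE⟩ : ∃ E, E = EE j k + (j k + 3) := ⟨_, rfl⟩
  rw [← hE] at hP1 hP2 ⊢
  have hE0 : (0 : ℝ) < 2 ^ E := by positivity
  have hPP : 1 / 2 ^ E ≤ P1 * P2 := by
    rw [div_le_iff₀ hE0]
    have h1 : 1 ≤ (P1 * P2 * 2 ^ E) ^ 2 := by
      calc (1 : ℝ) = 1 * 1 := by norm_num
        _ ≤ (P1 ^ 2 * 2 ^ E) * (P2 ^ 2 * 2 ^ E) := mul_le_mul hP1 hP2 (by norm_num)
            (by positivity)
        _ = _ := by ring
    by_contra hc
    push Not at hc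
    have h2 : 0 < P1 * P2 * 2 ^ E := by positivity
    nlinarith
  have hPm : P1 * P2 ≤ PP (xw n0 w) p * PP (xw n0 w') p := by
    rw [hP1d, hP2d]
    apply mul_le_mul
    · exact PP_anti hg (by omega)
    · exact PP_anti hg' (by omega)
    · exact (PP_pos hg' _).le
    · exact (PP_pos hg _).le
  have hgap : 1 / 2 ^ (3 * L + k + 3) ≤ |gs^[p] (xw n0 w) - gs^[p] (xw n0 w')| := by
    have gen : ∀ v v' : ℕ → ℕ → ℕ, (∀ k i, 1 ≤ v k i) → (∀ k i, v k i + 1 ≤ 2 ^ L) →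
        (∀ k i, 1 ≤ v' k i) → v k i0 < v' k i0 →
        1 / 2 ^ (3 * L + k + 3) ≤ gs^[p] (xw n0 v) - gs^[p] (xw n0 v') := by
      intro v v' hv hvL hv' hlt
      have q1 := xw_good (n0 := n0) hv
      have q2 := xw_good (n0 := n0) hv'
      have d1 : dg (gs^[p] (xw n0 v)) = v k i0 := by rw [xw_dg hv, hp, bd_word v hi1.1]
      have d2 : dg (gs^[p] (xw n0 v')) = v' k i0 := by rw [xw_dg hv', hp, bd_word v' hi1.1]
      have d3 : dg (gs^[2] (gs^[p] (xw n0 v))) + 1 ≤ 2 ^ (L + (k + 1) + 1) := by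
        rw [← Function.iterate_add_apply, xw_dg hv]
        apply bd_le hvL
        rw [ts_succ, ts_succ]
        unfold ln at *
        omega
      have h1 := gap (good_iter q1 p) (good_iter q2 p) (by rw [d1, d2]; exact hlt)
        (A := 2 ^ L) (B := 2 ^ (L + (k + 1) + 1))
        (by rw [d1]; exact_mod_cast hvL k i0) (by exact_mod_cast d3)
      refine le_trans (le_of_eq ?_) h1
      congr 1
      rw [← pow_mul]
      have : 2 * (2 : ℝ) ^ (L + (k + 1) + 1) * 2 ^ (L * 2) = 2 ^ (1 + (L + (k + 1) + 1) + L * 2) := by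
        rw [pow_add, pow_add]; ring
      rw [this]
      congr 1
      ring
    rcases Nat.lt_or_gt_of_ne hi1.2 with h | h
    · exact (gen w w' hw hwL hw' h).trans (le_abs_self _)
    · rw [abs_sub_comm]
      exact (gen w' w hw' hwL' hw h).trans (le_abs_self _)
  rw [hdist, pow_add]
  calc 1 / (2 ^ E * 2 ^ (3 * L + k + 3)) = (1 / 2 ^ E) * (1 / 2 ^ (3 * L + k + 3) : ℝ) := by
        field_simp
    _ ≤ (PP (xw n0 w) p * PP (xw n0 w') p) * |gs^[p] (xw n0 w) - gs^[p] (xw n0 w')| := by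
        apply mul_le_mul (hPP.trans hPm) hgap (by positivity)
        exact (mul_pos (PP_pos hg _) (PP_pos hg' _)).le

end Pool.Agent.V11112.GB
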