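import Pool.Agent.V11112.GB5

open Filter Topology
open scoped ENNReal NNReal

namespace Pool.Agent.V11112.GB

open Pool.Agent.V11112.GA

/-- partial sums -/
def CS (c : ℕ → ℕ) : ℕ → ℕ
  | 0 => 0
  | k + 1 => CS c k + c k

lemma CS_mono (c : ℕ → ℕ) : Monotone (CS c) :=
  monotone_nat_of_le_succ (fun k => by rw [CS]; omega)

lemma CS_cod {c : ℕ → ℕ} (hc : ∀ k, 1 ≤ c k) : Cod (CS c) := by
  refine ⟨CS_mono c, rfl, fun n => ?_⟩
  have h : ∀ n, n ≤ CS c n := by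
    intro n
    induction n with
    | zero => simp
    | succ n ih =>
      rw [CS]
      have := hc n
      omega
  have := h (n + 1)
  omega

lemma CS_cubic {j : ℕ → ℕ} (hj : ∀ k, k ^ 2 ≤ j k) (k : ℕ) :
    ((k : ℝ) ^ 3 - 3 * (k : ℝ) ^ 2) / 3 ≤ CS j k := by
  induction k with
  | zero => simp [CS]
  | succ k ih =>
    rw [CS]
    push_cast
    have h : (k : ℝ) ^ 2 ≤ j k := by exact_mod_cast hj k
    have hk : (0 : ℝ) ≤ k := by positivity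
    nlinarith

lemma EE_eq (j : ℕ → ℕ) (k : ℕ) : EE j k = CS j k + 3 * k + k * (k + 1) := by
  induction k with
  | zero => simp [EE, CS]
  | succ k ih =>
    rw [EE, CS, ih]
    ring

lemma CS_le {c j : ℕ → ℕ} {t : ℝ} (h : ∀ k, t * (j k : ℝ) ≤ c k) (k : ℕ) :
    t * (CS j k : ℝ) ≤ CS c k := by
  induction k with
  | zero => simp [CS]
  | succ k ih =>
    rw [CS, CS]
    push_cast
    have := h k
    linarith

theorem theta_lower {s : ℝ} (hs0 : 0 < s) (hs1 : s < 1) :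
    ENNReal.ofReal s ≤ dimH {x : ℝ | (0 ≤ x ∧ x < 1) ∧ dimH (AS x) = ENNReal.ofReal (1 / 2)} := by
  obtain ⟨η, hη⟩ : ∃ η : ℝ, η = (1 - s) / 2 := ⟨_, rfl⟩
  have hη0 : 0 < η := by rw [hη]; linarith
  have hη1 : η < 1 := by rw [hη]; linarith
  obtain ⟨L, m0, hwords⟩ := words hη0
  obtain ⟨n0, hn0⟩ : ∃ n0, n0 = m0 + 1 := ⟨_, rfl⟩
  have hW := fun k => hwords (ln n0 k) (by unfold ln; omega)
  choose j c e h1 h2 h3 h4 h5 h6 using hW
  have hj1 : ∀ k, k ^ 2 ≤ j k := by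
    intro k
    have := h1 k
    unfold ln at this
    omega
  have hj2 : ∀ k, 1 ≤ j k := by
    intro k
    have := h1 k
    unfold ln at this
    omega
  have hc1 : ∀ k, 1 ≤ c k := by
    intro k
    have a1 := h3 k
    have a2 : (1 : ℝ) ≤ j k := by exact_mod_cast hj2 k
    have a3 : (0 : ℝ) < c k := by
      refine lt_of_lt_of_le ?_ a1
      exact mul_pos (by linarith) (by linarith)
    exact_mod_cast a3
  have hcod := CS_cod hc1
  have hcs : ∀ k, CS c (k + 1) - CS c k = c k := by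
    intro k
    rw [CS]; omega
  obtain ⟨w, hw⟩ : ∃ w : ℝ → ℕ → ℕ → ℕ, ∀ r k, w r k = e k (oc (CS c) r k) := ⟨_, fun _ _ => rfl⟩
  have hoc : ∀ r, 0 ≤ r → ∀ k, oc (CS c) r k < 2 ^ (c k) := by
    intro r hr k
    have := oc_lt hcod.mono hr k
    rwa [hcs] at this
  have hw1 : ∀ r k i, 1 ≤ w r k i := fun r k i => by rw [hw]; exact (h4 k _ _).1
  have hw2 : ∀ r k i, w r k i + 1 ≤ 2 ^ L := fun r k i => by rw [hw]; exact (h4 k _ _).2
  have hw3 : ∀ r, 0 ≤ r → ∀ k, (kq (ln n0 k) (w r k)).1 ^ 2 ≤ 2 ^ (j k + 1) := by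
    intro r hr k
    rw [hw]
    exact h5 k _ (hoc r hr k)
  obtain ⟨δ, hδ⟩ : ∃ δ : ℝ, δ = (1 - s) / 2 := ⟨_, rfl⟩
  have hδ0 : 0 < δ := by rw [hδ]; linarith
  obtain ⟨A, hA⟩ : ∃ A : ℝ, A = 12 + 3 * L + 2 * L * (n0 + 1) := ⟨_, rfl⟩
  have hA0 : 0 ≤ A := by rw [hA]; positivity
  obtain ⟨B, hB⟩ := poly_bdd 2 (δ := δ / 3) (A := A + 1) (by linarith) (by linarith)
  have hexp : ∀ k : ℕ, s * ((EE j k + (j k + 3) + (3 * L + k + 3) : ℕ) : ℝ) - (CS c k : ℝ) ≤ B := by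
    intro k
    refine le_trans ?_ (hB k)
    have a1 := CS_le h3 k
    have a2 := CS_cubic hj1 k
    have a3 : (j k : ℝ) ≤ 2 * L * ((k : ℝ) ^ 2 + n0 + 1) + 1 := by
      have := h2 k
      unfold ln at this
      exact_mod_cast this
    rw [EE_eq]
    push_cast
    have hk : (0 : ℝ) ≤ k := by positivity
    obtain ⟨t, ht⟩ : ∃ t : ℝ, t = k := ⟨_, rfl⟩
    rw [← ht] at a2 a3 hk ⊢
    obtain ⟨J, hJ⟩ : ∃ J : ℝ, J = CS j k := ⟨_, rfl⟩
    rw [← hJ] at a1 a2 ⊢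
    obtain ⟨R, hR⟩ : ∃ R : ℝ, R = 3 * t + t * (t + 1) + ((j k : ℝ) + 3) + (3 * L + t + 3) :=
      ⟨_, rfl⟩
    have hL0 : (0 : ℝ) ≤ L := by positivity
    have hn00 : (0 : ℝ) ≤ n0 := by positivity
    have hRA : R ≤ A * (t + 1) ^ 2 := by
      have b1 : t ^ 2 + (n0 : ℝ) + 1 ≤ (n0 + 1) * (t + 1) ^ 2 := by nlinarith
      have b2 : 2 * (L : ℝ) * (t ^ 2 + n0 + 1) ≤ 2 * L * ((n0 + 1) * (t + 1) ^ 2) := by gcongr
      have b3 : 3 * t + t * (t + 1) + 1 + 3 + (3 * L + t + 3) ≤ (12 + 3 * L) * (t + 1) ^ 2 := by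
        have c1 : 1 ≤ (t + 1) ^ 2 := one_le_pow₀ (by linarith)
        nlinarith
      rw [hR, hA]
      nlinarith
    have hR0 : 0 ≤ R := by rw [hR]; positivity
    have hsR : s * R ≤ R := by nlinarith
    have e1 : s * (J + 3 * t + t * (t + 1) + ((j k : ℝ) + 3) + (3 * L + t + 3)) = s * J + s * R := by
      rw [hR]; ring
    rw [e1]
    have e2 : s * J - (CS c k : ℝ) ≤ -(δ * J) := by
      have : (1 - η) = s + δ := by rw [hη, hδ]; ring
      rw [this] at a1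
      linarith
    have e3 : δ * ((t ^ 3 - 3 * t ^ 2) / 3) ≤ δ * J := mul_le_mul_of_nonneg_left a2 hδ0.le
    have hδ1 : δ ≤ 1 := by rw [hδ]; linarith
    have e4 : δ * t ^ 2 ≤ (t + 1) ^ 2 := by nlinarith
    have e5 : t ^ (2 + 1) = t ^ 3 := by norm_num
    rw [e5]
    nlinarith
  obtain ⟨f, hf⟩ : ∃ f : ℝ → ℝ, ∀ r, f r = xw n0 (w r) := ⟨_, fun _ => rfl⟩
  have hsub : f '' (Set.Ico (0 : ℝ) 1) ⊆
      {x : ℝ | (0 ≤ x ∧ x < 1) ∧ dimH (AS x) = ENNReal.ofReal (1 / 2)} := by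
    rintro _ ⟨r, _, rfl⟩
    rw [hf]
    have hg := xw_good (n0 := n0) (hw1 r)
    exact ⟨⟨hg.1.le, hg.2.1⟩, xw_half (hw1 r) (hw2 r)⟩
  refine le_trans ?_ (dimH_mono hsub)
  apply dim_of_holder (C := 2 ^ B) hs0 (by positivity)
  intro r r' hr hlt hr'
  have hr0' : 0 ≤ r' := by linarith
  obtain ⟨k, g1, g2, g3⟩ := first_diff hcod hr hlt hr'
  have e1 := oc_add hcod.mono hr k
  have e2 := oc_add hcod.mono hr0' k
  rw [g1] at e1
  have hne : oc (CS c) r k ≠ oc (CS c) r' k := by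
    intro h
    rw [h] at e1
    omega
  have hdist := xw_dist (n0 := n0) (j := j) (hw1 r) (hw2 r) (hw3 r hr) (hw1 r') (hw2 r')
    (hw3 r' hr0') (k := k) (fun i hi => by rw [hw, hw, g3 i hi])
    (by
      rw [hw, hw]
      exact h6 k _ (hoc r hr k) _ (hoc r' hr0' k) hne)
  have hup : r' - r ≤ 2 ^ (-(CS c k : ℝ)) := by
    have a1 : ((⌊r * 2 ^ (CS c k)⌋₊ : ℕ) : ℝ) ≤ r * 2 ^ (CS c k) := Nat.floor_le (by positivity)
    have a2 : r' * 2 ^ (CS c k) < (⌊r' * 2 ^ (CS c k)⌋₊ : ℝ) + 1 := Nat.lt_floor_add_one _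
    rw [← g1] at a2
    rw [Real.rpow_neg (by norm_num), Real.rpow_natCast, ← one_div, le_div_iff₀ (by positivity)]
    linarith
  rw [hf, hf]
  obtain ⟨E, hE⟩ : ∃ E, E = EE j k + (j k + 3) + (3 * L + k + 3) := ⟨_, rfl⟩
  have hex := hexp k
  rw [← hE] at hdist hex
  have h7 : (1 / (2 : ℝ) ^ E) ^ s = 2 ^ (-(s * (E : ℝ))) := by
    rw [one_div, ← Real.rpow_natCast, ← Real.rpow_neg (by norm_num), ← Real.rpow_mul (by norm_num)]
    congr 1
    ring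
  calc r' - r ≤ 2 ^ (-(CS c k : ℝ)) := hup
    _ ≤ 2 ^ (B + -(s * (E : ℝ))) := by
      apply Real.rpow_le_rpow_of_exponent_le (by norm_num)
      linarith
    _ = 2 ^ B * (1 / (2 : ℝ) ^ E) ^ s := by
      rw [h7, Real.rpow_add (by norm_num)]
    _ ≤ 2 ^ B * |xw n0 (w r) - xw n0 (w r')| ^ s := by gcongr

theorem theta_dim :
    dimH {x : ℝ | (0 ≤ x ∧ x < 1) ∧ dimH (AS x) = ENNReal.ofReal (1 / 2)} = 1 := by
  apply le_antisymm
  · refine (dimH_mono (Set.subset_univ _)).trans ?_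
    rw [Real.dimH_univ]
  · apply le_of_forall_lt
    intro c hc
    obtain ⟨b, hb1, hb2⟩ := ENNReal.lt_iff_exists_nnreal_btwn.1 hc
    have hb3 : (b : ℝ) < 1 := by
      have : b < 1 := by exact_mod_cast hb2
      exact_mod_cast this
    obtain ⟨s, hs1, hs2⟩ := exists_between hb3
    have hs0 : 0 < s := lt_of_le_of_lt b.2 hs1
    refine lt_of_lt_of_le (lt_trans hb1 ?_) (theta_lower hs0 hs2)
    rw [← ENNReal.ofReal_coe_nnreal, ENNReal.ofReal_lt_ofReal_iff hs0]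
    exact hs1

end Pool.Agent.V11112.GB
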