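import Mathlib

/-!
# A compact set meeting every line, all of whose iterated sumsets are nowhere dense (part 1)

Sequences, the definition of the set and the nested interval argument.
-/

namespace Pool.Agent.V11112.LS

open Set

/-- the frequencies -/
def M : ℕ → ℕ
  | 0 => 3
  | (i + 1) => (2 * i + 5) * (i + 1) ^ 2 * M i

lemma M_pos (i : ℕ) : 0 < M i := by
  induction i with
  | zero => norm_num [M]
  | succ i ih =>
    simp only [M]
    positivity

lemma MR_pos (i : ℕ) : (0 : ℝ) < M i := by exact_mod_cast M_pos i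

lemma M_ge (i : ℕ) : i + 1 ≤ M i := by
  induction i with
  | zero => norm_num [M]
  | succ i ih =>
    simp only [M]
    have h1 : 1 ≤ (i + 1) ^ 2 := Nat.one_le_pow _ _ (by omega)
    have h2 : (2 * i + 5) * 1 * (i + 1) ≤ (2 * i + 5) * (i + 1) ^ 2 * M i :=
      Nat.mul_le_mul (Nat.mul_le_mul le_rfl h1) ih
    nlinarith

/-- tolerance -/
noncomputable def eta (i : ℕ) : ℝ := 1 / ((i : ℝ) + 1)

/-- angular threshold -/
noncomputable def kap (i : ℕ) : ℝ := 1 / (2 * (i : ℝ) + 3)

/-- lengths -/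
noncomputable def eps (i : ℕ) : ℝ := 1 / (((i : ℝ) + 1) ^ 2 * M i)

lemma eta_pos (i : ℕ) : 0 < eta i := by unfold eta; positivity
lemma kap_pos (i : ℕ) : 0 < kap i := by unfold kap; positivity
lemma eps_pos (i : ℕ) : 0 < eps i := by
  have := MR_pos i
  unfold eps; positivity

lemma eta_eq (i : ℕ) : (M i : ℝ) * (1 + i) * eps i = eta i := by
  have h := MR_pos i
  have h2 : (0 : ℝ) < (i : ℝ) + 1 := by positivity
  unfold eps eta
  field_simp
  ring

lemma start0 : (M 0 : ℝ) * kap 0 = 1 := by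
  simp [M, kap]

lemma step_eps (i : ℕ) : (M (i + 1) : ℝ) * kap (i + 1) * eps i = 1 := by
  have h := MR_pos i
  have h2 : (0 : ℝ) < (i : ℝ) + 1 := by positivity
  have h3 : (0 : ℝ) < 2 * ((i : ℝ) + 1) + 3 := by positivity
  simp only [M, kap, eps]
  push_cast
  field_simp
  ring

lemma eps_le (i : ℕ) : (M i : ℝ) * kap i * eps i ≤ 1 := by
  have h := MR_pos i
  have h2 : (0 : ℝ) < (i : ℝ) + 1 := by positivity
  have h3 : (0 : ℝ) < 2 * (i : ℝ) + 3 := by positivity
  have : (M i : ℝ) * kap i * eps i = 1 / ((2 * (i : ℝ) + 3) * ((i : ℝ) + 1) ^ 2) := by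
    simp only [kap, eps]
    field_simp
  rw [this, div_le_one (by positivity)]
  have h4 : (0 : ℝ) ≤ (i : ℝ) := by positivity
  nlinarith [sq_nonneg ((i : ℝ) + 1), mul_nonneg h4 h4]

lemma Mk_mono (i : ℕ) : (M i : ℝ) * kap i ≤ (M (i + 1) : ℝ) * kap (i + 1) := by
  have h1 := eps_le i
  have h2 := step_eps i
  have h3 := eps_pos i
  by_contra hc
  push Not at hc
  have := mul_lt_mul_of_pos_right hc h3
  linarith

/-- the linear forms -/
noncomputable def N (i : ℕ) (p : ℝ × ℝ) : ℝ := (M i : ℝ) * (p.1 + i * p.2)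

lemma N_add (i : ℕ) (p q : ℝ × ℝ) : N i (p + q) = N i p + N i q := by
  simp only [N, Prod.fst_add, Prod.snd_add]; ring

lemma N_smul (i : ℕ) (c : ℝ) (p : ℝ × ℝ) : N i (c • p) = c * N i p := by
  simp only [N, Prod.smul_fst, Prod.smul_snd, smul_eq_mul]; ring

lemma N_sub (i : ℕ) (p q : ℝ × ℝ) : N i (p - q) = N i p - N i q := by
  simp only [N, Prod.fst_sub, Prod.snd_sub]; ring

lemma N_sum (i : ℕ) {ι : Type*} (s : Finset ι) (f : ι → ℝ × ℝ) :
    N i (∑ r ∈ s, f r) = ∑ r ∈ s, N i (f r) := by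
  classical
  induction s using Finset.induction_on with
  | empty => simp [N]
  | insert a s ha ih => rw [Finset.sum_insert ha, Finset.sum_insert ha, N_add, ih]

lemma N_cont (i : ℕ) : Continuous (N i) := by
  unfold N; fun_prop

lemma N_le (i : ℕ) (p : ℝ × ℝ) : |N i p| ≤ (M i : ℝ) * (1 + i) * ‖p‖ := by
  have h := MR_pos i
  have h1 : |p.1| ≤ ‖p‖ := norm_fst_le p
  have h2 : |p.2| ≤ ‖p‖ := norm_snd_le p
  unfold N
  rw [abs_mul, abs_of_pos h, mul_assoc]
  refine mul_le_mul_of_nonneg_left ?_ h.le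
  calc |p.1 + i * p.2| ≤ |p.1| + |(i : ℝ) * p.2| := abs_add_le _ _
    _ = |p.1| + i * |p.2| := by rw [abs_mul, Nat.abs_cast]
    _ ≤ ‖p‖ + i * ‖p‖ := by
        have := mul_le_mul_of_nonneg_left h2 (Nat.cast_nonneg (α := ℝ) i)
        linarith
    _ = (1 + i) * ‖p‖ := by ring

/-- distance of the `i`-th form to the integers -/
noncomputable def D (i : ℕ) (p : ℝ × ℝ) : ℝ := ‖((N i p : ℝ) : UnitAddCircle)‖

lemma D_cont (i : ℕ) : Continuous (D i) := by
  unfold D
  exact continuous_norm.comp ((AddCircle.continuous_mk' (1 : ℝ)).comp (N_cont i))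

lemma D_nonneg (i : ℕ) (p : ℝ × ℝ) : 0 ≤ D i p := norm_nonneg _

/-- norm in the circle is at most the distance to any integer -/
lemma circ_le (x : ℝ) (m : ℤ) : ‖((x : ℝ) : UnitAddCircle)‖ ≤ |x - m| := by
  rw [UnitAddCircle.norm_eq]
  exact round_le x m

lemma D_add (i : ℕ) (p q : ℝ × ℝ) : D i (p + q) ≤ D i p + D i q := by
  unfold D
  rw [N_add, AddCircle.coe_add]
  exact norm_add_le _ _

lemma D_sum (i : ℕ) {ι : Type*} (s : Finset ι) (f : ι → ℝ × ℝ) :
    D i (∑ r ∈ s, f r) ≤ ∑ r ∈ s, D i (f r) := by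
  classical
  induction s using Finset.induction_on with
  | empty => simp [N, D]
  | insert a s ha ih =>
    rw [Finset.sum_insert ha, Finset.sum_insert ha]
    exact (D_add _ _ _).trans (by linarith)

/-- the compact set -/
def K : Set (ℝ × ℝ) :=
  {p | p ∈ Icc (0 : ℝ) 1 ×ˢ Icc (0 : ℝ) 1 ∧
    ∀ T : Finset ℕ, T.card = 3 → ∃ i ∈ T, D i p ≤ eta i}

lemma K_sub : K ⊆ Icc (0 : ℝ) 1 ×ˢ Icc (0 : ℝ) 1 := fun _ h => h.1

lemma K_closed : IsClosed K := by
  have : K = (Icc (0 : ℝ) 1 ×ˢ Icc (0 : ℝ) 1) ∩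
      ⋂ (T : Finset ℕ), ⋂ (_ : T.card = 3), ⋃ i ∈ T, {p | D i p ≤ eta i} := by
    ext p
    simp [K]
  rw [this]
  refine IsClosed.inter (isClosed_Icc.prod isClosed_Icc) ?_
  refine isClosed_iInter fun T => isClosed_iInter fun _ => ?_
  refine isClosed_biUnion_finset fun i _ => ?_
  exact isClosed_le (D_cont i) continuous_const

lemma K_compact : IsCompact K :=
  (isCompact_Icc.prod isCompact_Icc).of_isClosed_subset K_closed K_sub

/-- finding an integer value: an affine function with total variation at least one -/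
lemma exists_int (A B u v : ℝ) (huv : u ≤ v) (h : 1 ≤ |B| * (v - u)) :
    ∃ τ, u ≤ τ ∧ τ ≤ v ∧ ∃ m : ℤ, A + τ * B = m := by
  rcases le_or_gt 0 B with hB | hB
  · rw [abs_of_nonneg hB] at h
    have hB' : 0 < B := by
      rcases hB.eq_or_lt with h0 | h0
      · rw [← h0] at h; linarith
      · exact h0
    refine ⟨(⌈A + u * B⌉ - A) / B, ?_, ?_, ⌈A + u * B⌉, ?_⟩
    · rw [le_div_iff₀ hB']
      have := Int.le_ceil (A + u * B)
      linarith
    · rw [div_le_iff₀ hB']
      have := Int.ceil_lt_add_one (A + u * B)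
      nlinarith
    · field_simp
      ring
  · rw [abs_of_neg hB] at h
    have hB0 : B ≠ 0 := hB.ne
    refine ⟨(⌈A + v * B⌉ - A) / B, ?_, ?_, ⌈A + v * B⌉, ?_⟩
    · rw [le_div_iff_of_neg hB]
      have := Int.ceil_lt_add_one (A + v * B)
      nlinarith
    · rw [div_le_iff_of_neg hB]
      have := Int.le_ceil (A + v * B)
      linarith
    · field_simp
      ring

/-- nested interval argument, finite stage -/
lemma nest (Q v : ℝ × ℝ) (a : ℕ) (hv : 0 < ‖v‖) (ha : 1 ≤ (M a : ℝ) * kap a * ‖v‖) (n : ℕ) :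
    ∃ x y : ℝ, 0 ≤ x ∧ x ≤ y ∧ y ≤ 1 ∧
      1 ≤ (M (a + n) : ℝ) * kap (a + n) * ((y - x) * ‖v‖) ∧
      ∀ τ, x ≤ τ → τ ≤ y → ∀ i, a ≤ i → i < a + n → kap i * ‖v‖ ≤ |v.1 + i * v.2| →
        D i (Q + τ • v) ≤ eta i := by
  induction n with
  | zero =>
    refine ⟨0, 1, le_rfl, zero_le_one, le_rfl, ?_, ?_⟩
    · simpa using ha
    · intro τ _ _ i h1 h2
      omega
  | succ n ih =>
    obtain ⟨x, y, hx, hxy, hy, hL, hgood⟩ := ih
    set j := a + n with hj
    have hj1 : a + (n + 1) = j + 1 := by omega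
    rw [hj1]
    by_cases hG : kap j * ‖v‖ ≤ |v.1 + j * v.2|
    · -- good level
      have hM := MR_pos j
      have hlen : 1 ≤ |(M j : ℝ) * (v.1 + j * v.2)| * (y - x) := by
        rw [abs_mul, abs_of_pos hM]
        have h1 : 0 ≤ (M j : ℝ) * (y - x) := mul_nonneg hM.le (by linarith)
        have h2 := mul_le_mul_of_nonneg_left hG h1
        nlinarith
      obtain ⟨τ0, h0x, h0y, m, hm⟩ := exists_int (N j Q) ((M j : ℝ) * (v.1 + j * v.2)) x y hxy hlen
      have hN : ∀ τ, N j (Q + τ • v) = N j Q + τ * ((M j : ℝ) * (v.1 + j * v.2)) := by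
        intro τ
        rw [N_add, N_smul]
        rfl
      -- the length of the subinterval
      set d : ℝ := eps j / ‖v‖ with hd
      have hdpos : 0 < d := div_pos (eps_pos j) hv
      have hdv : d * ‖v‖ = eps j := by rw [hd]; field_simp
      have hd_le : d ≤ y - x := by
        rw [hd, div_le_iff₀ hv]
        have h1 := eps_le j
        have h2 : 0 < (M j : ℝ) * kap j := mul_pos hM (kap_pos j)
        have h3 : (M j : ℝ) * kap j * eps j ≤ (M j : ℝ) * kap j * ((y - x) * ‖v‖) := h1.trans hL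
        exact le_of_mul_le_mul_left h3 h2
      -- choose the subinterval
      obtain ⟨x', h1, h2, h3, h4⟩ : ∃ x', x ≤ x' ∧ x' + d ≤ y ∧ x' ≤ τ0 ∧ τ0 ≤ x' + d := by
        rcases le_total (τ0 + d) y with h | h
        · exact ⟨τ0, h0x, h, le_rfl, by linarith⟩
        · exact ⟨y - d, by linarith, by linarith, by linarith, by linarith⟩
      refine ⟨x', x' + d, by linarith, by linarith, by linarith, ?_, ?_⟩
      · rw [show x' + d - x' = d by ring, hdv]
        exact (step_eps j).ge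
      · intro τ hτ1 hτ2 i hi1 hi2 hi3
        rcases Nat.lt_or_ge i j with h | h
        · exact hgood τ (by linarith) (by linarith) i hi1 h hi3
        · have hij : i = j := by omega
          rw [hij]
          unfold D
          refine (circ_le _ m).trans ?_
          rw [← hm, ← hN τ0]
          have h5 : N j (Q + τ • v) - N j (Q + τ0 • v) = N j ((τ - τ0) • v) := by
            rw [← N_sub]
            congr 1
            rw [sub_smul]
            abel
          rw [h5]
          refine (N_le _ _).trans ?_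
          rw [← eta_eq]
          refine mul_le_mul_of_nonneg_left ?_ (by positivity)
          rw [norm_smul, ← hdv]
          refine mul_le_mul_of_nonneg_right ?_ hv.le
          rw [Real.norm_eq_abs, abs_le]
          constructor <;> linarith
    · refine ⟨x, y, hx, hxy, hy, ?_, ?_⟩
      · refine hL.trans ?_
        refine mul_le_mul_of_nonneg_right (Mk_mono j) (mul_nonneg (by linarith) hv.le)
      · intro τ hτ1 hτ2 i hi1 hi2 hi3
        rcases Nat.lt_or_ge i j with h | h
        · exact hgood τ hτ1 hτ2 i hi1 h hi3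
        · have hij : i = j := by omega
          rw [hij] at hi3
          exact absurd hi3 hG

/-- nested interval argument -/
lemma nest_lim (Q v : ℝ × ℝ) (a : ℕ) (hv : 0 < ‖v‖) (ha : 1 ≤ (M a : ℝ) * kap a * ‖v‖) :
    ∃ τ : ℝ, 0 ≤ τ ∧ τ ≤ 1 ∧
      ∀ i, a ≤ i → kap i * ‖v‖ ≤ |v.1 + i * v.2| → D i (Q + τ • v) ≤ eta i := by
  let C : ℕ → Set ℝ := fun n => Icc (0 : ℝ) 1 ∩
    {τ | ∀ i, a ≤ i → i < a + n → kap i * ‖v‖ ≤ |v.1 + i * v.2| → D i (Q + τ • v) ≤ eta i}
  have hcl : ∀ n, IsClosed (C n) := by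
    intro n
    refine isClosed_Icc.inter ?_
    simp only [setOf_forall]
    refine isClosed_iInter fun i => isClosed_iInter fun _ => isClosed_iInter fun _ =>
      isClosed_iInter fun _ => ?_
    refine isClosed_le ((D_cont i).comp ?_) continuous_const
    fun_prop
  have hne : ∀ n, (C n).Nonempty := by
    intro n
    obtain ⟨x, y, hx, hxy, hy, _, h⟩ := nest Q v a hv ha n
    exact ⟨x, ⟨hx, hxy.trans hy⟩, fun i h1 h2 h3 => h x le_rfl hxy i h1 h2 h3⟩
  have hdec : ∀ n, C (n + 1) ⊆ C n := by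
    intro n τ hτ
    exact ⟨hτ.1, fun i h1 h2 h3 => hτ.2 i h1 (by omega) h3⟩
  have hcpt : IsCompact (C 0) := isCompact_Icc.of_isClosed_subset (hcl 0) inter_subset_left
  obtain ⟨τ, hτ⟩ := IsCompact.nonempty_iInter_of_sequence_nonempty_isCompact_isClosed C hdec hne
    hcpt hcl
  rw [mem_iInter] at hτ
  refine ⟨τ, (hτ 0).1.1, (hτ 0).1.2, fun i h1 h2 => ?_⟩
  exact (hτ (i + 1)).2 i h1 (by omega) h2

/-- at most one level is nearly parallel -/
lemma near_unique (v : ℝ × ℝ) (i j : ℕ) (hij : i < j)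
    (hi : |v.1 + i * v.2| < kap i * ‖v‖) (hj : |v.1 + j * v.2| < kap j * ‖v‖) : False := by
  have hij' : (i : ℝ) + 1 ≤ j := by exact_mod_cast hij
  have h0 : (0 : ℝ) ≤ i := Nat.cast_nonneg i
  have hnv : 0 ≤ ‖v‖ := norm_nonneg v
  have hkap : kap j ≤ kap i := by
    unfold kap
    apply one_div_le_one_div_of_le <;> linarith
  have hkj : kap j * ‖v‖ ≤ kap i * ‖v‖ := mul_le_mul_of_nonneg_right hkap hnv
  have hki : kap i * (2 * (i : ℝ) + 3) = 1 := by
    unfold kap
    field_simp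
  set k := kap i with hk
  have hkpos : 0 < k := kap_pos i
  set t := ‖v‖ with ht
  have h1 : |((j : ℝ) - i) * v.2| < 2 * (k * t) := by
    have : ((j : ℝ) - i) * v.2 = (v.1 + j * v.2) - (v.1 + i * v.2) := by ring
    rw [this]
    have := abs_sub (v.1 + j * v.2) (v.1 + i * v.2)
    linarith
  have h2 : |v.2| < 2 * (k * t) := by
    refine lt_of_le_of_lt ?_ h1
    rw [abs_mul]
    have : 1 ≤ |(j : ℝ) - i| := by
      rw [abs_of_pos (by linarith)]; linarith
    nlinarith [abs_nonneg v.2]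
  have h3 : |v.1| ≤ |v.1 + i * v.2| + i * |v.2| := by
    have h4 : v.1 = (v.1 + i * v.2) - i * v.2 := by ring
    calc |v.1| = |(v.1 + i * v.2) - i * v.2| := by rw [← h4]
      _ ≤ |v.1 + i * v.2| + |i * v.2| := abs_sub _ _
      _ = |v.1 + i * v.2| + i * |v.2| := by rw [abs_mul, Nat.abs_cast]
  have htpos : 0 < t := by
    have := abs_nonneg (v.1 + i * v.2)
    by_contra hc
    have : t = 0 := le_antisymm (not_lt.mp hc) hnv
    rw [this] at hi
    linarith [abs_nonneg (v.1 + i * v.2)]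
  have h5 : |v.2| < t := by nlinarith
  have h6 : |v.1| < t := by nlinarith [abs_nonneg v.2, mul_pos hkpos htpos]
  have h7 : t = max |v.1| |v.2| := by
    rw [ht, Prod.norm_def]; rfl
  have h8 : max |v.1| |v.2| < t := max_lt h6 h5
  linarith

end Pool.Agent.V11112.LS
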