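import Pool.Agent.V11112.LS1

/-!
# A compact set meeting every line, all of whose iterated sumsets are nowhere dense (part 2)

Chords of the unit square, meeting every line, and the sumsets.
-/

namespace Pool.Agent.V11112.LS

open Set

/-- the unit square -/
abbrev Sq : Set (ℝ × ℝ) := Icc (0 : ℝ) 1 ×ˢ Icc (0 : ℝ) 1

/-- The conclusion of the chord lemma. -/
def Chord (P w : ℝ × ℝ) : Prop :=
  ∃ Q v : ℝ × ℝ, (∀ τ : ℝ, 0 ≤ τ → τ ≤ 1 → Q + τ • v ∈ Sq ∧ ∃ σ : ℝ, Q + τ • v = P + σ • w) ∧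
    (1 ≤ ‖v‖ ∨ ∃ c1 c2 : ℤ, ∀ τ : ℝ, 0 ≤ τ → τ ≤ 1 →
      ‖Q + τ • v - ((c1 : ℝ), (c2 : ℝ))‖ ≤ ‖v‖)

lemma mem_Sq (x y : ℝ) : (x, y) ∈ Sq ↔ (0 ≤ x ∧ x ≤ 1) ∧ (0 ≤ y ∧ y ≤ 1) := by
  simp [Sq, Set.mem_prod]
  tauto

/-- chord lemma for graphs with slope in `[0,1]` -/
lemma chord_graph_pos (b m : ℝ) (hm0 : 0 ≤ m) (hm1 : m ≤ 1) (h : ∃ x, (x, b + m * x) ∈ Sq) :
    Chord (0, b) (1, m) := by
  obtain ⟨x0, hx0⟩ := h
  rw [mem_Sq] at hx0
  obtain ⟨⟨hx1, hx2⟩, hy1, hy2⟩ := hx0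
  have hmx : m * x0 ≤ m := by nlinarith
  have hmx0 : 0 ≤ m * x0 := mul_nonneg hm0 hx1
  -- generic: a chord over [p,q]
  have key : ∀ p q : ℝ, 0 ≤ p → p ≤ q → q ≤ 1 → 0 ≤ b + m * p → b + m * q ≤ 1 →
      ∀ τ : ℝ, 0 ≤ τ → τ ≤ 1 →
      ((p, b + m * p) : ℝ × ℝ) + τ • ((q - p, m * (q - p)) : ℝ × ℝ) ∈ Sq ∧
        ∃ σ : ℝ, ((p, b + m * p) : ℝ × ℝ) + τ • ((q - p, m * (q - p)) : ℝ × ℝ) =
          (0, b) + σ • ((1, m) : ℝ × ℝ) := by
    intro p q hp hpq hq hbp hbq τ h0 h1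
    have e1 : ((p, b + m * p) : ℝ × ℝ) + τ • ((q - p, m * (q - p)) : ℝ × ℝ) =
        (p + τ * (q - p), b + m * (p + τ * (q - p))) := by
      ext
      · simp
      · simp; ring
    rw [e1]
    have h2 : 0 ≤ τ * (q - p) := mul_nonneg h0 (by linarith)
    have h3 : τ * (q - p) ≤ q - p := by nlinarith
    refine ⟨?_, p + τ * (q - p), ?_⟩
    · rw [mem_Sq]
      refine ⟨⟨by linarith, by linarith⟩, ?_, ?_⟩
      · nlinarith
      · nlinarith
    · ext
      · simp
      · simp; ring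
  by_cases hb : 0 ≤ b
  · by_cases hbm : b + m ≤ 1
    · refine ⟨(0, b + m * 0), (1 - 0, m * (1 - 0)),
        key 0 1 le_rfl zero_le_one le_rfl (by linarith) (by linarith), Or.inl ?_⟩
      refine le_trans ?_ (norm_fst_le _)
      norm_num
    · push Not at hbm
      have hmpos : 0 < m := by nlinarith
      have hb1 : b ≤ 1 := by linarith
      set q := (1 - b) / m with hq
      have hqm : m * q = 1 - b := by rw [hq]; field_simp
      have hq0 : 0 ≤ q := div_nonneg (by linarith) hm0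
      have hq1 : q ≤ 1 := by rw [hq, div_le_one hmpos]; linarith
      refine ⟨(0, b + m * 0), (q - 0, m * (q - 0)),
        key 0 q le_rfl hq0 hq1 (by linarith) (by linarith), Or.inr ⟨0, 1, ?_⟩⟩
      intro τ h0 h1
      have hn : q ≤ ‖((q - 0, m * (q - 0)) : ℝ × ℝ)‖ := by
        refine le_trans ?_ (norm_fst_le _)
        rw [Real.norm_eq_abs]
        exact (le_abs_self _).trans' (by simp)
      refine le_trans ?_ hn
      have h2 : 0 ≤ τ * q := mul_nonneg h0 hq0
      have h3 : τ * q ≤ q := by nlinarith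
      rw [Prod.norm_def]
      refine max_le ?_ ?_
      · rw [Real.norm_eq_abs, abs_le]
        simp
        constructor <;> linarith
      · rw [Real.norm_eq_abs, abs_le]
        simp
        constructor <;> nlinarith
  · push Not at hb
    have hmpos : 0 < m := by nlinarith
    set p := (-b) / m with hp
    have hpm : m * p = -b := by rw [hp]; field_simp
    have hp0 : 0 ≤ p := div_nonneg (by linarith) hm0
    have hp1 : p ≤ 1 := by rw [hp, div_le_one hmpos]; linarith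
    refine ⟨(p, b + m * p), (1 - p, m * (1 - p)),
      key p 1 hp0 hp1 le_rfl (by linarith) (by linarith), Or.inr ⟨1, 0, ?_⟩⟩
    intro τ h0 h1
    have hn : 1 - p ≤ ‖((1 - p, m * (1 - p)) : ℝ × ℝ)‖ := by
      refine le_trans ?_ (norm_fst_le _)
      rw [Real.norm_eq_abs]
      exact (le_abs_self _)
    refine le_trans ?_ hn
    have h2 : 0 ≤ τ * (1 - p) := mul_nonneg h0 (by linarith)
    have h3 : τ * (1 - p) ≤ 1 - p := by nlinarith
    have h4 : 0 ≤ m * (τ * (1 - p)) := mul_nonneg hm0 h2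
    have h5 : m * (τ * (1 - p)) ≤ τ * (1 - p) := by nlinarith
    rw [Prod.norm_def]
    refine max_le ?_ ?_
    · rw [Real.norm_eq_abs, abs_le]
      simp
      constructor <;> linarith
    · rw [Real.norm_eq_abs, abs_le]
      simp
      constructor <;> nlinarith

/-- norm after reflecting the second coordinate -/
lemma norm_flip (x y : ℝ) : ‖((x, -y) : ℝ × ℝ)‖ = ‖((x, y) : ℝ × ℝ)‖ := by
  simp [Prod.norm_def]

lemma norm_swap (x y : ℝ) : ‖((y, x) : ℝ × ℝ)‖ = ‖((x, y) : ℝ × ℝ)‖ := by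
  simp [Prod.norm_def, max_comm]

/-- the chord lemma is invariant under reflection -/
lemma chord_flip (b m : ℝ) (h : Chord (0, 1 - b) (1, -m)) : Chord (0, b) (1, m) := by
  obtain ⟨⟨Q1, Q2⟩, ⟨v1, v2⟩, h1, h2⟩ := h
  refine ⟨(Q1, 1 - Q2), (v1, -v2), ?_, ?_⟩
  · intro τ h0 h1'
    obtain ⟨hS, σ, hσ⟩ := h1 τ h0 h1'
    have e1 : ((Q1, 1 - Q2) : ℝ × ℝ) + τ • ((v1, -v2) : ℝ × ℝ) =
        (Q1 + τ * v1, 1 - (Q2 + τ * v2)) := by
      ext <;> simp
      ring
    have e2 : ((Q1, Q2) : ℝ × ℝ) + τ • ((v1, v2) : ℝ × ℝ) = (Q1 + τ * v1, Q2 + τ * v2) := by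
      ext <;> simp
    rw [e2, mem_Sq] at hS
    rw [e2] at hσ
    have h3 := congrArg Prod.fst hσ
    have h4 := congrArg Prod.snd hσ
    simp at h3 h4
    refine ⟨?_, σ, ?_⟩
    · rw [e1, mem_Sq]
      refine ⟨hS.1, ?_, ?_⟩ <;> linarith [hS.2.1, hS.2.2]
    · rw [e1]
      ext
      · simp; linarith
      · simp; linarith
  · rw [norm_flip]
    rcases h2 with h2 | ⟨c1, c2, h2⟩
    · exact Or.inl h2
    · refine Or.inr ⟨c1, 1 - c2, fun τ h0 h1' => ?_⟩
      refine le_trans (le_of_eq ?_) (h2 τ h0 h1')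
      rw [← norm_flip]
      congr 1
      ext
      · simp
      · simp; ring

lemma chord_graph (b m : ℝ) (hm : |m| ≤ 1) (h : ∃ x, (x, b + m * x) ∈ Sq) :
    Chord (0, b) (1, m) := by
  rw [abs_le] at hm
  rcases le_total 0 m with h0 | h0
  · exact chord_graph_pos b m h0 hm.2 h
  · apply chord_flip
    apply chord_graph_pos (1 - b) (-m) (by linarith) (by linarith)
    obtain ⟨x, hx⟩ := h
    refine ⟨x, ?_⟩
    rw [mem_Sq] at hx ⊢
    refine ⟨hx.1, ?_, ?_⟩ <;> linarith [hx.2.1, hx.2.2]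

/-- chord lemma for flat lines -/
lemma chord_flat (P w : ℝ × ℝ) (hw : w ≠ 0) (hle : |w.2| ≤ |w.1|)
    (h : ∃ τ : ℝ, P + τ • w ∈ Sq) : Chord P w := by
  obtain ⟨P1, P2⟩ := P
  obtain ⟨w1, w2⟩ := w
  simp only at hle
  have hw1 : w1 ≠ 0 := by
    rintro rfl
    simp at hle
    apply hw
    simp [hle]
  set m := w2 / w1 with hm
  have hm2 : w2 = m * w1 := by rw [hm]; field_simp
  have hm1 : |m| ≤ 1 := by
    rw [hm, abs_div, div_le_one (abs_pos.mpr hw1)]
    exact hle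
  have hch : Chord (0, P2 - m * P1) (1, m) := by
    apply chord_graph _ _ hm1
    obtain ⟨τ, hτ⟩ := h
    refine ⟨P1 + τ * w1, ?_⟩
    have : ((P1, P2) : ℝ × ℝ) + τ • ((w1, w2) : ℝ × ℝ) =
        (P1 + τ * w1, P2 - m * P1 + m * (P1 + τ * w1)) := by
      ext
      · simp
      · simp [hm2]; ring
    rwa [this] at hτ
  obtain ⟨Q, v, h1, h2⟩ := hch
  refine ⟨Q, v, fun τ h0 h1' => ?_, h2⟩
  obtain ⟨hS, σ, hσ⟩ := h1 τ h0 h1'
  refine ⟨hS, (σ - P1) / w1, ?_⟩
  rw [hσ]
  ext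
  · simp
    field_simp
    ring
  · simp [hm2]
    field_simp
    ring

lemma chord_swap (P w : ℝ × ℝ) (h : Chord P.swap w.swap) : Chord P w := by
  obtain ⟨Q, v, h1, h2⟩ := h
  refine ⟨Q.swap, v.swap, fun τ h0 h1' => ?_, ?_⟩
  · obtain ⟨hS, σ, hσ⟩ := h1 τ h0 h1'
    refine ⟨?_, σ, ?_⟩
    · have : Q.swap + τ • v.swap = (Q + τ • v).swap := rfl
      rw [this]
      exact ⟨hS.2, hS.1⟩
    · have : Q.swap + τ • v.swap = (Q + τ • v).swap := rfl
      rw [this, hσ]
      rfl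
  · have hn : ‖v.swap‖ = ‖v‖ := norm_swap v.1 v.2
    rw [hn]
    rcases h2 with h2 | ⟨c1, c2, h2⟩
    · exact Or.inl h2
    · refine Or.inr ⟨c2, c1, fun τ h0 h1' => ?_⟩
      refine le_trans (le_of_eq ?_) (h2 τ h0 h1')
      exact norm_swap (Q.1 + τ • v.1 - c1) (Q.2 + τ • v.2 - c2)

/-- chord lemma -/
lemma chord (P w : ℝ × ℝ) (hw : w ≠ 0) (h : ∃ τ : ℝ, P + τ • w ∈ Sq) : Chord P w := by
  rcases le_total |w.2| |w.1| with hle | hle
  · exact chord_flat P w hw hle h
  · apply chord_swap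
    apply chord_flat P.swap w.swap
    · intro h0
      apply hw
      have := congrArg Prod.swap h0
      simpa using this
    · exact hle
    · obtain ⟨τ, hτ⟩ := h
      exact ⟨τ, hτ.2, hτ.1⟩

/-- if all the violated levels are among two given ones, the point is in `K` -/
lemma mem_K_of (p : ℝ × ℝ) (hp : p ∈ Sq) (a b : ℕ)
    (h : ∀ i, i ≠ a → i ≠ b → D i p ≤ eta i) : p ∈ K := by
  refine ⟨hp, fun T hT => ?_⟩
  by_contra hc
  push Not at hc
  have hsub : T ⊆ {a, b} := by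
    intro i hi
    by_contra hi2
    simp only [Finset.mem_insert, Finset.mem_singleton, not_or] at hi2
    exact absurd (h i hi2.1 hi2.2) (not_le.mpr (hc i hi))
  have := Finset.card_le_card hsub
  have h2 : ({a, b} : Finset ℕ).card ≤ 2 := Finset.card_le_two
  omega

lemma eps_tendsto (t : ℝ) (ht : 0 < t) : ∃ i, eps i < t := by
  obtain ⟨n, hn⟩ := exists_nat_gt (1 / t)
  refine ⟨n, ?_⟩
  have h1 : eps n ≤ 1 / ((n : ℝ) + 1) := by
    unfold eps
    apply one_div_le_one_div_of_le (by positivity)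
    have hM : (1 : ℝ) ≤ M n := by exact_mod_cast M_pos n
    have h2 : (0 : ℝ) ≤ n := Nat.cast_nonneg n
    have h3 : ((n : ℝ) + 1) ≤ ((n : ℝ) + 1) ^ 2 := by nlinarith
    nlinarith [mul_le_mul h3 hM (by norm_num) (by positivity)]
  refine h1.trans_lt ?_
  rw [div_lt_iff₀ (by positivity)]
  rw [div_lt_iff₀ ht] at hn
  nlinarith

lemma D_int (i : ℕ) (c1 c2 : ℤ) : D i ((c1 : ℝ), (c2 : ℝ)) = 0 := by
  refine le_antisymm ?_ (D_nonneg _ _)
  unfold D
  refine (circ_le _ ((M i : ℤ) * (c1 + i * c2))).trans ?_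
  simp [N]

/-- `K` meets every line that meets the square -/
theorem K_line (P w : ℝ × ℝ) (hw : w ≠ 0) (h : ∃ τ : ℝ, P + τ • w ∈ Sq) :
    ∃ τ : ℝ, P + τ • w ∈ K := by
  obtain ⟨Q, v, h1, h2⟩ := chord P w hw h
  suffices ∃ τ : ℝ, 0 ≤ τ ∧ τ ≤ 1 ∧ Q + τ • v ∈ K by
    obtain ⟨τ, h0, h1', hK⟩ := this
    obtain ⟨-, σ, hσ⟩ := h1 τ h0 h1'
    exact ⟨σ, hσ ▸ hK⟩
  -- the possibly nearly parallel level
  obtain ⟨s, hs⟩ : ∃ s : ℕ, ∀ i, i ≠ s → kap i * ‖v‖ ≤ |v.1 + i * v.2| := by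
    by_cases hex : ∃ s : ℕ, |v.1 + s * v.2| < kap s * ‖v‖
    · obtain ⟨s, hs⟩ := hex
      refine ⟨s, fun i his => ?_⟩
      by_contra hc
      push Not at hc
      rcases Nat.lt_or_gt_of_ne his with h | h
      · exact near_unique v i s h hc hs
      · exact near_unique v s i h hs hc
    · push Not at hex
      exact ⟨0, fun i _ => hex i⟩
  rcases h2 with h2 | ⟨c1, c2, h2⟩
  · -- long chord
    obtain ⟨τ, h0, h1', hτ⟩ := nest_lim Q v 0 (by linarith) (by
      rw [start0]; linarith)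
    refine ⟨τ, h0, h1', mem_K_of _ (h1 τ h0 h1').1 s s ?_⟩
    intro i hi _
    exact hτ i (Nat.zero_le _) (hs i hi)
  · rcases (norm_nonneg v).eq_or_lt with hv0 | hv0
    · -- a single point, which is a corner
      refine ⟨0, le_rfl, zero_le_one, mem_K_of _ (h1 0 le_rfl zero_le_one).1 0 0 ?_⟩
      intro i _ _
      have h3 := h2 0 le_rfl zero_le_one
      rw [← hv0] at h3
      have h4 : Q + (0 : ℝ) • v = ((c1 : ℝ), (c2 : ℝ)) := by
        rw [← sub_eq_zero]
        exact norm_le_zero_iff.mp h3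
      rw [h4, D_int]
      exact (eta_pos i).le
    · by_cases hv1 : 1 ≤ ‖v‖
      · obtain ⟨τ, h0, h1', hτ⟩ := nest_lim Q v 0 (by linarith) (by
          rw [start0]; linarith)
        refine ⟨τ, h0, h1', mem_K_of _ (h1 τ h0 h1').1 s s ?_⟩
        intro i hi _
        exact hτ i (Nat.zero_le _) (hs i hi)
      · classical
        have hex := eps_tendsto ‖v‖ hv0
        set j := Nat.find hex with hj
        have hjlt : eps j < ‖v‖ := Nat.find_spec hex
        have hjmin : ∀ i, i < j → ‖v‖ ≤ eps i := by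
          intro i hi
          have := Nat.find_min hex hi
          exact not_lt.mp this
        obtain ⟨τ, h0, h1', hτ⟩ := nest_lim Q v (j + 1) hv0 (by
          rw [← step_eps j]
          exact mul_le_mul_of_nonneg_left hjlt.le
            (mul_nonneg (MR_pos _).le (kap_pos _).le))
        refine ⟨τ, h0, h1', mem_K_of _ (h1 τ h0 h1').1 j s ?_⟩
        intro i hij his
        rcases Nat.lt_or_gt_of_ne hij with h | h
        · -- low level: close to the corner
          have h3 := h2 τ h0 h1'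
          set p := Q + τ • v with hp
          have h4 : D i p ≤ |N i (p - ((c1 : ℝ), (c2 : ℝ)))| := by
            unfold D
            refine (circ_le _ ((M i : ℤ) * (c1 + i * c2))).trans (le_of_eq ?_)
            rw [N_sub]
            congr 1
            simp [N]
          refine h4.trans ((N_le _ _).trans ?_)
          rw [← eta_eq]
          exact mul_le_mul_of_nonneg_left (h3.trans (hjmin i h)) (by positivity)
        · exact hτ i h (hs i his)

/-- sumsets -/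
def sumset (ℓ : ℕ) (K : Set (ℝ × ℝ)) : Set (ℝ × ℝ) :=
  {s | ∃ f : Fin ℓ → ℝ × ℝ, (∀ r, f r ∈ K) ∧ s = ∑ r, f r}

/-- the closed set containing the sumset -/
def F (ℓ : ℕ) : Set (ℝ × ℝ) :=
  {q | ∀ T : Finset ℕ, T.card = 2 * ℓ + 1 → ∃ i ∈ T, D i q ≤ ℓ * eta i}

lemma F_closed (ℓ : ℕ) : IsClosed (F ℓ) := by
  have : F ℓ = ⋂ (T : Finset ℕ), ⋂ (_ : T.card = 2 * ℓ + 1), ⋃ i ∈ T,
      {p | D i p ≤ ℓ * eta i} := by
    ext p
    simp [F]
  rw [this]
  refine isClosed_iInter fun T => isClosed_iInter fun _ => ?_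
  refine isClosed_biUnion_finset fun i _ => ?_
  exact isClosed_le (D_cont i) continuous_const

lemma sumset_sub_F (ℓ : ℕ) : sumset ℓ K ⊆ F ℓ := by
  classical
  rintro s ⟨f, hf, rfl⟩ T hT
  by_contra hc
  push Not at hc
  -- each level in T is violated by some summand
  have hex : ∀ i ∈ T, ∃ r : Fin ℓ, eta i < D i (f r) := by
    intro i hi
    by_contra hr
    push Not at hr
    have h1 := D_sum i Finset.univ f
    have h2 : ∑ r, D i (f r) ≤ ∑ _r : Fin ℓ, eta i := Finset.sum_le_sum fun r _ => hr r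
    simp only [Finset.sum_const, Finset.card_univ, Fintype.card_fin, nsmul_eq_mul] at h2
    have := hc i hi
    linarith
  have hℓ : 0 < ℓ := by
    have hne : T.Nonempty := by
      rw [← Finset.card_pos]; omega
    obtain ⟨i, hi⟩ := hne
    obtain ⟨r, -⟩ := hex i hi
    exact r.pos
  haveI : Nonempty (Fin ℓ) := ⟨⟨0, hℓ⟩⟩
  choose! g hg using hex
  obtain ⟨r, -, hr⟩ := Finset.exists_lt_card_fiber_of_mul_lt_card_of_maps_to
    (s := T) (t := (Finset.univ : Finset (Fin ℓ))) (f := g) (n := 2)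
    (fun _ _ => Finset.mem_univ _) (by
      simp only [Finset.card_univ, Fintype.card_fin]
      omega)
  obtain ⟨T', hT'1, hT'2⟩ := Finset.exists_subset_card_eq (s := T.filter fun x => g x = r) (n := 3)
    (by omega)
  obtain ⟨i, hi, hi2⟩ := (hf r).2 T' hT'2
  have h3 := hT'1 hi
  rw [Finset.mem_filter] at h3
  have h4 := hg i h3.1
  rw [h3.2] at h4
  linarith

/-- one density step -/
lemma dense_step (U : Set (ℝ × ℝ)) (hU : IsOpen U) (hne : U.Nonempty) (a : ℕ) :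
    ∃ i, a ≤ i ∧ (U ∩ {q | 1 / 4 < D i q}).Nonempty := by
  obtain ⟨q0, hq0⟩ := hne
  obtain ⟨r, hr, hball⟩ := Metric.isOpen_iff.mp hU q0 hq0
  obtain ⟨n, hn⟩ := exists_nat_gt (1 / r)
  set i := max a n with hi
  have hni : (n : ℝ) ≤ M i := by
    have h1 : n ≤ i := le_max_right _ _
    have h2 := M_ge i
    exact_mod_cast (by omega : n ≤ M i)
  have hM := MR_pos i
  refine ⟨i, le_max_left _ _, ?_⟩
  set s : ℝ := ((⌊N i q0⌋ : ℝ) + 1 / 2 - N i q0) / M i with hs
  have hsM : M i * s = (⌊N i q0⌋ : ℝ) + 1 / 2 - N i q0 := by rw [hs]; field_simp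
  have hsabs : |s| < r := by
    have h1 : |(M i : ℝ) * s| < 1 := by
      rw [hsM, abs_lt]
      have h2 := Int.floor_le (N i q0)
      have h3 := Int.lt_floor_add_one (N i q0)
      constructor <;> linarith
    rw [abs_mul, abs_of_pos hM] at h1
    rw [div_lt_iff₀ hr] at hn
    by_contra hc
    push Not at hc
    nlinarith
  refine ⟨q0 + (s, 0), ?_, ?_⟩
  · apply hball
    rw [Metric.mem_ball, dist_eq_norm]
    have : q0 + (s, 0) - q0 = ((s, 0) : ℝ × ℝ) := by abel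
    rw [this, Prod.norm_def]
    simpa using hsabs
  · simp only [mem_setOf_eq, D]
    have h1 : N i (q0 + (s, 0)) = (⌊N i q0⌋ : ℝ) + 1 / 2 := by
      rw [N_add]
      have : N i (s, 0) = M i * s := by simp [N]
      rw [this, hsM]
      ring
    rw [h1]
    have h2 : (((⌊N i q0⌋ : ℝ) + 1 / 2 : ℝ) : UnitAddCircle) = ((1 / 2 : ℝ) : UnitAddCircle) := by
      rw [AddCircle.coe_add]
      have : (((⌊N i q0⌋ : ℤ) : ℝ) : UnitAddCircle) = 0 := by
        rw [AddCircle.coe_eq_zero_iff]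
        exact ⟨⌊N i q0⌋, by simp⟩
      rw [this, zero_add]
    rw [h2]
    have h3 := AddCircle.norm_half_period_eq (p := (1 : ℝ))
    rw [h3]
    norm_num

/-- many violated levels in every open set -/
lemma dense_many (a n : ℕ) (U : Set (ℝ × ℝ)) (hU : IsOpen U) (hne : U.Nonempty) :
    ∃ T : Finset ℕ, T.card = n ∧ (∀ i ∈ T, a ≤ i) ∧
      (U ∩ {q | ∀ i ∈ T, 1 / 4 < D i q}).Nonempty := by
  induction n with
  | zero =>
    refine ⟨∅, rfl, by simp, ?_⟩
    obtain ⟨q, hq⟩ := hne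
    exact ⟨q, hq, by simp⟩
  | succ n ih =>
    obtain ⟨T, hT, hTa, hV⟩ := ih
    have hopen : IsOpen (U ∩ {q | ∀ i ∈ T, 1 / 4 < D i q}) := by
      refine hU.inter ?_
      have : {q | ∀ i ∈ T, 1 / 4 < D i q} = ⋂ i ∈ T, {q | 1 / 4 < D i q} := by
        ext q; simp
      rw [this]
      exact isOpen_biInter_finset fun i _ => isOpen_lt continuous_const (D_cont i)
    obtain ⟨i, hi, q, hq⟩ := dense_step _ hopen hV (max a (T.sup id + 1))
    have hiT : i ∉ T := by
      intro h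
      have := Finset.le_sup (f := id) h
      simp only [id] at this
      have h2 : T.sup id + 1 ≤ i := (le_max_right _ _).trans hi
      have h3 : T.sup id = T.sup fun x => x := rfl
      omega
    refine ⟨insert i T, ?_, ?_, q, hq.1.1, ?_⟩
    · rw [Finset.card_insert_of_notMem hiT, hT]
    · intro j hj
      rw [Finset.mem_insert] at hj
      rcases hj with rfl | hj
      · exact (le_max_left _ _).trans hi
      · exact hTa j hj
    · intro j hj
      rw [Finset.mem_insert] at hj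
      rcases hj with rfl | hj
      · exact hq.2
      · exact hq.1.2 j hj

lemma F_interior (ℓ : ℕ) : interior (F ℓ) = ∅ := by
  by_contra hne
  rw [← Ne, ← nonempty_iff_ne_empty] at hne
  obtain ⟨T, hT, hTa, q, hq, hq2⟩ := dense_many (4 * ℓ) (2 * ℓ + 1) _ isOpen_interior hne
  obtain ⟨i, hi, hi2⟩ := interior_subset hq T hT
  have h1 := hq2 i hi
  have h2 := hTa i hi
  have h3 : (4 * ℓ : ℝ) ≤ i := by exact_mod_cast h2
  have h4 : (ℓ : ℝ) * eta i ≤ 1 / 4 := by
    unfold eta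
    rw [mul_one_div, div_le_div_iff₀ (by positivity) (by norm_num)]
    linarith
  linarith

theorem sumset_nowhereDense (ℓ : ℕ) : IsNowhereDense (sumset ℓ K) := by
  have h1 : closure (sumset ℓ K) ⊆ F ℓ := closure_minimal (sumset_sub_F ℓ) (F_closed ℓ)
  unfold IsNowhereDense
  rw [← subset_empty_iff, ← F_interior ℓ]
  exact interior_mono h1

end Pool.Agent.V11112.LS
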