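import Mathlib

open Filter Topology
open scoped ENNReal NNReal

namespace Pool.Agent.V11112.LU

/-- the Lueroth map -/
noncomputable def lur (x : ℝ) : ℝ :=
  (⌊1 / x⌋₊ : ℝ) * ((⌊1 / x⌋₊ : ℝ) + 1) * x - (⌊1 / x⌋₊ : ℝ)

/-- branch index -/
noncomputable def br (x : ℝ) : ℕ := ⌊1 / x⌋₊

lemma lur_def (x : ℝ) : lur x = (br x : ℝ) * ((br x : ℝ) + 1) * x - (br x : ℝ) := rfl

lemma br_eq {x : ℝ} {N : ℕ} (hN : 1 ≤ N) (h1 : 1 / ((N : ℝ) + 1) < x) (h2 : x ≤ 1 / (N : ℝ)) :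
    br x = N := by
  have hN0 : (0 : ℝ) < N := by exact_mod_cast hN
  have hx : 0 < x := lt_trans (by positivity) h1
  unfold br
  rw [Nat.floor_eq_iff (by positivity)]
  constructor
  · rw [le_div_iff₀ hx]
    rw [le_div_iff₀ hN0] at h2
    linarith
  · rw [div_lt_iff₀ hx]
    rw [div_lt_iff₀ (by positivity)] at h1
    linarith

lemma br_pos {x : ℝ} (h0 : 0 < x) (h1 : x ≤ 1) : 1 ≤ br x := by
  unfold br
  rw [Nat.one_le_floor_iff]
  rw [le_div_iff₀ h0]
  linarith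

lemma br_bounds {x : ℝ} (h0 : 0 < x) (h1 : x ≤ 1) :
    1 / ((br x : ℝ) + 1) < x ∧ x ≤ 1 / (br x : ℝ) := by
  have hb := br_pos h0 h1
  have hb0 : (0 : ℝ) < br x := by exact_mod_cast hb
  have h2 : (br x : ℝ) ≤ 1 / x := Nat.floor_le (by positivity)
  have h3 : 1 / x < (br x : ℝ) + 1 := Nat.lt_floor_add_one _
  constructor
  · rw [div_lt_iff₀ (by positivity)]
    rw [div_lt_iff₀ h0] at h3
    linarith
  · rw [le_div_iff₀ hb0]
    rw [le_div_iff₀ h0] at h2
    linarith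

lemma lur_mem {x : ℝ} (h0 : 0 < x) (h1 : x ≤ 1) : 0 < lur x ∧ lur x ≤ 1 := by
  obtain ⟨h2, h3⟩ := br_bounds h0 h1
  have hb : (0 : ℝ) < br x := by exact_mod_cast br_pos h0 h1
  rw [div_lt_iff₀ (by positivity)] at h2
  rw [le_div_iff₀ hb] at h3
  rw [lur_def]
  constructor <;> nlinarith

lemma lur_inv {x : ℝ} (h0 : 0 < x) (h1 : x ≤ 1) :
    x = (lur x + br x) / ((br x : ℝ) * ((br x : ℝ) + 1)) := by
  have hb : (0 : ℝ) < br x := by exact_mod_cast br_pos h0 h1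
  rw [lur_def]
  field_simp
  ring

lemma iter_mem {x : ℝ} (h0 : 0 < x) (h1 : x ≤ 1) (n : ℕ) : 0 < lur^[n] x ∧ lur^[n] x ≤ 1 := by
  induction n with
  | zero => exact ⟨h0, h1⟩
  | succ n ih =>
    rw [Function.iterate_succ_apply']
    exact lur_mem ih.1 ih.2

lemma lur_of_gt {x : ℝ} (h : 1 / 2 < x) (h1 : x ≤ 1) : lur x = 2 * x - 1 := by
  have hb : br x = 1 := br_eq le_rfl (by norm_num; linarith) (by norm_num; exact h1)
  rw [lur_def, hb]
  push_cast
  ring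

lemma br_gt_iff {x : ℝ} (h0 : 0 < x) (h1 : x ≤ 1) : br x = 1 ↔ 1 / 2 < x := by
  constructor
  · intro h
    have := (br_bounds h0 h1).1
    rw [h] at this
    norm_num at this
    linarith
  · intro h
    exact br_eq le_rfl (by norm_num; linarith) (by norm_num; exact h1)

/-- factor of a branch -/
noncomputable def fac (N : ℕ) : ℝ := 1 / ((N : ℝ) * ((N : ℝ) + 1))

lemma fac_pos {N : ℕ} (h : 1 ≤ N) : 0 < fac N := by
  have : (0 : ℝ) < N := by exact_mod_cast h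
  unfold fac
  positivity

lemma sub_eq {x y : ℝ} (hx0 : 0 < x) (hx1 : x ≤ 1) (hy0 : 0 < y) (hy1 : y ≤ 1)
    (h : br x = br y) : |x - y| = fac (br x) * |lur x - lur y| := by
  have hb : (0 : ℝ) < br x := by exact_mod_cast br_pos hx0 hx1
  have hf := fac_pos (br_pos hx0 hx1)
  conv_lhs => rw [lur_inv hx0 hx1, lur_inv hy0 hy1, ← h]
  rw [← sub_div, add_sub_add_right_eq_sub, abs_div, abs_of_pos (by positivity :
    (0 : ℝ) < (br x : ℝ) * ((br x : ℝ) + 1))]
  unfold fac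
  rw [div_eq_mul_one_div, mul_comm]

/-- product of the factors -/
noncomputable def qq (b : ℕ → ℕ) (n : ℕ) : ℝ := ∏ i ∈ Finset.range n, fac (b i)

lemma iter_sub {x y : ℝ} (hx0 : 0 < x) (hx1 : x ≤ 1) (hy0 : 0 < y) (hy1 : y ≤ 1) (b : ℕ → ℕ)
    (n : ℕ) (hx : ∀ i < n, br (lur^[i] x) = b i) (hy : ∀ i < n, br (lur^[i] y) = b i) :
    |x - y| = qq b n * |lur^[n] x - lur^[n] y| := by
  induction n with
  | zero => simp [qq]
  | succ n ih =>
    have h1 := ih (fun i hi => hx i (by omega)) (fun i hi => hy i (by omega))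
    obtain ⟨a1, a2⟩ := iter_mem hx0 hx1 n
    obtain ⟨a3, a4⟩ := iter_mem hy0 hy1 n
    have h2 := sub_eq a1 a2 a3 a4 (by rw [hx n (by omega), hy n (by omega)])
    rw [h1, h2, hx n (by omega)]
    unfold qq
    rw [Finset.prod_range_succ, Function.iterate_succ_apply', Function.iterate_succ_apply']
    ring

/-! ### points with given digits -/

/-- tail of a digit sequence -/
def sh (b : ℕ → ℕ) : ℕ → ℕ := fun n => b (n + 1)

/-- point with given digits -/
noncomputable def Y (b : ℕ → ℕ) : ℝ := ∑' n, qq b n / ((b n : ℝ) + 1)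

lemma qq_pos {b : ℕ → ℕ} (hb : ∀ n, 1 ≤ b n) (n : ℕ) : 0 < qq b n :=
  Finset.prod_pos (fun i _ => fac_pos (hb i))

lemma qq_succ (b : ℕ → ℕ) (n : ℕ) : qq b (n + 1) = qq b n * fac (b n) :=
  Finset.prod_range_succ _ _

lemma qq_shift (b : ℕ → ℕ) (n : ℕ) : qq b (n + 1) = fac (b 0) * qq (sh b) n := by
  unfold qq sh
  rw [Finset.prod_range_succ']
  ring

lemma partial_bd {b : ℕ → ℕ} (hb : ∀ n, 1 ≤ b n) (N : ℕ) :
    ∑ n ∈ Finset.range N, qq b n / ((b n : ℝ) + 1) ≤ 1 - qq b N := by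
  induction N with
  | zero => simp [qq]
  | succ N ih =>
    rw [Finset.sum_range_succ, qq_succ]
    have hq := qq_pos hb N
    have hb0 : (1 : ℝ) ≤ b N := by exact_mod_cast hb N
    have h1 : qq b N / ((b N : ℝ) + 1) + qq b N * fac (b N) ≤ qq b N := by
      unfold fac
      have h2 : qq b N / ((b N : ℝ) + 1) + qq b N * (1 / ((b N : ℝ) * ((b N : ℝ) + 1))) =
        qq b N / (b N : ℝ) := by
        field_simp
      rw [h2, div_le_iff₀ (by positivity)]
      nlinarith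
    linarith

lemma Y_summable {b : ℕ → ℕ} (hb : ∀ n, 1 ≤ b n) :
    Summable (fun n => qq b n / ((b n : ℝ) + 1)) := by
  apply summable_of_sum_range_le (c := 1)
  · intro n
    have := qq_pos hb n
    positivity
  · intro n
    have h1 := partial_bd hb n
    have h2 := qq_pos hb n
    linarith

lemma Y_le {b : ℕ → ℕ} (hb : ∀ n, 1 ≤ b n) : Y b ≤ 1 := by
  apply Real.tsum_le_of_sum_range_le
  · intro n
    have := qq_pos hb n
    positivity
  · intro n
    have h1 := partial_bd hb n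
    have h2 := qq_pos hb n
    linarith

lemma Y_pos {b : ℕ → ℕ} (hb : ∀ n, 1 ≤ b n) : 0 < Y b := by
  apply (Y_summable hb).tsum_pos (i := 0)
  · intro n
    have := qq_pos hb n
    positivity
  · have := qq_pos hb 0
    positivity

lemma Y_eq {b : ℕ → ℕ} (hb : ∀ n, 1 ≤ b n) :
    Y b = (Y (sh b) + b 0) * fac (b 0) := by
  have h0 : (0 : ℝ) < b 0 := by exact_mod_cast hb 0
  unfold Y
  rw [(Y_summable hb).tsum_eq_zero_add]
  have h1 : ∀ n, qq b (n + 1) / ((b (n + 1) : ℝ) + 1) =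
      fac (b 0) * (qq (sh b) n / ((sh b n : ℝ) + 1)) := by
    intro n
    rw [qq_shift]
    unfold sh
    ring
  simp_rw [h1]
  rw [tsum_mul_left]
  have h2 : qq b 0 = 1 := by simp [qq]
  rw [h2]
  unfold fac
  field_simp
  ring

lemma br_Y {b : ℕ → ℕ} (hb : ∀ n, 1 ≤ b n) : br (Y b) = b 0 := by
  have h0 : (0 : ℝ) < b 0 := by exact_mod_cast hb 0
  have hs : ∀ n, 1 ≤ sh b n := fun n => hb (n + 1)
  have h1 := Y_pos hs
  have h2 := Y_le hs
  apply br_eq (hb 0)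
  · rw [Y_eq hb]
    unfold fac
    rw [mul_one_div, div_lt_div_iff₀ (by positivity) (by positivity)]
    nlinarith
  · rw [Y_eq hb]
    unfold fac
    rw [mul_one_div, div_le_div_iff₀ (by positivity) (by positivity)]
    nlinarith

lemma lur_Y {b : ℕ → ℕ} (hb : ∀ n, 1 ≤ b n) : lur (Y b) = Y (sh b) := by
  have h0 : (0 : ℝ) < b 0 := by exact_mod_cast hb 0
  rw [lur_def, br_Y hb, Y_eq hb]
  unfold fac
  field_simp
  ring

lemma iter_Y {b : ℕ → ℕ} (hb : ∀ n, 1 ≤ b n) (n : ℕ) :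
    lur^[n] (Y b) = Y (fun i => b (i + n)) := by
  induction n with
  | zero => rfl
  | succ n ih =>
    rw [Function.iterate_succ_apply', ih, lur_Y (fun i => hb (i + n))]
    congr 1
    funext i
    unfold sh
    congr 1
    ring

lemma br_iter_Y {b : ℕ → ℕ} (hb : ∀ n, 1 ≤ b n) (n : ℕ) : br (lur^[n] (Y b)) = b n := by
  rw [iter_Y hb, br_Y (fun i => hb (i + n))]
  simp

end Pool.Agent.V11112.LU
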