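import Pool.Agent.V11112.LU1

open Filter Topology
open scoped ENNReal NNReal

namespace Pool.Agent.V11112.LU

/-- asymptotic set -/
def AS (x : ℝ) : Set ℝ :=
  {y | 0 ≤ y ∧ y ≤ 1 ∧ Tendsto (fun n => |lur^[n] x - lur^[n] y|) atTop (𝓝 0)}

lemma lur_zero : lur 0 = 0 := by simp [lur]

lemma iter_zero (n : ℕ) : lur^[n] 0 = 0 := by
  induction n with
  | zero => rfl
  | succ n ih => rw [Function.iterate_succ_apply', ih, lur_zero]

lemma as_digits {x y : ℝ} (hx0 : 0 < x) (hx1 : x ≤ 1) (hy : y ∈ AS x) :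
    ∃ n0, ∀ n, n0 ≤ n → 1 / 2 < lur^[n] x → 1 / 2 < lur^[n] y := by
  obtain ⟨hy0, hy1, ht⟩ := hy
  obtain ⟨n0, hn0⟩ := Metric.tendsto_atTop.1 ht (1 / 16) (by norm_num)
  refine ⟨n0, fun n hn hxn => ?_⟩
  have h1 := hn0 n hn
  have h2 := hn0 (n + 1) (by omega)
  rw [Real.dist_eq, sub_zero, abs_abs] at h1 h2
  rcases eq_or_lt_of_le hy0 with h | h
  · exfalso
    rw [← h, iter_zero, sub_zero, abs_lt] at h1
    linarith [h1.2]
  · by_contra hc
    push Not at hc
    obtain ⟨a1, a2⟩ := iter_mem h hy1 n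
    obtain ⟨a3, a4⟩ := iter_mem hx0 hx1 n
    rw [abs_lt] at h1
    have hb : br (lur^[n] y) = 2 := by
      apply br_eq (by norm_num)
      · push_cast; linarith [h1.1, h1.2]
      · push_cast; exact hc
    rw [Function.iterate_succ_apply', Function.iterate_succ_apply', lur_of_gt hxn a4,
      lur_def (lur^[n] y), hb, abs_lt] at h2
    push_cast at h2
    linarith [h1.1, h1.2, h2.1, h2.2]

lemma fac_le_one (N : ℕ) : fac N ≤ 1 := by
  unfold fac
  rcases Nat.eq_zero_or_pos N with h | h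
  · subst h; simp
  · have : (1 : ℝ) ≤ N := by exact_mod_cast h
    rw [div_le_one (by positivity)]
    nlinarith

lemma fac_nonneg (N : ℕ) : 0 ≤ fac N := by unfold fac; positivity

/-- inverse branch -/
noncomputable def ph (N : ℕ) (z : ℝ) : ℝ := (z + N) * fac N

lemma ph_lip (N : ℕ) : LipschitzWith 1 (ph N) := by
  apply LipschitzWith.of_dist_le_mul
  intro z w
  rw [Real.dist_eq, Real.dist_eq]
  unfold ph
  rw [← sub_mul, add_sub_add_right_eq_sub, abs_mul, abs_of_nonneg (fac_nonneg N)]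
  have h1 := fac_le_one N
  have h2 := abs_nonneg (z - w)
  simp only [NNReal.coe_one, one_mul]
  nlinarith

lemma dim_pre (S : Set ℝ) : dimH {y : ℝ | (0 < y ∧ y ≤ 1) ∧ lur y ∈ S} ≤ dimH S := by
  have h1 : {y : ℝ | (0 < y ∧ y ≤ 1) ∧ lur y ∈ S} ⊆ ⋃ N : ℕ, ph N '' S := by
    rintro y ⟨⟨h0, h1⟩, hS⟩
    refine Set.mem_iUnion.2 ⟨br y, lur y, hS, ?_⟩
    have := lur_inv h0 h1
    unfold ph fac
    rw [mul_one_div]
    exact this.symm
  refine (dimH_mono h1).trans ?_
  rw [dimH_iUnion]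
  exact iSup_le fun N => (ph_lip N).dimH_image_le S

lemma dim_pre_iter (S : Set ℝ) (n : ℕ) :
    dimH {y : ℝ | (0 < y ∧ y ≤ 1) ∧ lur^[n] y ∈ S} ≤ dimH S := by
  induction n with
  | zero => exact dimH_mono (fun y hy => hy.2)
  | succ n ih =>
    refine le_trans ?_ ih
    refine le_trans (dimH_mono ?_) (dim_pre {y : ℝ | (0 < y ∧ y ≤ 1) ∧ lur^[n] y ∈ S})
    rintro y ⟨⟨h0, h1⟩, hS⟩
    exact ⟨⟨h0, h1⟩, lur_mem h0 h1, hS⟩

/-- points whose digits are trivial outside the special positions `u k + k` -/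
def GG (u : ℕ → ℕ) : Set ℝ :=
  {z | (0 < z ∧ z ≤ 1) ∧ ∀ n, (∀ k, n ≠ u k + k) → 1 / 2 < lur^[n] z}

/-- special digits -/
noncomputable def MM (u : ℕ → ℕ) (y : ℝ) (k : ℕ) : ℕ := br (lur^[u k + k] y)

lemma MM_pos {u : ℕ → ℕ} {y : ℝ} (hy : y ∈ GG u) (k : ℕ) : 1 ≤ MM u y k := by
  obtain ⟨a, b⟩ := iter_mem hy.1.1 hy.1.2 (u k + k)
  exact br_pos a b

lemma br_nonspecial {u : ℕ → ℕ} {y : ℝ} (hy : y ∈ GG u) {n : ℕ} (hn : ∀ k, n ≠ u k + k) :
    br (lur^[n] y) = 1 := by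
  obtain ⟨a, b⟩ := iter_mem hy.1.1 hy.1.2 n
  exact (br_gt_iff a b).2 (hy.2 n hn)

lemma prod_digits {u : ℕ → ℕ} (hu : StrictMono u) {y : ℝ} (hy : y ∈ GG u) (k : ℕ) :
    qq (fun n => br (lur^[n] y)) (u k + k) =
      (1 / 2) ^ (u k) * ∏ i ∈ Finset.range k, fac (MM u y i) := by
  have f1 : fac 1 = 1 / 2 := by unfold fac; norm_num
  have gen : ∀ a l : ℕ, (∀ n, a ≤ n → n < a + l → ∀ k, n ≠ u k + k) →
      qq (fun n => br (lur^[n] y)) (a + l) = qq (fun n => br (lur^[n] y)) a * (1 / 2) ^ l := by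
    intro a l
    induction l with
    | zero => intro _; simp
    | succ l ih =>
      intro h
      rw [← add_assoc, qq_succ, ih (fun n h1 h2 => h n h1 (by omega)),
        br_nonspecial hy (h (a + l) (by omega) (by omega)), f1, pow_succ]
      ring
  induction k with
  | zero =>
    have h1 : ∀ n, 0 ≤ n → n < 0 + u 0 → ∀ k, n ≠ u k + k := by
      intro n _ h2 k h3
      have : u 0 ≤ u k := hu.monotone (Nat.zero_le k)
      omega
    have := gen 0 (u 0) h1
    simp only [zero_add] at this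
    simp only [add_zero, Finset.range_zero, Finset.prod_empty, mul_one]
    rw [this]
    simp [qq]
  | succ k ih =>
    have h0 : u k < u (k + 1) := hu (Nat.lt_succ_self k)
    have h1 : ∀ n, u k + k + 1 ≤ n → n < u k + k + 1 + (u (k + 1) - u k) →
        ∀ l, n ≠ u l + l := by
      intro n h2 h3 l h4
      rcases le_or_gt l k with h5 | h5
      · have : u l ≤ u k := hu.monotone h5
        omega
      · have : u (k + 1) ≤ u l := hu.monotone h5
        omega
    have h2 : u (k + 1) + (k + 1) = u k + k + 1 + (u (k + 1) - u k) := by omega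
    have h3 : u (k + 1) = u k + (u (k + 1) - u k) := by omega
    rw [h2, gen _ _ h1, qq_succ, ih, Finset.prod_range_succ]
    conv_rhs => rw [h3, pow_add]
    unfold MM
    ring

lemma digits_agree {u : ℕ → ℕ} (hu : StrictMono u) {x y : ℝ} (hx : x ∈ GG u) (hy : y ∈ GG u)
    {k : ℕ} (h : ∀ i < k, MM u x i = MM u y i) (n : ℕ) (hn : n < u k + k) :
    br (lur^[n] x) = br (lur^[n] y) := by
  by_cases hs : ∃ i, n = u i + i
  · obtain ⟨i, rfl⟩ := hs
    have hik : i < k := by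
      by_contra hc
      push Not at hc
      have : u k ≤ u i := hu.monotone hc
      omega
    exact h i hik
  · push Not at hs
    rw [br_nonspecial hx hs, br_nonspecial hy hs]

lemma dist_digits {u : ℕ → ℕ} (hu : StrictMono u) {x y : ℝ} (hx : x ∈ GG u) (hy : y ∈ GG u)
    {k : ℕ} (h : ∀ i < k, MM u x i = MM u y i) :
    |x - y| = (1 / 2) ^ (u k) * (∏ i ∈ Finset.range k, fac (MM u y i)) *
      |lur^[u k + k] x - lur^[u k + k] y| := by
  rw [← prod_digits hu hy k]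
  exact iter_sub hx.1.1 hx.1.2 hy.1.1 hy.1.2 (fun n => br (lur^[n] y)) (u k + k)
    (fun i hi => digits_agree hu hx hy h i hi) (fun i _ => rfl)

end Pool.Agent.V11112.LU
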