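import Pool.Agent.V11112.LU2

open Filter Topology
open scoped ENNReal NNReal

namespace Pool.Agent.V11112.LU

/-- product of the special digits -/
noncomputable def WW (u : ℕ → ℕ) (y : ℝ) (k : ℕ) : ℝ := ∏ i ∈ Finset.range k, (MM u y i : ℝ)

lemma WW_ge {u : ℕ → ℕ} {y : ℝ} (hy : y ∈ GG u) (k : ℕ) : 1 ≤ WW u y k := by
  unfold WW
  induction k with
  | zero => simp
  | succ k ih =>
    rw [Finset.prod_range_succ]
    have h1 : (1 : ℝ) ≤ MM u y k := by exact_mod_cast MM_pos hy k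
    nlinarith

lemma WW_succ (u : ℕ → ℕ) (y : ℝ) (k : ℕ) : WW u y (k + 1) = WW u y k * MM u y k :=
  Finset.prod_range_succ _ _

lemma inf_often {u : ℕ → ℕ} {ρ c σ : ℝ} (hρ : 1 < ρ) (hc : 0 < c)
    (hu : ∀ᶠ k in atTop, c * ρ ^ k ≤ u k) (h2 : 2 < σ) (hσ : σ < ρ + 1) {y : ℝ}
    (hy : y ∈ GG u) (K : ℕ) :
    ∃ k, K ≤ k ∧ (WW u y k) ^ (σ - 2) ≤ 2 ^ (u k) * (MM u y k : ℝ) := by
  by_contra hcon
  push Not at hcon
  have hlog2 : 0 < Real.log 2 := Real.log_pos (by norm_num)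
  obtain ⟨Λ, hΛ⟩ : ∃ Λ : ℕ → ℝ, ∀ k, Λ k = Real.log (WW u y k) := ⟨_, fun _ => rfl⟩
  have hΛ0 : ∀ k, 0 ≤ Λ k := fun k => by rw [hΛ]; exact Real.log_nonneg (WW_ge hy k)
  have hM : ∀ k, (1 : ℝ) ≤ MM u y k := fun k => by exact_mod_cast MM_pos hy k
  have key : ∀ k, K ≤ k → (u k : ℝ) * Real.log 2 + Real.log (MM u y k) ≤ (σ - 2) * Λ k := by
    intro k hk
    have h1 := hcon k hk
    have hW := WW_ge hy k
    have hMk := hM k
    have h3 := Real.log_le_log (by positivity) h1.le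
    rw [Real.log_mul (by positivity) (by positivity), Real.log_pow, Real.log_rpow (by linarith)]
      at h3
    rw [hΛ]
    exact h3
  have hstep : ∀ k, K ≤ k → Λ (k + 1) ≤ (σ - 1) * Λ k := by
    intro k hk
    have h1 := key k hk
    have hW := WW_ge hy k
    have hMk := hM k
    have h3 : Λ (k + 1) = Λ k + Real.log (MM u y k) := by
      rw [hΛ, hΛ, WW_succ, Real.log_mul (by linarith) (by linarith)]
    have h4 : 0 ≤ (u k : ℝ) * Real.log 2 := by positivity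
    rw [h3]
    nlinarith
  have hiter : ∀ i, Λ (K + i) ≤ (σ - 1) ^ i * Λ K := by
    intro i
    induction i with
    | zero => simp
    | succ i ih =>
      have h1 := hstep (K + i) (by omega)
      rw [← add_assoc]
      calc Λ (K + i + 1) ≤ (σ - 1) * Λ (K + i) := h1
        _ ≤ (σ - 1) * ((σ - 1) ^ i * Λ K) := by
          apply mul_le_mul_of_nonneg_left ih
          linarith
        _ = (σ - 1) ^ (i + 1) * Λ K := by ring
  have hu1 : ∀ i, (u (K + i) : ℝ) * Real.log 2 ≤ (σ - 2) * ((σ - 1) ^ i * Λ K) := by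
    intro i
    have h1 := key (K + i) (by omega)
    have h3 : 0 ≤ Real.log (MM u y (K + i)) := Real.log_nonneg (hM _)
    calc (u (K + i) : ℝ) * Real.log 2 ≤ (σ - 2) * Λ (K + i) := by linarith
      _ ≤ _ := by
        apply mul_le_mul_of_nonneg_left (hiter i)
        linarith
  have hlim : Tendsto (fun i : ℕ => (σ - 2) * Λ K * ((σ - 1) / ρ) ^ i) atTop
      (𝓝 ((σ - 2) * Λ K * 0)) := by
    apply Tendsto.const_mul
    apply tendsto_pow_atTop_nhds_zero_of_lt_one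
    · apply div_nonneg <;> linarith
    · rw [div_lt_one (by linarith)]
      linarith
  rw [mul_zero] at hlim
  have hpos : 0 < c * ρ ^ K * Real.log 2 := by positivity
  have hev : ∀ᶠ i : ℕ in atTop, c * ρ ^ K * Real.log 2 ≤ (σ - 2) * Λ K * ((σ - 1) / ρ) ^ i := by
    have h1 : ∀ᶠ i : ℕ in atTop, c * ρ ^ (K + i) ≤ u (K + i) := by
      have : Tendsto (fun i : ℕ => K + i) atTop atTop :=
        tendsto_atTop_mono (fun i => Nat.le_add_left i K) tendsto_id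
      exact this.eventually hu
    filter_upwards [h1] with i hi
    have h3 := hu1 i
    have hρi : 0 < ρ ^ i := by positivity
    rw [div_pow, mul_div_assoc', le_div_iff₀ hρi]
    calc c * ρ ^ K * Real.log 2 * ρ ^ i = c * ρ ^ (K + i) * Real.log 2 := by
          rw [pow_add]; ring
      _ ≤ u (K + i) * Real.log 2 := by gcongr
      _ ≤ (σ - 2) * ((σ - 1) ^ i * Λ K) := h3
      _ = (σ - 2) * Λ K * (σ - 1) ^ i := by ring
  have := ge_of_tendsto hlim hev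
  linarith

/-- pieces of the cover -/
def JJ (u : ℕ → ℕ) (σ : ℝ) (k : ℕ) (m : Fin k → ℕ) : Set ℝ :=
  {y | y ∈ GG u ∧ (∀ i : Fin k, MM u y i = m i + 1) ∧
    (WW u y k) ^ (σ - 2) ≤ 2 ^ (u k) * (MM u y k : ℝ)}

lemma fac_le_sq {N : ℕ} (h : 1 ≤ N) : fac N ≤ ((N : ℝ) ^ 2)⁻¹ := by
  have : (1 : ℝ) ≤ N := by exact_mod_cast h
  unfold fac
  rw [one_div]
  apply inv_anti₀ (by positivity)
  nlinarith

lemma JJ_dist {u : ℕ → ℕ} (hu : StrictMono u) {σ η : ℝ} (h2 : 2 < σ) (hη0 : 0 < η) (hη1 : η < 1)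
    {k : ℕ} {m : Fin k → ℕ} {x y : ℝ} (hx : x ∈ JJ u σ k m) (hy : y ∈ JJ u σ k m) :
    |x - y| ≤ (∏ i, ((m i : ℝ) + 1)) ^ (-(σ * (1 - η))) * ((1 / 2) ^ η) ^ (u k) := by
  obtain ⟨hxG, hxm, hxc⟩ := hx
  obtain ⟨hyG, hym, hyc⟩ := hy
  have hW : ∀ w : ℝ, (∀ i : Fin k, MM u w i = m i + 1) → WW u w k = ∏ i, ((m i : ℝ) + 1) := by
    intro w hw
    unfold WW
    rw [Finset.prod_range]
    apply Finset.prod_congr rfl
    intro i _
    rw [hw i]
    push_cast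
    ring
  obtain ⟨P, hP⟩ : ∃ P : ℝ, P = ∏ i, ((m i : ℝ) + 1) := ⟨_, rfl⟩
  have hPx : WW u x k = P := by rw [hW x hxm, hP]
  have hPy : WW u y k = P := by rw [hW y hym, hP]
  have hP1 : 1 ≤ P := by rw [← hPy]; exact WW_ge hyG k
  have hP0 : 0 < P := by linarith
  rw [hPx] at hxc
  rw [hPy] at hyc
  have hfac : ∏ i ∈ Finset.range k, fac (MM u y i) ≤ (P ^ 2)⁻¹ := by
    rw [← hPy]
    unfold WW
    rw [← Finset.prod_pow, ← Finset.prod_inv_distrib]
    apply Finset.prod_le_prod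
    · intro i _
      exact fac_nonneg _
    · intro i _
      exact fac_le_sq (MM_pos hyG i)
  have hfac0 : 0 ≤ ∏ i ∈ Finset.range k, fac (MM u y i) :=
    Finset.prod_nonneg (fun i _ => fac_nonneg _)
  have hd := dist_digits hu hxG hyG (k := k) (fun i hi => by
    rw [hxm ⟨i, hi⟩, hym ⟨i, hi⟩])
  obtain ⟨a1, a2⟩ := iter_mem hxG.1.1 hxG.1.2 (u k + k)
  obtain ⟨a3, a4⟩ := iter_mem hyG.1.1 hyG.1.2 (u k + k)
  have hzle : ∀ w : ℝ, w ∈ GG u → P ^ (σ - 2) ≤ 2 ^ (u k) * (MM u w k : ℝ) →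
      lur^[u k + k] w ≤ 2 ^ (u k) * P ^ (-(σ - 2)) := by
    intro w hw hc
    obtain ⟨b1, b2⟩ := iter_mem hw.1.1 hw.1.2 (u k + k)
    have h3 := (br_bounds b1 b2).2
    have h4 : (1 : ℝ) ≤ MM u w k := by exact_mod_cast MM_pos hw k
    refine h3.trans ?_
    change 1 / (MM u w k : ℝ) ≤ _
    rw [Real.rpow_neg hP0.le, div_le_iff₀ (by linarith)]
    have h5 : 0 < P ^ (σ - 2) := Real.rpow_pos_of_pos hP0 _
    calc (1 : ℝ) = P ^ (σ - 2) * (P ^ (σ - 2))⁻¹ := by field_simp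
      _ ≤ (2 ^ (u k) * (MM u w k : ℝ)) * (P ^ (σ - 2))⁻¹ := by gcongr
      _ = _ := by ring
  have hdz : |lur^[u k + k] x - lur^[u k + k] y| ≤ 2 ^ (u k) * P ^ (-(σ - 2)) := by
    have h3 := hzle x hxG hxc
    have h4 := hzle y hyG hyc
    rw [abs_le]
    constructor <;> linarith
  have hdz1 : |lur^[u k + k] x - lur^[u k + k] y| ≤ 1 := by
    rw [abs_le]
    constructor <;> linarith
  have hD0 := abs_nonneg (x - y)
  have hhalf : (0 : ℝ) < (1 / 2) ^ (u k) := by positivity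
  have hz0 := abs_nonneg (lur^[u k + k] x - lur^[u k + k] y)
  have hD1 : |x - y| ≤ P ^ (-σ) := by
    rw [hd]
    calc (1 / 2) ^ (u k) * (∏ i ∈ Finset.range k, fac (MM u y i)) *
          |lur^[u k + k] x - lur^[u k + k] y|
        ≤ (1 / 2) ^ (u k) * (P ^ 2)⁻¹ * (2 ^ (u k) * P ^ (-(σ - 2))) := by gcongr
      _ = ((1 / 2) ^ (u k) * 2 ^ (u k)) * ((P ^ 2)⁻¹ * P ^ (-(σ - 2))) := by ring
      _ = P ^ (-σ) := by
        have e1 : ((1 : ℝ) / 2) ^ (u k) * 2 ^ (u k) = 1 := by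
          rw [← mul_pow]; norm_num
        have e2 : (P ^ 2)⁻¹ = P ^ (-(2 : ℝ)) := by
          rw [Real.rpow_neg hP0.le]
          norm_num
        rw [e1, one_mul, e2, ← Real.rpow_add hP0]
        congr 1
        ring
  have hD2 : |x - y| ≤ (1 / 2) ^ (u k) := by
    rw [hd]
    have h3 : ∏ i ∈ Finset.range k, fac (MM u y i) ≤ 1 := by
      refine hfac.trans ?_
      apply inv_le_one_of_one_le₀
      nlinarith
    calc (1 / 2) ^ (u k) * (∏ i ∈ Finset.range k, fac (MM u y i)) *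
          |lur^[u k + k] x - lur^[u k + k] y|
        ≤ (1 / 2) ^ (u k) * 1 * 1 := by gcongr
      _ = _ := by ring
  have e3 : |x - y| = |x - y| ^ (1 - η) * |x - y| ^ η := by
    rw [← Real.rpow_add' hD0 (by linarith)]
    simp
  rw [e3, ← hP]
  have h6 : |x - y| ^ (1 - η) ≤ P ^ (-(σ * (1 - η))) := by
    calc |x - y| ^ (1 - η) ≤ (P ^ (-σ)) ^ (1 - η) :=
          Real.rpow_le_rpow hD0 hD1 (by linarith)
      _ = P ^ (-(σ * (1 - η))) := by
        rw [← Real.rpow_mul hP0.le]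
        congr 1
        ring
  have h7 : |x - y| ^ η ≤ ((1 / 2) ^ η) ^ (u k) := by
    calc |x - y| ^ η ≤ ((1 / 2) ^ (u k)) ^ η := Real.rpow_le_rpow hD0 hD2 hη0.le
      _ = ((1 / 2) ^ η) ^ (u k) := by
        rw [← Real.rpow_natCast, ← Real.rpow_mul (by norm_num), mul_comm, Real.rpow_mul (by norm_num),
          Real.rpow_natCast]
  exact mul_le_mul h6 h7 (by positivity) (by positivity)

lemma tsum_pi_pow (a : ℕ → ℝ≥0∞) (k : ℕ) :
    ∑' m : Fin k → ℕ, ∏ i, a (m i) = (∑' n, a n) ^ k := by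
  induction k with
  | zero => simp
  | succ k ih =>
    rw [← (Fin.consEquiv (fun _ : Fin (k + 1) => ℕ)).tsum_eq]
    have h1 : ∀ c : ℕ × (Fin k → ℕ),
        ∏ i, a ((Fin.consEquiv (fun _ : Fin (k + 1) => ℕ)) c i) = a c.1 * ∏ i, a (c.2 i) := by
      intro c
      rw [Fin.prod_univ_succ]
      simp [Fin.consEquiv]
    rw [tsum_congr h1, ENNReal.tsum_prod (f := fun n (m : Fin k → ℕ) => a n * ∏ i, a (m i))]
    simp_rw [ENNReal.tsum_mul_left, ih, ENNReal.tsum_mul_right]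
    rw [pow_succ, mul_comm]

end Pool.Agent.V11112.LU
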