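import Pool.Agent.V11112.LU3

open Filter Topology
open scoped ENNReal NNReal

namespace Pool.Agent.V11112.LU

lemma eventually_lin {u : ℕ → ℕ} {ρ c : ℝ} (hρ : 1 < ρ) (hc : 0 < c)
    (hu : ∀ᶠ k in atTop, c * ρ ^ k ≤ u k) (T : ℕ) : ∀ᶠ k in atTop, k * T ≤ u k := by
  have h1 : Tendsto (fun k : ℕ => (k : ℝ) ^ 1 / ρ ^ k) atTop (𝓝 0) :=
    tendsto_pow_const_div_const_pow_of_one_lt 1 hρ
  have h2 : ∀ᶠ k : ℕ in atTop, (k : ℝ) ^ 1 / ρ ^ k < c / ((T : ℝ) + 1) :=
    h1.eventually_lt_const (by positivity)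
  filter_upwards [h2, hu] with k h3 h4
  have hρk : 0 < ρ ^ k := by positivity
  rw [pow_one, div_lt_div_iff₀ hρk (by positivity)] at h3
  have h5 : (k : ℝ) * T ≤ u k := by
    have hk : (0 : ℝ) ≤ k := by positivity
    nlinarith
  exact_mod_cast h5

theorem dim_GG_le {u : ℕ → ℕ} (hu : StrictMono u) {ρ c : ℝ} (hρ : 1 < ρ) (hc : 0 < c)
    (hgrow : ∀ᶠ k in atTop, c * ρ ^ k ≤ u k) {s : ℝ≥0} (hs : 1 / (ρ + 1) < s)
    (hs2 : (s : ℝ) < 1 / 2) : dimH (GG u) ≤ s := by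
  have hs0 : (0 : ℝ) < s := lt_trans (by positivity) hs
  obtain ⟨σ, hσ1, hσ2⟩ : ∃ σ : ℝ, 1 / (s : ℝ) < σ ∧ σ < ρ + 1 := by
    apply exists_between
    rw [div_lt_iff₀ hs0]
    rw [div_lt_iff₀ (by linarith)] at hs
    linarith
  have h2σ : 2 < σ := by
    refine lt_of_le_of_lt ?_ hσ1
    rw [le_div_iff₀ hs0]
    linarith
  have hσ0 : 0 < σ := by linarith
  have hsσ : 1 < (s : ℝ) * σ := by
    rw [div_lt_iff₀ hs0] at hσ1
    linarith
  obtain ⟨η, hη⟩ : ∃ η : ℝ, η = ((s : ℝ) * σ - 1) / (2 * (s * σ)) := ⟨_, rfl⟩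
  have hη0 : 0 < η := by rw [hη]; apply div_pos <;> linarith
  have hη1 : η < 1 := by rw [hη, div_lt_one (by linarith)]; linarith
  obtain ⟨κ, hκ⟩ : ∃ κ : ℝ, κ = σ * (1 - η) * s := ⟨_, rfl⟩
  have hκ1 : 1 < κ := by
    have : κ = ((s : ℝ) * σ + 1) / 2 := by
      rw [hκ, hη]
      field_simp
      ring
    rw [this]
    linarith
  obtain ⟨θ, hθ⟩ : ∃ θ : ℝ, θ = ((1 / 2) ^ η) ^ (s : ℝ) := ⟨_, rfl⟩
  have hh0 : (0 : ℝ) < (1 / 2) ^ η := by positivity
  have hh1 : ((1 : ℝ) / 2) ^ η < 1 := Real.rpow_lt_one (by norm_num) (by norm_num) hη0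
  have hθ0 : 0 < θ := by rw [hθ]; positivity
  have hθ1 : θ < 1 := by rw [hθ]; exact Real.rpow_lt_one hh0.le hh1 hs0
  obtain ⟨a, ha⟩ : ∃ a : ℕ → ℝ≥0∞, ∀ n, a n = ENNReal.ofReal (((n : ℝ) + 1) ^ (-κ)) :=
    ⟨_, fun _ => rfl⟩
  have hsum : Summable (fun n : ℕ => ((n : ℝ) + 1) ^ (-κ)) := by
    have h1 : Summable (fun n : ℕ => (n : ℝ) ^ (-κ)) := Real.summable_nat_rpow.2 (by linarith)
    have h2 := (summable_nat_add_iff 1).2 h1
    simpa using h2
  obtain ⟨A, hA⟩ : ∃ A : ℝ, A = ∑' n : ℕ, ((n : ℝ) + 1) ^ (-κ) := ⟨_, rfl⟩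
  have hA0 : 0 ≤ A := by rw [hA]; exact tsum_nonneg (fun n => by positivity)
  have haA : ∑' n, a n = ENNReal.ofReal A := by
    rw [hA, ENNReal.ofReal_tsum_of_nonneg (fun n => by positivity) hsum]
    exact tsum_congr ha
  obtain ⟨g, hg⟩ : ∃ g : ℕ → ℝ≥0∞, ∀ k, g k = ENNReal.ofReal A ^ k * ENNReal.ofReal (θ ^ (u k)) :=
    ⟨_, fun _ => rfl⟩
  have hgs : ∑' k, g k ≠ ∞ := by
    have h1 : Summable (fun k => A ^ k * θ ^ (u k)) := by
      obtain ⟨T, hT⟩ : ∃ T : ℕ, A * θ ^ T ≤ 1 / 2 := by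
        have h2 : Tendsto (fun T : ℕ => A * θ ^ T) atTop (𝓝 (A * 0)) :=
          (tendsto_pow_atTop_nhds_zero_of_lt_one hθ0.le hθ1).const_mul A
        rw [mul_zero] at h2
        obtain ⟨T, hT⟩ := (h2.eventually_lt_const (by norm_num : (0 : ℝ) < 1 / 2)).exists
        exact ⟨T, hT.le⟩
      refine Summable.of_norm_bounded_eventually_nat (g := fun k => (1 / 2 : ℝ) ^ k)
        (summable_geometric_of_lt_one (by norm_num) (by norm_num)) ?_
      filter_upwards [eventually_lin hρ hc hgrow T] with k hk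
      rw [Real.norm_eq_abs, abs_of_nonneg (by positivity)]
      calc A ^ k * θ ^ (u k) ≤ A ^ k * θ ^ (k * T) := by
            gcongr A ^ k * ?_
            exact pow_le_pow_of_le_one hθ0.le hθ1.le hk
        _ = (A * θ ^ T) ^ k := by rw [mul_pow, ← pow_mul, mul_comm k T]
        _ ≤ (1 / 2) ^ k := by gcongr
    have h3 : ∀ k, g k = ENNReal.ofReal (A ^ k * θ ^ (u k)) := by
      intro k
      rw [hg, ENNReal.ofReal_mul (by positivity), ENNReal.ofReal_pow hA0]
    rw [tsum_congr h3, ← ENNReal.ofReal_tsum_of_nonneg (fun k => by positivity) h1]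
    exact ENNReal.ofReal_ne_top
  apply dimH_le_of_hausdorffMeasure_ne_top
  have hP1 : ∀ (k : ℕ) (m : Fin k → ℕ), 1 ≤ ∏ i, ((m i : ℝ) + 1) := by
    intro k m
    have h1 : ∏ i : Fin k, (1 : ℝ) ≤ ∏ i, ((m i : ℝ) + 1) := by
      apply Finset.prod_le_prod
      · intro i _; norm_num
      · intro i _
        have : (0 : ℝ) ≤ m i := by positivity
        linarith
    simpa using h1
  have hdiam : ∀ (k : ℕ) (m : Fin k → ℕ), Metric.ediam (JJ u σ k m) ≤
      ENNReal.ofReal ((∏ i, ((m i : ℝ) + 1)) ^ (-(σ * (1 - η))) * ((1 / 2) ^ η) ^ (u k)) := by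
    intro k m
    apply Metric.ediam_le
    intro x hx y hy
    rw [edist_dist, Real.dist_eq]
    exact ENNReal.ofReal_le_ofReal (JJ_dist hu h2σ hη0 hη1 hx hy)
  have hr : Tendsto (fun K => ENNReal.ofReal (((1 / 2) ^ η) ^ (u K))) atTop (𝓝 0) := by
    rw [← ENNReal.ofReal_zero]
    apply (ENNReal.continuous_ofReal.tendsto 0).comp
    exact (tendsto_pow_atTop_nhds_zero_of_lt_one hh0.le hh1).comp hu.tendsto_atTop
  have hmain := MeasureTheory.Measure.hausdorffMeasure_le_liminf_tsum (s : ℝ) (GG u) (l := atTop)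
    (ι := fun K : ℕ => (Σ k : ℕ, (Fin (k + K) → ℕ)))
    (fun K => ENNReal.ofReal (((1 / 2) ^ η) ^ (u K))) hr
    (fun K i => JJ u σ (i.1 + K) i.2)
    (Eventually.of_forall fun K i => by
      refine (hdiam _ _).trans (ENNReal.ofReal_le_ofReal ?_)
      have h1 : (∏ j, ((i.2 j : ℝ) + 1)) ^ (-(σ * (1 - η))) ≤ 1 := by
        apply Real.rpow_le_one_of_one_le_of_nonpos (hP1 _ _)
        have : 0 < σ * (1 - η) := mul_pos hσ0 (by linarith)
        linarith
      have h2 : (((1 : ℝ) / 2) ^ η) ^ (u (i.1 + K)) ≤ ((1 / 2) ^ η) ^ (u K) :=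
        pow_le_pow_of_le_one hh0.le hh1.le (hu.monotone (Nat.le_add_left _ _))
      calc (∏ j, ((i.2 j : ℝ) + 1)) ^ (-(σ * (1 - η))) * ((1 / 2) ^ η) ^ (u (i.1 + K))
          ≤ 1 * ((1 / 2) ^ η) ^ (u K) := by
            apply mul_le_mul h1 h2 (by positivity) (by norm_num)
        _ = _ := one_mul _)
    (Eventually.of_forall fun K => by
      intro y hy
      obtain ⟨k, hk, hcond⟩ := inf_often hρ hc hgrow h2σ hσ2 hy K
      obtain ⟨k', rfl⟩ := Nat.exists_eq_add_of_le' hk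
      refine Set.mem_iUnion.2 ⟨⟨k', fun i => MM u y i - 1⟩, hy, ?_, hcond⟩
      intro i
      have := MM_pos hy (i : ℕ)
      simp only
      omega)
  have hlim : liminf (fun K => ∑' i : (Σ k : ℕ, (Fin (k + K) → ℕ)),
      Metric.ediam (JJ u σ (i.1 + K) i.2) ^ (s : ℝ)) atTop ≤ 0 := by
    have h1 := ENNReal.tendsto_sum_nat_add g hgs
    rw [← h1.liminf_eq]
    refine liminf_le_liminf (Eventually.of_forall fun K => ?_)
    rw [ENNReal.tsum_sigma (f := fun k (m : Fin (k + K) → ℕ) =>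
      Metric.ediam (JJ u σ (k + K) m) ^ (s : ℝ))]
    apply ENNReal.tsum_le_tsum
    intro k
    calc ∑' m : Fin (k + K) → ℕ, Metric.ediam (JJ u σ (k + K) m) ^ (s : ℝ)
        ≤ ∑' m : Fin (k + K) → ℕ, (∏ i, a (m i)) * ENNReal.ofReal (θ ^ (u (k + K))) := by
          apply ENNReal.tsum_le_tsum
          intro m
          have hPm := hP1 (k + K) m
          have hP0 : 0 < ∏ i, ((m i : ℝ) + 1) := by linarith
          calc Metric.ediam (JJ u σ (k + K) m) ^ (s : ℝ)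
              ≤ (ENNReal.ofReal ((∏ i, ((m i : ℝ) + 1)) ^ (-(σ * (1 - η))) *
                  ((1 / 2) ^ η) ^ (u (k + K)))) ^ (s : ℝ) :=
                ENNReal.rpow_le_rpow (hdiam _ _) hs0.le
            _ = ENNReal.ofReal (((∏ i, ((m i : ℝ) + 1)) ^ (-(σ * (1 - η))) *
                  ((1 / 2) ^ η) ^ (u (k + K))) ^ (s : ℝ)) := by
                rw [ENNReal.ofReal_rpow_of_nonneg (by positivity) hs0.le]
            _ = ENNReal.ofReal ((∏ i, ((m i : ℝ) + 1) ^ (-κ)) * θ ^ (u (k + K))) := by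
                congr 1
                rw [Real.mul_rpow (by positivity) (by positivity)]
                congr 1
                · rw [← Real.rpow_mul hP0.le, hκ,
                    ← Real.finset_prod_rpow _ _ (fun i _ => by positivity)]
                  congr 1
                  ring
                · rw [hθ, ← Real.rpow_natCast, ← Real.rpow_mul hh0.le, mul_comm,
                    Real.rpow_mul hh0.le, Real.rpow_natCast]
            _ = (∏ i, a (m i)) * ENNReal.ofReal (θ ^ (u (k + K))) := by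
                rw [ENNReal.ofReal_mul (Finset.prod_nonneg (fun i _ => by positivity)),
                  ENNReal.ofReal_prod_of_nonneg (fun i _ => by positivity)]
                congr 1
                exact Finset.prod_congr rfl (fun i _ => (ha _).symm)
      _ = g (k + K) := by
          rw [ENNReal.tsum_mul_right, tsum_pi_pow, haA, hg]
  have : MeasureTheory.Measure.hausdorffMeasure (s : ℝ) (GG u) ≤ 0 := hmain.trans hlim
  have h0 := nonpos_iff_eq_zero.1 this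
  rw [h0]
  simp

end Pool.Agent.V11112.LU
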