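import Pool.Agent.V11112.LU4

open Filter Topology
open scoped ENNReal NNReal

namespace Pool.Agent.V11112.LU

/-- trivial digits before the special position `k` -/
noncomputable def uu (ρ : ℝ) (k : ℕ) : ℕ := ⌊ρ ^ k⌋₊ + k
/-- dyadic scales of the special digits -/
noncomputable def CC (ρ : ℝ) (k : ℕ) : ℕ := ⌊(k : ℝ) * ρ ^ k⌋₊

section
variable {ρ : ℝ} (hρ : 1 < ρ)
include hρ

lemma uu_mono : StrictMono (uu ρ) := by
  apply strictMono_nat_of_lt_succ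
  intro k
  unfold uu
  have h1 : ⌊ρ ^ k⌋₊ ≤ ⌊ρ ^ (k + 1)⌋₊ := by
    apply Nat.floor_mono
    exact pow_le_pow_right₀ hρ.le (Nat.le_succ k)
  omega

lemma CC_mono : Monotone (CC ρ) := by
  apply monotone_nat_of_le_succ
  intro k
  unfold CC
  apply Nat.floor_mono
  have h1 : ρ ^ k ≤ ρ ^ (k + 1) := pow_le_pow_right₀ hρ.le (Nat.le_succ k)
  have h2 : (0 : ℝ) < ρ ^ k := by positivity
  push_cast
  nlinarith

lemma CC_le (k : ℕ) : (CC ρ k : ℝ) ≤ k * ρ ^ k := by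
  unfold CC
  exact Nat.floor_le (by positivity)

lemma le_CC (k : ℕ) : k * ρ ^ k - 1 ≤ (CC ρ k : ℝ) := by
  unfold CC
  have := Nat.lt_floor_add_one ((k : ℝ) * ρ ^ k)
  linarith

lemma uu_le (k : ℕ) : (uu ρ k : ℝ) ≤ ρ ^ k + k := by
  unfold uu
  push_cast
  have := Nat.floor_le (by positivity : (0 : ℝ) ≤ ρ ^ k)
  linarith

lemma le_uu (k : ℕ) : ρ ^ k - 1 ≤ (uu ρ k : ℝ) := by
  unfold uu
  push_cast
  have := Nat.lt_floor_add_one (ρ ^ k)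
  have h2 : (0 : ℝ) ≤ k := by positivity
  linarith

end

/-- offset digits of a real number -/
noncomputable def dg (ρ r : ℝ) (k : ℕ) : ℕ :=
  ⌊r * 2 ^ (CC ρ (k + 1))⌋₊ - 2 ^ (CC ρ (k + 1) - CC ρ k) * ⌊r * 2 ^ (CC ρ k)⌋₊

lemma dg_add {ρ : ℝ} (hρ : 1 < ρ) {r : ℝ} (hr : 0 ≤ r) (k : ℕ) :
    ⌊r * 2 ^ (CC ρ (k + 1))⌋₊ = dg ρ r k + 2 ^ (CC ρ (k + 1) - CC ρ k) * ⌊r * 2 ^ (CC ρ k)⌋₊ := by
  have hmono := CC_mono hρ (Nat.le_succ k)
  obtain ⟨c, hc⟩ := Nat.exists_eq_add_of_le hmono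
  have hc' : CC ρ (k + 1) = CC ρ k + c := hc
  unfold dg
  rw [hc', Nat.add_sub_cancel_left]
  have h1 : 2 ^ c * ⌊r * 2 ^ (CC ρ k)⌋₊ ≤ ⌊r * 2 ^ (CC ρ k + c)⌋₊ := by
    apply Nat.le_floor
    push_cast
    have h2 : (⌊r * 2 ^ (CC ρ k)⌋₊ : ℝ) ≤ r * 2 ^ (CC ρ k) := Nat.floor_le (by positivity)
    rw [pow_add]
    have h3 : (0 : ℝ) < 2 ^ c := by positivity
    nlinarith
  omega

lemma dg_lt {ρ : ℝ} (hρ : 1 < ρ) {r : ℝ} (hr : 0 ≤ r) (k : ℕ) :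
    dg ρ r k < 2 ^ (CC ρ (k + 1) - CC ρ k) := by
  have hmono := CC_mono hρ (Nat.le_succ k)
  obtain ⟨c, hc⟩ := Nat.exists_eq_add_of_le hmono
  have hc' : CC ρ (k + 1) = CC ρ k + c := hc
  have h0 := dg_add hρ hr k
  rw [hc', Nat.add_sub_cancel_left] at h0 ⊢
  have h1 : ⌊r * 2 ^ (CC ρ k + c)⌋₊ < 2 ^ c * (⌊r * 2 ^ (CC ρ k)⌋₊ + 1) := by
    rw [Nat.floor_lt (by positivity)]
    push_cast
    have h2 : r * 2 ^ (CC ρ k) < (⌊r * 2 ^ (CC ρ k)⌋₊ : ℝ) + 1 := Nat.lt_floor_add_one _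
    rw [pow_add]
    have h3 : (0 : ℝ) < 2 ^ c := by positivity
    nlinarith
  rw [mul_add, mul_one] at h1
  omega

/-- special digits -/
noncomputable def Ms (ρ r : ℝ) (k : ℕ) : ℕ := 2 ^ (CC ρ (k + 1) - CC ρ k) + dg ρ r k

/-- all digits -/
noncomputable def bb (ρ r : ℝ) : ℕ → ℕ :=
  Function.extend (fun k => uu ρ k + k) (Ms ρ r) (fun _ => 1)

lemma sp_mono {u : ℕ → ℕ} (hu : StrictMono u) : StrictMono (fun k => u k + k) := by
  intro a b h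
  have := hu h
  simp only
  omega

lemma bb_special {ρ : ℝ} (hρ : 1 < ρ) (r : ℝ) (k : ℕ) : bb ρ r (uu ρ k + k) = Ms ρ r k :=
  (sp_mono (uu_mono hρ)).injective.extend_apply _ _ k

lemma bb_nonspecial (ρ r : ℝ) {n : ℕ} (h : ∀ k, n ≠ uu ρ k + k) : bb ρ r n = 1 := by
  unfold bb
  apply Function.extend_apply'
  rintro ⟨k, hk⟩
  exact h k hk.symm

lemma bb_pos {ρ : ℝ} (hρ : 1 < ρ) (r : ℝ) (n : ℕ) : 1 ≤ bb ρ r n := by
  by_cases h : ∃ k, n = uu ρ k + k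
  · obtain ⟨k, rfl⟩ := h
    rw [bb_special hρ]
    unfold Ms
    have : 1 ≤ 2 ^ (CC ρ (k + 1) - CC ρ k) := Nat.one_le_two_pow
    omega
  · push Not at h
    rw [bb_nonspecial ρ r h]

/-- the point attached to `r` -/
noncomputable def yr (ρ r : ℝ) : ℝ := Y (bb ρ r)

lemma yr_mem {ρ : ℝ} (hρ : 1 < ρ) (r : ℝ) : yr ρ r ∈ GG (uu ρ) := by
  have hb := bb_pos hρ r
  refine ⟨⟨Y_pos hb, Y_le hb⟩, fun n hn => ?_⟩
  obtain ⟨a, b⟩ := iter_mem (Y_pos hb) (Y_le hb) n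
  refine (br_gt_iff a b).1 ?_
  rw [br_iter_Y hb, bb_nonspecial ρ r hn]

lemma MM_yr {ρ : ℝ} (hρ : 1 < ρ) (r : ℝ) (k : ℕ) : MM (uu ρ) (yr ρ r) k = Ms ρ r k := by
  unfold MM yr
  rw [br_iter_Y (bb_pos hρ r), bb_special hρ]

/-- asymptotic points -/
lemma as_of_digits {u : ℕ → ℕ} (hu : StrictMono u) {x y : ℝ} (hx : x ∈ GG u) (hy : y ∈ GG u)
    (hMx : Tendsto (fun k => (MM u x k : ℝ)) atTop atTop)
    (hMy : Tendsto (fun k => (MM u y k : ℝ)) atTop atTop) : y ∈ AS x := by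
  refine ⟨hy.1.1.le, hy.1.2, ?_⟩
  rw [Metric.tendsto_atTop]
  intro ε hε
  obtain ⟨K, hK⟩ := ((hMx.eventually_gt_atTop (1 / ε)).and
    (hMy.eventually_gt_atTop (1 / ε))).exists_forall_of_atTop
  refine ⟨u K + K, fun n hn => ?_⟩
  rw [Real.dist_eq, sub_zero, abs_abs]
  have hex : ∃ k, n ≤ u k + k := ⟨n, by omega⟩
  obtain ⟨k, hk⟩ : ∃ k, k = Nat.find hex := ⟨_, rfl⟩
  have hk1 : n ≤ u k + k := by rw [hk]; exact Nat.find_spec hex
  have hk2 : ∀ j < k, ¬ n ≤ u j + j := by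
    intro j hj
    rw [hk] at hj
    exact Nat.find_min hex hj
  have hKk : K ≤ k := by
    by_contra hc
    push Not at hc
    have : u k + k < u K + K := sp_mono hu hc
    omega
  have hns : ∀ i, i < u k + k - n → ∀ l, n + i ≠ u l + l := by
    intro i hi l hl
    rcases lt_or_ge l k with h | h
    · exact hk2 l h (by omega)
    · have : u k + k ≤ u l + l := (sp_mono hu).monotone h
      omega
  obtain ⟨a1, a2⟩ := iter_mem hx.1.1 hx.1.2 n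
  obtain ⟨a3, a4⟩ := iter_mem hy.1.1 hy.1.2 n
  have h1 := iter_sub a1 a2 a3 a4 (fun _ => 1) (u k + k - n)
    (fun i hi => by
      rw [← Function.iterate_add_apply, add_comm]
      exact br_nonspecial hx (hns i hi))
    (fun i hi => by
      rw [← Function.iterate_add_apply, add_comm]
      exact br_nonspecial hy (hns i hi))
  rw [← Function.iterate_add_apply, ← Function.iterate_add_apply, Nat.sub_add_cancel hk1] at h1
  rw [h1]
  have hq : qq (fun _ => 1) (u k + k - n) ≤ 1 := by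
    unfold qq
    apply Finset.prod_le_one
    · intro i _; exact fac_nonneg _
    · intro i _; exact fac_le_one _
  have hq0 : 0 ≤ qq (fun _ => 1) (u k + k - n) := Finset.prod_nonneg (fun i _ => fac_nonneg _)
  have hz : ∀ w ∈ GG u, 1 / ε < (MM u w k : ℝ) → lur^[u k + k] w < ε := by
    intro w hw hM
    obtain ⟨b1, b2⟩ := iter_mem hw.1.1 hw.1.2 (u k + k)
    have h3 := (br_bounds b1 b2).2
    refine lt_of_le_of_lt h3 ?_
    change 1 / (MM u w k : ℝ) < ε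
    have h4 : (0 : ℝ) < MM u w k := lt_trans (by positivity) hM
    rw [div_lt_iff₀ hε] at hM
    rw [div_lt_iff₀ h4]
    linarith
  have hzx := hz x hx (hK k hKk).1
  have hzy := hz y hy (hK k hKk).2
  obtain ⟨c1, c2⟩ := iter_mem hx.1.1 hx.1.2 (u k + k)
  obtain ⟨c3, c4⟩ := iter_mem hy.1.1 hy.1.2 (u k + k)
  have hd : |lur^[u k + k] x - lur^[u k + k] y| < ε := by
    rw [abs_lt]
    constructor <;> linarith
  have hd0 := abs_nonneg (lur^[u k + k] x - lur^[u k + k] y)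
  nlinarith

lemma Ms_tendsto {ρ : ℝ} (hρ : 1 < ρ) (r : ℝ) :
    Tendsto (fun k => (Ms ρ r k : ℝ)) atTop atTop := by
  have h1 : Tendsto (fun k : ℕ => ρ ^ k) atTop atTop := tendsto_pow_atTop_atTop_of_one_lt hρ
  have h2 : Tendsto (fun k : ℕ => ρ ^ k - 1) atTop atTop := tendsto_atTop_add_const_right _ _ h1
  refine tendsto_atTop_mono (fun k => ?_) h2
  have h3 := le_CC hρ (k + 1)
  have h4 := CC_le hρ k
  have h5 : ρ ^ k - 1 ≤ (CC ρ (k + 1) : ℝ) - CC ρ k := by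
    push_cast at h3
    have h6 : ρ ^ k ≤ ρ ^ (k + 1) := pow_le_pow_right₀ hρ.le (Nat.le_succ k)
    have h7 : (k : ℝ) * ρ ^ k ≤ k * ρ ^ (k + 1) :=
      mul_le_mul_of_nonneg_left h6 (by positivity)
    linarith
  have h6 : ((CC ρ (k + 1) - CC ρ k : ℕ) : ℝ) = (CC ρ (k + 1) : ℝ) - CC ρ k := by
    rw [Nat.cast_sub (CC_mono hρ (Nat.le_succ k))]
  have h7 : CC ρ (k + 1) - CC ρ k ≤ Ms ρ r k := by
    unfold Ms
    have : CC ρ (k + 1) - CC ρ k < 2 ^ (CC ρ (k + 1) - CC ρ k) := Nat.lt_two_pow_self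
    omega
  have h8 : ((CC ρ (k + 1) - CC ρ k : ℕ) : ℝ) ≤ Ms ρ r k := by exact_mod_cast h7
  linarith

lemma yr_as {ρ : ℝ} (hρ : 1 < ρ) (r r' : ℝ) : yr ρ r' ∈ AS (yr ρ r) := by
  apply as_of_digits (uu_mono hρ) (yr_mem hρ r) (yr_mem hρ r')
  · simp_rw [MM_yr hρ]; exact Ms_tendsto hρ r
  · simp_rw [MM_yr hρ]; exact Ms_tendsto hρ r'

/-- separation of the points in terms of digits -/
lemma sep {z z' : ℝ} (hz0 : 0 < z) (hz1 : z ≤ 1) (hz0' : 0 < z') (hz1' : z' ≤ 1)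
    (hw : 1 / 2 < lur z) {D A : ℝ} (hD : 1 ≤ D) (hM' : (br z' : ℝ) = br z + D)
    (hA1 : (br z : ℝ) ≤ 2 * A) (hA2 : (br z' : ℝ) ≤ 2 * A) : D / (8 * A ^ 2) ≤ z - z' := by
  have hM : (1 : ℝ) ≤ br z := by exact_mod_cast br_pos hz0 hz1
  have h1 := lur_inv hz0 hz1
  have h2 := (br_bounds hz0' hz1').2
  rw [hM'] at h2 hA2
  obtain ⟨M, hMd⟩ : ∃ M : ℝ, M = br z := ⟨_, rfl⟩
  rw [← hMd] at h1 h2 hA1 hA2 hM
  have h3 : (1 / 2 + M) / (M * (M + 1)) ≤ z := by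
    rw [h1]
    gcongr
  have hA0 : 0 < A := by linarith
  have h4 : D / (2 * (M * (M + D))) ≤ (1 / 2 + M) / (M * (M + 1)) - 1 / (M + D) := by
    have e : (1 / 2 + M) / (M * (M + 1)) - 1 / (M + D) - D / (2 * (M * (M + D))) =
        (M * (D - 1)) / (2 * M * (M + 1) * (M + D)) := by
      field_simp
      ring
    have h5 : 0 ≤ (M * (D - 1)) / (2 * M * (M + 1) * (M + D)) := by
      apply div_nonneg
      · nlinarith
      · positivity
    linarith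
  have h6 : D / (8 * A ^ 2) ≤ D / (2 * (M * (M + D))) := by
    apply div_le_div_of_nonneg_left (by linarith) (by positivity)
    nlinarith
  linarith

end Pool.Agent.V11112.LU
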