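import Pool.Agent.V11112.LU5

open Filter Topology
open scoped ENNReal NNReal

namespace Pool.Agent.V11112.LU

lemma CC_zero (ρ : ℝ) : CC ρ 0 = 0 := by simp [CC]

lemma first_diff {ρ : ℝ} (hρ : 1 < ρ) {r r' : ℝ} (hr : 0 ≤ r) (hlt : r < r') (hr' : r' < 1) :
    ∃ k, ⌊r * 2 ^ (CC ρ k)⌋₊ = ⌊r' * 2 ^ (CC ρ k)⌋₊ ∧
      ⌊r * 2 ^ (CC ρ (k + 1))⌋₊ < ⌊r' * 2 ^ (CC ρ (k + 1))⌋₊ ∧
      ∀ i < k, dg ρ r i = dg ρ r' i := by
  have hr0' : 0 ≤ r' := by linarith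
  have hmono : ∀ K, ⌊r * 2 ^ (CC ρ K)⌋₊ ≤ ⌊r' * 2 ^ (CC ρ K)⌋₊ := by
    intro K
    apply Nat.floor_mono
    gcongr
  have hex : ∃ K, ⌊r * 2 ^ (CC ρ K)⌋₊ ≠ ⌊r' * 2 ^ (CC ρ K)⌋₊ := by
    obtain ⟨K, hK⟩ := exists_nat_gt (1 / (r' - r))
    have hd : 0 < r' - r := by linarith
    refine ⟨K + 1, fun h => ?_⟩
    have h1 : K ≤ CC ρ (K + 1) := by
      have h2 := le_CC hρ (K + 1)
      have h3 : (1 : ℝ) ≤ ρ ^ (K + 1) := one_le_pow₀ hρ.le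
      have h4 : (K : ℝ) ≤ CC ρ (K + 1) := by
        push_cast at h2
        have h5 : (0 : ℝ) ≤ K := by positivity
        nlinarith
      exact_mod_cast h4
    have h2 : (K : ℝ) < 2 ^ (CC ρ (K + 1)) := by
      have : K < 2 ^ (CC ρ (K + 1)) := lt_of_le_of_lt h1 Nat.lt_two_pow_self
      exact_mod_cast this
    have h3 : 1 < (r' - r) * 2 ^ (CC ρ (K + 1)) := by
      rw [div_lt_iff₀ hd] at hK
      nlinarith
    have h4 : ((⌊r * 2 ^ (CC ρ (K + 1))⌋₊ : ℕ) : ℝ) ≤ r * 2 ^ (CC ρ (K + 1)) :=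
      Nat.floor_le (by positivity)
    have h5 : r' * 2 ^ (CC ρ (K + 1)) < (⌊r' * 2 ^ (CC ρ (K + 1))⌋₊ : ℝ) + 1 :=
      Nat.lt_floor_add_one _
    rw [← h] at h5
    linarith
  obtain ⟨K, hK⟩ : ∃ K, K = Nat.find hex := ⟨_, rfl⟩
  have h1 := Nat.find_spec hex
  rw [← hK] at h1
  have h2 : ∀ i < K, ⌊r * 2 ^ (CC ρ i)⌋₊ = ⌊r' * 2 ^ (CC ρ i)⌋₊ := by
    intro i hi
    by_contra hc
    rw [hK] at hi
    exact Nat.find_min hex hi hc
  cases K with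
  | zero =>
    exfalso
    apply h1
    rw [CC_zero, pow_zero, mul_one, mul_one, Nat.floor_eq_zero.2 (by linarith),
      Nat.floor_eq_zero.2 hr']
  | succ k =>
    refine ⟨k, h2 k (by omega), lt_of_le_of_ne (hmono _) h1, ?_⟩
    intro i hi
    unfold dg
    rw [h2 i (by omega), h2 (i + 1) (by omega)]

lemma Ms_lt {ρ : ℝ} (hρ : 1 < ρ) {r : ℝ} (hr : 0 ≤ r) (k : ℕ) :
    Ms ρ r k + 1 ≤ 2 * 2 ^ (CC ρ (k + 1) - CC ρ k) := by
  have := dg_lt hρ hr k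
  unfold Ms
  omega

lemma prod_lower {ρ : ℝ} (hρ : 1 < ρ) {r : ℝ} (hr : 0 ≤ r) (k : ℕ) :
    (1 / 4 : ℝ) ^ (k + CC ρ k) ≤ ∏ i ∈ Finset.range k, fac (MM (uu ρ) (yr ρ r) i) := by
  induction k with
  | zero => simp [CC_zero]
  | succ k ih =>
    obtain ⟨c, hc⟩ := Nat.exists_eq_add_of_le (CC_mono hρ (Nat.le_succ k))
    have hc' : CC ρ (k + 1) = CC ρ k + c := hc
    rw [Finset.prod_range_succ, hc']
    have h1 := Ms_lt hρ hr k
    rw [hc', Nat.add_sub_cancel_left] at h1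
    have h2 : (1 / 4 : ℝ) ^ (1 + c) ≤ fac (MM (uu ρ) (yr ρ r) k) := by
      rw [MM_yr hρ]
      have h3 : (1 : ℝ) ≤ Ms ρ r k := by
        have : 1 ≤ Ms ρ r k := by
          rw [← MM_yr hρ]; exact MM_pos (yr_mem hρ r) k
        exact_mod_cast this
      have h4 : (Ms ρ r k : ℝ) + 1 ≤ 2 * 2 ^ c := by exact_mod_cast h1
      unfold fac
      rw [one_div_pow]
      apply one_div_le_one_div_of_le (by positivity)
      have h5 : (4 : ℝ) ^ (1 + c) = (2 * 2 ^ c) * (2 * 2 ^ c) := by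
        have h6 : (4 : ℝ) ^ c = 2 ^ c * 2 ^ c := by rw [← mul_pow]; norm_num
        rw [pow_add, pow_one, h6]
        ring
      rw [h5]
      nlinarith
    calc (1 / 4 : ℝ) ^ (k + 1 + (CC ρ k + c)) = (1 / 4) ^ (k + CC ρ k) * (1 / 4) ^ (1 + c) := by
          rw [← pow_add]; congr 1; ring
      _ ≤ _ := by
        apply mul_le_mul ih h2 (by positivity)
        exact Finset.prod_nonneg (fun i _ => fac_nonneg _)

lemma expo_bdd {ρ β : ℝ} (hρ : 1 < ρ) (hβ0 : 0 < β) (hβ : β < 1 / (ρ + 1)) :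
    ∃ B : ℝ, ∀ k, 1 - (CC ρ k : ℝ) + β * ((CC ρ k : ℝ) + (CC ρ (k + 1) : ℝ) +
      ((uu ρ k : ℝ) + 2 * k + 3)) ≤ B := by
  have hβ1 : β * (ρ + 1) < 1 := by rwa [lt_div_iff₀ (by linarith)] at hβ
  have hβ2 : β < 1 := by nlinarith
  obtain ⟨δ, hδ⟩ : ∃ δ : ℝ, δ = 1 - β * (ρ + 1) := ⟨_, rfl⟩
  have hδ0 : 0 < δ := by linarith
  obtain ⟨K1, hK1⟩ := exists_nat_gt ((2 * (ρ + 10)) / δ)
  have h2 : ∀ᶠ k : ℕ in atTop, 6 / δ ≤ ρ ^ k :=
    (tendsto_pow_atTop_atTop_of_one_lt hρ).eventually_ge_atTop _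
  obtain ⟨K2, hK2⟩ := eventually_atTop.1 h2
  obtain ⟨E, hE⟩ : ∃ E : ℕ → ℝ, ∀ k, E k = 1 - (CC ρ k : ℝ) + β * ((CC ρ k : ℝ) +
    (CC ρ (k + 1) : ℝ) + ((uu ρ k : ℝ) + 2 * k + 3)) := ⟨_, fun _ => rfl⟩
  have hev : ∀ k, max K1 K2 ≤ k → E k ≤ 0 := by
    intro k hk
    have hk1 : K1 ≤ k := le_trans (le_max_left _ _) hk
    have hk2 : K2 ≤ k := le_trans (le_max_right _ _) hk
    have a1 := CC_le hρ k
    have a2 := CC_le hρ (k + 1)
    have a3 := le_CC hρ k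
    have a4 := uu_le hρ k
    have a5 := hK2 k hk2
    have a6 : (2 * (ρ + 10)) / δ < k := lt_of_lt_of_le hK1 (by exact_mod_cast hk1)
    rw [div_le_iff₀ hδ0] at a5
    rw [div_lt_iff₀ hδ0] at a6
    obtain ⟨R, hR⟩ : ∃ R : ℝ, R = ρ ^ k := ⟨_, rfl⟩
    have hR1 : 1 ≤ R := by rw [hR]; exact one_le_pow₀ hρ.le
    push_cast at a2
    rw [pow_succ, ← hR] at a2
    rw [← hR] at a1 a3 a4 a5
    have hk0 : (0 : ℝ) ≤ k := by positivity
    rw [hE]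
    -- E ≤ 2 - (1-β) k R + β((k+1) R ρ + R + 3k + 3)
    have b1 : 1 - (CC ρ k : ℝ) + β * ((CC ρ k : ℝ) + (CC ρ (k + 1) : ℝ) +
        ((uu ρ k : ℝ) + 2 * k + 3)) ≤
        1 - (1 - β) * (k * R - 1) + β * ((k + 1) * (R * ρ) + (R + k) + 2 * k + 3) := by
      have c1 : (1 - β) * (k * R - 1) ≤ (1 - β) * (CC ρ k : ℝ) :=
        mul_le_mul_of_nonneg_left a3 (by linarith)
      have c2 : β * ((CC ρ (k + 1) : ℝ) + ((uu ρ k : ℝ) + 2 * k + 3)) ≤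
          β * ((k + 1) * (R * ρ) + (R + k) + 2 * k + 3) :=
        mul_le_mul_of_nonneg_left (by linarith) hβ0.le
      nlinarith
    have b2 : 1 - (1 - β) * (k * R - 1) + β * ((k + 1) * (R * ρ) + (R + k) + 2 * k + 3) =
        - δ * (k * R) + (2 - β) + β * (R * ρ + R + 3 * k + 3) := by
      rw [hδ]; ring
    have b3 : β * (R * ρ + R + 3 * k + 3) ≤ 1 * (R * ρ + R + 3 * k + 3) :=
      mul_le_mul_of_nonneg_right hβ2.le (by positivity)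
    have b4 : 3 * (k : ℝ) ≤ δ * (k * R) / 2 := by nlinarith
    have b5 : (ρ + 10) * R ≤ δ * (k * R) / 2 := by nlinarith
    nlinarith
  obtain ⟨B, hB⟩ := ((Finset.range (max K1 K2)).image E).exists_le
  refine ⟨max B 0, fun k => ?_⟩
  rw [← hE]
  rcases lt_or_ge k (max K1 K2) with h | h
  · exact (hB _ (Finset.mem_image_of_mem E (Finset.mem_range.2 h))).trans (le_max_left _ _)
  · exact (hev k h).trans (le_max_right _ _)

lemma holder {ρ β : ℝ} (hρ : 1 < ρ) (hβ0 : 0 < β) (hβ : β < 1 / (ρ + 1)) :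
    ∃ C : ℝ, 0 < C ∧ ∀ r r', 0 ≤ r → r < r' → r' < 1 →
      r' - r ≤ C * |yr ρ r - yr ρ r'| ^ β := by
  obtain ⟨B, hB⟩ := expo_bdd hρ hβ0 hβ
  refine ⟨2 ^ B, by positivity, fun r r' hr hlt hr' => ?_⟩
  have hr0' : 0 ≤ r' := by linarith
  have hβ1 : β < 1 := by
    refine lt_trans hβ ?_
    rw [div_lt_one (by linarith)]
    linarith
  obtain ⟨k, h1, h2, h3⟩ := first_diff hρ hr hlt hr'
  have e1 := dg_add hρ hr k
  have e2 := dg_add hρ hr0' k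
  rw [h1] at e1
  obtain ⟨c, hc⟩ := Nat.exists_eq_add_of_le (CC_mono hρ (Nat.le_succ k))
  have hc' : CC ρ (k + 1) = CC ρ k + c := hc
  obtain ⟨D, hD⟩ : ∃ D, dg ρ r' k = dg ρ r k + D := Nat.exists_eq_add_of_le (by omega)
  have hD1 : 1 ≤ D := by omega
  have hDc : D ≤ 2 ^ c := by
    have := dg_lt hρ hr0' k
    rw [hc', Nat.add_sub_cancel_left] at this
    omega
  have hfl : ⌊r' * 2 ^ (CC ρ (k + 1))⌋₊ = ⌊r * 2 ^ (CC ρ (k + 1))⌋₊ + D := by omega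
  have hDR : (1 : ℝ) ≤ D := by exact_mod_cast hD1
  have hDR0 : (0 : ℝ) < D := by linarith
  -- upper bound for r' - r
  have hup : r' - r ≤ 2 * D * 2 ^ (-(CC ρ (k + 1) : ℝ)) := by
    have a1 : ((⌊r * 2 ^ (CC ρ (k + 1))⌋₊ : ℕ) : ℝ) ≤ r * 2 ^ (CC ρ (k + 1)) :=
      Nat.floor_le (by positivity)
    have a2 : r' * 2 ^ (CC ρ (k + 1)) < (⌊r' * 2 ^ (CC ρ (k + 1))⌋₊ : ℝ) + 1 :=
      Nat.lt_floor_add_one _
    rw [hfl] at a2
    push_cast at a2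
    have a3 : (r' - r) * 2 ^ (CC ρ (k + 1)) ≤ 2 * D := by nlinarith
    rw [Real.rpow_neg (by norm_num), Real.rpow_natCast, ← div_eq_mul_inv,
      le_div_iff₀ (by positivity)]
    exact a3
  -- lower bound for the distance
  have hx := yr_mem hρ r
  have hy := yr_mem hρ r'
  have hdist := dist_digits (uu_mono hρ) hx hy (k := k) (fun i hi => by
    rw [MM_yr hρ, MM_yr hρ]
    unfold Ms
    rw [h3 i hi])
  obtain ⟨z0, z1⟩ := iter_mem hx.1.1 hx.1.2 (uu ρ k + k)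
  obtain ⟨z0', z1'⟩ := iter_mem hy.1.1 hy.1.2 (uu ρ k + k)
  have hbz : br (lur^[uu ρ k + k] (yr ρ r)) = Ms ρ r k := MM_yr hρ r k
  have hbz' : br (lur^[uu ρ k + k] (yr ρ r')) = Ms ρ r' k := MM_yr hρ r' k
  have hw : 1 / 2 < lur (lur^[uu ρ k + k] (yr ρ r)) := by
    rw [← Function.iterate_succ_apply' lur]
    apply hx.2
    intro l hl
    rcases le_or_gt l k with h | h
    · have : uu ρ l + l ≤ uu ρ k + k := (sp_mono (uu_mono hρ)).monotone h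
      omega
    · have : uu ρ (k + 1) ≤ uu ρ l := (uu_mono hρ).monotone h
      have : uu ρ k < uu ρ (k + 1) := uu_mono hρ (Nat.lt_succ_self k)
      omega
  have m1 := Ms_lt hρ hr k
  have m2 := Ms_lt hρ hr0' k
  rw [hc', Nat.add_sub_cancel_left] at m1 m2
  have m1' : (Ms ρ r k : ℝ) + 1 ≤ 2 * 2 ^ c := by exact_mod_cast m1
  have m2' : (Ms ρ r' k : ℝ) + 1 ≤ 2 * 2 ^ c := by exact_mod_cast m2
  have m3 : (Ms ρ r' k : ℝ) = Ms ρ r k + D := by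
    unfold Ms
    rw [hD]
    push_cast
    ring
  have hsep := sep z0 z1 z0' z1' hw (D := D) (A := 2 ^ c) hDR (by rw [hbz, hbz', m3])
    (by rw [hbz]; linarith) (by rw [hbz']; linarith)
  have hprod := prod_lower hρ hr0' k
  have hlow : D * 2 ^ (-((uu ρ k : ℝ) + 2 * k + 2 * CC ρ (k + 1) + 3)) ≤
      |yr ρ r - yr ρ r'| := by
    rw [hdist]
    have a1 : (D : ℝ) / (8 * (2 ^ c) ^ 2) ≤
        |lur^[uu ρ k + k] (yr ρ r) - lur^[uu ρ k + k] (yr ρ r')| :=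
      hsep.trans (le_abs_self _)
    have a2 : (D : ℝ) * 2 ^ (-((uu ρ k : ℝ) + 2 * k + 2 * CC ρ (k + 1) + 3)) =
        (1 / 2) ^ (uu ρ k) * (1 / 4) ^ (k + CC ρ k) * (D / (8 * (2 ^ c) ^ 2)) := by
      rw [hc']
      push_cast
      have b1 : (2 : ℝ) ^ (-((uu ρ k : ℝ) + 2 * k + 2 * ((CC ρ k : ℝ) + c) + 3)) =
          ((2 : ℝ) ^ (uu ρ k + 2 * k + 2 * (CC ρ k + c) + 3))⁻¹ := by
        rw [Real.rpow_neg (by norm_num), ← Real.rpow_natCast]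
        push_cast
        rfl
      rw [b1, one_div_pow, one_div_pow, show (4 : ℝ) = 2 ^ 2 by norm_num, ← pow_mul, ← pow_mul]
      have b2 : (2 : ℝ) ^ (uu ρ k + 2 * k + 2 * (CC ρ k + c) + 3) =
          2 ^ (uu ρ k) * 2 ^ (2 * (k + CC ρ k)) * (8 * 2 ^ (c * 2)) := by
        rw [show (8 : ℝ) = 2 ^ 3 by norm_num, ← pow_add, ← pow_add, ← pow_add]
        congr 1
        ring
      rw [b2]
      field_simp
    rw [a2]
    have hpn : 0 ≤ ∏ i ∈ Finset.range k, fac (MM (uu ρ) (yr ρ r') i) :=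
      Finset.prod_nonneg (fun i _ => fac_nonneg _)
    apply mul_le_mul (mul_le_mul_of_nonneg_left hprod (by positivity)) a1 (by positivity)
    exact mul_nonneg (by positivity) hpn
  have hlow0 : 0 < D * (2 : ℝ) ^ (-((uu ρ k : ℝ) + 2 * k + 2 * CC ρ (k + 1) + 3)) := by
    positivity
  have hpow := Real.rpow_le_rpow hlow0.le hlow hβ0.le
  have hexp := hB k
  -- assemble
  have hD2 : (D : ℝ) ^ (1 - β) ≤ 2 ^ ((c : ℝ) * (1 - β)) := by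
    calc (D : ℝ) ^ (1 - β) ≤ ((2 : ℝ) ^ c) ^ (1 - β) := by
          apply Real.rpow_le_rpow hDR0.le _ (by linarith)
          exact_mod_cast hDc
      _ = 2 ^ ((c : ℝ) * (1 - β)) := by
        rw [← Real.rpow_natCast, ← Real.rpow_mul (by norm_num)]
  have hcR : (CC ρ (k + 1) : ℝ) = CC ρ k + c := by rw [hc']; push_cast; ring
  calc r' - r ≤ 2 * D * 2 ^ (-(CC ρ (k + 1) : ℝ)) := hup
    _ = (D : ℝ) ^ β * (D : ℝ) ^ (1 - β) * (2 ^ (1 : ℝ) * 2 ^ (-(CC ρ (k + 1) : ℝ))) := by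
        rw [← Real.rpow_add hDR0]
        simp
        ring
    _ ≤ (D : ℝ) ^ β * 2 ^ ((c : ℝ) * (1 - β)) * (2 ^ (1 : ℝ) * 2 ^ (-(CC ρ (k + 1) : ℝ))) := by
        gcongr
    _ = (D : ℝ) ^ β * 2 ^ ((c : ℝ) * (1 - β) + (1 + -(CC ρ (k + 1) : ℝ))) := by
        rw [Real.rpow_add (by norm_num), Real.rpow_add (by norm_num)]
        ring
    _ ≤ (D : ℝ) ^ β * 2 ^ (B + -((uu ρ k : ℝ) + 2 * k + 2 * CC ρ (k + 1) + 3) * β) := by
        apply mul_le_mul_of_nonneg_left _ (by positivity)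
        apply Real.rpow_le_rpow_of_exponent_le (by norm_num)
        rw [hcR] at hexp ⊢
        linarith
    _ = 2 ^ B * ((D : ℝ) * 2 ^ (-((uu ρ k : ℝ) + 2 * k + 2 * CC ρ (k + 1) + 3))) ^ β := by
        rw [Real.mul_rpow hDR0.le (by positivity), Real.rpow_add (by norm_num),
          ← Real.rpow_mul (by norm_num)]
        ring
    _ ≤ 2 ^ B * |yr ρ r - yr ρ r'| ^ β := by gcongr

end Pool.Agent.V11112.LU
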