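import Pool.Agent.V11112.LU6

open Filter Topology
open scoped ENNReal NNReal

namespace Pool.Agent.V11112.LU

lemma lower_dim {ρ β : ℝ} (hρ : 1 < ρ) (hβ0 : 0 < β) (hβ : β < 1 / (ρ + 1)) :
    ENNReal.ofReal β ≤ dimH (AS (yr ρ 0)) := by
  obtain ⟨C, hC0, hC⟩ := holder hρ hβ0 hβ
  have hC' : ∀ r r', r ∈ Set.Ico (0 : ℝ) 1 → r' ∈ Set.Ico (0 : ℝ) 1 →
      |r - r'| ≤ C * |yr ρ r - yr ρ r'| ^ β := by
    intro r r' hr hr'
    rcases lt_trichotomy r r' with h | h | h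
    · rw [abs_sub_comm, abs_of_pos (by linarith)]
      exact hC r r' hr.1 h hr'.2
    · subst h
      simp only [sub_self, abs_zero]
      positivity
    · rw [abs_of_pos (by linarith), abs_sub_comm (yr ρ r)]
      exact hC r' r hr'.1 h hr.2
  have hinj : Set.InjOn (yr ρ) (Set.Ico (0 : ℝ) 1) := by
    intro r hr r' hr' h
    have h1 := hC' r r' hr hr'
    rw [h, sub_self, abs_zero, Real.zero_rpow hβ0.ne', mul_zero] at h1
    have := abs_nonneg (r - r')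
    have h2 : |r - r'| = 0 := le_antisymm h1 this
    rw [abs_eq_zero] at h2
    linarith
  have hf : ∀ r ∈ Set.Ico (0 : ℝ) 1, Function.invFunOn (yr ρ) (Set.Ico (0 : ℝ) 1) (yr ρ r) = r :=
    fun r hr => hinj.leftInvOn_invFunOn hr
  have hhol : HolderOnWith C.toNNReal β.toNNReal
      (Function.invFunOn (yr ρ) (Set.Ico (0 : ℝ) 1)) (yr ρ '' (Set.Ico (0 : ℝ) 1)) := by
    rintro _ ⟨r, hr, rfl⟩ _ ⟨r', hr', rfl⟩
    rw [hf r hr, hf r' hr', edist_dist, edist_dist, Real.dist_eq, Real.dist_eq,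
      Real.coe_toNNReal β hβ0.le, ENNReal.ofReal_rpow_of_nonneg (abs_nonneg _) hβ0.le]
    change _ ≤ ENNReal.ofReal C * _
    rw [← ENNReal.ofReal_mul hC0.le]
    exact ENNReal.ofReal_le_ofReal (hC' r r' hr hr')
  have hβn : 0 < β.toNNReal := Real.toNNReal_pos.2 hβ0
  have h1 := hhol.dimH_image_le hβn
  have h2 : Function.invFunOn (yr ρ) (Set.Ico (0 : ℝ) 1) '' (yr ρ '' (Set.Ico (0 : ℝ) 1)) =
      Set.Ico (0 : ℝ) 1 := by
    rw [Set.image_image]
    ext r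
    constructor
    · rintro ⟨r', hr', rfl⟩
      change Function.invFunOn (yr ρ) (Set.Ico (0 : ℝ) 1) (yr ρ r') ∈ _
      rw [hf r' hr']
      exact hr'
    · intro hr
      exact ⟨r, hr, hf r hr⟩
  have h3 : dimH (Set.Ico (0 : ℝ) 1) = 1 := by
    rw [Real.dimH_of_nonempty_interior]
    · simp
    · rw [interior_Ico]
      exact ⟨1 / 2, by norm_num, by norm_num⟩
  rw [h2, h3] at h1
  have h4 : dimH (yr ρ '' (Set.Ico (0 : ℝ) 1)) ≤ dimH (AS (yr ρ 0)) := by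
    apply dimH_mono
    rintro _ ⟨r, _, rfl⟩
    exact yr_as hρ 0 r
  refine le_trans ?_ h4
  have h5 : ((β.toNNReal : ℝ≥0∞)) ≠ 0 := by
    rw [ENNReal.coe_ne_zero]
    exact hβn.ne'
  rw [ENNReal.le_div_iff_mul_le (Or.inl h5) (Or.inl ENNReal.coe_ne_top), one_mul] at h1
  exact h1

lemma upper_dim {ρ : ℝ} (hρ : 1 < ρ) {s : ℝ≥0} (hs : 1 / (ρ + 1) < s) (hs2 : (s : ℝ) < 1 / 2) :
    dimH (AS (yr ρ 0)) ≤ s := by
  have hu := uu_mono hρ
  have hx := yr_mem hρ 0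
  -- shifted position sequences
  obtain ⟨w, hw⟩ : ∃ w : ℕ → ℕ → ℕ, ∀ j k, w j k = uu ρ (j + 1 + k) - uu ρ j :=
    ⟨_, fun _ _ => rfl⟩
  have hle : ∀ j k, uu ρ j ≤ uu ρ (j + 1 + k) := fun j k => hu.monotone (by omega)
  have hwm : ∀ j, StrictMono (w j) := by
    intro j a b hab
    rw [hw, hw]
    have h1 : uu ρ (j + 1 + a) < uu ρ (j + 1 + b) := hu (by omega)
    have h2 := hle j a
    omega
  have hwg : ∀ j, ∀ᶠ k in atTop, (1 / 2) * ρ ^ k ≤ (w j k : ℝ) := by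
    intro j
    have h1 : ∀ᶠ k : ℕ in atTop, 2 * ((uu ρ j : ℝ) + 1) ≤ ρ ^ k :=
      (tendsto_pow_atTop_atTop_of_one_lt hρ).eventually_ge_atTop _
    filter_upwards [h1] with k hk
    rw [hw, Nat.cast_sub (hle j k)]
    have h2 := le_uu hρ (j + 1 + k)
    have h3 : ρ ^ k ≤ ρ ^ (j + 1 + k) := pow_le_pow_right₀ hρ.le (by omega)
    linarith
  have hsub : AS (yr ρ 0) ⊆ ⋃ j : ℕ,
      {y : ℝ | (0 < y ∧ y ≤ 1) ∧ lur^[uu ρ j + j + 1] y ∈ GG (w j)} := by
    intro y hy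
    obtain ⟨n0, hn0⟩ := as_digits hx.1.1 hx.1.2 hy
    have hy0 : 0 < y := by
      rcases eq_or_lt_of_le hy.1 with h | h
      · exfalso
        have h1 : 1 / 2 < lur^[uu ρ n0 + n0 + 1] (yr ρ 0) := by
          apply hx.2
          intro l hl
          rcases le_or_gt l n0 with h | h
          · have : uu ρ l + l ≤ uu ρ n0 + n0 := (sp_mono hu).monotone h
            omega
          · have h3 : uu ρ (n0 + 1) ≤ uu ρ l := hu.monotone h
            have h4 : uu ρ n0 < uu ρ (n0 + 1) := hu (Nat.lt_succ_self n0)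
            omega
        have h2 := hn0 (uu ρ n0 + n0 + 1) (by omega) h1
        rw [← h, iter_zero] at h2
        linarith
      · exact h
    refine Set.mem_iUnion.2 ⟨n0, ⟨hy0, hy.2.1⟩, iter_mem hy0 hy.2.1 _, ?_⟩
    intro n hn
    rw [← Function.iterate_add_apply]
    apply hn0 _ (by omega)
    apply hx.2
    intro l hl
    have h1 : n0 < l := by
      by_contra hc
      push Not at hc
      have : uu ρ l + l ≤ uu ρ n0 + n0 := (sp_mono hu).monotone hc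
      omega
    obtain ⟨k, rfl⟩ : ∃ k, l = n0 + 1 + k := ⟨l - (n0 + 1), by omega⟩
    apply hn k
    rw [hw]
    have := hle n0 k
    omega
  refine (dimH_mono hsub).trans ?_
  rw [dimH_iUnion]
  apply iSup_le
  intro j
  exact (dim_pre_iter _ _).trans (dim_GG_le (hwm j) hρ (by norm_num) (hwg j) hs hs2)

theorem main {v : ℝ} (h0 : 0 < v) (h1 : v < 1 / 2) :
    ∃ x : ℝ, 0 ≤ x ∧ x ≤ 1 ∧ dimH (AS x) = ENNReal.ofReal v := by
  obtain ⟨ρ, hρv⟩ : ∃ ρ : ℝ, ρ = 1 / v - 1 := ⟨_, rfl⟩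
  have hρ : 1 < ρ := by
    rw [hρv]
    have : 2 < 1 / v := by rw [lt_div_iff₀ h0]; linarith
    linarith
  have hv : 1 / (ρ + 1) = v := by rw [hρv]; field_simp; ring
  have hx := yr_mem hρ 0
  refine ⟨yr ρ 0, hx.1.1.le, hx.1.2, le_antisymm ?_ ?_⟩
  · apply le_of_forall_gt
    intro c hc
    have hc2 : ENNReal.ofReal v < min c (ENNReal.ofReal (1 / 2)) := by
      apply lt_min hc
      rw [ENNReal.ofReal_lt_ofReal_iff (by norm_num)]
      exact h1
    obtain ⟨s, hs1, hs2⟩ := ENNReal.lt_iff_exists_nnreal_btwn.1 hc2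
    have hs3 : v < (s : ℝ) := by
      rw [ENNReal.ofReal_lt_iff_lt_toReal h0.le ENNReal.coe_ne_top] at hs1
      simpa using hs1
    have hs4 : (s : ℝ) < 1 / 2 := by
      have := lt_of_lt_of_le hs2 (min_le_right _ _)
      rw [← ENNReal.ofReal_coe_nnreal, ENNReal.ofReal_lt_ofReal_iff (by norm_num)] at this
      exact this
    exact lt_of_le_of_lt (upper_dim hρ (by rw [hv]; exact hs3) hs4)
      (lt_of_lt_of_le hs2 (min_le_left _ _))
  · apply le_of_forall_lt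
    intro c hc
    obtain ⟨b, hb1, hb2⟩ := ENNReal.lt_iff_exists_nnreal_btwn.1 hc
    have hb3 : (b : ℝ) < v := by
      rw [← ENNReal.ofReal_coe_nnreal, ENNReal.ofReal_lt_ofReal_iff h0] at hb2
      exact hb2
    obtain ⟨β, hβ1, hβ2⟩ := exists_between hb3
    have hβ0 : 0 < β := lt_of_le_of_lt b.2 hβ1
    have h2 := lower_dim hρ hβ0 (by rw [hv]; exact hβ2)
    refine lt_of_lt_of_le (lt_trans hb1 ?_) h2
    rw [← ENNReal.ofReal_coe_nnreal, ENNReal.ofReal_lt_ofReal_iff hβ0]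
    exact hβ1

end Pool.Agent.V11112.LU
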