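import Mathlib

open Filter Topology

namespace Pool.Agent.V11112.LV

variable {E : Type*} [NormedAddCommGroup E]

/-- small targets can be approximated by finite sub-sums of tails, with controlled partial sums -/
def Ctrl (x : ℕ → E) : Prop :=
  ∀ (N : ℕ) (t : E) (δ : ℝ), 0 < δ → ∃ S : Finset ℕ, (∀ i ∈ S, N ≤ i) ∧
    ‖∑ i ∈ S, x i - t‖ ≤ δ ∧ ∀ n, ‖∑ i ∈ S.filter (fun i => i < n), x i‖ ≤ 2 * ‖t‖ + δ

/-- state recursion for subsums -/
noncomputable def nst (x : ℕ → E) (v : E) (f : ℕ → E → ℝ → Finset ℕ) : ℕ → ℕ × Finset ℕ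
  | 0 => (0, ∅)
  | k + 1 =>
    let p := nst x v f k
    let S := f p.1 (v - ∑ i ∈ p.2, x i) (1 / ((k : ℝ) + 1))
    (max (p.1 + 1) (S.sup id + 1), p.2 ∪ S)

theorem ach_of_ctrl {x : ℕ → E} (h : Ctrl x) (v : E) :
    ∃ B : Set ℕ, Tendsto (fun N => ∑ n ∈ Finset.range N, B.indicator x n) atTop (𝓝 v) := by
  classical
  unfold Ctrl at h
  choose! f hf using h
  obtain ⟨N, hN⟩ : ∃ N : ℕ → ℕ, ∀ k, N k = (nst x v f k).1 := ⟨_, fun _ => rfl⟩
  obtain ⟨T, hT⟩ : ∃ T : ℕ → Finset ℕ, ∀ k, T k = (nst x v f k).2 := ⟨_, fun _ => rfl⟩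
  obtain ⟨S, hS⟩ : ∃ S : ℕ → Finset ℕ, ∀ k, S k =
    f (N k) (v - ∑ i ∈ T k, x i) (1 / ((k : ℝ) + 1)) := ⟨_, fun _ => rfl⟩
  have hT0 : T 0 = ∅ := by rw [hT]; rfl
  have hN0 : N 0 = 0 := by rw [hN]; rfl
  have hTs : ∀ k, T (k + 1) = T k ∪ S k := by
    intro k
    rw [hS, hT, hT, hN]
    rfl
  have hNs : ∀ k, N (k + 1) = max (N k + 1) ((S k).sup id + 1) := by
    intro k
    rw [hS, hT, hN, hN]
    rfl
  have hδ : ∀ k : ℕ, (0 : ℝ) < 1 / ((k : ℝ) + 1) := fun k => by positivity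
  have hS1 : ∀ k, ∀ i ∈ S k, N k ≤ i := fun k i hi => by
    rw [hS] at hi
    exact (hf _ _ _ (hδ k)).1 i hi
  have hS2 : ∀ k, ∀ i ∈ S k, i < N (k + 1) := fun k i hi => by
    rw [hNs]
    have := Finset.le_sup (f := id) hi
    simp only [id] at this
    omega
  have hS3 : ∀ k, ‖∑ i ∈ S k, x i - (v - ∑ i ∈ T k, x i)‖ ≤ 1 / ((k : ℝ) + 1) := fun k => by
    conv_lhs => rw [hS]
    exact (hf _ _ _ (hδ k)).2.1
  have hS4 : ∀ k n, ‖∑ i ∈ (S k).filter (fun i => i < n), x i‖ ≤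
      2 * ‖v - ∑ i ∈ T k, x i‖ + 1 / ((k : ℝ) + 1) := fun k n => by
    conv_lhs => rw [hS]
    exact (hf _ _ _ (hδ k)).2.2 n
  have hNmono : StrictMono N := by
    apply strictMono_nat_of_lt_succ
    intro k
    rw [hNs]
    omega
  have hTN : ∀ k, ∀ i ∈ T k, i < N k := by
    intro k
    induction k with
    | zero => rw [hT0]; simp
    | succ k ih =>
      intro i hi
      rw [hTs, Finset.mem_union] at hi
      rcases hi with hi | hi
      · have h1 := ih i hi
        have h2 : N k < N (k + 1) := hNmono (Nat.lt_succ_self k)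
        omega
      · exact hS2 k i hi
  have hdisj : ∀ k, Disjoint (T k) (S k) := by
    intro k
    rw [Finset.disjoint_left]
    intro i h1 h2
    have := hTN k i h1
    have := hS1 k i h2
    omega
  have hTmono : Monotone T := by
    apply monotone_nat_of_le_succ
    intro k
    rw [hTs]
    exact Finset.subset_union_left
  -- membership in later sets
  have hmem : ∀ k l, k ≤ l → ∀ i ∈ T l, i < N k → i ∈ T k := by
    intro k l hkl
    induction l, hkl using Nat.le_induction with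
    | base => intro i hi _; exact hi
    | succ l hkl ih =>
      intro i hi hik
      rw [hTs, Finset.mem_union] at hi
      rcases hi with hi | hi
      · exact ih i hi hik
      · have h1 := hS1 l i hi
        have h2 := hNmono.monotone hkl
        omega
  let B : Set ℕ := {i | ∃ k, i ∈ T k}
  have key : ∀ k n, N k ≤ n → n ≤ N (k + 1) →
      ∑ i ∈ Finset.range n, B.indicator x i =
        ∑ i ∈ T k, x i + ∑ i ∈ (S k).filter (fun i => i < n), x i := by
    intro k n h1 h2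
    rw [← Finset.sum_union (Finset.disjoint_of_subset_right (Finset.filter_subset _ _) (hdisj k))]
    have h3 : ∀ i, B.indicator x i = if i ∈ B then x i else 0 := fun i => by
      rw [Set.indicator_apply]
    simp_rw [h3]
    rw [← Finset.sum_filter]
    apply Finset.sum_congr _ (fun _ _ => rfl)
    ext i
    simp only [Finset.mem_filter, Finset.mem_range, Finset.mem_union]
    constructor
    · rintro ⟨h4, l, h5⟩
      have h6 : i ∈ T (max l (k + 1)) := hTmono (le_max_left _ _) h5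
      have h7 := hmem (k + 1) _ (le_max_right _ _) i h6 (by omega)
      rw [hTs, Finset.mem_union] at h7
      rcases h7 with h7 | h7
      · exact Or.inl h7
      · exact Or.inr ⟨h7, h4⟩
    · rintro (h4 | ⟨h4, h5⟩)
      · exact ⟨lt_of_lt_of_le (hTN k i h4) h1, k, h4⟩
      · refine ⟨h5, k + 1, ?_⟩
        rw [hTs]
        exact Finset.mem_union_right _ h4
  have hk : ∀ n, ∃ k, N k ≤ n ∧ n < N (k + 1) := by
    intro n
    have h1 : ∃ k, n < N k := ⟨n + 1, lt_of_lt_of_le (Nat.lt_succ_self n) (hNmono.id_le _)⟩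
    obtain ⟨k, hk⟩ : ∃ k, k = Nat.find h1 := ⟨_, rfl⟩
    have h2 := Nat.find_spec h1
    rw [← hk] at h2
    cases k with
    | zero => rw [hN0] at h2; omega
    | succ k =>
      refine ⟨k, ?_, h2⟩
      have := Nat.find_min h1 (m := k) (by rw [← hk]; omega)
      omega
  have ht : ∀ k, ‖v - ∑ i ∈ T (k + 1), x i‖ ≤ 1 / ((k : ℝ) + 1) := by
    intro k
    rw [hTs, Finset.sum_union (hdisj k)]
    have := hS3 k
    rw [← norm_neg] at this
    refine le_trans (le_of_eq ?_) this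
    congr 1
    abel
  refine ⟨B, ?_⟩
  rw [Metric.tendsto_atTop]
  intro ε hε
  obtain ⟨K, hK⟩ := exists_nat_gt (4 / ε)
  refine ⟨N (K + 1), fun n hn => ?_⟩
  obtain ⟨k, hk1, hk2⟩ := hk n
  have hkK : K + 1 ≤ k := by
    by_contra hc
    push Not at hc
    have h1 : N (k + 1) ≤ N (K + 1) := hNmono.monotone (by omega)
    omega
  obtain ⟨l, rfl⟩ : ∃ l, k = l + 1 := ⟨k - 1, by omega⟩
  rw [dist_eq_norm, key (l + 1) n hk1 hk2.le]
  have h1 := ht l
  have h2 := hS4 (l + 1) n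
  have h3 : ‖∑ i ∈ T (l + 1), x i + ∑ i ∈ (S (l + 1)).filter (fun i => i < n), x i - v‖ ≤
      ‖v - ∑ i ∈ T (l + 1), x i‖ + ‖∑ i ∈ (S (l + 1)).filter (fun i => i < n), x i‖ := by
    have := norm_add_le (-(v - ∑ i ∈ T (l + 1), x i))
      (∑ i ∈ (S (l + 1)).filter (fun i => i < n), x i)
    rw [norm_neg] at this
    refine le_trans (le_of_eq ?_) this
    congr 1
    abel
  have h4 : 1 / (((l + 1 : ℕ) : ℝ) + 1) ≤ 1 / ((l : ℝ) + 1) := by
    apply one_div_le_one_div_of_le (by positivity)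
    push_cast
    linarith
  have h5 : 1 / ((l : ℝ) + 1) ≤ 1 / (K : ℝ) := by
    have hK0 : (0 : ℝ) < K := lt_trans (by positivity) hK
    apply one_div_le_one_div_of_le hK0
    exact_mod_cast (by omega : K ≤ l + 1)
  have h6 : 4 * (1 / (K : ℝ)) < ε := by
    have hK0 : (0 : ℝ) < K := lt_trans (by positivity) hK
    rw [div_lt_iff₀ hε] at hK
    rw [mul_one_div, div_lt_iff₀ hK0]
    linarith
  linarith

end Pool.Agent.V11112.LV
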