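import Pool.Agent.V11112.LV1

open Filter Topology

namespace Pool.Agent.V11112.LV

variable {E : Type*} [NormedAddCommGroup E]

/-- prefixes of a strictly sorted list are filters -/
lemma prefix_filter (l : List ℕ) (hl : l.Pairwise (· < ·)) (p : List ℕ) (hp : p <+: l) :
    ∃ n, p = l.filter (fun i => decide (i < n)) := by
  induction l generalizing p with
  | nil =>
    rw [List.prefix_nil] at hp
    exact ⟨0, by simp [hp]⟩
  | cons a l ih =>
    rw [List.pairwise_cons] at hl
    cases p with
    | nil =>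
      refine ⟨0, ?_⟩
      simp
    | cons b p =>
      rw [List.cons_prefix_cons] at hp
      obtain ⟨rfl, hp⟩ := hp
      obtain ⟨n, hn⟩ := ih hl.2 p hp
      refine ⟨max n (b + 1), ?_⟩
      rw [List.filter_cons, if_pos (by simp)]
      congr 1
      rw [hn]
      apply List.filter_congr
      intro i hi
      have := hl.1 i hi
      simp only [decide_eq_decide]
      omega

lemma sort_take (x : ℕ → E) (S : Finset ℕ) (p : List ℕ) (hp : p <+: S.sort (· ≤ ·)) :
    ∃ n, (p.map x).sum = ∑ i ∈ S.filter (fun i => i < n), x i := by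
  obtain ⟨n, hn⟩ := prefix_filter _ (S.sortedLT_sort).pairwise p hp
  refine ⟨n, ?_⟩
  have hnd : p.Nodup := by
    rw [hn]
    exact (S.sort_nodup (· ≤ ·)).filter _
  rw [← List.sum_toFinset x hnd]
  congr 1
  rw [hn, List.toFinset_filter, Finset.sort_toFinset]
  ext i
  simp

/-- a permutation from a covering chain of lists -/
lemma perm_of_lists (L : ℕ → List ℕ) (hpre : ∀ k, L k <+: L (k + 1)) (hnd : ∀ k, (L k).Nodup)
    (hcov : ∀ k, ∀ i < k, i ∈ L k) :
    ∃ σ : Equiv.Perm ℕ, ∀ k i (hi : i < (L k).length), (L k)[i] = σ i := by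
  have hlen : ∀ k, k ≤ (L k).length := by
    intro k
    have h1 : Finset.range k ⊆ (L k).toFinset := by
      intro i hi
      rw [List.mem_toFinset]
      exact hcov k i (Finset.mem_range.1 hi)
    have h2 := Finset.card_le_card h1
    rw [Finset.card_range] at h2
    exact h2.trans (List.toFinset_card_le _)
  have hmono : ∀ k l, k ≤ l → L k <+: L l := by
    intro k l hkl
    induction l, hkl using Nat.le_induction with
    | base => exact List.prefix_rfl
    | succ l _ ih => exact ih.trans (hpre l)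
  have hget : ∀ k l i (h1 : i < (L k).length) (h2 : i < (L l).length), (L k)[i] = (L l)[i] := by
    intro k l i h1 h2
    rcases le_total k l with h | h
    · exact (hmono k l h).getElem h1
    · exact ((hmono l k h).getElem h2).symm
  have hl1 : ∀ i, i < (L (i + 1)).length := fun i => hlen (i + 1)
  let s : ℕ → ℕ := fun i => (L (i + 1))[i]'(hl1 i)
  have hs : ∀ k i (hi : i < (L k).length), (L k)[i] = s i := fun k i hi => hget k (i + 1) i hi _
  have hinj : Function.Injective s := by
    intro i j hij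
    have h1 : i < (L (max i j + 1)).length := lt_of_lt_of_le (by omega) (hlen _)
    have h2 : j < (L (max i j + 1)).length := lt_of_lt_of_le (by omega) (hlen _)
    rw [← hs _ i h1, ← hs _ j h2] at hij
    exact ((hnd _).getElem_inj_iff).1 hij
  have hsurj : Function.Surjective s := by
    intro n
    obtain ⟨i, hi, h⟩ := List.getElem_of_mem (hcov (n + 1) n (Nat.lt_succ_self n))
    exact ⟨i, by rw [← hs _ i hi]; exact h⟩
  exact ⟨Equiv.ofBijective s ⟨hinj, hsurj⟩, fun k i hi => hs k i hi⟩

lemma sum_eq_take (x : ℕ → E) (σ : Equiv.Perm ℕ) (l : List ℕ)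
    (h : ∀ i (hi : i < l.length), l[i] = σ i) (n : ℕ) (hn : n ≤ l.length) :
    ∑ i ∈ Finset.range n, x (σ i) = ((l.take n).map x).sum := by
  induction n with
  | zero => simp
  | succ n ih =>
    have h1 := ih (by omega)
    rw [Finset.sum_range_succ, h1, ← h n (by omega), List.map_take, List.map_take,
      List.sum_take_succ _ _ (by simpa using hn)]
    simp

/-- the least number missing from a list -/
noncomputable def mis (l : List ℕ) : ℕ := sInf {n | n ∉ l}

lemma mis_not_mem (l : List ℕ) : mis l ∉ l := by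
  have h : {n | n ∉ l}.Nonempty := by
    obtain ⟨n, hn⟩ := Infinite.exists_notMem_finset l.toFinset
    exact ⟨n, by simpa using hn⟩
  exact Nat.sInf_mem h

lemma mis_le {l : List ℕ} {n : ℕ} (h : n ∉ l) : mis l ≤ n := Nat.sInf_le h

/-- bound exceeding all entries of a list -/
def bd (l : List ℕ) : ℕ := l.toFinset.sup id + 1

lemma lt_bd {l : List ℕ} {i : ℕ} (h : i ∈ l) : i < bd l := by
  have : i ≤ l.toFinset.sup id := Finset.le_sup (f := id) (List.mem_toFinset.2 h)
  unfold bd
  omega

/-- list recursion for rearrangements -/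
noncomputable def lst (x : ℕ → E) (v : E) (f : ℕ → E → ℝ → Finset ℕ) : ℕ → List ℕ
  | 0 => []
  | k + 1 =>
    let l1 := lst x v f k ++ [mis (lst x v f k)]
    l1 ++ (f (bd l1) (v - (l1.map x).sum) (1 / ((k : ℝ) + 1))).sort (· ≤ ·)

theorem sr_of_ctrl {x : ℕ → E} (hx : Tendsto x atTop (𝓝 0)) (h : Ctrl x) (v : E) :
    ∃ σ : Equiv.Perm ℕ, Tendsto (fun N => ∑ n ∈ Finset.range N, x (σ n)) atTop (𝓝 v) := by
  classical
  unfold Ctrl at h
  choose! f hf using h
  obtain ⟨L, hL⟩ : ∃ L : ℕ → List ℕ, ∀ k, L k = lst x v f k := ⟨_, fun _ => rfl⟩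
  obtain ⟨M, hM⟩ : ∃ M : ℕ → List ℕ, ∀ k, M k = L k ++ [mis (L k)] := ⟨_, fun _ => rfl⟩
  obtain ⟨S, hS⟩ : ∃ S : ℕ → Finset ℕ, ∀ k, S k =
    f (bd (M k)) (v - ((M k).map x).sum) (1 / ((k : ℝ) + 1)) := ⟨_, fun _ => rfl⟩
  have hL0 : L 0 = [] := by rw [hL]; rfl
  have hLs : ∀ k, L (k + 1) = M k ++ (S k).sort (· ≤ ·) := by
    intro k
    rw [hS, hM, hL, hL]
    rfl
  have hδ : ∀ k : ℕ, (0 : ℝ) < 1 / ((k : ℝ) + 1) := fun k => by positivity
  have hS1 : ∀ k, ∀ i ∈ S k, bd (M k) ≤ i := fun k i hi => by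
    rw [hS] at hi
    exact (hf _ _ _ (hδ k)).1 i hi
  have hS3 : ∀ k, ‖∑ i ∈ S k, x i - (v - ((M k).map x).sum)‖ ≤ 1 / ((k : ℝ) + 1) := fun k => by
    conv_lhs => rw [hS]
    exact (hf _ _ _ (hδ k)).2.1
  have hS4 : ∀ k n, ‖∑ i ∈ (S k).filter (fun i => i < n), x i‖ ≤
      2 * ‖v - ((M k).map x).sum‖ + 1 / ((k : ℝ) + 1) := fun k n => by
    conv_lhs => rw [hS]
    exact (hf _ _ _ (hδ k)).2.2 n
  have hpre : ∀ k, L k <+: L (k + 1) := by
    intro k
    rw [hLs, hM, List.append_assoc]
    exact List.prefix_append _ _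
  have hndM : ∀ k, (L k).Nodup → (M k).Nodup := by
    intro k hk
    rw [hM]
    rw [List.nodup_append']
    refine ⟨hk, List.nodup_singleton _, ?_⟩
    rw [List.disjoint_singleton]
    exact mis_not_mem _
  have hnd : ∀ k, (L k).Nodup := by
    intro k
    induction k with
    | zero => rw [hL0]; exact List.nodup_nil
    | succ k ih =>
      rw [hLs, List.nodup_append']
      refine ⟨hndM k ih, (S k).sort_nodup _, ?_⟩
      intro i h1 h2
      rw [Finset.mem_sort] at h2
      have h3 := lt_bd h1
      have h4 := hS1 k i h2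
      omega
  have hcov : ∀ k, ∀ i < k, i ∈ L k := by
    intro k
    induction k with
    | zero => intro i hi; omega
    | succ k ih =>
      intro i hi
      by_cases h1 : i ∈ L k
      · exact (hpre k).subset h1
      · have h2 : i = k := by
          by_contra hc
          exact h1 (ih i (by omega))
        subst h2
        have h3 : mis (L i) = i := by
          apply le_antisymm (mis_le h1)
          by_contra hc
          push Not at hc
          exact mis_not_mem (L i) (ih _ hc)
        rw [hLs, hM, h3]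
        simp
  have hmis : ∀ k, k ≤ mis (L k) := by
    intro k
    by_contra hc
    push Not at hc
    exact mis_not_mem (L k) (hcov k _ hc)
  obtain ⟨σ, hσ⟩ := perm_of_lists L hpre hnd hcov
  have hlenlt : ∀ k, (L k).length < (L (k + 1)).length := by
    intro k
    rw [hLs, hM]
    simp
  have hlmono : StrictMono (fun k => (L k).length) := strictMono_nat_of_lt_succ hlenlt
  have hk : ∀ n, ∃ k, (L k).length ≤ n ∧ n < (L (k + 1)).length := by
    intro n
    have h1 : ∃ k, n < (L k).length := ⟨n + 1, lt_of_lt_of_le (Nat.lt_succ_self n)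
      (hlmono.id_le _)⟩
    obtain ⟨k, hk⟩ : ∃ k, k = Nat.find h1 := ⟨_, rfl⟩
    have h2 := Nat.find_spec h1
    rw [← hk] at h2
    cases k with
    | zero => rw [hL0] at h2; simp at h2
    | succ k =>
      refine ⟨k, ?_, h2⟩
      have := Nat.find_min h1 (m := k) (by rw [← hk]; omega)
      omega
  have ht : ∀ k, ‖v - ((L (k + 1)).map x).sum‖ ≤ 1 / ((k : ℝ) + 1) := by
    intro k
    have h1 : ((L (k + 1)).map x).sum = ((M k).map x).sum + ∑ i ∈ S k, x i := by
      rw [hLs, List.map_append, List.sum_append]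
      congr 1
      rw [← List.sum_toFinset x ((S k).sort_nodup _), Finset.sort_toFinset]
    rw [h1]
    have := hS3 k
    rw [← norm_neg] at this
    refine le_trans (le_of_eq ?_) this
    congr 1
    abel
  have hMn : ∀ k, ‖v - ((M k).map x).sum‖ ≤ ‖v - ((L k).map x).sum‖ + ‖x (mis (L k))‖ := by
    intro k
    rw [hM, List.map_append, List.sum_append]
    simp only [List.map_cons, List.map_nil, List.sum_cons, List.sum_nil, add_zero]
    have := norm_sub_le (v - ((L k).map x).sum) (x (mis (L k)))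
    refine le_trans (le_of_eq ?_) this
    congr 1
    abel
  -- bound for all partial sums
  have hbound : ∀ k n, (L (k + 1)).length ≤ n → n < (L (k + 1 + 1)).length →
      ‖∑ i ∈ Finset.range n, x (σ i) - v‖ ≤
        4 * (1 / ((k : ℝ) + 1)) + 3 * ‖x (mis (L (k + 1)))‖ := by
    intro k n h1 h2
    rw [sum_eq_take x σ (L (k + 1 + 1)) (hσ (k + 1 + 1)) n h2.le]
    have h3 := ht k
    have h4 := hMn (k + 1)
    have hp : (0 : ℝ) ≤ 1 / ((k : ℝ) + 1) := (hδ k).le
    have hx0 := norm_nonneg (x (mis (L (k + 1))))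
    have hδ' : 1 / (((k + 1 : ℕ) : ℝ) + 1) ≤ 1 / ((k : ℝ) + 1) := by
      apply one_div_le_one_div_of_le (by positivity)
      push_cast
      linarith
    rcases Nat.eq_or_lt_of_le h1 with h5 | h5
    · have h6 : (L (k + 1 + 1)).take n = L (k + 1) := by
        rw [← h5]
        exact (List.prefix_iff_eq_take.1 (hpre (k + 1))).symm
      rw [h6, ← norm_neg, neg_sub]
      linarith
    · have hMl : (M (k + 1)).length = (L (k + 1)).length + 1 := by rw [hM]; simp
      have h6 : (L (k + 1 + 1)).take n = M (k + 1) ++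
          ((S (k + 1)).sort (· ≤ ·)).take (n - (M (k + 1)).length) := by
        rw [hLs, List.take_append, List.take_of_length_le (by omega)]
      rw [h6, List.map_append, List.sum_append]
      obtain ⟨c, hc⟩ := sort_take x (S (k + 1)) _
        (List.take_prefix (n - (M (k + 1)).length) ((S (k + 1)).sort (· ≤ ·)))
      rw [hc]
      have h7 := hS4 (k + 1) c
      have h8 := norm_add_le (-(v - ((M (k + 1)).map x).sum))
        (∑ i ∈ (S (k + 1)).filter (fun i => i < c), x i)
      rw [norm_neg] at h8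
      have h9 : ((M (k + 1)).map x).sum + ∑ i ∈ (S (k + 1)).filter (fun i => i < c), x i - v =
          -(v - ((M (k + 1)).map x).sum) + ∑ i ∈ (S (k + 1)).filter (fun i => i < c), x i := by
        abel
      rw [h9]
      linarith
  refine ⟨σ, ?_⟩
  rw [Metric.tendsto_atTop]
  intro ε hε
  obtain ⟨K, hK⟩ := exists_nat_gt (8 / ε)
  obtain ⟨K', hK'⟩ := Metric.tendsto_atTop.1 hx (ε / 8) (by positivity)
  refine ⟨(L (max K K' + 1)).length, fun n hn => ?_⟩
  obtain ⟨k, hk1, hk2⟩ := hk n
  have hkK : max K K' + 1 ≤ k := by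
    by_contra hc
    push Not at hc
    have h1 : (L (k + 1)).length ≤ (L (max K K' + 1)).length :=
      hlmono.monotone (by omega)
    omega
  obtain ⟨l, rfl⟩ : ∃ l, k = l + 1 := ⟨k - 1, by omega⟩
  rw [dist_eq_norm]
  have h1 := hbound l n hk1 hk2
  have h2 : 1 / ((l : ℝ) + 1) ≤ 1 / (K : ℝ) := by
    have hK0 : (0 : ℝ) < K := lt_trans (by positivity) hK
    apply one_div_le_one_div_of_le hK0
    exact_mod_cast (by omega : K ≤ l + 1)
  have h3 : 4 * (1 / (K : ℝ)) < ε / 2 := by
    have hK0 : (0 : ℝ) < K := lt_trans (by positivity) hK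
    rw [div_lt_iff₀ hε] at hK
    rw [mul_one_div, div_lt_iff₀ hK0]
    linarith
  have h4 : ‖x (mis (L (l + 1)))‖ < ε / 8 := by
    have := hK' (mis (L (l + 1))) (by have := hmis (l + 1); omega)
    simpa [dist_eq_norm] using this
  linarith

end Pool.Agent.V11112.LV
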