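import Pool.Agent.V11112.LV2

open Filter Topology

namespace Pool.Agent.V11112.LV

/-- the plane -/
abbrev E2 := EuclideanSpace ℝ (Fin 2)

lemma norm_le_abs (v : E2) : ‖v‖ ≤ |v 0| + |v 1| := by
  rw [EuclideanSpace.norm_eq, Fin.sum_univ_two, Real.norm_eq_abs, Real.norm_eq_abs]
  rw [Real.sqrt_le_left (by positivity)]
  nlinarith [abs_nonneg (v 0), abs_nonneg (v 1)]

lemma abs_le_norm (v : E2) (i : Fin 2) : |v i| ≤ ‖v‖ := by
  have := PiLp.norm_apply_le v i
  simpa [Real.norm_eq_abs] using this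

/-- first coordinate of the four-term pattern -/
noncomputable def xa (al : ℕ → ℝ) (n : ℕ) : ℝ := if n % 2 = 0 then al (n / 4) else - al (n / 4)
/-- second coordinate of the four-term pattern -/
noncomputable def ya (ga : ℕ → ℝ) (n : ℕ) : ℝ := if n % 4 < 2 then ga (n / 4) else - ga (n / 4)
/-- the four-term pattern -/
noncomputable def qv (al ga : ℕ → ℝ) (n : ℕ) : E2 := !₂[xa al n, ya ga n]

lemma qv0 (al ga : ℕ → ℝ) (n : ℕ) : qv al ga n 0 = xa al n := by simp [qv]
lemma qv1 (al ga : ℕ → ℝ) (n : ℕ) : qv al ga n 1 = ya ga n := by simp [qv]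

lemma xa_abs {al : ℕ → ℝ} (h : ∀ q, 0 ≤ al q) (n : ℕ) : |xa al n| = al (n / 4) := by
  unfold xa
  split_ifs
  · exact abs_of_nonneg (h _)
  · rw [abs_neg]; exact abs_of_nonneg (h _)

lemma ya_abs {ga : ℕ → ℝ} (h : ∀ q, 0 ≤ ga q) (n : ℕ) : |ya ga n| = ga (n / 4) := by
  unfold ya
  split_ifs
  · exact abs_of_nonneg (h _)
  · rw [abs_neg]; exact abs_of_nonneg (h _)

lemma sum_coord (f : ℕ → E2) (S : Finset ℕ) (i : Fin 2) : (∑ n ∈ S, f n) i = ∑ n ∈ S, f n i := by
  simp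

lemma sum_four (f : ℕ → ℝ) (q : ℕ) : ∑ i ∈ Finset.range (4 * (q + 1)), f i =
    ∑ i ∈ Finset.range (4 * q), f i + (f (4 * q) + f (4 * q + 1) + f (4 * q + 2) + f (4 * q + 3)) := by
  rw [show 4 * (q + 1) = 4 * q + 1 + 1 + 1 + 1 by ring, Finset.sum_range_succ,
    Finset.sum_range_succ, Finset.sum_range_succ, Finset.sum_range_succ]
  ring

lemma within_four (f : ℕ → ℝ) {c : ℝ} (n : ℕ) (h : ∀ i, i / 4 = n / 4 → |f i| ≤ c) :
    |∑ i ∈ Finset.range n, f i - ∑ i ∈ Finset.range (4 * (n / 4)), f i| ≤ 3 * c := by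
  obtain ⟨q, hq⟩ : ∃ q, q = n / 4 := ⟨_, rfl⟩
  have hc : 0 ≤ c := (abs_nonneg _).trans (h n rfl)
  rw [← hq] at h ⊢
  have h0 := h (4 * q) (by omega)
  have h1 := h (4 * q + 1) (by omega)
  have h2 := h (4 * q + 2) (by omega)
  have hn : n = 4 * q ∨ n = 4 * q + 1 ∨ n = 4 * q + 1 + 1 ∨ n = 4 * q + 1 + 1 + 1 := by omega
  rw [abs_le] at h0 h1 h2
  rcases hn with rfl | rfl | rfl | rfl
  · rw [sub_self, abs_zero]; positivity
  · rw [Finset.sum_range_succ, abs_le]
    constructor <;> linarith [h0.1, h0.2]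
  · rw [Finset.sum_range_succ, Finset.sum_range_succ, abs_le]
    constructor <;> linarith [h0.1, h0.2, h1.1, h1.2]
  · rw [Finset.sum_range_succ, Finset.sum_range_succ, Finset.sum_range_succ, abs_le]
    constructor <;> linarith [h0.1, h0.2, h1.1, h1.2, h2.1, h2.2]

/-- partial sums -/
noncomputable def Sm (a : ℕ → ℝ) (q : ℕ) : ℝ := ∑ i ∈ Finset.range q, a i

lemma Sm_succ (a : ℕ → ℝ) (q : ℕ) : Sm a (q + 1) = Sm a q + a q := Finset.sum_range_succ _ _

lemma Sm_mono {a : ℕ → ℝ} (h : ∀ q, 0 ≤ a q) : Monotone (Sm a) := by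
  apply monotone_nat_of_le_succ
  intro q
  rw [Sm_succ]
  linarith [h q]

lemma reach {a : ℕ → ℝ} (h : ∀ q, 0 ≤ a q) (hs : ¬ Summable a) (q0 : ℕ) {ε : ℝ} (hε : 0 ≤ ε)
    (ha : ∀ q, q0 ≤ q → 2 * a q ≤ ε) {T : ℝ} (hT : 0 ≤ T) :
    ∃ q1, q0 ≤ q1 ∧ T ≤ 2 * (Sm a q1 - Sm a q0) ∧ 2 * (Sm a q1 - Sm a q0) ≤ T + ε := by
  have h1 : Tendsto (Sm a) atTop atTop := (not_summable_iff_tendsto_nat_atTop_of_nonneg h).1 hs
  have h2 : ∃ q, T ≤ 2 * (Sm a (q0 + q) - Sm a q0) := by
    obtain ⟨N, hN⟩ := (h1.eventually_ge_atTop (T / 2 + Sm a q0)).exists_forall_of_atTop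
    refine ⟨N, ?_⟩
    have := hN (q0 + N) (by omega)
    linarith
  obtain ⟨k, hk⟩ : ∃ k, k = Nat.find h2 := ⟨_, rfl⟩
  have h3 := Nat.find_spec h2
  rw [← hk] at h3
  refine ⟨q0 + k, by omega, h3, ?_⟩
  cases k with
  | zero => simp; linarith
  | succ k =>
    have h4 := Nat.find_min h2 (m := k) (by rw [← hk]; omega)
    push Not at h4
    have h5 := ha (q0 + k) (by omega)
    rw [← add_assoc, Sm_succ]
    linarith

/-- clamping -/
def cl (a b q : ℕ) : ℕ := min (max q a) b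

/-- the selected positions -/
def PP (q0 q1 q2 : ℕ) (X Y : ℝ) (n : ℕ) : Prop :=
  (q0 ≤ n / 4 ∧ n / 4 < q1 ∧ (n % 2 = 0 ↔ 0 ≤ X)) ∨
    (q1 ≤ n / 4 ∧ n / 4 < q2 ∧ (n % 4 < 2 ↔ 0 ≤ Y))

/-- sign of a real -/
noncomputable def sn (X : ℝ) : ℝ := if 0 ≤ X then 1 else -1

lemma sn_abs (X : ℝ) : |sn X| = 1 := by unfold sn; split_ifs <;> simp
lemma sn_mul (X : ℝ) : sn X * |X| = X := by
  unfold sn
  split_ifs with h
  · rw [abs_of_nonneg h]; ring
  · rw [abs_of_neg (not_le.1 h)]; ring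

open Classical in
lemma F0 (al : ℕ → ℝ) {q0 q1 q2 : ℕ} (h01 : q0 ≤ q1) (X Y : ℝ) (q : ℕ) :
    ∑ i ∈ Finset.range (4 * q), (if PP q0 q1 q2 X Y i then xa al i else 0) =
      sn X * (2 * (Sm al (cl q0 q1 q) - Sm al q0)) := by
  induction q with
  | zero =>
    have : cl q0 q1 0 = q0 := by unfold cl; omega
    simp [this]
  | succ q ih =>
    rw [sum_four, ih]
    have d0 : 4 * q / 4 = q := by omega
    have d1 : (4 * q + 1) / 4 = q := by omega
    have d2 : (4 * q + 2) / 4 = q := by omega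
    have d3 : (4 * q + 3) / 4 = q := by omega
    have m0 : (4 * q) % 2 = 0 := by omega
    have m1 : (4 * q + 1) % 2 = 1 := by omega
    have m2 : (4 * q + 2) % 2 = 0 := by omega
    have m3 : (4 * q + 3) % 2 = 1 := by omega
    have r0 : (4 * q) % 4 = 0 := by omega
    have r1 : (4 * q + 1) % 4 = 1 := by omega
    have r2 : (4 * q + 2) % 4 = 2 := by omega
    have r3 : (4 * q + 3) % 4 = 3 := by omega
    unfold PP xa sn
    rw [d0, d1, d2, d3, m0, m1, m2, m3, r0, r1, r2, r3]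
    rcases lt_trichotomy q q0 with h | h | h
    · have e1 : cl q0 q1 (q + 1) = q0 := by unfold cl; omega
      have e2 : cl q0 q1 q = q0 := by unfold cl; omega
      have e3 : ¬ q0 ≤ q := by omega
      have e4 : ¬ q1 ≤ q := by omega
      simp [e1, e2, e3, e4]
    · subst h
      by_cases h1 : q < q1
      · have e1 : cl q q1 (q + 1) = q + 1 := by unfold cl; omega
        have e2 : cl q q1 q = q := by unfold cl; omega
        have e4 : ¬ q1 ≤ q := by omega
        rw [e1, e2, Sm_succ]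
        by_cases hX : 0 ≤ X
        · simp [h1, e4, hX]; ring
        · simp [h1, e4, hX]; ring
      · have e1 : cl q q1 (q + 1) = q := by unfold cl; omega
        have e2 : cl q q1 q = q := by unfold cl; omega
        rw [e1, e2]
        by_cases hY : 0 ≤ Y
        · by_cases h2 : q < q2 <;> by_cases h3 : q1 ≤ q <;> simp [h1, h2, h3, hY]
        · by_cases h2 : q < q2 <;> by_cases h3 : q1 ≤ q <;> simp [h1, h2, h3, hY]
    · by_cases h1 : q < q1
      · have e1 : cl q0 q1 (q + 1) = q + 1 := by unfold cl; omega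
        have e2 : cl q0 q1 q = q := by unfold cl; omega
        have e3 : q0 ≤ q := by omega
        have e4 : ¬ q1 ≤ q := by omega
        rw [e1, e2, Sm_succ]
        by_cases hX : 0 ≤ X
        · simp [h1, e3, e4, hX]; ring
        · simp [h1, e3, e4, hX]; ring
      · have e1 : cl q0 q1 (q + 1) = q1 := by unfold cl; omega
        have e2 : cl q0 q1 q = q1 := by unfold cl; omega
        rw [e1, e2]
        by_cases hY : 0 ≤ Y
        · by_cases h2 : q < q2 <;> by_cases h3 : q1 ≤ q <;> simp [h1, h2, h3, hY]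
        · by_cases h2 : q < q2 <;> by_cases h3 : q1 ≤ q <;> simp [h1, h2, h3, hY]

open Classical in
lemma F1 (ga : ℕ → ℝ) {q0 q1 q2 : ℕ} (h12 : q1 ≤ q2) (X Y : ℝ) (q : ℕ) :
    ∑ i ∈ Finset.range (4 * q), (if PP q0 q1 q2 X Y i then ya ga i else 0) =
      sn Y * (2 * (Sm ga (cl q1 q2 q) - Sm ga q1)) := by
  induction q with
  | zero =>
    have : cl q1 q2 0 = q1 := by unfold cl; omega
    simp [this]
  | succ q ih =>
    rw [sum_four, ih]
    have d0 : 4 * q / 4 = q := by omega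
    have d1 : (4 * q + 1) / 4 = q := by omega
    have d2 : (4 * q + 2) / 4 = q := by omega
    have d3 : (4 * q + 3) / 4 = q := by omega
    have m0 : (4 * q) % 2 = 0 := by omega
    have m1 : (4 * q + 1) % 2 = 1 := by omega
    have m2 : (4 * q + 2) % 2 = 0 := by omega
    have m3 : (4 * q + 3) % 2 = 1 := by omega
    have r0 : (4 * q) % 4 = 0 := by omega
    have r1 : (4 * q + 1) % 4 = 1 := by omega
    have r2 : (4 * q + 2) % 4 = 2 := by omega
    have r3 : (4 * q + 3) % 4 = 3 := by omega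
    unfold PP ya sn
    rw [d0, d1, d2, d3, m0, m1, m2, m3, r0, r1, r2, r3]
    by_cases h1 : q < q1
    · have e1 : cl q1 q2 (q + 1) = q1 := by unfold cl; omega
      have e2 : cl q1 q2 q = q1 := by unfold cl; omega
      have e4 : ¬ q1 ≤ q := by omega
      rw [e1, e2]
      by_cases hX : 0 ≤ X
      · by_cases h3 : q0 ≤ q <;> simp [h1, e4, h3, hX]
      · by_cases h3 : q0 ≤ q <;> simp [h1, e4, h3, hX]
    · by_cases h2 : q < q2
      · have e1 : cl q1 q2 (q + 1) = q + 1 := by unfold cl; omega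
        have e2 : cl q1 q2 q = q := by unfold cl; omega
        have e3 : q1 ≤ q := by omega
        rw [e1, e2, Sm_succ]
        by_cases hY : 0 ≤ Y
        · simp [h1, h2, e3, hY]; ring
        · simp [h1, h2, e3, hY]; ring
      · have e1 : cl q1 q2 (q + 1) = q2 := by unfold cl; omega
        have e2 : cl q1 q2 q = q2 := by unfold cl; omega
        rw [e1, e2]
        simp [h1, h2]

end Pool.Agent.V11112.LV
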