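import Pool.Agent.V11112.LV3

open Filter Topology

namespace Pool.Agent.V11112.LV

lemma cl_bd {a : ℕ → ℝ} (h : ∀ q, 0 ≤ a q) {p r : ℕ} (hpr : p ≤ r) (q : ℕ) :
    0 ≤ 2 * (Sm a (cl p r q) - Sm a p) ∧
      2 * (Sm a (cl p r q) - Sm a p) ≤ 2 * (Sm a r - Sm a p) := by
  have h1 : p ≤ cl p r q := by unfold cl; omega
  have h2 : cl p r q ≤ r := by unfold cl; omega
  have h3 := Sm_mono h h1
  have h4 := Sm_mono h h2
  constructor <;> linarith

open Classical in
theorem ctrl_qv {al ga : ℕ → ℝ} (ha : ∀ q, 0 ≤ al q) (hg : ∀ q, 0 ≤ ga q)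
    (ha0 : Tendsto al atTop (𝓝 0)) (hg0 : Tendsto ga atTop (𝓝 0))
    (has : ¬ Summable al) (hgs : ¬ Summable ga) : Ctrl (qv al ga) := by
  intro N t δ hδ
  have hδ' : 0 < δ / 16 := by positivity
  obtain ⟨Na, hNa⟩ := (ha0.eventually_lt_const hδ').exists_forall_of_atTop
  obtain ⟨Ng, hNg⟩ := (hg0.eventually_lt_const hδ').exists_forall_of_atTop
  obtain ⟨q0, hq0⟩ : ∃ q0, q0 = max N (max Na Ng) := ⟨_, rfl⟩
  have hal : ∀ q, q0 ≤ q → al q ≤ δ / 16 := fun q hq => (hNa q (by omega)).le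
  have hga : ∀ q, q0 ≤ q → ga q ≤ δ / 16 := fun q hq => (hNg q (by omega)).le
  obtain ⟨q1, h01, hx1, hx2⟩ := reach ha has q0 (by positivity : (0 : ℝ) ≤ δ / 8)
    (fun q hq => by linarith [hal q hq]) (abs_nonneg (t 0))
  obtain ⟨q2, h12, hy1, hy2⟩ := reach hg hgs q1 (by positivity : (0 : ℝ) ≤ δ / 8)
    (fun q hq => by linarith [hga q (by omega)]) (abs_nonneg (t 1))
  obtain ⟨P, hP⟩ : ∃ P : ℕ → Prop, P = PP q0 q1 q2 (t 0) (t 1) := ⟨_, rfl⟩
  have hPq : ∀ n, P n → q0 ≤ n / 4 ∧ n / 4 < q2 := by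
    intro n hn
    rw [hP] at hn
    unfold PP at hn
    rcases hn with hn | hn <;> omega
  obtain ⟨S, hS⟩ : ∃ S : Finset ℕ, S = (Finset.range (4 * q2)).filter P := ⟨_, rfl⟩
  have hSn : ∀ n, S.filter (fun i => i < n) = (Finset.range (min n (4 * q2))).filter P := by
    intro n
    rw [hS]
    ext i
    simp only [Finset.mem_filter, Finset.mem_range]
    constructor
    · rintro ⟨⟨h1, h2⟩, h3⟩
      exact ⟨by omega, h2⟩
    · rintro ⟨h1, h2⟩
      exact ⟨⟨by omega, h2⟩, by omega⟩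
  -- coordinate sums
  have c0 : ∀ n, (∑ i ∈ (Finset.range n).filter P, qv al ga i) 0 =
      ∑ i ∈ Finset.range n, (if P i then xa al i else 0) := by
    intro n
    rw [sum_coord, Finset.sum_filter]
    simp only [qv0]
  have c1 : ∀ n, (∑ i ∈ (Finset.range n).filter P, qv al ga i) 1 =
      ∑ i ∈ Finset.range n, (if P i then ya ga i else 0) := by
    intro n
    rw [sum_coord, Finset.sum_filter]
    simp only [qv1]
  have f0 : ∀ q, ∑ i ∈ Finset.range (4 * q), (if P i then xa al i else 0) =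
      sn (t 0) * (2 * (Sm al (cl q0 q1 q) - Sm al q0)) := by
    intro q
    rw [hP]
    exact F0 al h01 (t 0) (t 1) q
  have f1 : ∀ q, ∑ i ∈ Finset.range (4 * q), (if P i then ya ga i else 0) =
      sn (t 1) * (2 * (Sm ga (cl q1 q2 q) - Sm ga q1)) := by
    intro q
    rw [hP]
    exact F1 ga h12 (t 0) (t 1) q
  have b0 : ∀ n, |∑ i ∈ Finset.range n, (if P i then xa al i else 0)| ≤
      |t 0| + δ / 8 + 3 * (δ / 16) := by
    intro n
    have h1 := within_four (fun i => if P i then xa al i else 0) (c := δ / 16) n (by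
      intro i hi
      by_cases h2 : P i
      · simp only [h2, if_true]
        rw [xa_abs ha]
        exact hal _ (hPq i h2).1
      · simp only [h2, if_false, abs_zero]
        positivity)
    have h2 : |∑ i ∈ Finset.range (4 * (n / 4)), (if P i then xa al i else 0)| ≤
        |t 0| + δ / 8 := by
      rw [f0, abs_mul, sn_abs, one_mul]
      have h3 := cl_bd ha h01 (n / 4)
      rw [abs_of_nonneg h3.1]
      linarith [h3.2]
    have h3 := abs_add_le (∑ i ∈ Finset.range n, (if P i then xa al i else 0) -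
      ∑ i ∈ Finset.range (4 * (n / 4)), (if P i then xa al i else 0))
      (∑ i ∈ Finset.range (4 * (n / 4)), (if P i then xa al i else 0))
    rw [sub_add_cancel] at h3
    linarith
  have b1 : ∀ n, |∑ i ∈ Finset.range n, (if P i then ya ga i else 0)| ≤
      |t 1| + δ / 8 + 3 * (δ / 16) := by
    intro n
    have h1 := within_four (fun i => if P i then ya ga i else 0) (c := δ / 16) n (by
      intro i hi
      by_cases h2 : P i
      · simp only [h2, if_true]
        rw [ya_abs hg]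
        exact hga _ (hPq i h2).1
      · simp only [h2, if_false, abs_zero]
        positivity)
    have h2 : |∑ i ∈ Finset.range (4 * (n / 4)), (if P i then ya ga i else 0)| ≤
        |t 1| + δ / 8 := by
      rw [f1, abs_mul, sn_abs, one_mul]
      have h3 := cl_bd hg h12 (n / 4)
      rw [abs_of_nonneg h3.1]
      linarith [h3.2]
    have h3 := abs_add_le (∑ i ∈ Finset.range n, (if P i then ya ga i else 0) -
      ∑ i ∈ Finset.range (4 * (n / 4)), (if P i then ya ga i else 0))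
      (∑ i ∈ Finset.range (4 * (n / 4)), (if P i then ya ga i else 0))
    rw [sub_add_cancel] at h3
    linarith
  refine ⟨S, ?_, ?_, ?_⟩
  · intro i hi
    rw [hS, Finset.mem_filter] at hi
    have := (hPq i hi.2).1
    omega
  · have e0 : (∑ i ∈ S, qv al ga i) 0 = sn (t 0) * (2 * (Sm al q1 - Sm al q0)) := by
      rw [hS, c0, f0]
      have : cl q0 q1 q2 = q1 := by unfold cl; omega
      rw [this]
    have e1 : (∑ i ∈ S, qv al ga i) 1 = sn (t 1) * (2 * (Sm ga q2 - Sm ga q1)) := by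
      rw [hS, c1, f1]
      have : cl q1 q2 q2 = q2 := by unfold cl; omega
      rw [this]
    refine (norm_le_abs _).trans ?_
    rw [PiLp.sub_apply, PiLp.sub_apply, e0, e1]
    have g0 : |sn (t 0) * (2 * (Sm al q1 - Sm al q0)) - t 0| ≤ δ / 8 := by
      nth_rewrite 2 [← sn_mul (t 0)]
      rw [← mul_sub, abs_mul, sn_abs, one_mul, abs_of_nonneg (by linarith)]
      linarith
    have g1 : |sn (t 1) * (2 * (Sm ga q2 - Sm ga q1)) - t 1| ≤ δ / 8 := by
      nth_rewrite 2 [← sn_mul (t 1)]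
      rw [← mul_sub, abs_mul, sn_abs, one_mul, abs_of_nonneg (by linarith)]
      linarith
    linarith
  · intro n
    rw [hSn]
    refine (norm_le_abs _).trans ?_
    rw [c0, c1]
    have h1 := b0 (min n (4 * q2))
    have h2 := b1 (min n (4 * q2))
    have h3 := abs_le_norm t 0
    have h4 := abs_le_norm t 1
    linarith

/-- the sequence tends to zero -/
lemma qv_tendsto {al ga : ℕ → ℝ} (ha : ∀ q, 0 ≤ al q) (hg : ∀ q, 0 ≤ ga q)
    (ha0 : Tendsto al atTop (𝓝 0)) (hg0 : Tendsto ga atTop (𝓝 0)) :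
    Tendsto (qv al ga) atTop (𝓝 0) := by
  have hdiv : Tendsto (fun n : ℕ => n / 4) atTop atTop := by
    rw [tendsto_atTop]
    intro b
    filter_upwards [eventually_ge_atTop (4 * b)] with n hn
    omega
  apply squeeze_zero_norm (a := fun n => al (n / 4) + ga (n / 4))
  · intro n
    refine (norm_le_abs _).trans ?_
    rw [qv0, qv1, xa_abs ha, ya_abs hg]
  · simpa using (ha0.comp hdiv).add (hg0.comp hdiv)

lemma sum_xa (al : ℕ → ℝ) (q : ℕ) : ∑ i ∈ Finset.range (4 * q), xa al i = 0 := by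
  induction q with
  | zero => simp
  | succ q ih =>
    rw [sum_four, ih]
    have d0 : 4 * q / 4 = q := by omega
    have d1 : (4 * q + 1) / 4 = q := by omega
    have d2 : (4 * q + 2) / 4 = q := by omega
    have d3 : (4 * q + 3) / 4 = q := by omega
    have m0 : (4 * q) % 2 = 0 := by omega
    have m1 : (4 * q + 1) % 2 = 1 := by omega
    have m2 : (4 * q + 2) % 2 = 0 := by omega
    have m3 : (4 * q + 3) % 2 = 1 := by omega
    unfold xa
    rw [d0, d1, d2, d3, m0, m1, m2, m3]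
    simp

lemma sum_ya (ga : ℕ → ℝ) (q : ℕ) : ∑ i ∈ Finset.range (4 * q), ya ga i = 0 := by
  induction q with
  | zero => simp
  | succ q ih =>
    rw [sum_four, ih]
    have d0 : 4 * q / 4 = q := by omega
    have d1 : (4 * q + 1) / 4 = q := by omega
    have d2 : (4 * q + 2) / 4 = q := by omega
    have d3 : (4 * q + 3) / 4 = q := by omega
    have r0 : (4 * q) % 4 = 0 := by omega
    have r1 : (4 * q + 1) % 4 = 1 := by omega
    have r2 : (4 * q + 2) % 4 = 2 := by omega
    have r3 : (4 * q + 3) % 4 = 3 := by omega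
    unfold ya
    rw [d0, d1, d2, d3, r0, r1, r2, r3]
    simp

lemma qv_converges {al ga : ℕ → ℝ} (ha : ∀ q, 0 ≤ al q) (hg : ∀ q, 0 ≤ ga q)
    (ha0 : Tendsto al atTop (𝓝 0)) (hg0 : Tendsto ga atTop (𝓝 0)) :
    Tendsto (fun N => ∑ n ∈ Finset.range N, qv al ga n) atTop (𝓝 0) := by
  have hdiv : Tendsto (fun n : ℕ => n / 4) atTop atTop := by
    rw [tendsto_atTop]
    intro b
    filter_upwards [eventually_ge_atTop (4 * b)] with n hn
    omega
  apply squeeze_zero_norm (a := fun n => 3 * al (n / 4) + 3 * ga (n / 4))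
  · intro n
    refine (norm_le_abs _).trans ?_
    rw [sum_coord, sum_coord]
    simp only [qv0, qv1]
    have h1 := within_four (xa al) (c := al (n / 4)) n (fun i hi => by rw [xa_abs ha, hi])
    have h2 := within_four (ya ga) (c := ga (n / 4)) n (fun i hi => by rw [ya_abs hg, hi])
    rw [sum_xa, sub_zero] at h1
    rw [sum_ya, sub_zero] at h2
    linarith
  · simpa using ((ha0.comp hdiv).const_mul 3).add ((hg0.comp hdiv).const_mul 3)

lemma four_inj : Function.Injective (fun q : ℕ => 4 * q) := fun a b h => by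
  simp only at h
  omega

lemma qv_not_summable {al ga : ℕ → ℝ} (ha : ∀ q, 0 ≤ al q) (has : ¬ Summable al) :
    ¬ Summable (fun n => ‖qv al ga n‖) := by
  intro h
  apply has
  have h1 := h.comp_injective four_inj
  apply Summable.of_nonneg_of_le ha _ h1
  intro q
  have h2 := abs_le_norm (qv al ga (4 * q)) 0
  rw [qv0, xa_abs ha] at h2
  have : 4 * q / 4 = q := by omega
  rw [this] at h2
  exact h2

/-- Levy vectors -/
def Levy (x : ℕ → E2) : Set E2 :=
  {u | ‖u‖ = 1 ∧ ∀ ε : ℝ, 0 < ε → ¬ Summable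
    ({n | (1 - ε) * ‖u‖ * ‖x n‖ ≤ inner ℝ u (x n)}.indicator (fun n => ‖x n‖))}

lemma inner_two (u v : E2) : inner ℝ u v = u 0 * v 0 + u 1 * v 1 := by
  rw [PiLp.inner_apply, Fin.sum_univ_two]
  simp
  ring

lemma norm_sq_two (u : E2) : ‖u‖ ^ 2 = u 0 ^ 2 + u 1 ^ 2 := by
  rw [EuclideanSpace.norm_sq_eq, Fin.sum_univ_two]
  simp [sq_abs]

/-- first unit vector -/
noncomputable def e1 : E2 := !₂[1, 0]

lemma e1_0 : e1 0 = 1 := by simp [e1]
lemma e1_1 : e1 1 = 0 := by simp [e1]
lemma norm_e1 : ‖e1‖ = 1 := by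
  have h := norm_sq_two e1
  rw [e1_0, e1_1] at h
  have h2 := norm_nonneg e1
  nlinarith

lemma e1_levy {al ga : ℕ → ℝ} (ha : ∀ q, 0 ≤ al q) (hg : ∀ q, 0 ≤ ga q)
    (has : ¬ Summable al) (hr : ∀ ε : ℝ, 0 < ε → ∀ᶠ q in atTop, ga q ≤ ε * al q) :
    e1 ∈ Levy (qv al ga) := by
  refine ⟨norm_e1, fun ε hε hsum => ?_⟩
  apply has
  have h1 := hsum.comp_injective four_inj
  have h2 : ∀ᶠ q in atTop, ‖al q‖ ≤ ({n | (1 - ε) * ‖e1‖ * ‖qv al ga n‖ ≤
      inner ℝ e1 (qv al ga n)}.indicator (fun n => ‖qv al ga n‖) ∘ (fun q : ℕ => 4 * q)) q := by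
    filter_upwards [hr (min ε 1) (by positivity)] with q hq
    have hq4 : 4 * q / 4 = q := by omega
    have hq2 : (4 * q) % 2 = 0 := by omega
    have hx : qv al ga (4 * q) 0 = al q := by
      rw [qv0]; unfold xa; rw [hq2, if_pos rfl, hq4]
    have hy : |qv al ga (4 * q) 1| = ga q := by
      rw [qv1, ya_abs hg, hq4]
    have hn := norm_le_abs (qv al ga (4 * q))
    rw [hx, hy, abs_of_nonneg (ha q)] at hn
    have hmem : (4 * q) ∈ {n | (1 - ε) * ‖e1‖ * ‖qv al ga n‖ ≤ inner ℝ e1 (qv al ga n)} := by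
      show (1 - ε) * ‖e1‖ * ‖qv al ga (4 * q)‖ ≤ inner ℝ e1 (qv al ga (4 * q))
      rw [inner_two, e1_0, e1_1, hx, norm_e1, mul_one, one_mul, zero_mul, add_zero]
      have hmin1 : min ε 1 ≤ ε := min_le_left _ _
      have hmin2 : min ε 1 ≤ 1 := min_le_right _ _
      have h0 := norm_nonneg (qv al ga (4 * q))
      have hal := ha q
      have hgl := hg q
      calc (1 - ε) * ‖qv al ga (4 * q)‖ ≤ (1 - min ε 1) * ‖qv al ga (4 * q)‖ := by
            gcongr
        _ ≤ (1 - min ε 1) * (al q + ga q) := by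
            gcongr
        _ ≤ al q := by
          have hm0 : 0 < min ε 1 := by positivity
          nlinarith
    have hval : ({n | (1 - ε) * ‖e1‖ * ‖qv al ga n‖ ≤
      inner ℝ e1 (qv al ga n)}.indicator (fun n => ‖qv al ga n‖) ∘ (fun q : ℕ => 4 * q)) q =
        ‖qv al ga (4 * q)‖ := by
      rw [Function.comp_apply, Set.indicator_of_mem hmem]
    rw [hval, Real.norm_eq_abs, ← hx]
    exact abs_le_norm _ _
  exact Summable.of_norm_bounded_eventually_nat h1 h2

lemma neg_e1_levy {al ga : ℕ → ℝ} (ha : ∀ q, 0 ≤ al q) (hg : ∀ q, 0 ≤ ga q)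
    (has : ¬ Summable al) (hr : ∀ ε : ℝ, 0 < ε → ∀ᶠ q in atTop, ga q ≤ ε * al q) :
    -e1 ∈ Levy (qv al ga) := by
  refine ⟨by rw [norm_neg]; exact norm_e1, fun ε hε hsum => ?_⟩
  apply has
  have hinj : Function.Injective (fun q : ℕ => 4 * q + 1) := fun a b h => by
    simp only at h
    omega
  have h1 := hsum.comp_injective hinj
  have h2 : ∀ᶠ q in atTop, ‖al q‖ ≤ ({n | (1 - ε) * ‖-e1‖ * ‖qv al ga n‖ ≤
      inner ℝ (-e1) (qv al ga n)}.indicator (fun n => ‖qv al ga n‖) ∘
        (fun q : ℕ => 4 * q + 1)) q := by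
    filter_upwards [hr (min ε 1) (by positivity)] with q hq
    have hq4 : (4 * q + 1) / 4 = q := by omega
    have hq2 : (4 * q + 1) % 2 = 1 := by omega
    have hx : qv al ga (4 * q + 1) 0 = - al q := by
      rw [qv0]; unfold xa; rw [hq2, if_neg (by norm_num), hq4]
    have hy : |qv al ga (4 * q + 1) 1| = ga q := by
      rw [qv1, ya_abs hg, hq4]
    have hn := norm_le_abs (qv al ga (4 * q + 1))
    rw [hx, hy, abs_neg, abs_of_nonneg (ha q)] at hn
    have hmem : (4 * q + 1) ∈ {n | (1 - ε) * ‖-e1‖ * ‖qv al ga n‖ ≤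
        inner ℝ (-e1) (qv al ga n)} := by
      show (1 - ε) * ‖-e1‖ * ‖qv al ga (4 * q + 1)‖ ≤ inner ℝ (-e1) (qv al ga (4 * q + 1))
      rw [norm_neg, inner_neg_left, inner_two, e1_0, e1_1, hx, norm_e1, mul_one, one_mul, zero_mul,
        add_zero, neg_neg]
      have hmin1 : min ε 1 ≤ ε := min_le_left _ _
      have hmin2 : min ε 1 ≤ 1 := min_le_right _ _
      have h0 := norm_nonneg (qv al ga (4 * q + 1))
      have hal := ha q
      have hgl := hg q
      calc (1 - ε) * ‖qv al ga (4 * q + 1)‖ ≤ (1 - min ε 1) * ‖qv al ga (4 * q + 1)‖ := by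
            gcongr
        _ ≤ (1 - min ε 1) * (al q + ga q) := by
            gcongr
        _ ≤ al q := by
          have hm0 : 0 < min ε 1 := by positivity
          nlinarith
    have hval : ({n | (1 - ε) * ‖-e1‖ * ‖qv al ga n‖ ≤
      inner ℝ (-e1) (qv al ga n)}.indicator (fun n => ‖qv al ga n‖) ∘
        (fun q : ℕ => 4 * q + 1)) q = ‖qv al ga (4 * q + 1)‖ := by
      rw [Function.comp_apply, Set.indicator_of_mem hmem]
    rw [hval, Real.norm_eq_abs, ← abs_neg, ← hx]
    exact abs_le_norm _ _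
  exact Summable.of_norm_bounded_eventually_nat h1 h2

lemma levy_only {al ga : ℕ → ℝ} (ha : ∀ q, 0 < al q) (hg : ∀ q, 0 ≤ ga q)
    (hr : ∀ ε : ℝ, 0 < ε → ∀ᶠ q in atTop, ga q ≤ ε * al q) {u : E2}
    (hu : u ∈ Levy (qv al ga)) : u = e1 ∨ u = -e1 := by
  obtain ⟨hu1, hu2⟩ := hu
  have hsq := norm_sq_two u
  rw [hu1, one_pow] at hsq
  by_cases h1 : |u 0| = 1
  · have h2 : u 1 = 0 := by
      have : u 0 ^ 2 = 1 := by rw [← sq_abs, h1, one_pow]
      nlinarith
    rcases eq_or_eq_neg_of_abs_eq h1 with h3 | h3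
    · left
      ext i
      fin_cases i
      · simpa [e1] using h3
      · simpa [e1] using h2
    · right
      ext i
      fin_cases i
      · simpa [e1] using h3
      · simpa [e1] using h2
  · exfalso
    have hlt : |u 0| < 1 := by
      rcases lt_or_ge (|u 0|) 1 with h | h
      · exact h
      · exfalso
        apply h1
        have : |u 0| ^ 2 ≤ 1 := by rw [sq_abs]; nlinarith [sq_nonneg (u 1)]
        nlinarith [abs_nonneg (u 0)]
    have hu1' : |u 1| ≤ 1 := by
      have : |u 1| ^ 2 ≤ 1 := by rw [sq_abs]; nlinarith [sq_nonneg (u 0)]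
      nlinarith [abs_nonneg (u 1)]
    obtain ⟨ε, hε⟩ : ∃ ε : ℝ, ε = (1 - |u 0|) / 2 := ⟨_, rfl⟩
    have hε0 : 0 < ε := by rw [hε]; linarith
    apply hu2 ε hε0
    have hdiv : Tendsto (fun n : ℕ => n / 4) atTop atTop := by
      rw [tendsto_atTop]
      intro b
      filter_upwards [eventually_ge_atTop (4 * b)] with n hn
      omega
    have h3 := hdiv.eventually (hr (ε / 2) (by positivity))
    obtain ⟨n0, hn0⟩ := eventually_atTop.1 h3
    apply summable_of_ne_finset_zero (s := Finset.range n0)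
    intro n hn
    rw [Finset.mem_range, not_lt] at hn
    apply Set.indicator_of_notMem
    intro hmem
    have hmem' : (1 - ε) * ‖u‖ * ‖qv al ga n‖ ≤ inner ℝ u (qv al ga n) := hmem
    rw [hu1, mul_one, inner_two] at hmem'
    have h4 := hn0 n hn
    have h5 : |qv al ga n 0| = al (n / 4) := by rw [qv0, xa_abs (fun q => (ha q).le)]
    have h6 : |qv al ga n 1| = ga (n / 4) := by rw [qv1, ya_abs hg]
    have h7 := abs_le_norm (qv al ga n) 0
    rw [h5] at h7
    have h8 : u 0 * qv al ga n 0 ≤ |u 0| * al (n / 4) := by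
      rw [← h5, ← abs_mul]; exact le_abs_self _
    have h9 : u 1 * qv al ga n 1 ≤ 1 * ga (n / 4) := by
      calc u 1 * qv al ga n 1 ≤ |u 1 * qv al ga n 1| := le_abs_self _
        _ = |u 1| * ga (n / 4) := by rw [abs_mul, h6]
        _ ≤ 1 * ga (n / 4) := by gcongr; exact hg _
    have h10 := ha (n / 4)
    have h11 : (1 - ε) * al (n / 4) ≤ (1 - ε) * ‖qv al ga n‖ := by
      have : 0 ≤ 1 - ε := by rw [hε]; have := abs_nonneg (u 0); linarith
      gcongr
    have h12 : 1 - ε - |u 0| = ε := by rw [hε]; ring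
    nlinarith

lemma levy_card {al ga : ℕ → ℝ} (ha : ∀ q, 0 < al q) (hg : ∀ q, 0 ≤ ga q)
    (has : ¬ Summable al) (hr : ∀ ε : ℝ, 0 < ε → ∀ᶠ q in atTop, ga q ≤ ε * al q) :
    (Levy (qv al ga)).ncard = 2 := by
  have h : Levy (qv al ga) = {e1, -e1} := by
    ext u
    simp only [Set.mem_insert_iff, Set.mem_singleton_iff]
    constructor
    · exact levy_only ha hg hr
    · rintro (rfl | rfl)
      · exact e1_levy (fun q => (ha q).le) hg has hr
      · exact neg_e1_levy (fun q => (ha q).le) hg has hr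
  rw [h, Set.ncard_pair]
  intro h
  have h2 : e1 0 = (-e1) 0 := by rw [← h]
  rw [PiLp.neg_apply, e1_0] at h2
  norm_num at h2

end Pool.Agent.V11112.LV
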