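import Pool.Agent.V11112.SG2

open Filter Topology

namespace Pool.Agent.V11112.SG

/-- numerators of the special target -/
def zz : ℕ → ℤ
  | 0 => 0
  | j + 1 => zz j * (r j : ℤ) + 1

lemma zz_succ (j : ℕ) : zz (j + 1) = zz j * (r j : ℤ) + 1 := rfl

/-- partial sums of the special target -/
noncomputable def yy (j : ℕ) : ℝ := (zz j : ℝ) / (G j : ℝ)

/-- height of the special target -/
noncomputable def y0 : ℝ := ⨆ j, yy j

attribute [irreducible] zz

lemma Gp (j : ℕ) : (0 : ℝ) < G j := by exact_mod_cast G_pos j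
lemma rp (j : ℕ) : (0 : ℝ) < r j := by exact_mod_cast r_pos j

lemma yy_succ (j : ℕ) : yy (j + 1) = yy j + ga j := by
  have h1 := Gp j
  have h2 := rp j
  unfold yy ga
  rw [zz_succ, G_succ]
  push_cast
  field_simp

lemma ga_succ_le (j : ℕ) : 2 * ga (j + 1) ≤ ga j := by
  have h1 := Gp (j + 1)
  have h2 := ga_r (j + 1)
  have h3 : (2 : ℝ) ≤ r (j + 1) := by
    have := r_big (j + 1)
    exact_mod_cast (by omega : 2 ≤ r (j + 1))
  have h4 := ga_pos (j + 1)
  have h5 : ga j = 1 / (G (j + 1) : ℝ) := rfl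
  rw [h5, ← h2]
  nlinarith

lemma yy_mono : Monotone yy := by
  apply monotone_nat_of_le_succ
  intro j
  rw [yy_succ]
  have := ga_pos j
  linarith

lemma yy_anti : Antitone (fun j => yy j + 2 * ga j) := by
  apply antitone_nat_of_succ_le
  intro j
  rw [yy_succ]
  have := ga_succ_le j
  linarith

lemma yy_le_upper (i j : ℕ) : yy i ≤ yy j + 2 * ga j := by
  rcases le_total i j with h | h
  · have h1 := yy_mono h
    have h2 := ga_pos j
    linarith
  · have h1 := yy_anti h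
    have h2 := ga_pos i
    simp only at h1
    linarith

lemma y0_le (j : ℕ) : y0 ≤ yy j + 2 * ga j := ciSup_le (fun i => yy_le_upper i j)

lemma le_y0 (j : ℕ) : yy j ≤ y0 := by
  apply le_ciSup (f := yy) _ j
  refine ⟨yy 0 + 2 * ga 0, ?_⟩
  rintro _ ⟨i, rfl⟩
  exact yy_le_upper i 0

lemma zz_odd (j : ℕ) : ∃ q : ℤ, zz (j + 1) = 2 * q + 1 := by
  obtain ⟨q, hq⟩ := r_even j
  refine ⟨zz j * q, ?_⟩
  rw [zz_succ, hq]
  push_cast
  ring

lemma sum_parity (b : ℕ → Bool) (n : ℕ) :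
    ∃ q : ℤ, ∑ k ∈ Finset.range n, sg (b k) = (n : ℤ) + 2 * q := by
  induction n with
  | zero => exact ⟨0, by simp⟩
  | succ n ih =>
    obtain ⟨q, hq⟩ := ih
    rw [Finset.sum_range_succ, hq]
    cases h : b n
    · exact ⟨q - 1, by simp [sg]; ring⟩
    · exact ⟨q, by simp [sg]; ring⟩

lemma sum_abs_le (b : ℕ → Bool) (n : ℕ) : |∑ k ∈ Finset.range n, sg (b k)| ≤ n := by
  refine (Finset.abs_sum_le_sum_abs _ _).trans ?_
  simp [sg_abs]

lemma W_even (ε : ℕ → Bool) (j : ℕ) :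
    ∃ q : ℤ, SU ε j (r j) + SA ε j (m j) - SB ε j (m j) = 2 * q := by
  obtain ⟨a, ha⟩ := sum_parity (fun k => ε (s j + k)) (r j)
  obtain ⟨b, hb⟩ := sum_parity (fun k => ε (s j + r j + k)) (m j)
  obtain ⟨c, hc⟩ := sum_parity (fun k => ε (s j + r j + m j + k)) (m j)
  obtain ⟨q, hq⟩ := r_even j
  refine ⟨q + a + b - c, ?_⟩
  unfold SU SA SB
  rw [ha, hb, hc, hq]
  push_cast
  ring

lemma py_even (ε : ℕ → Bool) (j : ℕ) :
    ∃ q : ℤ, PS (cat yt) ε (s j) * (G j : ℝ) = 2 * (q : ℝ) := by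
  induction j with
  | zero => exact ⟨0, by rw [s_zero]; simp [PS]⟩
  | succ j ih =>
    obtain ⟨q, hq⟩ := ih
    obtain ⟨w, hw⟩ := W_even ε j
    refine ⟨q * r j + w, ?_⟩
    have hw' : (SU ε j (r j) : ℝ) + (SA ε j (m j) : ℝ) - (SB ε j (m j) : ℝ) = 2 * (w : ℝ) := by
      exact_mod_cast hw
    rw [py_next, hw']
    have h1 : ga j * (G (j + 1) : ℝ) = 1 := by
      have := Gp (j + 1)
      unfold ga
      field_simp
    have h2 : (G (j + 1) : ℝ) = (G j : ℝ) * (r j : ℝ) := by rw [G_succ]; push_cast; ring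
    push_cast
    calc (PS (cat yt) ε (s j) + ga j * (2 * (w : ℝ))) * (G (j + 1) : ℝ)
        = PS (cat yt) ε (s j) * (G (j + 1) : ℝ) + (ga j * (G (j + 1) : ℝ)) * (2 * w) := by ring
      _ = (PS (cat yt) ε (s j) * (G j : ℝ)) * r j + 2 * w := by rw [h1, h2]; ring
      _ = 2 * ((q : ℝ) * (r j : ℝ) + w) := by rw [hq]; ring

lemma lower (ε : ℕ → Bool) (j : ℕ) :
    1 / (G (j + 1) : ℝ) - 2 * ga (j + 1) ≤ |y0 - PS (cat yt) ε (s (j + 1))| := by
  obtain ⟨q, hq⟩ := py_even ε (j + 1)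
  obtain ⟨p, hp⟩ := zz_odd j
  have h1 := y0_le (j + 1)
  have h2 := le_y0 (j + 1)
  have hG := Gp (j + 1)
  have h3 : PS (cat yt) ε (s (j + 1)) = 2 * (q : ℝ) / (G (j + 1) : ℝ) := by
    field_simp
    linarith
  have h4 : yy (j + 1) = (2 * (p : ℝ) + 1) / (G (j + 1) : ℝ) := by
    unfold yy
    rw [hp]
    push_cast
    ring
  have h5 : 1 / (G (j + 1) : ℝ) ≤ |yy (j + 1) - PS (cat yt) ε (s (j + 1))| := by
    rw [h3, h4, ← sub_div, abs_div, abs_of_pos hG]
    gcongr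
    have : (1 : ℤ) ≤ |2 * p + 1 - 2 * q| := Int.one_le_abs (by omega)
    exact_mod_cast this
  have h6 : |yy (j + 1) - PS (cat yt) ε (s (j + 1))| ≤
      |y0 - PS (cat yt) ε (s (j + 1))| + |yy (j + 1) - y0| := by
    have := abs_add_le (y0 - PS (cat yt) ε (s (j + 1))) (yy (j + 1) - y0)
    have e : y0 - PS (cat yt) ε (s (j + 1)) + (yy (j + 1) - y0) =
      yy (j + 1) - PS (cat yt) ε (s (j + 1)) := by ring
    rw [e] at this
    exact this
  have h7 : |yy (j + 1) - y0| ≤ 2 * ga (j + 1) := by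
    rw [abs_le]
    constructor <;> linarith
  linarith

theorem minority (ε : ℕ → Bool) (hx : Tendsto (PS (cat xt) ε) atTop (𝓝 0))
    (hy : Tendsto (PS (cat yt) ε) atTop (𝓝 y0)) :
    ∀ᶠ j in atTop, (r j : ℤ) ≤ |SU ε j (r j)| + 2 * j + 8 := by
  have hx1 : ∀ᶠ N in atTop, |PS (cat xt) ε N| ≤ 1 / 2 := by
    have := Metric.tendsto_nhds.1 hx (1 / 2) (by norm_num)
    filter_upwards [this] with N hN
    rw [Real.dist_eq, sub_zero] at hN
    exact hN.le
  obtain ⟨N0, hN0⟩ := eventually_atTop.1 hx1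
  have hs : ∀ j, N0 ≤ j → N0 ≤ s j := fun j hj => hj.trans (s_strictMono.id_le j)
  have hA : ∀ j, N0 ≤ j → |SA ε j (m j)| ≤ (j : ℤ) + 1 := by
    intro j hj
    have h0 := hs j hj
    have h1 := hN0 _ h0
    have h2 := hN0 (s j + r j + m j) (by omega)
    rw [px_A ε le_rfl] at h2
    have h3 : |aa j * (SA ε j (m j) : ℝ)| ≤ 1 := by
      rw [abs_le] at *
      constructor <;> linarith [h1.1, h1.2, h2.1, h2.2]
    rw [abs_mul, abs_of_pos (aa_pos j)] at h3
    unfold aa at h3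
    rw [one_div, inv_mul_le_iff₀ (by positivity), mul_one] at h3
    exact_mod_cast h3
  have hB : ∀ j, N0 ≤ j → |SB ε j (m j)| ≤ (j : ℤ) + 1 := by
    intro j hj
    have h0 := hs j hj
    have h1 := hN0 (s j + r j + m j) (by omega)
    have h2 := hN0 (s j + r j + m j + m j) (by omega)
    rw [px_B ε le_rfl] at h2
    rw [px_A ε le_rfl] at h1
    have h3 : |aa j * (SB ε j (m j) : ℝ)| ≤ 1 := by
      rw [abs_le] at *
      constructor <;> linarith [h1.1, h1.2, h2.1, h2.2]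
    rw [abs_mul, abs_of_pos (aa_pos j)] at h3
    unfold aa at h3
    rw [one_div, inv_mul_le_iff₀ (by positivity), mul_one] at h3
    exact_mod_cast h3
  have hU : ∀ j, |SU ε j (r j)| ≤ (r j : ℤ) := fun j => sum_abs_le _ _
  -- one step bound
  have hstep : ∀ j, N0 ≤ j →
      |PS (cat yt) ε (s (j + 1)) - PS (cat yt) ε (s j)| ≤ 4 / (G j : ℝ) - 4 / (G (j + 1) : ℝ) := by
    intro j hj
    rw [py_next, add_sub_cancel_left, abs_mul, abs_of_pos (ga_pos j)]
    have h1 : |(SU ε j (r j) : ℝ) + (SA ε j (m j) : ℝ) - (SB ε j (m j) : ℝ)| ≤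
        (r j : ℝ) + 2 * ((j : ℝ) + 1) := by
      have h2 : |SU ε j (r j) + SA ε j (m j) - SB ε j (m j)| ≤ (r j : ℤ) + 2 * ((j : ℤ) + 1) := by
        have a1 := hA j hj
        have a2 := hB j hj
        have a3 := hU j
        rw [abs_le] at *
        constructor <;> linarith [a1.1, a1.2, a2.1, a2.2, a3.1, a3.2]
      exact_mod_cast h2
    have h3 : (4 : ℝ) / (G j : ℝ) = 4 * (ga j * r j) := by rw [ga_r]; ring
    have h4 : (4 : ℝ) / (G (j + 1) : ℝ) = 4 * ga j := by unfold ga; ring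
    have h5 : 2 * (j : ℝ) + 20 ≤ r j := by
      have := r_big j
      exact_mod_cast (by omega : 2 * j + 20 ≤ r j)
    rw [h3, h4]
    have h6 := ga_pos j
    calc ga j * |(SU ε j (r j) : ℝ) + (SA ε j (m j) : ℝ) - (SB ε j (m j) : ℝ)|
        ≤ ga j * ((r j : ℝ) + 2 * ((j : ℝ) + 1)) := by gcongr
      _ ≤ ga j * (4 * r j - 4) := by gcongr; linarith
      _ = 4 * (ga j * r j) - 4 * ga j := by ring
  have htel : ∀ j, N0 ≤ j → ∀ i, |PS (cat yt) ε (s (j + i)) - PS (cat yt) ε (s j)| ≤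
      4 / (G j : ℝ) - 4 / (G (j + i) : ℝ) := by
    intro j hj i
    induction i with
    | zero => simp
    | succ i ih =>
      have h1 := hstep (j + i) (by omega)
      have h2 := abs_add_le (PS (cat yt) ε (s (j + i + 1)) - PS (cat yt) ε (s (j + i)))
        (PS (cat yt) ε (s (j + i)) - PS (cat yt) ε (s j))
      rw [sub_add_sub_cancel] at h2
      rw [← add_assoc]
      linarith
  have hup : ∀ j, N0 ≤ j → |y0 - PS (cat yt) ε (s j)| ≤ 4 / (G j : ℝ) := by
    intro j hj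
    have h1 : Tendsto (fun i => |PS (cat yt) ε (s (j + i)) - PS (cat yt) ε (s j)|) atTop
        (𝓝 |y0 - PS (cat yt) ε (s j)|) := by
      apply Tendsto.abs
      apply Tendsto.sub_const
      apply hy.comp
      apply s_strictMono.tendsto_atTop.comp
      exact tendsto_atTop_mono (fun i => Nat.le_add_left i j) tendsto_id
    refine le_of_tendsto h1 (Eventually.of_forall fun i => ?_)
    have h2 := htel j hj i
    have h3 : 0 ≤ 4 / (G (j + i) : ℝ) := by
      have := Gp (j + i)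
      positivity
    linarith
  filter_upwards [eventually_ge_atTop (N0 + 1)] with j hj
  have h1 := hup (j + 1) (by omega)
  have h2 : 1 / (G j : ℝ) - 2 * ga j ≤ |y0 - PS (cat yt) ε (s j)| := by
    obtain ⟨i, rfl⟩ : ∃ i, j = i + 1 := ⟨j - 1, by omega⟩
    exact lower ε i
  have h3 : 1 / (G j : ℝ) - 6 * ga j ≤ |PS (cat yt) ε (s (j + 1)) - PS (cat yt) ε (s j)| := by
    have h4 : (4 : ℝ) / (G (j + 1) : ℝ) = 4 * ga j := by unfold ga; ring
    rw [h4] at h1
    have h5 := abs_add_le (y0 - PS (cat yt) ε (s (j + 1)))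
      (PS (cat yt) ε (s (j + 1)) - PS (cat yt) ε (s j))
    rw [sub_add_sub_cancel] at h5
    linarith
  rw [py_next, add_sub_cancel_left, abs_mul, abs_of_pos (ga_pos j), ← ga_r] at h3
  have hg := ga_pos j
  have h6 : (r j : ℝ) - 6 ≤
      |(SU ε j (r j) : ℝ) + (SA ε j (m j) : ℝ) - (SB ε j (m j) : ℝ)| := by
    rw [← mul_le_mul_iff_right₀ hg]
    linarith
  have h7 : (r j : ℤ) - 6 ≤ |SU ε j (r j) + SA ε j (m j) - SB ε j (m j)| := by
    exact_mod_cast h6
  have a1 := hA j (by omega)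
  have a2 := hB j (by omega)
  have h8 : |SU ε j (r j) + SA ε j (m j) - SB ε j (m j)| ≤
      |SU ε j (r j)| + |SA ε j (m j)| + |SB ε j (m j)| := by
    have := abs_add_three (SU ε j (r j)) (SA ε j (m j)) (-(SB ε j (m j)))
    rwa [abs_neg, ← sub_eq_add_neg] at this
  linarith

end Pool.Agent.V11112.SG
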