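import Pool.Agent.V11112.LV4
import Pool.Agent.V11112.SG3

open Filter Topology

namespace Pool.Agent.V11112.LV

open Pool.Agent.V11112.SG

/-- horizontal sizes -/
noncomputable def al (q : ℕ) : ℝ := aa (blk q)
/-- vertical sizes -/
noncomputable def gm (q : ℕ) : ℝ := ga (blk q)

lemma al_pos (q : ℕ) : 0 < al q := aa_pos _
lemma gm_pos (q : ℕ) : 0 < gm q := ga_pos _
lemma al_tendsto : Tendsto al atTop (𝓝 0) := aa_tendsto.comp blk_tendsto
lemma gm_tendsto : Tendsto gm atTop (𝓝 0) := ga_tendsto.comp blk_tendsto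

lemma block_sum (f : ℕ → ℝ) (j : ℕ) :
    Sm (fun q => f (blk q)) (s (j + 1)) = Sm (fun q => f (blk q)) (s j) +
      ((s (j + 1) - s j : ℕ) : ℝ) * f j := by
  have h1 : s j ≤ s (j + 1) := s_strictMono.monotone (Nat.le_succ j)
  have h2 : s (j + 1) = s j + (s (j + 1) - s j) := by omega
  obtain ⟨l, hl⟩ : ∃ l, l = s (j + 1) - s j := ⟨_, rfl⟩
  rw [← hl] at h2 ⊢
  unfold Sm
  rw [h2, Finset.sum_range_add]
  congr 1
  rw [Finset.sum_congr rfl (g := fun _ => f j)]
  · simp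
  · intro k hk
    rw [Finset.mem_range] at hk
    rw [blk_eq (by omega)]

lemma not_summable_block {f : ℕ → ℝ} (h : ∀ j, 1 ≤ ((s (j + 1) - s j : ℕ) : ℝ) * f j) :
    ¬ Summable (fun q => f (blk q)) := by
  intro hs
  have h1 : Tendsto (Sm (fun q => f (blk q))) atTop (𝓝 (∑' q, f (blk q))) :=
    hs.hasSum.tendsto_sum_nat
  have h2 : Tendsto (fun j => Sm (fun q => f (blk q)) (s j)) atTop (𝓝 (∑' q, f (blk q))) :=
    h1.comp s_strictMono.tendsto_atTop
  have h3 : Tendsto (fun j => Sm (fun q => f (blk q)) (s (j + 1))) atTop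
      (𝓝 (∑' q, f (blk q))) := h2.comp (tendsto_add_atTop_nat 1)
  have h4 := h3.sub h2
  rw [sub_self] at h4
  have h5 : (1 : ℝ) ≤ 0 := by
    refine ge_of_tendsto h4 (Eventually.of_forall fun j => ?_)
    rw [block_sum]
    have := h j
    linarith
  linarith

lemma len_ge (j : ℕ) : r j + 2 * m j ≤ s (j + 1) - s j := by
  rw [s_succ]; omega

lemma al_not_summable : ¬ Summable al := by
  apply not_summable_block
  intro j
  have h1 := len_ge j
  have h2 := r_big j
  have h3 : j + 1 ≤ s (j + 1) - s j := by omega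
  have h4 : ((j : ℝ) + 1) ≤ ((s (j + 1) - s j : ℕ) : ℝ) := by exact_mod_cast h3
  unfold aa
  rw [mul_one_div, le_div_iff₀ (by positivity)]
  linarith

lemma gm_not_summable : ¬ Summable gm := by
  apply not_summable_block
  intro j
  have h1 := len_ge j
  have h3 : G (j + 1) ≤ s (j + 1) - s j := by
    have : G (j + 1) ≤ m j := by rw [m_def]; nlinarith [G_pos (j + 1)]
    omega
  have h4 : ((G (j + 1) : ℕ) : ℝ) ≤ ((s (j + 1) - s j : ℕ) : ℝ) := by exact_mod_cast h3
  have h5 := Gp (j + 1)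
  unfold ga
  rw [mul_one_div, le_div_iff₀ h5]
  linarith

lemma r_sq (j : ℕ) : (j + 1) * (j + 1) ≤ r j := by
  rw [r_def]
  have h1 : j + 1 ≤ 2 ^ j := Nat.lt_two_pow_self
  calc (j + 1) * (j + 1) ≤ 2 ^ j * 2 ^ j := Nat.mul_le_mul h1 h1
    _ = 2 ^ (j + j) := by rw [pow_add]
    _ ≤ 2 ^ (s j + 2 * j + 20) := Nat.pow_le_pow_right (by norm_num) (by omega)

lemma r_large (j : ℕ) : 65536 * (j + 1) ≤ r j := by
  rw [r_def, show s j + 2 * j + 20 = (s j + 2 * j + 4) + 16 by ring, pow_add]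
  have h1 : s j + 2 * j + 4 < 2 ^ (s j + 2 * j + 4) := Nat.lt_two_pow_self
  have h2 : j + 1 ≤ 2 ^ (s j + 2 * j + 4) := by omega
  have h3 : (2 : ℕ) ^ 16 = 65536 := by norm_num
  rw [h3]
  nlinarith

lemma ratio (ε : ℝ) (hε : 0 < ε) : ∀ᶠ q in atTop, gm q ≤ ε * al q := by
  have h1 : ∀ᶠ j in atTop, ga j ≤ ε * aa j := by
    have h2 : ∀ᶠ j : ℕ in atTop, 1 / ((j : ℝ) + 1) < ε :=
      tendsto_one_div_add_atTop_nhds_zero_nat.eventually_lt_const hε
    filter_upwards [h2] with j hj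
    have h3 : ((j : ℝ) + 1) * ((j : ℝ) + 1) ≤ (G (j + 1) : ℝ) := by
      have h4 : (j + 1) * (j + 1) ≤ G (j + 1) := by
        rw [G_succ]
        have := r_sq j
        have := G_pos j
        nlinarith
      exact_mod_cast h4
    have h5 : ga j ≤ 1 / (((j : ℝ) + 1) * ((j : ℝ) + 1)) := by
      unfold ga
      exact one_div_le_one_div_of_le (by positivity) h3
    have h6 : 1 / (((j : ℝ) + 1) * ((j : ℝ) + 1)) = 1 / ((j : ℝ) + 1) * aa j := by
      unfold aa
      rw [one_div_mul_one_div]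
    rw [h6] at h5
    have h7 := aa_pos j
    nlinarith
  exact blk_tendsto.eventually h1

/-! ### the reordering -/

/-- length of a block of quadruples -/
def ln (j : ℕ) : ℕ := s (j + 1) - s j

lemma s_next (j : ℕ) : s (j + 1) = s j + ln j := by
  have : s j ≤ s (j + 1) := s_strictMono.monotone (Nat.le_succ j)
  unfold ln
  omega

lemma blk4 {j k : ℕ} (h : k < 4 * ln j) : blk ((4 * s j + k) / 4) = j := by
  have h1 : (4 * s j + k) / 4 = s j + k / 4 := by omega
  rw [h1]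
  apply blk_eq
  rw [s_next]
  omega

lemma dec4 (n : ℕ) : ∃ j k, k < 4 * ln j ∧ n = 4 * s j + k := by
  refine ⟨blk (n / 4), n - 4 * s (blk (n / 4)), ?_, ?_⟩
  · have h1 := s_blk_le (n / 4)
    have h2 := lt_s_blk_succ (n / 4)
    rw [s_next] at h2
    omega
  · have h1 := s_blk_le (n / 4)
    omega

/-- forward map -/
def fw (n : ℕ) : ℕ :=
  4 * s (blk (n / 4)) + (if n - 4 * s (blk (n / 4)) < 2 * ln (blk (n / 4)) then
    2 * (n - 4 * s (blk (n / 4))) else
    2 * ((n - 4 * s (blk (n / 4))) - 2 * ln (blk (n / 4))) + 1)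

/-- backward map -/
def bw (n : ℕ) : ℕ :=
  4 * s (blk (n / 4)) + (if (n - 4 * s (blk (n / 4))) % 2 = 0 then
    (n - 4 * s (blk (n / 4))) / 2 else
    2 * ln (blk (n / 4)) + (n - 4 * s (blk (n / 4))) / 2)

lemma fw_eq {j k : ℕ} (h : k < 4 * ln j) :
    fw (4 * s j + k) = 4 * s j + (if k < 2 * ln j then 2 * k else 2 * (k - 2 * ln j) + 1) := by
  unfold fw
  rw [blk4 h, Nat.add_sub_cancel_left]

lemma bw_eq {j k : ℕ} (h : k < 4 * ln j) :
    bw (4 * s j + k) = 4 * s j + (if k % 2 = 0 then k / 2 else 2 * ln j + k / 2) := by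
  unfold bw
  rw [blk4 h, Nat.add_sub_cancel_left]

lemma bw_fw (n : ℕ) : bw (fw n) = n := by
  obtain ⟨j, k, hk, rfl⟩ := dec4 n
  rw [fw_eq hk]
  by_cases h : k < 2 * ln j
  · rw [if_pos h, bw_eq (by omega), if_pos (by omega)]
    omega
  · rw [if_neg h, bw_eq (by omega), if_neg (by omega)]
    omega

lemma fw_bw (n : ℕ) : fw (bw n) = n := by
  obtain ⟨j, k, hk, rfl⟩ := dec4 n
  rw [bw_eq hk]
  by_cases h : k % 2 = 0
  · rw [if_pos h, fw_eq (by omega), if_pos (by omega)]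
    omega
  · rw [if_neg h, fw_eq (by omega), if_neg (by omega)]
    omega

/-- the bad reordering -/
def bad : Equiv.Perm ℕ := ⟨fw, bw, bw_fw, fw_bw⟩

lemma bad_x1 {j k : ℕ} (h : k < 2 * ln j) : qv al gm (bad (4 * s j + k)) 0 = aa j := by
  have h1 : bad (4 * s j + k) = 4 * s j + 2 * k := by
    show fw _ = _
    rw [fw_eq (by omega), if_pos h]
  rw [h1, qv0]
  unfold xa al
  rw [if_pos (by omega), blk4 (by omega)]

lemma bad_x2 {j k : ℕ} (h : k < 2 * ln j) :
    qv al gm (bad (4 * s j + 2 * ln j + k)) 0 = - aa j := by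
  have h1 : bad (4 * s j + 2 * ln j + k) = 4 * s j + (2 * k + 1) := by
    show fw _ = _
    rw [add_assoc, fw_eq (by omega), if_neg (by omega)]
    omega
  rw [h1, qv0]
  unfold xa al
  rw [if_neg (by omega), blk4 (by omega)]

lemma bad_y {j k : ℕ} (h : k < 4 * ln j) :
    ∃ c : ℤ, |c| = 1 ∧ qv al gm (bad (4 * s j + k)) 1 = ga j * c := by
  obtain ⟨k', hk', h1⟩ : ∃ k', k' < 4 * ln j ∧ bad (4 * s j + k) = 4 * s j + k' := by
    refine ⟨_, ?_, fw_eq h⟩
    split_ifs <;> omega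
  rw [h1, qv1]
  unfold ya gm
  rw [blk4 hk']
  split_ifs
  · exact ⟨1, by simp, by simp⟩
  · exact ⟨-1, by simp, by simp⟩

open Classical in
theorem bad_ne {B : Set ℕ} (h : Tendsto (fun N => ∑ n ∈ Finset.range N,
    B.indicator (fun n => qv al gm (bad n)) n) atTop (𝓝 !₂[0, y0 / 2])) : False := by
  -- coordinates
  obtain ⟨PX, hPX⟩ : ∃ PX : ℕ → ℝ, ∀ N, PX N = ∑ n ∈ Finset.range N,
    (if n ∈ B then qv al gm (bad n) 0 else 0) := ⟨_, fun _ => rfl⟩
  obtain ⟨PY, hPY⟩ : ∃ PY : ℕ → ℝ, ∀ N, PY N = ∑ n ∈ Finset.range N,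
    (if n ∈ B then qv al gm (bad n) 1 else 0) := ⟨_, fun _ => rfl⟩
  have hc : ∀ (i : Fin 2) (N : ℕ), (∑ n ∈ Finset.range N,
      B.indicator (fun n => qv al gm (bad n)) n) i =
      ∑ n ∈ Finset.range N, (if n ∈ B then qv al gm (bad n) i else 0) := by
    intro i N
    rw [sum_coord]
    apply Finset.sum_congr rfl
    intro n _
    rw [Set.indicator_apply]
    split_ifs <;> simp
  have hcont : ∀ i : Fin 2, Continuous (fun v : E2 => v i) := fun i => by fun_prop
  have hX : Tendsto PX atTop (𝓝 0) := by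
    have := ((hcont 0).tendsto _).comp h
    refine (this.congr (fun N => ?_)).trans (by simp)
    rw [hPX, ← hc]
    rfl
  have hY : Tendsto PY atTop (𝓝 (y0 / 2)) := by
    have := ((hcont 1).tendsto _).comp h
    refine (this.congr (fun N => ?_)).trans (by simp)
    rw [hPY, ← hc]
    rfl
  -- counts
  obtain ⟨c1, hc1⟩ : ∃ c1 : ℕ → ℕ, ∀ j, c1 j = ∑ k ∈ Finset.range (2 * ln j),
    (if 4 * s j + k ∈ B then 1 else 0) := ⟨_, fun _ => rfl⟩
  obtain ⟨c2, hc2⟩ : ∃ c2 : ℕ → ℕ, ∀ j, c2 j = ∑ k ∈ Finset.range (2 * ln j),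
    (if 4 * s j + 2 * ln j + k ∈ B then 1 else 0) := ⟨_, fun _ => rfl⟩
  have hx1 : ∀ j, PX (4 * s j + 2 * ln j) = PX (4 * s j) + aa j * (c1 j : ℝ) := by
    intro j
    rw [hPX, hPX, Finset.sum_range_add, hc1]
    congr 1
    push_cast
    rw [Finset.mul_sum]
    apply Finset.sum_congr rfl
    intro k hk
    rw [Finset.mem_range] at hk
    split_ifs
    · rw [bad_x1 hk, mul_one]
    · simp
  have hx2 : ∀ j, PX (4 * s j + 2 * ln j + 2 * ln j) = PX (4 * s j + 2 * ln j)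
      - aa j * (c2 j : ℝ) := by
    intro j
    rw [hPX, hPX, Finset.sum_range_add _ (4 * s j + 2 * ln j), hc2, sub_eq_add_neg]
    congr 1
    push_cast
    rw [Finset.mul_sum, ← Finset.sum_neg_distrib]
    apply Finset.sum_congr rfl
    intro k hk
    rw [Finset.mem_range] at hk
    split_ifs
    · rw [bad_x2 hk, mul_one]
    · simp
  -- eventual bounds on the counts
  obtain ⟨N0, hN0⟩ : ∃ N0, ∀ N, N0 ≤ N → |PX N| ≤ 1 / 2 := by
    obtain ⟨N0, hN0⟩ := Metric.tendsto_atTop.1 hX (1 / 2) (by norm_num)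
    refine ⟨N0, fun N hN => ?_⟩
    have := hN0 N hN
    rw [Real.dist_eq, sub_zero] at this
    exact this.le
  have hs : ∀ j, N0 ≤ j → N0 ≤ 4 * s j := fun j hj => by
    have : j ≤ s j := s_strictMono.id_le j
    omega
  have hb1 : ∀ j, N0 ≤ j → c1 j ≤ j + 1 := by
    intro j hj
    have h0 := hs j hj
    have h1 := hN0 _ h0
    have h2 := hN0 (4 * s j + 2 * ln j) (by omega)
    rw [hx1] at h2
    have h3 : aa j * (c1 j : ℝ) ≤ 1 := by
      rw [abs_le] at h1 h2
      linarith [h1.1, h2.2]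
    unfold aa at h3
    rw [one_div, inv_mul_le_iff₀ (by positivity), mul_one] at h3
    exact_mod_cast h3
  have hb2 : ∀ j, N0 ≤ j → c2 j ≤ j + 1 := by
    intro j hj
    have h0 := hs j hj
    have h1 := hN0 (4 * s j + 2 * ln j) (by omega)
    have h2 := hN0 (4 * s j + 2 * ln j + 2 * ln j) (by omega)
    rw [hx2] at h2
    have h3 : aa j * (c2 j : ℝ) ≤ 1 := by
      rw [abs_le] at h1 h2
      linarith [h1.2, h2.1]
    unfold aa at h3
    rw [one_div, inv_mul_le_iff₀ (by positivity), mul_one] at h3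
    exact_mod_cast h3
  -- vertical increments
  have hy : ∀ j, ∃ w : ℤ, PY (4 * s (j + 1)) = PY (4 * s j) + ga j * w ∧
      |w| ≤ (c1 j : ℤ) + (c2 j : ℤ) := by
    intro j
    have hch : ∀ k, ∃ c : ℤ, k < 4 * ln j → |c| = 1 ∧
        qv al gm (bad (4 * s j + k)) 1 = ga j * c := by
      intro k
      by_cases hk : k < 4 * ln j
      · obtain ⟨c, hc⟩ := bad_y hk
        exact ⟨c, fun _ => hc⟩
      · exact ⟨0, fun h => absurd h hk⟩
    choose c hc' using hch
    refine ⟨∑ k ∈ Finset.range (4 * ln j), (if 4 * s j + k ∈ B then c k else 0), ?_, ?_⟩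
    · rw [s_next, mul_add, hPY, hPY, Finset.sum_range_add]
      congr 1
      push_cast
      rw [Finset.mul_sum]
      apply Finset.sum_congr rfl
      intro k hk
      rw [Finset.mem_range] at hk
      split_ifs
      · exact (hc' k hk).2
      · simp
    · refine (Finset.abs_sum_le_sum_abs _ _).trans (le_of_eq ?_)
      have h1 : ∀ k ∈ Finset.range (4 * ln j), |(if 4 * s j + k ∈ B then c k else 0)| =
          (if 4 * s j + k ∈ B then 1 else 0) := by
        intro k hk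
        rw [Finset.mem_range] at hk
        split_ifs
        · exact (hc' k hk).1
        · simp
      rw [Finset.sum_congr rfl h1, hc1, hc2, show 4 * ln j = 2 * ln j + 2 * ln j by ring,
        Finset.sum_range_add]
      push_cast
      congr 1
      apply Finset.sum_congr rfl
      intro k _
      rw [add_assoc]
  choose w hw1 hw2 using hy
  -- integrality
  have hint : ∀ j, ∃ q : ℤ, PY (4 * s j) * (G j : ℝ) = (q : ℝ) := by
    intro j
    induction j with
    | zero => exact ⟨0, by rw [s_zero, hPY]; simp⟩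
    | succ j ih =>
      obtain ⟨q, hq⟩ := ih
      refine ⟨q * r j + w j, ?_⟩
      rw [hw1]
      have h1 : ga j * (G (j + 1) : ℝ) = 1 := by
        have := Gp (j + 1)
        unfold ga
        field_simp
      have h2 : (G (j + 1) : ℝ) = (G j : ℝ) * (r j : ℝ) := by rw [G_succ]; push_cast; ring
      push_cast
      calc (PY (4 * s j) + ga j * (w j : ℝ)) * (G (j + 1) : ℝ)
          = PY (4 * s j) * (G (j + 1) : ℝ) + (ga j * (G (j + 1) : ℝ)) * (w j) := by ring
        _ = (PY (4 * s j) * (G j : ℝ)) * r j + w j := by rw [h1, h2]; ring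
        _ = (q : ℝ) * (r j : ℝ) + w j := by rw [hq]
  -- tail bound
  have hstep : ∀ j, N0 ≤ j → |PY (4 * s (j + 1)) - PY (4 * s j)| ≤
      1 / 8 / (G j : ℝ) - 1 / 8 / (G (j + 1) : ℝ) := by
    intro j hj
    rw [hw1, add_sub_cancel_left, abs_mul, abs_of_pos (ga_pos j)]
    have h1 : |(w j : ℝ)| ≤ 2 * ((j : ℝ) + 1) := by
      have h2 : |w j| ≤ 2 * ((j : ℤ) + 1) := by
        have a1 := hb1 j hj
        have a2 := hb2 j hj
        have a3 := hw2 j
        omega
      exact_mod_cast h2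
    have h3 : 1 / 8 / (G j : ℝ) = 1 / 8 * (ga j * r j) := by rw [ga_r]; ring
    have h4 : 1 / 8 / (G (j + 1) : ℝ) = 1 / 8 * ga j := by unfold ga; ring
    have h5 : 65536 * ((j : ℝ) + 1) ≤ r j := by exact_mod_cast r_large j
    have h0 : (0 : ℝ) ≤ j := by positivity
    rw [h3, h4]
    have h6 := ga_pos j
    calc ga j * |(w j : ℝ)| ≤ ga j * (2 * ((j : ℝ) + 1)) := by gcongr
      _ ≤ ga j * (1 / 8 * r j - 1 / 8) := by gcongr; linarith
      _ = 1 / 8 * (ga j * r j) - 1 / 8 * ga j := by ring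
  have htel : ∀ j, N0 ≤ j → ∀ i, |PY (4 * s (j + i)) - PY (4 * s j)| ≤
      1 / 8 / (G j : ℝ) - 1 / 8 / (G (j + i) : ℝ) := by
    intro j hj i
    induction i with
    | zero => simp
    | succ i ih =>
      have h1 := hstep (j + i) (by omega)
      have h2 := abs_add_le (PY (4 * s (j + i + 1)) - PY (4 * s (j + i)))
        (PY (4 * s (j + i)) - PY (4 * s j))
      rw [sub_add_sub_cancel] at h2
      rw [← add_assoc]
      linarith
  have hup : ∀ j, N0 ≤ j → |y0 / 2 - PY (4 * s j)| ≤ 1 / 8 / (G j : ℝ) := by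
    intro j hj
    have h1 : Tendsto (fun i => |PY (4 * s (j + i)) - PY (4 * s j)|) atTop
        (𝓝 |y0 / 2 - PY (4 * s j)|) := by
      apply Tendsto.abs
      apply Tendsto.sub_const
      apply hY.comp
      refine tendsto_atTop_mono (fun i => ?_) tendsto_id
      have : j + i ≤ s (j + i) := s_strictMono.id_le _
      show i ≤ 4 * s (j + i)
      omega
    refine le_of_tendsto h1 (Eventually.of_forall fun i => ?_)
    have h2 := htel j hj i
    have h3 : 0 ≤ 1 / 8 / (G (j + i) : ℝ) := by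
      have := Gp (j + i)
      positivity
    linarith
  -- contradiction
  obtain ⟨q, hq⟩ := hint (N0 + 1)
  obtain ⟨p, hp⟩ := zz_odd N0
  have h1 := hup (N0 + 1) (by omega)
  have h2 := y0_le (N0 + 1)
  have h3 := le_y0 (N0 + 1)
  have hG := Gp (N0 + 1)
  have h4 : yy (N0 + 1) * (G (N0 + 1) : ℝ) = 2 * (p : ℝ) + 1 := by
    unfold yy
    rw [div_mul_cancel₀ _ hG.ne', hp]
    push_cast
    ring
  have h5 : ga (N0 + 1) * (G (N0 + 1) : ℝ) ≤ 1 / 65536 := by
    have e1 : ga (N0 + 1) * (r (N0 + 1) : ℝ) = 1 / (G (N0 + 1) : ℝ) := ga_r _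
    have e2 : ((N0 + 1 : ℕ) : ℝ) + 1 ≥ 1 := by
      have : (0 : ℝ) ≤ ((N0 + 1 : ℕ) : ℝ) := by positivity
      linarith
    have e3 : 65536 * (((N0 + 1 : ℕ) : ℝ) + 1) ≤ r (N0 + 1) := by exact_mod_cast r_large (N0 + 1)
    have e4 : (65536 : ℝ) ≤ r (N0 + 1) := by linarith
    have e5 : ga (N0 + 1) * (G (N0 + 1) : ℝ) * r (N0 + 1) = 1 := by
      calc ga (N0 + 1) * (G (N0 + 1) : ℝ) * r (N0 + 1) =
          (ga (N0 + 1) * r (N0 + 1)) * (G (N0 + 1) : ℝ) := by ring
        _ = 1 := by rw [e1]; field_simp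
    have e6 : 0 < ga (N0 + 1) * (G (N0 + 1) : ℝ) := mul_pos (ga_pos _) hG
    rw [le_div_iff₀ (by norm_num)]
    nlinarith
  have h6 : |y0 / 2 * (G (N0 + 1) : ℝ) - q| ≤ 1 / 8 := by
    rw [← hq, ← sub_mul, abs_mul, abs_of_pos hG]
    rw [le_div_iff₀ hG] at h1
    exact h1
  have h7 : yy (N0 + 1) * (G (N0 + 1) : ℝ) ≤ y0 * (G (N0 + 1) : ℝ) := by gcongr
  have h8 : y0 * (G (N0 + 1) : ℝ) ≤ yy (N0 + 1) * (G (N0 + 1) : ℝ) +
      2 * (ga (N0 + 1) * (G (N0 + 1) : ℝ)) := by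
    calc y0 * (G (N0 + 1) : ℝ) ≤ (yy (N0 + 1) + 2 * ga (N0 + 1)) * (G (N0 + 1) : ℝ) := by gcongr
      _ = _ := by ring
  rw [h4] at h7 h8
  have h9 : (1 : ℝ) ≤ |2 * (p : ℝ) + 1 - 2 * q| := by
    have : (1 : ℤ) ≤ |2 * p + 1 - 2 * q| := Int.one_le_abs (by omega)
    exact_mod_cast this
  rw [abs_le] at h6
  rw [le_abs] at h9
  rcases h9 with h9 | h9
  · linarith [h6.1, h6.2]
  · linarith [h6.1, h6.2]

end Pool.Agent.V11112.LV
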