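import Mathlib

set_option linter.all false

namespace Pool.Agent.V11112.MJ1

open scoped ComplexConjugate Kronecker
open Finset Matrix

variable {ι κ K : Type*} [Fintype ι] [DecidableEq ι] [Fintype κ] [DecidableEq κ]
  [Fintype K] [DecidableEq K]

/-- inner product, conjugate linear in the first variable -/
noncomputable def ip {ι : Type*} [Fintype ι] (x y : ι → ℂ) : ℂ := ∑ i, conj (x i) * y i

/-- squared norm -/
noncomputable def nq {ι : Type*} [Fintype ι] (x : ι → ℂ) : ℝ := ∑ i, Complex.normSq (x i)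

noncomputable def eig {N : ℕ} (hN : Fintype.card ι = N) (X : Matrix ι ι ℂ) (hX : X.IsHermitian) :
    Fin N → ℝ := fun i => hX.eigenvalues₀ (Fin.cast hN.symm i)

theorem eig_antitone {N : ℕ} (hN : Fintype.card ι = N) (X : Matrix ι ι ℂ) (hX : X.IsHermitian) :
    Antitone (eig hN X hX) := by
  intro i j hij
  exact hX.eigenvalues₀_antitone (by simpa using hij)

structure ONB {ι K : Type*} [Fintype ι] [DecidableEq ι] [Fintype K] [DecidableEq K]
    (b : K → ι → ℂ) : Prop where
  orth : ∀ j k, ip (b j) (b k) = if j = k then 1 else 0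
  compl : ∀ i i', ∑ j, b j i * conj (b j i') = if i = i' then 1 else 0

theorem spec {N : ℕ} (hN : Fintype.card ι = N) (X : Matrix ι ι ℂ) (hX : X.IsHermitian) :
    ∃ b : Fin N → ι → ℂ, ONB b ∧
      ∀ i i', X i i' = ∑ j, (eig hN X hX j : ℂ) * b j i * conj (b j i') := by
  set U : Matrix ι ι ℂ := (hX.eigenvectorUnitary : Matrix ι ι ℂ) with hU
  have h1 : star U * U = 1 := Unitary.coe_star_mul_self hX.eigenvectorUnitary
  have h2 : U * star U = 1 := Unitary.coe_mul_star_self hX.eigenvectorUnitary
  have h3 : X = U * diagonal (RCLike.ofReal ∘ hX.eigenvalues) * star U := by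
    conv_lhs => rw [hX.spectral_theorem, Unitary.conjStarAlgAut_apply]
  let e : Fin (Fintype.card ι) ≃ ι := Fintype.equivOfCardEq (Fintype.card_fin _)
  let s : Fin N ≃ ι := (finCongr hN.symm).trans e
  refine ⟨fun j i => U i (s j), ⟨?_, ?_⟩, ?_⟩
  · intro j k
    have h := congrFun (congrFun h1 (s j)) (s k)
    rw [Matrix.mul_apply, Matrix.one_apply] at h
    simp only [Matrix.star_apply, s.injective.eq_iff] at h
    unfold ip
    rw [← h]
    rfl
  · intro i i'
    have h := congrFun (congrFun h2 i) i'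
    rw [Matrix.mul_apply, Matrix.one_apply] at h
    simp only [Matrix.star_apply] at h
    rw [← h]
    exact Equiv.sum_comp s (fun k => U i k * star (U i' k))
  · intro i i'
    conv_lhs => rw [h3]
    rw [Matrix.mul_apply]
    rw [← Equiv.sum_comp s]
    apply Finset.sum_congr rfl
    intro j _
    rw [Matrix.mul_diagonal, Matrix.star_apply]
    have h4 : hX.eigenvalues (s j) = eig hN X hX j := by
      unfold Matrix.IsHermitian.eigenvalues eig
      congr 1
      show e.symm (e (finCongr hN.symm j)) = _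
      rw [Equiv.symm_apply_apply]
      rfl
    simp only [Function.comp_apply, h4]
    have h5 : star (U i' (s j)) = conj (U i' (s j)) := rfl
    rw [h5]
    have h6 : (RCLike.ofReal (eig hN X hX j) : ℂ) = ((eig hN X hX j : ℝ) : ℂ) := rfl
    rw [h6]
    ring

/-- quadratic form -/
noncomputable def qf {ι : Type*} [Fintype ι] (X : Matrix ι ι ℂ) (x : ι → ℂ) : ℂ :=
  ∑ i, ∑ i', conj (x i) * X i i' * x i'

theorem conj_ip (x y : ι → ℂ) : conj (ip x y) = ip y x := by
  unfold ip
  rw [map_sum]
  apply Finset.sum_congr rfl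
  intro i _
  rw [map_mul, Complex.conj_conj]
  ring

theorem normSq_ip_comm (x y : ι → ℂ) : Complex.normSq (ip x y) = Complex.normSq (ip y x) := by
  rw [← conj_ip y x, Complex.normSq_conj]

theorem ofReal_normSq (z : ℂ) : ((Complex.normSq z : ℝ) : ℂ) = z * conj z := by
  rw [Complex.mul_conj]

/-- if `X = ∑ s, c s * z s * (z s)^*` then the quadratic form is a sum of squares -/
theorem qf_of_sum {S : Type*} (F : Finset S) (c : S → ℝ) (z : S → ι → ℂ) (X : Matrix ι ι ℂ)
    (hX : ∀ i i', X i i' = ∑ s ∈ F, (c s : ℂ) * z s i * conj (z s i')) (x : ι → ℂ) :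
    qf X x = ((∑ s ∈ F, c s * Complex.normSq (ip (z s) x) : ℝ) : ℂ) := by
  unfold qf
  simp only [hX]
  push_cast
  simp only [Finset.mul_sum, Finset.sum_mul]
  rw [Finset.sum_congr rfl (fun i _ => Finset.sum_comm), Finset.sum_comm]
  apply Finset.sum_congr rfl
  intro s _
  rw [ofReal_normSq, conj_ip]
  unfold ip
  rw [Finset.sum_mul_sum, Finset.mul_sum, Finset.sum_comm]
  apply Finset.sum_congr rfl
  intro i _
  rw [Finset.mul_sum]
  apply Finset.sum_congr rfl
  intro j _
  ring

theorem parseval {b : K → ι → ℂ} (hb : ONB b) (x : ι → ℂ) :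
    ∑ j, Complex.normSq (ip (b j) x) = nq x := by
  have h := qf_of_sum Finset.univ (fun _ : K => (1:ℝ)) b (1 : Matrix ι ι ℂ) (by
    intro i i'
    rw [Matrix.one_apply, ← hb.compl i i']
    simp) x
  have h2 : qf (1 : Matrix ι ι ℂ) x = ((nq x : ℝ) : ℂ) := by
    unfold qf nq
    push_cast
    apply Finset.sum_congr rfl
    intro i _
    rw [Finset.sum_eq_single i]
    · rw [Matrix.one_apply_eq, ofReal_normSq]; ring
    · intro j _ hj
      rw [Matrix.one_apply_ne (Ne.symm hj)]; simp
    · simp
  rw [h2] at h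
  have h3 := Complex.ofReal_injective h
  rw [h3]
  simp

theorem bessel {b : K → ι → ℂ} (hb : ONB b) (T : Finset K) (x : ι → ℂ) :
    ∑ j ∈ T, Complex.normSq (ip (b j) x) ≤ nq x := by
  rw [← parseval hb x]
  exact Finset.sum_le_sum_of_subset_of_nonneg (Finset.subset_univ T)
    (fun i _ _ => Complex.normSq_nonneg _)

theorem nq_onb {b : K → ι → ℂ} (hb : ONB b) (j : K) : nq (b j) = 1 := by
  have h := hb.orth j j
  rw [if_pos rfl] at h
  unfold ip at h
  have h2 : ((nq (b j) : ℝ) : ℂ) = 1 := by
    rw [← h]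
    unfold nq
    push_cast
    apply Finset.sum_congr rfl
    intro i _
    rw [ofReal_normSq]; ring
  exact_mod_cast h2

end Pool.Agent.V11112.MJ1
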