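import Pool.Agent.V11112.MJ1

set_option linter.all false

namespace Pool.Agent.V11112.MJ1

open scoped ComplexConjugate Kronecker
open Finset Matrix

variable {ι κ K : Type*} [Fintype ι] [DecidableEq ι] [Fintype κ] [DecidableEq κ]
  [Fintype K] [DecidableEq K]

theorem scalar_kf {N : ℕ} (μ : Fin N → ℝ) (hμ : Antitone μ) (P : Fin N → ℝ) (h0 : ∀ j, 0 ≤ P j)
    (h1 : ∀ j, P j ≤ 1) (t : ℕ) (ht : t ≤ N) (hP : ∑ j, P j = t) :
    ∑ j, μ j * P j ≤ ∑ j ∈ univ.filter (fun j : Fin N => j.val < t), μ j := by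
  obtain ⟨c, hc1, hc2⟩ : ∃ c : ℝ, (∀ j : Fin N, j.val < t → c ≤ μ j) ∧
      (∀ j : Fin N, ¬ j.val < t → μ j ≤ c) := by
    rcases Nat.lt_or_ge t N with h | h
    · refine ⟨μ ⟨t, h⟩, ?_, ?_⟩
      · intro j hj; exact hμ (Fin.le_def.mpr (by simp; omega))
      · intro j hj; exact hμ (Fin.le_def.mpr (by simp; omega))
    · have htN : t = N := le_antisymm ht h
      rcases Nat.eq_zero_or_pos N with hN | hN
      · refine ⟨0, ?_, ?_⟩
        · intro j; exact absurd j.isLt (by omega)
        · intro j; exact absurd j.isLt (by omega)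
      · refine ⟨μ ⟨N - 1, by omega⟩, ?_, ?_⟩
        · intro j hj; exact hμ (Fin.le_def.mpr (by simp; omega))
        · intro j hj; exact absurd j.isLt (by omega)
  have hcard : ∑ j : Fin N, (if j.val < t then (1:ℝ) else 0) = t := by
    rw [Finset.sum_ite]
    simp only [Finset.sum_const_zero, add_zero, Finset.sum_const, nsmul_eq_mul, mul_one]
    congr 1
    rw [show (univ.filter (fun j : Fin N => j.val < t)).card = t from ?_]
    have := Fin.card_filter_val_lt (n := N) (m := t)
    simpa [min_eq_right ht] using this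
  rw [Finset.sum_filter]
  have key : 0 ≤ ∑ j : Fin N, ((if j.val < t then (1:ℝ) else 0) - P j) * (μ j - c) := by
    apply Finset.sum_nonneg
    intro j _
    by_cases hj : j.val < t
    · rw [if_pos hj]
      exact mul_nonneg (by linarith [h1 j]) (by linarith [hc1 j hj])
    · rw [if_neg hj]
      have := mul_nonneg (h0 j) (sub_nonneg.mpr (hc2 j hj))
      nlinarith
  have expand : ∑ j : Fin N, ((if j.val < t then (1:ℝ) else 0) - P j) * (μ j - c)
      = ∑ j : Fin N, (if j.val < t then μ j else 0) - ∑ j, μ j * P j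
        - c * (∑ j : Fin N, (if j.val < t then (1:ℝ) else 0) - ∑ j, P j) := by
    rw [← Finset.sum_sub_distrib, ← Finset.sum_sub_distrib, Finset.mul_sum,
      ← Finset.sum_sub_distrib]
    apply Finset.sum_congr rfl
    intro j _
    split_ifs <;> ring
  rw [expand, hcard, hP] at key
  linarith

theorem abel_nat (a x : ℕ → ℝ) (ha : Antitone a) (hx : ∀ k, 0 ≤ ∑ i ∈ range k, x i) (m : ℕ) :
    a m * ∑ i ∈ range m, x i ≤ ∑ i ∈ range m, a i * x i := by
  induction m with
  | zero => simp
  | succ m ih =>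
    rw [Finset.sum_range_succ (fun i => a i * x i)]
    have h1 : a (m+1) * ∑ i ∈ range (m+1), x i ≤ a m * ∑ i ∈ range (m+1), x i :=
      mul_le_mul_of_nonneg_right (ha (Nat.le_succ m)) (hx (m+1))
    rw [Finset.sum_range_succ x] at h1 ⊢
    linarith

theorem abel_fin {m : ℕ} (a x : Fin m → ℝ) (ha : Antitone a) (ha0 : ∀ i, 0 ≤ a i)
    (hx : ∀ k, k ≤ m → 0 ≤ ∑ i ∈ univ.filter (fun i : Fin m => i.val < k), x i) :
    0 ≤ ∑ i, a i * x i := by
  let a' : ℕ → ℝ := fun i => if h : i < m then a ⟨i, h⟩ else 0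
  let x' : ℕ → ℝ := fun i => if h : i < m then x ⟨i, h⟩ else 0
  have ha' : Antitone a' := by
    intro i j hij
    show a' j ≤ a' i
    simp only [a']
    by_cases hj : j < m
    · rw [dif_pos hj, dif_pos (lt_of_le_of_lt hij hj)]
      exact ha (Fin.le_def.mpr hij)
    · rw [dif_neg hj]
      by_cases hi : i < m
      · rw [dif_pos hi]; exact ha0 _
      · rw [dif_neg hi]
  have hsum : ∀ k, k ≤ m → ∑ i ∈ range k, x' i
      = ∑ i ∈ univ.filter (fun i : Fin m => i.val < k), x i := by
    intro k hk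
    have e1 : ∑ i ∈ univ.filter (fun i : Fin m => i.val < k), x i
        = ∑ i : Fin m, (if i.val < k then x' i.val else 0) := by
      rw [Finset.sum_filter]
      apply Finset.sum_congr rfl
      intro i _
      simp only [x', i.isLt, dif_pos]
    rw [e1, ← Finset.sum_range (fun i => if i < k then x' i else 0), ← Finset.sum_filter]
    congr 1
    ext i
    simp only [Finset.mem_range, Finset.mem_filter]
    omega
  have hx' : ∀ k, 0 ≤ ∑ i ∈ range k, x' i := by
    intro k
    rcases Nat.le_total k m with hk | hk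
    · rw [hsum k hk]; exact hx k hk
    · have : ∑ i ∈ range k, x' i = ∑ i ∈ range m, x' i := by
        symm
        apply Finset.sum_subset
        · intro i; simp only [Finset.mem_range]; omega
        · intro i _ hi
          simp only [Finset.mem_range] at hi
          simp only [x', dif_neg hi]
      rw [this, hsum m le_rfl]; exact hx m le_rfl
  have h := abel_nat a' x' ha' hx' m
  have ham : a' m = 0 := by simp [a']
  rw [ham, zero_mul, Finset.sum_range] at h
  have e2 : ∑ i : Fin m, a' i.val * x' i.val = ∑ i, a i * x i := by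
    apply Finset.sum_congr rfl
    intro i _
    simp only [a', x', i.isLt, dif_pos]
  rw [e2] at h
  exact h

/-- real quadratic form -/
noncomputable def rq {ι : Type*} [Fintype ι] (X : Matrix ι ι ℂ) (x : ι → ℂ) : ℝ := (qf X x).re

theorem rq_of_sum {S : Type*} (F : Finset S) (c : S → ℝ) (z : S → ι → ℂ) (X : Matrix ι ι ℂ)
    (hX : ∀ i i', X i i' = ∑ s ∈ F, (c s : ℂ) * z s i * conj (z s i')) (x : ι → ℂ) :
    rq X x = ∑ s ∈ F, c s * Complex.normSq (ip (z s) x) := by
  unfold rq
  rw [qf_of_sum F c z X hX x, Complex.ofReal_re]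

theorem kyfan {N : ℕ} (hN : Fintype.card ι = N) (X : Matrix ι ι ℂ) (hX : X.IsHermitian)
    {e : K → ι → ℂ} (he : ONB e) (g : K → ℝ) (g0 : ∀ k, 0 ≤ g k) (g1 : ∀ k, g k ≤ 1)
    (t : ℕ) (ht : t ≤ N) (hg : ∑ k, g k = t) :
    ∑ k, g k * rq X (e k) ≤ ∑ j ∈ univ.filter (fun j : Fin N => j.val < t), eig hN X hX j := by
  obtain ⟨b, hb, hXb⟩ := spec hN X hX
  have h := scalar_kf (eig hN X hX) (eig_antitone hN X hX)
    (fun j => ∑ k, g k * Complex.normSq (ip (b j) (e k)))
    (fun j => Finset.sum_nonneg (fun k _ => mul_nonneg (g0 k) (Complex.normSq_nonneg _)))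
    (by
      intro j
      calc ∑ k, g k * Complex.normSq (ip (b j) (e k))
          ≤ ∑ k, Complex.normSq (ip (e k) (b j)) := by
            apply Finset.sum_le_sum
            intro k _
            rw [normSq_ip_comm (b j)]
            exact mul_le_of_le_one_left (Complex.normSq_nonneg _) (g1 k)
        _ = nq (b j) := parseval he _
        _ = 1 := nq_onb hb j) t ht
    (by
      rw [Finset.sum_comm, ← hg]
      apply Finset.sum_congr rfl
      intro k _
      rw [← Finset.mul_sum, parseval hb, nq_onb he, mul_one])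
  refine le_trans (le_of_eq ?_) h
  simp only [rq_of_sum Finset.univ (fun j => eig hN X hX j) b X hXb, Finset.mul_sum]
  rw [Finset.sum_comm]
  apply Finset.sum_congr rfl
  intro j _
  apply Finset.sum_congr rfl
  intro k _
  ring

theorem nq_nonneg (x : ι → ℂ) : 0 ≤ nq x := Finset.sum_nonneg (fun i _ => Complex.normSq_nonneg _)

theorem ip_zero_right (x : ι → ℂ) : ip x 0 = 0 := by unfold ip; simp

theorem weyl {N : ℕ} (hN : Fintype.card ι = N) (X Y : Matrix ι ι ℂ) (hX : X.IsHermitian)
    (hY : Y.IsHermitian) (hXY : ∀ x, rq X x ≤ rq Y x) (i : Fin N) :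
    eig hN X hX i ≤ eig hN Y hY i := by
  obtain ⟨b, hb, hXb⟩ := spec hN X hX
  obtain ⟨d, hd, hYd⟩ := spec hN Y hY
  by_contra hlt
  push Not at hlt
  let L : ({j : Fin N // j ≤ i} → ℂ) →ₗ[ℂ] ({j : Fin N // j < i} → ℂ) :=
    Matrix.mulVecLin (Matrix.of fun k j => ip (d k.val) (b j.val))
  have hdim : Module.finrank ℂ ({j : Fin N // j < i} → ℂ)
      < Module.finrank ℂ ({j : Fin N // j ≤ i} → ℂ) := by
    rw [Module.finrank_fintype_fun_eq_card, Module.finrank_fintype_fun_eq_card,
      Fintype.card_subtype, Fintype.card_subtype]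
    apply Finset.card_lt_card
    rw [Finset.ssubset_iff_of_subset]
    · exact ⟨i, by simp, by simp⟩
    · intro j; simp only [Finset.mem_filter, Finset.mem_univ, true_and]; exact le_of_lt
  have hker := LinearMap.ker_ne_bot_of_finrank_lt (f := L) hdim
  obtain ⟨c, hc, hc0⟩ := (Submodule.ne_bot_iff _).mp hker
  rw [LinearMap.mem_ker] at hc
  let x : ι → ℂ := fun a => ∑ j : {j : Fin N // j ≤ i}, c j * b j.val a
  have hip : ∀ y : ι → ℂ, ip y x = ∑ j : {j : Fin N // j ≤ i}, ip y (b j.val) * c j := by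
    intro y
    unfold ip
    simp only [x, Finset.mul_sum, Finset.sum_mul]
    rw [Finset.sum_comm]
    apply Finset.sum_congr rfl
    intro j _
    apply Finset.sum_congr rfl
    intro a _
    ring
  have hx1 : ∀ k : Fin N, k < i → ip (d k) x = 0 := by
    intro k hk
    have h := congrFun hc ⟨k, hk⟩
    rw [hip]
    simpa [L, Matrix.mulVec, dotProduct] using h
  have hx2 : ∀ k : Fin N, (hk : k ≤ i) → ip (b k) x = c ⟨k, hk⟩ := by
    intro k hk
    rw [hip, Finset.sum_eq_single ⟨k, hk⟩]
    · rw [hb.orth, if_pos rfl, one_mul]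
    · intro j _ hj
      rw [hb.orth, if_neg, zero_mul]
      intro h
      apply hj
      exact Subtype.ext h.symm
    · simp
  have hx3 : ∀ k : Fin N, ¬ k ≤ i → ip (b k) x = 0 := by
    intro k hk
    rw [hip]
    apply Finset.sum_eq_zero
    intro j _
    rw [hb.orth, if_neg, zero_mul]
    intro h
    exact hk (h ▸ j.2)
  have hA : eig hN X hX i * nq x ≤ rq X x := by
    rw [rq_of_sum Finset.univ (fun j => eig hN X hX j) b X hXb, ← parseval hb x, Finset.mul_sum]
    apply Finset.sum_le_sum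
    intro k _
    by_cases hk : k ≤ i
    · exact mul_le_mul_of_nonneg_right (eig_antitone hN X hX hk) (Complex.normSq_nonneg _)
    · rw [hx3 k hk]; simp
  have hB : rq Y x ≤ eig hN Y hY i * nq x := by
    rw [rq_of_sum Finset.univ (fun j => eig hN Y hY j) d Y hYd, ← parseval hd x, Finset.mul_sum]
    apply Finset.sum_le_sum
    intro k _
    by_cases hk : k < i
    · rw [hx1 k hk]; simp
    · exact mul_le_mul_of_nonneg_right (eig_antitone hN Y hY (not_lt.mp hk))
        (Complex.normSq_nonneg _)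
  have hC := hXY x
  have hn0 : nq x = 0 := by
    have := nq_nonneg x
    nlinarith
  apply hc0
  funext j
  have h1 : Complex.normSq (ip (b j.val) x) ≤ 0 := by
    rw [← hn0]
    have := bessel hb {j.val} x
    simpa using this
  have h2 := le_antisymm h1 (Complex.normSq_nonneg _)
  rw [Complex.normSq_eq_zero, hx2 j.val j.2] at h2
  simpa using h2

theorem eig_le {N : ℕ} (hN : Fintype.card ι = N) (X : Matrix ι ι ℂ) (hX : X.IsHermitian)
    (c : ℝ) (h : ∀ x, rq X x ≤ c * nq x) (i : Fin N) : eig hN X hX i ≤ c := by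
  obtain ⟨b, hb, hXb⟩ := spec hN X hX
  have h1 := h (b i)
  rw [rq_of_sum Finset.univ (fun j => eig hN X hX j) b X hXb, nq_onb hb, mul_one,
    Finset.sum_eq_single i] at h1
  · rw [hb.orth, if_pos rfl] at h1
    simpa using h1
  · intro j _ hj
    rw [hb.orth, if_neg hj]; simp
  · simp

theorem eig_nonneg {N : ℕ} (hN : Fintype.card ι = N) (X : Matrix ι ι ℂ) (hX : X.IsHermitian)
    (h : ∀ x, 0 ≤ rq X x) (i : Fin N) : 0 ≤ eig hN X hX i := by
  obtain ⟨b, hb, hXb⟩ := spec hN X hX
  have h1 := h (b i)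
  rw [rq_of_sum Finset.univ (fun j => eig hN X hX j) b X hXb,
    Finset.sum_eq_single i] at h1
  · rw [hb.orth, if_pos rfl] at h1
    simpa using h1
  · intro j _ hj
    rw [hb.orth, if_neg hj]; simp
  · simp

theorem eig_sum {N : ℕ} (hN : Fintype.card ι = N) (X : Matrix ι ι ℂ) (hX : X.IsHermitian) :
    ((∑ j, eig hN X hX j : ℝ) : ℂ) = ∑ a, X a a := by
  obtain ⟨b, hb, hXb⟩ := spec hN X hX
  simp only [hXb]
  rw [Finset.sum_comm]
  push_cast
  apply Finset.sum_congr rfl
  intro j _
  have h := nq_onb hb j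
  have h2 : ((nq (b j) : ℝ) : ℂ) = ∑ a, b j a * conj (b j a) := by
    unfold nq
    push_cast
    simp only [ofReal_normSq]
  rw [h] at h2
  have h3 : ((eig hN X hX j : ℝ) : ℂ) * ∑ a, b j a * conj (b j a) = ((eig hN X hX j : ℝ) : ℂ) := by
    rw [← h2]; simp
  conv_lhs => rw [← h3]
  rw [Finset.mul_sum]
  apply Finset.sum_congr rfl
  intro a _
  ring

end Pool.Agent.V11112.MJ1
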