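import Pool.Agent.V11112.MJ2

set_option linter.all false

namespace Pool.Agent.V11112.MJ1

open scoped ComplexConjugate Kronecker
open Finset Matrix

variable {ι κ K P L : Type*} [Fintype ι] [DecidableEq ι] [Fintype κ] [DecidableEq κ]
  [Fintype K] [DecidableEq K] [Fintype P] [DecidableEq P] [Fintype L] [DecidableEq L]

theorem std_onb : ONB (fun k : ι => (Pi.single k (1:ℂ) : ι → ℂ)) := by
  constructor
  · intro j k
    unfold ip
    rw [Finset.sum_eq_single j]
    · rw [Pi.single_eq_same]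
      by_cases h : j = k
      · subst h; simp
      · rw [if_neg h, Pi.single_eq_of_ne h]; simp
    · intro i _ hi
      rw [Pi.single_eq_of_ne hi]; simp
    · simp
  · intro i i'
    rw [Finset.sum_eq_single i]
    · rw [Pi.single_eq_same]
      by_cases h : i = i'
      · subst h; simp
      · rw [if_neg h, Pi.single_eq_of_ne (Ne.symm h)]; simp
    · intro j _ hj
      rw [Pi.single_eq_of_ne (Ne.symm hj)]; simp
    · simp

/-- product vector -/
noncomputable def tp (x : ι → ℂ) (y : κ → ℂ) : ι × κ → ℂ := fun q => x q.1 * y q.2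

theorem nq_tp (x : ι → ℂ) (y : κ → ℂ) : nq (tp x y) = nq x * nq y := by
  unfold nq tp
  rw [Fintype.sum_prod_type, Finset.sum_mul_sum]
  apply Finset.sum_congr rfl
  intro i _
  apply Finset.sum_congr rfl
  intro j _
  simp [Complex.normSq_mul]

/-- contraction against `y` in the second variable -/
noncomputable def cz (u : ι × κ → ℂ) (y : κ → ℂ) : ι → ℂ := fun a => ∑ b, conj (y b) * u (a, b)

/-- contraction against `x` in the first variable -/
noncomputable def cx (u : ι × κ → ℂ) (x : ι → ℂ) : κ → ℂ := fun b => ∑ a, conj (x a) * u (a, b)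

theorem ip_tp_z (x : ι → ℂ) (y : κ → ℂ) (u : ι × κ → ℂ) : ip (tp x y) u = ip x (cz u y) := by
  unfold ip tp cz
  rw [Fintype.sum_prod_type]
  apply Finset.sum_congr rfl
  intro a _
  rw [Finset.mul_sum]
  apply Finset.sum_congr rfl
  intro b _
  simp only [map_mul]
  ring

theorem ip_tp_x (x : ι → ℂ) (y : κ → ℂ) (u : ι × κ → ℂ) : ip (tp x y) u = ip y (cx u x) := by
  unfold ip tp cx
  rw [Fintype.sum_prod_type, Finset.sum_comm]
  apply Finset.sum_congr rfl
  intro b _
  rw [Finset.mul_sum]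
  apply Finset.sum_congr rfl
  intro a _
  simp only [map_mul]
  ring

/-- the weight of a product vector in the projection onto the span of `u p`, `p ∈ T` -/
noncomputable def wq (u : P → ι × κ → ℂ) (T : Finset P) (x : ι → ℂ) (y : κ → ℂ) : ℝ :=
  ∑ p ∈ T, Complex.normSq (ip (tp x y) (u p))

theorem wq_le {u : P → ι × κ → ℂ} (hu : ONB u) (T : Finset P) (x : ι → ℂ) (y : κ → ℂ) :
    wq u T x y ≤ nq x * nq y := by
  rw [← nq_tp]
  unfold wq
  simp only [normSq_ip_comm (tp x y)]
  exact bessel hu T _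

theorem wq_nonneg (u : P → ι × κ → ℂ) (T : Finset P) (x : ι → ℂ) (y : κ → ℂ) :
    0 ≤ wq u T x y := Finset.sum_nonneg (fun p _ => Complex.normSq_nonneg _)

theorem wq_sum (u : P → ι × κ → ℂ) (T : Finset P) (x : ι → ℂ) {f : L → κ → ℂ}
    (hf : ONB f) : ∑ l, wq u T x (f l) = ∑ p ∈ T, nq (cx (u p) x) := by
  unfold wq
  rw [Finset.sum_comm]
  apply Finset.sum_congr rfl
  intro p _
  rw [← parseval hf]
  apply Finset.sum_congr rfl
  intro l _
  rw [ip_tp_x]

/-- the reduced operator -/
noncomputable def TT (u : P → ι × κ → ℂ) (T : Finset P) (f : L → κ → ℂ) (G : Finset L) :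
    Matrix ι ι ℂ :=
  Matrix.of fun i i' => ∑ s ∈ G ×ˢ T, cz (u s.2) (f s.1) i * conj (cz (u s.2) (f s.1) i')

theorem TT_herm (u : P → ι × κ → ℂ) (T : Finset P) (f : L → κ → ℂ) (G : Finset L) :
    (TT u T f G).IsHermitian := by
  ext i i'
  rw [Matrix.conjTranspose_apply]
  unfold TT
  rw [Matrix.of_apply, Matrix.of_apply, star_sum]
  apply Finset.sum_congr rfl
  intro s _
  have h1 : ∀ z : ℂ, star z = conj z := fun z => rfl
  rw [h1, map_mul, Complex.conj_conj]
  ring

theorem rq_TT (u : P → ι × κ → ℂ) (T : Finset P) (f : L → κ → ℂ) (G : Finset L) (x : ι → ℂ) :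
    rq (TT u T f G) x = ∑ l ∈ G, wq u T x (f l) := by
  rw [rq_of_sum (G ×ˢ T) (fun _ => (1:ℝ)) (fun s => cz (u s.2) (f s.1)) (TT u T f G)]
  · rw [Finset.sum_product]
    apply Finset.sum_congr rfl
    intro l _
    unfold wq
    apply Finset.sum_congr rfl
    intro p _
    rw [one_mul, normSq_ip_comm, ip_tp_z]
  · intro i i'
    unfold TT
    rw [Matrix.of_apply]
    apply Finset.sum_congr rfl
    intro s _
    simp

/-- the reduced state -/
noncomputable def rho (u : P → ι × κ → ℂ) (T : Finset P) : Matrix ι ι ℂ :=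
  TT u T (fun k : κ => (Pi.single k (1:ℂ) : κ → ℂ)) Finset.univ

theorem rho_herm (u : P → ι × κ → ℂ) (T : Finset P) : (rho u T).IsHermitian := TT_herm _ _ _ _

theorem rq_rho (u : P → ι × κ → ℂ) (T : Finset P) (x : ι → ℂ) :
    rq (rho u T) x = ∑ p ∈ T, nq (cx (u p) x) := by
  unfold rho
  rw [rq_TT, wq_sum u T x std_onb]

theorem rho_trace {u : P → ι × κ → ℂ} (hu : ONB u) (T : Finset P) :
    ∑ a, rho u T a a = (T.card : ℂ) := by
  have h1 : ∀ p (a : ι) (k : κ), cz (u p) (Pi.single k (1:ℂ)) a = u p (a, k) := by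
    intro p a k
    unfold cz
    rw [Finset.sum_eq_single k]
    · simp
    · intro b _ hb
      rw [Pi.single_eq_of_ne hb]; simp
    · simp
  unfold rho TT
  simp only [Matrix.of_apply, h1, Finset.sum_product]
  have h2 : ∀ p ∈ T, ∑ a : ι, ∑ k : κ, u p (a, k) * conj (u p (a, k)) = 1 := by
    intro p _
    have h3 : ((nq (u p) : ℝ) : ℂ) = ∑ a : ι, ∑ k : κ, u p (a, k) * conj (u p (a, k)) := by
      unfold nq
      push_cast
      rw [Fintype.sum_prod_type]
      simp only [ofReal_normSq]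
    rw [← h3, nq_onb hu]; simp
  calc ∑ a : ι, ∑ k : κ, ∑ p ∈ T, u p (a, k) * conj (u p (a, k))
      = ∑ a : ι, ∑ p ∈ T, ∑ k : κ, u p (a, k) * conj (u p (a, k)) := by
        apply Finset.sum_congr rfl
        intro a _
        rw [Finset.sum_comm]
    _ = ∑ p ∈ T, ∑ a : ι, ∑ k : κ, u p (a, k) * conj (u p (a, k)) := by
        rw [Finset.sum_comm]
    _ = ∑ p ∈ T, (1:ℂ) := Finset.sum_congr rfl h2
    _ = (T.card : ℂ) := by simp

theorem TT_le_rho (u : P → ι × κ → ℂ) (T : Finset P) {f : L → κ → ℂ} (hf : ONB f)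
    (G : Finset L) (x : ι → ℂ) : rq (TT u T f G) x ≤ rq (rho u T) x := by
  rw [rq_TT, rq_rho, ← wq_sum u T x hf]
  exact Finset.sum_le_sum_of_subset_of_nonneg (Finset.subset_univ _)
    (fun i _ _ => wq_nonneg _ _ _ _)

theorem TT_le_card {u : P → ι × κ → ℂ} (hu : ONB u) (T : Finset P) {f : L → κ → ℂ} (hf : ONB f)
    (G : Finset L) (x : ι → ℂ) : rq (TT u T f G) x ≤ (G.card : ℝ) * nq x := by
  rw [rq_TT]
  calc ∑ l ∈ G, wq u T x (f l) ≤ ∑ l ∈ G, nq x := by
        apply Finset.sum_le_sum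
        intro l _
        have := wq_le hu T x (f l)
        rwa [nq_onb hf, mul_one] at this
    _ = (G.card : ℝ) * nq x := by simp

theorem card_lt {m k : ℕ} (hk : k ≤ m) :
    (univ.filter (fun i : Fin m => i.val < k)).card = k := by
  have := Fin.card_filter_val_lt (n := m) (m := k)
  simpa [min_eq_right hk] using this

/-- the key estimate -/
theorem key {m n : ℕ} (hm : Fintype.card ι = m) {u : P → ι × κ → ℂ}
    (hu : ONB u) (T : Finset P) {e : Fin m → ι → ℂ} (he : ONB e) {f : Fin n → κ → ℂ} (hf : ONB f)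
    (k : ℕ) (hk : k ≤ m) (l : ℕ) (hl : l ≤ n) :
    ∑ i ∈ univ.filter (fun i : Fin m => i.val < k), ∑ j ∈ univ.filter (fun j : Fin n => j.val < l),
      wq u T (e i) (f j)
      ≤ ∑ i ∈ univ.filter (fun i : Fin m => i.val < k),
          min (eig hm (rho u T) (rho_herm u T) i) (l : ℝ) := by
  set G := univ.filter (fun j : Fin n => j.val < l) with hG
  have hGc : (G.card : ℝ) = l := by rw [hG, card_lt hl]
  have h := kyfan hm (TT u T f G) (TT_herm u T f G) he
    (fun i : Fin m => if i.val < k then (1:ℝ) else 0)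
    (fun i => by split_ifs <;> norm_num)
    (fun i => by split_ifs <;> norm_num) k hk
    (by
      rw [← Finset.sum_filter]
      simp only [Finset.sum_const, nsmul_eq_mul, mul_one]
      rw [card_lt hk])
  have h1 : ∑ i, (if i.val < k then (1:ℝ) else 0) * rq (TT u T f G) (e i)
      = ∑ i ∈ univ.filter (fun i : Fin m => i.val < k), ∑ j ∈ G, wq u T (e i) (f j) := by
    rw [Finset.sum_filter]
    apply Finset.sum_congr rfl
    intro i _
    rw [rq_TT]
    split_ifs <;> simp
  rw [h1] at h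
  refine le_trans h ?_
  apply Finset.sum_le_sum
  intro i _
  apply le_min
  · exact weyl hm _ _ _ _ (TT_le_rho u T hf G) i
  · rw [← hGc]
    exact eig_le hm _ _ _ (TT_le_card hu T hf G) i

end Pool.Agent.V11112.MJ1
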