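import Pool.Agent.V11112.MJ3

set_option linter.all false

namespace Pool.Agent.V11112.MJ1

open scoped ComplexConjugate Kronecker ComplexOrder
open Finset Matrix

variable {ι κ K P L : Type*} [Fintype ι] [DecidableEq ι] [Fintype κ] [DecidableEq κ]
  [Fintype K] [DecidableEq K] [Fintype P] [DecidableEq P] [Fintype L] [DecidableEq L]

/-- the fractional Young diagram with row lengths `r` -/
noncomputable def yd {m : ℕ} (r : Fin m → ℝ) (i : Fin m) (j : ℕ) : ℝ :=
  min (r i) ((j : ℝ) + 1) - min (r i) (j : ℝ)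

theorem yd_nonneg {m : ℕ} (r : Fin m → ℝ) (i : Fin m) (j : ℕ) : 0 ≤ yd r i j := by
  unfold yd
  have : min (r i) (j : ℝ) ≤ min (r i) ((j : ℝ) + 1) := min_le_min_left _ (by linarith)
  linarith

theorem yd_le {m : ℕ} (r : Fin m → ℝ) (i : Fin m) (j : ℕ) : yd r i j ≤ 1 := by
  unfold yd
  rcases le_total (r i) (j : ℝ) with h | h
  · rw [min_eq_left h, min_eq_left (by linarith)]; linarith
  · rw [min_eq_right h]
    have := min_le_right (r i) ((j : ℝ) + 1)
    linarith

theorem yd_sum {m : ℕ} (r : Fin m → ℝ) (hr : ∀ i, 0 ≤ r i) (i : Fin m) (l : ℕ) :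
    ∑ j ∈ range l, yd r i j = min (r i) (l : ℝ) := by
  induction l with
  | zero => simp [hr i]
  | succ l ih =>
    rw [Finset.sum_range_succ, ih]
    unfold yd
    push_cast
    ring

theorem yd_sum_fin {m n : ℕ} (r : Fin m → ℝ) (hr : ∀ i, 0 ≤ r i) (i : Fin m) (l : ℕ) (hl : l ≤ n) :
    ∑ j ∈ univ.filter (fun j : Fin n => j.val < l), yd r i j.val = min (r i) (l : ℝ) := by
  rw [← yd_sum r hr i l, Finset.sum_filter,
    ← Finset.sum_range (fun j => if j < l then yd r i j else 0), ← Finset.sum_filter]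
  congr 1
  ext j
  simp only [Finset.mem_range, Finset.mem_filter]
  omega

theorem double_abel {m n : ℕ} (a : Fin m → ℝ) (ha : Antitone a) (ha0 : ∀ i, 0 ≤ a i)
    (b : Fin n → ℝ) (hb : Antitone b) (hb0 : ∀ i, 0 ≤ b i) (x : Fin m → Fin n → ℝ)
    (hx : ∀ k, k ≤ m → ∀ l, l ≤ n → 0 ≤ ∑ i ∈ univ.filter (fun i : Fin m => i.val < k),
      ∑ j ∈ univ.filter (fun j : Fin n => j.val < l), x i j) :
    0 ≤ ∑ i, a i * ∑ j, b j * x i j := by
  apply abel_fin a _ ha ha0
  intro k hk
  have h := abel_fin b (fun j => ∑ i ∈ univ.filter (fun i : Fin m => i.val < k), x i j) hb hb0 (by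
    intro l hl
    rw [Finset.sum_comm]
    exact hx k hk l hl)
  rw [Finset.sum_comm]
  simpa only [Finset.mul_sum] using h

/-- the estimate for a pair of decreasing sequences -/
theorem pair {m n : ℕ} (hm : Fintype.card ι = m) {u : P → ι × κ → ℂ}
    (hu : ONB u) (T : Finset P) {e : Fin m → ι → ℂ} (he : ONB e) {f : Fin n → κ → ℂ} (hf : ONB f)
    (a : Fin m → ℝ) (ha : Antitone a) (ha0 : ∀ i, 0 ≤ a i)
    (b : Fin n → ℝ) (hb : Antitone b) (hb0 : ∀ i, 0 ≤ b i) :
    ∑ i, a i * ∑ j, b j * wq u T (e i) (f j)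
      ≤ ∑ i, a i * ∑ j : Fin n, b j * yd (eig hm (rho u T) (rho_herm u T)) i j.val := by
  have hr : ∀ i, 0 ≤ eig hm (rho u T) (rho_herm u T) i := by
    apply eig_nonneg
    intro x
    rw [rq_rho]
    exact Finset.sum_nonneg (fun p _ => nq_nonneg _)
  have h := double_abel a ha ha0 b hb hb0
    (fun i j => yd (eig hm (rho u T) (rho_herm u T)) i j.val - wq u T (e i) (f j)) (by
      intro k hk l hl
      simp only [Finset.sum_sub_distrib]
      have h1 := key hm hu T he hf k hk l hl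
      have h2 : ∑ i ∈ univ.filter (fun i : Fin m => i.val < k),
          ∑ j ∈ univ.filter (fun j : Fin n => j.val < l),
            yd (eig hm (rho u T) (rho_herm u T)) i j.val
          = ∑ i ∈ univ.filter (fun i : Fin m => i.val < k),
          min (eig hm (rho u T) (rho_herm u T) i) (l : ℝ) := by
        apply Finset.sum_congr rfl
        intro i _
        exact yd_sum_fin _ hr i l hl
      rw [h2]
      linarith)
  simp only [mul_sub, Finset.sum_sub_distrib] at h
  linarith

theorem rq_kron {m n : ℕ} (hm : Fintype.card ι = m) (hn : Fintype.card κ = n)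
    (A : Matrix ι ι ℂ) (hA : A.IsHermitian) (B : Matrix κ κ ℂ) (hB : B.IsHermitian)
    {e : Fin m → ι → ℂ} {f : Fin n → κ → ℂ}
    (hAe : ∀ i i', A i i' = ∑ j, (eig hm A hA j : ℂ) * e j i * conj (e j i'))
    (hBf : ∀ i i', B i i' = ∑ j, (eig hn B hB j : ℂ) * f j i * conj (f j i'))
    (x : ι × κ → ℂ) :
    rq (A ⊗ₖ B) x = ∑ i, eig hm A hA i * ∑ j, eig hn B hB j *
      Complex.normSq (ip (tp (e i) (f j)) x) := by
  rw [rq_of_sum (Finset.univ : Finset (Fin m × Fin n)) (fun s => eig hm A hA s.1 * eig hn B hB s.2)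
    (fun s => tp (e s.1) (f s.2)) (A ⊗ₖ B)]
  · rw [Fintype.sum_prod_type]
    apply Finset.sum_congr rfl
    intro i _
    rw [Finset.mul_sum]
    apply Finset.sum_congr rfl
    intro j _
    ring
  · rintro ⟨i, k⟩ ⟨i', k'⟩
    rw [Matrix.kroneckerMap_apply, hAe, hBf, Finset.sum_mul_sum, Fintype.sum_prod_type]
    apply Finset.sum_congr rfl
    intro s _
    apply Finset.sum_congr rfl
    intro t _
    unfold tp
    push_cast
    rw [map_mul]
    ring

theorem rq_sum {s : ℕ} (X : Fin s → Matrix ι ι ℂ) (x : ι → ℂ) :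
    rq (∑ q, X q) x = ∑ q, rq (X q) x := by
  unfold rq qf
  rw [← Complex.re_sum]
  congr 1
  simp only [Matrix.sum_apply, Finset.mul_sum, Finset.sum_mul]
  rw [Finset.sum_congr rfl (fun i _ => Finset.sum_comm), Finset.sum_comm]

theorem rq_std (X : Matrix ι ι ℂ) (k : ι) : rq X (Pi.single k (1:ℂ)) = (X k k).re := by
  unfold rq qf
  rw [Finset.sum_eq_single k, Finset.sum_eq_single k]
  · simp
  · intro j _ hj
    rw [Pi.single_eq_of_ne hj]; simp
  · simp
  · intro j _ hj
    rw [Pi.single_eq_of_ne hj]; simp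
  · simp

/-- the diagonal matrix of the eigenvalues in decreasing order -/
noncomputable def down {m : ℕ} (hm : Fintype.card ι = m) (A : Matrix ι ι ℂ) (hA : A.IsHermitian) :
    Matrix (Fin m) (Fin m) ℂ := Matrix.diagonal (fun i => ((eig hm A hA i : ℝ) : ℂ))

theorem down_herm {m : ℕ} (hm : Fintype.card ι = m) (A : Matrix ι ι ℂ) (hA : A.IsHermitian) :
    (down hm A hA).IsHermitian := by
  unfold down
  rw [Matrix.isHermitian_diagonal_iff]
  intro i
  rw [isSelfAdjoint_iff]
  exact Complex.conj_ofReal _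

theorem kron_herm (A : Matrix ι ι ℂ) (B : Matrix κ κ ℂ) (hA : A.IsHermitian)
    (hB : B.IsHermitian) : (A ⊗ₖ B).IsHermitian := by
  unfold Matrix.IsHermitian at *
  rw [Matrix.conjTranspose_kronecker, hA, hB]

theorem sum_herm {s : ℕ} (X : Fin s → Matrix ι ι ℂ) (h : ∀ q, (X q).IsHermitian) :
    (∑ q, X q).IsHermitian := by
  unfold Matrix.IsHermitian
  rw [Matrix.conjTranspose_sum]
  exact Finset.sum_congr rfl (fun q _ => h q)

theorem eig_nonneg_of_psd {m : ℕ} (hm : Fintype.card ι = m) (A : Matrix ι ι ℂ)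
    (hA : A.PosSemidef) (i : Fin m) : 0 ≤ eig hm A hA.isHermitian i := by
  have h := hA.eigenvalues_nonneg (Fintype.equivOfCardEq (Fintype.card_fin _) (Fin.cast hm.symm i))
  unfold Matrix.IsHermitian.eigenvalues at h
  rw [Equiv.symm_apply_apply] at h
  exact h

theorem partial_sums {s m n N : ℕ} (hm : Fintype.card ι = m) (hn : Fintype.card κ = n)
    (hN : Fintype.card (ι × κ) = N) (hN' : Fintype.card (Fin m × Fin n) = N)
    (A : Fin s → Matrix ι ι ℂ) (B : Fin s → Matrix κ κ ℂ)
    (hA : ∀ q, (A q).PosSemidef) (hB : ∀ q, (B q).PosSemidef)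
    (hM : (∑ q, A q ⊗ₖ B q).IsHermitian)
    (hM' : (∑ q, down hm (A q) (hA q).isHermitian ⊗ₖ down hn (B q) (hB q).isHermitian).IsHermitian)
    (t : ℕ) (ht : t ≤ N) :
    ∑ j ∈ univ.filter (fun j : Fin N => j.val < t), eig hN _ hM j
      ≤ ∑ j ∈ univ.filter (fun j : Fin N => j.val < t), eig hN' _ hM' j := by
  obtain ⟨u, hu, hMu⟩ := spec hN _ hM
  set T := univ.filter (fun j : Fin N => j.val < t) with hT
  have hTc : T.card = t := by rw [hT, card_lt ht]
  set r := eig hm (rho u T) (rho_herm u T) with hr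
  -- left side
  have h1 : ∑ j ∈ T, eig hN _ hM j = ∑ p ∈ T, rq (∑ q, A q ⊗ₖ B q) (u p) := by
    apply Finset.sum_congr rfl
    intro p _
    rw [rq_of_sum Finset.univ (fun j => eig hN _ hM j) u _ hMu, Finset.sum_eq_single p]
    · rw [hu.orth, if_pos rfl]; simp
    · intro j _ hj
      rw [hu.orth, if_neg hj]; simp
    · simp
  have h2 : ∀ q : Fin s, ∑ p ∈ T, rq (A q ⊗ₖ B q) (u p)
      ≤ ∑ i, eig hm (A q) (hA q).isHermitian i *
        ∑ j : Fin n, eig hn (B q) (hB q).isHermitian j * yd r i j.val := by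
    intro q
    obtain ⟨e, he, hAe⟩ := spec hm (A q) (hA q).isHermitian
    obtain ⟨f, hf, hBf⟩ := spec hn (B q) (hB q).isHermitian
    have h3 := pair hm hu T he hf (eig hm (A q) (hA q).isHermitian)
      (eig_antitone hm (A q) (hA q).isHermitian) (eig_nonneg_of_psd hm (A q) (hA q))
      (eig hn (B q) (hB q).isHermitian)
      (eig_antitone hn (B q) (hB q).isHermitian) (eig_nonneg_of_psd hn (B q) (hB q))
    refine le_trans (le_of_eq ?_) h3
    simp only [rq_kron hm hn (A q) (hA q).isHermitian (B q) (hB q).isHermitian hAe hBf]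
    rw [Finset.sum_comm]
    apply Finset.sum_congr rfl
    intro i _
    rw [← Finset.mul_sum, Finset.sum_comm]
    congr 1
    apply Finset.sum_congr rfl
    intro j _
    unfold wq
    rw [Finset.mul_sum]
  -- total mass of the diagram
  have hr0 : ∀ i, 0 ≤ r i := by
    apply eig_nonneg
    intro x
    rw [rq_rho]
    exact Finset.sum_nonneg (fun p _ => nq_nonneg _)
  have hrn : ∀ i, r i ≤ n := by
    intro i
    have hc : ((Finset.univ : Finset κ).card : ℝ) = n := by rw [Finset.card_univ, hn]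
    rw [← hc]
    exact eig_le hm _ _ _ (TT_le_card hu T std_onb Finset.univ) i
  have hmass : ∑ k : Fin m × Fin n, yd r k.1 k.2.val = t := by
    rw [Fintype.sum_prod_type]
    have h4 : ∀ i : Fin m, ∑ j : Fin n, yd r i j.val = r i := by
      intro i
      have := yd_sum_fin (n := n) r hr0 i n le_rfl
      rw [min_eq_left (hrn i)] at this
      rw [← this]
      apply Finset.sum_congr _ (fun _ _ => rfl)
      ext j; simp
    simp only [h4]
    have h5 := eig_sum hm (rho u T) (rho_herm u T)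
    rw [rho_trace hu, hTc] at h5
    exact_mod_cast h5
  have h6 := kyfan hN' _ hM' (std_onb (ι := Fin m × Fin n)) (fun k => yd r k.1 k.2.val)
    (fun k => yd_nonneg r _ _) (fun k => yd_le r _ _) t ht hmass
  rw [h1]
  refine le_trans ?_ h6
  simp only [rq_sum]
  rw [Finset.sum_comm]
  refine le_trans (Finset.sum_le_sum (fun q _ => h2 q)) (le_of_eq ?_)
  simp only [rq_std, Matrix.kroneckerMap_apply, down, Matrix.diagonal_apply_eq, Finset.mul_sum]
  rw [Finset.sum_comm, Fintype.sum_prod_type]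
  apply Finset.sum_congr rfl
  intro i _
  rw [Finset.sum_comm]
  apply Finset.sum_congr rfl
  intro j _
  apply Finset.sum_congr rfl
  intro q _
  rw [← Complex.ofReal_mul, Complex.ofReal_re]
  ring

theorem total_sums {s m n N : ℕ} (hm : Fintype.card ι = m) (hn : Fintype.card κ = n)
    (hN : Fintype.card (ι × κ) = N) (hN' : Fintype.card (Fin m × Fin n) = N)
    (A : Fin s → Matrix ι ι ℂ) (B : Fin s → Matrix κ κ ℂ)
    (hA : ∀ q, (A q).PosSemidef) (hB : ∀ q, (B q).PosSemidef)
    (hM : (∑ q, A q ⊗ₖ B q).IsHermitian)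
    (hM' : (∑ q, down hm (A q) (hA q).isHermitian ⊗ₖ down hn (B q) (hB q).isHermitian).IsHermitian) :
    ∑ j, eig hN _ hM j = ∑ j, eig hN' _ hM' j := by
  have h1 := eig_sum hN _ hM
  have h2 := eig_sum hN' _ hM'
  have h3 : ∑ a, (∑ q, A q ⊗ₖ B q) a a = ∑ a,
      (∑ q, down hm (A q) (hA q).isHermitian ⊗ₖ down hn (B q) (hB q).isHermitian) a a := by
    simp only [Matrix.sum_apply]
    rw [Finset.sum_comm, Finset.sum_comm (s := (Finset.univ : Finset (Fin m × Fin n)))]
    apply Finset.sum_congr rfl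
    intro q _
    rw [Fintype.sum_prod_type, Fintype.sum_prod_type]
    simp only [Matrix.kroneckerMap_apply, down, Matrix.diagonal_apply_eq]
    rw [← Finset.sum_mul_sum, ← Finset.sum_mul_sum, ← eig_sum hm _ (hA q).isHermitian,
      ← eig_sum hn _ (hB q).isHermitian]
    push_cast
    rfl
  rw [h3, ← h2] at h1
  exact_mod_cast h1

end Pool.Agent.V11112.MJ1
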