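import Mathlib

set_option linter.all false

namespace Pool.Agent.V11112.NX1

open Filter Topology

variable {X : Type*} [NormedAddCommGroup X] [NormedSpace ℝ X]

/-- nonexpansive self-maps with the topology of pointwise convergence -/
abbrev NE (X : Type*) [NormedAddCommGroup X] := {f : X → X // ∀ x y, ‖f x - f y‖ ≤ ‖x - y‖}

def FF (X : Type*) [NormedAddCommGroup X] [NormedSpace ℝ X] : Set (NE X) :=
  {f | ∃ K : Set X, K.Nonempty ∧ IsClosed K ∧ Convex ℝ K ∧ Bornology.IsBounded K ∧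
    Set.MapsTo f.1 K K}

def GG (X : Type*) [NormedAddCommGroup X] (R : ℝ) : Set (NE X) := {f | ∀ k : ℕ, ‖f.1^[k] 0‖ ≤ R}

theorem iter_ne (f : NE X) (k : ℕ) (x y : X) : ‖f.1^[k] x - f.1^[k] y‖ ≤ ‖x - y‖ := by
  induction k with
  | zero => simp
  | succ k ih =>
    rw [Function.iterate_succ_apply', Function.iterate_succ_apply']
    exact le_trans (f.2 _ _) ih

theorem cont_ne (f : NE X) : Continuous f.1 := by
  have : LipschitzWith 1 f.1 := LipschitzWith.of_dist_le_mul (fun x y => by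
    rw [dist_eq_norm, dist_eq_norm]; simpa using f.2 x y)
  exact this.continuous

theorem FF_sub : FF X ⊆ ⋃ n : ℕ, GG X n := by
  rintro f ⟨K, ⟨y, hy⟩, _, _, hb, hm⟩
  obtain ⟨C, hC⟩ := hb.exists_norm_le
  obtain ⟨n, hn⟩ := exists_nat_ge (‖(0:X) - y‖ + C)
  rw [Set.mem_iUnion]
  refine ⟨n, fun k => ?_⟩
  have h1 : f.1^[k] y ∈ K := by
    induction k with
    | zero => exact hy
    | succ k ih => rw [Function.iterate_succ_apply']; exact hm ih
  have h2 := iter_ne f k 0 y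
  have h3 := hC _ h1
  calc ‖f.1^[k] 0‖ = ‖(f.1^[k] 0 - f.1^[k] y) + f.1^[k] y‖ := by congr 1; abel
    _ ≤ ‖f.1^[k] 0 - f.1^[k] y‖ + ‖f.1^[k] y‖ := norm_add_le _ _
    _ ≤ ‖(0:X) - y‖ + C := add_le_add h2 h3
    _ ≤ n := hn

theorem GG_sub (R : ℝ) : GG X R ⊆ FF X := by
  intro f hf
  let K₀ : Set X := {y | ∃ n : ℕ, ∀ k ≥ n, ‖f.1^[k] 0 - y‖ ≤ R}
  have hconv : Convex ℝ K₀ := by
    rintro y ⟨n, hn⟩ z ⟨m, hm⟩ a b ha hb hab
    refine ⟨max n m, fun k hk => ?_⟩
    have e : f.1^[k] 0 - (a • y + b • z) = a • (f.1^[k] 0 - y) + b • (f.1^[k] 0 - z) := by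
      have : f.1^[k] 0 = a • f.1^[k] 0 + b • f.1^[k] 0 := by rw [← add_smul, hab, one_smul]
      conv_lhs => rw [this]
      rw [smul_sub, smul_sub]; abel
    rw [e]
    calc _ ≤ ‖a • (f.1^[k] 0 - y)‖ + ‖b • (f.1^[k] 0 - z)‖ := norm_add_le _ _
      _ = a * ‖f.1^[k] 0 - y‖ + b * ‖f.1^[k] 0 - z‖ := by
        rw [norm_smul, norm_smul, Real.norm_of_nonneg ha, Real.norm_of_nonneg hb]
      _ ≤ a * R + b * R := add_le_add
        (mul_le_mul_of_nonneg_left (hn k (le_trans (le_max_left _ _) hk)) ha)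
        (mul_le_mul_of_nonneg_left (hm k (le_trans (le_max_right _ _) hk)) hb)
      _ = R := by rw [← add_mul, hab, one_mul]
  have hmap : Set.MapsTo f.1 K₀ K₀ := by
    rintro y ⟨n, hn⟩
    refine ⟨n + 1, fun k hk => ?_⟩
    obtain ⟨j, rfl⟩ : ∃ j, k = j + 1 := ⟨k - 1, by omega⟩
    rw [Function.iterate_succ_apply']
    exact le_trans (f.2 _ _) (hn j (by omega))
  have hbd : Bornology.IsBounded K₀ := by
    rw [isBounded_iff_forall_norm_le]
    refine ⟨R + R, ?_⟩
    rintro y ⟨n, hn⟩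
    have h1 := hn n le_rfl
    have h2 := hf n
    calc ‖y‖ = ‖f.1^[n] 0 - (f.1^[n] 0 - y)‖ := by congr 1; abel
      _ ≤ ‖f.1^[n] 0‖ + ‖f.1^[n] 0 - y‖ := norm_sub_le _ _
      _ ≤ R + R := add_le_add h2 h1
  refine ⟨closure K₀, ⟨0, subset_closure ⟨0, fun k _ => by simpa using hf k⟩⟩, isClosed_closure,
    hconv.closure, hbd.closure, hmap.closure (cont_ne f)⟩

theorem eval_cont : Continuous (fun p : NE X × X => p.1.1 p.2) := by
  rw [continuous_iff_continuousAt]
  rintro ⟨f, y⟩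
  show Tendsto _ _ (𝓝 (f.1 y))
  rw [tendsto_iff_dist_tendsto_zero]
  have h1 : Tendsto (fun p : NE X × X => ‖p.2 - y‖ + ‖p.1.1 y - f.1 y‖) (𝓝 (f, y)) (𝓝 0) := by
    have hc : Continuous (fun p : NE X × X => ‖p.2 - y‖ + ‖p.1.1 y - f.1 y‖) := by
      have h2 : Continuous (fun p : NE X × X => p.1.1 y) :=
        (continuous_apply y).comp (continuous_subtype_val.comp continuous_fst)
      fun_prop
    have := hc.tendsto (f, y)
    simpa using this
  refine squeeze_zero (fun _ => dist_nonneg) (fun p => ?_) h1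
  rw [dist_eq_norm]
  calc ‖p.1.1 p.2 - f.1 y‖ = ‖(p.1.1 p.2 - p.1.1 y) + (p.1.1 y - f.1 y)‖ := by congr 1; abel
    _ ≤ ‖p.1.1 p.2 - p.1.1 y‖ + ‖p.1.1 y - f.1 y‖ := norm_add_le _ _
    _ ≤ ‖p.2 - y‖ + ‖p.1.1 y - f.1 y‖ := by linarith [p.1.2 p.2 y]

theorem iter_cont (k : ℕ) : Continuous (fun f : NE X => f.1^[k] 0) := by
  induction k with
  | zero => simpa using continuous_const
  | succ k ih =>
    simp only [Function.iterate_succ_apply']
    exact eval_cont.comp (continuous_id.prodMk ih)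

theorem GG_closed (R : ℝ) : IsClosed (GG X R) := by
  have : GG X R = ⋂ k : ℕ, {f : NE X | ‖f.1^[k] 0‖ ≤ R} := by
    ext f; simp [GG]
  rw [this]
  exact isClosed_iInter (fun k => isClosed_le (iter_cont k).norm continuous_const)

theorem basic (U : Set (NE X)) (hU : IsOpen U) (f : NE X) (hf : f ∈ U) :
    ∃ I : Finset X, ∃ ε > 0, ∀ h : NE X, (∀ x ∈ I, ‖h.1 x - f.1 x‖ < ε) → h ∈ U := by
  obtain ⟨V, hV, rfl⟩ := isOpen_induced_iff.mp hU
  rw [isOpen_pi_iff] at hV
  obtain ⟨I, u, hu, hsub⟩ := hV f.1 hf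
  have h1 : ∀ᶠ ε in 𝓝[>] (0:ℝ), ∀ a ∈ I, Metric.ball (f.1 a) ε ⊆ u a := by
    rw [Filter.eventually_all_finset]
    intro a ha
    obtain ⟨e, he, hb⟩ := Metric.isOpen_iff.mp (hu a ha).1 (f.1 a) (hu a ha).2
    filter_upwards [Ioo_mem_nhdsGT he] with ε hε
    exact (Metric.ball_subset_ball hε.2.le).trans hb
  obtain ⟨ε, hε1, hε2⟩ := (h1.and self_mem_nhdsWithin).exists
  refine ⟨I, ε, hε2, fun h hh => hsub ?_⟩
  intro a ha
  apply hε1 a ha
  rw [Metric.mem_ball, dist_eq_norm]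
  exact hh a ha

theorem basic_open (I : Finset X) (ε : ℝ) (f : NE X) :
    IsOpen {h : NE X | ∀ x ∈ I, ‖h.1 x - f.1 x‖ < ε} := by
  have : {h : NE X | ∀ x ∈ I, ‖h.1 x - f.1 x‖ < ε} = ⋂ x ∈ I, {h : NE X | ‖h.1 x - f.1 x‖ < ε} := by
    ext h; simp
  rw [this]
  apply isOpen_biInter_finset
  intro x _
  have h2 : Continuous (fun h : NE X => h.1 x) := (continuous_apply x).comp continuous_subtype_val
  exact isOpen_lt (h2.sub continuous_const).norm continuous_const

/-- logarithmic cut-off -/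
theorem cut (δ a : ℝ) (hδ : 0 < δ) (ha : 0 < a) : ∃ θ : ℝ → ℝ, (∀ r, 0 ≤ θ r) ∧ (∀ r, θ r ≤ 1) ∧
    (∀ r ≤ a, θ r = 1) ∧ (∀ r ≥ a * Real.exp (1/δ), θ r = 0) ∧
    (∀ r' r, 0 ≤ r' → r' ≤ r → |θ r - θ r'| * r' ≤ δ * (r - r')) := by
  refine ⟨fun r => max 0 (min 1 (1 - δ * (Real.log (max r a) - Real.log a))), ?_, ?_, ?_, ?_, ?_⟩
  · intro r; exact le_max_left _ _
  · intro r; exact max_le zero_le_one (min_le_left _ _)
  · intro r hr
    simp [max_eq_right hr]
  · intro r hr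
    have hb : a ≤ r := by
      have : 1 ≤ Real.exp (1/δ) := Real.one_le_exp (by positivity)
      nlinarith
    have h1 : Real.log a + 1/δ ≤ Real.log r := by
      have := Real.log_le_log (by positivity) hr
      rwa [Real.log_mul ha.ne' (Real.exp_pos _).ne', Real.log_exp] at this
    have h2 : 1 - δ * (Real.log (max r a) - Real.log a) ≤ 0 := by
      rw [max_eq_left hb]
      have : 1/δ ≤ Real.log r - Real.log a := by linarith
      have h3 : δ * (1/δ) ≤ δ * (Real.log r - Real.log a) := mul_le_mul_of_nonneg_left this hδ.le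
      rw [mul_one_div_cancel hδ.ne'] at h3
      linarith
    exact max_eq_left (le_trans (min_le_right _ _) h2)
  · intro r' r h0 hr
    have hm' : 0 < max r' a := lt_max_of_lt_right ha
    have hm : max r' a ≤ max r a := max_le_max_right a hr
    have hmpos : 0 < max r a := lt_of_lt_of_le hm' hm
    have hlog : Real.log (max r' a) ≤ Real.log (max r a) := Real.log_le_log hm' hm
    have hlog2 : Real.log (max r a) - Real.log (max r' a) ≤ (max r a - max r' a) / max r' a := by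
      rw [← Real.log_div hmpos.ne' hm'.ne']
      have := Real.log_le_sub_one_of_pos (div_pos hmpos hm')
      calc _ ≤ max r a / max r' a - 1 := this
        _ = _ := by field_simp
    have hd : max r a - max r' a ≤ r - r' := by
      rcases le_total r' a with h | h
      · rw [max_eq_right h]
        rcases le_total r a with h2 | h2
        · rw [max_eq_right h2]; linarith
        · rw [max_eq_left h2]; linarith
      · rw [max_eq_left h, max_eq_left (le_trans h hr)]
    have key : |max 0 (min 1 (1 - δ * (Real.log (max r a) - Real.log a))) -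
        max 0 (min 1 (1 - δ * (Real.log (max r' a) - Real.log a)))|
        ≤ δ * (Real.log (max r a) - Real.log (max r' a)) := by
      have e1 := abs_max_sub_max_le_abs (min 1 (1 - δ * (Real.log (max r a) - Real.log a)))
        (min 1 (1 - δ * (Real.log (max r' a) - Real.log a))) 0
      have e2 := abs_min_sub_min_le_max (1:ℝ) (1 - δ * (Real.log (max r a) - Real.log a)) 1
        (1 - δ * (Real.log (max r' a) - Real.log a))
      rw [max_comm _ (0:ℝ), max_comm _ (0:ℝ)] at e1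
      have e3 : |(1 - δ * (Real.log (max r a) - Real.log a)) -
          (1 - δ * (Real.log (max r' a) - Real.log a))|
          = δ * (Real.log (max r a) - Real.log (max r' a)) := by
        rw [show (1 - δ * (Real.log (max r a) - Real.log a)) -
          (1 - δ * (Real.log (max r' a) - Real.log a))
          = -(δ * (Real.log (max r a) - Real.log (max r' a))) by ring, abs_neg, abs_of_nonneg]
        exact mul_nonneg hδ.le (by linarith)
      rw [e3, sub_self, abs_zero] at e2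
      refine le_trans e1 (le_trans e2 (le_of_eq (max_eq_right ?_)))
      exact mul_nonneg hδ.le (by linarith)
    calc _ ≤ (δ * (Real.log (max r a) - Real.log (max r' a))) * r' :=
          mul_le_mul_of_nonneg_right key h0
      _ ≤ (δ * ((max r a - max r' a) / max r' a)) * max r' a := by
          apply mul_le_mul _ (le_max_left _ _) h0
          · apply mul_nonneg hδ.le
            apply div_nonneg (by linarith) hm'.le
          · exact mul_le_mul_of_nonneg_left hlog2 hδ.le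
      _ = δ * (max r a - max r' a) := by field_simp
      _ ≤ δ * (r - r') := mul_le_mul_of_nonneg_left hd hδ.le

theorem radial (δ : ℝ) (hδ : 0 ≤ δ) (w : ℝ → ℝ) (h0 : ∀ r, 0 ≤ w r) (h1 : ∀ r, w r ≤ 1)
    (hw : ∀ r' r, 0 ≤ r' → r' ≤ r → |w r - w r'| * r' ≤ δ * (r - r')) (x y : X) :
    ‖w ‖x‖ • x - w ‖y‖ • y‖ ≤ (1 + δ) * ‖x - y‖ := by
  have main : ∀ x y : X, ‖y‖ ≤ ‖x‖ → ‖w ‖x‖ • x - w ‖y‖ • y‖ ≤ (1 + δ) * ‖x - y‖ := by
    intro x y hxy
    have e : w ‖x‖ • x - w ‖y‖ • y = w ‖x‖ • (x - y) + (w ‖x‖ - w ‖y‖) • y := by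
      rw [smul_sub, sub_smul]; abel
    rw [e]
    calc _ ≤ ‖w ‖x‖ • (x - y)‖ + ‖(w ‖x‖ - w ‖y‖) • y‖ := norm_add_le _ _
      _ = w ‖x‖ * ‖x - y‖ + |w ‖x‖ - w ‖y‖| * ‖y‖ := by
        rw [norm_smul, norm_smul, Real.norm_of_nonneg (h0 _), Real.norm_eq_abs]
      _ ≤ 1 * ‖x - y‖ + δ * (‖x‖ - ‖y‖) := add_le_add
        (mul_le_mul_of_nonneg_right (h1 _) (norm_nonneg _)) (hw _ _ (norm_nonneg _) hxy)
      _ ≤ 1 * ‖x - y‖ + δ * ‖x - y‖ := by
        have := mul_le_mul_of_nonneg_left (norm_sub_norm_le x y) hδ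
        linarith
      _ = (1 + δ) * ‖x - y‖ := by ring
  rcases le_total ‖y‖ ‖x‖ with h | h
  · exact main x y h
  · rw [norm_sub_rev, norm_sub_rev x y]; exact main y x h

end Pool.Agent.V11112.NX1
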