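import Pool.Agent.V11112.NX1

set_option linter.all false

namespace Pool.Agent.V11112.NX1

open Filter Topology

variable {X : Type*} [NormedAddCommGroup X] [NormedSpace ℝ X]

/-- the truncated inner map -/
theorem inner_map (U : Set (NE X)) (hU : IsOpen U) (f₀ : NE X) (hf₀ : f₀ ∈ U) :
    ∃ (I : Finset X) (ε : ℝ) (f : NE X) (b : ℝ) (c : X), 0 < ε ∧ 0 < b ∧
      (∀ h : NE X, (∀ x ∈ I, ‖h.1 x - f.1 x‖ < ε) → h ∈ U) ∧
      (∀ x ∈ I, ‖x‖ ≤ b) ∧ (∀ x, b ≤ ‖x‖ → f.1 x = c) ∧ f.1 0 = c := by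
  obtain ⟨I, ε, hε, hI⟩ := basic U hU f₀ hf₀
  obtain ⟨R, hR⟩ : ∃ R : ℝ, ∀ x ∈ I, ‖x‖ ≤ R ∧ ‖f₀.1 x‖ ≤ R := by
    refine ⟨∑ x ∈ I, (‖x‖ + ‖f₀.1 x‖), fun x hx => ?_⟩
    have h := Finset.single_le_sum (f := fun x => ‖x‖ + ‖f₀.1 x‖)
      (fun i _ => by positivity) hx
    constructor
    · have := norm_nonneg (f₀.1 x); linarith
    · have := norm_nonneg x; linarith
  set a : ℝ := max R 1 with ha
  have ha0 : 0 < a := lt_of_lt_of_le one_pos (le_max_right _ _)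
  -- τ small
  obtain ⟨τ, hτ0, hτ1, hτ2⟩ : ∃ τ : ℝ, 0 < τ ∧ τ < 1 ∧ τ * a < ε / 2 := by
    refine ⟨min (1/2) (ε / (4 * a)), by positivity, ?_, ?_⟩
    · exact lt_of_le_of_lt (min_le_left _ _) (by norm_num)
    · calc min (1/2) (ε / (4 * a)) * a ≤ (ε / (4 * a)) * a :=
          mul_le_mul_of_nonneg_right (min_le_right _ _) ha0.le
        _ = ε / 4 := by field_simp
        _ < ε / 2 := by linarith
  obtain ⟨θ, t0, t1, ta, tb, tl⟩ := cut τ a hτ0 ha0
  let f : NE X := ⟨fun x => (1 - τ) • f₀.1 (θ ‖x‖ • x), fun x y => by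
    rw [← smul_sub, norm_smul, Real.norm_of_nonneg (by linarith)]
    have h1 := f₀.2 (θ ‖x‖ • x) (θ ‖y‖ • y)
    have h2 := radial τ hτ0.le θ t0 t1 tl x y
    calc (1 - τ) * ‖f₀.1 (θ ‖x‖ • x) - f₀.1 (θ ‖y‖ • y)‖
        ≤ (1 - τ) * ((1 + τ) * ‖x - y‖) :=
          mul_le_mul_of_nonneg_left (le_trans h1 h2) (by linarith)
      _ = (1 - τ^2) * ‖x - y‖ := by ring
      _ ≤ 1 * ‖x - y‖ := mul_le_mul_of_nonneg_right (by nlinarith) (norm_nonneg _)
      _ = ‖x - y‖ := one_mul _⟩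
  refine ⟨I, ε / 2, f, a * Real.exp (1/τ), (1 - τ) • f₀.1 0, by linarith, by positivity, ?_, ?_,
    ?_, ?_⟩
  · intro h hh
    apply hI
    intro x hx
    have h1 := hh x hx
    have h2 : ‖f.1 x - f₀.1 x‖ < ε / 2 := by
      have h3 : f.1 x = (1 - τ) • f₀.1 x := by
        show (1 - τ) • f₀.1 (θ ‖x‖ • x) = _
        rw [ta ‖x‖ (le_trans (hR x hx).1 (le_max_left _ _)), one_smul]
      rw [h3, sub_smul, one_smul, sub_sub_cancel_left, norm_neg, norm_smul,
        Real.norm_of_nonneg hτ0.le]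
      exact lt_of_le_of_lt (mul_le_mul_of_nonneg_left
        (le_trans (hR x hx).2 (le_max_left _ _)) hτ0.le) hτ2
    calc ‖h.1 x - f₀.1 x‖ = ‖(h.1 x - f.1 x) + (f.1 x - f₀.1 x)‖ := by congr 1; abel
      _ ≤ ‖h.1 x - f.1 x‖ + ‖f.1 x - f₀.1 x‖ := norm_add_le _ _
      _ < ε := by linarith
  · intro x hx
    have h1 : 1 ≤ Real.exp (1/τ) := Real.one_le_exp (by positivity)
    have h2 := le_trans (hR x hx).1 (le_max_left R 1)
    nlinarith
  · intro x hx
    show (1 - τ) • f₀.1 (θ ‖x‖ • x) = _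
    rw [tb ‖x‖ hx, zero_smul]
  · show (1 - τ) • f₀.1 (θ ‖(0:X)‖ • (0:X)) = _
    rw [smul_zero]

/-- the outer map: locally constant near its fixed point, close to `g` -/
theorem outer_map [CompleteSpace X] (g : NE X) (I : Finset X) (ε : ℝ) (hε : 0 < ε) :
    ∃ (G : NE X) (p : X) (a : ℝ), 0 < a ∧ (∀ v, ‖v‖ ≤ a → G.1 (p + v) = p) ∧
      (∀ x ∈ I, ‖G.1 x - g.1 x‖ < ε) := by
  obtain ⟨R, hR⟩ : ∃ R : ℝ, ∀ x ∈ I, ‖g.1 x‖ ≤ R := by
    refine ⟨∑ x ∈ I, ‖g.1 x‖, fun x hx => ?_⟩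
    exact Finset.single_le_sum (f := fun x => ‖g.1 x‖) (fun i _ => norm_nonneg _) hx
  set A : ℝ := max R 1 with hA
  have hA0 : 0 < A := lt_of_lt_of_le one_pos (le_max_right _ _)
  obtain ⟨τ, hτ0, hτ1, hτ2⟩ : ∃ τ : ℝ, 0 < τ ∧ τ < 1 ∧ τ * A < ε / 2 := by
    refine ⟨min (1/2) (ε / (4 * A)), by positivity, ?_, ?_⟩
    · exact lt_of_le_of_lt (min_le_left _ _) (by norm_num)
    · calc min (1/2) (ε / (4 * A)) * A ≤ (ε / (4 * A)) * A :=
          mul_le_mul_of_nonneg_right (min_le_right _ _) hA0.le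
        _ = ε / 4 := by field_simp
        _ < ε / 2 := by linarith
  -- the strict contraction and its fixed point
  let q : NNReal := ⟨1 - τ, by linarith⟩
  let gt : X → X := fun x => (1 - τ) • g.1 x
  have hq : ContractingWith q gt := by
    constructor
    · have hq1 : (q : ℝ) < ((1 : NNReal) : ℝ) := by
        show 1 - τ < 1
        linarith
      exact NNReal.coe_lt_coe.mp hq1
    · apply LipschitzWith.of_dist_le_mul
      intro x y
      rw [dist_eq_norm, dist_eq_norm, ← smul_sub, norm_smul, Real.norm_of_nonneg (by linarith)]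
      exact mul_le_mul_of_nonneg_left (g.2 x y) (by linarith)
  let p : X := ContractingWith.fixedPoint gt hq
  have hp : gt p = p := ContractingWith.fixedPoint_isFixedPt hq
  -- cut off
  set b : ℝ := ε / 4 with hb
  have hb0 : 0 < b := by positivity
  set a : ℝ := b * Real.exp (-(1/τ)) with haa
  have ha0 : 0 < a := by positivity
  have hab : a * Real.exp (1/τ) = b := by
    rw [haa, mul_assoc, ← Real.exp_add]; simp
  obtain ⟨θ, t0, t1, ta, tb, tl⟩ := cut τ a hτ0 ha0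
  rw [hab] at tb
  let w : ℝ → ℝ := fun r => 1 - θ r
  have wl : ∀ r' r, 0 ≤ r' → r' ≤ r → |w r - w r'| * r' ≤ τ * (r - r') := by
    intro r' r h0 hr
    have : |w r - w r'| = |θ r - θ r'| := by
      rw [show w r - w r' = -(θ r - θ r') by simp only [w]; ring, abs_neg]
    rw [this]; exact tl r' r h0 hr
  let G : NE X := ⟨fun x => (1 - τ) • g.1 (p + w ‖x - p‖ • (x - p)), fun x y => by
    rw [← smul_sub, norm_smul, Real.norm_of_nonneg (by linarith)]
    have h1 := g.2 (p + w ‖x - p‖ • (x - p)) (p + w ‖y - p‖ • (y - p))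
    have h2 := radial τ hτ0.le w (fun r => sub_nonneg.mpr (t1 r))
      (fun r => by simp only [w]; linarith [t0 r]) wl (x - p) (y - p)
    rw [add_sub_add_left_eq_sub] at h1
    rw [sub_sub_sub_cancel_right] at h2
    calc _ ≤ (1 - τ) * ((1 + τ) * ‖x - y‖) :=
          mul_le_mul_of_nonneg_left (le_trans h1 h2) (by linarith)
      _ = (1 - τ^2) * ‖x - y‖ := by ring
      _ ≤ 1 * ‖x - y‖ := mul_le_mul_of_nonneg_right (by nlinarith) (norm_nonneg _)
      _ = ‖x - y‖ := one_mul _⟩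
  refine ⟨G, p, a, ha0, ?_, ?_⟩
  · intro v hv
    show (1 - τ) • g.1 (p + w ‖p + v - p‖ • (p + v - p)) = p
    rw [add_sub_cancel_left]
    have : w ‖v‖ = 0 := by simp only [w]; rw [ta _ hv]; ring
    rw [this, zero_smul, add_zero]
    exact hp
  · intro x hx
    have h1 : ‖G.1 x - (1 - τ) • g.1 x‖ ≤ b := by
      show ‖(1 - τ) • g.1 (p + w ‖x - p‖ • (x - p)) - (1 - τ) • g.1 x‖ ≤ b
      rw [← smul_sub, norm_smul, Real.norm_of_nonneg (by linarith)]
      have h2 := g.2 (p + w ‖x - p‖ • (x - p)) x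
      have h3 : p + w ‖x - p‖ • (x - p) - x = -(θ ‖x - p‖ • (x - p)) := by
        simp only [w]; rw [sub_smul, one_smul]; abel
      rw [h3, norm_neg, norm_smul, Real.norm_of_nonneg (t0 _)] at h2
      have h4 : θ ‖x - p‖ * ‖x - p‖ ≤ b := by
        rcases le_total b ‖x - p‖ with h | h
        · rw [tb _ h]; simp [hb0.le]
        · calc θ ‖x - p‖ * ‖x - p‖ ≤ 1 * b := mul_le_mul (t1 _) h (norm_nonneg _) zero_le_one
            _ = b := one_mul b
      calc _ ≤ (1 - τ) * b := mul_le_mul_of_nonneg_left (le_trans h2 h4) (by linarith)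
        _ ≤ 1 * b := mul_le_mul_of_nonneg_right (by linarith) hb0.le
        _ = b := one_mul b
    have h5 : ‖(1 - τ) • g.1 x - g.1 x‖ < ε / 2 := by
      rw [sub_smul, one_smul, sub_sub_cancel_left, norm_neg, norm_smul,
        Real.norm_of_nonneg hτ0.le]
      exact lt_of_le_of_lt (mul_le_mul_of_nonneg_left
        (le_trans (hR x hx) (le_max_left _ _)) hτ0.le) hτ2
    calc ‖G.1 x - g.1 x‖ = ‖(G.1 x - (1 - τ) • g.1 x) + ((1 - τ) • g.1 x - g.1 x)‖ := by
          congr 1; abel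
      _ ≤ ‖G.1 x - (1 - τ) • g.1 x‖ + ‖(1 - τ) • g.1 x - g.1 x‖ := norm_add_le _ _
      _ < ε := by rw [hb] at h1; linarith

/-- a nonexpansive map which is constant outside the ball of radius `b` -/
theorem inner_est (f : NE X) (b : ℝ) (hb : 0 < b) (c : X) (hc : ∀ x, b ≤ ‖x‖ → f.1 x = c)
    (h0 : f.1 0 = c) (v : X) (hv : ‖v‖ ≤ b) : ‖f.1 v - c‖ ≤ b - ‖v‖ := by
  by_cases hv0 : v = 0
  · rw [hv0, h0]; simp [hb.le]
  · have hn : 0 < ‖v‖ := norm_pos_iff.mpr hv0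
    have hz : ‖(b / ‖v‖) • v‖ = b := by
      rw [norm_smul, Real.norm_of_nonneg (by positivity)]; field_simp
    have h1 := f.2 v ((b / ‖v‖) • v)
    rw [hc _ hz.ge] at h1
    refine le_trans h1 (le_of_eq ?_)
    have : v - (b / ‖v‖) • v = -((b / ‖v‖ - 1) • v) := by rw [sub_smul, one_smul]; abel
    rw [this, norm_neg, norm_smul, Real.norm_of_nonneg]
    · field_simp
    · rw [sub_nonneg, le_div_iff₀ hn]; linarith

/-- a nonexpansive map which is constant inside the ball of radius `a` about `p` -/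
theorem outer_est (G : NE X) (p : X) (a : ℝ) (ha : 0 < a) (hG : ∀ v, ‖v‖ ≤ a → G.1 (p + v) = p)
    (v : X) (hv : a ≤ ‖v‖) : ‖G.1 (p + v) - p‖ ≤ ‖v‖ - a := by
  have hn : 0 < ‖v‖ := lt_of_lt_of_le ha hv
  have hz : ‖(a / ‖v‖) • v‖ = a := by
    rw [norm_smul, Real.norm_of_nonneg (by positivity)]; field_simp
  have h1 := G.2 (p + v) (p + (a / ‖v‖) • v)
  rw [hG _ hz.le] at h1
  refine le_trans h1 (le_of_eq ?_)
  have : p + v - (p + (a / ‖v‖) • v) = (1 - a / ‖v‖) • v := by rw [sub_smul, one_smul]; abel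
  rw [this, norm_smul, Real.norm_of_nonneg]
  · field_simp
  · rw [sub_nonneg, div_le_one hn]; exact hv

end Pool.Agent.V11112.NX1
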