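import Pool.Agent.V11112.NX2

set_option linter.all false

namespace Pool.Agent.V11112.NX1

open Filter Topology

variable {X : Type*} [NormedAddCommGroup X] [NormedSpace ℝ X]

theorem dense_interior [CompleteSpace X] (U : Set (NE X)) (hU : IsOpen U) (hUF : U ⊆ FF X)
    (f₀ : NE X) (hf₀ : f₀ ∈ U) : Dense (interior (FF X)) := by
  obtain ⟨I, ε, f, b, c, hε, hb, hI, hIb, hfc, hf0⟩ := inner_map U hU f₀ hf₀
  rw [dense_iff_inter_open]
  rintro W hW ⟨g, hg⟩
  obtain ⟨J, η, hη, hJ⟩ := basic W hW g hg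
  obtain ⟨G, p, a, ha, hGa, hGg⟩ := outer_map g J (η / 2) (by linarith)
  -- scale
  have hM : ∀ v, ‖f.1 v‖ ≤ ‖c‖ + b := by
    intro v
    rcases le_total b ‖v‖ with h | h
    · rw [hfc v h]; linarith
    · have h1 := inner_est f b hb c hfc hf0 v h
      calc ‖f.1 v‖ = ‖(f.1 v - c) + c‖ := by congr 1; abel
        _ ≤ ‖f.1 v - c‖ + ‖c‖ := norm_add_le _ _
        _ ≤ ‖c‖ + b := by linarith [norm_nonneg v]
  obtain ⟨l, hl, hla, hlM⟩ : ∃ l : ℝ, 0 < l ∧ l * b ≤ a ∧ l * (‖c‖ + b) < η / 2 := by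
    have hM0 : 0 < ‖c‖ + b := by positivity
    refine ⟨min (a / b) (η / (4 * (‖c‖ + b))), by positivity, ?_, ?_⟩
    · calc _ ≤ (a / b) * b := mul_le_mul_of_nonneg_right (min_le_left _ _) hb.le
        _ = a := by field_simp
    · calc _ ≤ (η / (4 * (‖c‖ + b))) * (‖c‖ + b) :=
            mul_le_mul_of_nonneg_right (min_le_right _ _) hM0.le
        _ = η / 4 := by field_simp
        _ < η / 2 := by linarith
  -- the glued map
  have hnorm : ∀ v : X, ‖l⁻¹ • v‖ = ‖v‖ / l := by
    intro v; rw [norm_smul, Real.norm_of_nonneg (by positivity)]; field_simp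
  -- scaled inner map
  have hs1 : ∀ v w : X, ‖l • f.1 (l⁻¹ • v) - l • f.1 (l⁻¹ • w)‖ ≤ ‖v - w‖ := by
    intro v w
    rw [← smul_sub, norm_smul, Real.norm_of_nonneg hl.le]
    have h1 := f.2 (l⁻¹ • v) (l⁻¹ • w)
    rw [← smul_sub, hnorm] at h1
    calc _ ≤ l * (‖v - w‖ / l) := mul_le_mul_of_nonneg_left h1 hl.le
      _ = ‖v - w‖ := by field_simp
  have hs2 : ∀ v : X, l * b ≤ ‖v‖ → f.1 (l⁻¹ • v) = c := by
    intro v hv
    apply hfc
    rw [hnorm, le_div_iff₀ hl]; linarith
  have hs3 : ∀ v : X, ‖v‖ ≤ l * b → ‖l • f.1 (l⁻¹ • v) - l • c‖ ≤ l * b - ‖v‖ := by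
    intro v hv
    rw [← smul_sub, norm_smul, Real.norm_of_nonneg hl.le]
    have h1 := inner_est f b hb c hfc hf0 (l⁻¹ • v) (by rw [hnorm, div_le_iff₀ hl]; linarith)
    rw [hnorm] at h1
    calc _ ≤ l * (b - ‖v‖ / l) := mul_le_mul_of_nonneg_left h1 hl.le
      _ = l * b - ‖v‖ := by field_simp
  have hglue : ∀ v w : X, ‖(G.1 (p + v) + l • f.1 (l⁻¹ • v)) - (G.1 (p + w) + l • f.1 (l⁻¹ • w))‖
      ≤ ‖v - w‖ := by
    intro v w
    by_cases h1 : ‖v‖ ≤ a ∧ ‖w‖ ≤ a
    · rw [hGa v h1.1, hGa w h1.2, add_sub_add_left_eq_sub]; exact hs1 v w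
    · by_cases h2 : l * b ≤ ‖v‖ ∧ l * b ≤ ‖w‖
      · rw [hs2 v h2.1, hs2 w h2.2, add_sub_add_right_eq_sub]
        have := G.2 (p + v) (p + w)
        rwa [add_sub_add_left_eq_sub] at this
      · -- one is small, the other is large
        have aux : ∀ v w : X, ‖v‖ < l * b → a < ‖w‖ →
            ‖(G.1 (p + v) + l • f.1 (l⁻¹ • v)) - (G.1 (p + w) + l • f.1 (l⁻¹ • w))‖
              ≤ ‖v - w‖ := by
          intro v w hv hw
          rw [hGa v (by linarith), hs2 w (by linarith)]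
          have e : (p + l • f.1 (l⁻¹ • v)) - (G.1 (p + w) + l • c)
              = (l • f.1 (l⁻¹ • v) - l • c) - (G.1 (p + w) - p) := by abel
          rw [e]
          calc _ ≤ ‖l • f.1 (l⁻¹ • v) - l • c‖ + ‖G.1 (p + w) - p‖ := norm_sub_le _ _
            _ ≤ (l * b - ‖v‖) + (‖w‖ - a) :=
              add_le_add (hs3 v hv.le) (outer_est G p a ha hGa w hw.le)
            _ ≤ ‖w‖ - ‖v‖ := by linarith
            _ ≤ ‖w - v‖ := norm_sub_norm_le _ _
            _ = ‖v - w‖ := norm_sub_rev _ _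
        rw [not_and_or, not_le, not_le] at h1 h2
        rcases h2 with h2 | h2
        · rcases h1 with h1 | h1
          · exfalso; linarith
          · exact aux v w h2 h1
        · rcases h1 with h1 | h1
          · rw [norm_sub_rev, norm_sub_rev v w]; exact aux w v h2 h1
          · exfalso; linarith
  let H : NE X := ⟨fun x => G.1 x + l • f.1 (l⁻¹ • (x - p)), fun x y => by
    have := hglue (x - p) (y - p)
    rwa [add_sub_cancel, add_sub_cancel, sub_sub_sub_cancel_right] at this⟩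
  refine ⟨H, ?_, ?_⟩
  · apply hJ
    intro x hx
    have h1 := hGg x hx
    have h2 : ‖l • f.1 (l⁻¹ • (x - p))‖ < η / 2 := by
      rw [norm_smul, Real.norm_of_nonneg hl.le]
      exact lt_of_le_of_lt (mul_le_mul_of_nonneg_left (hM _) hl.le) hlM
    calc ‖H.1 x - g.1 x‖ = ‖(G.1 x - g.1 x) + l • f.1 (l⁻¹ • (x - p))‖ := by
          show ‖(G.1 x + l • f.1 (l⁻¹ • (x - p))) - g.1 x‖ = _
          congr 1; abel
      _ ≤ ‖G.1 x - g.1 x‖ + ‖l • f.1 (l⁻¹ • (x - p))‖ := norm_add_le _ _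
      _ < η := by linarith
  · classical
    rw [mem_interior]
    let I' : Finset X := I.image (fun x => p + l • x)
    refine ⟨{h : NE X | ∀ x ∈ I', ‖h.1 x - H.1 x‖ < l * ε}, ?_, basic_open I' (l * ε) H, ?_⟩
    · intro h hh
      -- rescale
      let k : NE X := ⟨fun x => l⁻¹ • (h.1 (p + l • x) - p), fun x y => by
        rw [← smul_sub, sub_sub_sub_cancel_right, hnorm]
        have h1 := h.2 (p + l • x) (p + l • y)
        rw [add_sub_add_left_eq_sub, ← smul_sub, norm_smul, Real.norm_of_nonneg hl.le] at h1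
        rw [div_le_iff₀ hl]; linarith⟩
      have hk : k ∈ FF X := by
        apply hUF
        apply hI
        intro x hx
        have h1 := hh (p + l • x) (Finset.mem_image.mpr ⟨x, hx, rfl⟩)
        have h2 : H.1 (p + l • x) = p + l • f.1 x := by
          show G.1 (p + l • x) + l • f.1 (l⁻¹ • (p + l • x - p)) = _
          rw [add_sub_cancel_left, smul_smul, inv_mul_cancel₀ hl.ne', one_smul, hGa]
          rw [norm_smul, Real.norm_of_nonneg hl.le]
          exact le_trans (mul_le_mul_of_nonneg_left (hIb x hx) hl.le) hla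
        rw [h2] at h1
        have h3 : k.1 x - f.1 x = l⁻¹ • (h.1 (p + l • x) - (p + l • f.1 x)) := by
          show l⁻¹ • (h.1 (p + l • x) - p) - f.1 x = _
          rw [← sub_sub, smul_sub _ _ (l • f.1 x), smul_smul, inv_mul_cancel₀ hl.ne', one_smul]
        rw [h3, hnorm, div_lt_iff₀ hl]
        linarith
      obtain ⟨S, ⟨s, hs⟩, hcl, hcv, hbd, hmp⟩ := hk
      have hcont : Continuous (fun y : X => l⁻¹ • (y - p)) := by fun_prop
      refine ⟨(fun y : X => l⁻¹ • (y - p)) ⁻¹' S, ⟨p + l • s, ?_⟩, hcl.preimage hcont, ?_, ?_, ?_⟩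
      · show l⁻¹ • (p + l • s - p) ∈ S
        rw [add_sub_cancel_left, smul_smul, inv_mul_cancel₀ hl.ne', one_smul]; exact hs
      · intro y hy z hz α β hα hβ hαβ
        show l⁻¹ • (α • y + β • z - p) ∈ S
        have e : l⁻¹ • (α • y + β • z - p) = α • (l⁻¹ • (y - p)) + β • (l⁻¹ • (z - p)) := by
          have hp : p = α • p + β • p := by rw [← add_smul, hαβ, one_smul]
          conv_lhs => rw [hp]
          module
        rw [e]
        exact hcv hy hz hα hβ hαβ
      · obtain ⟨C, hC⟩ := hbd.exists_norm_le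
        rw [isBounded_iff_forall_norm_le]
        refine ⟨l * C + ‖p‖, fun y hy => ?_⟩
        have h1 := hC _ hy
        rw [hnorm, div_le_iff₀ hl] at h1
        calc ‖y‖ = ‖(y - p) + p‖ := by congr 1; abel
          _ ≤ ‖y - p‖ + ‖p‖ := norm_add_le _ _
          _ ≤ l * C + ‖p‖ := by linarith
      · intro y hy
        have h1 := hmp hy
        show l⁻¹ • (h.1 y - p) ∈ S
        have h2 : k.1 (l⁻¹ • (y - p)) = l⁻¹ • (h.1 y - p) := by
          show l⁻¹ • (h.1 (p + l • (l⁻¹ • (y - p))) - p) = _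
          rw [smul_smul, mul_inv_cancel₀ hl.ne', one_smul, add_sub_cancel]
        rw [← h2]; exact h1
    · intro x hx
      rw [sub_self, norm_zero]
      positivity

theorem main [CompleteSpace X] : IsMeagre (FF X) ∨ Dense (interior (FF X)) := by
  by_cases h : ∃ n : ℕ, (interior (GG X (n:ℝ))).Nonempty
  · obtain ⟨n, f₀, hf₀⟩ := h
    right
    exact dense_interior (interior (GG X (n:ℝ))) isOpen_interior
      (interior_subset.trans (GG_sub _)) f₀ hf₀
  · left
    push Not at h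
    have h1 : IsMeagre (⋃ n : ℕ, GG X (n:ℝ)) := by
      apply isMeagre_iUnion
      intro n
      apply IsNowhereDense.isMeagre
      rw [(GG_closed (X := X) (n:ℝ)).isNowhereDense_iff]
      exact h n
    exact h1.mono FF_sub

end Pool.Agent.V11112.NX1
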