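import Mathlib

/-!
# A poor free filter that is not generated by a statistical measure

A Gaifman type construction. The points `x` of the Baire space index an independent family `S x` of
subsets of the natural numbers. A finite set `F` of points is called small if for each `j` it meets at
most `j + 1` of the immediate subcells of the `j`-th cell. An ideal `J` is taken maximal among those
that contain all intersections of the `S x` over non-small finite sets and no Boolean combination
`T F G` with `F` small. Each positive set contains some `T F G` modulo `J`, and there are only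
countably many types of pairs `F, G`, so that the dual filter is poor. A statistical measure with null
ideal `J` would be bounded below on infinitely many `S x` from distinct subcells of one cell, which is
impossible as at most `j + 1` of these can meet in a set of positive measure.
-/

set_option autoImplicit false

namespace Pool.Agent.V11112.PoorFilter

open Set Filter

/-- The ideal of `F`: the complements of its members. -/
def ideal (F : Filter ℕ) : Set (Set ℕ) := {A | Aᶜ ∈ F}

/-- The grill of `F`: the sets that are not in its ideal. -/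
def grill (F : Filter ℕ) : Set (Set ℕ) := {A | Aᶜ ∉ F}

/-- A proper filter that contains all cofinite sets. -/
def Free (F : Filter ℕ) : Prop := ∅ ∉ F ∧ ∀ A : Set ℕ, Aᶜ.Finite → A ∈ F

/-- Every family of sets of the grill with pairwise intersections in the ideal is countable. -/
def Poor (F : Filter ℕ) : Prop :=
  ∀ 𝒜 : Set (Set ℕ), 𝒜 ⊆ grill F → 𝒜.Pairwise (fun A B => A ∩ B ∈ ideal F) → 𝒜.Countable

/-- There are disjoint sets `D n` in the ideal with all infinite unions in the grill. -/
def Conglomerated (F : Filter ℕ) : Prop :=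
  ∃ D : ℕ → Set ℕ, Pairwise (fun i j => Disjoint (D i) (D j)) ∧ (∀ n, D n ∈ ideal F) ∧
    ∀ M : Set ℕ, M.Infinite → (⋃ n ∈ M, D n) ∈ grill F

/-- A finitely additive probability on all subsets of `ℕ` that vanishes at singletons. -/
structure IsStatMeasure (μ : Set ℕ → ℝ) : Prop where
  nonneg : ∀ A, 0 ≤ μ A
  univ : μ Set.univ = 1
  singleton : ∀ k, μ {k} = 0
  add : ∀ A B, Disjoint A B → μ (A ∪ B) = μ A + μ B

/-- `F` consists exactly of the sets of measure one. -/
def GeneratedBy (F : Filter ℕ) (μ : Set ℕ → ℝ) : Prop := ∀ A, A ∈ F ↔ μ A = 1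

/-! ### The independent family -/

/-- The first `n` values of `x`. -/
def seg (x : ℕ → ℕ) (n : ℕ) : List ℕ := (List.range n).map x

theorem seg_length (x : ℕ → ℕ) (n : ℕ) : (seg x n).length = n := by simp [seg]

theorem seg_succ (x : ℕ → ℕ) (n : ℕ) : seg x (n + 1) = seg x n ++ [x n] := by
  simp [seg, List.range_succ]

theorem eventually_seg_ne {x y : ℕ → ℕ} (h : x ≠ y) : ∀ᶠ n in atTop, seg x n ≠ seg y n := by
  obtain ⟨m, hm⟩ := Function.ne_iff.1 h
  filter_upwards [eventually_gt_atTop m] with n hn heq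
  apply hm
  have := congrArg (fun l : List ℕ => l[m]?) heq
  simpa [seg, hn] using this

/-- A surjection from `ℕ` onto the index set of the independent family. -/
noncomputable def g : ℕ → ℕ × Finset (List ℕ) := (exists_surjective_nat _).choose

theorem g_surj : Function.Surjective g := (exists_surjective_nat _).choose_spec

/-- A surjection from `ℕ` onto the cells. -/
noncomputable def c : ℕ → List ℕ := (exists_surjective_nat _).choose

theorem c_surj : Function.Surjective c := (exists_surjective_nat _).choose_spec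

/-- The independent family. -/
def S (x : ℕ → ℕ) : Set ℕ := {i | seg x (g i).1 ∈ (g i).2}

/-- Boolean combinations of the independent family. -/
def T (F G : Finset (ℕ → ℕ)) : Set ℕ := {i | (∀ x ∈ F, i ∈ S x) ∧ ∀ y ∈ G, i ∉ S y}

theorem T_infinite {F G : Finset (ℕ → ℕ)} (h : Disjoint F G) : (T F G).Infinite := by
  classical
  have h1 : ∀ᶠ n in atTop, ∀ x ∈ F, ∀ y ∈ G, seg x n ≠ seg y n := by
    rw [Finset.eventually_all]
    intro x hx
    rw [Finset.eventually_all]
    intro y hy
    exact eventually_seg_ne fun hxy => Finset.disjoint_left.1 h hx (hxy ▸ hy)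
  obtain ⟨n0, hn0⟩ := eventually_atTop.1 h1
  choose i hi using fun n : ℕ => g_surj (n + n0, F.image fun x => seg x (n + n0))
  refine Set.infinite_of_injective_forall_mem (f := i) (fun a b hab => ?_) fun n => ?_
  · have h2 := congrArg g hab
    rw [hi, hi] at h2
    have := congrArg Prod.fst h2
    simp only at this
    omega
  · constructor
    · intro x hx
      change seg x (g (i n)).1 ∈ (g (i n)).2
      rw [hi]
      exact Finset.mem_image_of_mem _ hx
    · intro y hy hmem
      change seg y (g (i n)).1 ∈ (g (i n)).2 at hmem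
      rw [hi] at hmem
      obtain ⟨x, hx, hxy⟩ := Finset.mem_image.1 hmem
      exact hn0 (n + n0) (by omega) x hx y hy hxy

theorem T_anti {F F' G G' : Finset (ℕ → ℕ)} (h : F ⊆ F') (h' : G ⊆ G') : T F' G' ⊆ T F G :=
  fun _ hi => ⟨fun x hx => hi.1 x (h hx), fun y hy => hi.2 y (h' hy)⟩

open Classical in
/-- The indices of the immediate subcells of the `j`-th cell met by `F`. -/
noncomputable def K (j : ℕ) (F : Finset (ℕ → ℕ)) : Finset ℕ :=
  (F.filter fun x => seg x (c j).length = c j).image fun x => x (c j).length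

/-- Small finite sets. -/
def XX (F : Finset (ℕ → ℕ)) : Prop := ∀ j, (K j F).card ≤ j + 1

theorem K_mono {j : ℕ} {F F' : Finset (ℕ → ℕ)} (h : F ⊆ F') : K j F ⊆ K j F' :=
  Finset.image_subset_image (Finset.filter_subset_filter _ h)

theorem XX_mono {F F' : Finset (ℕ → ℕ)} (h : F ⊆ F') (h' : XX F') : XX F :=
  fun j => (Finset.card_le_card (K_mono h)).trans (h' j)

theorem K_card_le (j : ℕ) (F : Finset (ℕ → ℕ)) : (K j F).card ≤ F.card :=
  Finset.card_image_le.trans (Finset.card_filter_le _ _)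

theorem XX_of_card {F : Finset (ℕ → ℕ)} (h : F.card ≤ 1) : XX F :=
  fun j => (K_card_le j F).trans (by omega)

open Classical in
theorem K_union (j : ℕ) (F F' : Finset (ℕ → ℕ)) : K j (F ∪ F') = K j F ∪ K j F' := by
  rw [K, K, K, Finset.filter_union, Finset.image_union]

/-! ### The ideal -/

/-- The ideals considered in the maximality argument. -/
structure Good (J : Set (Set ℕ)) : Prop where
  mono : ∀ A B, A ∈ J → B ⊆ A → B ∈ J
  union : ∀ A B, A ∈ J → B ∈ J → A ∪ B ∈ J
  fin : ∀ A : Set ℕ, A.Finite → A ∈ J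
  bad : ∀ F, ¬ XX F → T F ∅ ∈ J
  pos : ∀ F G, XX F → Disjoint F G → T F G ∉ J

theorem exists_good : ∃ J, Good J := by
  classical
  refine ⟨{A | ∃ 𝓕 : Finset (Finset (ℕ → ℕ)), (∀ F ∈ 𝓕, ¬ XX F) ∧
    (A \ ⋃ F ∈ 𝓕, T F ∅).Finite}, ?_, ?_, ?_, ?_, ?_⟩
  · rintro A B ⟨𝓕, h1, h2⟩ hBA
    exact ⟨𝓕, h1, h2.subset (sdiff_subset_sdiff_left hBA)⟩
  · rintro A B ⟨𝓕, h1, h2⟩ ⟨𝓖, h3, h4⟩
    refine ⟨𝓕 ∪ 𝓖, ?_, (h2.union h4).subset ?_⟩
    · intro F hF
      rcases Finset.mem_union.1 hF with h | h
      · exact h1 F h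
      · exact h3 F h
    · rintro i ⟨hi | hi, hi'⟩
      · left
        refine ⟨hi, fun h => hi' ?_⟩
        obtain ⟨F, hF, hiF⟩ := mem_iUnion₂.1 h
        exact mem_iUnion₂.2 ⟨F, Finset.mem_union_left _ hF, hiF⟩
      · right
        refine ⟨hi, fun h => hi' ?_⟩
        obtain ⟨F, hF, hiF⟩ := mem_iUnion₂.1 h
        exact mem_iUnion₂.2 ⟨F, Finset.mem_union_right _ hF, hiF⟩
  · intro A hA
    exact ⟨∅, by simp, hA.subset sdiff_subset⟩
  · intro F hF
    refine ⟨{F}, by simpa using hF, ?_⟩
    simp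
  · rintro F G hF hFG ⟨𝓕, h1, h2⟩
    have h3 : ∀ F' ∈ 𝓕, ∃ y ∈ F', y ∉ F := by
      intro F' hF'
      by_contra h
      push Not at h
      exact h1 F' hF' (XX_mono h hF)
    choose! y hy hy' using h3
    have h4 : Disjoint F (G ∪ 𝓕.image y) := by
      rw [Finset.disjoint_union_right]
      refine ⟨hFG, ?_⟩
      rw [Finset.disjoint_right]
      intro z hz
      obtain ⟨F', hF', rfl⟩ := Finset.mem_image.1 hz
      exact hy' F' hF'
    refine T_infinite h4 (h2.subset fun i hi => ⟨T_anti (Finset.Subset.refl _)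
      Finset.subset_union_left hi, fun h => ?_⟩)
    obtain ⟨F', hF', hiF'⟩ := mem_iUnion₂.1 h
    exact hi.2 (y F') (Finset.mem_union_right _ (Finset.mem_image_of_mem _ hF'))
      (hiF'.1 _ (hy F' hF'))

theorem exists_maximal : ∃ J, Good J ∧ ∀ A, A ∉ J → ∃ F G, XX F ∧ Disjoint F G ∧ ∃ B ∈ J,
    T F G ⊆ A ∪ B := by
  obtain ⟨J0, hJ0⟩ := exists_good
  have hz := zorn_subset_nonempty {J | Good J} (fun ch hch hchain hne => by
    refine ⟨⋃₀ ch, ?_, fun s hs => subset_sUnion_of_mem hs⟩
    refine ⟨?_, ?_, ?_, ?_, ?_⟩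
    · rintro A B ⟨J, hJ, hA⟩ hBA
      exact ⟨J, hJ, (hch hJ).mono A B hA hBA⟩
    · rintro A B ⟨J, hJ, hA⟩ ⟨J', hJ', hB⟩
      rcases hchain.total hJ hJ' with h | h
      · exact ⟨J', hJ', (hch hJ').union A B (h hA) hB⟩
      · exact ⟨J, hJ, (hch hJ).union A B hA (h hB)⟩
    · intro A hA
      obtain ⟨J, hJ⟩ := hne
      exact ⟨J, hJ, (hch hJ).fin A hA⟩
    · intro F hF
      obtain ⟨J, hJ⟩ := hne
      exact ⟨J, hJ, (hch hJ).bad F hF⟩
    · rintro F G hF hFG ⟨J, hJ, h⟩
      exact (hch hJ).pos F G hF hFG h) J0 hJ0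
  obtain ⟨J, -, hJ⟩ := hz
  have hJg : Good J := hJ.prop
  refine ⟨J, hJg, fun A hA => ?_⟩
  by_contra hcon
  push Not at hcon
  have hgood : Good {B | ∃ C ∈ J, B ⊆ A ∪ C} := by
    refine ⟨?_, ?_, ?_, ?_, ?_⟩
    · rintro B B' ⟨C, hC, h⟩ hB
      exact ⟨C, hC, hB.trans h⟩
    · rintro B B' ⟨C, hC, h⟩ ⟨C', hC', h'⟩
      refine ⟨C ∪ C', hJg.union _ _ hC hC', ?_⟩
      rintro i (hi | hi)
      · rcases h hi with h2 | h2
        · exact Or.inl h2
        · exact Or.inr (Or.inl h2)
      · rcases h' hi with h2 | h2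
        · exact Or.inl h2
        · exact Or.inr (Or.inr h2)
    · intro B hB
      exact ⟨B, hJg.fin B hB, subset_union_right⟩
    · intro F hF
      exact ⟨T F ∅, hJg.bad F hF, subset_union_right⟩
    · rintro F G hF hFG ⟨C, hC, h⟩
      exact hcon F G hF hFG C hC h
  have hle : J ⊆ {B | ∃ C ∈ J, B ⊆ A ∪ C} := fun B hB => ⟨B, hB, subset_union_right⟩
  have heq := hJ.eq_of_subset hgood hle
  apply hA
  rw [heq]
  exact ⟨∅, hJg.fin ∅ finite_empty, subset_union_left⟩

/-! ### Countably many types -/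

/-- Two pairs of the same type are compatible. -/
theorem compatible {J : Set (Set ℕ)} (hJ : Good J) {F G F' G' : Finset (ℕ → ℕ)} {n : ℕ}
    (hF : XX F) (hcard : F.card = F'.card)
    (hK : ∀ j < 2 * F.card, K j F = K j F')
    (hFn : F.image (fun x => seg x n) = F'.image (fun x => seg x n))
    (hGn : G.image (fun x => seg x n) = G'.image (fun x => seg x n))
    (hsep : ∀ x ∈ F, ∀ y ∈ G, seg x n ≠ seg y n) :
    T F G ∩ T F' G' ∉ J := by
  classical
  have h1 : T (F ∪ F') (G ∪ G') ⊆ T F G ∩ T F' G' := fun i hi =>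
    ⟨T_anti Finset.subset_union_left Finset.subset_union_left hi,
      T_anti Finset.subset_union_right Finset.subset_union_right hi⟩
  intro h
  refine hJ.pos (F ∪ F') (G ∪ G') ?_ ?_ (hJ.mono _ _ h h1)
  · intro j
    rw [K_union]
    by_cases hj : j < 2 * F.card
    · rw [← hK j hj, Finset.union_idempotent]
      exact hF j
    · calc (K j F ∪ K j F').card ≤ (K j F).card + (K j F').card := Finset.card_union_le _ _
        _ ≤ F.card + F'.card := add_le_add (K_card_le _ _) (K_card_le _ _)
        _ ≤ j + 1 := by omega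
  · rw [Finset.disjoint_left]
    have hx : ∀ x ∈ F ∪ F', ∃ x' ∈ F, seg x' n = seg x n := by
      intro x hx
      rcases Finset.mem_union.1 hx with h | h
      · exact ⟨x, h, rfl⟩
      · have : seg x n ∈ F.image (fun x => seg x n) := by
          rw [hFn]; exact Finset.mem_image_of_mem _ h
        obtain ⟨x', hx', h'⟩ := Finset.mem_image.1 this
        exact ⟨x', hx', h'⟩
    have hy : ∀ y ∈ G ∪ G', ∃ y' ∈ G, seg y' n = seg y n := by
      intro y hy
      rcases Finset.mem_union.1 hy with h | h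
      · exact ⟨y, h, rfl⟩
      · have : seg y n ∈ G.image (fun x => seg x n) := by
          rw [hGn]; exact Finset.mem_image_of_mem _ h
        obtain ⟨y', hy', h'⟩ := Finset.mem_image.1 this
        exact ⟨y', hy', h'⟩
    intro z hz hz'
    obtain ⟨x, hx1, hx2⟩ := hx z hz
    obtain ⟨y, hy1, hy2⟩ := hy z hz'
    exact hsep x hx1 y hy1 (hx2.trans hy2.symm)

theorem countable_of_good {J : Set (Set ℕ)} (hJ : Good J)
    (hmax : ∀ A, A ∉ J → ∃ F G, XX F ∧ Disjoint F G ∧ ∃ B ∈ J, T F G ⊆ A ∪ B)
    (𝒜 : Set (Set ℕ)) (h𝒜 : ∀ A ∈ 𝒜, A ∉ J) (hpair : 𝒜.Pairwise fun A B => A ∩ B ∈ J) :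
    𝒜.Countable := by
  classical
  have h1 : ∀ A ∈ 𝒜, ∃ F G : Finset (ℕ → ℕ), ∃ n : ℕ, ∃ B ∈ J, XX F ∧ T F G ⊆ A ∪ B ∧
      ∀ x ∈ F, ∀ y ∈ G, seg x n ≠ seg y n := by
    intro A hA
    obtain ⟨F, G, hF, hFG, B, hB, hT⟩ := hmax A (h𝒜 A hA)
    have h2 : ∀ᶠ n in atTop, ∀ x ∈ F, ∀ y ∈ G, seg x n ≠ seg y n := by
      rw [Finset.eventually_all]
      intro x hx
      rw [Finset.eventually_all]
      intro y hy
      exact eventually_seg_ne fun hxy => Finset.disjoint_left.1 hFG hx (hxy ▸ hy)
    obtain ⟨n, hn⟩ := h2.exists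
    exact ⟨F, G, n, B, hB, hF, hT, hn⟩
  choose! F G n B hB hF hT hsep using h1
  let τ : Set ℕ → ℕ × List (Finset ℕ) × ℕ × Finset (List ℕ) × Finset (List ℕ) := fun A =>
    ((F A).card, (List.range (2 * (F A).card)).map (fun j => K j (F A)), n A,
      (F A).image (fun x => seg x (n A)), (G A).image (fun x => seg x (n A)))
  have hinj : InjOn τ 𝒜 := by
    intro A hA A' hA' heq
    by_contra hne
    have e1 : (F A).card = (F A').card := congrArg Prod.fst heq
    have e2 : (List.range (2 * (F A).card)).map (fun j => K j (F A)) =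
      (List.range (2 * (F A').card)).map (fun j => K j (F A')) := congrArg (fun p => p.2.1) heq
    have e3 : n A = n A' := congrArg (fun p => p.2.2.1) heq
    have e4 : (F A).image (fun x => seg x (n A)) = (F A').image (fun x => seg x (n A')) :=
      congrArg (fun p => p.2.2.2.1) heq
    have e5 : (G A).image (fun x => seg x (n A)) = (G A').image (fun x => seg x (n A')) :=
      congrArg (fun p => p.2.2.2.2) heq
    rw [← e3] at e4 e5
    have e6 : ∀ j < 2 * (F A).card, K j (F A) = K j (F A') := by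
      intro j hj
      have := congrArg (fun l : List (Finset ℕ) => l[j]?) e2
      simpa [hj, ← e1] using this
    refine compatible hJ (hF A hA) e1 e6 e4 e5 (hsep A hA) ?_
    have h3 : T (F A) (G A) ∩ T (F A') (G A') ⊆ (A ∩ A') ∪ (B A ∪ B A') := by
      rintro i ⟨hi, hi'⟩
      rcases hT A hA hi with h | h
      · rcases hT A' hA' hi' with h' | h'
        · exact Or.inl ⟨h, h'⟩
        · exact Or.inr (Or.inr h')
      · exact Or.inr (Or.inl h)
    exact hJ.mono _ _ (hJ.union _ _ (hpair hA hA' hne)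
      (hJ.union _ _ (hB A hA) (hB A' hA'))) h3
  exact (mapsTo_univ τ 𝒜).countable_of_injOn hinj (to_countable univ)

/-! ### No measure -/

theorem IsStatMeasure.mono {μ : Set ℕ → ℝ} (hμ : IsStatMeasure μ) {A B : Set ℕ} (h : A ⊆ B) :
    μ A ≤ μ B := by
  have h1 := hμ.add A (B \ A) disjoint_sdiff_right
  rw [union_sdiff_cancel h] at h1
  have := hμ.nonneg (B \ A)
  linarith

theorem IsStatMeasure.inter_add_diff {μ : Set ℕ → ℝ} (hμ : IsStatMeasure μ) (A B : Set ℕ) :
    μ (A ∩ B) + μ (A \ B) = μ A := by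
  rw [← hμ.add _ _ (disjoint_left.2 fun _ h h' => h'.2 h.2), inter_union_sdiff]

/-- If no `q + 1` of the sets meet in a set of positive measure, then the sum of the measures is at
most `q`. -/
theorem sum_measure_le {μ : Set ℕ → ℝ} (hμ : IsStatMeasure μ) (A : ℕ → Set ℕ) (F : Finset ℕ) :
    ∀ (q : ℕ) (B : Set ℕ), (∀ F' ⊆ F, F'.card = q + 1 → μ (B ∩ ⋂ x ∈ F', A x) = 0) →
      ∑ x ∈ F, μ (B ∩ A x) ≤ q * μ B := by
  classical
  induction F using Finset.induction_on with
  | empty =>
    intro q B _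
    have := hμ.nonneg B
    simp only [Finset.sum_empty]
    positivity
  | insert y F hy ih =>
    intro q B h
    cases q with
    | zero =>
      refine le_of_eq ?_
      rw [Nat.cast_zero, zero_mul]
      refine Finset.sum_eq_zero fun x hx => ?_
      have := h {x} (by simpa using hx) (by simp)
      simpa using this
    | succ q =>
      rw [Finset.sum_insert hy]
      have e1 : ∑ x ∈ F, μ (B ∩ A x) =
          ∑ x ∈ F, μ ((B ∩ A y) ∩ A x) + ∑ x ∈ F, μ ((B \ A y) ∩ A x) := by
        rw [← Finset.sum_add_distrib]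
        refine Finset.sum_congr rfl fun x _ => ?_
        rw [← hμ.inter_add_diff (B ∩ A x) (A y)]
        congr 2
        · rw [inter_right_comm]
        · ext i
          simp only [Set.mem_sdiff, mem_inter_iff]
          tauto
      have e2 := ih q (B ∩ A y) (fun F' hF' hc => by
        have h1 := h (insert y F') (Finset.insert_subset_insert _ hF') (by
          rw [Finset.card_insert_of_notMem (fun h => hy (hF' h)), hc])
        rw [← h1]
        congr 1
        ext i
        simp only [mem_inter_iff, mem_iInter, Finset.mem_insert, forall_eq_or_imp]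
        tauto)
      have e3 := ih (q + 1) (B \ A y) (fun F' hF' hc => by
        have h1 := h F' (hF'.trans (Finset.subset_insert _ _)) hc
        refine le_antisymm ?_ (hμ.nonneg _)
        rw [← h1]
        exact hμ.mono (inter_subset_inter_left _ sdiff_subset))
      have e4 := hμ.inter_add_diff B (A y)
      rw [e1, ← e4]
      push_cast at e3 ⊢
      nlinarith

theorem no_measure {J : Set (Set ℕ)} (hJ : Good J) {μ : Set ℕ → ℝ} (hμ : IsStatMeasure μ)
    (hnull : ∀ A, A ∈ J ↔ μ A = 0) : False := by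
  classical
  have hpos : ∀ x, 0 < μ (S x) := by
    intro x
    have h1 : T {x} ∅ ∉ J := hJ.pos _ _ (XX_of_card (by simp)) (Finset.disjoint_empty_right _)
    have h2 : T {x} ∅ = S x := by
      ext i; simp [T]
    rw [h2, hnull] at h1
    exact lt_of_le_of_ne (hμ.nonneg _) (Ne.symm h1)
  obtain ⟨m, j, hinf⟩ : ∃ m j : ℕ, {k : ℕ | ∃ x : ℕ → ℕ, seg x (c j).length = c j ∧
      x (c j).length = k ∧ 1 / ((m : ℝ) + 1) < μ (S x)}.Infinite := by
    by_contra hcon
    push Not at hcon
    have h1 : ∀ m j : ℕ, ∃ k : ℕ, ¬ ∃ x : ℕ → ℕ, seg x (c j).length = c j ∧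
        x (c j).length = k ∧ 1 / ((m : ℝ) + 1) < μ (S x) := by
      intro m j
      obtain ⟨k, hk⟩ := (hcon m j).exists_notMem
      exact ⟨k, hk⟩
    have h2 : ∀ (m : ℕ) (l : List ℕ), ∃ k : ℕ, ¬ ∃ x : ℕ → ℕ, seg x l.length = l ∧
        x l.length = k ∧ 1 / ((m : ℝ) + 1) < μ (S x) := by
      intro m l
      obtain ⟨j, rfl⟩ := c_surj l
      exact h1 m j
    choose κ hκ using h2
    let L : ℕ → List ℕ := fun n => Nat.rec (motive := fun _ => List ℕ) []
      (fun m l => l ++ [κ m l]) n
    have hL : ∀ m, L (m + 1) = L m ++ [κ m (L m)] := fun m => rfl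
    let x : ℕ → ℕ := fun m => κ m (L m)
    have hseg : ∀ m, seg x m = L m := by
      intro m
      induction m with
      | zero => rfl
      | succ m ih => rw [seg_succ, ih, hL]
    have hlen : ∀ m, (L m).length = m := fun m => by rw [← hseg, seg_length]
    have h3 : ∀ m : ℕ, μ (S x) ≤ 1 / ((m : ℝ) + 1) := by
      intro m
      by_contra h
      push Not at h
      exact hκ m (L m) ⟨x, by rw [hlen, hseg], by rw [hlen], h⟩
    have h4 := ge_of_tendsto' tendsto_one_div_add_atTop_nhds_zero_nat h3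
    exact absurd (hpos x) (not_lt.2 h4)
  obtain ⟨K', hK', hcard⟩ := hinf.exists_subset_card_eq ((j + 1) * (m + 1) + 1)
  have hx : ∀ k ∈ K', ∃ x : ℕ → ℕ, seg x (c j).length = c j ∧
      x (c j).length = k ∧ 1 / ((m : ℝ) + 1) < μ (S x) := fun k hk => hK' hk
  choose! x hx1 hx2 hx3 using hx
  have hup := sum_measure_le hμ (fun k => S (x k)) K' (j + 1) univ (fun F' hF' hc => by
    have h1 : ¬ XX (F'.image x) := by
      intro h
      have h2 := h j
      have h3 : F' ⊆ K j (F'.image x) := by
        intro k hk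
        rw [K, Finset.mem_image]
        refine ⟨x k, ?_, hx2 k (hF' hk)⟩
        rw [Finset.mem_filter]
        exact ⟨Finset.mem_image_of_mem _ hk, hx1 k (hF' hk)⟩
      have h4 := Finset.card_le_card h3
      omega
    have h2 := hJ.bad _ h1
    rw [hnull] at h2
    rw [← h2]
    congr 1
    ext i
    simp [T])
  have hlow : ((j : ℝ) + 1) * (m + 1) + 1 ≤ (∑ k ∈ K', μ (univ ∩ S (x k))) * (m + 1) := by
    have h1 : ∑ k ∈ K', (1 / ((m : ℝ) + 1)) ≤ ∑ k ∈ K', μ (univ ∩ S (x k)) := by
      refine Finset.sum_le_sum fun k hk => ?_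
      rw [univ_inter]
      exact (hx3 k hk).le
    rw [Finset.sum_const, hcard, nsmul_eq_mul] at h1
    push_cast at h1
    have hm : (0 : ℝ) < m + 1 := by positivity
    rw [mul_one_div, div_le_iff₀ hm] at h1
    exact h1
  rw [hμ.univ, mul_one] at hup
  push_cast at hup
  have hm : (0 : ℝ) < m + 1 := by positivity
  nlinarith

/-- The filter dual to the ideal `J`. -/
def dualFilter (J : Set (Set ℕ)) (hJ : Good J) : Filter ℕ where
  sets := {A | Aᶜ ∈ J}
  univ_sets := by
    change univᶜ ∈ J
    rw [compl_univ]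
    exact hJ.fin _ finite_empty
  sets_of_superset := fun {A B} hA hAB => hJ.mono _ _ hA (compl_subset_compl.2 hAB)
  inter_sets := fun {A B} hA hB => by
    change (A ∩ B)ᶜ ∈ J
    rw [compl_inter]
    exact hJ.union _ _ hA hB

theorem mem_dualFilter {J : Set (Set ℕ)} (hJ : Good J) (A : Set ℕ) :
    A ∈ dualFilter J hJ ↔ Aᶜ ∈ J := Iff.rfl

/-- There is a poor free filter that is not generated by any statistical measure. -/
theorem exists_poor : ∃ F : Filter ℕ, Free F ∧ Poor F ∧
    ∀ μ, IsStatMeasure μ → ¬ GeneratedBy F μ := by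
  classical
  obtain ⟨J, hJ, hmax⟩ := exists_maximal
  refine ⟨dualFilter J hJ, ⟨?_, ?_⟩, ?_, ?_⟩
  · rw [mem_dualFilter, compl_empty]
    have h1 := hJ.pos ∅ ∅ (XX_of_card (by simp)) (Finset.disjoint_empty_right _)
    have h2 : T ∅ ∅ = univ := by ext i; simp [T]
    rwa [h2] at h1
  · intro A hA
    exact hJ.fin _ hA
  · intro 𝒜 h𝒜 hpair
    refine countable_of_good hJ hmax 𝒜 (fun A hA => ?_) (fun A hA B hB hne => ?_)
    · have := h𝒜 hA
      change Aᶜ ∉ dualFilter J hJ at this
      rwa [mem_dualFilter, compl_compl] at this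
    · have := hpair hA hB hne
      change (A ∩ B)ᶜ ∈ dualFilter J hJ at this
      rwa [mem_dualFilter, compl_compl] at this
  · intro μ hμ hgen
    refine no_measure hJ hμ fun A => ?_
    have h1 := hgen Aᶜ
    rw [mem_dualFilter, compl_compl] at h1
    rw [h1]
    have h2 := hμ.add A Aᶜ disjoint_compl_right
    rw [union_compl_self, hμ.univ] at h2
    constructor <;> intro h <;> linarith

/-- There is an uncountable family of infinite subsets of `ℕ` with finite pairwise intersections. -/
theorem exists_almost_disjoint : ∃ M : (ℕ → ℕ) → Set ℕ, (∀ x, (M x).Infinite) ∧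
    ∀ x y, x ≠ y → (M x ∩ M y).Finite := by
  let e : List ℕ → ℕ := Encodable.encode
  have he : Function.Injective e := Encodable.encode_injective
  refine ⟨fun x => range fun n => e (seg x n), fun x => ?_, fun x y hxy => ?_⟩
  · refine infinite_range_of_injective fun a b h => ?_
    have := congrArg List.length (he h)
    simpa [seg_length] using this
  · obtain ⟨n0, hn0⟩ := eventually_atTop.1 (eventually_seg_ne hxy)
    refine ((finite_Iio n0).image fun n => e (seg x n)).subset ?_
    rintro _ ⟨⟨a, rfl⟩, ⟨b, hb⟩⟩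
    have h1 : seg y b = seg x a := he hb
    have h2 : b = a := by
      have := congrArg List.length h1
      simpa [seg_length] using this
    refine ⟨a, ?_, rfl⟩
    rw [mem_Iio]
    by_contra h
    push Not at h
    rw [h2] at h1
    exact hn0 a h h1.symm

/-- A poor free filter is not conglomerated. -/
theorem Poor.not_conglomerated {F : Filter ℕ} (hF : Poor F) :
    ¬ Conglomerated F := by
  rintro ⟨D, hdisj, hD, hM⟩
  obtain ⟨M, hinf, hfin⟩ := exists_almost_disjoint
  have hfinun : ∀ s : Set ℕ, s.Finite → (⋃ n ∈ s, D n)ᶜ ∈ F := by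
    intro s hs
    have : (⋃ n ∈ s, D n)ᶜ = ⋂ n ∈ s, (D n)ᶜ := by
      ext i; simp
    rw [this, Filter.biInter_mem hs]
    exact fun n _ => hD n
  have hinter : ∀ x y, (⋃ n ∈ M x, D n) ∩ (⋃ n ∈ M y, D n) ⊆ ⋃ n ∈ M x ∩ M y, D n := by
    rintro x y i ⟨h1, h2⟩
    obtain ⟨n, hn, hi⟩ := mem_iUnion₂.1 h1
    obtain ⟨n', hn', hi'⟩ := mem_iUnion₂.1 h2
    have : n = n' := by
      by_contra hne
      exact disjoint_left.1 (hdisj hne) hi hi'
    subst this
    exact mem_iUnion₂.2 ⟨n, ⟨hn, hn'⟩, hi⟩
  have hne : ∀ x y, x ≠ y → (⋃ n ∈ M x, D n) ≠ ⋃ n ∈ M y, D n := by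
    intro x y hxy h
    have h1 := hinter x y
    rw [← h, inter_self] at h1
    exact hM (M x) (hinf x) (Filter.mem_of_superset (hfinun _ (hfin x y hxy))
      (compl_subset_compl.2 h1))
  have h1 : (range fun x => ⋃ n ∈ M x, D n).Countable := by
    refine hF _ ?_ ?_
    · rintro _ ⟨x, rfl⟩
      exact hM _ (hinf x)
    · rintro _ ⟨x, rfl⟩ _ ⟨y, rfl⟩ hxy
      have hxy' : x ≠ y := fun h => hxy (by rw [h])
      exact Filter.mem_of_superset (hfinun _ (hfin x y hxy'))
        (compl_subset_compl.2 (hinter x y))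
  have h2 : Function.Injective fun x => ⋃ n ∈ M x, D n := by
    intro x y h
    by_contra hxy
    exact hne x y hxy h
  have h3 : Countable (range fun x => ⋃ n ∈ M x, D n) := h1.to_subtype
  have h4 : Countable (ℕ → ℕ) :=
    (Function.Injective.countable (f := fun x : ℕ → ℕ =>
      (⟨⋃ n ∈ M x, D n, x, rfl⟩ : range fun x => ⋃ n ∈ M x, D n))
      fun x y h => h2 (congrArg Subtype.val h))
  obtain ⟨s, hs⟩ := exists_surjective_nat (ℕ → ℕ)
  obtain ⟨n, hn⟩ := hs fun k => s k k + 1
  have := congrFun hn n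
  omega

end Pool.Agent.V11112.PoorFilter
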