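import Mathlib

open Filter Topology

namespace Pool.Agent.V11112.SG

/-- the integer value of a sign -/
def sg (b : Bool) : ℤ := if b then 1 else -1

lemma sg_abs (b : Bool) : |sg b| = 1 := by cases b <;> simp [sg]

/-- recursion state `(s_j, G_j)` -/
def st : ℕ → ℕ × ℕ
  | 0 => (0, 1)
  | j + 1 =>
    ((st j).1 + 2 ^ ((st j).1 + 2 * j + 20)
      + 2 * (2 * (j + 1) * ((st j).2 * 2 ^ ((st j).1 + 2 * j + 20))),
      (st j).2 * 2 ^ ((st j).1 + 2 * j + 20))

/-- block start -/
def s (j : ℕ) : ℕ := (st j).1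
/-- inverse of the previous step size -/
def G (j : ℕ) : ℕ := (st j).2
/-- number of pure terms -/
def r (j : ℕ) : ℕ := 2 ^ (s j + 2 * j + 20)
/-- number of mixed terms -/
def m (j : ℕ) : ℕ := 2 * (j + 1) * G (j + 1)

lemma s_zero : s 0 = 0 := rfl
lemma G_zero : G 0 = 1 := rfl
lemma G_succ (j : ℕ) : G (j + 1) = G j * r j := rfl
lemma s_succ (j : ℕ) : s (j + 1) = s j + r j + 2 * m j := rfl

lemma r_pos (j : ℕ) : 0 < r j := by unfold r; positivity
lemma r_even (j : ℕ) : ∃ q, r j = 2 * q := ⟨2 ^ (s j + 2 * j + 19), by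
  unfold r; rw [show s j + 2 * j + 20 = (s j + 2 * j + 19) + 1 by ring, pow_succ]; ring⟩
lemma G_pos (j : ℕ) : 0 < G j := by
  induction j with
  | zero => simp [G_zero]
  | succ j ih => rw [G_succ]; exact Nat.mul_pos ih (r_pos j)
lemma m_even (j : ℕ) : m j = 2 * ((j + 1) * G (j + 1)) := by unfold m; ring

lemma r_big (j : ℕ) : s j + 2 * j + 20 < r j := by unfold r; exact Nat.lt_two_pow_self

lemma G_big (j : ℕ) : j + 2 ≤ G (j + 1) := by
  rw [G_succ]
  have h1 := r_big j
  have h2 := G_pos j
  nlinarith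

lemma s_strictMono : StrictMono s := by
  apply strictMono_nat_of_lt_succ
  intro j
  have h1 := r_pos j
  have h2 := s_succ j
  omega

lemma m_def (j : ℕ) : m j = 2 * (j + 1) * G (j + 1) := rfl
lemma r_def (j : ℕ) : r j = 2 ^ (s j + 2 * j + 20) := rfl

attribute [irreducible] st s G r m

/-- index of the block containing `n` -/
def blk (n : ℕ) : ℕ := Nat.findGreatest (fun j => s j ≤ n) n

lemma s_blk_le (n : ℕ) : s (blk n) ≤ n := by
  unfold blk
  exact Nat.findGreatest_spec (P := fun j => s j ≤ n) (Nat.zero_le n) (by simp [s_zero])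

lemma lt_s_blk_succ (n : ℕ) : n < s (blk n + 1) := by
  by_contra h
  push Not at h
  have h1 : blk n + 1 ≤ n := le_trans (s_strictMono.id_le _) h
  have := Nat.le_findGreatest (P := fun j => s j ≤ n) h1 h
  unfold blk at this
  omega

lemma blk_eq {j k : ℕ} (h : s j + k < s (j + 1)) : blk (s j + k) = j := by
  have h1 := s_blk_le (s j + k)
  have h2 := lt_s_blk_succ (s j + k)
  apply le_antisymm
  · by_contra hc
    push Not at hc
    have : s (j + 1) ≤ s (blk (s j + k)) := s_strictMono.monotone hc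
    omega
  · by_contra hc
    push Not at hc
    have : s (blk (s j + k) + 1) ≤ s j := s_strictMono.monotone hc
    omega

lemma le_blk {j n : ℕ} (h : s j ≤ n) : j ≤ blk n := by
  by_contra hc
  push Not at hc
  have h1 : s (blk n + 1) ≤ s j := s_strictMono.monotone hc
  have h2 := lt_s_blk_succ n
  omega

lemma blk_tendsto : Tendsto blk atTop atTop := by
  rw [tendsto_atTop]
  intro j
  filter_upwards [eventually_ge_atTop (s j)] with n hn using le_blk hn

attribute [irreducible] blk

/-- concatenation of blocks -/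
def cat {X : Type*} (T : ℕ → ℕ → X) (n : ℕ) : X := T (blk n) (n - s (blk n))

lemma cat_eq {X : Type*} (T : ℕ → ℕ → X) {j k : ℕ} (h : s j + k < s (j + 1)) :
    cat T (s j + k) = T j k := by
  unfold cat
  rw [blk_eq h]
  congr 1
  omega

/-- convergence from block sums -/
lemma conv {P : ℕ → ℝ} {L : ℝ} (hP : Tendsto (fun j => P (s j)) atTop (𝓝 L)) {D : ℕ → ℝ}
    (hD : Tendsto D atTop (𝓝 0))
    (h : ∀ᶠ j in atTop, ∀ n, s j + n ≤ s (j + 1) → |P (s j + n) - P (s j)| ≤ D j) :
    Tendsto P atTop (𝓝 L) := by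
  have h1 : Tendsto (fun n => P (s (blk n))) atTop (𝓝 L) := hP.comp blk_tendsto
  have h2 : Tendsto (fun n => P n - P (s (blk n))) atTop (𝓝 0) := by
    apply squeeze_zero_norm' _ (hD.comp blk_tendsto)
    filter_upwards [blk_tendsto.eventually h] with n hn
    have h3 := hn (n - s (blk n)) (by
      have := lt_s_blk_succ n
      have := s_blk_le n
      omega)
    rw [Nat.add_sub_cancel' (s_blk_le n)] at h3
    simpa [Real.norm_eq_abs] using h3
  have h3 := h1.add h2
  simpa using h3

/-- sign patterns with prescribed sum and controlled partial sums -/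
lemma pat_aux (t : ℤ) (i : ℕ) : ∃ b : ℕ → Bool,
    (∑ k ∈ Finset.range (t.natAbs + 2 * i), sg (b k) = t) ∧
    ∀ n ≤ t.natAbs + 2 * i, |∑ k ∈ Finset.range n, sg (b k)| ≤ |t| + 1 := by
  induction i with
  | zero =>
    refine ⟨fun _ => decide (0 ≤ t), ?_, ?_⟩
    · rw [Finset.sum_const]
      simp only [Finset.card_range, sg, mul_zero, add_zero, decide_eq_true_eq, smul_eq_mul,
        nsmul_eq_mul]
      split_ifs with h <;> omega
    · intro n hn
      rw [Finset.sum_const]
      simp only [Finset.card_range, sg, mul_zero, add_zero, decide_eq_true_eq, smul_eq_mul,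
        nsmul_eq_mul]
      rw [abs_mul]
      have h1 : |(if 0 ≤ t then (1 : ℤ) else -1)| = 1 := by split_ifs <;> simp
      rw [h1, mul_one]
      have h2 : |(n : ℤ)| = n := abs_of_nonneg (by positivity)
      rw [h2]
      have h3 : (t.natAbs : ℤ) = |t| := by simp
      rw [← h3]
      omega
  | succ i ih =>
    obtain ⟨b, hb1, hb2⟩ := ih
    refine ⟨fun k => if k < t.natAbs + 2 * i then b k else decide (k = t.natAbs + 2 * i), ?_, ?_⟩
    · rw [show t.natAbs + 2 * (i + 1) = (t.natAbs + 2 * i) + 1 + 1 by ring,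
        Finset.sum_range_succ, Finset.sum_range_succ]
      have h1 : ∑ k ∈ Finset.range (t.natAbs + 2 * i),
          sg (if k < t.natAbs + 2 * i then b k else decide (k = t.natAbs + 2 * i)) = t := by
        refine Eq.trans ?_ hb1
        apply Finset.sum_congr rfl
        intro k hk
        rw [Finset.mem_range] at hk
        rw [if_pos hk]
      rw [h1]
      simp [sg]
    · intro n hn
      by_cases hn1 : n ≤ t.natAbs + 2 * i
      · have h1 : ∑ k ∈ Finset.range n,
          sg (if k < t.natAbs + 2 * i then b k else decide (k = t.natAbs + 2 * i)) =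
          ∑ k ∈ Finset.range n, sg (b k) := by
          apply Finset.sum_congr rfl
          intro k hk
          rw [Finset.mem_range] at hk
          rw [if_pos (by omega)]
        rw [h1]
        exact hb2 n hn1
      · have h1 : ∑ k ∈ Finset.range (t.natAbs + 2 * i),
            sg (if k < t.natAbs + 2 * i then b k else decide (k = t.natAbs + 2 * i)) = t := by
          refine Eq.trans ?_ hb1
          apply Finset.sum_congr rfl
          intro k hk
          rw [Finset.mem_range] at hk
          rw [if_pos hk]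
        have h2 : n = t.natAbs + 2 * i + 1 ∨ n = t.natAbs + 2 * i + 1 + 1 := by omega
        rcases h2 with rfl | rfl
        · rw [Finset.sum_range_succ, h1]
          simp only [lt_irrefl, if_false, decide_true, sg, if_true]
          calc |t + 1| ≤ |t| + |1| := abs_add_le _ _
            _ = |t| + 1 := by simp
        · rw [Finset.sum_range_succ, Finset.sum_range_succ, h1]
          simp [sg]

lemma pat {l : ℕ} {t : ℤ} (hl : ∃ q : ℕ, l = 2 * q) (ht : ∃ q : ℤ, t = 2 * q) (htl : |t| ≤ l) :
    ∃ b : ℕ → Bool, (∑ k ∈ Finset.range l, sg (b k) = t) ∧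
    ∀ n ≤ l, |∑ k ∈ Finset.range n, sg (b k)| ≤ |t| + 1 := by
  obtain ⟨q, rfl⟩ := hl
  obtain ⟨p, rfl⟩ := ht
  have h1 : (2 * p).natAbs = 2 * p.natAbs := by omega
  have h3 : (((2 * p).natAbs : ℕ) : ℤ) = |2 * p| := by simp
  have h2 : p.natAbs ≤ q := by
    rw [← h3] at htl
    omega
  obtain ⟨b, hb⟩ := pat_aux (2 * p) (q - p.natAbs)
  rw [h1, show 2 * p.natAbs + 2 * (q - p.natAbs) = 2 * q by omega] at hb
  exact ⟨b, hb⟩

end Pool.Agent.V11112.SG
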