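import Pool.Agent.V11112.SG1

open Filter Topology

namespace Pool.Agent.V11112.SG

/-- small step -/
noncomputable def ga (j : ℕ) : ℝ := 1 / (G (j + 1) : ℝ)
/-- horizontal step -/
noncomputable def aa (j : ℕ) : ℝ := 1 / ((j : ℝ) + 1)

/-- horizontal coordinates in the blocks -/
noncomputable def xt (j k : ℕ) : ℝ := if k < r j then 0 else aa j
/-- vertical coordinates in the blocks -/
noncomputable def yt (j k : ℕ) : ℝ := if k < r j + m j then ga j else - ga j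

/-- signed partial sums -/
noncomputable def PS (f : ℕ → ℝ) (ε : ℕ → Bool) (N : ℕ) : ℝ :=
  ∑ n ∈ Finset.range N, (sg (ε n) : ℝ) * f n

lemma seg (ε : ℕ → Bool) (f : ℕ → ℝ) (a n : ℕ) (c : ℝ) (h : ∀ k < n, f (a + k) = c) :
    PS f ε (a + n) = PS f ε a + c * ((∑ k ∈ Finset.range n, sg (ε (a + k)) : ℤ) : ℝ) := by
  unfold PS
  rw [Finset.sum_range_add]
  congr 1
  rw [Int.cast_sum, Finset.mul_sum]
  apply Finset.sum_congr rfl
  intro k hk
  rw [Finset.mem_range] at hk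
  rw [h k hk]
  ring

lemma xt_U {j k : ℕ} (h : k < r j) : cat xt (s j + k) = 0 := by
  rw [cat_eq xt (by rw [s_succ]; omega)]
  simp [xt, h]

lemma xt_A {j k : ℕ} (h : k < m j) : cat xt (s j + r j + k) = aa j := by
  rw [add_assoc, cat_eq xt (by rw [s_succ]; omega)]
  simp [xt]

lemma xt_B {j k : ℕ} (h : k < m j) : cat xt (s j + r j + m j + k) = aa j := by
  rw [show s j + r j + m j + k = s j + (r j + (m j + k)) by ring,
    cat_eq xt (by rw [s_succ]; omega)]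
  simp [xt]

lemma yt_U {j k : ℕ} (h : k < r j) : cat yt (s j + k) = ga j := by
  rw [cat_eq yt (by rw [s_succ]; omega)]
  unfold yt
  rw [if_pos (by omega)]

lemma yt_A {j k : ℕ} (h : k < m j) : cat yt (s j + r j + k) = ga j := by
  rw [add_assoc, cat_eq yt (by rw [s_succ]; omega)]
  unfold yt
  rw [if_pos (by omega)]

lemma yt_B {j k : ℕ} (h : k < m j) : cat yt (s j + r j + m j + k) = - ga j := by
  rw [show s j + r j + m j + k = s j + (r j + m j + k) by ring,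
    cat_eq yt (by rw [s_succ]; omega)]
  unfold yt
  rw [if_neg (by omega)]

/-- sum over the pure part -/
def SU (ε : ℕ → Bool) (j n : ℕ) : ℤ := ∑ k ∈ Finset.range n, sg (ε (s j + k))
/-- sum over the first mixed part -/
def SA (ε : ℕ → Bool) (j n : ℕ) : ℤ := ∑ k ∈ Finset.range n, sg (ε (s j + r j + k))
/-- sum over the second mixed part -/
def SB (ε : ℕ → Bool) (j n : ℕ) : ℤ := ∑ k ∈ Finset.range n, sg (ε (s j + r j + m j + k))

lemma px_U (ε : ℕ → Bool) {j n : ℕ} (h : n ≤ r j) :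
    PS (cat xt) ε (s j + n) = PS (cat xt) ε (s j) := by
  rw [seg ε (cat xt) (s j) n 0 (fun k hk => xt_U (by omega))]
  ring

lemma px_A (ε : ℕ → Bool) {j n : ℕ} (h : n ≤ m j) :
    PS (cat xt) ε (s j + r j + n) = PS (cat xt) ε (s j) + aa j * (SA ε j n : ℝ) := by
  rw [seg ε (cat xt) (s j + r j) n (aa j) (fun k hk => xt_A (by omega)), px_U ε le_rfl]
  rfl

lemma px_B (ε : ℕ → Bool) {j n : ℕ} (h : n ≤ m j) :
    PS (cat xt) ε (s j + r j + m j + n) =
      PS (cat xt) ε (s j) + aa j * (SA ε j (m j) : ℝ) + aa j * (SB ε j n : ℝ) := by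
  rw [seg ε (cat xt) (s j + r j + m j) n (aa j) (fun k hk => xt_B (by omega)), px_A ε le_rfl]
  rfl

lemma py_U (ε : ℕ → Bool) {j n : ℕ} (h : n ≤ r j) :
    PS (cat yt) ε (s j + n) = PS (cat yt) ε (s j) + ga j * (SU ε j n : ℝ) := by
  rw [seg ε (cat yt) (s j) n (ga j) (fun k hk => yt_U (by omega))]
  rfl

lemma py_A (ε : ℕ → Bool) {j n : ℕ} (h : n ≤ m j) :
    PS (cat yt) ε (s j + r j + n) = PS (cat yt) ε (s j) + ga j * (SU ε j (r j) : ℝ)
      + ga j * (SA ε j n : ℝ) := by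
  rw [seg ε (cat yt) (s j + r j) n (ga j) (fun k hk => yt_A (by omega)), py_U ε le_rfl]
  rfl

lemma py_B (ε : ℕ → Bool) {j n : ℕ} (h : n ≤ m j) :
    PS (cat yt) ε (s j + r j + m j + n) = PS (cat yt) ε (s j) + ga j * (SU ε j (r j) : ℝ)
      + ga j * (SA ε j (m j) : ℝ) - ga j * (SB ε j n : ℝ) := by
  rw [seg ε (cat yt) (s j + r j + m j) n (- ga j) (fun k hk => yt_B (by omega)), py_A ε le_rfl]
  unfold SB
  ring

lemma px_next (ε : ℕ → Bool) (j : ℕ) :
    PS (cat xt) ε (s (j + 1)) =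
      PS (cat xt) ε (s j) + aa j * ((SA ε j (m j) : ℝ) + (SB ε j (m j) : ℝ)) := by
  rw [s_succ, show s j + r j + 2 * m j = s j + r j + m j + m j by ring, px_B ε le_rfl]
  ring

lemma py_next (ε : ℕ → Bool) (j : ℕ) :
    PS (cat yt) ε (s (j + 1)) =
      PS (cat yt) ε (s j) + ga j * ((SU ε j (r j) : ℝ) + (SA ε j (m j) : ℝ)
        - (SB ε j (m j) : ℝ)) := by
  rw [s_succ, show s j + r j + 2 * m j = s j + r j + m j + m j by ring, py_B ε le_rfl]
  ring

lemma ga_pos (j : ℕ) : 0 < ga j := by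
  have : (0 : ℝ) < G (j + 1) := by exact_mod_cast G_pos (j + 1)
  unfold ga; positivity

lemma aa_pos (j : ℕ) : 0 < aa j := by unfold aa; positivity

lemma G_tendsto : Tendsto (fun j => (G j : ℝ)) atTop atTop := by
  apply tendsto_atTop_mono' (f₁ := fun j : ℕ => (j : ℝ)) atTop _ tendsto_natCast_atTop_atTop
  filter_upwards [eventually_ge_atTop 1] with j hj
  obtain ⟨i, rfl⟩ := Nat.exists_eq_add_of_le hj
  have := G_big i
  rw [show 1 + i = i + 1 by ring]
  have h2 : i + 1 ≤ G (i + 1) := by omega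
  exact_mod_cast h2

lemma Ginv_tendsto : Tendsto (fun j => 1 / (G j : ℝ)) atTop (𝓝 0) := by
  have := G_tendsto.inv_tendsto_atTop
  refine this.congr (fun j => ?_)
  simp

lemma ga_tendsto : Tendsto ga atTop (𝓝 0) := by
  have := Ginv_tendsto.comp (tendsto_add_atTop_nat 1)
  exact this

lemma aa_tendsto : Tendsto aa atTop (𝓝 0) := tendsto_one_div_add_atTop_nhds_zero_nat

lemma ga_r (j : ℕ) : ga j * (r j : ℝ) = 1 / (G j : ℝ) := by
  have h1 : (0 : ℝ) < G j := by exact_mod_cast G_pos j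
  have h2 : (0 : ℝ) < r j := by exact_mod_cast r_pos j
  unfold ga
  rw [G_succ]
  push_cast
  field_simp

lemma dev_x (ε : ℕ → Bool) {j n : ℕ} (hn : s j + n ≤ s (j + 1)) {CA CB : ℝ}
    (hA : ∀ i ≤ m j, |(SA ε j i : ℝ)| ≤ CA) (hB : ∀ i ≤ m j, |(SB ε j i : ℝ)| ≤ CB) :
    |PS (cat xt) ε (s j + n) - PS (cat xt) ε (s j)| ≤ aa j * (CA + CB) := by
  have ha := aa_pos j
  have hA0 : 0 ≤ CA := (abs_nonneg _).trans (hA 0 (Nat.zero_le _))
  have hB0 : 0 ≤ CB := (abs_nonneg _).trans (hB 0 (Nat.zero_le _))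
  rw [s_succ] at hn
  by_cases h1 : n ≤ r j
  · rw [px_U ε h1, sub_self, abs_zero]
    positivity
  by_cases h2 : n ≤ r j + m j
  · obtain ⟨i, hi⟩ := Nat.exists_eq_add_of_le (show r j ≤ n by omega)
    have h3 : i ≤ m j := by omega
    rw [hi, ← add_assoc, px_A ε h3, add_sub_cancel_left, abs_mul, abs_of_pos ha]
    have := hA i h3
    gcongr
    linarith
  · obtain ⟨i, hi⟩ := Nat.exists_eq_add_of_le (show r j + m j ≤ n by omega)
    have h3 : i ≤ m j := by omega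
    rw [hi, ← add_assoc, ← add_assoc, px_B ε h3, add_assoc, add_sub_cancel_left, ← mul_add,
      abs_mul, abs_of_pos ha]
    have h4 := hA (m j) le_rfl
    have h5 := hB i h3
    gcongr
    exact (abs_add_le _ _).trans (add_le_add h4 h5)

lemma dev_y (ε : ℕ → Bool) {j n : ℕ} (hn : s j + n ≤ s (j + 1)) {CU CA CB : ℝ}
    (hU : ∀ i ≤ r j, |(SU ε j i : ℝ)| ≤ CU)
    (hA : ∀ i ≤ m j, |(SA ε j i : ℝ)| ≤ CA) (hB : ∀ i ≤ m j, |(SB ε j i : ℝ)| ≤ CB) :
    |PS (cat yt) ε (s j + n) - PS (cat yt) ε (s j)| ≤ ga j * (CU + CA + CB) := by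
  have ha := ga_pos j
  have hU0 : 0 ≤ CU := (abs_nonneg _).trans (hU 0 (Nat.zero_le _))
  have hA0 : 0 ≤ CA := (abs_nonneg _).trans (hA 0 (Nat.zero_le _))
  have hB0 : 0 ≤ CB := (abs_nonneg _).trans (hB 0 (Nat.zero_le _))
  rw [s_succ] at hn
  by_cases h1 : n ≤ r j
  · rw [py_U ε h1, add_sub_cancel_left, abs_mul, abs_of_pos ha]
    have := hU n h1
    gcongr
    linarith
  by_cases h2 : n ≤ r j + m j
  · obtain ⟨i, hi⟩ := Nat.exists_eq_add_of_le (show r j ≤ n by omega)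
    have h3 : i ≤ m j := by omega
    rw [hi, ← add_assoc, py_A ε h3, add_assoc, add_sub_cancel_left, ← mul_add, abs_mul,
      abs_of_pos ha]
    have h4 := hA i h3
    have h5 := hU (r j) le_rfl
    gcongr
    have := (abs_add_le (SU ε j (r j) : ℝ) (SA ε j i : ℝ)).trans (add_le_add h5 h4)
    linarith
  · obtain ⟨i, hi⟩ := Nat.exists_eq_add_of_le (show r j + m j ≤ n by omega)
    have h3 : i ≤ m j := by omega
    rw [hi, ← add_assoc, ← add_assoc, py_B ε h3]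
    have h4 := hA (m j) le_rfl
    have h5 := hB i h3
    have h6 := hU (r j) le_rfl
    have e : PS (cat yt) ε (s j) + ga j * (SU ε j (r j) : ℝ)
      + ga j * (SA ε j (m j) : ℝ) - ga j * (SB ε j i : ℝ) - PS (cat yt) ε (s j) =
      ga j * ((SU ε j (r j) : ℝ) + (SA ε j (m j) : ℝ) + (-(SB ε j i : ℝ))) := by ring
    rw [e, abs_mul, abs_of_pos ha]
    gcongr
    refine (abs_add_three _ _ _).trans ?_
    rw [abs_neg]
    linarith

/-- invariant of the greedy algorithm -/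
def Inv (L : ℝ × ℝ) (J j : ℕ) (p : ℝ × ℝ) : Prop :=
  (j ≤ J → p = L) ∧ (J < j → |p.1| ≤ 2 / (j : ℝ) ∧ |p.2| ≤ 1 / (G j : ℝ))

/-- admissible block sums -/
def Good (J j : ℕ) (q : ℤ × ℤ × ℤ) : Prop :=
  (∃ t : ℤ, q.1 = 2 * t) ∧ (∃ t : ℤ, q.2.1 = 2 * t) ∧ (∃ t : ℤ, q.2.2 = 2 * t) ∧
    |q.1| ≤ m j ∧ |q.2.1| ≤ m j ∧ |q.2.2| ≤ r j ∧ (J < j → |q.1| ≤ 2 ∧ |q.2.1| ≤ 2)

/-- remaining target -/
noncomputable def nxt (j : ℕ) (p : ℝ × ℝ) (q : ℤ × ℤ × ℤ) : ℝ × ℝ :=
  (p.1 - aa j * ((q.1 : ℝ) + (q.2.1 : ℝ)), p.2 - ga j * ((q.2.2 : ℝ) + (q.1 : ℝ) - (q.2.1 : ℝ)))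

lemma near (z : ℝ) : ∃ v : ℤ, |z - v| ≤ 1 / 2 := ⟨round z, abs_sub_round z⟩

lemma step_lt {L : ℝ × ℝ} {J j : ℕ} (hj : j < J) {p : ℝ × ℝ} (hp : Inv L J j p) :
    ∃ q, Good J j q ∧ Inv L J (j + 1) (nxt j p q) := by
  refine ⟨(0, 0, 0), ⟨⟨0, by simp⟩, ⟨0, by simp⟩, ⟨0, by simp⟩, by simp, by simp, by simp,
    fun h => by omega⟩, fun _ => ?_, fun h => by omega⟩
  rw [← hp.1 hj.le]
  ext <;> simp [nxt]

lemma step_eq {L : ℝ × ℝ} {J : ℕ} (h1 : |L.1| ≤ J) (h2 : |L.2| ≤ J) {p : ℝ × ℝ}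
    (hp : Inv L J J p) : ∃ q, Good J J q ∧ Inv L J (J + 1) (nxt J p q) := by
  have hpL : p = L := hp.1 le_rfl
  subst hpL
  have hg := ga_pos J
  have ha := aa_pos J
  obtain ⟨v, hv⟩ := near (p.2 / (2 * ga J))
  obtain ⟨w', hw'⟩ := near ((p.1 / (2 * aa J) - v) / 2)
  obtain ⟨w, hw⟩ : ∃ w : ℤ, w = v + 2 * w' := ⟨_, rfl⟩
  have hw2 : |p.1 / (2 * aa J) - w| ≤ 1 := by
    rw [hw]
    push_cast
    rw [show p.1 / (2 * aa J) - ((v : ℝ) + 2 * (w' : ℝ)) =
      2 * ((p.1 / (2 * aa J) - v) / 2 - w') by ring, abs_mul]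
    rw [abs_of_pos (by norm_num : (0 : ℝ) < 2)]
    linarith
  have hG : (J : ℝ) + 2 ≤ (G (J + 1) : ℝ) := by exact_mod_cast G_big J
  have hvb : |(v : ℝ)| ≤ (J : ℝ) * G (J + 1) / 2 + 1 / 2 := by
    have h3 : |p.2 / (2 * ga J)| ≤ (J : ℝ) * G (J + 1) / 2 := by
      rw [abs_div, abs_of_pos (by positivity : (0 : ℝ) < 2 * ga J)]
      unfold ga
      have : (0 : ℝ) < G (J + 1) := by exact_mod_cast G_pos (J + 1)
      rw [div_le_iff₀ (by positivity)]
      field_simp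
      linarith
    have h4 : |(v : ℝ)| ≤ |p.2 / (2 * ga J)| + |p.2 / (2 * ga J) - v| := by
      have := abs_sub (p.2 / (2 * ga J)) (p.2 / (2 * ga J) - v)
      simpa using this
    linarith
  have hwb : |(w : ℝ)| ≤ (J : ℝ) * ((J : ℝ) + 1) / 2 + 1 := by
    have h3 : |p.1 / (2 * aa J)| ≤ (J : ℝ) * ((J : ℝ) + 1) / 2 := by
      rw [abs_div, abs_of_pos (by positivity : (0 : ℝ) < 2 * aa J)]
      unfold aa
      rw [div_le_iff₀ (by positivity)]
      field_simp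
      linarith
    have h4 : |(w : ℝ)| ≤ |p.1 / (2 * aa J)| + |p.1 / (2 * aa J) - w| := by
      have := abs_sub (p.1 / (2 * aa J)) (p.1 / (2 * aa J) - w)
      simpa using this
    linarith
  have hm : ((m J : ℕ) : ℝ) = 2 * ((J : ℝ) + 1) * G (J + 1) := by
    rw [m_def]; push_cast; ring
  have hJ0 : (0 : ℝ) ≤ J := by positivity
  have hsum : |(w : ℝ)| + |(v : ℝ)| ≤ (m J : ℝ) := by
    rw [hm]
    nlinarith
  refine ⟨(w + v, w - v, 0), ⟨⟨v + w', by rw [hw]; ring⟩, ⟨w', by rw [hw]; ring⟩, ⟨0, by simp⟩,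
    ?_, ?_, by simp, fun h => by omega⟩, fun h => by omega, fun _ => ⟨?_, ?_⟩⟩
  · have h5 : ((|w + v| : ℤ) : ℝ) ≤ ((m J : ℤ) : ℝ) := by
      push_cast
      exact (abs_add_le _ _).trans hsum
    exact_mod_cast h5
  · have h5 : ((|w - v| : ℤ) : ℝ) ≤ ((m J : ℤ) : ℝ) := by
      push_cast
      exact (abs_sub _ _).trans hsum
    exact_mod_cast h5
  · simp only [nxt]
    push_cast
    rw [show p.1 - aa J * ((w : ℝ) + v + (w - v)) = 2 * aa J * (p.1 / (2 * aa J) - w) by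
      field_simp; ring, abs_mul, abs_of_pos (by positivity : (0 : ℝ) < 2 * aa J)]
    calc 2 * aa J * |p.1 / (2 * aa J) - w| ≤ 2 * aa J * 1 := by gcongr
      _ = 2 / ((J : ℝ) + 1) := by unfold aa; ring
  · simp only [nxt]
    push_cast
    rw [show p.2 - ga J * (0 + ((w : ℝ) + v) - (w - v)) = 2 * ga J * (p.2 / (2 * ga J) - v) by
      field_simp; ring, abs_mul, abs_of_pos (by positivity : (0 : ℝ) < 2 * ga J)]
    calc 2 * ga J * |p.2 / (2 * ga J) - v| ≤ 2 * ga J * (1 / 2) := by gcongr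
      _ = 1 / (G (J + 1) : ℝ) := by unfold ga; ring

lemma step_gt {L : ℝ × ℝ} {J j : ℕ} (hj : J < j) {p : ℝ × ℝ} (hp : Inv L J j p) :
    ∃ q, Good J j q ∧ Inv L J (j + 1) (nxt j p q) := by
  obtain ⟨h1, h2⟩ := hp.2 hj
  have hg := ga_pos j
  have ha := aa_pos j
  have hj1 : (1 : ℝ) ≤ j := by exact_mod_cast (by omega : 1 ≤ j)
  -- the horizontal correction
  obtain ⟨c, hc1, hc2, hc3⟩ : ∃ c : ℤ, (∃ t : ℤ, c = 2 * t) ∧ |c| ≤ 2 ∧
      |p.1 - 2 * aa j * c| ≤ 2 * aa j := by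
    have h3 : 2 / (j : ℝ) ≤ 4 * aa j := by
      unfold aa
      rw [div_le_iff₀ (by positivity)]
      field_simp
      linarith
    obtain ⟨h4, h5⟩ := abs_le.1 h1
    by_cases c1 : p.1 < - (2 * aa j)
    · refine ⟨-2, ⟨-1, by simp⟩, by simp, ?_⟩
      rw [abs_le]
      push_cast
      constructor <;> linarith
    by_cases c2 : 2 * aa j < p.1
    · refine ⟨2, ⟨1, by simp⟩, by simp, ?_⟩
      rw [abs_le]
      push_cast
      constructor <;> linarith
    · refine ⟨0, ⟨0, by simp⟩, by simp, ?_⟩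
      push Not at c1 c2
      rw [abs_le]
      push_cast
      constructor <;> linarith
  obtain ⟨v, hv⟩ := near (p.2 / (2 * ga j))
  have hG0 : (0 : ℝ) < G j := by exact_mod_cast G_pos j
  have hr0 : (0 : ℝ) < r j := by exact_mod_cast r_pos j
  have hgr := ga_r j
  have hvb : |(v : ℝ)| ≤ (r j : ℝ) / 2 + 1 / 2 := by
    have h3 : |p.2 / (2 * ga j)| ≤ (r j : ℝ) / 2 := by
      rw [abs_div, abs_of_pos (by positivity : (0 : ℝ) < 2 * ga j)]
      rw [div_le_iff₀ (by positivity)]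
      linarith
    have h4 : |(v : ℝ)| ≤ |p.2 / (2 * ga j)| + |p.2 / (2 * ga j) - v| := by
      have := abs_sub (p.2 / (2 * ga j)) (p.2 / (2 * ga j) - v)
      simpa using this
    linarith
  have hvb2 : |2 * v| ≤ (r j : ℤ) := by
    obtain ⟨q, hq⟩ := r_even j
    have h3 : 2 * |v| ≤ (r j : ℤ) + 1 := by
      have h4 : ((2 * |v| : ℤ) : ℝ) ≤ (((r j : ℤ) + 1 : ℤ) : ℝ) := by
        push_cast
        linarith
      exact_mod_cast h4
    rw [abs_mul]
    simp only [Nat.abs_ofNat]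
    rw [hq] at h3 ⊢
    push_cast at h3 ⊢
    omega
  have hm2 : (2 : ℤ) ≤ (m j : ℤ) := by
    have h3 := G_pos (j + 1)
    have : 2 ≤ m j := by rw [m_def]; nlinarith
    exact_mod_cast this
  refine ⟨(c, c, 2 * v), ⟨hc1, hc1, ⟨v, rfl⟩, hc2.trans hm2, hc2.trans hm2, hvb2,
    fun _ => ⟨hc2, hc2⟩⟩, fun h => by omega, fun _ => ⟨?_, ?_⟩⟩
  · simp only [nxt]
    rw [show p.1 - aa j * ((c : ℝ) + c) = p.1 - 2 * aa j * c by ring]
    refine hc3.trans (le_of_eq ?_)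
    unfold aa
    push_cast
    ring
  · simp only [nxt]
    push_cast
    rw [show p.2 - ga j * (2 * (v : ℝ) + c - c) = 2 * ga j * (p.2 / (2 * ga j) - v) by
      field_simp; ring, abs_mul, abs_of_pos (by positivity : (0 : ℝ) < 2 * ga j)]
    calc 2 * ga j * |p.2 / (2 * ga j) - v| ≤ 2 * ga j * (1 / 2) := by gcongr
      _ = 1 / (G (j + 1) : ℝ) := by unfold ga; ring

lemma step {L : ℝ × ℝ} {J : ℕ} (h1 : |L.1| ≤ J) (h2 : |L.2| ≤ J) (j : ℕ) (p : ℝ × ℝ)
    (hp : Inv L J j p) : ∃ q, Good J j q ∧ Inv L J (j + 1) (nxt j p q) := by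
  rcases lt_trichotomy j J with h | h | h
  · exact step_lt h hp
  · subst h; exact step_eq h1 h2 hp
  · exact step_gt h hp

/-- every target is attained -/
theorem exists_signs (L : ℝ × ℝ) : ∃ ε : ℕ → Bool,
    Tendsto (PS (cat xt) ε) atTop (𝓝 L.1) ∧ Tendsto (PS (cat yt) ε) atTop (𝓝 L.2) := by
  obtain ⟨J, hJ⟩ := exists_nat_ge (max |L.1| |L.2|)
  have h1 : |L.1| ≤ J := (le_max_left _ _).trans hJ
  have h2 : |L.2| ≤ J := (le_max_right _ _).trans hJ
  have hstep := step h1 h2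
  choose! f hf using hstep
  let P : ℕ → ℝ × ℝ := fun n => Nat.rec L (fun j p => nxt j p (f j p)) n
  have hP0 : P 0 = L := rfl
  have hPs : ∀ j, P (j + 1) = nxt j (P j) (f j (P j)) := fun j => rfl
  have hI : ∀ j, Inv L J j (P j) := by
    intro j
    induction j with
    | zero => exact ⟨fun _ => rfl, fun h => absurd h (Nat.not_lt_zero _)⟩
    | succ j ih => rw [hPs]; exact (hf j (P j) ih).2
  obtain ⟨q, hq⟩ : ∃ q : ℕ → ℤ × ℤ × ℤ, ∀ j, q j = f j (P j) := ⟨_, fun _ => rfl⟩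
  have hgood : ∀ j, Good J j (q j) := fun j => by rw [hq]; exact (hf j (P j) (hI j)).1
  have hPs' : ∀ j, P (j + 1) = nxt j (P j) (q j) := fun j => by rw [hq]
  have hbA : ∀ j, ∃ b : ℕ → Bool, (∑ k ∈ Finset.range (m j), sg (b k) = (q j).1) ∧
      ∀ n ≤ m j, |∑ k ∈ Finset.range n, sg (b k)| ≤ |(q j).1| + 1 := fun j =>
    pat ⟨_, m_even j⟩ (hgood j).1 (hgood j).2.2.2.1
  have hbB : ∀ j, ∃ b : ℕ → Bool, (∑ k ∈ Finset.range (m j), sg (b k) = (q j).2.1) ∧
      ∀ n ≤ m j, |∑ k ∈ Finset.range n, sg (b k)| ≤ |(q j).2.1| + 1 := fun j =>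
    pat ⟨_, m_even j⟩ (hgood j).2.1 (hgood j).2.2.2.2.1
  have hbU : ∀ j, ∃ b : ℕ → Bool, (∑ k ∈ Finset.range (r j), sg (b k) = (q j).2.2) ∧
      ∀ n ≤ r j, |∑ k ∈ Finset.range n, sg (b k)| ≤ |(q j).2.2| + 1 := fun j =>
    pat (r_even j) (hgood j).2.2.1 (hgood j).2.2.2.2.2.1
  choose bA hA1 hA2 using hbA
  choose bB hB1 hB2 using hbB
  choose bU hU1 hU2 using hbU
  obtain ⟨e, he⟩ : ∃ e : ℕ → ℕ → Bool, ∀ j k, e j k = if k < r j then bU j k else
    if k < r j + m j then bA j (k - r j) else bB j (k - r j - m j) := ⟨_, fun _ _ => rfl⟩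
  have eU : ∀ j k, k < r j → cat e (s j + k) = bU j k := by
    intro j k h
    rw [cat_eq e (by rw [s_succ]; omega), he, if_pos h]
  have eA : ∀ j k, k < m j → cat e (s j + r j + k) = bA j k := by
    intro j k h
    rw [add_assoc, cat_eq e (by rw [s_succ]; omega), he, if_neg (by omega), if_pos (by omega)]
    congr 1
    omega
  have eB : ∀ j k, k < m j → cat e (s j + r j + m j + k) = bB j k := by
    intro j k h
    rw [show s j + r j + m j + k = s j + (r j + m j + k) by ring,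
      cat_eq e (by rw [s_succ]; omega), he, if_neg (by omega), if_neg (by omega)]
    congr 1
    omega
  have sU : ∀ j n, n ≤ r j → SU (cat e) j n = ∑ k ∈ Finset.range n, sg (bU j k) := by
    intro j n hn
    unfold SU
    apply Finset.sum_congr rfl
    intro k hk
    rw [Finset.mem_range] at hk
    rw [eU j k (by omega)]
  have sA : ∀ j n, n ≤ m j → SA (cat e) j n = ∑ k ∈ Finset.range n, sg (bA j k) := by
    intro j n hn
    unfold SA
    apply Finset.sum_congr rfl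
    intro k hk
    rw [Finset.mem_range] at hk
    rw [eA j k (by omega)]
  have sB : ∀ j n, n ≤ m j → SB (cat e) j n = ∑ k ∈ Finset.range n, sg (bB j k) := by
    intro j n hn
    unfold SB
    apply Finset.sum_congr rfl
    intro k hk
    rw [Finset.mem_range] at hk
    rw [eB j k (by omega)]
  have key : ∀ j, PS (cat xt) (cat e) (s j) = L.1 - (P j).1 ∧
      PS (cat yt) (cat e) (s j) = L.2 - (P j).2 := by
    intro j
    induction j with
    | zero => rw [s_zero, hP0]; simp [PS]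
    | succ j ih =>
      rw [px_next, py_next, ih.1, ih.2, sU j _ le_rfl, sA j _ le_rfl, sB j _ le_rfl, hU1, hA1, hB1,
        hPs' j]
      simp only [nxt]
      constructor <;> ring
  have hx0 : Tendsto (fun j => (P j).1) atTop (𝓝 0) := by
    have h3 : Tendsto (fun j : ℕ => 2 / (j : ℝ)) atTop (𝓝 0) :=
      tendsto_const_div_atTop_nhds_zero_nat 2
    apply squeeze_zero_norm' _ h3
    filter_upwards [eventually_gt_atTop J] with j hj
    exact ((hI j).2 hj).1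
  have hy0 : Tendsto (fun j => (P j).2) atTop (𝓝 0) := by
    apply squeeze_zero_norm' _ Ginv_tendsto
    filter_upwards [eventually_gt_atTop J] with j hj
    exact ((hI j).2 hj).2
  have bdA : ∀ j, J < j → ∀ i ≤ m j, |(SA (cat e) j i : ℝ)| ≤ 3 := by
    intro j hj i hi
    have h3 : |SA (cat e) j i| ≤ 3 := by
      rw [sA j i hi]
      have := hA2 j i hi
      have := ((hgood j).2.2.2.2.2.2 hj).1
      omega
    exact_mod_cast h3
  have bdB : ∀ j, J < j → ∀ i ≤ m j, |(SB (cat e) j i : ℝ)| ≤ 3 := by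
    intro j hj i hi
    have h3 : |SB (cat e) j i| ≤ 3 := by
      rw [sB j i hi]
      have := hB2 j i hi
      have := ((hgood j).2.2.2.2.2.2 hj).2
      omega
    exact_mod_cast h3
  have bdU : ∀ j, J < j → ∀ i ≤ r j, |(SU (cat e) j i : ℝ)| ≤ (r j : ℝ) + 1 := by
    intro j hj i hi
    have h3 : |SU (cat e) j i| ≤ (r j : ℤ) + 1 := by
      rw [sU j i hi]
      have h4 := hU2 j i hi
      have h5 := (hgood j).2.2.2.2.2.1
      omega
    exact_mod_cast h3
  refine ⟨cat e, ?_, ?_⟩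
  · apply conv (D := fun j => aa j * (3 + 3))
    · have : Tendsto (fun j => L.1 - (P j).1) atTop (𝓝 (L.1 - 0)) :=
        tendsto_const_nhds.sub hx0
      rw [sub_zero] at this
      refine this.congr (fun j => ?_)
      rw [(key j).1]
    · simpa using aa_tendsto.mul_const (3 + 3)
    · filter_upwards [eventually_gt_atTop J] with j hj n hn
      exact dev_x (cat e) hn (bdA j hj) (bdB j hj)
  · apply conv (D := fun j => 1 / (G j : ℝ) + ga j * 7)
    · have : Tendsto (fun j => L.2 - (P j).2) atTop (𝓝 (L.2 - 0)) :=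
        tendsto_const_nhds.sub hy0
      rw [sub_zero] at this
      refine this.congr (fun j => ?_)
      rw [(key j).2]
    · simpa using Ginv_tendsto.add (ga_tendsto.mul_const 7)
    · filter_upwards [eventually_gt_atTop J] with j hj n hn
      refine (dev_y (cat e) hn (bdU j hj) (bdA j hj) (bdB j hj)).trans (le_of_eq ?_)
      rw [← ga_r]
      ring

end Pool.Agent.V11112.SG
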