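import Pool.Agent.V11112.SG3

open Filter Topology
open scoped ENNReal NNReal

namespace Pool.Agent.V11112.SG

attribute [local instance] PiNat.metricSpace

/-- index set of the cover at stage `j` -/
abbrev Idx (j : ℕ) : Type := (Fin (s j) → Bool) × Bool × (Fin (j + 4) → Fin (r j + 1))

/-- pieces of the cover at stage `j` -/
def piece (j : ℕ) (i : Idx j) : Set (ℕ → Bool) :=
  {ε | (∀ a : Fin (s j), ε a = i.1 a) ∧
    ∀ k < r j, (ε (s j + k) = i.2.1 ↔ ∀ a, (i.2.2 a : ℕ) ≠ k)}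

/-- almost constant pure blocks -/
def FF (N : ℕ) : Set (ℕ → Bool) :=
  {ε | ∀ j, N ≤ j → (r j : ℤ) ≤ |SU ε j (r j)| + 2 * j + 8}

lemma piece_agree {j : ℕ} {i : Idx j} {ε δ : ℕ → Bool} (h1 : ε ∈ piece j i) (h2 : δ ∈ piece j i)
    (n : ℕ) (hn : n < s j + r j) : ε n = δ n := by
  by_cases h : n < s j
  · have a1 := h1.1 ⟨n, h⟩
    have a2 := h2.1 ⟨n, h⟩
    simp only at a1 a2
    rw [a1, a2]
  · obtain ⟨k, rfl⟩ := Nat.exists_eq_add_of_le (show s j ≤ n by omega)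
    have a1 := h1.2 k (by omega)
    have a2 := h2.2 k (by omega)
    have a3 : ε (s j + k) = i.2.1 ↔ δ (s j + k) = i.2.1 := a1.trans a2.symm
    cases e1 : ε (s j + k) <;> cases e2 : δ (s j + k) <;> cases e3 : i.2.1 <;> simp_all

lemma piece_diam (j : ℕ) (i : Idx j) :
    Metric.ediam (piece j i) ≤ ENNReal.ofReal ((1 / 2) ^ (s j + r j)) := by
  apply Metric.ediam_le
  intro ε hε δ hδ
  rw [edist_dist]
  apply ENNReal.ofReal_le_ofReal
  rw [← PiNat.mem_cylinder_iff_dist_le]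
  intro n hn
  exact piece_agree hε hδ n hn

lemma enum_finset (M : Finset ℕ) (n d : ℕ) (hM : M.card ≤ n) :
    ∃ g : Fin n → ℕ, (∀ k ∈ M, ∃ i, g i = k) ∧ ∀ i, g i ∈ M ∨ g i = d := by
  refine ⟨fun i => if h : i.1 < M.card then (M.equivFin.symm ⟨i.1, h⟩ : ℕ) else d, ?_, ?_⟩
  · intro k hk
    refine ⟨⟨(M.equivFin ⟨k, hk⟩ : ℕ), by
      have := (M.equivFin ⟨k, hk⟩).2
      omega⟩, ?_⟩
    simp
  · intro i
    by_cases h : i.1 < M.card
    · left
      simp only [h, dif_pos]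
      exact (M.equivFin.symm ⟨i.1, h⟩).2
    · right
      simp [h]

lemma sg_mul_sum (e : ℕ → Bool) (b : Bool) (n : ℕ) :
    sg b * ∑ k ∈ Finset.range n, sg (e k) =
      (n : ℤ) - 2 * (((Finset.range n).filter (fun k => e k ≠ b)).card : ℤ) := by
  rw [Finset.card_filter, Finset.mul_sum]
  push_cast
  rw [Finset.mul_sum]
  have h1 : (n : ℤ) = ∑ k ∈ Finset.range n, (1 : ℤ) := by simp
  conv_rhs => rw [h1]
  rw [← Finset.sum_sub_distrib]
  apply Finset.sum_congr rfl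
  intro k _
  cases e k <;> cases b <;> simp [sg]

lemma cover (N j : ℕ) (hj : N ≤ j) : FF N ⊆ ⋃ i, piece j i := by
  intro ε hε
  have h1 := hε j hj
  obtain ⟨b, hb⟩ : ∃ b : Bool, sg b * SU ε j (r j) = |SU ε j (r j)| := by
    rcases le_total 0 (SU ε j (r j)) with h | h
    · exact ⟨true, by rw [abs_of_nonneg h]; simp [sg]⟩
    · exact ⟨false, by rw [abs_of_nonpos h]; simp [sg]⟩
  have h2 := sg_mul_sum (fun k => ε (s j + k)) b (r j)
  obtain ⟨M, hM⟩ : ∃ M : Finset ℕ, M = (Finset.range (r j)).filter (fun k => ε (s j + k) ≠ b) :=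
    ⟨_, rfl⟩
  have h3 : M.card ≤ j + 4 := by
    have h4 : (r j : ℤ) - 2 * (M.card : ℤ) = |SU ε j (r j)| := by
      rw [← hb, hM]
      exact h2.symm
    omega
  obtain ⟨g, hg1, hg2⟩ := enum_finset M (j + 4) (r j) h3
  have hg3 : ∀ i, g i < r j + 1 := by
    intro i
    rcases hg2 i with h | h
    · rw [hM, Finset.mem_filter, Finset.mem_range] at h
      omega
    · omega
  refine Set.mem_iUnion.2 ⟨(fun a => ε a, b, fun i => ⟨g i, hg3 i⟩), fun a => rfl, ?_⟩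
  intro k hk
  constructor
  · intro h a ha
    simp only at ha h
    rcases hg2 a with h5 | h5
    · rw [ha, hM, Finset.mem_filter] at h5
      exact h5.2 h
    · omega
  · intro h
    by_contra hc
    obtain ⟨a, ha⟩ := hg1 k (by
      rw [hM, Finset.mem_filter, Finset.mem_range]
      exact ⟨hk, hc⟩)
    exact h a ha

lemma card_idx (j : ℕ) : Fintype.card (Idx j) ≤ 2 ^ (3 * (s j + 2 * j + 20) ^ 2) := by
  have h1 : Fintype.card (Idx j) = 2 ^ (s j) * (2 * (r j + 1) ^ (j + 4)) := by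
    simp [Idx]
  rw [h1]
  obtain ⟨K, hK⟩ : ∃ K, K = s j + 2 * j + 20 := ⟨_, rfl⟩
  have h2 : r j + 1 ≤ 2 ^ (K + 1) := by
    rw [r_def, ← hK, pow_succ]
    have : 1 ≤ 2 ^ K := Nat.one_le_two_pow
    omega
  rw [← hK]
  calc 2 ^ (s j) * (2 * (r j + 1) ^ (j + 4))
      ≤ 2 ^ (s j) * (2 * (2 ^ (K + 1)) ^ (j + 4)) := by gcongr
    _ = 2 ^ (s j + 1 + (K + 1) * (j + 4)) := by rw [← pow_mul, pow_add, pow_add]; ring
    _ ≤ 2 ^ (3 * K ^ 2) := by
        apply Nat.pow_le_pow_right (by norm_num)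
        have h3 : s j + 1 ≤ K := by omega
        have h4 : j + 4 ≤ K := by omega
        have h5 : (K + 1) * (j + 4) ≤ (2 * K) * K := Nat.mul_le_mul (by omega) h4
        nlinarith

lemma expo_tendsto {d : ℝ} (hd : 0 < d) :
    Tendsto (fun K : ℕ => 3 * (K : ℝ) ^ 2 - 2 ^ K * d) atTop atBot := by
  have h1 : Tendsto (fun K : ℕ => (K : ℝ) ^ 2 / 2 ^ K) atTop (𝓝 0) :=
    tendsto_pow_const_div_const_pow_of_one_lt 2 (by norm_num)
  have h2 : Tendsto (fun K : ℕ => 3 * ((K : ℝ) ^ 2 / 2 ^ K) - d) atTop (𝓝 (3 * 0 - d)) :=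
    (h1.const_mul 3).sub_const d
  have h3 : Tendsto (fun K : ℕ => (2 : ℝ) ^ K) atTop atTop :=
    tendsto_pow_atTop_atTop_of_one_lt (by norm_num)
  have h4 := h3.atTop_mul_neg (by linarith : 3 * 0 - d < 0) h2
  refine h4.congr (fun K => ?_)
  have : (2 : ℝ) ^ K ≠ 0 := by positivity
  field_simp

lemma K_tendsto : Tendsto (fun j => s j + 2 * j + 20) atTop atTop :=
  tendsto_atTop_mono (fun j => by show j ≤ s j + 2 * j + 20; omega) tendsto_id

lemma sum_tendsto {d : ℝ} (hd : 0 < d) :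
    Tendsto (fun j => (Fintype.card (Idx j) : ℝ≥0∞) *
      (ENNReal.ofReal ((1 / 2) ^ (s j + r j))) ^ d) atTop (𝓝 0) := by
  have h1 : Tendsto (fun j => (2 : ℝ≥0∞) ^ (3 * ((s j + 2 * j + 20 : ℕ) : ℝ) ^ 2
      - 2 ^ (s j + 2 * j + 20) * d)) atTop (𝓝 0) :=
    (ENNReal.tendsto_rpow_atBot_of_one_lt_base (by norm_num)).comp
      ((expo_tendsto hd).comp K_tendsto)
  refine tendsto_of_tendsto_of_tendsto_of_le_of_le tendsto_const_nhds h1
    (fun j => by simp) (fun j => ?_)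
  simp only
  obtain ⟨K, hK⟩ : ∃ K, K = s j + 2 * j + 20 := ⟨_, rfl⟩
  have h2 : (Fintype.card (Idx j) : ℝ≥0∞) ≤ (2 : ℝ≥0∞) ^ (3 * (K : ℝ) ^ 2) := by
    have h3 := card_idx j
    rw [← hK] at h3
    have h4 : (Fintype.card (Idx j) : ℝ≥0∞) ≤ ((2 ^ (3 * K ^ 2) : ℕ) : ℝ≥0∞) := by
      exact_mod_cast h3
    refine h4.trans (le_of_eq ?_)
    push_cast
    rw [← ENNReal.rpow_natCast]
    push_cast
    rfl
  have h3 : (ENNReal.ofReal ((1 / 2) ^ (s j + r j))) ^ d ≤ (2 : ℝ≥0∞) ^ (- ((2 : ℝ) ^ K * d)) := by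
    have h4 : ENNReal.ofReal ((1 / 2) ^ (s j + r j)) ≤ (2 : ℝ≥0∞) ^ (- (2 : ℝ) ^ K) := by
      have h5 : ENNReal.ofReal ((1 / 2) ^ (s j + r j)) ≤ ENNReal.ofReal ((1 / 2) ^ (r j)) := by
        apply ENNReal.ofReal_le_ofReal
        apply pow_le_pow_of_le_one (by norm_num) (by norm_num)
        omega
      refine h5.trans (le_of_eq ?_)
      rw [ENNReal.ofReal_pow (by norm_num), ENNReal.rpow_neg]
      have h6 : ENNReal.ofReal (1 / 2) = (2 : ℝ≥0∞)⁻¹ := by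
        rw [one_div, ENNReal.ofReal_inv_of_pos (by norm_num)]
        simp
      rw [h6, ← ENNReal.inv_pow]
      congr 1
      have h7 : ((2 : ℝ) ^ K) = ((r j : ℕ) : ℝ) := by
        rw [r_def, ← hK]
        push_cast
        rfl
      rw [h7, ENNReal.rpow_natCast]
    calc (ENNReal.ofReal ((1 / 2) ^ (s j + r j))) ^ d
        ≤ ((2 : ℝ≥0∞) ^ (- (2 : ℝ) ^ K)) ^ d := ENNReal.rpow_le_rpow h4 hd.le
      _ = (2 : ℝ≥0∞) ^ (- ((2 : ℝ) ^ K * d)) := by
        rw [← ENNReal.rpow_mul]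
        congr 1
        ring
  rw [← hK]
  calc (Fintype.card (Idx j) : ℝ≥0∞) * (ENNReal.ofReal ((1 / 2) ^ (s j + r j))) ^ d
      ≤ (2 : ℝ≥0∞) ^ (3 * (K : ℝ) ^ 2) * (2 : ℝ≥0∞) ^ (- ((2 : ℝ) ^ K * d)) := mul_le_mul' h2 h3
    _ = (2 : ℝ≥0∞) ^ (3 * (K : ℝ) ^ 2 - 2 ^ K * d) := by
        rw [← ENNReal.rpow_add _ _ (by norm_num) (by norm_num), sub_eq_add_neg]

lemma meas_FF (N : ℕ) {d : ℝ≥0} (hd : 0 < d) :
    MeasureTheory.Measure.hausdorffMeasure (X := ℕ → Bool) d (FF N) = 0 := by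
  have hd' : (0 : ℝ) < d := by exact_mod_cast hd
  have hr : Tendsto (fun j => ENNReal.ofReal ((1 / 2) ^ (s j + r j))) atTop (𝓝 0) := by
    rw [← ENNReal.ofReal_zero]
    apply (ENNReal.continuous_ofReal.tendsto 0).comp
    apply (tendsto_pow_atTop_nhds_zero_of_lt_one (by norm_num) (by norm_num)).comp
    exact tendsto_atTop_mono (fun j => by
      have := r_big j
      show j ≤ s j + r j
      omega) tendsto_id
  have h1 := MeasureTheory.Measure.hausdorffMeasure_le_liminf_sum (d : ℝ) (FF N) (l := atTop)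
    (fun j => ENNReal.ofReal ((1 / 2) ^ (s j + r j))) hr (fun j i => piece j i)
    (Eventually.of_forall fun j i => piece_diam j i)
    (by filter_upwards [eventually_ge_atTop N] with j hj using cover N j hj)
  have h2 : liminf (fun j => ∑ i, Metric.ediam (piece j i) ^ (d : ℝ)) atTop ≤ 0 := by
    have h3 : liminf (fun j => (Fintype.card (Idx j) : ℝ≥0∞) *
      (ENNReal.ofReal ((1 / 2) ^ (s j + r j))) ^ (d : ℝ)) atTop = 0 :=
      (sum_tendsto hd').liminf_eq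
    rw [← h3]
    refine liminf_le_liminf ?_
    · filter_upwards with j
      calc ∑ i, Metric.ediam (piece j i) ^ (d : ℝ)
          ≤ ∑ i : Idx j, (ENNReal.ofReal ((1 / 2) ^ (s j + r j))) ^ (d : ℝ) := by
            apply Finset.sum_le_sum
            intro i _
            exact ENNReal.rpow_le_rpow (piece_diam j i) hd'.le
        _ = _ := by
            rw [Finset.sum_const, Finset.card_univ, nsmul_eq_mul]
  exact le_antisymm (h1.trans h2) (zero_le)

lemma dimH_FF (N : ℕ) : dimH (FF N) = 0 := by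
  rw [← nonpos_iff_eq_zero]
  apply le_of_forall_gt
  intro c hc
  obtain ⟨d, hd1, hd2⟩ := ENNReal.lt_iff_exists_nnreal_btwn.1 hc
  refine lt_of_le_of_lt ?_ hd2
  apply dimH_le_of_hausdorffMeasure_ne_top
  have hd0 : 0 < d := by exact_mod_cast hd1
  have := meas_FF N hd0
  rw [this]
  simp

/-- the set of sign choices with the special sum has dimension zero -/
theorem dimH_special {E : Set (ℕ → Bool)}
    (hE : ∀ ε ∈ E, Tendsto (PS (cat xt) ε) atTop (𝓝 0) ∧ Tendsto (PS (cat yt) ε) atTop (𝓝 y0)) :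
    dimH E = 0 := by
  have h1 : E ⊆ ⋃ N, FF N := by
    intro ε hε
    obtain ⟨hx, hy⟩ := hE ε hε
    obtain ⟨N, hN⟩ := eventually_atTop.1 (minority ε hx hy)
    exact Set.mem_iUnion.2 ⟨N, fun j hj => hN j hj⟩
  have h2 := dimH_mono h1
  rw [dimH_iUnion] at h2
  simp only [dimH_FF, ENNReal.iSup_zero] at h2
  exact le_antisymm h2 (zero_le)

end Pool.Agent.V11112.SG
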