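import Mathlib

/-!
Separated and spanning sets for a homeomorphism of a compact metric space.
-/

open Filter Topology

namespace Pool.Agent.V11112.TE

section Defs

variable {X : Type*} [MetricSpace X] (F : X ≃ₜ X)

/-- `D_T(x,y) = max_{0 ≤ t ≤ T-1} D(F^t x, F^t y)` (for `T ≥ 1`) -/
noncomputable def orbitDist (T : ℕ) (x y : X) : ℝ := ⨆ t : Fin T, dist (F^[t] x) (F^[t] y)

/-- the largest size of a finite set which is `ε`-separated for `D_T` -/
noncomputable def sep (ε : ℝ) (T : ℕ) : ℕ :=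
  sSup {n : ℕ | ∃ S : Finset X, S.card = n ∧ ∀ x ∈ S, ∀ y ∈ S, x ≠ y → ε ≤ orbitDist F T x y}

/-- the smallest size of a finite set which is `ε`-spanning for `D_T` -/
noncomputable def span (ε : ℝ) (T : ℕ) : ℕ :=
  sInf {n : ℕ | ∃ S : Finset X, S.card = n ∧ ∀ x : X, ∃ s ∈ S, orbitDist F T s x < ε}

/-- lower exponential growth rate of `sep` -/
noncomputable def lowerSep (ε : ℝ) : ℝ :=
  liminf (fun T : ℕ => Real.log (sep F ε T) / T) atTop

/-- upper exponential growth rate of `sep` -/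
noncomputable def upperSep (ε : ℝ) : ℝ :=
  limsup (fun T : ℕ => Real.log (sep F ε T) / T) atTop

/-- lower exponential growth rate of `span` -/
noncomputable def lowerSpan (ε : ℝ) : ℝ :=
  liminf (fun T : ℕ => Real.log (span F ε T) / T) atTop

/-- upper exponential growth rate of `span` -/
noncomputable def upperSpan (ε : ℝ) : ℝ :=
  limsup (fun T : ℕ => Real.log (span F ε T) / T) atTop

/-- the topological entropy of `F` is the real number `h`: `upperSep F ε → h` as `ε → 0+` -/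
def HasEntropy (h : ℝ) : Prop := Tendsto (fun ε : ℝ => upperSep F ε) (𝓝[>] 0) (𝓝 h)

/-- some point has a dense forward orbit -/
def Transitive : Prop := ∃ x : X, Dense (Set.range (fun n : ℕ => F^[n] x))

end Defs

section Basic

variable {X : Type*} [MetricSpace X] {F : X ≃ₜ X}

theorem le_orbitDist {T : ℕ} (hT : 1 ≤ T) {x y : X} {ε : ℝ} :
    ε ≤ orbitDist F T x y ↔ ∃ t : ℕ, t < T ∧ ε ≤ dist (F^[t] x) (F^[t] y) := by
  haveI : Nonempty (Fin T) := ⟨⟨0, hT⟩⟩
  unfold orbitDist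
  constructor
  · intro h
    obtain ⟨t, ht⟩ := exists_eq_ciSup_of_finite (f := fun t : Fin T => dist (F^[t] x) (F^[t] y))
    exact ⟨t, t.2, by rw [ht]; exact h⟩
  · rintro ⟨t, ht, h⟩
    exact h.trans (le_ciSup (f := fun t : Fin T => dist (F^[t] x) (F^[t] y))
      (Set.finite_range _).bddAbove ⟨t, ht⟩)

theorem orbitDist_lt {T : ℕ} (hT : 1 ≤ T) {x y : X} {ε : ℝ} :
    orbitDist F T x y < ε ↔ ∀ t : ℕ, t < T → dist (F^[t] x) (F^[t] y) < ε := by
  rw [← not_le, le_orbitDist hT]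
  push Not
  rfl

theorem sep_le {ε : ℝ} {T N : ℕ}
    (h : ∀ S : Finset X, (∀ x ∈ S, ∀ y ∈ S, x ≠ y → ε ≤ orbitDist F T x y) → S.card ≤ N) :
    sep F ε T ≤ N := by
  unfold sep
  apply csSup_le
  · exact ⟨0, ∅, by simp, by simp⟩
  · rintro n ⟨S, rfl, hS⟩
    exact h S hS

theorem le_sep {ε : ℝ} {T N : ℕ}
    (h : ∀ S : Finset X, (∀ x ∈ S, ∀ y ∈ S, x ≠ y → ε ≤ orbitDist F T x y) → S.card ≤ N)
    {S : Finset X} (hS : ∀ x ∈ S, ∀ y ∈ S, x ≠ y → ε ≤ orbitDist F T x y) :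
    S.card ≤ sep F ε T := by
  unfold sep
  apply le_csSup
  · exact ⟨N, by rintro n ⟨S, rfl, hS⟩; exact h S hS⟩
  · exact ⟨S, rfl, hS⟩

theorem span_le {ε : ℝ} {T : ℕ} {S : Finset X} (hS : ∀ x : X, ∃ s ∈ S, orbitDist F T s x < ε) :
    span F ε T ≤ S.card := by
  unfold span
  exact Nat.sInf_le ⟨S, rfl, hS⟩

theorem le_span {ε : ℝ} {T N : ℕ} {S0 : Finset X}
    (hS0 : ∀ x : X, ∃ s ∈ S0, orbitDist F T s x < ε)
    (h : ∀ S : Finset X, (∀ x : X, ∃ s ∈ S, orbitDist F T s x < ε) → N ≤ S.card) :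
    N ≤ span F ε T := by
  unfold span
  apply le_csInf
  · exact ⟨_, S0, rfl, hS0⟩
  · rintro n ⟨S, rfl, hS⟩
    exact h S hS

/-- a maximal separated set is spanning -/
theorem exists_spanning {ε : ℝ} {T N : ℕ} (hε : 0 < ε)
    (h : ∀ S : Finset X, (∀ x ∈ S, ∀ y ∈ S, x ≠ y → ε ≤ orbitDist F T x y) → S.card ≤ N) :
    ∃ S : Finset X, (∀ x : X, ∃ s ∈ S, orbitDist F T s x < ε) ∧ S.card ≤ sep F ε T := by
  classical
  have hbdd : BddAbove {n : ℕ | ∃ S : Finset X, S.card = n ∧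
      ∀ x ∈ S, ∀ y ∈ S, x ≠ y → ε ≤ orbitDist F T x y} :=
    ⟨N, by rintro n ⟨S, rfl, hS⟩; exact h S hS⟩
  have hmem := Nat.sSup_mem (s := {n : ℕ | ∃ S : Finset X, S.card = n ∧
      ∀ x ∈ S, ∀ y ∈ S, x ≠ y → ε ≤ orbitDist F T x y}) ⟨0, ∅, by simp, by simp⟩ hbdd
  obtain ⟨S, hS1, hS2⟩ := hmem
  have hself : ∀ x : X, orbitDist F T x x = 0 := by
    intro x; unfold orbitDist; simp
  have hsymm : ∀ x y : X, orbitDist F T x y = orbitDist F T y x := by
    intro x y; unfold orbitDist; simp only [dist_comm]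
  refine ⟨S, fun x => ?_, hS1.le⟩
  by_contra hc
  push Not at hc
  have hx : x ∉ S := by
    intro hx
    have := hc x hx
    rw [hself] at this
    linarith
  have hbig : (insert x S).card ≤ sep F ε T := by
    refine le_sep h ?_
    intro a ha b hb hab
    rw [Finset.mem_insert] at ha hb
    rcases ha with ha | ha <;> rcases hb with hb | hb
    · exact absurd (ha.trans hb.symm) hab
    · rw [ha, hsymm]; exact hc b hb
    · rw [hb]; exact hc a ha
    · exact hS2 a ha b hb hab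
  rw [Finset.card_insert_of_notMem hx] at hbig
  unfold sep at hbig
  omega

theorem span_le_sep {ε : ℝ} {T N : ℕ} (hε : 0 < ε)
    (h : ∀ S : Finset X, (∀ x ∈ S, ∀ y ∈ S, x ≠ y → ε ≤ orbitDist F T x y) → S.card ≤ N) :
    span F ε T ≤ sep F ε T := by
  obtain ⟨S, hS, hc⟩ := exists_spanning hε h
  exact (span_le hS).trans hc

end Basic

end Pool.Agent.V11112.TE
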