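import Mathlib

/-!
A recurrent sequence containing prescribed finite blocks separated by long gaps.
-/

namespace Pool.Agent.V11112.TE

/-- lengths of the stages -/
def len (b : ℕ → ℕ) : ℕ → ℕ
  | 0 => 0
  | k + 1 => 2 * len b k + 2 * (2 * len b k + b k + k + 1) + b k

/-- the gap used at stage `k` -/
def gap (b : ℕ → ℕ) (k : ℕ) : ℕ := 2 * len b k + b k + k + 1

theorem len_succ (b : ℕ → ℕ) (k : ℕ) : len b (k + 1) = 2 * len b k + 2 * gap b k + b k := rfl

theorem gap_mono (b : ℕ → ℕ) (k : ℕ) : len b k + gap b k ≤ len b (k + 1) + gap b (k + 1) := by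
  rw [len_succ]; omega

theorem len_le_len_succ (b : ℕ → ℕ) (k : ℕ) : len b k ≤ len b (k + 1) := by
  rw [len_succ]; omega

theorem gap_le_gap_succ (b : ℕ → ℕ) (k : ℕ) : gap b k ≤ gap b (k + 1) := by
  unfold gap
  rw [len_succ]
  unfold gap
  omega

variable {A : Type*} (Bf : ℕ → ℤ → Option A) (b : ℕ → ℕ)

/-- the stages: `stage (k+1)` is `stage k`, gap, block `k`, gap, `stage k` -/
def stage : ℕ → ℤ → Option A
  | 0 => fun _ => none
  | k + 1 => fun i =>
      if i < (len b k : ℤ) + gap b k then stage k i
      else if i < (len b k : ℤ) + 2 * gap b k + b k then Bf k (i - (len b k + gap b k))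
      else stage k (i - (len b k + 2 * gap b k + b k))

variable {Bf b}

theorem stage_lt {k : ℕ} {i : ℤ} (h : i < (len b k : ℤ) + gap b k) :
    stage Bf b (k + 1) i = stage Bf b k i := by
  simp only [stage]; rw [if_pos h]

theorem stage_mid {k : ℕ} {i : ℤ} (h : (len b k : ℤ) + gap b k ≤ i)
    (h2 : i < (len b k : ℤ) + 2 * gap b k + b k) :
    stage Bf b (k + 1) i = Bf k (i - (len b k + gap b k)) := by
  simp only [stage]; rw [if_neg (not_lt.2 h), if_pos h2]

theorem stage_gt {k : ℕ} {i : ℤ} (h2 : (len b k : ℤ) + 2 * gap b k + b k ≤ i) :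
    stage Bf b (k + 1) i = stage Bf b k (i - (len b k + 2 * gap b k + b k)) := by
  simp only [stage]; rw [if_neg (not_lt.2 (by linarith)), if_neg (not_lt.2 h2)]

/-- blocks are supported in `[0, b k)` -/
def Supp (Bf : ℕ → ℤ → Option A) (b : ℕ → ℕ) : Prop :=
  ∀ k i, (i < 0 ∨ (b k : ℤ) ≤ i) → Bf k i = none

theorem stage_supp (hB : Supp Bf b) : ∀ k i, (i < 0 ∨ (len b k : ℤ) ≤ i) →
    stage Bf b k i = none := by
  intro k
  induction k with
  | zero => intro i _; rfl
  | succ k ih =>
    intro i hi
    by_cases h1 : i < (len b k : ℤ) + gap b k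
    · rw [stage_lt h1]
      apply ih
      rcases hi with hi | hi
      · exact Or.inl hi
      · right
        have := len_le_len_succ b k
        have : (len b k : ℤ) ≤ len b (k + 1) := by exact_mod_cast this
        linarith
    · push Not at h1
      have h0 : ¬ i < 0 := by
        have h5 : (0 : ℤ) ≤ len b k := Int.natCast_nonneg _
        have h6 : (0 : ℤ) ≤ gap b k := Int.natCast_nonneg _
        omega
      have hi' : (len b (k + 1) : ℤ) ≤ i := by
        rcases hi with hi | hi
        · exact absurd hi h0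
        · exact hi
      rw [len_succ] at hi'
      push_cast at hi'
      by_cases h2 : i < (len b k : ℤ) + 2 * gap b k + b k
      · exfalso
        have h5 : (0 : ℤ) ≤ len b k := Int.natCast_nonneg _
        omega
      · push Not at h2
        rw [stage_gt h2]
        apply ih
        right
        linarith

theorem stage_stable {k : ℕ} {i : ℤ} (h : i < (len b k : ℤ) + gap b k) :
    ∀ K, k ≤ K → stage Bf b K i = stage Bf b k i := by
  intro K hK
  induction K, hK using Nat.le_induction with
  | base => rfl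
  | succ K hK ih =>
    rw [stage_lt, ih]
    have : ∀ K, k ≤ K → len b k + gap b k ≤ len b K + gap b K := by
      intro K hK
      induction K, hK using Nat.le_induction with
      | base => exact le_rfl
      | succ K hK ih => exact ih.trans (gap_mono b K)
    have := this K hK
    have : (len b k : ℤ) + gap b k ≤ len b K + gap b K := by exact_mod_cast this
    linarith

variable (Bf b)

/-- the limit sequence -/
def lim (i : ℤ) : Option A := stage Bf b i.toNat i

variable {Bf b}

theorem lim_eq {k : ℕ} {i : ℤ} (h : i < (len b k : ℤ) + gap b k) :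
    lim Bf b i = stage Bf b k i := by
  have h1 : i < (len b i.toNat : ℤ) + gap b i.toNat := by
    have : (i.toNat : ℤ) < gap b i.toNat := by unfold gap; push_cast; linarith [Int.natCast_nonneg (len b i.toNat), Int.natCast_nonneg (b i.toNat)]
    have h2 : i ≤ i.toNat := Int.self_le_toNat i
    linarith [Int.natCast_nonneg (len b i.toNat)]
  unfold lim
  rw [← stage_stable h (max k i.toNat) (le_max_left _ _),
    ← stage_stable h1 (max k i.toNat) (le_max_right _ _)]

theorem lim_neg {i : ℤ} (h : i < 0) : lim Bf b i = none := by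
  rw [lim_eq (k := 0) (by unfold gap; push_cast; linarith [Int.natCast_nonneg (len b 0), Int.natCast_nonneg (b 0)])]
  rfl

/-- the window of length `T` of `z` at `p` agrees with the window of `y` at `q` -/
def Same (T : ℕ) (z : ℤ → Option A) (p : ℤ) (y : ℤ → Option A) (q : ℤ) : Prop :=
  ∀ t : ℤ, 0 ≤ t → t < T → z (p + t) = y (q + t)

theorem Same.trans {T : ℕ} {z y w : ℤ → Option A} {p q r : ℤ} (h1 : Same T z p y q)
    (h2 : Same T y q w r) : Same T z p w r :=
  fun t h0 h => (h1 t h0 h).trans (h2 t h0 h)

theorem stage_window (hB : Supp Bf b) {T k : ℕ} (hT : T ≤ gap b k) (p : ℤ) :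
    (∃ q, Same T (stage Bf b (k + 1)) p (stage Bf b k) q) ∨
      ∃ q, Same T (stage Bf b (k + 1)) p (Bf k) q := by
  have hT' : (T : ℤ) ≤ gap b k := by exact_mod_cast hT
  have hl : (0 : ℤ) ≤ len b k := Int.natCast_nonneg _
  have hb : (0 : ℤ) ≤ b k := Int.natCast_nonneg _
  by_cases h1 : p ≤ len b k
  · left
    refine ⟨p, fun t h0 ht => ?_⟩
    exact stage_lt (by linarith)
  · push Not at h1
    by_cases h2 : p ≤ (len b k : ℤ) + gap b k + b k
    · right
      refine ⟨p - (len b k + gap b k), fun t h0 ht => ?_⟩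
      by_cases h3 : p + t < (len b k : ℤ) + gap b k
      · rw [stage_lt h3, stage_supp hB _ _ (Or.inr (by linarith)), hB k _ (Or.inl (by linarith))]
      · push Not at h3
        rw [stage_mid h3 (by linarith)]
        congr 1
        ring
    · left
      push Not at h2
      refine ⟨p - (len b k + 2 * gap b k + b k), fun t h0 ht => ?_⟩
      by_cases h3 : p + t < (len b k : ℤ) + 2 * gap b k + b k
      · rw [stage_mid (by linarith) h3, hB k _ (Or.inr (by linarith)),
          stage_supp hB _ _ (Or.inl (by linarith))]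
      · push Not at h3
        rw [stage_gt h3]
        congr 1
        ring

theorem lim_window (hB : Supp Bf b) {T k : ℕ} (hT : T ≤ gap b k) (p : ℤ) :
    (∃ q, Same T (lim Bf b) p (stage Bf b k) q) ∨ ∃ j q, Same T (lim Bf b) p (Bf j) q := by
  have key : ∀ K, k ≤ K → ∀ p, (∃ q, Same T (stage Bf b K) p (stage Bf b k) q) ∨
      ∃ j q, Same T (stage Bf b K) p (Bf j) q := by
    intro K hK
    induction K, hK using Nat.le_induction with
    | base => intro p; exact Or.inl ⟨p, fun _ _ _ => rfl⟩
    | succ K hK ih =>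
      intro p
      have hg : ∀ K, k ≤ K → T ≤ gap b K := by
        intro K hK
        induction K, hK using Nat.le_induction with
        | base => exact hT
        | succ K hK ih => exact ih.trans (gap_le_gap_succ b K)
      rcases stage_window hB (hg K hK) p with ⟨q, hq⟩ | ⟨q, hq⟩
      · rcases ih q with ⟨r, hr⟩ | ⟨j, r, hr⟩
        · exact Or.inl ⟨r, hq.trans hr⟩
        · exact Or.inr ⟨j, r, hq.trans hr⟩
      · exact Or.inr ⟨K, q, hq⟩
  have hlim : ∃ K, k ≤ K ∧ Same T (lim Bf b) p (stage Bf b K) p := by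
    refine ⟨max k (p + T).toNat, le_max_left _ _, fun t h0 ht => ?_⟩
    apply lim_eq
    set K := max k (p + T).toNat with hK
    have h1 : p + T ≤ (p + T).toNat := Int.self_le_toNat _
    have h2 : ((p + T).toNat : ℤ) ≤ K := by exact_mod_cast le_max_right _ _
    have h3 : (K : ℤ) < gap b K := by
      unfold gap; push_cast
      linarith [Int.natCast_nonneg (len b K), Int.natCast_nonneg (b K)]
    linarith [Int.natCast_nonneg (len b K)]
  obtain ⟨K, hK, hs⟩ := hlim
  rcases key K hK p with ⟨q, hq⟩ | ⟨j, q, hq⟩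
  · exact Or.inl ⟨q, hs.trans hq⟩
  · exact Or.inr ⟨j, q, hs.trans hq⟩

/-- all windows are windows of a block, up to at most `4 T + 1` exceptional ones -/
theorem window_structure (hB : Supp Bf b) (T : ℕ) :
    ∃ y : ℤ → Option A, ∀ p : ℤ,
      (∃ q : ℤ, -(T : ℤ) ≤ q ∧ q ≤ 3 * T ∧ Same T (lim Bf b) p y q) ∨
        ∃ j q, Same T (lim Bf b) p (Bf j) q := by
  have hex : ∃ k, T ≤ gap b k := ⟨T, by unfold gap; omega⟩
  classical
  let k := Nat.find hex
  have hk : T ≤ gap b k := Nat.find_spec hex
  have hlen : len b k ≤ 3 * T := by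
    rcases Nat.eq_zero_or_pos k with h0 | h0
    · rw [h0]; simp [len]
    · obtain ⟨m, hm⟩ : ∃ m, k = m + 1 := ⟨k - 1, by omega⟩
      have hlt : ¬ T ≤ gap b m := Nat.find_min hex (by omega)
      push Not at hlt
      rw [hm, len_succ]
      have : 2 * len b m + b m ≤ gap b m := by unfold gap; omega
      omega
  have hlen' : (len b k : ℤ) ≤ 3 * T := by exact_mod_cast hlen
  refine ⟨stage Bf b k, fun p => ?_⟩
  rcases lim_window hB hk p with ⟨q, hq⟩ | h
  · left
    by_cases h1 : q < -(T : ℤ)
    · refine ⟨-(T : ℤ), le_rfl, by linarith [Int.natCast_nonneg T], hq.trans ?_⟩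
      intro t h0 ht
      rw [stage_supp hB _ _ (Or.inl (by linarith)), stage_supp hB _ _ (Or.inl (by linarith))]
    · push Not at h1
      by_cases h2 : q ≤ len b k
      · exact ⟨q, h1, h2.trans hlen', hq⟩
      · push Not at h2
        refine ⟨len b k, by linarith [Int.natCast_nonneg T, Int.natCast_nonneg (len b k)], hlen',
          hq.trans ?_⟩
        intro t h0 ht
        rw [stage_supp hB _ _ (Or.inr (by linarith)), stage_supp hB _ _ (Or.inr (by linarith))]
  · exact Or.inr h

/-- windows of blocks occur in the limit -/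
theorem block_window (hB : Supp Bf b) {T j : ℕ} (hT : T ≤ gap b j) {q : ℤ}
    (h1 : -(T : ℤ) ≤ q) (h2 : q ≤ b j) : ∃ n : ℕ, Same T (Bf j) q (lim Bf b) n := by
  have hT' : (T : ℤ) ≤ gap b j := by exact_mod_cast hT
  have hl : (0 : ℤ) ≤ len b j := Int.natCast_nonneg _
  have hn : 0 ≤ (len b j : ℤ) + gap b j + q := by linarith
  refine ⟨((len b j : ℤ) + gap b j + q).toNat, fun t h0 ht => ?_⟩
  rw [Int.toNat_of_nonneg hn]
  have h5 : (len b j : ℤ) + gap b j + q + t < (len b j : ℤ) + 2 * gap b j + b j := by linarith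
  rw [lim_eq (k := j + 1) (by rw [len_succ]; push_cast; linarith [Int.natCast_nonneg (gap b (j + 1))])]
  by_cases h3 : (len b j : ℤ) + gap b j + q + t < (len b j : ℤ) + gap b j
  · rw [stage_lt h3, stage_supp hB _ _ (Or.inr (by linarith)), hB j _ (Or.inl (by linarith))]
  · push Not at h3
    rw [stage_mid h3 h5]
    congr 1
    ring

/-- the limit is recurrent -/
theorem lim_recurrent (hB : Supp Bf b) (m : ℕ) :
    ∃ n : ℕ, m ≤ n ∧ ∀ i : ℤ, -(m : ℤ) ≤ i → i ≤ m → lim Bf b i = lim Bf b (n + i) := by
  have hg : (m : ℤ) < gap b m := by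
    unfold gap; push_cast
    linarith [Int.natCast_nonneg (len b m), Int.natCast_nonneg (b m)]
  have hl : (0 : ℤ) ≤ len b m := Int.natCast_nonneg _
  have hb : (0 : ℤ) ≤ b m := Int.natCast_nonneg _
  refine ⟨len b m + 2 * gap b m + b m, ?_, fun i h1 h2 => ?_⟩
  · have : m < gap b m := by exact_mod_cast hg
    omega
  · push_cast
    have hlt : (len b m : ℤ) + 2 * gap b m + b m + i < len b (m + 1) + gap b (m + 1) := by
      have h5 : gap b m ≤ gap b (m + 1) := gap_le_gap_succ b m
      have h5' : (gap b m : ℤ) ≤ gap b (m + 1) := by exact_mod_cast h5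
      rw [len_succ]; push_cast
      linarith
    rw [lim_eq hlt]
    by_cases h3 : i < 0
    · rw [lim_neg h3, stage_mid (by linarith) (by linarith), hB m _ (Or.inr (by linarith))]
    · push Not at h3
      rw [stage_gt (by linarith), lim_eq (k := m) (by linarith)]
      congr 1
      ring

/-- around every nonempty position a stage looks like the previous stage or like a block -/
theorem stage_zone (hB : Supp Bf b) {k : ℕ} {i0 : ℤ} (h : stage Bf b (k + 1) i0 ≠ none) :
    ∃ y : ℤ → Option A, (y = stage Bf b k ∨ y = Bf k) ∧ ∃ s lo hi : ℤ, lo < i0 ∧ i0 < hi ∧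
      stage Bf b (k + 1) lo = none ∧ stage Bf b (k + 1) hi = none ∧
      (∀ i, lo ≤ i → i ≤ hi → stage Bf b (k + 1) i = y (i - s)) ∧
      (∀ i, (i ≤ lo ∨ hi ≤ i) → y (i - s) = none) := by
  have hl : (0 : ℤ) ≤ len b k := Int.natCast_nonneg _
  have hb : (0 : ℤ) ≤ b k := Int.natCast_nonneg _
  have hg : (1 : ℤ) ≤ gap b k := by unfold gap; push_cast; linarith [Int.natCast_nonneg k]
  by_cases h1 : i0 < (len b k : ℤ) + gap b k
  · have h' := h
    rw [stage_lt h1] at h'
    have h2 : ¬ (i0 < 0 ∨ (len b k : ℤ) ≤ i0) := fun hc => h' (stage_supp hB _ _ hc)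
    push Not at h2
    refine ⟨_, Or.inl rfl, 0, -1, len b k, by linarith, h2.2, ?_, ?_, ?_, ?_⟩
    · exact stage_supp hB _ _ (Or.inl (by norm_num))
    · rw [stage_lt (by linarith)]; exact stage_supp hB _ _ (Or.inr le_rfl)
    · intro i _ h4
      rw [stage_lt (by linarith), sub_zero]
    · intro i hi
      apply stage_supp hB
      rcases hi with hi | hi
      · left; linarith
      · right; linarith
  · push Not at h1
    by_cases h2 : i0 < (len b k : ℤ) + 2 * gap b k + b k
    · have h' := h
      rw [stage_mid h1 h2] at h'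
      have h3 : ¬ (i0 - (len b k + gap b k) < 0 ∨ (b k : ℤ) ≤ i0 - (len b k + gap b k)) :=
        fun hc => h' (hB _ _ hc)
      push Not at h3
      refine ⟨_, Or.inr rfl, len b k + gap b k, len b k + gap b k - 1, len b k + gap b k + b k,
        by linarith, by linarith [h3.2], ?_, ?_, ?_, ?_⟩
      · rw [stage_lt (by linarith)]; exact stage_supp hB _ _ (Or.inr (by linarith))
      · rw [stage_mid (by linarith) (by linarith)]; exact hB _ _ (Or.inr (by linarith))
      · intro i h4 h5
        by_cases h6 : i < (len b k : ℤ) + gap b k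
        · rw [stage_lt h6, stage_supp hB _ _ (Or.inr (by linarith)), hB _ _ (Or.inl (by linarith))]
        · push Not at h6
          rw [stage_mid h6 (by linarith)]
      · intro i hi
        apply hB
        rcases hi with hi | hi
        · left; linarith
        · right; linarith
    · push Not at h2
      have h' := h
      rw [stage_gt h2] at h'
      have h3 : ¬ (i0 - (len b k + 2 * gap b k + b k) < 0 ∨
          (len b k : ℤ) ≤ i0 - (len b k + 2 * gap b k + b k)) :=
        fun hc => h' (stage_supp hB _ _ hc)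
      push Not at h3
      refine ⟨_, Or.inl rfl, len b k + 2 * gap b k + b k, len b k + 2 * gap b k + b k - 1,
        len b k + 2 * gap b k + b k + len b k,
        by linarith, by linarith [h3.2], ?_, ?_, ?_, ?_⟩
      · rw [stage_mid (by linarith) (by linarith)]; exact hB _ _ (Or.inr (by linarith))
      · rw [stage_gt (by linarith)]; exact stage_supp hB _ _ (Or.inr (by linarith))
      · intro i h4 h5
        by_cases h6 : i < (len b k : ℤ) + 2 * gap b k + b k
        · rw [stage_mid (by linarith) h6, hB _ _ (Or.inr (by linarith)),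
            stage_supp hB _ _ (Or.inl (by linarith))]
        · push Not at h6
          rw [stage_gt h6]
      · intro i hi
        apply stage_supp hB
        rcases hi with hi | hi
        · left; linarith
        · right; linarith

/-- every maximal run of `2 h` symbols of the first phase is repeated in the second phase after a
gap of length `h` -/
def Matched {V : Type*} (z : ℤ → Option (Bool × V)) : Prop :=
  ∀ (p : ℤ) (h : ℕ), 1 ≤ h → z p = none →
    (∀ t : ℤ, 1 ≤ t → t ≤ 2 * h → ∃ v, z (p + t) = some (false, v)) →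
    z (p + 2 * h + 1) = none →
    ∀ (t : ℤ) (v : V), 1 ≤ t → t ≤ 2 * h → z (p + t) = some (false, v) →
      z (p + 3 * h + t) = some (true, v)

theorem matched_of_zone {V : Type*} {z : ℤ → Option (Bool × V)}
    (hz : ∀ i0, z i0 ≠ none → ∃ y : ℤ → Option (Bool × V), Matched y ∧ ∃ s lo hi : ℤ,
      lo < i0 ∧ i0 < hi ∧ z lo = none ∧ z hi = none ∧
      (∀ i, lo ≤ i → i ≤ hi → z i = y (i - s)) ∧ (∀ i, (i ≤ lo ∨ hi ≤ i) → y (i - s) = none)) :
    Matched z := by
  intro p h hh hp hrun hend t v ht1 ht2 hv
  obtain ⟨v1, hv1⟩ := hrun 1 le_rfl (by have : (1 : ℤ) ≤ h := by exact_mod_cast hh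
                                        linarith)
  obtain ⟨y, hy, s, lo, hi, hlo, hhi, zlo, zhi, heq, hout⟩ := hz (p + 1) (by rw [hv1]; simp)
  have hplo : lo ≤ p := by linarith
  have hphi : p + 2 * h + 1 ≤ hi := by
    by_contra hc
    push Not at hc
    obtain ⟨v', hv'⟩ := hrun (hi - p) (by linarith) (by linarith)
    rw [show p + (hi - p) = hi by ring, zhi] at hv'
    simp at hv'
  have hh' : (1 : ℤ) ≤ h := by exact_mod_cast hh
  have e0 := heq p hplo (by linarith)
  have e1 := heq (p + 2 * h + 1) (by linarith) hphi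
  have e2 := heq (p + t) (by linarith) (by linarith)
  have concl := hy (p - s) h hh (by rw [← e0]; exact hp)
    (fun r hr1 hr2 => by
      obtain ⟨w, hw⟩ := hrun r hr1 hr2
      refine ⟨w, ?_⟩
      rw [← hw, heq (p + r) (by linarith) (by linarith)]
      congr 1; ring)
    (by rw [← hend, e1]; congr 1; ring) t v ht1 ht2
    (by rw [← hv, e2]; congr 1; ring)
  have e3 : y (p + 3 * h + t - s) = some (true, v) := by
    rw [← concl]; congr 1; ring
  have hin : ¬ (p + 3 * h + t ≤ lo ∨ hi ≤ p + 3 * h + t) := by
    intro hc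
    rw [hout _ hc] at e3
    simp at e3
  push Not at hin
  rw [heq _ hin.1.le hin.2.le]
  exact e3

theorem stage_matched {V : Type*} {Bf : ℕ → ℤ → Option (Bool × V)} {b : ℕ → ℕ}
    (hB : Supp Bf b) (hM : ∀ k, Matched (Bf k)) (k : ℕ) : Matched (stage Bf b k) := by
  induction k with
  | zero =>
    intro p h hh _ hrun
    obtain ⟨v, hv⟩ := hrun 1 le_rfl (by have : (1 : ℤ) ≤ h := by exact_mod_cast hh
                                        linarith)
    simp [stage] at hv
  | succ k ih =>
    apply matched_of_zone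
    intro i0 hi0
    obtain ⟨y, hy, rest⟩ := stage_zone hB hi0
    refine ⟨y, ?_, rest⟩
    rcases hy with hy | hy
    · rw [hy]; exact ih
    · rw [hy]; exact hM k

theorem lim_matched {V : Type*} {Bf : ℕ → ℤ → Option (Bool × V)} {b : ℕ → ℕ}
    (hB : Supp Bf b) (hM : ∀ k, Matched (Bf k)) : Matched (lim Bf b) := by
  intro p h hh hp hrun hend t v ht1 ht2 hv
  -- compare with a large stage
  set K := (p + 5 * h + 1).toNat with hK
  have hcmp : ∀ i : ℤ, i ≤ p + 5 * h → lim Bf b i = stage Bf b K i := by
    intro i hi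
    apply lim_eq
    have h1 : p + 5 * h + 1 ≤ K := Int.self_le_toNat _
    have h3 : (K : ℤ) < gap b K := by
      unfold gap; push_cast
      linarith [Int.natCast_nonneg (len b K), Int.natCast_nonneg (b K)]
    linarith [Int.natCast_nonneg (len b K)]
  have hh' : (1 : ℤ) ≤ h := by exact_mod_cast hh
  have := stage_matched hB hM K p h hh (by rw [← hcmp _ (by linarith)]; exact hp)
    (fun r hr1 hr2 => by rw [← hcmp _ (by linarith)]; exact hrun r hr1 hr2)
    (by rw [← hcmp _ (by linarith)]; exact hend) t v ht1 ht2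
    (by rw [← hcmp _ (by linarith)]; exact hv)
  rw [hcmp _ (by linarith)]
  exact this

end Pool.Agent.V11112.TE
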