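import Pool.Agent.V11112.TE0

/-!
The compact metric space of limits of a recurrent sequence, with the shift.
-/

open Filter Topology

namespace Pool.Agent.V11112.TE

/-- two symbols are far apart: different and not close -/
def far {S : Type} (cl : S → S → Prop) (a b : S) : Prop := a ≠ b ∧ ¬ (cl a b ∨ cl b a)

theorem far_comm {S : Type} {cl : S → S → Prop} {a b : S} : far cl a b ↔ far cl b a := by
  unfold far
  constructor
  · rintro ⟨h1, h2⟩; exact ⟨h1.symm, fun h => h2 h.symm⟩
  · rintro ⟨h1, h2⟩; exact ⟨h1.symm, fun h => h2 h.symm⟩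

open scoped Classical in
/-- distance of symbols: `0`, `1/2` or `1` -/
noncomputable def dA {S : Type} (cl : S → S → Prop) (a b : S) : ℝ :=
  if a = b then 0 else if far cl a b then 1 else 1 / 2

section dA
variable {S : Type} {cl : S → S → Prop}

theorem dA_self (a : S) : dA cl a a = 0 := by simp [dA]

theorem dA_comm (a b : S) : dA cl a b = dA cl b a := by
  unfold dA
  by_cases h : a = b
  · subst h; rfl
  · rw [if_neg h, if_neg (Ne.symm h)]
    by_cases hf : far cl a b
    · rw [if_pos hf, if_pos (far_comm.1 hf)]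
    · rw [if_neg hf, if_neg (fun hc => hf (far_comm.1 hc))]

theorem dA_ge {a b : S} (h : a ≠ b) : 1 / 2 ≤ dA cl a b := by
  unfold dA; rw [if_neg h]; split_ifs <;> norm_num

theorem dA_le (a b : S) : dA cl a b ≤ 1 := by
  unfold dA; split_ifs <;> norm_num

theorem dA_nonneg (a b : S) : 0 ≤ dA cl a b := by
  unfold dA; split_ifs <;> norm_num

theorem dA_far {a b : S} (h : far cl a b) : dA cl a b = 1 := by
  unfold dA; rw [if_neg h.1, if_pos h]

theorem dA_not_far {a b : S} (h : ¬ far cl a b) : dA cl a b ≤ 1 / 2 := by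
  unfold dA; split_ifs <;> norm_num

theorem dA_triangle (a b c : S) : dA cl a c ≤ dA cl a b + dA cl b c := by
  by_cases h1 : a = b
  · rw [h1, dA_self]; linarith
  · by_cases h2 : b = c
    · rw [h2, dA_self]; linarith
    · have := dA_ge (cl := cl) h1
      have := dA_ge (cl := cl) h2
      have := dA_le (cl := cl) a c
      linarith
end dA

/-- all windows of `z` occur arbitrarily far to the right in `x` -/
def IsLim {S : Type} (x z : ℤ → S) : Prop :=
  ∀ m : ℕ, ∃ n : ℕ, m ≤ n ∧ ∀ i : ℤ, -(m : ℤ) ≤ i → i ≤ m → z i = x (n + i)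

/-- points of the space -/
@[ext]
structure Pt {S : Type} (cl : S → S → Prop) (x : ℤ → S) where
  /-- the sequence -/
  val : ℤ → S
  prop : IsLim x val

variable {S : Type} {cl : S → S → Prop} {x : ℤ → S}

/-- encode a two-sided sequence -/
def enc (y : ℤ → S) : ∀ _ : ℕ, S × S := fun n => (y n, y (-n))

theorem enc_inj {y z : ℤ → S} (h : enc y = enc z) : y = z := by
  funext i
  rcases Int.eq_nat_or_neg i with ⟨n, hn | hn⟩
  · have := congrFun h n
    simp only [enc, Prod.mk.injEq] at this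
    rw [hn]; exact this.1
  · have := congrFun h n
    simp only [enc, Prod.mk.injEq] at this
    rw [hn]; exact this.2

/-- the ultrametric part -/
noncomputable def dE (y z : ℤ → S) : ℝ :=
  @Dist.dist _ (PiNat.dist (E := fun _ : ℕ => S × S)) (enc y) (enc z)

theorem dE_self (y : ℤ → S) : dE y y = 0 := PiNat.dist_self (E := fun _ : ℕ => S × S) _

theorem dE_comm (y z : ℤ → S) : dE y z = dE z y := PiNat.dist_comm (E := fun _ : ℕ => S × S) _ _

theorem dE_nonneg (y z : ℤ → S) : 0 ≤ dE y z := PiNat.dist_nonneg (E := fun _ : ℕ => S × S) _ _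

theorem dE_le_one (y z : ℤ → S) : dE y z ≤ 1 := PiNat.dist_le_one (E := fun _ : ℕ => S × S) _ _

theorem dE_triangle (y z w : ℤ → S) : dE y w ≤ dE y z + dE z w :=
  PiNat.dist_triangle (E := fun _ : ℕ => S × S) _ _ _

/-- the sequences agree on `[-m, m]` -/
def Agree (m : ℕ) (y z : ℤ → S) : Prop := ∀ i : ℤ, -(m : ℤ) ≤ i → i ≤ m → y i = z i

theorem agree_of_dE {m : ℕ} {y z : ℤ → S} (h : dE y z < (1 / 2) ^ m) : Agree m y z := by
  intro i h1 h2
  have key : ∀ n : ℕ, n ≤ m → enc y n = enc z n := fun n hn =>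
    PiNat.apply_eq_of_dist_lt (E := fun _ : ℕ => S × S) h hn
  rcases Int.eq_nat_or_neg i with ⟨n, hn | hn⟩
  · have := key n (by omega)
    simp only [enc, Prod.mk.injEq] at this
    rw [hn]; exact this.1
  · have := key n (by omega)
    simp only [enc, Prod.mk.injEq] at this
    rw [hn]; exact this.2

theorem dE_of_agree {m : ℕ} {y z : ℤ → S} (h : Agree m y z) : dE y z ≤ (1 / 2) ^ (m + 1) := by
  have h2 : enc y ∈ PiNat.cylinder (E := fun _ : ℕ => S × S) (enc z) (m + 1) := by
    intro n hn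
    simp only [enc, Prod.mk.injEq]
    exact ⟨h n (by omega) (by omega), h (-n) (by omega) (by omega)⟩
  exact (PiNat.mem_cylinder_iff_dist_le (E := fun _ : ℕ => S × S)).1 h2

theorem Agree.mono {m n : ℕ} (h : m ≤ n) {y z : ℤ → S} (ha : Agree n y z) : Agree m y z :=
  fun i h1 h2 => ha i (by omega) (by omega)

noncomputable instance : MetricSpace (Pt cl x) where
  dist y z := max (dA cl (y.val 0) (z.val 0)) (1 / 2 * dE y.val z.val)
  dist_self y := by simp [dA_self, dE_self]
  dist_comm y z := by simp only [dA_comm (y.val 0), dE_comm y.val]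
  dist_triangle y z w := by
    have h1 := dA_triangle (cl := cl) (y.val 0) (z.val 0) (w.val 0)
    have h2 := dE_triangle y.val z.val w.val
    have a1 := le_max_left (dA cl (y.val 0) (z.val 0)) (1 / 2 * dE y.val z.val)
    have a2 := le_max_right (dA cl (y.val 0) (z.val 0)) (1 / 2 * dE y.val z.val)
    have b1 := le_max_left (dA cl (z.val 0) (w.val 0)) (1 / 2 * dE z.val w.val)
    have b2 := le_max_right (dA cl (z.val 0) (w.val 0)) (1 / 2 * dE z.val w.val)
    apply max_le <;> linarith
  eq_of_dist_eq_zero {y z} h := by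
    have h1 : 1 / 2 * dE y.val z.val ≤ 0 := (le_max_right _ _).trans h.le
    have h2 := dE_nonneg y.val z.val
    have h3 : dE y.val z.val = 0 := by linarith
    have h4 := PiNat.eq_of_dist_eq_zero (E := fun _ : ℕ => S × S) _ _ h3
    exact Pt.ext (enc_inj h4)

theorem dist_def (y z : Pt cl x) :
    dist y z = max (dA cl (y.val 0) (z.val 0)) (1 / 2 * dE y.val z.val) := rfl

theorem dist_lt_iff_agree {m : ℕ} {y z : Pt cl x} :
    dist y z < (1 / 2) ^ (m + 1) ↔ Agree m y.val z.val := by
  rw [dist_def]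
  constructor
  · intro h
    apply agree_of_dE
    have := (le_max_right _ _).trans_lt h
    rw [pow_succ] at this
    linarith
  · intro h
    have h0 : y.val 0 = z.val 0 := h 0 (by omega) (by omega)
    have h1 := dE_of_agree h
    rw [h0, dA_self]
    have h2 : (0 : ℝ) < (1 / 2) ^ (m + 1) := by positivity
    apply max_lt h2
    linarith

theorem dist_le_of_agree {m : ℕ} {y z : Pt cl x} (h : Agree m y.val z.val) :
    dist y z ≤ (1 / 2) ^ (m + 2) := by
  rw [dist_def]
  have h0 : y.val 0 = z.val 0 := h 0 (by omega) (by omega)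
  have h1 := dE_of_agree h
  rw [h0, dA_self]
  apply max_le (by positivity)
  rw [pow_succ]
  linarith

theorem dist_le_one' (y z : Pt cl x) : dist y z ≤ 1 := by
  rw [dist_def]
  have := dE_le_one y.val z.val
  exact max_le (dA_le _ _) (by linarith)

theorem le_dist_iff_far {ε : ℝ} (h1 : 1 / 2 < ε) (h2 : ε ≤ 1) {y z : Pt cl x} :
    ε ≤ dist y z ↔ far cl (y.val 0) (z.val 0) := by
  rw [dist_def]
  constructor
  · intro h
    by_contra hc
    have a1 := dA_not_far hc
    have a2 := dE_le_one y.val z.val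
    have : max (dA cl (y.val 0) (z.val 0)) (1 / 2 * dE y.val z.val) ≤ 1 / 2 :=
      max_le a1 (by linarith)
    linarith
  · intro h
    rw [dA_far h]
    exact h2.trans (le_max_left _ _)

theorem le_dist_iff_not_agree {ε : ℝ} {N : ℕ} (h1 : (1 / 2) ^ (N + 2) < ε)
    (h2 : ε ≤ (1 / 2) ^ (N + 1)) {y z : Pt cl x} : ε ≤ dist y z ↔ ¬ Agree N y.val z.val := by
  constructor
  · intro h hc
    have := dist_le_of_agree hc
    linarith
  · intro h
    rw [← dist_lt_iff_agree] at h
    push Not at h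
    exact h2.trans h

/-- shifted limits are limits -/
theorem isLim_shift {z : ℤ → S} (h : IsLim x z) (a : ℤ) : IsLim x (fun i => z (i + a)) := by
  intro m
  obtain ⟨n, hn, hz⟩ := h (m + a.natAbs)
  have hn' : ((m + a.natAbs : ℕ) : ℤ) ≤ n := by exact_mod_cast hn
  refine ⟨(n + a).toNat, ?_, fun i h1 h2 => ?_⟩
  · have : (m : ℤ) ≤ (n + a).toNat := by
      rw [Int.toNat_of_nonneg (by omega)]; omega
    exact_mod_cast this
  · rw [Int.toNat_of_nonneg (by omega)]
    show z (i + a) = _
    rw [hz (i + a) (by omega) (by omega)]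
    congr 1
    ring

/-- the shift by `a` -/
def shiftBy (a : ℤ) (y : Pt cl x) : Pt cl x := ⟨fun i => y.val (i + a), isLim_shift y.prop a⟩

theorem shiftBy_continuous (a : ℤ) : Continuous (shiftBy a : Pt cl x → Pt cl x) := by
  rw [Metric.continuous_iff]
  intro z ε hε
  obtain ⟨m, hm⟩ := exists_pow_lt_of_lt_one hε (by norm_num : (1 / 2 : ℝ) < 1)
  refine ⟨(1 / 2) ^ (m + a.natAbs + 1), by positivity, fun y hy => ?_⟩
  rw [dist_lt_iff_agree] at hy
  have h2 : Agree m (shiftBy a y).val (shiftBy a z).val := by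
    intro i h1 h2
    exact hy (i + a) (by omega) (by omega)
  rw [← dist_lt_iff_agree] at h2
  refine h2.trans (lt_of_le_of_lt ?_ hm)
  exact pow_le_pow_of_le_one (by norm_num) (by norm_num) (Nat.le_succ m)

/-- the shift homeomorphism -/
def shiftHomeo : Pt cl x ≃ₜ Pt cl x where
  toFun := shiftBy 1
  invFun := shiftBy (-1)
  left_inv y := by
    apply Pt.ext; funext i
    show y.val (i + -1 + 1) = y.val i
    congr 1; ring
  right_inv y := by
    apply Pt.ext; funext i
    show y.val (i + 1 + -1) = y.val i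
    congr 1; ring
  continuous_toFun := shiftBy_continuous 1
  continuous_invFun := shiftBy_continuous (-1)

theorem iterate_val (t : ℕ) (y : Pt cl x) (i : ℤ) :
    ((shiftHomeo (cl := cl) (x := x))^[t] y).val i = y.val (i + t) := by
  induction t generalizing y i with
  | zero => simp
  | succ t ih =>
    rw [Function.iterate_succ_apply, ih]
    show y.val (i + t + 1) = y.val (i + (t + 1 : ℕ))
    congr 1; push_cast; ring

theorem compactSpace_pt [Finite S] : CompactSpace (Pt cl x) := by
  letI : TopologicalSpace S := ⊥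
  haveI : DiscreteTopology S := ⟨rfl⟩
  let P : Set (ℤ → S) := {z | IsLim x z}
  have hagree_open : ∀ (m : ℕ) (z : ℤ → S), IsOpen {y : ℤ → S | Agree m y z} := by
    intro m z
    have : {y : ℤ → S | Agree m y z} = ⋂ i ∈ Set.Icc (-(m : ℤ)) m, {y : ℤ → S | y i = z i} := by
      ext y
      simp only [Set.mem_setOf_eq, Set.mem_iInter, Set.mem_Icc, and_imp]
      rfl
    rw [this]
    refine Set.Finite.isOpen_biInter (Set.finite_Icc _ _) (fun i _ => ?_)
    exact (continuous_apply (A := fun _ : ℤ => S) i).isOpen_preimage _ (isOpen_discrete {z i})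
  have hclosed : IsClosed P := by
    rw [← isOpen_compl_iff, isOpen_iff_mem_nhds]
    intro z hz
    have hz' : ¬ IsLim x z := hz
    unfold IsLim at hz'
    push Not at hz'
    obtain ⟨m, hm⟩ := hz'
    refine Filter.mem_of_superset ((hagree_open m z).mem_nhds (fun i _ _ => rfl)) ?_
    intro y hy hyP
    obtain ⟨n, hn, hyn⟩ := hyP m
    obtain ⟨i, h1, h2, h3⟩ := hm n hn
    exact h3 ((hy i h1 h2).symm.trans (hyn i h1 h2))
  haveI : CompactSpace P := isCompact_iff_compactSpace.1 hclosed.isCompact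
  let φ : P → Pt cl x := fun z => ⟨z.1, z.2⟩
  have hφ : Continuous φ := by
    rw [continuous_iff_continuousAt]
    intro z
    rw [ContinuousAt, Metric.tendsto_nhds]
    intro ε hε
    obtain ⟨m, hm⟩ := exists_pow_lt_of_lt_one hε (by norm_num : (1 / 2 : ℝ) < 1)
    have hmem : {y : P | Agree m y.1 z.1} ∈ 𝓝 z :=
      ((hagree_open m z.1).preimage continuous_subtype_val).mem_nhds (fun i _ _ => rfl)
    filter_upwards [hmem] with y hy
    have h2 : Agree m (φ y).val (φ z).val := hy
    rw [← dist_lt_iff_agree] at h2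
    refine h2.trans (lt_of_le_of_lt ?_ hm)
    exact pow_le_pow_of_le_one (by norm_num) (by norm_num) (Nat.le_succ m)
  have hsurj : Function.Surjective φ := fun z => ⟨⟨z.val, z.prop⟩, rfl⟩
  rw [← isCompact_univ_iff, ← hsurj.range_eq]
  exact isCompact_range hφ

/-- the points obtained by shifting `x` itself -/
def basePt (hx : IsLim x x) (p : ℤ) : Pt cl x := ⟨fun i => x (i + p), isLim_shift hx p⟩

theorem transitive_shift (hx : IsLim x x) : Transitive (shiftHomeo (cl := cl) (x := x)) := by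
  refine ⟨basePt hx 0, ?_⟩
  rw [Metric.dense_iff]
  intro z ε hε
  obtain ⟨m, hm⟩ := exists_pow_lt_of_lt_one hε (by norm_num : (1 / 2 : ℝ) < 1)
  obtain ⟨n, _, hz⟩ := z.prop m
  refine ⟨(shiftHomeo (cl := cl) (x := x))^[n] (basePt hx 0), ?_, ⟨n, rfl⟩⟩
  rw [Metric.mem_ball]
  have h2 : Agree m ((shiftHomeo (cl := cl) (x := x))^[n] (basePt hx 0)).val z.val := by
    intro i h1 h2
    rw [iterate_val, hz i h1 h2]
    show x (i + n + 0) = _
    congr 1; ring
  rw [← dist_lt_iff_agree] at h2
  refine h2.trans (lt_of_le_of_lt ?_ hm)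
  exact pow_le_pow_of_le_one (by norm_num) (by norm_num) (Nat.le_succ m)

/-- `D_T ≥ ε` for `1/2 < ε ≤ 1` -/
theorem le_orbitDist_far {ε : ℝ} (h1 : 1 / 2 < ε) (h2 : ε ≤ 1) {T : ℕ} (hT : 1 ≤ T)
    {y z : Pt cl x} : ε ≤ orbitDist shiftHomeo T y z ↔
      ∃ t : ℕ, t < T ∧ far cl (y.val t) (z.val t) := by
  rw [le_orbitDist hT]
  refine exists_congr (fun t => and_congr_right (fun _ => ?_))
  rw [le_dist_iff_far h1 h2, iterate_val, iterate_val, zero_add]

theorem orbitDist_lt_far {ε : ℝ} (h1 : 1 / 2 < ε) (h2 : ε ≤ 1) {T : ℕ} (hT : 1 ≤ T)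
    {y z : Pt cl x} : orbitDist shiftHomeo T y z < ε ↔
      ∀ t : ℕ, t < T → ¬ far cl (y.val t) (z.val t) := by
  rw [← not_le, le_orbitDist_far h1 h2 hT]
  push Not
  rfl

/-- `D_T ≥ ε` for small `ε` -/
theorem le_orbitDist_agree {ε : ℝ} {N : ℕ} (h1 : (1 / 2) ^ (N + 2) < ε)
    (h2 : ε ≤ (1 / 2) ^ (N + 1)) {T : ℕ} (hT : 1 ≤ T)
    {y z : Pt cl x} : ε ≤ orbitDist shiftHomeo T y z ↔
      ∃ i : ℤ, -(N : ℤ) ≤ i ∧ i < T + N ∧ y.val i ≠ z.val i := by
  rw [le_orbitDist hT]
  constructor
  · rintro ⟨t, ht, h⟩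
    rw [le_dist_iff_not_agree h1 h2] at h
    unfold Agree at h
    push Not at h
    obtain ⟨i, h3, h4, h5⟩ := h
    rw [iterate_val, iterate_val] at h5
    exact ⟨i + t, by omega, by omega, h5⟩
  · rintro ⟨i, h3, h4, h5⟩
    refine ⟨(max 0 (min i (T - 1))).toNat, by omega, ?_⟩
    rw [le_dist_iff_not_agree h1 h2]
    unfold Agree
    push Not
    refine ⟨i - (max 0 (min i (T - 1))).toNat, by omega, by omega, ?_⟩
    rw [iterate_val, iterate_val, sub_add_cancel]
    exact h5

theorem orbitDist_le_one {T : ℕ} (hT : 1 ≤ T) {ε : ℝ} (hε : 1 < ε) (y z : Pt cl x) :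
    ¬ ε ≤ orbitDist shiftHomeo T y z := by
  rw [le_orbitDist hT]
  rintro ⟨t, _, h⟩
  have := dist_le_one' ((shiftHomeo (cl := cl) (x := x))^[t] y) ((shiftHomeo)^[t] z)
  linarith

end Pool.Agent.V11112.TE
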