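import Pool.Agent.V11112.TE1
import Pool.Agent.V11112.TE2

/-!
The blocks, and counting of windows.
-/

open Filter Topology

namespace Pool.Agent.V11112.TE

/-- the block with word `u` of length `2 h`: `u` in the first phase, a gap of length `h`, then `u`
in the second phase -/
def blk {V : Type} (h : ℕ) (u : ℕ → V) (r : ℤ) : Option (Bool × V) :=
  if 0 ≤ r ∧ r < 2 * h then some (false, u r.toNat)
  else if 3 * (h : ℤ) ≤ r ∧ r < 5 * h then some (true, u (r - 3 * h).toNat) else none

section Blk
variable {V : Type} {h : ℕ} {u : ℕ → V}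

theorem blk_first {r : ℤ} (h0 : 0 ≤ r) (h1 : r < 2 * h) : blk h u r = some (false, u r.toNat) := by
  unfold blk; rw [if_pos ⟨h0, h1⟩]

theorem blk_second {r : ℤ} (h0 : 3 * (h : ℤ) ≤ r) (h1 : r < 5 * h) :
    blk h u r = some (true, u (r - 3 * h).toNat) := by
  unfold blk; rw [if_neg (by omega), if_pos ⟨h0, h1⟩]

theorem blk_none {r : ℤ} (h1 : ¬ (0 ≤ r ∧ r < 2 * h)) (h2 : ¬ (3 * (h : ℤ) ≤ r ∧ r < 5 * h)) :
    blk h u r = none := by
  unfold blk; rw [if_neg h1, if_neg h2]

theorem blk_congr {v : ℕ → V} (huv : ∀ n, n < 2 * h → u n = v n) (r : ℤ) :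
    blk h u r = blk h v r := by
  by_cases h1 : 0 ≤ r ∧ r < 2 * h
  · rw [blk_first h1.1 h1.2, blk_first h1.1 h1.2, huv _ (by omega)]
  · by_cases h2 : 3 * (h : ℤ) ≤ r ∧ r < 5 * h
    · rw [blk_second h2.1 h2.2, blk_second h2.1 h2.2, huv _ (by omega)]
    · rw [blk_none h1 h2, blk_none h1 h2]

theorem blk_matched : Matched (blk h u) := by
  intro p h' hh hp hrun hend t v ht1 ht2 hv
  have hh' : (1 : ℤ) ≤ h' := by exact_mod_cast hh
  have first : ∀ r v, blk h u r = some (false, v) → 0 ≤ r ∧ r < 2 * h := by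
    intro r v hr
    by_contra hc
    unfold blk at hr
    rw [if_neg hc] at hr
    split_ifs at hr
    simp at hr
  obtain ⟨v1, hv1⟩ := hrun 1 le_rfl (by linarith)
  obtain ⟨v2, hv2⟩ := hrun (2 * h') (by linarith) le_rfl
  have f1 := first _ _ hv1
  have f2 := first _ _ hv2
  have hp1 : p = -1 := by
    by_contra hc
    rw [blk_first (by omega) (by omega)] at hp
    simp at hp
  subst hp1
  have hheq : h' = h := by
    by_contra hc
    have hlt : h' < h := by omega
    rw [blk_first (by omega) (by omega)] at hend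
    simp at hend
  subst hheq
  rw [blk_first (by omega) (by omega)] at hv
  rw [blk_second (by omega) (by omega)]
  simp only [Option.some.injEq, Prod.mk.injEq, true_and] at hv ⊢
  rw [← hv]
  congr 1
  omega

end Blk

section Word
variable {V : Type} [Inhabited V] (e : ℕ → ℕ × List V)

/-- the blocks in order -/
def bF (k : ℕ) : ℤ → Option (Bool × V) :=
  blk (Nat.factorial (e k).1) (fun n => (e k).2.getD n default)

/-- support lengths -/
def bL (k : ℕ) : ℕ := 5 * Nat.factorial (e k).1 + 1

/-- the recurrent sequence -/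
def word : ℤ → Option (Bool × V) := lim (bF e) (bL e)

theorem supp_bF : Supp (bF e) (bL e) := by
  intro k i hi
  unfold bL at hi
  push_cast at hi
  exact blk_none (by omega) (by omega)

theorem word_matched : Matched (word e) :=
  lim_matched (supp_bF e) (fun _ => blk_matched)

theorem word_isLim : IsLim (word e) (word e) := fun m => lim_recurrent (supp_bF e) m

variable {e}

theorem exists_block (he : Function.Surjective e) (i : ℕ) (u : ℕ → V) :
    ∃ j, bF e j = blk (Nat.factorial i) u ∧ bL e j = 5 * Nat.factorial i + 1 := by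
  obtain ⟨j, hj⟩ := he (i, (List.range (2 * Nat.factorial i)).map u)
  refine ⟨j, ?_, by unfold bL; rw [hj]⟩
  unfold bF
  rw [hj]
  funext r
  have key : ∀ n : ℕ, n < 2 * Nat.factorial i →
      ((List.range (2 * Nat.factorial i)).map u).getD n default = u n := by
    intro n hn
    rw [List.getD_eq_getElem?_getD]
    simp [hn]
  exact blk_congr key r

/-- windows of blocks are realised in the sequence -/
theorem realise (he : Function.Surjective e) (i : ℕ) (u : ℕ → V) {T : ℕ}
    (hT : T ≤ 5 * Nat.factorial i + 2) (q : ℤ) (hq1 : -(T : ℤ) ≤ q)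
    (hq2 : q ≤ 5 * Nat.factorial i + 1) :
    ∃ n : ℕ, ∀ t : ℤ, 0 ≤ t → t < T → word e (n + t) = blk (Nat.factorial i) u (q + t) := by
  obtain ⟨j, hj, hb⟩ := exists_block he i u
  have hg : T ≤ gap (bL e) j := by
    unfold gap
    rw [hb]
    omega
  obtain ⟨n, hn⟩ := block_window (supp_bF e) hg hq1 (by rw [hb]; push_cast; exact hq2)
  refine ⟨n, fun t h0 ht => ?_⟩
  rw [← hj]
  exact (hn t h0 ht).symm

/-- clip to `[0, T]` -/
def clip (T : ℕ) (a : ℤ) : ℕ := (max 0 (min a T)).toNat

theorem clip_le (T : ℕ) (a : ℤ) : clip T a < T + 1 := by unfold clip; omega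

theorem lt_clip {T : ℕ} {a : ℤ} {t : ℕ} (ht : t < T) : t < clip T a ↔ (t : ℤ) < a := by
  unfold clip; omega

/-- projection of symbols -/
def proj {C : Type} (κ : V → C) (a : Option (Bool × V)) : Option (Bool × C) :=
  a.map (fun q => (q.1, κ q.2))

/-- words with prescribed shape -/
def shapeWord {C : Type} {T : ℕ} (q : (Fin (T + 1) × Fin (T + 1)) × (Fin (T + 1) × Fin (T + 1)))
    (f : Fin T → C) (t : Fin T) : Option (Bool × C) :=
  if (t : ℕ) < q.1.1 then none else if (t : ℕ) < q.1.2 then some (false, f t)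
  else if (t : ℕ) < q.2.1 then none else if (t : ℕ) < q.2.2 then some (true, f t) else none

/-- the letter of a symbol -/
def letter (a : Option (Bool × V)) : V := (a.map Prod.snd).getD default

theorem blk_shape {C : Type} (κ : V → C) (T h : ℕ) (u : ℕ → V) (q : ℤ) :
    (fun t : Fin T => proj κ (blk h u (q + (t : ℕ)))) =
      shapeWord ((⟨clip T (-q), clip_le _ _⟩, ⟨clip T (2 * h - q), clip_le _ _⟩),
        (⟨clip T (3 * h - q), clip_le _ _⟩, ⟨clip T (5 * h - q), clip_le _ _⟩))
        (fun t => κ (letter (blk h u (q + (t : ℕ))))) := by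
  funext t
  unfold shapeWord
  simp only [lt_clip t.2]
  by_cases h1 : ((t : ℕ) : ℤ) < -q
  · rw [if_pos h1, blk_none (by omega) (by omega)]; rfl
  · rw [if_neg h1]
    by_cases h2 : ((t : ℕ) : ℤ) < 2 * h - q
    · rw [if_pos h2, blk_first (by omega) (by omega)]; rfl
    · rw [if_neg h2]
      by_cases h3 : ((t : ℕ) : ℤ) < 3 * h - q
      · rw [if_pos h3, blk_none (by omega) (by omega)]; rfl
      · rw [if_neg h3]
        by_cases h4 : ((t : ℕ) : ℤ) < 5 * h - q
        · rw [if_pos h4, blk_second (by omega) (by omega)]; rfl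
        · rw [if_neg h4, blk_none (by omega) (by omega)]; rfl

/-- counting all projected windows -/
theorem count_windows {C : Type} [Fintype C] (κ : V → C) (T : ℕ) :
    ∃ W : Finset (Fin T → Option (Bool × C)),
      W.card ≤ (4 * T + 1) + (T + 1) ^ 4 * Fintype.card C ^ T ∧
      ∀ p : ℤ, (fun t : Fin T => proj κ (word e (p + (t : ℕ)))) ∈ W := by
  classical
  obtain ⟨Y, hY⟩ := window_structure (supp_bF e) T
  let W1 : Finset (Fin T → Option (Bool × C)) :=
    (Finset.univ : Finset (Fin (4 * T + 1))).image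
      (fun k : Fin (4 * T + 1) => fun t : Fin T =>
        proj κ (Y (((k : ℕ) : ℤ) - (T : ℤ) + ((t : ℕ) : ℤ))))
  let W2 : Finset (Fin T → Option (Bool × C)) :=
    (Finset.univ : Finset (((Fin (T + 1) × Fin (T + 1)) × (Fin (T + 1) × Fin (T + 1))) ×
      (Fin T → C))).image (fun k : (((Fin (T + 1) × Fin (T + 1)) ×
        (Fin (T + 1) × Fin (T + 1))) × (Fin T → C)) => shapeWord k.1 k.2)
  refine ⟨W1 ∪ W2, ?_, fun p => ?_⟩
  · refine (Finset.card_union_le _ _).trans (Nat.add_le_add ?_ ?_)
    · exact Finset.card_image_le.trans (by simp)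
    · refine Finset.card_image_le.trans ?_
      simp only [Finset.card_univ, Fintype.card_prod, Fintype.card_fin, Fintype.card_pi,
        Finset.prod_const]
      apply le_of_eq
      ring
  · rw [Finset.mem_union]
    rcases hY p with ⟨q, h1, h2, h3⟩ | ⟨j, q, h3⟩
    · left
      rw [Finset.mem_image]
      refine ⟨⟨(q + T).toNat, by omega⟩, Finset.mem_univ _, ?_⟩
      funext t
      have e1 : (((q + T).toNat : ℕ) : ℤ) - (T : ℤ) + (t : ℕ) = q + (t : ℕ) := by omega
      show proj κ (Y ((((q + T).toNat : ℕ) : ℤ) - (T : ℤ) + (t : ℕ))) = _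
      rw [e1]
      have := h3 (t : ℕ) (by omega) (by exact_mod_cast t.2)
      unfold word
      rw [this]
    · right
      rw [Finset.mem_image]
      refine ⟨(((⟨clip T (-q), clip_le _ _⟩,
        ⟨clip T (2 * (Nat.factorial (e j).1 : ℕ) - q), clip_le _ _⟩),
        (⟨clip T (3 * (Nat.factorial (e j).1 : ℕ) - q), clip_le _ _⟩,
          ⟨clip T (5 * (Nat.factorial (e j).1 : ℕ) - q), clip_le _ _⟩)),
        (fun t => κ (letter (bF e j (q + (t : ℕ)))))), Finset.mem_univ _, ?_⟩
      have := blk_shape κ T (Nat.factorial (e j).1) (fun n => (e j).2.getD n default) q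
      show shapeWord _ _ = _
      unfold bF
      rw [← this]
      funext t
      have := h3 (t : ℕ) (by omega) (by exact_mod_cast t.2)
      unfold word
      rw [this]
      rfl

/-- windows of length `i!` -/
theorem low_structure [Fintype V] (i : ℕ) (hi : 1 ≤ i) {T : ℕ} (hT : T = Nat.factorial i) :
    ∃ E : Finset (Fin T → Option (Bool × V)),
      E.card ≤ (4 * T + 1) + i * ((6 * T + 1) * Fintype.card V ^ (2 * Nat.factorial (i - 1))) ∧
      ∀ p : ℤ, (fun t : Fin T => word e (p + (t : ℕ))) ∈ E ∨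
        ∃ (s : ℕ) (u : ℕ → V) (q : ℤ), T ≤ Nat.factorial s ∧ -(T : ℤ) ≤ q ∧
          q ≤ 5 * Nat.factorial s + 1 ∧ Same T (word e) p (blk (Nat.factorial s) u) q := by
  classical
  obtain ⟨Y, hY⟩ := window_structure (supp_bF e) T
  let W1 : Finset (Fin T → Option (Bool × V)) :=
    (Finset.univ : Finset (Fin (4 * T + 1))).image
      (fun k : Fin (4 * T + 1) => fun t : Fin T =>
        (Y (((k : ℕ) : ℤ) - (T : ℤ) + ((t : ℕ) : ℤ))))
  let ex : (Fin (2 * Nat.factorial (i - 1)) → V) → ℕ → V := fun u n =>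
    if h : n < 2 * Nat.factorial (i - 1) then u ⟨n, h⟩ else default
  let W2 : Finset (Fin T → Option (Bool × V)) :=
    (Finset.univ : Finset (Fin i × (Fin (6 * T + 1) × (Fin (2 * Nat.factorial (i - 1)) → V)))).image
      (fun k : Fin i × (Fin (6 * T + 1) × (Fin (2 * Nat.factorial (i - 1)) → V)) =>
        fun t : Fin T => blk (Nat.factorial (k.1 : ℕ)) (ex k.2.2)
        (((k.2.1 : ℕ) : ℤ) - (T : ℤ) + (t : ℕ)))
  refine ⟨W1 ∪ W2, ?_, fun p => ?_⟩
  · refine (Finset.card_union_le _ _).trans (Nat.add_le_add ?_ ?_)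
    · exact Finset.card_image_le.trans (by simp)
    · refine Finset.card_image_le.trans ?_
      simp only [Finset.card_univ, Fintype.card_prod, Fintype.card_fin, Fintype.card_pi,
        Finset.prod_const]
      exact le_rfl
  · have main : ∀ (s : ℕ) (u : ℕ → V) (q : ℤ), -(T : ℤ) ≤ q → q ≤ 5 * Nat.factorial s + 1 →
        Same T (word e) p (blk (Nat.factorial s) u) q →
        (fun t : Fin T => word e (p + (t : ℕ))) ∈ W1 ∪ W2 ∨
        ∃ (s : ℕ) (u : ℕ → V) (q : ℤ), T ≤ Nat.factorial s ∧ -(T : ℤ) ≤ q ∧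
          q ≤ 5 * Nat.factorial s + 1 ∧ Same T (word e) p (blk (Nat.factorial s) u) q := by
      intro s u q hq1 hq2 h3
      by_cases hs : T ≤ Nat.factorial s
      · exact Or.inr ⟨s, u, q, hs, hq1, hq2, h3⟩
      · left
        push Not at hs
        have hsi : s < i := by
          by_contra hc
          push Not at hc
          have := Nat.factorial_le hc
          omega
        have hs2 : Nat.factorial s ≤ Nat.factorial (i - 1) := Nat.factorial_le (by omega)
        rw [Finset.mem_union]
        right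
        rw [Finset.mem_image]
        refine ⟨(⟨s, hsi⟩, (⟨(q + T).toNat, by omega⟩, fun k => u k)), Finset.mem_univ _, ?_⟩
        funext t
        show blk (Nat.factorial s) (ex fun k => u k)
          ((((q + T).toNat : ℕ) : ℤ) - (T : ℤ) + (t : ℕ)) = _
        have e1 : (((q + T).toNat : ℕ) : ℤ) - (T : ℤ) + (t : ℕ) = q + (t : ℕ) := by omega
        rw [e1]
        have h4 := h3 (t : ℕ) (by omega) (by exact_mod_cast t.2)
        rw [h4]
        have hex : ∀ n : ℕ, n < 2 * Nat.factorial s → (ex fun k => u k) n = u n := by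
          intro n hn
          simp only [ex]
          rw [dif_pos (by omega)]
        exact blk_congr hex _
    rcases hY p with ⟨q, h1, h2, h3⟩ | ⟨j, q, h3⟩
    · left
      rw [Finset.mem_union]
      left
      rw [Finset.mem_image]
      refine ⟨⟨(q + T).toNat, by omega⟩, Finset.mem_univ _, ?_⟩
      funext t
      have e1 : (((q + T).toNat : ℕ) : ℤ) - (T : ℤ) + (t : ℕ) = q + (t : ℕ) := by omega
      show (Y ((((q + T).toNat : ℕ) : ℤ) - (T : ℤ) + (t : ℕ))) = _
      rw [e1]
      exact (h3 (t : ℕ) (by omega) (by exact_mod_cast t.2)).symm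
    · by_cases hq1 : -(T : ℤ) ≤ q
      · by_cases hq2 : q ≤ 5 * (Nat.factorial (e j).1 : ℤ) + 1
        · exact main _ _ q hq1 hq2 h3
        · push Not at hq2
          refine main (e j).1 (fun n => (e j).2.getD n default) (5 * Nat.factorial (e j).1 + 1)
            (by omega) le_rfl ?_
          intro t h0 ht
          have h4 := h3 t h0 ht
          unfold word
          rw [h4]
          unfold bF
          rw [blk_none (by omega) (by omega), blk_none (by omega) (by omega)]
      · push Not at hq1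
        refine main (e j).1 (fun n => (e j).2.getD n default) (-(T : ℤ)) le_rfl (by omega) ?_
        intro t h0 ht
        have h4 := h3 t h0 ht
        unfold word
        rw [h4]
        unfold bF
        rw [blk_none (by omega) (by omega), blk_none (by omega) (by omega)]

/-- single phase windows -/
theorem single_phase {T h : ℕ} (hT : T ≤ h) (q : ℤ) :
    ∃ (c : Bool) (c1 c2 : Fin (T + 1)), ∀ (u : ℕ → V) (t : ℕ), t < T →
      (((c1 : ℕ) ≤ t ∧ t < (c2 : ℕ)) ∧ ∃ n, blk h u (q + t) = some (c, u n)) ∨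
      (¬ ((c1 : ℕ) ≤ t ∧ t < (c2 : ℕ)) ∧ blk h u (q + t) = none) := by
  by_cases hq : q < 2 * h
  · refine ⟨false, ⟨clip T (-q), clip_le _ _⟩, ⟨clip T (2 * h - q), clip_le _ _⟩, fun u t ht => ?_⟩
    have e1 := lt_clip (T := T) (a := -q) ht
    have e2 := lt_clip (T := T) (a := 2 * h - q) ht
    by_cases h1 : 0 ≤ q + (t : ℤ) ∧ q + (t : ℤ) < 2 * h
    · left
      refine ⟨?_, _, blk_first h1.1 h1.2⟩
      show clip T (-q) ≤ t ∧ t < clip T (2 * h - q)
      rw [e2, ← not_lt, e1]
      omega
    · right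
      refine ⟨?_, blk_none h1 (by omega)⟩
      show ¬ (clip T (-q) ≤ t ∧ t < clip T (2 * h - q))
      rw [e2, ← not_lt, e1]
      omega
  · refine ⟨true, ⟨clip T (3 * h - q), clip_le _ _⟩, ⟨clip T (5 * h - q), clip_le _ _⟩,
      fun u t ht => ?_⟩
    have e1 := lt_clip (T := T) (a := 3 * h - q) ht
    have e2 := lt_clip (T := T) (a := 5 * h - q) ht
    by_cases h1 : 3 * (h : ℤ) ≤ q + (t : ℤ) ∧ q + (t : ℤ) < 5 * h
    · left
      refine ⟨?_, _, blk_second h1.1 h1.2⟩
      show clip T (3 * h - q) ≤ t ∧ t < clip T (5 * h - q)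
      rw [e2, ← not_lt, e1]
      omega
    · right
      refine ⟨?_, blk_none (by omega) h1⟩
      show ¬ (clip T (3 * h - q) ≤ t ∧ t < clip T (5 * h - q))
      rw [e2, ← not_lt, e1]
      omega

end Word

end Pool.Agent.V11112.TE
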