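import Pool.Agent.V11112.TE3

/-!
Bounds for separated and spanning sets.
-/

open Filter Topology

namespace Pool.Agent.V11112.TE

/-- closeness of symbols given by closeness of letters in each phase -/
def clS {V : Type} (adj : Bool → V → V → Prop) (a b : Option (Bool × V)) : Prop :=
  ∃ c v v', a = some (c, v) ∧ b = some (c, v') ∧ adj c v v'

/-- two letters are far in phase `c` -/
def farV {V : Type} (adj : Bool → V → V → Prop) (c : Bool) (v v' : V) : Prop :=
  v ≠ v' ∧ ¬ (adj c v v' ∨ adj c v' v)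

section
variable {V : Type} {adj : Bool → V → V → Prop}

theorem far_some {c : Bool} {v v' : V} :
    far (clS adj) (some (c, v)) (some (c, v')) ↔ farV adj c v v' := by
  unfold far farV
  constructor
  · rintro ⟨h1, h2⟩
    refine ⟨fun h => h1 (by rw [h]), fun h => h2 ?_⟩
    rcases h with h | h
    · exact Or.inl ⟨c, v, v', rfl, rfl, h⟩
    · exact Or.inr ⟨c, v', v, rfl, rfl, h⟩
  · rintro ⟨h1, h2⟩
    refine ⟨fun h => h1 (by simpa using h), fun h => h2 ?_⟩
    rcases h with ⟨d, w, w', e1, e2, h⟩ | ⟨d, w, w', e1, e2, h⟩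
    · simp only [Option.some.injEq, Prod.mk.injEq] at e1 e2
      rw [e1.1, e1.2, e2.2]; exact Or.inl h
    · simp only [Option.some.injEq, Prod.mk.injEq] at e1 e2
      rw [e1.1, e1.2, e2.2]; exact Or.inr h

theorem far_none_some {q : Bool × V} : far (clS adj) none (some q) := by
  refine ⟨by simp, ?_⟩
  rintro (⟨d, w, w', e1, e2, h⟩ | ⟨d, w, w', e1, e2, h⟩) <;> simp at e1 e2

theorem far_some_none {q : Bool × V} : far (clS adj) (some q) none :=
  far_comm.1 far_none_some

theorem not_far_none : ¬ far (clS adj) none none := fun h => h.1 rfl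

theorem far_phase {c c' : Bool} (hc : c ≠ c') {v v' : V} :
    far (clS adj) (some (c, v)) (some (c', v')) := by
  refine ⟨by simp [hc], ?_⟩
  rintro (⟨d, w, w', e1, e2, h⟩ | ⟨d, w, w', e1, e2, h⟩)
  · simp only [Option.some.injEq, Prod.mk.injEq] at e1 e2
    exact hc (e1.1.trans e2.1.symm)
  · simp only [Option.some.injEq, Prod.mk.injEq] at e1 e2
    exact hc (e2.1.trans e1.1.symm)

theorem not_far_self (a : Option (Bool × V)) : ¬ far (clS adj) a a := fun h => h.1 rfl

theorem not_far_some {a : Option (Bool × V)} {c : Bool} {v : V}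
    (h : ¬ far (clS adj) a (some (c, v))) : ∃ v', a = some (c, v') ∧ ¬ farV adj c v' v := by
  rcases a with _ | ⟨c', v'⟩
  · exact absurd far_none_some h
  · by_cases hc : c' = c
    · subst hc
      exact ⟨v', rfl, fun hf => h (far_some.2 hf)⟩
    · exact absurd (far_phase hc) h

theorem not_far_none' {a : Option (Bool × V)} (h : ¬ far (clS adj) a none) : a = none := by
  rcases a with _ | q
  · rfl
  · exact absurd far_some_none h

theorem not_far_of_proj {C : Type} {κ : V → C}
    (hκ : ∀ c v v', κ v = κ v' → ¬ farV adj c v v') {a b : Option (Bool × V)}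
    (h : proj κ a = proj κ b) : ¬ far (clS adj) a b := by
  rcases a with _ | ⟨c, v⟩ <;> rcases b with _ | ⟨c', v'⟩
  · exact not_far_none
  · simp [proj] at h
  · simp [proj] at h
  · simp only [proj, Option.map_some, Option.some.injEq, Prod.mk.injEq] at h
    rw [h.1, far_some]
    exact hκ _ _ _ h.2

end

theorem orbitDist_self' {X : Type*} [MetricSpace X] {F : X ≃ₜ X} (T : ℕ) (x : X) :
    orbitDist F T x x = 0 := by unfold orbitDist; simp

theorem card_le_sep {X : Type*} [MetricSpace X] {F : X ≃ₜ X} {ε : ℝ} (hε : 0 < ε) {T N : ℕ}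
    (h : ∀ S : Finset X, (∀ x ∈ S, ∀ y ∈ S, x ≠ y → ε ≤ orbitDist F T x y) → S.card ≤ N)
    {I : Type*} [Fintype I] (g : I → X)
    (hg : ∀ a b, a ≠ b → ε ≤ orbitDist F T (g a) (g b)) : Fintype.card I ≤ sep F ε T := by
  classical
  have hinj : Function.Injective g := by
    intro a b hab
    by_contra hne
    have := hg a b hne
    rw [hab, orbitDist_self'] at this
    linarith
  have : (Finset.univ.image g).card = Fintype.card I := by
    rw [Finset.card_image_of_injective _ hinj, Finset.card_univ]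
  rw [← this]
  refine le_sep h ?_
  intro x hx y hy hxy
  rw [Finset.mem_image] at hx hy
  obtain ⟨a, _, rfl⟩ := hx
  obtain ⟨b, _, rfl⟩ := hy
  exact hg a b (fun hab => hxy (by rw [hab]))

section Main
variable {V : Type} [Inhabited V] {adj : Bool → V → V → Prop} {e : ℕ → ℕ × List V}

/-- the window of a point is a window of the word -/
theorem exists_window (y : Pt (clS adj) (word e)) (m : ℕ) :
    ∃ n : ℕ, ∀ i : ℤ, -(m : ℤ) ≤ i → i ≤ m → y.val i = word e (n + i) := by
  obtain ⟨n, _, h⟩ := y.prop m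
  exact ⟨n, h⟩

theorem exists_point (he : Function.Surjective e) (i : ℕ) (u : ℕ → V) {T : ℕ}
    (hT : T ≤ 5 * Nat.factorial i + 2) (q : ℤ) (hq1 : -(T : ℤ) ≤ q)
    (hq2 : q ≤ 5 * Nat.factorial i + 1) :
    ∃ y : Pt (clS adj) (word e), ∀ t : ℤ, 0 ≤ t → t < T →
      y.val t = blk (Nat.factorial i) u (q + t) := by
  obtain ⟨n, hn⟩ := realise he i u hT q hq1 hq2
  refine ⟨basePt (word_isLim e) n, fun t h0 ht => ?_⟩
  rw [← hn t h0 ht]
  show word e (t + n) = _
  congr 1; ring

/-- upper bound by colours -/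
theorem sep_bound_color {C : Type} [Fintype C] (κ : V → C)
    (hκ : ∀ c v v', κ v = κ v' → ¬ farV adj c v v') {ε : ℝ} (h1 : 1 / 2 < ε) (h2 : ε ≤ 1)
    {T : ℕ} (hT : 1 ≤ T) (S : Finset (Pt (clS adj) (word e)))
    (hS : ∀ x ∈ S, ∀ y ∈ S, x ≠ y → ε ≤ orbitDist shiftHomeo T x y) :
    S.card ≤ (4 * T + 1) + (T + 1) ^ 4 * Fintype.card C ^ T := by
  classical
  obtain ⟨W, hW, hW2⟩ := count_windows (e := e) κ T
  refine le_trans ?_ hW
  refine Finset.card_le_card_of_injOn
    (fun y : Pt (clS adj) (word e) => fun t : Fin T => proj κ (y.val ((t : ℕ) : ℤ))) ?_ ?_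
  · intro y _
    obtain ⟨n, hn⟩ := exists_window y T
    have := hW2 n
    have e1 : (fun t : Fin T => proj κ (y.val ((t : ℕ) : ℤ))) =
        fun t : Fin T => proj κ (word e ((n : ℤ) + ((t : ℕ) : ℤ))) := by
      funext t
      rw [hn _ (by omega) (by have := t.2; omega)]
    show (fun t : Fin T => proj κ (y.val ((t : ℕ) : ℤ))) ∈ (W : Set _)
    rw [e1]
    exact this
  · intro y hy z hz hyz
    by_contra hne
    have := hS y hy z hz hne
    rw [le_orbitDist_far h1 h2 hT] at this
    obtain ⟨t, ht, hf⟩ := this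
    exact not_far_of_proj hκ (congrFun hyz ⟨t, ht⟩) hf

/-- upper bound for small `ε` -/
theorem sep_bound_small [Fintype V] {ε : ℝ} {N : ℕ} (h1 : (1 / 2) ^ (N + 2) < ε)
    (h2 : ε ≤ (1 / 2) ^ (N + 1)) {T : ℕ} (hT : 1 ≤ T) (S : Finset (Pt (clS adj) (word e)))
    (hS : ∀ x ∈ S, ∀ y ∈ S, x ≠ y → ε ≤ orbitDist shiftHomeo T x y) :
    S.card ≤ (4 * (T + 2 * N) + 1) + (T + 2 * N + 1) ^ 4 * Fintype.card V ^ (T + 2 * N) := by
  classical
  obtain ⟨W, hW, hW2⟩ := count_windows (e := e) (fun v : V => v) (T + 2 * N)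
  refine le_trans ?_ hW
  have hpid : ∀ a : Option (Bool × V), proj (fun v : V => v) a = a := by
    intro a; rcases a with _ | ⟨c, v⟩ <;> rfl
  refine Finset.card_le_card_of_injOn
    (fun y : Pt (clS adj) (word e) => fun t : Fin (T + 2 * N) => (y.val (((t : ℕ) : ℤ) - N))) ?_ ?_
  · intro y _
    obtain ⟨n, hn⟩ := exists_window y (T + 2 * N)
    have := hW2 ((n : ℤ) - N)
    have e1 : (fun t : Fin (T + 2 * N) => (y.val (((t : ℕ) : ℤ) - N))) =
        fun t : Fin (T + 2 * N) => proj (fun v : V => v)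
          (word e ((n : ℤ) - N + ((t : ℕ) : ℤ))) := by
      funext t
      rw [hn _ (by omega) (by have := t.2; omega), hpid]
      congr 1; ring
    show (fun t : Fin (T + 2 * N) => (y.val (((t : ℕ) : ℤ) - N))) ∈ (W : Set _)
    rw [e1]
    exact this
  · intro y hy z hz hyz
    by_contra hne
    have := hS y hy z hz hne
    rw [le_orbitDist_agree h1 h2 hT] at this
    obtain ⟨i, h3, h4, h5⟩ := this
    apply h5
    have := congrFun hyz ⟨(i + N).toNat, by omega⟩
    simp only at this
    rw [Int.toNat_of_nonneg (by omega)] at this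
    simpa using this

/-- lower bound by independent words -/
theorem sep_ge_words {C : Type} [Fintype C] (ι : C → V)
    (hι : ∀ a b, a ≠ b → farV adj false (ι a) (ι b)) (he : Function.Surjective e)
    {ε : ℝ} (h1 : 1 / 2 < ε) (h2 : ε ≤ 1) {T : ℕ} (hT : 1 ≤ T) {N : ℕ}
    (hN : ∀ S : Finset (Pt (clS adj) (word e)),
      (∀ x ∈ S, ∀ y ∈ S, x ≠ y → ε ≤ orbitDist shiftHomeo T x y) → S.card ≤ N) :
    Fintype.card C ^ T ≤ sep (shiftHomeo (cl := clS adj) (x := word e)) ε T := by
  classical
  have hpt : ∀ f : Fin T → C, ∃ y : Pt (clS adj) (word e), ∀ t : Fin T,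
      y.val ((t : ℕ) : ℤ) = some (false, ι (f t)) := by
    intro f
    have hTf : T ≤ Nat.factorial T := Nat.self_le_factorial T
    obtain ⟨y, hy⟩ := exists_point (adj := adj) he T
      (fun n => if h : n < T then ι (f ⟨n, h⟩) else default)
      (T := T) (by omega) 0 (by omega) (by omega)
    refine ⟨y, fun t => ?_⟩
    have ht := t.2
    rw [hy _ (by omega) (by omega), zero_add, blk_first (by omega) (by omega)]
    simp
  choose g hg using hpt
  have := card_le_sep (by linarith : (0 : ℝ) < ε) hN g (by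
    intro a b hab
    rw [le_orbitDist_far h1 h2 hT]
    obtain ⟨t, ht⟩ := Function.ne_iff.1 hab
    refine ⟨t, t.2, ?_⟩
    rw [hg a t, hg b t, far_some]
    exact hι _ _ ht)
  simpa using this

theorem sep_ge_words_small [Fintype V] (he : Function.Surjective e)
    {ε : ℝ} {N : ℕ} (h1 : (1 / 2) ^ (N + 2) < ε)
    (h2 : ε ≤ (1 / 2) ^ (N + 1)) {T : ℕ} (hT : 1 ≤ T) {M : ℕ}
    (hM : ∀ S : Finset (Pt (clS adj) (word e)),
      (∀ x ∈ S, ∀ y ∈ S, x ≠ y → ε ≤ orbitDist shiftHomeo T x y) → S.card ≤ M) :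
    Fintype.card V ^ T ≤ sep (shiftHomeo (cl := clS adj) (x := word e)) ε T := by
  classical
  have hpt : ∀ f : Fin T → V, ∃ y : Pt (clS adj) (word e), ∀ t : Fin T,
      y.val ((t : ℕ) : ℤ) = some (false, f t) := by
    intro f
    have hTf : T ≤ Nat.factorial T := Nat.self_le_factorial T
    obtain ⟨y, hy⟩ := exists_point (adj := adj) he T
      (fun n => if h : n < T then f ⟨n, h⟩ else default)
      (T := T) (by omega) 0 (by omega) (by omega)
    refine ⟨y, fun t => ?_⟩
    have ht := t.2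
    rw [hy _ (by omega) (by omega), zero_add, blk_first (by omega) (by omega)]
    simp
  choose g hg using hpt
  have hε : (0 : ℝ) < ε := lt_trans (by positivity) h1
  have := card_le_sep hε hM g (by
    intro a b hab
    rw [le_orbitDist_agree h1 h2 hT]
    obtain ⟨t, ht⟩ := Function.ne_iff.1 hab
    refine ⟨(t : ℕ), by omega, by have := t.2; omega, ?_⟩
    rw [hg a t, hg b t]
    simpa using ht)
  simpa using this

/-- the pattern of a single phase window -/
def Pattern {adj : Bool → V → V → Prop} (T : ℕ) (y : Pt (clS adj) (word e))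
    (c : Bool × (Fin (T + 1) × Fin (T + 1))) : Prop :=
  ∀ t : ℕ, t < T →
    (((c.2.1 : ℕ) ≤ t ∧ t < (c.2.2 : ℕ)) ∧ ∃ v, y.val t = some (c.1, v)) ∨
    (¬ ((c.2.1 : ℕ) ≤ t ∧ t < (c.2.2 : ℕ)) ∧ y.val t = none)

/-- windows of length `i!` : exceptional ones and single phase ones -/
theorem low_types [Fintype V] (adj : Bool → V → V → Prop) (he : Function.Surjective e)
    (i : ℕ) (hi : 1 ≤ i) {T : ℕ} (hT : T = Nat.factorial i) :
    ∃ E : Finset (Fin T → Option (Bool × V)),
      E.card ≤ (4 * T + 1) + i * ((6 * T + 1) * Fintype.card V ^ (2 * Nat.factorial (i - 1))) ∧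
      ∀ y : Pt (clS adj) (word e), (fun t : Fin T => y.val ((t : ℕ) : ℤ)) ∈ E ∨
        ∃ c : Bool × (Fin (T + 1) × Fin (T + 1)), Pattern T y c ∧
          ∀ v : V, ∃ z : Pt (clS adj) (word e), ∀ t : ℕ, t < T →
            (((c.2.1 : ℕ) ≤ t ∧ t < (c.2.2 : ℕ)) ∧ z.val t = some (c.1, v)) ∨
            (¬ ((c.2.1 : ℕ) ≤ t ∧ t < (c.2.2 : ℕ)) ∧ z.val t = none) := by
  obtain ⟨E, hE, hE2⟩ := low_structure (e := e) i hi hT
  refine ⟨E, hE, fun y => ?_⟩
  obtain ⟨n, hn⟩ := exists_window y T
  have e1 : (fun t : Fin T => y.val ((t : ℕ) : ℤ)) =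
      fun t : Fin T => word e ((n : ℤ) + ((t : ℕ) : ℤ)) := by
    funext t
    rw [hn _ (by omega) (by have := t.2; omega)]
  rcases hE2 n with h | ⟨s, u, q, hs, hq1, hq2, hsame⟩
  · left; rw [e1]; exact h
  · right
    obtain ⟨c, c1, c2, hc⟩ := single_phase (V := V) hs q
    refine ⟨(c, (c1, c2)), ?_, ?_⟩
    · intro t ht
      have h3 : y.val t = blk (Nat.factorial s) u (q + t) := by
        rw [hn _ (by omega) (by omega)]
        exact hsame t (by omega) (by omega)
      rcases hc u t ht with ⟨h4, m, h5⟩ | ⟨h4, h5⟩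
      · left; exact ⟨h4, u m, by rw [h3, h5]⟩
      · right; exact ⟨h4, by rw [h3, h5]⟩
    · intro v
      obtain ⟨z, hz⟩ := exists_point (adj := adj) he s (fun _ => v) (T := T) (by omega) q hq1 hq2
      refine ⟨z, fun t ht => ?_⟩
      have h3 := hz t (by omega) (by omega)
      rcases hc (fun _ => v) t ht with ⟨h4, m, h5⟩ | ⟨h4, h5⟩
      · left; exact ⟨h4, by rw [h3, h5]⟩
      · right; exact ⟨h4, by rw [h3, h5]⟩

/-- upper bound for separated sets at times `i!` -/
theorem sep_bound_low [Fintype V] (he : Function.Surjective e) {M : ℕ} (hM1 : 1 ≤ M)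
    (hM : ∀ (c : Bool) (T : ℕ) (F : Finset (Fin T → V)),
      (∀ f ∈ F, ∀ g ∈ F, f ≠ g → ∃ t, farV adj c (f t) (g t)) → F.card ≤ M ^ T)
    {ε : ℝ} (h1 : 1 / 2 < ε) (h2 : ε ≤ 1) (i : ℕ) (hi : 1 ≤ i) {T : ℕ} (hT : T = Nat.factorial i)
    (S : Finset (Pt (clS adj) (word e)))
    (hS : ∀ x ∈ S, ∀ y ∈ S, x ≠ y → ε ≤ orbitDist shiftHomeo T x y) :
    S.card ≤ M ^ T * (((4 * T + 1) + i * ((6 * T + 1) *
      Fintype.card V ^ (2 * Nat.factorial (i - 1)))) + 2 * (T + 1) ^ 2) := by
  classical
  have hT1 : 1 ≤ T := by rw [hT]; exact Nat.factorial_pos i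
  obtain ⟨E, hE, hE2⟩ := low_types adj he i hi hT
  have hMT : 1 ≤ M ^ T := Nat.one_le_pow _ _ hM1
  let win : Pt (clS adj) (word e) → (Fin T → Option (Bool × V)) :=
    fun y t => y.val ((t : ℕ) : ℤ)
  have hch : ∀ y : Pt (clS adj) (word e), ∃ τ : (Fin T → Option (Bool × V)) ⊕
      (Bool × (Fin (T + 1) × Fin (T + 1))),
      (τ = Sum.inl (win y) ∧ win y ∈ E) ∨ ∃ c, τ = Sum.inr c ∧ Pattern T y c := by
    intro y
    rcases hE2 y with h | ⟨c, hc, _⟩
    · exact ⟨Sum.inl (win y), Or.inl ⟨rfl, h⟩⟩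
    · exact ⟨Sum.inr c, Or.inr ⟨c, rfl, hc⟩⟩
  choose τ hτ using hch
  have hfib : ∀ a ∈ S.image τ, (S.filter (fun y => τ y = a)).card ≤ M ^ T := by
    intro a _
    rcases a with w | c
    · refine le_trans (Finset.card_le_one.2 ?_) hMT
      intro y hy z hz
      rw [Finset.mem_filter] at hy hz
      by_contra hne
      have hyz := hS y hy.1 z hz.1 hne
      rw [le_orbitDist_far h1 h2 hT1] at hyz
      obtain ⟨t, ht, hf⟩ := hyz
      have hy' : win y = w := by
        rcases hτ y with ⟨h3, _⟩ | ⟨c, h3, _⟩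
        · rw [hy.2] at h3; exact (Sum.inl.inj h3).symm
        · rw [hy.2] at h3; simp at h3
      have hz' : win z = w := by
        rcases hτ z with ⟨h3, _⟩ | ⟨c, h3, _⟩
        · rw [hz.2] at h3; exact (Sum.inl.inj h3).symm
        · rw [hz.2] at h3; simp at h3
      have h4 : win y ⟨t, ht⟩ = win z ⟨t, ht⟩ := by rw [hy', hz']
      have h5 : y.val t = z.val t := h4
      rw [h5] at hf
      exact not_far_self _ hf
    · have hpat : ∀ y ∈ S.filter (fun y => τ y = Sum.inr c), Pattern T y c := by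
        intro y hy
        rw [Finset.mem_filter] at hy
        rcases hτ y with ⟨h3, _⟩ | ⟨c', h3, h4⟩
        · rw [hy.2] at h3; simp at h3
        · rw [hy.2] at h3
          rw [Sum.inr.inj h3]; exact h4
      let lt : Pt (clS adj) (word e) → (Fin T → V) := fun y t => letter (y.val ((t : ℕ) : ℤ))
      have hfar : ∀ y ∈ S.filter (fun y => τ y = Sum.inr c),
          ∀ z ∈ S.filter (fun y => τ y = Sum.inr c), y ≠ z →
          ∃ t, farV adj c.1 (lt y t) (lt z t) := by
        intro y hy z hz hne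
        have hyz := hS y (Finset.mem_filter.1 hy).1 z (Finset.mem_filter.1 hz).1 hne
        rw [le_orbitDist_far h1 h2 hT1] at hyz
        obtain ⟨t, ht, hf⟩ := hyz
        refine ⟨⟨t, ht⟩, ?_⟩
        rcases hpat y hy t ht with ⟨h3, v, h4⟩ | ⟨h3, h4⟩
        · rcases hpat z hz t ht with ⟨h5, v', h6⟩ | ⟨h5, h6⟩
          · show farV adj c.1 (letter (y.val ((t : ℕ) : ℤ))) (letter (z.val ((t : ℕ) : ℤ)))
            rw [h4, h6]
            rw [h4, h6, far_some] at hf
            exact hf
          · exact absurd h3 h5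
        · rcases hpat z hz t ht with ⟨h5, v', h6⟩ | ⟨h5, h6⟩
          · exact absurd h5 h3
          · rw [h4, h6] at hf
            exact absurd hf not_far_none
      have hinj : Set.InjOn lt (S.filter (fun y => τ y = Sum.inr c)) := by
        intro y hy z hz hyz
        by_contra hne
        obtain ⟨t, ht⟩ := hfar y hy z hz hne
        rw [hyz] at ht
        exact ht.1 rfl
      rw [← Finset.card_image_of_injOn hinj]
      apply hM c.1
      intro f hf g hg hne
      rw [Finset.mem_image] at hf hg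
      obtain ⟨y, hy, rfl⟩ := hf
      obtain ⟨z, hz, rfl⟩ := hg
      exact hfar y hy z hz (fun h => hne (by rw [h]))
  have himg : (S.image τ).card ≤ E.card + 2 * (T + 1) ^ 2 := by
    have hsub : S.image τ ⊆ E.image Sum.inl ∪
        (Finset.univ : Finset (Bool × (Fin (T + 1) × Fin (T + 1)))).image Sum.inr := by
      intro a ha
      rw [Finset.mem_image] at ha
      obtain ⟨y, _, rfl⟩ := ha
      rw [Finset.mem_union]
      rcases hτ y with ⟨h3, h4⟩ | ⟨c, h3, _⟩
      · left; rw [h3]; exact Finset.mem_image_of_mem _ h4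
      · right; rw [h3]; exact Finset.mem_image_of_mem _ (Finset.mem_univ _)
    refine (Finset.card_le_card hsub).trans ((Finset.card_union_le _ _).trans ?_)
    refine Nat.add_le_add Finset.card_image_le (Finset.card_image_le.trans ?_)
    simp only [Finset.card_univ, Fintype.card_prod, Fintype.card_bool, Fintype.card_fin]
    apply le_of_eq; ring
  refine (Finset.card_le_mul_card_image (f := τ) S (M ^ T) hfib).trans ?_
  exact Nat.mul_le_mul_left _ (himg.trans (by omega))

/-- small spanning sets at times `i!` -/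
theorem span_bound_low [Fintype V] (he : Function.Surjective e) (ctr : Bool → V)
    (hctr : ∀ c v, ¬ farV adj c (ctr c) v)
    {ε : ℝ} (h1 : 1 / 2 < ε) (h2 : ε ≤ 1) (i : ℕ) (hi : 1 ≤ i) {T : ℕ}
    (hT : T = Nat.factorial i) :
    span (shiftHomeo (cl := clS adj) (x := word e)) ε T ≤ ((4 * T + 1) + i * ((6 * T + 1) *
      Fintype.card V ^ (2 * Nat.factorial (i - 1)))) + 2 * (T + 1) ^ 2 := by
  classical
  have hT1 : 1 ≤ T := by rw [hT]; exact Nat.factorial_pos i
  obtain ⟨E, hE, hE2⟩ := low_types adj he i hi hT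
  let y0 : Pt (clS adj) (word e) := basePt (word_isLim e) 0
  let win : Pt (clS adj) (word e) → (Fin T → Option (Bool × V)) :=
    fun y t => y.val ((t : ℕ) : ℤ)
  let pick1 : (Fin T → Option (Bool × V)) → Pt (clS adj) (word e) := fun w =>
    if h : ∃ y, win y = w then h.choose else y0
  let Q : (Bool × (Fin (T + 1) × Fin (T + 1))) → Pt (clS adj) (word e) → Prop := fun c z =>
    ∀ t : ℕ, t < T → (((c.2.1 : ℕ) ≤ t ∧ t < (c.2.2 : ℕ)) ∧ z.val t = some (c.1, ctr c.1)) ∨
            (¬ ((c.2.1 : ℕ) ≤ t ∧ t < (c.2.2 : ℕ)) ∧ z.val t = none)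
  let pick2 : (Bool × (Fin (T + 1) × Fin (T + 1))) → Pt (clS adj) (word e) := fun c =>
    if h : ∃ z, Q c z then h.choose else y0
  let S0 : Finset (Pt (clS adj) (word e)) := E.image pick1 ∪ Finset.univ.image pick2
  have hspan : ∀ y : Pt (clS adj) (word e), ∃ s ∈ S0, orbitDist shiftHomeo T s y < ε := by
    intro y
    rcases hE2 y with h | ⟨c, hc, hz⟩
    · refine ⟨pick1 (win y), Finset.mem_union_left _ (Finset.mem_image_of_mem _ h), ?_⟩
      rw [orbitDist_lt_far h1 h2 hT1]
      intro t ht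
      have hex : ∃ z, win z = win y := ⟨y, rfl⟩
      have h3 : win (pick1 (win y)) = win y := by
        simp only [pick1]
        rw [dif_pos hex]
        exact hex.choose_spec
      have h4 : (pick1 (win y)).val t = y.val t := congrFun h3 ⟨t, ht⟩
      rw [h4]
      exact not_far_self _
    · refine ⟨pick2 c, Finset.mem_union_right _ (Finset.mem_image_of_mem _ (Finset.mem_univ _)), ?_⟩
      rw [orbitDist_lt_far h1 h2 hT1]
      intro t ht
      have hex : ∃ z, Q c z := hz (ctr c.1)
      have h3 : Q c (pick2 c) := by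
        simp only [pick2]
        rw [dif_pos hex]
        exact hex.choose_spec
      rcases h3 t ht with ⟨h5, h6⟩ | ⟨h5, h6⟩
      · rcases hc t ht with ⟨h7, v, h8⟩ | ⟨h7, h8⟩
        · rw [h6, h8, far_some]
          exact hctr _ _
        · exact absurd h5 h7
      · rcases hc t ht with ⟨h7, v, h8⟩ | ⟨h7, h8⟩
        · exact absurd h7 h5
        · rw [h6, h8]
          exact not_far_none
  refine (span_le hspan).trans ((Finset.card_union_le _ _).trans ?_)
  refine Nat.add_le_add (Finset.card_image_le.trans hE) (Finset.card_image_le.trans ?_)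
  simp only [Finset.card_univ, Fintype.card_prod, Fintype.card_bool, Fintype.card_fin]
  apply le_of_eq; ring

/-- lower bound for spanning sets at times `5 * i! + 2` -/
theorem span_ge_high {C : Type} [Fintype C] (cls : V → C) (sec : C → V)
    (hsec : ∀ c, cls (sec c) = c)
    (hcls : ∀ v v', ¬ farV adj false v v' → ¬ farV adj true v v' → cls v = cls v')
    (he : Function.Surjective e) {ε : ℝ} (h1 : 1 / 2 < ε) (h2 : ε ≤ 1) (i : ℕ) {T : ℕ}
    (hT : T = 5 * Nat.factorial i + 2) (S : Finset (Pt (clS adj) (word e)))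
    (hS : ∀ y : Pt (clS adj) (word e), ∃ s ∈ S, orbitDist shiftHomeo T s y < ε) :
    Fintype.card C ^ (2 * Nat.factorial i) ≤ S.card := by
  classical
  have hT1 : 1 ≤ T := by omega
  set h := Nat.factorial i with hh
  have hpos : 1 ≤ h := Nat.factorial_pos i
  let uu : (Fin (2 * h) → C) → ℕ → V := fun f n =>
    if hn : n < 2 * h then sec (f ⟨n, hn⟩) else default
  have hpt : ∀ f : Fin (2 * h) → C, ∃ y : Pt (clS adj) (word e), ∀ t : ℤ, 0 ≤ t → t < T →
      y.val t = blk h (uu f) (-1 + t) := fun f =>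
    exists_point he i (uu f) (T := T) (by omega) (-1) (by omega) (by omega)
  choose g hg using hpt
  choose s hsS hs using fun f => hS (g f)
  have key : ∀ f : Fin (2 * h) → C, ∀ n : Fin (2 * h),
      ∃ v, (s f).val ((n : ℕ) + 1 : ℤ) = some (false, v) ∧ cls v = f n := by
    intro f n
    have hd := (orbitDist_lt_far h1 h2 hT1).1 (hs f)
    have hd' : ∀ t : ℤ, 0 ≤ t → t < T → ¬ far (clS adj) ((s f).val t) (blk h (uu f) (-1 + t)) := by
      intro t h0 ht
      have := hd t.toNat (by omega)
      rw [Int.toNat_of_nonneg h0, hg f t h0 ht] at this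
      exact this
    have hn := n.2
    have hhT : (T : ℤ) = 5 * h + 2 := by rw [hT]; push_cast; ring
    -- the first phase of s f
    have hrun : ∀ t : ℤ, 1 ≤ t → t ≤ 2 * h → ∃ v, (s f).val t = some (false, v) := by
      intro t ht1 ht2
      have := hd' t (by omega) (by omega)
      rw [blk_first (by omega) (by omega)] at this
      obtain ⟨v, hv, _⟩ := not_far_some this
      exact ⟨v, hv⟩
    have h0n : (s f).val 0 = none := by
      have := hd' 0 (by omega) (by omega)
      rw [blk_none (by omega) (by omega)] at this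
      exact not_far_none' this
    have hend : (s f).val (2 * h + 1) = none := by
      have := hd' (2 * h + 1) (by omega) (by omega)
      rw [blk_none (by omega) (by omega)] at this
      exact not_far_none' this
    -- transfer to the word
    obtain ⟨p, hp⟩ := exists_window (s f) T
    have a1 := hd' ((n : ℕ) + 1 : ℤ) (by omega) (by omega)
    rw [blk_first (by omega) (by omega)] at a1
    obtain ⟨v, hv, hfar1⟩ := not_far_some a1
    have hmatch := word_matched e p h hpos
      (by rw [← h0n, hp 0 (by omega) (by omega), add_zero])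
      (fun t ht1 ht2 => by
        obtain ⟨w, hw⟩ := hrun t ht1 ht2
        exact ⟨w, by rw [← hw, hp t (by omega) (by omega)]⟩)
      (by rw [← hend, hp (2 * h + 1) (by omega) (by omega)]; congr 1)
      ((n : ℕ) + 1 : ℤ) v (by omega) (by omega)
      (by rw [← hv, hp _ (by omega) (by omega)])
    have hsecond : (s f).val (3 * h + ((n : ℕ) + 1) : ℤ) = some (true, v) := by
      rw [hp _ (by omega) (by omega), ← hmatch]
      congr 1; ring
    have a2 := hd' (3 * h + ((n : ℕ) + 1) : ℤ) (by omega) (by omega)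
    rw [blk_second (by omega) (by omega), hsecond, far_some] at a2
    have e1 : (-1 + ((n : ℕ) + 1 : ℤ)).toNat = n := by omega
    have e2 : (-1 + (3 * h + ((n : ℕ) + 1) : ℤ) - 3 * h).toNat = n := by omega
    rw [e1] at hfar1
    rw [e2] at a2
    have e3 : uu f n = sec (f n) := by simp only [uu]; rw [dif_pos n.2]
    refine ⟨v, hv, ?_⟩
    rw [hcls _ _ hfar1 a2, e3, hsec]
  have hinj : Function.Injective s := by
    intro f f' hff
    funext n
    obtain ⟨v, hv, hv2⟩ := key f n
    obtain ⟨v', hv', hv2'⟩ := key f' n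
    rw [hff, hv'] at hv
    simp only [Option.some.injEq, Prod.mk.injEq, true_and] at hv
    rw [← hv2, ← hv2', hv]
  have : (Finset.univ.image s).card ≤ S.card := by
    apply Finset.card_le_card
    intro y hy
    rw [Finset.mem_image] at hy
    obtain ⟨f, _, rfl⟩ := hy
    exact hsS f
  rw [Finset.card_image_of_injective _ hinj, Finset.card_univ] at this
  simpa using this

end Main

end Pool.Agent.V11112.TE
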