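import Pool.Agent.V11112.TE4

/-!
Asymptotics.
-/

open Filter Topology

namespace Pool.Agent.V11112.TE

theorem tendsto_log_shift (K : ℕ) :
    Tendsto (fun T : ℕ => Real.log ((T : ℝ) + K + 1) / T) atTop (𝓝 0) := by
  have h := Real.tendsto_pow_log_div_mul_add_atTop 1 (-((K : ℝ) + 1)) 1 one_ne_zero
  have h2 : Tendsto (fun T : ℕ => (T : ℝ) + K + 1) atTop atTop :=
    tendsto_atTop_add_const_right _ _ (tendsto_atTop_add_const_right _ _
      tendsto_natCast_atTop_atTop)
  refine (h.comp h2).congr (fun T => ?_)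
  simp only [Function.comp_apply, pow_one, one_mul]
  congr 1
  ring

/-- growth rate of a sequence between `a^T` and a polynomial times `a^(T+K)` -/
theorem tendsto_rate {a K : ℕ} (ha : 1 ≤ a) {s : ℕ → ℕ}
    (h1 : ∀ T, 1 ≤ T → a ^ T ≤ s T)
    (h2 : ∀ T, 1 ≤ T → s T ≤ (4 * (T + K) + 1) + (T + K + 1) ^ 4 * a ^ (T + K)) :
    Tendsto (fun T : ℕ => Real.log (s T) / T) atTop (𝓝 (Real.log a)) := by
  have ha' : (1 : ℝ) ≤ a := by exact_mod_cast ha
  have hl : 0 ≤ Real.log a := Real.log_nonneg ha'
  have hup : Tendsto (fun T : ℕ => Real.log 5 / T + 4 * (Real.log ((T : ℝ) + K + 1) / T) +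
      (Real.log a + (K * Real.log a) / T)) atTop (𝓝 (0 + 4 * 0 + (Real.log a + 0))) :=
    ((tendsto_const_div_atTop_nhds_zero_nat _).add ((tendsto_log_shift K).const_mul 4)).add
      (tendsto_const_nhds.add (tendsto_const_div_atTop_nhds_zero_nat _))
  rw [mul_zero, add_zero, zero_add, add_zero] at hup
  refine tendsto_of_tendsto_of_tendsto_of_le_of_le' tendsto_const_nhds hup ?_ ?_
  · filter_upwards [eventually_ge_atTop 1] with T hT
    have hT' : (0 : ℝ) < T := by exact_mod_cast hT
    rw [le_div_iff₀ hT']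
    have : ((a ^ T : ℕ) : ℝ) ≤ s T := by exact_mod_cast h1 T hT
    have h3 := Real.log_le_log (by positivity) this
    push_cast at h3
    rw [Real.log_pow] at h3
    linarith
  · filter_upwards [eventually_ge_atTop 1] with T hT
    have hT' : (0 : ℝ) < T := by exact_mod_cast hT
    have hs1 : 1 ≤ s T := le_trans (Nat.one_le_pow _ _ ha) (h1 T hT)
    have hs1' : (0 : ℝ) < s T := by exact_mod_cast hs1
    have hb : s T ≤ 5 * ((T + K + 1) ^ 4 * a ^ (T + K)) := by
      refine (h2 T hT).trans ?_
      have h3 : 1 ≤ a ^ (T + K) := Nat.one_le_pow _ _ ha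
      have h4 : T + K + 1 ≤ (T + K + 1) ^ 4 := Nat.le_self_pow (by norm_num) _
      have h5 : 4 * (T + K) + 1 ≤ 4 * ((T + K + 1) ^ 4 * a ^ (T + K)) := by
        have : (T + K + 1) ^ 4 * 1 ≤ (T + K + 1) ^ 4 * a ^ (T + K) := Nat.mul_le_mul_left _ h3
        omega
      omega
    have hb' : (s T : ℝ) ≤ 5 * (((T : ℝ) + K + 1) ^ 4 * (a : ℝ) ^ (T + K)) := by exact_mod_cast hb
    have h6 := Real.log_le_log hs1' hb'
    rw [Real.log_mul (by norm_num) (by positivity), Real.log_mul (by positivity) (by positivity),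
      Real.log_pow, Real.log_pow] at h6
    push_cast at h6
    rw [div_le_iff₀ hT']
    have e1 : (Real.log 5 / T + 4 * (Real.log ((T : ℝ) + K + 1) / T) +
      (Real.log a + (K * Real.log a) / T)) * T =
      Real.log 5 + (4 * Real.log ((T : ℝ) + K + 1) + (T + K) * Real.log a) := by
      field_simp
      ring
    rw [e1]
    linarith

/-- the number of exceptional types at time `i!` -/
def excep (a i : ℕ) : ℕ :=
  ((4 * Nat.factorial i + 1) + i * ((6 * Nat.factorial i + 1) *
      a ^ (2 * Nat.factorial (i - 1)))) + 2 * (Nat.factorial i + 1) ^ 2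

theorem tendsto_factorial_nat : Tendsto Nat.factorial atTop atTop :=
  tendsto_atTop_mono Nat.self_le_factorial tendsto_id

theorem tendsto_excep {a : ℕ} (ha : 1 ≤ a) :
    Tendsto (fun i : ℕ => Real.log (excep a i) / (Nat.factorial i : ℝ)) atTop (𝓝 0) := by
  have hl : 0 ≤ Real.log a := Real.log_nonneg (by exact_mod_cast ha)
  have t1 : Tendsto (fun i : ℕ => Real.log 12 / (Nat.factorial i : ℝ)) atTop (𝓝 0) :=
    (tendsto_const_div_atTop_nhds_zero_nat (Real.log 12)).comp tendsto_factorial_nat
  have t2 : Tendsto (fun i : ℕ => Real.log ((Nat.factorial i : ℝ) + (0 : ℕ) + 1) /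
      (Nat.factorial i : ℝ)) atTop (𝓝 0) := (tendsto_log_shift 0).comp tendsto_factorial_nat
  have t3 : Tendsto (fun i : ℕ => (2 * Real.log a) / (i : ℝ)) atTop (𝓝 0) :=
    tendsto_const_div_atTop_nhds_zero_nat _
  have hup := (t1.add (t2.const_mul 2)).add t3
  rw [mul_zero, add_zero, add_zero] at hup
  refine squeeze_zero' ?_ ?_ hup
  · filter_upwards with i
    exact div_nonneg (Real.log_natCast_nonneg _) (by positivity)
  · filter_upwards [eventually_ge_atTop 1] with i hi
    obtain ⟨m, rfl⟩ : ∃ m, i = m + 1 := ⟨i - 1, by omega⟩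
    set T := Nat.factorial (m + 1) with hT
    have hTpos : 1 ≤ T := Nat.factorial_pos _
    have hT' : (0 : ℝ) < T := by exact_mod_cast hTpos
    have hiT : m + 1 ≤ T := Nat.self_le_factorial _
    have hA : 1 ≤ a ^ (2 * Nat.factorial m) := Nat.one_le_pow _ _ ha
    have hb : excep a (m + 1) ≤ 12 * ((T + 1) ^ 2 * a ^ (2 * Nat.factorial m)) := by
      unfold excep
      rw [← hT, Nat.add_sub_cancel]
      set A := a ^ (2 * Nat.factorial m) with hAdef
      have b1 : (m + 1) * ((6 * T + 1) * A) ≤ T * ((6 * T + 1) * A) := Nat.mul_le_mul_right _ hiT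
      have b2 : (4 * T + 1) ≤ (4 * T + 1) * A := Nat.le_mul_of_pos_right _ hA
      have b3 : 2 * (T + 1) ^ 2 ≤ 2 * (T + 1) ^ 2 * A := Nat.le_mul_of_pos_right _ hA
      have b4 : (4 * T + 1) * A + T * ((6 * T + 1) * A) + 2 * (T + 1) ^ 2 * A ≤
          12 * ((T + 1) ^ 2 * A) := by
        have : (4 * T + 1) + T * (6 * T + 1) + 2 * (T + 1) ^ 2 ≤ 12 * (T + 1) ^ 2 := by nlinarith
        calc (4 * T + 1) * A + T * ((6 * T + 1) * A) + 2 * (T + 1) ^ 2 * A
            = ((4 * T + 1) + T * (6 * T + 1) + 2 * (T + 1) ^ 2) * A := by ring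
          _ ≤ (12 * (T + 1) ^ 2) * A := Nat.mul_le_mul_right _ this
          _ = 12 * ((T + 1) ^ 2 * A) := by ring
      omega
    have hpos : 0 < excep a (m + 1) := by unfold excep; omega
    have hpos' : (0 : ℝ) < excep a (m + 1) := by exact_mod_cast hpos
    have ha0 : (0 : ℝ) < a := by exact_mod_cast ha
    have hb' : (excep a (m + 1) : ℝ) ≤
        12 * (((T : ℝ) + 1) ^ 2 * (a : ℝ) ^ (2 * Nat.factorial m)) := by exact_mod_cast hb
    have h6 := Real.log_le_log hpos' hb'
    rw [Real.log_mul (by norm_num) (by positivity), Real.log_mul (by positivity) (by positivity),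
      Real.log_pow, Real.log_pow] at h6
    push_cast at h6
    rw [div_le_iff₀ hT']
    have hTf : (T : ℝ) = ((m : ℝ) + 1) * Nat.factorial m := by
      rw [hT, Nat.factorial_succ]; push_cast; ring
    have e1 : (Real.log 12 / (T : ℝ) + 2 * (Real.log ((T : ℝ) + (0 : ℕ) + 1) / (T : ℝ)) +
        (2 * Real.log a) / ((m + 1 : ℕ) : ℝ)) * T =
        Real.log 12 + (2 * Real.log ((T : ℝ) + 1) + 2 * Nat.factorial m * Real.log a) := by
      have e2 : (2 * Real.log a) / ((m + 1 : ℕ) : ℝ) * T = 2 * Nat.factorial m * Real.log a := by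
        rw [hTf]; push_cast; field_simp
      rw [add_mul, e2]
      push_cast
      rw [add_zero]
      field_simp
      ring
    rw [e1]
    linarith

section Rates
variable {V : Type} [Inhabited V] [Fintype V] {adj : Bool → V → V → Prop} {e : ℕ → ℕ × List V}

theorem one_le_cardV : 1 ≤ Fintype.card V := Fintype.card_pos

/-- growth rate of `sep` for small `ε` -/
theorem tendsto_sep_small (he : Function.Surjective e) {ε : ℝ} (hε : 0 < ε) (hε2 : ε ≤ 1 / 2) :
    Tendsto (fun T : ℕ => Real.log (sep (shiftHomeo (cl := clS adj) (x := word e)) ε T) / T) atTop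
      (𝓝 (Real.log (Fintype.card V))) := by
  obtain ⟨n, hn1, hn2⟩ := exists_nat_pow_near_of_lt_one hε (by linarith)
    (by norm_num : (0 : ℝ) < 1 / 2) (by norm_num)
  obtain ⟨N, rfl⟩ : ∃ N, n = N + 1 := by
    refine ⟨n - 1, ?_⟩
    have : n ≠ 0 := by
      rintro rfl
      norm_num at hn1
      linarith
    omega
  refine tendsto_rate (K := 2 * N) one_le_cardV (fun T hT => ?_) (fun T hT => ?_)
  · exact sep_ge_words_small he hn1 hn2 hT (sep_bound_small hn1 hn2 hT)
  · exact sep_le (sep_bound_small hn1 hn2 hT)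

theorem hasEntropy (he : Function.Surjective e) :
    HasEntropy (shiftHomeo (cl := clS adj) (x := word e)) (Real.log (Fintype.card V)) := by
  unfold HasEntropy
  refine Tendsto.congr' ?_ tendsto_const_nhds
  have : Set.Ioc (0 : ℝ) (1 / 2) ∈ 𝓝[>] (0 : ℝ) := Ioc_mem_nhdsGT (by norm_num)
  filter_upwards [this] with ε hε
  exact ((tendsto_sep_small he hε.1 hε.2).limsup_eq).symm

/-- growth rate of `sep` for intermediate `ε` -/
theorem tendsto_sep_mid {C : Type} [Fintype C] (κ : V → C)
    (hκ : ∀ c v v', κ v = κ v' → ¬ farV adj c v v') (ι : C → V)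
    (hι : ∀ a b, a ≠ b → farV adj false (ι a) (ι b)) (hC : 1 ≤ Fintype.card C)
    (he : Function.Surjective e) {ε : ℝ} (h1 : 1 / 2 < ε) (h2 : ε ≤ 1) :
    Tendsto (fun T : ℕ => Real.log (sep (shiftHomeo (cl := clS adj) (x := word e)) ε T) / T) atTop
      (𝓝 (Real.log (Fintype.card C))) := by
  refine tendsto_rate (K := 0) hC (fun T hT => ?_) (fun T hT => ?_)
  · exact sep_ge_words ι hι he h1 h2 hT (sep_bound_color κ hκ h1 h2 hT)
  · exact sep_le (sep_bound_color κ hκ h1 h2 hT)

/-- growth rate of `sep` for large `ε` -/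
theorem tendsto_sep_large {ε : ℝ} (h1 : 1 < ε) :
    Tendsto (fun T : ℕ => Real.log (sep (shiftHomeo (cl := clS adj) (x := word e)) ε T) / T) atTop
      (𝓝 0) := by
  refine Tendsto.congr' ?_ tendsto_const_nhds
  filter_upwards [eventually_ge_atTop 1] with T hT
  have hle : sep (shiftHomeo (cl := clS adj) (x := word e)) ε T ≤ 1 := by
    apply sep_le
    intro S hS
    rw [Finset.card_le_one]
    intro y hy z hz
    by_contra hne
    exact orbitDist_le_one hT h1 y z (hS y hy z hz hne)
  have : sep (shiftHomeo (cl := clS adj) (x := word e)) ε T = 0 ∨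
      sep (shiftHomeo (cl := clS adj) (x := word e)) ε T = 1 := by omega
  rcases this with h | h <;> rw [h] <;> simp

/-- all separated sets are bounded, for intermediate `ε` -/
theorem sep_bound_id {ε : ℝ} (h1 : 1 / 2 < ε) (h2 : ε ≤ 1) {T : ℕ} (hT : 1 ≤ T)
    (S : Finset (Pt (clS adj) (word e)))
    (hS : ∀ x ∈ S, ∀ y ∈ S, x ≠ y → ε ≤ orbitDist shiftHomeo T x y) :
    S.card ≤ (4 * T + 1) + (T + 1) ^ 4 * Fintype.card V ^ T :=
  sep_bound_color (fun v : V => v) (fun _ _ _ h hf => hf.1 h) h1 h2 hT S hS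

theorem sep_rate_bounded {ε : ℝ} (h1 : 1 / 2 < ε) (h2 : ε ≤ 1) :
    IsBoundedUnder (· ≤ ·) atTop (fun T : ℕ =>
      Real.log (sep (shiftHomeo (cl := clS adj) (x := word e)) ε T) / T) := by
  have ha : 1 ≤ Fintype.card V := one_le_cardV
  have htend : Tendsto (fun T : ℕ => Real.log (((4 * (T + 0) + 1) + (T + 0 + 1) ^ 4 *
      Fintype.card V ^ (T + 0) : ℕ)) / T) atTop (𝓝 (Real.log (Fintype.card V))) := by
    refine tendsto_rate (K := 0) ha (fun T _ => ?_) (fun T _ => le_rfl)
    have : 1 ≤ (T + 0 + 1) ^ 4 := Nat.one_le_pow _ _ (by omega)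
    calc Fintype.card V ^ T = 1 * Fintype.card V ^ (T + 0) := by simp
      _ ≤ (T + 0 + 1) ^ 4 * Fintype.card V ^ (T + 0) := Nat.mul_le_mul_right _ this
      _ ≤ _ := Nat.le_add_left _ _
  refine htend.isBoundedUnder_le.mono_le ?_
  filter_upwards [eventually_ge_atTop 1] with T hT
  have hT' : (0 : ℝ) < T := by exact_mod_cast hT
  have hle := sep_le (sep_bound_id (adj := adj) (e := e) h1 h2 hT)
  rcases Nat.eq_zero_or_pos (sep (shiftHomeo (cl := clS adj) (x := word e)) ε T) with h0 | h0
  · rw [h0]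
    simp only [Nat.cast_zero, Real.log_zero, zero_div]
    exact div_nonneg (Real.log_natCast_nonneg _) hT'.le
  · gcongr
    exact_mod_cast hle

theorem span_rate_bounded {ε : ℝ} (h1 : 1 / 2 < ε) (h2 : ε ≤ 1) :
    IsBoundedUnder (· ≤ ·) atTop (fun T : ℕ =>
      Real.log (span (shiftHomeo (cl := clS adj) (x := word e)) ε T) / T) := by
  refine (sep_rate_bounded (adj := adj) (e := e) h1 h2).mono_le ?_
  filter_upwards [eventually_ge_atTop 1] with T hT
  have hT' : (0 : ℝ) < T := by exact_mod_cast hT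
  have hle := span_le_sep (by linarith : (0 : ℝ) < ε)
    (sep_bound_id (adj := adj) (e := e) h1 h2 hT)
  rcases Nat.eq_zero_or_pos (span (shiftHomeo (cl := clS adj) (x := word e)) ε T) with h0 | h0
  · rw [h0]
    simp only [Nat.cast_zero, Real.log_zero, zero_div]
    exact div_nonneg (Real.log_natCast_nonneg _) hT'.le
  · gcongr

theorem rate_bounded_below (s : ℕ → ℕ) :
    IsBoundedUnder (· ≥ ·) atTop (fun T : ℕ => Real.log (s T) / T) :=
  isBoundedUnder_of ⟨0, fun T => div_nonneg (Real.log_natCast_nonneg _) (by positivity)⟩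

theorem tendsto_high : Tendsto (fun i : ℕ => 5 * Nat.factorial i + 2) atTop atTop :=
  tendsto_atTop_mono (fun i => by
    have := Nat.self_le_factorial i
    simp only [id]
    omega) tendsto_id

/-- lower bound of the upper rate of `span` -/
theorem upperSpan_ge {C : Type} [Fintype C] (cls : V → C) (sec : C → V)
    (hsec : ∀ c, cls (sec c) = c)
    (hcls : ∀ v v', ¬ farV adj false v v' → ¬ farV adj true v v' → cls v = cls v')
    (hC : 1 ≤ Fintype.card C)
    (he : Function.Surjective e) {ε : ℝ} (h1 : 1 / 2 < ε) (h2 : ε ≤ 1) {c : ℝ}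
    (hc : c < 2 / 5 * Real.log (Fintype.card C)) :
    c ≤ upperSpan (shiftHomeo (cl := clS adj) (x := word e)) ε ∧
      c ≤ upperSep (shiftHomeo (cl := clS adj) (x := word e)) ε := by
  have hl : 0 ≤ Real.log (Fintype.card C) := Real.log_nonneg (by exact_mod_cast hC)
  have hlow : ∀ i : ℕ, Real.log (Fintype.card C) * (2 * Nat.factorial i) ≤
      Real.log (span (shiftHomeo (cl := clS adj) (x := word e)) ε (5 * Nat.factorial i + 2)) := by
    intro i
    have hT : 1 ≤ 5 * Nat.factorial i + 2 := by omega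
    obtain ⟨S0, hS0, _⟩ := exists_spanning (by linarith : (0 : ℝ) < ε)
      (sep_bound_id (adj := adj) (e := e) h1 h2 hT)
    have := le_span hS0 (fun S hS => span_ge_high cls sec hsec hcls he h1 h2 i rfl S hS)
    have h3 : ((Fintype.card C ^ (2 * Nat.factorial i) : ℕ) : ℝ) ≤
        span (shiftHomeo (cl := clS adj) (x := word e)) ε (5 * Nat.factorial i + 2) := by
      exact_mod_cast this
    have hC' : (0 : ℝ) < Fintype.card C := by exact_mod_cast hC
    have h4 := Real.log_le_log (by positivity) h3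
    push_cast at h4
    rw [Real.log_pow] at h4
    push_cast at h4
    linarith
  have hlow2 : ∀ i : ℕ, Real.log (Fintype.card C) * (2 * Nat.factorial i) ≤
      Real.log (sep (shiftHomeo (cl := clS adj) (x := word e)) ε (5 * Nat.factorial i + 2)) := by
    intro i
    have hT : 1 ≤ 5 * Nat.factorial i + 2 := by omega
    have h5 := span_le_sep (by linarith : (0 : ℝ) < ε)
      (sep_bound_id (adj := adj) (e := e) h1 h2 hT)
    refine (hlow i).trans ?_
    rcases Nat.eq_zero_or_pos (span (shiftHomeo (cl := clS adj) (x := word e)) ε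
      (5 * Nat.factorial i + 2)) with h0 | h0
    · rw [h0]; simp only [Nat.cast_zero, Real.log_zero]; exact Real.log_natCast_nonneg _
    · exact Real.log_le_log (by exact_mod_cast h0) (by exact_mod_cast h5)
  have hratio : Tendsto (fun i : ℕ => Real.log (Fintype.card C) * (2 * Nat.factorial i) /
      ((5 * Nat.factorial i + 2 : ℕ) : ℝ)) atTop (𝓝 (2 / 5 * Real.log (Fintype.card C))) := by
    have t1 : Tendsto (fun i : ℕ => (2 : ℝ) / (Nat.factorial i : ℝ)) atTop (𝓝 0) :=
      (tendsto_const_div_atTop_nhds_zero_nat (2 : ℝ)).comp tendsto_factorial_nat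
    have t2 : Tendsto (fun i : ℕ => (Real.log (Fintype.card C) * 2) /
        (5 + (2 : ℝ) / (Nat.factorial i : ℝ))) atTop
        (𝓝 ((Real.log (Fintype.card C) * 2) / (5 + 0))) :=
      tendsto_const_nhds.div (tendsto_const_nhds.add t1) (by norm_num)
    have e0 : (Real.log (Fintype.card C) * 2) / (5 + 0) = 2 / 5 * Real.log (Fintype.card C) := by
      ring
    rw [e0] at t2
    refine t2.congr (fun i => ?_)
    have hpos : (0 : ℝ) < Nat.factorial i := by exact_mod_cast Nat.factorial_pos i
    push_cast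
    field_simp
  have hev := hratio.eventually (lt_mem_nhds hc)
  constructor
  · refine le_limsup_of_frequently_le (tendsto_high.frequently (Eventually.frequently ?_))
      (span_rate_bounded h1 h2)
    filter_upwards [hev] with i hi
    refine hi.le.trans ?_
    gcongr
    exact hlow i
  · refine le_limsup_of_frequently_le (tendsto_high.frequently (Eventually.frequently ?_))
      (sep_rate_bounded h1 h2)
    filter_upwards [hev] with i hi
    refine hi.le.trans ?_
    gcongr
    exact hlow2 i

/-- upper bound of the lower rate of `span`, with dominating letters -/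
theorem lowerSpan_le_zero (he : Function.Surjective e) (ctr : Bool → V)
    (hctr : ∀ c v, ¬ farV adj c (ctr c) v)
    {ε : ℝ} (h1 : 1 / 2 < ε) (h2 : ε ≤ 1) :
    lowerSpan (shiftHomeo (cl := clS adj) (x := word e)) ε ≤ 0 := by
  apply le_of_forall_pos_le_add
  intro δ hδ
  rw [zero_add]
  refine liminf_le_of_frequently_le (tendsto_factorial_nat.frequently (Eventually.frequently ?_))
    (rate_bounded_below _)
  filter_upwards [(tendsto_excep (one_le_cardV (V := V))).eventually (gt_mem_nhds hδ),
    eventually_ge_atTop 1] with i hi hi1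
  refine le_trans ?_ hi.le
  have hb := span_bound_low (adj := adj) he ctr hctr h1 h2 i hi1 rfl
  have hpos : (0 : ℝ) < Nat.factorial i := by exact_mod_cast Nat.factorial_pos i
  rcases Nat.eq_zero_or_pos (span (shiftHomeo (cl := clS adj) (x := word e)) ε
      (Nat.factorial i)) with h0 | h0
  · rw [h0]; simp only [Nat.cast_zero, Real.log_zero, zero_div]
    exact div_nonneg (Real.log_natCast_nonneg _) hpos.le
  · gcongr
    exact hb

/-- upper bound of the lower rates by capacities -/
theorem lowerSep_le (he : Function.Surjective e) {M : ℕ} (hM1 : 1 ≤ M)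
    (hM : ∀ (c : Bool) (T : ℕ) (F : Finset (Fin T → V)),
      (∀ f ∈ F, ∀ g ∈ F, f ≠ g → ∃ t, farV adj c (f t) (g t)) → F.card ≤ M ^ T)
    {ε : ℝ} (h1 : 1 / 2 < ε) (h2 : ε ≤ 1) :
    lowerSep (shiftHomeo (cl := clS adj) (x := word e)) ε ≤ Real.log M ∧
      lowerSpan (shiftHomeo (cl := clS adj) (x := word e)) ε ≤ Real.log M := by
  have key : ∀ i : ℕ, 1 ≤ i →
      Real.log (sep (shiftHomeo (cl := clS adj) (x := word e)) ε (Nat.factorial i)) /
        (Nat.factorial i : ℝ) ≤ Real.log M +
        Real.log (excep (Fintype.card V) i) / (Nat.factorial i : ℝ) := by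
    intro i hi1
    have hb := sep_le (sep_bound_low (adj := adj) he hM1 hM h1 h2 i hi1 rfl)
    have hpos : (0 : ℝ) < Nat.factorial i := by exact_mod_cast Nat.factorial_pos i
    have hM0 : (0 : ℝ) < M := by exact_mod_cast hM1
    have hlM : 0 ≤ Real.log M := Real.log_nonneg (by exact_mod_cast hM1)
    have hex : 0 < excep (Fintype.card V) i := by unfold excep; omega
    have hex' : (0 : ℝ) < excep (Fintype.card V) i := by exact_mod_cast hex
    rcases Nat.eq_zero_or_pos (sep (shiftHomeo (cl := clS adj) (x := word e)) ε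
      (Nat.factorial i)) with h0 | h0
    · rw [h0]; simp only [Nat.cast_zero, Real.log_zero, zero_div]
      exact add_nonneg hlM (div_nonneg (Real.log_natCast_nonneg _) hpos.le)
    · have h3 : (sep (shiftHomeo (cl := clS adj) (x := word e)) ε (Nat.factorial i) : ℝ) ≤
          (M : ℝ) ^ (Nat.factorial i) * excep (Fintype.card V) i := by
        exact_mod_cast hb
      have h4 := Real.log_le_log (by exact_mod_cast h0) h3
      rw [Real.log_mul (by positivity) hex'.ne', Real.log_pow] at h4
      rw [div_le_iff₀ hpos, add_mul, div_mul_cancel₀ _ hpos.ne']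
      linarith
  have key2 : ∀ i : ℕ, 1 ≤ i →
      Real.log (span (shiftHomeo (cl := clS adj) (x := word e)) ε (Nat.factorial i)) /
        (Nat.factorial i : ℝ) ≤ Real.log M +
        Real.log (excep (Fintype.card V) i) / (Nat.factorial i : ℝ) := by
    intro i hi1
    refine le_trans ?_ (key i hi1)
    have hT : 1 ≤ Nat.factorial i := Nat.factorial_pos i
    have hpos : (0 : ℝ) < Nat.factorial i := by exact_mod_cast hT
    have hle := span_le_sep (by linarith : (0 : ℝ) < ε)
      (sep_bound_id (adj := adj) (e := e) h1 h2 hT)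
    rcases Nat.eq_zero_or_pos (span (shiftHomeo (cl := clS adj) (x := word e)) ε
      (Nat.factorial i)) with h0 | h0
    · rw [h0]
      simp only [Nat.cast_zero, Real.log_zero, zero_div]
      exact div_nonneg (Real.log_natCast_nonneg _) hpos.le
    · gcongr
  constructor
  · apply le_of_forall_pos_le_add
    intro δ hδ
    refine liminf_le_of_frequently_le
      (tendsto_factorial_nat.frequently (Eventually.frequently ?_)) (rate_bounded_below _)
    filter_upwards [(tendsto_excep (one_le_cardV (V := V))).eventually (gt_mem_nhds hδ),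
      eventually_ge_atTop 1] with i hi hi1
    refine (key i hi1).trans ?_
    linarith
  · apply le_of_forall_pos_le_add
    intro δ hδ
    refine liminf_le_of_frequently_le
      (tendsto_factorial_nat.frequently (Eventually.frequently ?_)) (rate_bounded_below _)
    filter_upwards [(tendsto_excep (one_le_cardV (V := V))).eventually (gt_mem_nhds hδ),
      eventually_ge_atTop 1] with i hi hi1
    refine (key2 i hi1).trans ?_
    linarith

end Rates

end Pool.Agent.V11112.TE
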